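import Pool.Agent.Lib.MP_173a7e_an.FreeD

/-! Sums over families of intervals on the circle. -/

set_option autoImplicit false

namespace Pool.Agent.Lib.MP_173a7e_an

open Set Filter Topology

theorem disj_sum {ι : Type} (s : Finset ι) (a l : ι → ℝ) (h0 : ∀ i ∈ s, 0 ≤ l i ∧ l i ≤ 1)
    (h : ∀ i ∈ s, ∀ j ∈ s, i ≠ j → ∀ (m : ℤ) (u : ℝ), a i ≤ u → u < a i + l i →
      a j + m ≤ u → u < a j + m + l j → False) : ∑ i ∈ s, l i ≤ 2 := by
  have hd : PairwiseDisjoint (↑s : Set ι)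
      (fun i => Ico (Int.fract (a i)) (Int.fract (a i) + l i)) := by
    intro i hi j hj hij
    rw [Function.onFun, Set.disjoint_left]
    intro u h1 h2
    simp only [Int.fract, mem_Ico] at h1 h2
    refine h i hi j hj hij (⌊a i⌋ - ⌊a j⌋) (u + ⌊a i⌋) ?_ ?_ ?_ ?_ <;> push_cast <;>
      linarith [h1.1, h1.2, h2.1, h2.2]
  have h1 := MeasureTheory.measure_biUnion_finset (μ := MeasureTheory.volume) hd
    (fun v _ => measurableSet_Ico)
  have h2 : (⋃ i ∈ s, Ico (Int.fract (a i)) (Int.fract (a i) + l i)) ⊆ Ico 0 2 := by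
    intro u hu
    simp only [mem_iUnion] at hu
    obtain ⟨i, hi, hu⟩ := hu
    exact ⟨(Int.fract_nonneg _).trans hu.1,
      by linarith [hu.2, Int.fract_lt_one (a i), (h0 i hi).2]⟩
  have h3 := MeasureTheory.measure_mono (μ := MeasureTheory.volume) h2
  rw [h1] at h3
  simp only [Real.volume_Ico, add_sub_cancel_left] at h3
  rw [← ENNReal.ofReal_sum_of_nonneg (fun i hi => (h0 i hi).1),
    ENNReal.ofReal_le_ofReal_iff (by norm_num)] at h3
  simpa using h3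

theorem geo_sum {α : ℝ} (h : 0 < α) : ∃ K : ℝ, 0 ≤ K ∧
    ∀ (s : Finset ℕ) (θ w : ℕ → ℝ) (B : ℝ), 0 ≤ B → (∀ i ∈ s, 0 < θ i ∧ θ i ≤ 1 ∧ 0 ≤ w i) →
      (∀ r : ℝ, 0 < r → ∑ i ∈ s.filter (fun i => 2 * r / 3 < θ i ∧ θ i ≤ r), w i ≤ B) →
      ∑ i ∈ s, θ i ^ α * w i ≤ K * B := by
  set q : ℝ := ((2 : ℝ) / 3) ^ α with hq
  have q0 : 0 ≤ q := by positivity
  have q1 : q < 1 := Real.rpow_lt_one (by norm_num) (by norm_num) h
  refine ⟨(1 - q)⁻¹, inv_nonneg.2 (by linarith), fun s θ w B hB h1 h2 => ?_⟩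
  have ex : ∀ i ∈ s, ∃ k : ℕ, (2 / 3 : ℝ) ^ (k + 1) < θ i ∧ θ i ≤ (2 / 3) ^ k := fun i hi =>
    exists_nat_pow_near_of_lt_one (h1 i hi).1 (h1 i hi).2.1 (by norm_num) (by norm_num)
  choose! κ hκ using ex
  rw [← Finset.sum_fiberwise_of_maps_to (s := s) (t := s.image κ) (g := κ)
    (fun i hi => Finset.mem_image_of_mem _ hi), ← tsum_geometric_of_lt_one q0 q1, ← tsum_mul_right]
  refine le_trans (Finset.sum_le_sum fun k _ => ?_)
    (((summable_geometric_of_lt_one q0 q1).mul_right B).sum_le_tsum _ fun k _ => by positivity)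
  have b1 : ∀ i ∈ s.filter fun i => κ i = k, θ i ^ α * w i ≤ q ^ k * w i := by
    intro i hi
    rw [Finset.mem_filter] at hi
    have a := hκ i hi.1
    rw [hi.2] at a
    refine mul_le_mul_of_nonneg_right ?_ (h1 i hi.1).2.2
    calc θ i ^ α ≤ ((2 / 3) ^ k : ℝ) ^ α := Real.rpow_le_rpow (h1 i hi.1).1.le a.2 h.le
      _ = _ := by
        rw [hq, ← Real.rpow_natCast_mul (by norm_num), mul_comm (k : ℝ),
          Real.rpow_mul_natCast (by norm_num)]
  refine (Finset.sum_le_sum b1).trans ?_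
  rw [← Finset.mul_sum]
  refine mul_le_mul_of_nonneg_left (le_trans ?_ (h2 ((2 / 3) ^ k) (by positivity))) (by positivity)
  refine Finset.sum_le_sum_of_subset_of_nonneg (fun i hi => ?_)
    fun i hi _ => (h1 i (Finset.mem_filter.1 hi).1).2.2
  rw [Finset.mem_filter] at hi ⊢
  have a := hκ i hi.1
  rw [hi.2, pow_succ] at a
  exact ⟨hi.1, by linarith [a.1], a.2⟩

theorem gap_claim {κ k M : ℝ} (k0 : 0 < k) (k1 : k ≤ 1) (hk : k ≤ κ) (hM : 0 < M) (n : ℕ)
    (z θ l : ℕ → ℝ) (h1 : ∀ i < n, 0 < θ i ∧ l i ≤ 1)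
    (h2 : ∀ i < n, ∀ j < n, i ≠ j → ∀ m : ℤ, κ * min (θ i) (θ j) ≤ |z i - z j - m|)
    (h3 : ∀ i < n, ∀ j < n, ∀ m : ℤ, z i + θ i = z j + θ j + m ∨
      z i + θ i + l i ≤ z j + θ j + m ∨ z j + θ j + m + l j ≤ z i + θ i) :
    ∑ i ∈ Finset.range n, (if M * θ i ≤ l i then θ i else 0) ≤ 4 / (M * k) := by
  rw [← Finset.sum_filter, le_div_iff₀ (mul_pos hM k0), Finset.sum_mul]
  have key := disj_sum ((Finset.range n).filter fun i => M * θ i ≤ l i)
    (fun i => z i + θ i + M * θ i / 2) (fun i => M * θ i * k / 2) (fun i hi => ?_)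
    fun i hi j hj hij m u a1 a2 a3 a4 => ?_
  · have e : ∀ i, θ i * (M * k) = 2 * (M * θ i * k / 2) := fun i => by ring
    simp only [e, ← Finset.mul_sum]
    linarith
  · rw [Finset.mem_filter, Finset.mem_range] at hi
    have b := mul_pos hM (h1 i hi.1).1
    exact ⟨by positivity, by nlinarith [(h1 i hi.1).2, hi.2]⟩
  · rw [Finset.mem_filter, Finset.mem_range] at hi hj
    have bi := mul_pos hM (h1 i hi.1).1
    have bj := mul_pos hM (h1 j hj.1).1
    have ci : M * θ i * k ≤ M * θ i := mul_le_of_le_one_right bi.le k1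
    have cj : M * θ j * k ≤ M * θ j := mul_le_of_le_one_right bj.le k1
    rcases h3 i hi.1 j hj.1 m with e | e | e
    · have d := h2 i hi.1 j hj.1 hij m
      rw [show z i - z j - m = θ j - θ i by linarith] at d
      rcases le_total (θ i) (θ j) with c | c
      · rw [min_eq_left c, abs_of_nonneg (sub_nonneg.2 c)] at d
        have d1 : k * θ i ≤ θ j - θ i := (mul_le_mul_of_nonneg_right hk (h1 i hi.1).1.le).trans d
        have d2 := mul_le_mul_of_nonneg_left d1 hM.le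
        linarith
      · rw [min_eq_right c, abs_of_nonpos (sub_nonpos.2 c)] at d
        have d1 : k * θ j ≤ -(θ j - θ i) :=
          (mul_le_mul_of_nonneg_right hk (h1 j hj.1).1.le).trans d
        have d2 := mul_le_mul_of_nonneg_left d1 hM.le
        linarith
    · linarith [hi.2]
    · linarith [hj.2]

theorem gap_sum0 {α : ℝ} (h0 : 0 < α) (h1 : α ≤ 1) {κ ε : ℝ} (hκ : 0 < κ) (hε : 0 < ε) :
    ∃ ξ > 0, ∀ (n : ℕ) (z θ l : ℕ → ℝ), (∀ i < n, 0 < θ i ∧ θ i ≤ ξ ∧ 0 < l i ∧ l i ≤ 1) →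
      (∀ i < n, ∀ j < n, i ≠ j → ∀ m : ℤ, κ * min (θ i) (θ j) ≤ |z i - z j - m|) →
      (∀ i < n, ∀ j < n, ∀ m : ℤ, z i + θ i = z j + θ j + m ∨
        z i + θ i + l i ≤ z j + θ j + m ∨ z j + θ j + m + l j ≤ z i + θ i) →
      ∑ i ∈ Finset.range n, (θ i + l i) ^ α * θ i ≤ ε := by
  have k0 : 0 < min κ 1 := lt_min hκ one_pos
  set k := min κ 1 with hk
  obtain ⟨θ0, t0, ht⟩ := sum_sep h0 hκ (ε := ε / 4) (by positivity)
  set ρ : ℝ := (ε * k / 16) ^ α⁻¹ with hρ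
  have r0 : 0 < ρ := by positivity
  have r1 : ρ ^ α = ε * k / 16 := Real.rpow_inv_rpow (by positivity) h0.ne'
  have x0 : 0 < min θ0 (ε * ρ * k / 16) := lt_min t0 (by positivity)
  set ξ := min θ0 (ε * ρ * k / 16) with hξ
  refine ⟨ξ, x0, fun n z θ l a1 a2 a3 => ?_⟩
  have s1 := ht n z θ (fun i hi => ⟨(a1 i hi).1, (a1 i hi).2.1.trans (min_le_left _ _)⟩) a2
  have s2 := gap_claim k0 (min_le_right _ _) (min_le_left _ _) one_pos n z θ l
    (fun i hi => ⟨(a1 i hi).1, (a1 i hi).2.2.2⟩) a2 a3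
  have s3 := gap_claim k0 (min_le_right _ _) (min_le_left _ _) (div_pos r0 x0) n z θ l
    (fun i hi => ⟨(a1 i hi).1, (a1 i hi).2.2.2⟩) a2 a3
  have b : ∀ i ∈ Finset.range n, (θ i + l i) ^ α * θ i ≤ 2 * θ i ^ (1 + α) +
      ρ ^ α * (if 1 * θ i ≤ l i then θ i else 0) + (if ρ / ξ * θ i ≤ l i then θ i else 0) := by
    intro i hi
    obtain ⟨c1, c2, c3, c4⟩ := a1 i (Finset.mem_range.1 hi)
    have d1 := mul_le_mul_of_nonneg_right (Real.rpow_add_le_add_rpow c1.le c3.le h0.le h1) c1.le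
    have d2 : θ i ^ (1 + α) = θ i ^ α * θ i := by rw [Real.rpow_add c1, Real.rpow_one, mul_comm]
    have d3 : 0 ≤ θ i ^ α * θ i := by positivity
    have d4 : 0 ≤ ρ ^ α * (if 1 * θ i ≤ l i then θ i else 0) := by split_ifs <;> positivity
    have d5 : 0 ≤ (if ρ / ξ * θ i ≤ l i then θ i else 0) := by split_ifs <;> positivity
    rw [d2]
    rcases le_total (l i) (θ i) with e | e
    · have := mul_le_mul_of_nonneg_right (Real.rpow_le_rpow c3.le e h0.le) c1.le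
      linarith
    rcases le_total (l i) ρ with f | f
    · have := mul_le_mul_of_nonneg_right (Real.rpow_le_rpow c3.le f h0.le) c1.le
      rw [if_pos (by linarith : 1 * θ i ≤ l i)]
      linarith
    · have := mul_le_mul_of_nonneg_right (Real.rpow_le_one c3.le c4 h0.le) c1.le
      have g : ρ / ξ * θ i ≤ l i := by
        refine le_trans ?_ f
        rw [div_mul_eq_mul_div, div_le_iff₀ x0]
        exact mul_le_mul_of_nonneg_left c2 r0.le
      rw [if_pos g]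
      linarith
  refine (Finset.sum_le_sum b).trans ?_
  rw [Finset.sum_add_distrib, Finset.sum_add_distrib, ← Finset.mul_sum, ← Finset.mul_sum]
  have e2 : ρ ^ α * (4 / (1 * k)) = ε / 4 := by rw [r1]; field_simp; norm_num
  have e3 : 4 / (ρ / ξ * k) ≤ ε / 4 := by
    rw [div_le_iff₀ (by positivity), div_mul_eq_mul_div ρ, ← mul_div_assoc, le_div_iff₀ x0]
    linarith [min_le_right θ0 (ε * ρ * k / 16)]
  have e4 := mul_le_mul_of_nonneg_left s2 (Real.rpow_nonneg r0.le α)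
  linarith

variable {G : Type} [Group G] [MulAction G ℝ] [SmoothAct G]

theorem Cantor.gap_sum (A : Cantor G) {α : ℝ} (h0 : 0 < α) (h1 : α ≤ 1) {κ ε : ℝ} (hκ : 0 < κ)
    (hε : 0 < ε) : ∃ ξ > 0,
    (∀ (n : ℕ) (z p : ℕ → ℝ), (∀ i < n, p i ∈ LE A.Λ ∧ z i < p i ∧ p i - z i ≤ ξ) →
      (∀ i < n, ∀ j < n, i ≠ j → ∀ m : ℤ, κ * min (p i - z i) (p j - z j) ≤ |z i - z j - m|) →
      ∑ i ∈ Finset.range n, (nxt A.Λ (p i) - z i) ^ α * (p i - z i) ≤ ε) ∧
    ∀ (n : ℕ) (z p : ℕ → ℝ),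
      (∀ i < n, p i ∈ LE A.Λ ∧ nxt A.Λ (p i) < z i ∧ z i - nxt A.Λ (p i) ≤ ξ) →
      (∀ i < n, ∀ j < n, i ≠ j → ∀ m : ℤ,
        κ * min (z i - nxt A.Λ (p i)) (z j - nxt A.Λ (p j)) ≤ |z i - z j - m|) →
      ∑ i ∈ Finset.range n, (z i - p i) ^ α * (z i - nxt A.Λ (p i)) ≤ ε := by
  obtain ⟨ξ, x0, H⟩ := gap_sum0 h0 h1 hκ hε
  have tri : ∀ {p q : ℝ}, p ∈ LE A.Λ → q ∈ LE A.Λ → ∀ m : ℤ, p = q + m ∨ nxt A.Λ p ≤ q + m ∨
      nxt A.Λ q + m ≤ p := fun {p q} hp hq m => by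
    rcases lt_trichotomy p (q + m) with h | h | h
    · exact Or.inr (Or.inl (A.nxt_le ((A.add_int_mem m).2 hq.1) h))
    · exact Or.inl h
    · exact Or.inr (Or.inr (A.nxt_int q m ▸ A.nxt_le hp.1 h))
  refine ⟨ξ, x0, fun n z p a1 a2 => ?_, fun n z p a1 a2 => ?_⟩
  · refine le_trans (le_of_eq (Finset.sum_congr rfl fun i _ => ?_))
      (H n z (fun i => p i - z i) (fun i => nxt A.Λ (p i) - p i) (fun i hi => ?_) a2
        fun i hi j hj m => ?_)
    · rw [sub_add_sub_cancel']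
    · obtain ⟨b1, b2, b3⟩ := a1 i hi
      exact ⟨sub_pos.2 b2, b3, sub_pos.2 (A.lt_nxt b1), by linarith [A.nxt_le_one b1.1]⟩
    · rcases tri (a1 i hi).1 (a1 j hj).1 m with h | h | h
      · exact Or.inl (by linarith)
      · exact Or.inr (Or.inl (by linarith))
      · exact Or.inr (Or.inr (by linarith))
  · refine le_trans (le_of_eq (Finset.sum_congr rfl fun i _ => ?_))
      (H n (fun i => -z i) (fun i => z i - nxt A.Λ (p i)) (fun i => nxt A.Λ (p i) - p i)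
        (fun i hi => ?_) (fun i hi j hj hij m => ?_) fun i hi j hj m => ?_)
    · rw [sub_add_sub_cancel]
    · obtain ⟨b1, b2, b3⟩ := a1 i hi
      exact ⟨sub_pos.2 b2, b3, sub_pos.2 (A.lt_nxt b1), by linarith [A.nxt_le_one b1.1]⟩
    · refine (a2 i hi j hj hij (-m)).trans (le_of_eq ?_)
      rw [← abs_neg]
      congr 1
      push_cast
      ring
    · rcases tri (a1 i hi).1 (a1 j hj).1 (-m) with h | h | h
      · have h2 := A.nxt_int (p j) (-m)
        rw [← h] at h2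
        push_cast at h2
        exact Or.inl (by linarith)
      · push_cast at h
        exact Or.inr (Or.inr (by linarith))
      · push_cast at h
        exact Or.inr (Or.inl (by linarith))

end Pool.Agent.Lib.MP_173a7e_an
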