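import Pool.Agent.Lib.MP_173a7e_an.AllA

/-! Paths, views from a point, and points with trivial germs on the right. -/

set_option autoImplicit false

namespace Pool.Agent.Lib.MP_173a7e_an

open Set Filter Topology
open scoped Pointwise

variable {G : Type} [Group G] [MulAction G ℝ]

/-- The first `n` images of `x` are distinct modulo integers. -/
def Sim (x : ℝ) (γ : ℕ → G) (n : ℕ) : Prop :=
  ∀ i < n, ∀ j < n, i ≠ j → ∀ m : ℤ, γ i • x ≠ γ j • x + m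

/-- The signed length of the segment from `a` to `b` seen from `x` through `g`. -/
noncomputable def Vw (x : ℝ) (g : G) (a b : ℝ) : ℝ :=
  D g x / (g • a - g • x) - D g x / (g • b - g • x)

/-- Every interval with end points in the Cantor set contains a gap of cross ratio at least `c`. -/
def Cantor.Thick (A : Cantor G) (c : ℝ) : Prop :=
  ∀ p ∈ A.Λ, ∀ q ∈ A.Λ, (∃ w ∈ A.Λ, p < w ∧ w < q) → q ≤ p + 1 →
    ∃ j ∈ LE A.Λ, p ≤ j ∧ nxt A.Λ j ≤ q ∧ c * ((j - p) * (q - nxt A.Λ j)) ≤ A.len j * (q - p)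

/-- Gaps within distance `r` of `z` are small as seen from `z`. -/
def Cantor.Thk (A : Cantor G) (c r z : ℝ) : Prop :=
  (∀ p ∈ LE A.Λ, z < p → nxt A.Λ p ≤ z + r → A.len p < c * (nxt A.Λ p - z)) ∧
    ∀ p ∈ LE A.Λ, nxt A.Λ p < z → z - r ≤ p → A.len p < c * (z - p)

/-- Points accumulated from both sides. -/
def Cantor.Two (A : Cantor G) (z : ℝ) : Prop :=
  z ∈ A.Λ ∧ (∀ ε > 0, ∃ w ∈ A.Λ, z < w ∧ w < z + ε) ∧ ∀ ε > 0, ∃ w ∈ A.Λ, z - ε < w ∧ w < z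

/-- A non-expandable point all of whose loops are trivial on the Cantor set on the right. -/
structure Bad (A : Cantor G) where
  x : ℝ
  δ : ℝ
  δ_pos : 0 < δ
  exp : A.Exp δ
  mem : x ∈ A.Λ
  ne : ∀ g : G, D g x ≤ 1
  acc : ∀ ε > 0, ∃ w ∈ A.Λ, x < w ∧ w < x + ε
  triv : ∀ f : G, f • x = x → ∃ v, x < v ∧ ∀ w ∈ A.Λ, x < w → w < v → f • w = w

theorem Sim.mono {x : ℝ} {γ : ℕ → G} {n m : ℕ} (h : Sim x γ n) (hm : m ≤ n) : Sim x γ m :=
  fun i hi j hj => h i (by omega) j (by omega)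

omit [MulAction G ℝ] in
theorem Pa.rev {S : Finset G} (hS : ∀ s ∈ S, s⁻¹ ∈ S) {γ : ℕ → G} {n : ℕ} (h : Pa S γ n) :
    Pa S (fun i => γ (n - i)) n := by
  intro k hk
  obtain ⟨s, hs, e⟩ := h (n - (k + 1)) (by omega)
  rw [show n - (k + 1) + 1 = n - k by omega] at e
  exact ⟨s⁻¹, hS s hs, by simp only [e, inv_mul_cancel_left]⟩

theorem Vw_swap (x : ℝ) (g : G) (a b : ℝ) : Vw x g a b = -Vw x g b a := by
  unfold Vw; ring

theorem Vw_one (x a b : ℝ) : Vw x (1 : G) a b = 1 / (a - x) - 1 / (b - x) := by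
  unfold Vw; simp only [D_one, one_smul]

theorem young {α s θ : ℝ} (h : 0 < α) (hs : 0 ≤ s) (hθ : 0 ≤ θ) :
    s * θ ^ α ≤ s ^ (1 + α) + θ ^ (1 + α) := by
  have e : ∀ u : ℝ, 0 ≤ u → u ^ (1 + α) = u * u ^ α := fun u hu => by
    rw [Real.rpow_add' hu (by linarith), Real.rpow_one]
  have p1 := mul_nonneg hs (Real.rpow_nonneg hs α)
  have p2 := Real.rpow_nonneg hθ α
  rw [e s hs, e θ hθ]
  rcases le_total s θ with c | c
  · linarith [mul_le_mul_of_nonneg_right c p2]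
  · linarith [mul_le_mul_of_nonneg_left (Real.rpow_le_rpow hθ c h.le) hs, mul_nonneg hθ p2]

variable [SmoothAct G]

theorem act_le_one (g : G) {a b : ℝ} (h : b ≤ a + 1) : g • b ≤ g • a + 1 := by
  rw [← SmoothAct.per]; exact (act_le g).2 h

theorem Cantor.Two.act {A : Cantor G} {z : ℝ} (h : A.Two z) (g : G) : A.Two (g • z) := by
  refine ⟨A.inv g z h.1, fun ε hε => ?_, fun ε hε => ?_⟩
  · have a : z < g⁻¹ • (g • z + ε) := by rw [← act_lt g, smul_inv_smul]; linarith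
    obtain ⟨w, hw, b, c⟩ := h.2.1 _ (sub_pos.2 a)
    refine ⟨g • w, A.inv g w hw, (act_lt g).2 b, ?_⟩
    rw [← smul_inv_smul g (g • z + ε), act_lt]; linarith
  · have a : g⁻¹ • (g • z - ε) < z := by rw [← act_lt g, smul_inv_smul]; linarith
    obtain ⟨w, hw, b, c⟩ := h.2.2 _ (sub_pos.2 a)
    refine ⟨g • w, A.inv g w hw, ?_, (act_lt g).2 c⟩
    rw [← smul_inv_smul g (g • z - ε), act_lt]; linarith

theorem Gen.path_Y (Γ : Gen G) {γ : ℕ → G} {n : ℕ} (hγ : Pa Γ.S γ n) {lo hi p p' t1 t2 : ℝ}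
    (h : Ord4 lo hi p p' t1 t2) (hl : hi ≤ lo + 1) :
    |Xr (γ n) p p' t1 t2 - Xr (γ 0) p p' t1 t2| ≤ 2 * Γ.C *
      ∑ k ∈ Finset.range n, (γ k • hi - γ k • lo) ^ Γ.α * (γ k • t2 - γ k • t1) := by
  induction n with
  | zero => simp
  | succ n ih =>
    obtain ⟨s, hs, e⟩ := hγ n (by omega)
    have a := ih (hγ.mono (by omega))
    have b := Γ.cr hs (h.act (γ n)) (by linarith [act_le_one (γ n) hl])
    rw [e, Xr_mul, Finset.sum_range_succ, mul_add, add_sub_assoc]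
    refine (abs_add_le _ _).trans ?_
    rw [mul_assoc (2 * Γ.C)] at b
    linarith

omit [SmoothAct G] in
theorem Vw_sl (g : G) {x a b : ℝ} (ha : a ≠ x) (hb : b ≠ x) : Vw x g a b =
    sl g x x * sl g a b / (sl g x a * sl g x b) * (1 / (a - x) - 1 / (b - x)) := by
  by_cases h : b = a
  · rw [h, Vw, sub_self, sub_self, mul_zero]
  · have p1 := sub_ne_zero.2 ha
    have p2 := sub_ne_zero.2 hb
    have p3 := sub_ne_zero.2 h
    have p4 := sub_ne_zero.2 (act_ne g ha)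
    have p5 := sub_ne_zero.2 (act_ne g hb)
    rw [Vw, sl_same, sl_ne g ha, sl_ne g hb, sl_ne g h]
    field_simp
    ring

/-- The view changes by a controlled factor; `b` is not strictly between `x` and `a`. -/
theorem Gen.path_V (Γ : Gen G) {γ : ℕ → G} {n : ℕ} (hγ : Pa Γ.S γ n) {x a b lo hi : ℝ}
    (hb : b ≠ x) (ho : (x < a ∧ (b ≤ x ∨ a ≤ b)) ∨ (a < x ∧ (b ≤ a ∨ x ≤ b)))
    (h1 : lo ≤ x ∧ x ≤ hi) (h2 : lo ≤ a ∧ a ≤ hi) (h3 : lo ≤ b ∧ b ≤ hi) (hl : hi ≤ lo + 1) {E : ℝ}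
    (hE : 2 * Γ.C * ∑ k ∈ Finset.range n, (γ k • hi - γ k • lo) ^ Γ.α * |γ k • a - γ k • x| ≤ E) :
    ∃ μ : ℝ, Real.exp (-E) ≤ μ ∧ μ ≤ Real.exp E ∧ Vw x (γ n) a b = μ * Vw x (γ 0) a b := by
  have key : ∀ {p p' t1 t2 : ℝ}, Ord4 lo hi p p' t1 t2 →
      (∀ g : G, g • t2 - g • t1 = |g • a - g • x|) →
      (∀ g : G, Vw x g a b = Real.exp (Xr g p p' t1 t2) * (1 / (a - x) - 1 / (b - x))) →
      ∃ μ : ℝ, Real.exp (-E) ≤ μ ∧ μ ≤ Real.exp E ∧ Vw x (γ n) a b = μ * Vw x (γ 0) a b := by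
    intro p p' t1 t2 o e1 e2
    have q := Γ.path_Y hγ o hl
    simp only [e1] at q
    have q' := abs_le.1 (q.trans hE)
    refine ⟨Real.exp (Xr (γ n) p p' t1 t2 - Xr (γ 0) p p' t1 t2), Real.exp_le_exp.2 q'.1,
      Real.exp_le_exp.2 q'.2, ?_⟩
    rw [e2, e2, ← mul_assoc, ← Real.exp_add, sub_add_cancel]
  rcases ho with ⟨c, d⟩ | ⟨c, d⟩
  · refine key (p := b) (p' := x) (t1 := x) (t2 := a)
      ⟨h3.1, h3.2, h1.1, h1.2, h1.1, c.le, h2.2, d, Or.inl le_rfl⟩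
      (fun g => (abs_of_pos (sub_pos.2 ((act_lt g).2 c))).symm) fun g => ?_
    rw [exp_Xr, Vw_sl g c.ne' hb, sl_symm g b a, sl_symm g b x, mul_comm (sl g a b),
      mul_comm (sl g x b)]
  · refine key (p := x) (p' := b) (t1 := a) (t2 := x)
      ⟨h1.1, h1.2, h3.1, h3.2, h2.1, c.le, h1.2, Or.inr le_rfl, d⟩
      (fun g => by rw [abs_of_neg (sub_neg.2 ((act_lt g).2 c)), neg_sub]) fun g => ?_
    rw [exp_Xr, Vw_sl g c.ne hb, sl_symm g b a, sl_symm g b x]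

theorem first_rep (Γ : Gen G) {x y δ : ℝ} (hw : ∃ w : G, δ ≤ |w • y - w • x|)
    (hs : ∀ (γ : ℕ → G) (n : ℕ), Pa Γ.S γ n → γ 0 = 1 → Sim x γ (n + 1) →
      |γ n • y - γ n • x| < δ) :
    ∃ (γ : ℕ → G) (i j : ℕ) (m : ℤ), Pa Γ.S γ i ∧ γ 0 = 1 ∧ Sim x γ i ∧ j < i ∧
      γ i • x = γ j • x + m ∧ γ i • y ≠ γ j • y + m := by
  classical
  have ex : ∃ n : ℕ, ∃ w ∈ (Γ.S : Set G) ^ n, δ ≤ |w • y - w • x| := by
    obtain ⟨w, h⟩ := hw
    obtain ⟨n, hn⟩ := Γ.gen w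
    exact ⟨n, w, hn, h⟩
  obtain ⟨w, hw1, hw2⟩ := Nat.find_spec ex
  have mn := fun k => Nat.find_min ex (m := k)
  generalize Nat.find ex = n at hw1 mn
  obtain ⟨γ, c1, c2, c3⟩ := pa_of_pow n w hw1
  have ns : ¬ Sim x γ (n + 1) := fun h => by
    have := hs γ n c1 c2 h
    rw [c3] at this
    linarith
  have ex2 : ∃ i : ℕ, ¬ Sim x γ (i + 1) := ⟨n, ns⟩
  have d1 := Nat.find_spec ex2
  have d2 := Nat.find_min' ex2 ns
  have d3 : Sim x γ (Nat.find ex2) := by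
    rcases h : Nat.find ex2 with _ | k
    · exact fun i hi => absurd hi (Nat.not_lt_zero i)
    · exact not_not.1 (Nat.find_min ex2 (m := k) (by omega))
  generalize Nat.find ex2 = i at d1 d2 d3
  have d4 : ∃ j < i, ∃ m : ℤ, γ i • x = γ j • x + m := by
    by_contra hc
    push Not at hc
    refine d1 fun a ha b hb hab m e => ?_
    rcases (Nat.lt_succ_iff.1 ha).eq_or_lt with rfl | ha'
    · exact hc b (by omega) m e
    · rcases (Nat.lt_succ_iff.1 hb).eq_or_lt with rfl | hb'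
      · exact hc a ha' (-m) (by rw [e]; push_cast; ring)
      · exact d3 a ha' b hb' hab m e
  obtain ⟨j, hj, m, e⟩ := d4
  refine ⟨γ, i, j, m, c1.mono d2, c2, d3, hj, e, fun e' => mn (n - i + j) (by omega) ?_⟩
  have m1 := c1.mem_pow i (n - i) (by omega)
  have m2 := c1.mem_pow 0 j (by omega)
  rw [show i + (n - i) = n by omega, c3] at m1
  rw [zero_add, c2, inv_one, mul_one] at m2
  have f : ∀ z : ℝ, γ i • z = γ j • z + m → (w * (γ i)⁻¹ * γ j) • z = w • z - m := fun z hz => by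
    rw [mul_smul, ← sub_eq_iff_eq_add.2 hz, act_sub_int, mul_smul, inv_smul_smul]
  refine ⟨w * (γ i)⁻¹ * γ j, by rw [pow_add]; exact Set.mul_mem_mul m1 m2, ?_⟩
  rw [f x e, f y e', sub_sub_sub_cancel_right]
  exact hw2

theorem Bad.jet {A : Cantor G} (B : Bad A) {g h : G} {m : ℤ} (e : g • B.x = h • B.x + m) :
    D g B.x = D h B.x ∧ Nl g B.x = Nl h B.x := by
  obtain ⟨m', hm⟩ := Tr.smul (u := A.t ^ m) ⟨m, A.tz_smul m⟩
  set f := (h * A.t ^ m)⁻¹ * g with hf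
  have e1 : g = h * A.t ^ m * f := by rw [hf, mul_inv_cancel_left]
  have e2 : f • B.x = B.x := by
    rw [hf, mul_smul, inv_smul_eq_iff, e, mul_smul, A.tz_smul, act_int]
  have e3 : D f B.x = 1 := by
    have a := D_inv_mul f B.x
    rw [e2] at a
    have b := mul_le_mul_of_nonneg_right (B.ne f⁻¹) (D_pos f B.x).le
    linarith [B.ne f]
  have e4 : DD f B.x = 0 := by
    by_contra hc
    obtain ⟨ε, ε0, hε⟩ := Metric.eventually_nhds_iff.1
      ((cont_DD f).continuousAt.eventually_ne hc)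
    obtain ⟨v, hv, hv'⟩ := B.triv f e2
    obtain ⟨w, hw, w1, w2⟩ := B.acc _ (lt_min ε0 (sub_pos.2 hv))
    obtain ⟨ξ, hξ, e5⟩ := taylor2 f w1.ne'
    rw [uIcc_of_ge w1.le] at hξ
    rw [e3, e2, hv' w hw w1 (by linarith [min_le_right ε (v - B.x)]), one_mul, sub_self] at e5
    refine hε (y := ξ) ?_ ?_
    · rw [Real.dist_eq, abs_of_nonneg (sub_nonneg.2 hξ.1)]
      linarith [min_le_left ε (v - B.x), hξ.2]
    · have := (mul_eq_zero.1 e5.symm).resolve_right (pow_ne_zero 2 (sub_neg.2 w1).ne)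
      linarith
  have e5 : Nl f B.x = 0 := by rw [Nl, e4, zero_div]
  constructor
  · rw [e1, D_mul, e2, e3, mul_one, (hm h B.x).2.1]
  · rw [e1, Nl_mul, e2, e3, e5, mul_one, add_zero, (hm h B.x).2.2]

end Pool.Agent.Lib.MP_173a7e_an
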