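import Pool.Agent.Lib.MP_173a7e_an.AllB

/-! Thickness: every interval contains a gap of definite cross ratio. -/

set_option autoImplicit false

namespace Pool.Agent.Lib.MP_173a7e_an

open Set Filter Topology
open scoped Pointwise

variable {G : Type} [Group G] [MulAction G ℝ] [SmoothAct G]

namespace AllC

/-- The gaps along a shortest path are disjoint modulo integers. -/
theorem sum_gap (n : ℕ) (P a b Q : ℕ → ℝ)
    (h : ∀ t, P t < a t ∧ a t < b t ∧ b t < Q t ∧ Q t ≤ P t + 1)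
    (hs : ∀ t t', t < t' → t' < n → ∀ m : ℤ, b t' + m ≤ P t ∨ Q t ≤ a t' + m) :
    ∑ t ∈ Finset.range n, (b t - a t) ≤ 2 := by
  refine disj_sum _ a _ (fun i _ => ?_) fun i hi j hj hij m u h1 h2 h3 h4 => ?_
  · obtain ⟨h1, h2, h3, h4⟩ := h i
    constructor <;> linarith
  obtain ⟨i1, i2, i3, i4⟩ := h i
  obtain ⟨j1, j2, j3, j4⟩ := h j
  rcases lt_or_gt_of_ne hij with hl | hl
  · rcases hs i j hl (Finset.mem_range.1 hj) m with e | e <;> linarith
  · rcases hs j i hl (Finset.mem_range.1 hi) (-m) with e | e <;> push_cast at e <;> linarith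

/-- The left parts at the times when they are the shorter ones. -/
theorem sum_left {α K : ℝ}
    (hK : ∀ (s : Finset ℕ) (θ w : ℕ → ℝ) (B : ℝ), 0 ≤ B → (∀ i ∈ s, 0 < θ i ∧ θ i ≤ 1 ∧ 0 ≤ w i) →
      (∀ r : ℝ, 0 < r → ∑ i ∈ s.filter (fun i => 2 * r / 3 < θ i ∧ θ i ≤ r), w i ≤ B) →
      ∑ i ∈ s, θ i ^ α * w i ≤ K * B)
    (n : ℕ) (P a b Q : ℕ → ℝ) (h : ∀ t, P t < a t ∧ a t < b t ∧ b t < Q t ∧ Q t ≤ P t + 1)
    (hs : ∀ t t', t < t' → t' < n → ∀ m : ℤ, b t' + m ≤ P t ∨ Q t ≤ a t' + m)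
    (s : Finset ℕ) (hn : ∀ t ∈ s, t < n ∧ a t - P t ≤ Q t - b t) :
    ∑ t ∈ s, (Q t - P t) ^ α * (a t - P t) ≤ K * 4 := by
  refine hK s (fun t => Q t - P t) (fun t => a t - P t) 4 (by norm_num) (fun i _ => ?_)
    fun r _ => ?_
  · obtain ⟨h1, h2, h3, h4⟩ := h i
    refine ⟨?_, ?_, ?_⟩ <;> linarith
  have key := disj_sum (s.filter fun i => 2 * r / 3 < Q i - P i ∧ Q i - P i ≤ r) P
    (fun t => (a t - P t) / 2) (fun i _ => by
      obtain ⟨h1, h2, h3, h4⟩ := h i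
      constructor <;> linarith) fun i hi j hj hij m u h1 h2 h3 h4 => by
      obtain ⟨i0, i5, i6⟩ := Finset.mem_filter.1 hi
      obtain ⟨j0, j5, j6⟩ := Finset.mem_filter.1 hj
      obtain ⟨i1, i2, i3, i4⟩ := h i
      obtain ⟨j1, j2, j3, j4⟩ := h j
      obtain ⟨i7, i8⟩ := hn i i0
      obtain ⟨j7, j8⟩ := hn j j0
      rcases lt_or_gt_of_ne hij with hl | hl
      · rcases hs i j hl j7 m with e | e <;> linarith
      · rcases hs j i hl i7 (-m) with e | e <;> push_cast at e <;> linarith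
  rw [← Finset.sum_div] at key
  linarith

theorem sum_all {α : ℝ} (hα : 0 < α) : ∃ B : ℝ, ∀ (n : ℕ) (P a b Q : ℕ → ℝ),
    (∀ t, P t < a t ∧ a t < b t ∧ b t < Q t ∧ Q t ≤ P t + 1) →
    (∀ t t', t < t' → t' < n → ∀ m : ℤ, b t' + m ≤ P t ∨ Q t ≤ a t' + m) →
    ∑ t ∈ Finset.range n, (Q t - P t) ^ α * (min (a t - P t) (Q t - b t) + (b t - a t)) ≤ B := by
  obtain ⟨K, -, hK⟩ := geo_sum hα
  refine ⟨8 * K + 2, fun n P a b Q h hs => ?_⟩
  have h1 := sum_gap n P a b Q h hs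
  have h2 := sum_left hK n P a b Q h hs ((Finset.range n).filter fun t => a t - P t ≤ Q t - b t)
    fun t ht => by simpa using ht
  have h3 := sum_left hK n (fun t => -Q t) (fun t => -b t) (fun t => -a t) (fun t => -P t)
    (fun t => by
      obtain ⟨h1, h2, h3, h4⟩ := h t
      refine ⟨?_, ?_, ?_, ?_⟩ <;> linarith)
    (fun t t' ht ht' m => by
      rcases hs t t' ht ht' (-m) with e | e <;> push_cast at e
      · right; linarith
      · left; linarith)
    ((Finset.range n).filter fun t => ¬ a t - P t ≤ Q t - b t) fun t ht => by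
      obtain ⟨e1, e2⟩ := Finset.mem_filter.1 ht
      exact ⟨Finset.mem_range.1 e1, by linarith [not_le.1 e2]⟩
  have h4 : ∑ t ∈ Finset.range n, (Q t - P t) ^ α * (b t - a t) ≤
      ∑ t ∈ Finset.range n, (b t - a t) := Finset.sum_le_sum fun t _ => by
    obtain ⟨h1, h2, h3, h4⟩ := h t
    exact mul_le_of_le_one_left (by linarith)
      (Real.rpow_le_one (by linarith) (by linarith) hα.le)
  have h5 := Finset.sum_filter_add_sum_filter_not (Finset.range n)
    (fun t => a t - P t ≤ Q t - b t) fun t => (Q t - P t) ^ α * min (a t - P t) (Q t - b t)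
  have h6 : ∑ t ∈ (Finset.range n).filter fun t => a t - P t ≤ Q t - b t,
      (Q t - P t) ^ α * min (a t - P t) (Q t - b t) =
      ∑ t ∈ (Finset.range n).filter fun t => a t - P t ≤ Q t - b t,
        (Q t - P t) ^ α * (a t - P t) := Finset.sum_congr rfl fun t ht => by
    rw [min_eq_left (Finset.mem_filter.1 ht).2]
  have h7 : ∑ t ∈ (Finset.range n).filter fun t => ¬ a t - P t ≤ Q t - b t,
      (Q t - P t) ^ α * min (a t - P t) (Q t - b t) =
      ∑ t ∈ (Finset.range n).filter fun t => ¬ a t - P t ≤ Q t - b t,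
        (-P t - -Q t) ^ α * (-b t - -Q t) := Finset.sum_congr rfl fun t ht => by
    rw [min_eq_right (not_le.1 (Finset.mem_filter.1 ht).2).le, show -P t - -Q t = Q t - P t by ring,
      show -b t - -Q t = Q t - b t by ring]
  simp only [mul_add, Finset.sum_add_distrib]
  linarith

theorem step (Γ : Gen G) {s : G} (hs : s ∈ Γ.S) {p a b q : ℝ} (h1 : p ≤ a) (h2 : a ≤ b)
    (h3 : b ≤ q) (h4 : q ≤ p + 1) :
    |Xr s a q p b| ≤ 2 * Γ.C * ((q - p) ^ Γ.α * (min (a - p) (q - b) + (b - a))) := by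
  have hl : q - p ≤ 1 := by linarith
  have pa : p ≤ b := h1.trans h2
  have aq : a ≤ q := h2.trans h3
  have pq : p ≤ q := pa.trans h3
  rcases le_total (a - p) (q - b) with e | e
  · have e1 := Γ.cr hs (lo := p) (hi := q) (p := a) (p' := q) (t1 := p) (t2 := a)
      ⟨h1, aq, pq, le_rfl, le_rfl, h1, aq, Or.inr le_rfl, Or.inr aq⟩ hl
    have e2 := Γ.cr hs (lo := p) (hi := q) (p := a) (p' := q) (t1 := a) (t2 := b)
      ⟨h1, aq, pq, le_rfl, h1, h2, h3, Or.inl le_rfl, Or.inr h3⟩ hl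
    have e3 : Xr s a q p b = Xr s a q p a + Xr s a q a b := by unfold Xr; ring
    rw [min_eq_left e, e3]
    refine (abs_add_le _ _).trans ?_
    linarith
  · have e1 := Γ.cr hs (lo := p) (hi := q) (p := p) (p' := b) (t1 := a) (t2 := b)
      ⟨le_rfl, pq, pa, h3, h1, h2, h3, Or.inl h1, Or.inr le_rfl⟩ hl
    have e2 := Γ.cr hs (lo := p) (hi := q) (p := p) (p' := b) (t1 := b) (t2 := q)
      ⟨le_rfl, pq, pa, h3, pa, h3, le_rfl, Or.inl pa, Or.inl le_rfl⟩ hl
    have e3 : Xr s a q p b = Xr s p b a b + Xr s p b b q := by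
      unfold Xr
      rw [Fl_symm s a b, Fl_symm s a p, Fl_symm s q b, Fl_symm s q p]
      ring
    rw [min_eq_right e, e3]
    refine (abs_add_le _ _).trans ?_
    linarith

theorem path (Γ : Gen G) {γ : ℕ → G} {p a b q : ℝ} (h1 : p ≤ a) (h2 : a ≤ b) (h3 : b ≤ q)
    (h4 : q ≤ p + 1) (h0 : γ 0 = 1) (n : ℕ) (hγ : Pa Γ.S γ n) :
    Xr (γ n) a q p b ≤ 2 * Γ.C * ∑ t ∈ Finset.range n, (γ t • q - γ t • p) ^ Γ.α *
      (min (γ t • a - γ t • p) (γ t • q - γ t • b) + (γ t • b - γ t • a)) := by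
  induction n with
  | zero => simp [h0, Xr_one]
  | succ n ih =>
    obtain ⟨s, hs, e⟩ := hγ n n.lt_succ_self
    have e1 := ih (hγ.mono n.le_succ)
    have e2 := step Γ hs ((act_le (γ n)).2 h1) ((act_le (γ n)).2 h2) ((act_le (γ n)).2 h3)
      (act_le_one (γ n) h4)
    rw [e, Xr_mul, Finset.sum_range_succ, mul_add]
    linarith [le_abs_self (Xr s (γ n • a) (γ n • q) (γ n • p) (γ n • b))]

theorem cross (g : G) {p a b q : ℝ} (h1 : p < a) (h2 : a < b) (h3 : b < q) :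
    (g • b - g • a) * (g • q - g • p) * ((a - p) * (q - b)) =
      Real.exp (Xr g a q p b) * ((b - a) * (q - p)) * ((g • a - g • p) * (g • q - g • b)) := by
  have e1 := sub_ne_zero.2 ((act_lt g).2 h1).ne
  have e3 := sub_ne_zero.2 ((act_lt g).2 h3).ne
  have e4 := sub_ne_zero.2 h1.ne
  have e5 := sub_ne_zero.2 h2.ne'
  have e6 := sub_ne_zero.2 h3.ne
  have e7 := sub_ne_zero.2 (h1.trans (h2.trans h3)).ne
  rw [exp_Xr, sl_ne g h2.ne', sl_ne g (h1.trans (h2.trans h3)).ne, sl_ne g h1.ne, sl_ne g h3.ne]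
  field_simp
  ring

theorem thk_int (A : Cantor G) {c r z : ℝ} (h : A.Thk c r z) (m : ℤ) : A.Thk c r (z + m) := by
  refine ⟨fun p hp h1 h2 => ?_, fun p hp h1 h2 => ?_⟩
  · have := h.1 _ (A.LE_int hp (-m)) (by push_cast; linarith)
      (by rw [A.nxt_int]; push_cast; linarith)
    rw [A.len_int, A.nxt_int] at this
    push_cast at this
    convert this using 2
    ring
  · have := h.2 _ (A.LE_int hp (-m)) (by rw [A.nxt_int]; push_cast; linarith)
      (by push_cast; linarith)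
    rw [A.len_int] at this
    push_cast at this
    convert this using 2
    ring

omit [SmoothAct G] in
theorem core (A : Cantor G) {c : ℝ} (hc : 0 < c) (hc1 : c ≤ 1) (hT : A.Thick c)
    {p q r r' : ℝ} (hp : A.Two p) (hq : A.Two q) (h1 : A.Thk (c / 4) r p)
    (h2 : A.Thk (c / 4) r' q) (hpq : p < q) (hr : q - p < r) (hr' : q - p < r')
    (hl : q - p ≤ 1) : False := by
  obtain ⟨w, hw, w1, w2⟩ := hp.2.1 (q - p) (sub_pos.2 hpq)
  obtain ⟨j, hj, j1, j2, j3⟩ := hT p hp.1 q hq.1 ⟨w, hw, w1, by linarith⟩ (by linarith)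
  have l0 := A.len_pos hj
  have le : A.len j = nxt A.Λ j - j := rfl
  have j4 : p < j := lt_of_le_of_ne j1 fun e => by
    obtain ⟨u, hu, u1, u2⟩ := hp.2.1 _ l0
    exact A.not_mem_gap (p := j) (by linarith) (by linarith) hu
  have j5 : nxt A.Λ j < q := lt_of_le_of_ne j2 fun e => by
    obtain ⟨u, hu, u1, u2⟩ := hq.2.2 _ l0
    exact A.not_mem_gap (p := j) (by linarith) (by linarith) hu
  have e1 := h1.1 j hj j4 (by linarith)
  have e2 := h2.2 j hj j5 (by linarith)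
  obtain ⟨l, hl'⟩ : ∃ l, l = A.len j := ⟨_, rfl⟩
  obtain ⟨x, hx⟩ : ∃ x, x = j - p := ⟨_, rfl⟩
  obtain ⟨y, hy⟩ : ∃ y, y = q - nxt A.Λ j := ⟨_, rfl⟩
  rw [show nxt A.Λ j - p = x + l by linarith, ← hl'] at e1
  rw [show q - j = y + l by linarith, ← hl'] at e2
  rw [show q - p = x + l + y by linarith, ← hl', ← hx, ← hy] at j3
  rw [← hl'] at l0
  have x0 : 0 < x := by linarith
  have y0 : 0 < y := by linarith
  have f1 : 3 * l < c * x := by nlinarith
  have f2 : 3 * l < c * y := by nlinarith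
  have f3 : 3 * l < x := by nlinarith
  have g1 := mul_lt_mul_of_pos_right f1 y0
  have g2 := mul_lt_mul_of_pos_right f2 x0
  have g3 := mul_lt_mul_of_pos_left f3 l0
  nlinarith [mul_pos hc (mul_pos x0 y0)]

end AllC

theorem Cantor.thick (A : Cantor G) (Γ : Gen G) {δ : ℝ} (hδ : 0 < δ) (hE : A.Exp δ) :
    ∃ c > 0, c ≤ 1 ∧ A.Thick c := by
  classical
  have C1 := Γ.C_pos
  obtain ⟨B, hB⟩ := AllC.sum_all Γ.α_pos
  refine ⟨min 1 (4 * δ * Real.exp (-(2 * Γ.C * B))), lt_min one_pos (by positivity),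
    min_le_left _ _, fun p hp q hq hw hl => ?_⟩
  have ex : ∃ n : ℕ, ∃ j ∈ LE A.Λ, p ≤ j ∧ nxt A.Λ j ≤ q ∧
      ∃ w ∈ (Γ.S : Set G) ^ n, δ ≤ A.len (w • j) := by
    obtain ⟨j, hj, h1, h2, w, h3⟩ := hE p q hw
    obtain ⟨n, hn⟩ := Γ.gen w
    exact ⟨n, j, hj, h1.le, h2.le, w, hn, h3⟩
  obtain ⟨j, hj, h1, h2, w, hwn, h3⟩ := Nat.find_spec ex
  have hmin := fun k => Nat.find_min ex (m := k)
  generalize Nat.find ex = n at hwn hmin
  have l0 := A.len_pos hj
  have jj := A.lt_nxt hj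
  refine ⟨j, hj, h1, h2, ?_⟩
  have triv : 0 ≤ A.len j * (q - p) := mul_nonneg l0.le (by linarith)
  rcases h1.eq_or_lt with e | h1
  · simpa [e] using (by simpa [e] using triv : 0 ≤ A.len j * (q - j))
  rcases h2.eq_or_lt with e | h2
  · simpa [e] using triv
  obtain ⟨γ, c1, c2, c3⟩ := pa_of_pow n w hwn
  have sep : ∀ t t', t < t' → t' < n → ∀ m : ℤ,
      γ t' • nxt A.Λ j + m ≤ γ t • p ∨ γ t • q ≤ γ t' • j + m := by
    intro t t' ht ht' m
    have e0 : nxt A.Λ (γ t' • j + m) = γ t' • nxt A.Λ j + m := by rw [A.nxt_int, A.nxt_act]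
    by_contra hc
    obtain ⟨a1, a2⟩ := not_or.1 hc
    have a3 : γ t • p ≤ γ t' • j + m :=
      A.le_of_lt_nxt (A.inv _ _ hp) (by rw [e0]; exact not_le.1 a1)
    have a4 : nxt A.Λ (γ t' • j + m) ≤ γ t • q := A.nxt_le (A.inv _ _ hq) (not_le.1 a2)
    have e1 := c1.mem_pow 0 t (by omega)
    rw [c2, zero_add, inv_one, mul_one] at e1
    have e2 := c1.mem_pow t' (n - t') (by omega)
    rw [show t' + (n - t') = n by omega] at e2
    refine hmin (n - t' + t) (by omega) ⟨(γ t)⁻¹ • (γ t' • j + m),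
      A.act_LE _ (A.LE_int (A.act_LE _ hj) m), ?_, ?_, γ n * (γ t')⁻¹ * γ t, ?_, ?_⟩
    · rw [← act_le (γ t), smul_inv_smul]; exact a3
    · rw [A.nxt_act, ← act_le (γ t), smul_inv_smul]; exact a4
    · rw [pow_add]; exact Set.mul_mem_mul e2 e1
    · rw [mul_smul, smul_inv_smul, act_int, A.len_int, mul_smul, inv_smul_smul, c3]; exact h3
  have s1 := hB n (fun t => γ t • p) (fun t => γ t • j) (fun t => γ t • nxt A.Λ j)
    (fun t => γ t • q) (fun t => ⟨(act_lt _).2 h1, (act_lt _).2 jj, (act_lt _).2 h2,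
      act_le_one _ hl⟩) sep
  have s2 := AllC.path Γ h1.le jj.le h2.le hl c2 n c1
  have s3 : Real.exp (Xr w j q p (nxt A.Λ j)) ≤ Real.exp (2 * Γ.C * B) := by
    rw [← c3]
    exact Real.exp_le_exp.2 (s2.trans (mul_le_mul_of_nonneg_left s1 (by linarith)))
  have s4 := AllC.cross w h1 jj h2
  have s5 : δ ≤ w • nxt A.Λ j - w • j := by rw [← A.nxt_act]; exact h3
  have t1 := sub_pos.2 ((act_lt w).2 h1)
  have t2 := sub_pos.2 ((act_lt w).2 h2)
  have t3 := act_le_one w hl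
  have t4 : 0 < w • q - w • p := by linarith
  have t5 : (w • j - w • p) * (w • q - w • nxt A.Λ j) ≤ (w • q - w • p) / 4 := by
    nlinarith [sq_nonneg (w • j - w • p - (w • q - w • nxt A.Λ j))]
  have u1 : 0 < (j - p) * (q - nxt A.Λ j) := mul_pos (sub_pos.2 h1) (sub_pos.2 h2)
  have u2 : δ * (w • q - w • p) * ((j - p) * (q - nxt A.Λ j)) ≤
      Real.exp (2 * Γ.C * B) * (A.len j * (q - p)) * ((w • q - w • p) / 4) := by
    refine le_trans (by gcongr) (s4.trans_le ?_)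
    exact mul_le_mul (mul_le_mul_of_nonneg_right s3 triv) t5 (by positivity) (by positivity)
  have u3 : 4 * δ * ((j - p) * (q - nxt A.Λ j)) ≤ Real.exp (2 * Γ.C * B) * (A.len j * (q - p)) :=
    le_of_mul_le_mul_right (by linarith) t4
  refine (mul_le_mul_of_nonneg_right (min_le_right _ _) u1.le).trans ?_
  rw [Real.exp_neg, mul_right_comm, ← div_eq_mul_inv, div_le_iff₀ (Real.exp_pos _)]
  linarith

theorem Cantor.sep_thk (A : Cantor G) {c : ℝ} (hc : 0 < c) (hc1 : c ≤ 1) (hT : A.Thick c)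
    {a b r r' : ℝ} (ha : A.Two a) (hb : A.Two b) (h1 : A.Thk (c / 4) r a)
    (h2 : A.Thk (c / 4) r' b) (hr : r ≤ 1) {m : ℤ} (hne : a ≠ b + m) :
    min r r' ≤ |a - b - m| := by
  by_contra hcon
  obtain ⟨e1, e2⟩ := lt_min_iff.1 (not_le.1 hcon)
  have hb' : A.Two (b + m) := by rw [← A.tz_smul]; exact hb.act _
  have h2' := AllC.thk_int A h2 m
  rcases lt_or_gt_of_ne hne with e | e
  · rw [abs_of_neg (by linarith)] at e1 e2
    exact AllC.core A hc hc1 hT ha hb' h1 h2' e (by linarith) (by linarith) (by linarith)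
  · rw [abs_of_pos (by linarith)] at e1 e2
    exact AllC.core A hc hc1 hT hb' ha h2' h1 e (by linarith) (by linarith) (by linarith)

end Pool.Agent.Lib.MP_173a7e_an
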