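import Pool.Agent.Lib.MP_173a7e_an.AllB

/-! Gaps seen from a non-expandable point have bounded length. -/

set_option autoImplicit false

namespace Pool.Agent.Lib.MP_173a7e_an

open Set Filter Topology

variable {G : Type} [Group G] [MulAction G ℝ] [SmoothAct G]

theorem poro_sep {a b R d : ℝ} (hR : 0 < R) (hd : 0 < d)
    (h : a * b ≤ R ^ 2 * d ^ 2) : min a b ≤ R * d := by
  by_contra hc
  push Not at hc
  have h1 : R * d < a := hc.trans_le (min_le_left _ _)
  have h2 : R * d < b := hc.trans_le (min_le_right _ _)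
  have h3 := mul_lt_mul'' h1 h2 (mul_pos hR hd).le (mul_pos hR hd).le
  nlinarith

/-- The abstract form of the estimate, for the distances `θ`, `θ'` to the two ends of a gap. -/
theorem Bad.poro_abs {A : Cantor G} (B : Bad A) (Γ : Gen G) {ξ : ℝ} (hξ : 0 < ξ) : ∃ K : ℝ,
    2 ≤ K ∧ ∀ (y σ : ℝ) (θ θ' : G → ℝ), y ≠ B.x → (∀ g, 0 < θ g) → (∀ g, θ g < θ' g) →
      (∀ g : G, |g • y - g • B.x| = θ g) → |σ| = 1 → (∀ g : G, g • B.x - g • y = σ * θ g) →
      (∃ w : G, B.δ ≤ θ w) →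
      (∀ (g h : G) (m : ℤ), g • B.x = h • B.x + m → θ g < θ h → θ' g ≤ θ h) →
      (∀ (n : ℕ) (γ : ℕ → G), Pa Γ.S γ n → (∀ i < n, θ (γ i) ≤ ξ) →
        (∀ i < n, ∀ j < n, i ≠ j → ∀ m : ℤ,
          min (θ (γ i)) (θ (γ j)) ≤ |γ i • B.x - γ j • B.x - m|) →
        (D (γ 0) B.x / θ (γ 0) - D (γ 0) B.x / θ' (γ 0)) / 2 ≤
          D (γ n) B.x / θ (γ n) - D (γ n) B.x / θ' (γ n)) →
      1 / θ 1 - 1 / θ' 1 ≤ K := by
  obtain ⟨R, hR, hbeta⟩ := beta A Γ B.δ_pos B.exp B.mem B.ne B.acc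
  obtain ⟨Sb, hSb, hsum⟩ := beta_sum A Γ B.δ_pos B.exp B.mem B.ne B.acc
  have hC := Γ.C_pos
  have hδ := B.δ_pos
  have e1 : 0 < 2 / ξ := by positivity
  have e2 : 0 < 2 / B.δ := by positivity
  have e3 : 0 < 4 * Γ.C * Sb := by positivity
  refine ⟨2 * R + 2 / ξ + 2 / B.δ + 4 * Γ.C * Sb, by linarith, ?_⟩
  intro y σ θ θ' hy h0 h1 habs hσ hsg hw hdis hV
  by_contra hc
  push Not at hc
  set lam := 1 / θ 1 - 1 / θ' 1 with hlam
  have l0 : 0 < lam := by linarith
  have hθ : ∀ g : G, lam / 2 ≤ D g B.x / θ g - D g B.x / θ' g → lam * θ g ≤ 2 * D g B.x := by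
    intro g hg
    have a1 : 0 < D g B.x / θ' g := div_pos (D_pos _ _) ((h0 g).trans (h1 g))
    have a2 : lam / 2 ≤ D g B.x / θ g := by linarith
    rw [le_div_iff₀ (h0 g)] at a2
    linarith
  have hsm : ∀ (g : G) (c : ℝ), 0 < c → 2 / c < lam → lam * θ g ≤ 2 * D g B.x →
      θ g < c * D g B.x := by
    intro g c c0 hl hg
    rw [div_lt_iff₀ c0] at hl
    have a1 := mul_lt_mul_of_pos_right hl (D_pos g B.x)
    exact lt_of_mul_lt_mul_left (a := lam) (by linarith) l0.le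
  have claim : ∀ (γ : ℕ → G) (n : ℕ), Pa Γ.S γ n → γ 0 = 1 → Sim B.x γ n → ∀ k ≤ n,
      lam / 2 ≤ D (γ k) B.x / θ (γ k) - D (γ k) B.x / θ' (γ k) := by
    intro γ n hγ hγ0 hs k
    induction k using Nat.strong_induction_on with
    | _ k ih =>
      intro hk
      have hb : ∀ i < k, lam * θ (γ i) ≤ 2 * D (γ i) B.x := fun i hi =>
        hθ _ (ih i hi (by omega))
      have hR' : ∀ i < k, R * θ (γ i) ≤ D (γ i) B.x := by
        intro i hi
        have a1 := hsm (γ i) R⁻¹ (by positivity) (by rw [div_inv_eq_mul]; linarith) (hb i hi)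
        rw [inv_mul_eq_div, lt_div_iff₀ (by linarith)] at a1
        linarith
      have := hV k γ (hγ.mono hk) (fun i hi => ?_) (fun i hi j hj hij m => ?_)
      · rwa [hγ0, D_one] at this
      · have a1 := hsm (γ i) ξ hξ (by linarith) (hb i hi)
        have a2 := mul_le_mul_of_nonneg_left (B.ne (γ i)) hξ.le
        linarith
      · have a1 : min (D (γ i) B.x) (D (γ j) B.x) ≤ R * |γ i • B.x - γ j • B.x - m| := by
          have e : (A.t ^ m * γ j) • B.x = γ j • B.x + m := by rw [mul_smul, A.tz_smul]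
          rcases lt_or_gt_of_ne (hs i (by omega) j (by omega) hij m) with h | h
          · have a := hbeta (γ i) (A.t ^ m * γ j) (by rwa [e])
            rw [e, A.D_tz_mul] at a
            rw [abs_of_neg (by linarith)]
            exact poro_sep (by linarith) (by linarith) (by linarith)
          · have a := hbeta (A.t ^ m * γ j) (γ i) (by rwa [e])
            rw [e, A.D_tz_mul] at a
            rw [abs_of_pos (by linarith)]
            exact poro_sep (by linarith) (by linarith) (by linarith)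
        refine le_of_mul_le_mul_left (a := R) (le_trans ?_ a1) (by linarith)
        refine le_min ?_ ?_
        · exact (mul_le_mul_of_nonneg_left (min_le_left _ _) (by linarith)).trans (hR' i hi)
        · exact (mul_le_mul_of_nonneg_left (min_le_right _ _) (by linarith)).trans (hR' j hj)
  obtain ⟨γ, i, j, m, hγ, hγ0, hs, hji, hz, hne⟩ := first_rep Γ (x := B.x) (y := y) (δ := B.δ)
    (by obtain ⟨w, hw⟩ := hw; exact ⟨w, by rwa [habs]⟩) (fun γ n hγ hγ0 hs => by
      have a1 := hsm (γ n) B.δ hδ (by linarith)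
        (hθ _ (claim γ n hγ hγ0 (hs.mono (Nat.le_succ n)) n le_rfl))
      have a2 := mul_le_mul_of_nonneg_left (B.ne (γ n)) hδ.le
      rw [habs]
      linarith)
  have hcl := claim γ i hγ hγ0 hs
  have hle : ∀ k ≤ i, θ (γ k) ≤ D (γ k) B.x := by
    intro k hk
    have a1 := hsm (γ k) 1 one_pos (by linarith) (hθ _ (hcl k hk))
    linarith
  have hQ : ∀ n ≤ i, |(D (γ n) B.x / (σ * θ (γ n)) - Nl (γ n) B.x) -
      (D (γ 0) B.x / (σ * θ (γ 0)) - Nl (γ 0) B.x)| ≤ Γ.C * Sb := by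
    intro n hn
    have a := Γ.path_Q (hγ.mono hn) (x := B.x) (v := y) hy (fun k hk => by
      rw [abs_sub_comm, habs]
      exact (hle k (by omega)).trans (B.ne _))
    rw [hsg, hsg] at a
    refine a.trans (mul_le_mul_of_nonneg_left (le_trans ?_ (hsum n γ (hs.mono hn))) (by linarith))
    refine Finset.sum_le_sum fun k hk => ?_
    have hk' : k ≤ i := (Finset.mem_range.1 hk).le.trans hn
    rw [abs_sub_comm, habs, Real.rpow_add (D_pos _ _), Real.rpow_one]
    exact mul_le_mul_of_nonneg_left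
      (Real.rpow_le_rpow (h0 _).le (hle k hk') Γ.α_pos.le) (D_pos _ _).le
  obtain ⟨j1, j2⟩ := B.jet hz
  have hd : |D (γ i) B.x / θ (γ i) - D (γ i) B.x / θ (γ j)| ≤ 2 * (Γ.C * Sb) := by
    have a1 := hQ i le_rfl
    have a2 := hQ j hji.le
    rw [← j1, ← j2] at a2
    have σ0 : σ ≠ 0 := by
      intro h
      rw [h, abs_zero] at hσ
      exact zero_ne_one hσ
    have a3 : D (γ i) B.x / θ (γ i) - D (γ i) B.x / θ (γ j) =
        σ * (D (γ i) B.x / (σ * θ (γ i)) - D (γ i) B.x / (σ * θ (γ j))) := by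
      have := (h0 (γ i)).ne'
      have := (h0 (γ j)).ne'
      field_simp
    rw [a3, abs_mul, hσ, one_mul, abs_le]
    obtain ⟨b1, b2⟩ := abs_le.1 a1
    obtain ⟨b3, b4⟩ := abs_le.1 a2
    constructor <;> linarith
  obtain ⟨d1, d2⟩ := abs_le.1 hd
  rcases lt_trichotomy (θ (γ i)) (θ (γ j)) with h | h | h
  · have a1 := div_le_div_of_nonneg_left (D_pos (γ i) B.x).le ((h0 _).trans (h1 _))
      (hdis _ _ m hz h)
    have a2 := hcl i le_rfl
    linarith
  · apply hne
    have a1 := hsg (γ i)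
    have a2 := hsg (γ j)
    rw [h] at a1
    linarith
  · have a1 := div_le_div_of_nonneg_left (D_pos (γ i) B.x).le ((h0 _).trans (h1 _))
      (hdis (γ j) (γ i) (-m) (by rw [hz]; push_cast; ring) h)
    have a2 := hcl j hji.le
    rw [← j1] at a2
    linarith

theorem half_le_exp : 1 / 2 ≤ Real.exp (-(1 / 2)) := by
  rw [Real.exp_neg, le_inv_comm₀ (by norm_num) (Real.exp_pos _)]
  exact exp_half.trans (by norm_num)

theorem Bad.poro {A : Cantor G} (B : Bad A) (Γ : Gen G) : ∃ K : ℝ,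
    (∀ p ∈ LE A.Λ, B.x < p → 1 / (p - B.x) - 1 / (nxt A.Λ p - B.x) ≤ K) ∧
    ∀ p ∈ LE A.Λ, nxt A.Λ p < B.x → 1 / (B.x - nxt A.Λ p) - 1 / (B.x - p) ≤ K := by
  have hC := Γ.C_pos
  obtain ⟨ξ, hξ, g1, g2⟩ := A.gap_sum Γ.α_pos Γ.α_le (κ := 1) (ε := 1 / (4 * Γ.C)) one_pos
    (by positivity)
  have hE : ∀ S : ℝ, S ≤ 1 / (4 * Γ.C) → 2 * Γ.C * S ≤ 1 / 2 := by
    intro S hS
    rw [le_div_iff₀ (by positivity)] at hS
    linarith
  obtain ⟨K, hK, H⟩ := B.poro_abs Γ hξ
  refine ⟨K, fun p hp hx => ?_, fun p hp hx => ?_⟩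
  · have hpp := A.lt_nxt hp
    by_cases hfar : 1 / 2 ≤ p - B.x
    · have a1 : 1 / (p - B.x) ≤ 2 := by
        rw [div_le_iff₀ (by linarith)]
        linarith
      have a2 : 0 < 1 / (nxt A.Λ p - B.x) := one_div_pos.2 (by linarith)
      linarith
    have h1 : nxt A.Λ p ≤ B.x + 1 :=
      A.nxt_le (by simpa using (A.add_int_mem 1).2 B.mem) (by linarith)
    have pos : ∀ g : G, 0 < g • p - g • B.x := fun g => sub_pos.2 ((act_lt g).2 hx)
    have := H p (-1) (fun g => g • p - g • B.x) (fun g => g • nxt A.Λ p - g • B.x) hx.ne' pos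
      (fun g => sub_lt_sub_right ((act_lt g).2 hpp) _) (fun g => abs_of_pos (pos g)) (by simp)
      (fun g => by ring) ?_ ?_ ?_
    · simpa only [one_smul] using this
    · obtain ⟨w, hw, w1, w2⟩ := B.acc (p - B.x) (by linarith)
      obtain ⟨q, hq, q1, q2, g, hg⟩ := B.exp B.x p ⟨w, hw, w1, by linarith⟩
      refine ⟨g, hg.trans ?_⟩
      rw [Cantor.len, A.nxt_act]
      exact sub_le_sub ((act_le g).2 q2.le) ((act_le g).2 q1.le)
    · intro g h m e hlt
      have a := A.nxt_le (p := g • p) ((A.add_int_mem m).2 (A.inv h p hp.1)) (by linarith)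
      rw [A.nxt_act] at a
      linarith
    · intro n γ hγ a1 a2
      have s := g1 n (fun i => γ i • B.x) (fun i => γ i • p)
        (fun i hi => ⟨A.act_LE _ hp, (act_lt _).2 hx, a1 i hi⟩)
        (fun i hi j hj hij m => by rw [one_mul]; exact a2 i hi j hj hij m)
      obtain ⟨μ, m1, -, m2⟩ := Γ.path_V hγ (x := B.x) (a := p) (b := nxt A.Λ p) (lo := B.x)
        (hi := nxt A.Λ p) (E := 1 / 2) (hx.trans hpp).ne' (.inl ⟨hx, .inr hpp.le⟩)
        ⟨le_rfl, (hx.trans hpp).le⟩ ⟨hx.le, hpp.le⟩ ⟨(hx.trans hpp).le, le_rfl⟩ h1 (hE _ (by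
          refine le_of_eq_of_le (Finset.sum_congr rfl fun k _ => ?_) s
          rw [A.nxt_act, abs_of_pos (pos _)]))
      have v0 : 0 ≤ Vw B.x (γ 0) p (nxt A.Λ p) := sub_nonneg.2
        (div_le_div_of_nonneg_left (D_pos _ _).le (pos _)
          (sub_le_sub_right ((act_le _).2 hpp.le) _))
      have a3 := mul_le_mul_of_nonneg_right (half_le_exp.trans m1) v0
      rw [← m2] at a3
      unfold Vw at a3
      linarith
  · have hpp := A.lt_nxt hp
    by_cases hfar : 1 / 2 ≤ B.x - nxt A.Λ p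
    · have a1 : 1 / (B.x - nxt A.Λ p) ≤ 2 := by
        rw [div_le_iff₀ (by linarith)]
        linarith
      have a2 : 0 < 1 / (B.x - p) := one_div_pos.2 (by linarith)
      linarith
    have h1 : B.x - 1 ≤ p :=
      A.le_of_lt_nxt (by simpa using (A.sub_int_mem 1).2 B.mem) (by linarith)
    have pos : ∀ g : G, 0 < g • B.x - g • nxt A.Λ p := fun g => sub_pos.2 ((act_lt g).2 hx)
    have hab : ∀ g : G, |g • nxt A.Λ p - g • B.x| = g • B.x - g • nxt A.Λ p := fun g => by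
      rw [abs_sub_comm, abs_of_pos (pos g)]
    have := H (nxt A.Λ p) 1 (fun g => g • B.x - g • nxt A.Λ p) (fun g => g • B.x - g • p) hx.ne pos
      (fun g => sub_lt_sub_left ((act_lt g).2 hpp) _) hab (by simp) (fun g => by ring) ?_ ?_ ?_
    · simpa only [one_smul] using this
    · obtain ⟨w, hw, w1, w2⟩ := A.perf _ (A.nxt_mem p) (min (nxt A.Λ p - p) (B.x - nxt A.Λ p))
        (lt_min (by linarith) (by linarith))
      obtain ⟨w3, w4⟩ := abs_lt.1 w2
      have w5 := min_le_left (nxt A.Λ p - p) (B.x - nxt A.Λ p)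
      have w6 := min_le_right (nxt A.Λ p - p) (B.x - nxt A.Λ p)
      have w7 : nxt A.Λ p < w := lt_of_le_of_ne (A.nxt_le hw (by linarith)) w1.symm
      obtain ⟨q, hq, q1, q2, g, hg⟩ := B.exp (nxt A.Λ p) B.x ⟨w, hw, w7, by linarith⟩
      refine ⟨g, hg.trans ?_⟩
      rw [Cantor.len, A.nxt_act]
      exact sub_le_sub ((act_le g).2 q2.le) ((act_le g).2 q1.le)
    · intro g h m e hlt
      have a := A.le_of_lt_nxt (p := g • p) ((A.add_int_mem m).2 (A.inv h _ (A.nxt_mem p)))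
        (by rw [A.nxt_act]; linarith)
      linarith
    · intro n γ hγ a1 a2
      have s := g2 n (fun i => γ i • B.x) (fun i => γ i • p)
        (fun i hi => ⟨A.act_LE _ hp, by rw [A.nxt_act]; exact (act_lt _).2 hx,
          by rw [A.nxt_act]; exact a1 i hi⟩)
        (fun i hi j hj hij m => by rw [one_mul, A.nxt_act, A.nxt_act]; exact a2 i hi j hj hij m)
      obtain ⟨μ, m1, -, m2⟩ := Γ.path_V hγ (x := B.x) (a := nxt A.Λ p) (b := p) (lo := p)
        (hi := B.x) (E := 1 / 2) (hpp.trans hx).ne (.inr ⟨hx, .inl hpp.le⟩)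
        ⟨(hpp.trans hx).le, le_rfl⟩ ⟨hpp.le, hx.le⟩ ⟨le_rfl, (hpp.trans hx).le⟩ (by linarith)
        (hE _ (by
          refine le_of_eq_of_le (Finset.sum_congr rfl fun k _ => ?_) s
          rw [A.nxt_act, hab]))
      have hV : ∀ g : G, Vw B.x g (nxt A.Λ p) p =
          -(D g B.x / (g • B.x - g • nxt A.Λ p) - D g B.x / (g • B.x - g • p)) := by
        intro g
        rw [Vw, ← neg_sub (g • B.x) (g • nxt A.Λ p), ← neg_sub (g • B.x) (g • p), div_neg, div_neg]
        ring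
      have v0 : 0 ≤ D (γ 0) B.x / (γ 0 • B.x - γ 0 • nxt A.Λ p) -
          D (γ 0) B.x / (γ 0 • B.x - γ 0 • p) := sub_nonneg.2
        (div_le_div_of_nonneg_left (D_pos _ _).le (pos _)
          (sub_le_sub_left ((act_le _).2 hpp.le) _))
      have a3 := mul_le_mul_of_nonneg_right (half_le_exp.trans m1) v0
      rw [hV, hV] at m2
      linarith

end Pool.Agent.Lib.MP_173a7e_an
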