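import Pool.Agent.Lib.MP_173a7e_an.AllB

/-! Controlled loops are trivial; some simple path must lose control. -/

set_option autoImplicit false

namespace Pool.Agent.Lib.MP_173a7e_an

open Set Filter Topology

variable {G : Type} [Group G] [MulAction G ℝ] [SmoothAct G]

namespace AllE

theorem cross {c μ E J N F : ℝ} (hE : 0 < E) (hJ : E < J) (hN : J < N) (hF : N < F)
    (h2 : μ ^ 2 < 1 + c) (h3 : c * ((J - E) * (F - N)) ≤ (N - J) * (F - E))
    (h4 : 1 / E - 1 / N ≤ μ * (1 / E - 1 / J)) (h5 : 1 / J - 1 / F ≤ μ * (1 / N - 1 / F)) :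
    False := by
  have pJ : 0 < J := by linarith
  have pN : 0 < N := by linarith
  have pF : 0 < F := by linarith
  have a0 : 0 < 1 / E - 1 / J := sub_pos.2 (one_div_lt_one_div_of_lt hE hJ)
  have b0 : 0 < 1 / J - 1 / N := sub_pos.2 (one_div_lt_one_div_of_lt pJ hN)
  have d0 : 0 < 1 / N - 1 / F := sub_pos.2 (one_div_lt_one_div_of_lt pN hF)
  have e : c * ((1 / E - 1 / J) * (1 / N - 1 / F)) ≤ (1 / J - 1 / N) * (1 / E - 1 / F) := by
    have e1 : c * ((1 / E - 1 / J) * (1 / N - 1 / F)) =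
        c * ((J - E) * (F - N)) / (E * J * N * F) := by field_simp
    have e2 : (1 / J - 1 / N) * (1 / E - 1 / F) = (N - J) * (F - E) / (E * J * N * F) := by
      field_simp
    rw [e1, e2]
    exact div_le_div_of_nonneg_right h3 (by positivity)
  generalize 1 / E = e at *
  generalize 1 / J = j at *
  generalize 1 / N = n at *
  generalize 1 / F = f at *
  have k := mul_le_mul h4 h5 (by linarith) (by linarith)
  have k2 := mul_lt_mul_of_pos_right h2 (mul_pos a0 d0)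
  nlinarith

end AllE

/-- A loop that is almost an isometry in the coordinate `1 / (t - x)` is trivial. -/
theorem Bad.nc {A : Cantor G} (B : Bad A) {c μ : ℝ} (hT : A.Thick c) (h1 : 1 ≤ μ)
    (h2 : μ ^ 2 < 1 + c) {h : G} (hx : h • B.x = B.x) {q : ℝ} (hq : q ∈ A.Λ) (hq1 : q ≤ B.x + 1)
    (hf : h • q = q)
    (hb : ∀ t1 t2 : ℝ, B.x < t1 → t1 < t2 → t2 ≤ q →
      1 / (h • t1 - B.x) - 1 / (h • t2 - B.x) ≤ μ * (1 / (t1 - B.x) - 1 / (t2 - B.x)) ∧
      1 / (t1 - B.x) - 1 / (t2 - B.x) ≤ μ * (1 / (h • t1 - B.x) - 1 / (h • t2 - B.x))) :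
    ∀ y ∈ A.Λ, B.x < y → y < q → h • y = y := by
  intro y hy y1 y2
  by_contra hne
  have hc : IsClosed (A.Λ ∩ {w : ℝ | h • w = w}) :=
    A.closed.inter (isClosed_eq (cont_smul h) continuous_id)
  have b1 : BddAbove (A.Λ ∩ {w : ℝ | h • w = w} ∩ Iic y) := ⟨y, fun _ hz => hz.2⟩
  have b2 : BddBelow (A.Λ ∩ {w : ℝ | h • w = w} ∩ Ici y) := ⟨y, fun _ hz => hz.2⟩
  have m1 := (hc.inter isClosed_Iic).csSup_mem ⟨B.x, ⟨B.mem, hx⟩, y1.le⟩ b1
  have m2 := (hc.inter isClosed_Ici).csInf_mem ⟨q, ⟨hq, hf⟩, y2.le⟩ b2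
  have u1 : ∀ w ∈ A.Λ, h • w = w → w ≤ y → w ≤ sSup (A.Λ ∩ {w : ℝ | h • w = w} ∩ Iic y) :=
    fun w a b d => le_csSup b1 ⟨⟨a, b⟩, d⟩
  have u2 : ∀ w ∈ A.Λ, h • w = w → y ≤ w → sInf (A.Λ ∩ {w : ℝ | h • w = w} ∩ Ici y) ≤ w :=
    fun w a b d => csInf_le b2 ⟨⟨a, b⟩, d⟩
  generalize sSup (A.Λ ∩ {w : ℝ | h • w = w} ∩ Iic y) = e at m1 u1
  generalize sInf (A.Λ ∩ {w : ℝ | h • w = w} ∩ Ici y) = e' at m2 u2
  obtain ⟨⟨e1, e2⟩, e3⟩ := m1
  obtain ⟨⟨f1, f2⟩, f3⟩ := m2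
  have e2 : h • e = e := e2
  have f2 : h • e' = e' := f2
  have e4 : e < y := lt_of_le_of_ne e3 fun k => hne (k ▸ e2)
  have f4 : y < e' := lt_of_le_of_ne f3 fun k => hne (k.symm ▸ f2)
  have f5 : e' ≤ q := u2 q hq hf y2.le
  have e5 : B.x < e := by
    obtain ⟨v, v1, v2⟩ := B.triv h hx
    obtain ⟨w, w1, w2, w3⟩ := B.acc (min v y - B.x) (sub_pos.2 (lt_min v1 y1))
    have := min_le_left v y
    have := min_le_right v y
    exact w2.trans_le (u1 w w1 (v2 w w1 w2 (by linarith)) (by linarith))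
  have no : ∀ w ∈ A.Λ, h • w = w → e < w → w < e' → False := fun w a b k1 k2 => by
    rcases le_total w y with k | k
    · exact absurd (u1 w a b k) (not_le.2 k1)
    · exact absurd (u2 w a b k) (not_le.2 k2)
  obtain ⟨j, hj, j1, j2, j3⟩ := hT e e1 e' f1 ⟨y, hy, e4, f4⟩ (by linarith)
  have j4 := A.lt_nxt hj
  have j5 : e < j := lt_of_le_of_ne j1 fun k => by
    subst k
    exact no _ (A.nxt_mem e) (by rw [← A.nxt_act, e2]) j4 ((A.nxt_le hy e4).trans_lt f4)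
  have j6 : nxt A.Λ j < e' := lt_of_le_of_ne j2 fun k => by
    have k1 : nxt A.Λ (h • j) = nxt A.Λ j := by rw [A.nxt_act, k, f2]
    refine no j hj.1 (le_antisymm (A.le_of_lt_nxt (A.inv h j hj.1) ?_)
      (A.le_of_lt_nxt hj.1 (by rwa [k1]))) j5 (by linarith)
    rw [← k1]
    exact A.lt_nxt (A.act_LE h hj)
  have j7 : h • j ≠ j := fun k => no j hj.1 k j5 (by linarith)
  have μ0 : 0 ≤ μ := by linarith
  have mono : ∀ s t, B.x < s → s ≤ t → 1 / (t - B.x) ≤ 1 / (s - B.x) := fun s t a b =>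
    one_div_le_one_div_of_le (by linarith) (by linarith)
  refine AllE.cross (c := c) (μ := μ) (E := e - B.x) (J := j - B.x) (N := nxt A.Λ j - B.x)
    (F := e' - B.x) (by linarith) (by linarith) (by linarith) (by linarith) h2
    (by unfold Cantor.len at j3; linarith) ?_ ?_
  · rcases lt_or_gt_of_ne j7 with k | k
    · have k1 : h • nxt A.Λ j ≤ j := by rw [← A.nxt_act]; exact A.nxt_le hj.1 k
      have k2 := (hb e (nxt A.Λ j) e5 (by linarith) (by linarith)).2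
      have k3 : B.x < h • nxt A.Λ j := by rw [← hx, act_lt]; linarith
      rw [e2] at k2
      exact k2.trans (mul_le_mul_of_nonneg_left (by linarith [mono _ _ k3 k1]) μ0)
    · have k1 : nxt A.Λ j ≤ h • j := A.nxt_le (A.inv h j hj.1) k
      have k2 := (hb e j e5 j5 (by linarith)).1
      rw [e2] at k2
      linarith [mono _ _ (show B.x < nxt A.Λ j by linarith) k1]
  · rcases lt_or_gt_of_ne j7 with k | k
    · have k1 : h • nxt A.Λ j ≤ j := by rw [← A.nxt_act]; exact A.nxt_le hj.1 k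
      have k2 := (hb (nxt A.Λ j) e' (by linarith) j6 f5).1
      have k3 : B.x < h • nxt A.Λ j := by rw [← hx, act_lt]; linarith
      rw [f2] at k2
      linarith [mono _ _ k3 k1]
    · have k1 : nxt A.Λ j ≤ h • j := A.nxt_le (A.inv h j hj.1) k
      have k2 := (hb j e' (by linarith) (by linarith) f5).2
      rw [f2] at k2
      exact k2.trans (mul_le_mul_of_nonneg_left
        (by linarith [mono _ _ (show B.x < nxt A.Λ j by linarith) k1]) μ0)

namespace AllE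

/-- The view through `g` is controlled on `(x, a]`. -/
def Ctl (x a E M : ℝ) (g : G) : Prop :=
  (∀ t1 t2 : ℝ, x < t1 → t1 < t2 → t2 ≤ a → ∃ μ : ℝ, Real.exp (-E) ≤ μ ∧ μ ≤ Real.exp E ∧
    Vw x g t1 t2 = μ * (1 / (t1 - x) - 1 / (t2 - x))) ∧
  ∀ t : ℝ, x < t → t ≤ a → |D g x / (g • t - g • x) + Nl g x - 1 / (t - x)| ≤ M

/-- A loop that is controlled on `(x, a]`. -/
def Gd (x a ν M : ℝ) (h : G) : Prop :=
  h • x = x ∧ (∀ t1 t2 : ℝ, x < t1 → t1 < t2 → t2 ≤ a →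
    1 / (h • t1 - x) - 1 / (h • t2 - x) ≤ ν * (1 / (t1 - x) - 1 / (t2 - x)) ∧
    1 / (t1 - x) - 1 / (t2 - x) ≤ ν * (1 / (h • t1 - x) - 1 / (h • t2 - x))) ∧
  ∀ t : ℝ, x < t → t ≤ a → 1 / (h • t - x) ≤ 1 / (t - x) + M

theorem ratio {E μ1 μ2 U V : ℝ} (a1 : μ1 ≤ Real.exp E) (a2 : Real.exp (-E) ≤ μ2) (hU : 0 ≤ U)
    (hV : 0 ≤ V) (e : μ2 * V = μ1 * U) : V ≤ Real.exp (2 * E) * U := by
  have p := Real.exp_pos E
  have k : Real.exp E * Real.exp (-E) = 1 := by rw [← Real.exp_add]; simp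
  have k1 : Real.exp (-E) * V ≤ Real.exp E * U :=
    (mul_le_mul_of_nonneg_right a2 hV).trans (e.trans_le (mul_le_mul_of_nonneg_right a1 hU))
  have k2 := mul_le_mul_of_nonneg_left k1 p.le
  rw [← mul_assoc, k, one_mul, ← mul_assoc, ← Real.exp_add, ← two_mul] at k2
  exact k2

theorem gd_of {x a P E M : ℝ} {g1 g2 f : G} (h1 : Ctl x a E M g1) (h2 : Ctl x a E M g2)
    (hx : f • x = x) (e : ∀ t, g2 • f • t - g2 • x = g1 • t - g1 • x) (eD : D g1 x = D g2 x)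
    (eN : Nl g1 x = Nl g2 x) (hP : P ≤ a) (hf : f • P ≤ P) :
    Gd x P (Real.exp (2 * E)) (2 * M) f := by
  have m1 : ∀ t, x < t → x < f • t := fun t k => by rw [← hx, act_lt]; exact k
  have m2 : ∀ t, t ≤ P → f • t ≤ a := fun t k => ((act_le f).2 k).trans (hf.trans hP)
  refine ⟨hx, fun t1 t2 a1 a2 a3 => ?_, fun t a1 a2 => ?_⟩
  · have a4 := (act_lt f).2 a2
    obtain ⟨μ1, b1, b2, b3⟩ := h1.1 t1 t2 a1 a2 (a3.trans hP)
    obtain ⟨μ2, c1, c2, c3⟩ := h2.1 _ _ (m1 t1 a1) a4 (m2 t2 a3)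
    have k : Vw x g2 (f • t1) (f • t2) = Vw x g1 t1 t2 := by
      unfold Vw; rw [e, e, eD]
    rw [b3, c3] at k
    have U0 : 0 ≤ 1 / (t1 - x) - 1 / (t2 - x) :=
      sub_nonneg.2 (one_div_le_one_div_of_le (by linarith) (by linarith))
    have V0 : 0 ≤ 1 / (f • t1 - x) - 1 / (f • t2 - x) :=
      sub_nonneg.2 (one_div_le_one_div_of_le (by linarith [m1 t1 a1]) (by linarith))
    exact ⟨ratio b2 c1 U0 V0 k, ratio c2 b1 V0 U0 k.symm⟩
  · have b1 := abs_le.1 (h1.2 t a1 (a2.trans hP))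
    have b2 := abs_le.1 (h2.2 _ (m1 t a1) (m2 t a2))
    rw [e, ← eD, ← eN] at b2
    linarith [b1.2, b2.1]

theorem ctl_path (Γ : Gen G) {x a η Sb : ℝ} (ha1 : a ≤ x + 1) {γ : ℕ → G} {n : ℕ}
    (hγ : Pa Γ.S γ n) (h0 : γ 0 = 1)
    (h1 : ∑ k ∈ Finset.range n, (γ k • a - γ k • x) ^ (1 + Γ.α) ≤ η)
    (h2 : ∑ k ∈ Finset.range n, D (γ k) x ^ (1 + Γ.α) ≤ Sb) :
    Ctl x a (2 * Γ.C * η) (Γ.C * (Sb + η)) (γ n) := by
  have C0 : 0 ≤ Γ.C := by linarith [Γ.C_pos]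
  refine ⟨fun t1 t2 a1 a2 a3 => ?_, fun t a1 a2 => ?_⟩
  · have := Γ.path_V hγ (x := x) (a := t1) (b := t2) (lo := x) (hi := a) (E := 2 * Γ.C * η)
      (by linarith : x < t2).ne' (Or.inl ⟨a1, Or.inr a2.le⟩) ⟨le_rfl, by linarith⟩
      ⟨a1.le, by linarith⟩ ⟨by linarith, a3⟩ ha1 (by
        refine mul_le_mul_of_nonneg_left (le_trans (Finset.sum_le_sum fun k _ => ?_) h1)
          (by linarith)
        have p1 := sub_pos.2 ((act_lt (γ k)).2 a1)
        have p2 := (act_le (γ k)).2 (show t1 ≤ a by linarith)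
        have p3 : 0 < γ k • a - γ k • x := by linarith
        rw [abs_of_pos p1, Real.rpow_add p3, Real.rpow_one, mul_comm (γ k • a - γ k • x)]
        exact mul_le_mul_of_nonneg_left (by linarith) (Real.rpow_nonneg p3.le _))
    rwa [h0, Vw_one] at this
  · have p1 : ∀ g : G, 0 < g • t - g • x := fun g => sub_pos.2 ((act_lt g).2 a1)
    have ab : ∀ g : G, |g • x - g • t| = g • t - g • x := fun g => by
      rw [abs_sub_comm, abs_of_pos (p1 g)]
    have q := Γ.path_Q hγ (x := x) a1.ne' fun k _ => by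
      rw [ab]; linarith [act_le_one (γ k) (show t ≤ x + 1 by linarith)]
    simp only [ab] at q
    have s3 : ∑ k ∈ Finset.range n, D (γ k) x * (γ k • t - γ k • x) ^ Γ.α ≤ Sb + η := by
      refine le_trans (Finset.sum_le_sum fun k _ => ?_) (le_trans
        (Finset.sum_add_distrib (f := fun k => D (γ k) x ^ (1 + Γ.α))
          (g := fun k => (γ k • a - γ k • x) ^ (1 + Γ.α))).le (by linarith))
      refine (young Γ.α_pos (D_pos _ _).le (p1 _).le).trans (add_le_add le_rfl ?_)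
      exact Real.rpow_le_rpow (p1 _).le (by linarith [(act_le (γ k)).2 a2])
        (by linarith [Γ.α_pos])
    have q2 := q.trans (mul_le_mul_of_nonneg_left s3 C0)
    rw [h0, D_one, Nl_one, one_smul, one_smul, ← neg_sub (γ n • t), div_neg, ← neg_sub t,
      div_neg] at q2
    have q3 := abs_le.1 q2
    exact abs_le.2 ⟨by linarith [q3.2], by linarith [q3.1]⟩

end AllE

theorem Bad.lasso {A : Cantor G} (B : Bad A) (Γ : Gen G) {c : ℝ} (hc : 0 < c) (hT : A.Thick c) :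
    ∃ η > 0, ∀ a : ℝ, B.x < a → a ≤ B.x + 1 →
      (∀ (γ : ℕ → G) (n : ℕ), Pa Γ.S γ n → γ 0 = 1 → Sim B.x γ (n + 1) →
        γ n • a - γ n • B.x < B.δ ∧
        ∑ k ∈ Finset.range (n + 1), (γ k • a - γ k • B.x) ^ (1 + Γ.α) ≤ η) → False := by
  have C0 : 0 < Γ.C := by linarith [Γ.C_pos]
  have l0 : 0 < Real.log (1 + c) := Real.log_pos (by linarith)
  obtain ⟨η, η0, η1⟩ : ∃ η > 0, 16 * Γ.C * η < Real.log (1 + c) :=
    ⟨Real.log (1 + c) / (32 * Γ.C), by positivity, by field_simp; nlinarith⟩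
  obtain ⟨Sb, Sb1, hSb⟩ := beta_sum A Γ B.δ_pos B.exp B.mem B.ne B.acc
  refine ⟨η, η0, fun a a1 a2 H => ?_⟩
  have near : ∀ y, B.x < y → ∃ p ∈ LE A.Λ, B.x < p ∧ nxt A.Λ p < y ∧
      ∃ g : G, B.δ ≤ A.len (g • p) := fun y hy => by
    obtain ⟨w, w1, w2, w3⟩ := B.acc (y - B.x) (sub_pos.2 hy)
    exact B.exp _ _ ⟨w, w1, w2, by linarith⟩
  obtain ⟨p, hp, p1, p2, -⟩ := near a a1
  have p3 := A.lt_nxt hp
  set ν := Real.exp (2 * (2 * Γ.C * η)) with hν
  set M := 2 * (Γ.C * (Sb + η)) with hM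
  have ν1 : 1 ≤ ν := Real.one_le_exp (by positivity)
  have M0 : 0 ≤ M := by positivity
  have key : ∀ y, B.x < y → y < p → ∃ g : G, AllE.Gd B.x (nxt A.Λ p) ν M g ∧ g • y ≠ y := by
    intro y y1 y2
    obtain ⟨γ, i, j, m, g1, g2, g3, g4, g5, g6⟩ := first_rep Γ (x := B.x) (y := y) (δ := B.δ)
      (by
        obtain ⟨r, hr, r1, r2, g, r3⟩ := near y y1
        refine ⟨g, r3.trans (le_trans ?_ (le_abs_self _))⟩
        unfold Cantor.len
        rw [A.nxt_act]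
        linarith [(act_lt g).2 r1, (act_lt g).2 r2])
      fun γ n b1 b2 b3 => by
        rw [abs_of_pos (sub_pos.2 ((act_lt (γ n)).2 y1))]
        linarith [(H γ n b1 b2 b3).1, (act_le (γ n)).2 (show y ≤ a by linarith)]
    obtain ⟨i, rfl⟩ : ∃ i', i = i' + 1 := ⟨i - 1, by omega⟩
    have s1 := (H γ i (g1.mono (by omega)) g2 g3).2
    have ctl : ∀ k ≤ i + 1, AllE.Ctl B.x a (2 * Γ.C * η) (Γ.C * (Sb + η)) (γ k) := fun k hk =>
      AllE.ctl_path Γ a2 (g1.mono hk) g2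
        (le_trans (Finset.sum_le_sum_of_subset_of_nonneg (Finset.range_mono hk) fun l _ _ =>
          Real.rpow_nonneg (sub_nonneg.2 ((act_le (γ l)).2 a1.le)) _) s1)
        (hSb k γ (g3.mono hk))
    obtain ⟨jD, jN⟩ := B.jet g5
    obtain ⟨f, hf⟩ : ∃ f : G, ∀ t : ℝ, γ j • f • t = γ (i + 1) • t - m :=
      ⟨(γ j)⁻¹ * A.t ^ (-m) * γ (i + 1), fun t => by
        rw [mul_smul, mul_smul, smul_inv_smul, A.tz_smul]; push_cast; ring⟩
    have f1 : f • B.x = B.x := MulAction.injective (γ j) (by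
      show γ j • f • B.x = γ j • B.x
      rw [hf, g5]; ring)
    have f2 : f • y ≠ y := fun k => g6 (by
      have := hf y
      rw [k] at this
      linarith)
    have f3 : ∀ t, γ j • f • t - γ j • B.x = γ (i + 1) • t - γ (i + 1) • B.x := fun t => by
      rw [hf, g5]; ring
    rcases le_total (f • nxt A.Λ p) (nxt A.Λ p) with k | k
    · exact ⟨f, AllE.gd_of (ctl _ le_rfl) (ctl j g4.le) f1 f3 jD jN p2.le k, f2⟩
    · refine ⟨f⁻¹, AllE.gd_of (ctl j g4.le) (ctl _ le_rfl) (inv_smul_eq_iff.2 f1.symm)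
        (fun t => ?_) jD.symm jN.symm p2.le ?_, fun k => f2 (inv_smul_eq_iff.1 k).symm⟩
      · rw [← f3, smul_inv_smul]
      · rwa [← act_le f, smul_inv_smul]
  have U0 : 0 < 1 / (p - B.x) - 1 / (nxt A.Λ p - B.x) :=
    sub_pos.2 (one_div_lt_one_div_of_lt (by linarith) (by linarith))
  have R0 : 0 < 1 / (p - B.x) + M := by
    have : 0 < 1 / (p - B.x) := one_div_pos.2 (by linarith)
    linarith
  have κ0 : 0 < (1 / (p - B.x) - 1 / (nxt A.Λ p - B.x)) / (ν * (1 / (p - B.x) + M) ^ 2) := by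
    positivity
  have big : ∀ g : G, AllE.Gd B.x (nxt A.Λ p) ν M g → g • p ∈ LE A.Λ ∧
      (1 / (p - B.x) - 1 / (nxt A.Λ p - B.x)) / (ν * (1 / (p - B.x) + M) ^ 2) ≤ A.len (g • p) ∧
      |g • p| ≤ |B.x| + 1 := by
    rintro g ⟨g1, g2, g3⟩
    have b1 : B.x < g • p := by rw [← g1, act_lt]; exact p1
    have b2 : g • p < g • nxt A.Λ p := (act_lt g).2 p3
    have b3 := act_le_one g (show p ≤ B.x + 1 by linarith)
    rw [g1] at b3
    refine ⟨A.act_LE g hp, ?_, abs_le.2 ⟨by linarith [neg_abs_le B.x],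
      by linarith [le_abs_self B.x]⟩⟩
    have b4 := (g2 p _ p1 p3 le_rfl).2
    have b5 := g3 p p1 p3.le
    have b6 : 1 / (g • nxt A.Λ p - B.x) ≤ 1 / (g • p - B.x) :=
      one_div_le_one_div_of_le (by linarith) (by linarith)
    have b7 : 1 / (g • p - B.x) - 1 / (g • nxt A.Λ p - B.x) = (g • nxt A.Λ p - g • p) *
        (1 / (g • p - B.x) * (1 / (g • nxt A.Λ p - B.x))) := by
      have n1 : g • p - B.x ≠ 0 := by linarith
      have n2 : g • nxt A.Λ p - B.x ≠ 0 := by linarith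
      field_simp
      ring
    have b8 : 1 / (g • p - B.x) * (1 / (g • nxt A.Λ p - B.x)) ≤ (1 / (p - B.x) + M) ^ 2 := by
      rw [sq]
      exact mul_le_mul b5 (b6.trans b5) (one_div_pos.2 (by linarith)).le R0.le
    unfold Cantor.len
    rw [A.nxt_act, div_le_iff₀ (by positivity)]
    refine b4.trans ?_
    rw [b7, mul_left_comm]
    exact mul_le_mul_of_nonneg_left (mul_le_mul_of_nonneg_left b8 (by linarith)) (by linarith)
  obtain ⟨κ, k0, hκ⟩ := fin_min _ (A.bigR_finite κ0 (|B.x| + 1))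
    (P := fun r κ => (∃ g : G, AllE.Gd B.x (nxt A.Λ p) ν M g ∧ g • p = r) →
      ∃ g : G, AllE.Gd B.x (nxt A.Λ p) ν M g ∧ g • p = r ∧
        ∀ w ∈ A.Λ, B.x < w → w < B.x + κ → g • w = w)
    (fun r κ κ' _ b h h' => by
      obtain ⟨g, g1, g2, g3⟩ := h h'
      exact ⟨g, g1, g2, fun w w1 w2 w3 => g3 w w1 w2 (by linarith)⟩)
    fun r _ => by
      by_cases h : ∃ g : G, AllE.Gd B.x (nxt A.Λ p) ν M g ∧ g • p = r
      · obtain ⟨g, g1, g2⟩ := h
        obtain ⟨v, v1, v2⟩ := B.triv g g1.1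
        exact ⟨v - B.x, sub_pos.2 v1, fun _ =>
          ⟨g, g1, g2, fun w w1 w2 w3 => v2 w w1 w2 (by linarith)⟩⟩
      · exact ⟨1, one_pos, fun h' => absurd h' h⟩
  obtain ⟨y, y0, y1, y2⟩ := B.acc (min κ (p - B.x)) (lt_min k0 (sub_pos.2 p1))
  have y3 : y < p := by linarith [min_le_right κ (p - B.x)]
  obtain ⟨g, g1, g2⟩ := key y y1 y3
  obtain ⟨r, r1, r2, r3⟩ := hκ _ (big g g1) ⟨g, g1, rfl⟩
  have h1 : (r⁻¹ * g) • B.x = B.x := by rw [mul_smul, g1.1, inv_smul_eq_iff, r1.1]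
  have h2 : (r⁻¹ * g) • p = p := by rw [mul_smul, ← r2, inv_smul_smul]
  have h3 : ∀ t : ℝ, r • (r⁻¹ * g) • t = g • t := fun t => by rw [mul_smul, smul_inv_smul]
  have := B.nc (μ := ν * ν) hT (by nlinarith) (by
    rw [hν, ← Real.exp_add, ← Real.exp_nat_mul, ← Real.exp_log (show 0 < 1 + c by linarith),
      Real.exp_lt_exp]
    push_cast
    linarith) h1 hp.1 (by linarith) h2 (fun t1 t2 b1 b2 b3 => by
      have c1 : B.x < (r⁻¹ * g) • t1 := by rw [← h1, act_lt]; exact b1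
      have c2 := (act_lt (r⁻¹ * g)).2 b2
      have c3 : (r⁻¹ * g) • t2 ≤ p := by rw [← h2, act_le]; exact b3
      have d1 := g1.2.1 t1 t2 b1 b2 (by linarith)
      have d2 := r1.2.1 _ _ c1 c2 (by linarith)
      rw [h3, h3] at d2
      have ν0 : 0 ≤ ν := by linarith
      rw [mul_assoc, mul_assoc]
      exact ⟨d2.2.trans (mul_le_mul_of_nonneg_left d1.1 ν0),
        d1.2.trans (mul_le_mul_of_nonneg_left d2.1 ν0)⟩) y y0 y1 y3
  refine g2 ?_
  rw [← h3, this]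
  exact r3 y y0 y1 (by linarith [min_le_left κ (p - B.x)])

end Pool.Agent.Lib.MP_173a7e_an
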