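import Pool.Agent.Lib.MP_173a7e_an.AllC
import Pool.Agent.Lib.MP_173a7e_an.AllD

/-! Simple paths keeping a record gap close produce thick points. -/

set_option autoImplicit false

namespace Pool.Agent.Lib.MP_173a7e_an

open Set Filter Topology

variable {G : Type} [Group G] [MulAction G ℝ] [SmoothAct G]

theorem Gen.path_W (Γ : Gen G) {γ : ℕ → G} {n : ℕ} (hγ : Pa Γ.S γ n) {x a b lo hi : ℝ}
    (hb : b ≠ x) (ho : (x < a ∧ (b ≤ x ∨ a ≤ b)) ∨ (a < x ∧ (b ≤ a ∨ x ≤ b)))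
    (h1 : lo ≤ x ∧ x ≤ hi) (h2 : lo ≤ a ∧ a ≤ hi) (h3 : lo ≤ b ∧ b ≤ hi) (hl : hi ≤ lo + 1)
    (hE : ∑ k ∈ Finset.range n, (γ k • hi - γ k • lo) ^ Γ.α * |γ k • a - γ k • x| ≤
      1 / (4 * Γ.C)) :
    ∃ μ : ℝ, 1 / 2 ≤ μ ∧ μ ≤ 2 ∧ Vw x (γ n) a b = μ * Vw x (γ 0) a b := by
  have C1 := Γ.C_pos
  obtain ⟨μ, a1, a2, a3⟩ := Γ.path_V hγ hb ho h1 h2 h3 hl (E := 1 / 2) (by
    have := mul_le_mul_of_nonneg_left hE (show 0 ≤ 2 * Γ.C by linarith)
    rwa [show 2 * Γ.C * (1 / (4 * Γ.C)) = 1 / 2 by field_simp; norm_num] at this)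
  refine ⟨μ, le_trans ?_ a1, a2.trans exp_half, a3⟩
  rw [Real.exp_neg]
  exact le_trans (by norm_num) (inv_anti₀ (Real.exp_pos _) exp_half)

theorem thkR (A : Cantor G) (Γ : Gen G) {x a c : ℝ} (hc : 0 < c) (hc1 : c ≤ 1)
    (ha : a ∈ LE A.Λ) (xa : x < a) (a1 : nxt A.Λ a ≤ x + 1)
    (hr : ∀ p ∈ LE A.Λ, x < p → p < a → 1 / (p - x) - 1 / (nxt A.Λ p - x) ≤
      2 * (1 / (a - x) - 1 / (nxt A.Λ a - x)))
    {γ : ℕ → G} {n : ℕ} (hγ : Pa Γ.S γ n) (h0 : γ 0 = 1)
    (s1 : ∑ k ∈ Finset.range n, (γ k • a - γ k • x) ^ (1 + Γ.α) ≤ 1 / (4 * Γ.C))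
    (s2 : ∑ k ∈ Finset.range n, (nxt A.Λ (γ k • a) - γ k • x) ^ Γ.α * (γ k • a - γ k • x) ≤
      1 / (4 * Γ.C)) :
    ∀ p ∈ LE A.Λ, γ n • x < p → nxt A.Λ p ≤ γ n • x + c / 40 * (γ n • a - γ n • x) →
      A.len p < c / 4 * (nxt A.Λ p - γ n • x) := by
  intro p' hp' b1 b2
  obtain ⟨p, rfl⟩ : ∃ p, p' = γ n • p := ⟨(γ n)⁻¹ • p', by simp⟩
  have hp : p ∈ LE A.Λ := by simpa using A.act_LE (γ n)⁻¹ hp'
  have pos : ∀ k, 0 < γ k • a - γ k • x := fun k => sub_pos.2 ((act_lt _).2 xa)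
  have l1 := A.lt_nxt hp
  have l2 := A.lt_nxt ha
  have l3 := A.lt_nxt hp'
  have θ0 := pos n
  rw [A.nxt_act] at b2 l3
  have xp : x < p := (act_lt _).1 b1
  have pa : nxt A.Λ p < a := (act_lt (γ n)).1 (by nlinarith)
  obtain ⟨μ1, -, m2, m3⟩ := Γ.path_W hγ (x := x) (a := p) (b := nxt A.Λ p) (lo := x) (hi := a)
    (by linarith) (Or.inl ⟨xp, Or.inr l1.le⟩) ⟨le_rfl, xa.le⟩ ⟨xp.le, by linarith⟩
    ⟨by linarith, pa.le⟩ (by linarith) (le_trans (Finset.sum_le_sum fun k _ => by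
      rw [abs_of_pos (sub_pos.2 ((act_lt _).2 xp)), add_comm 1, Real.rpow_add (pos k),
        Real.rpow_one]
      exact mul_le_mul_of_nonneg_left (by linarith [(act_lt (γ k)).2 (l1.trans pa)])
        (Real.rpow_nonneg (pos k).le _)) s1)
  obtain ⟨μ2, m4, -, m6⟩ := Γ.path_W hγ (x := x) (a := a) (b := nxt A.Λ a) (lo := x)
    (hi := nxt A.Λ a) (by linarith) (Or.inl ⟨xa, Or.inr l2.le⟩) ⟨le_rfl, by linarith⟩
    ⟨xa.le, l2.le⟩ ⟨by linarith, le_rfl⟩ a1 (by
      simpa only [A.nxt_act, abs_of_pos (pos _)] using s2)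
  rw [h0, Vw_one] at m3 m6
  have v1 := hr p hp xp (l1.trans pa)
  have v2 : 0 ≤ 1 / (p - x) - 1 / (nxt A.Λ p - x) :=
    sub_nonneg.2 (one_div_le_one_div_of_le (by linarith) (by linarith))
  have v3 : 0 ≤ 1 / (a - x) - 1 / (nxt A.Λ a - x) :=
    sub_nonneg.2 (one_div_le_one_div_of_le (by linarith) (by linarith))
  have s0 := D_pos (γ n) x
  have v4 : 0 < D (γ n) x / (γ n • nxt A.Λ a - γ n • x) :=
    div_pos s0 (sub_pos.2 ((act_lt _).2 (xa.trans l2)))
  unfold Vw at m3 m6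
  have v5 : D (γ n) x / (γ n • p - γ n • x) - D (γ n) x / (γ n • nxt A.Λ p - γ n • x) ≤
      8 * (D (γ n) x / (γ n • a - γ n • x)) := by nlinarith
  unfold Cantor.len
  rw [A.nxt_act]
  set s := D (γ n) x
  set θ := γ n • a - γ n • x
  have P0 : 0 < γ n • p - γ n • x := by linarith
  have Q0 : 0 < γ n • nxt A.Λ p - γ n • x := by linarith
  rw [show γ n • nxt A.Λ p - γ n • p = (γ n • nxt A.Λ p - γ n • x) - (γ n • p - γ n • x) by ring]
  have b3 : γ n • p - γ n • x ≤ c / 40 * θ := by linarith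
  set P := γ n • p - γ n • x
  set Q := γ n • nxt A.Λ p - γ n • x
  rw [div_sub_div _ _ P0.ne' Q0.ne', mul_div_assoc', div_le_div_iff₀ (by positivity) θ0] at v5
  have v6 : (Q - P) * θ ≤ 8 * (P * Q) := le_of_mul_le_mul_left (by linarith) s0
  have v7 : (Q - P) * θ ≤ c / 5 * Q * θ := by nlinarith
  have v8 := le_of_mul_le_mul_right v7 θ0
  nlinarith

theorem thkL (A : Cantor G) (Γ : Gen G) {x a c K Θ ξ : ℝ} (hc : 0 < c) (hc1 : c ≤ 1) (xa : x < a)
    (hK : ∀ p ∈ LE A.Λ, nxt A.Λ p < x → 1 / (x - nxt A.Λ p) - 1 / (x - p) ≤ K)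
    (hU : 32 / c * K < 1 / (a - x)) {γ : ℕ → G} {n : ℕ} (hγ : Pa Γ.S γ n) (h0 : γ 0 = 1)
    (hΘ : ∀ t ≤ n, γ t • a - γ t • x ≤ Θ)
    (hP : ∀ i < n, ∀ j < n, i ≠ j → ∀ m : ℤ,
      c / 40 * min (γ i • a - γ i • x) (γ j • a - γ j • x) ≤ |γ i • x - γ j • x - m|)
    (s1 : ∑ k ∈ Finset.range n, (γ k • a - γ k • x) ^ (1 + Γ.α) ≤ 1 / (8 * Γ.C) / (1 + 32 / c))
    (gs : ∀ (n : ℕ) (z p : ℕ → ℝ),
      (∀ i < n, p i ∈ LE A.Λ ∧ nxt A.Λ (p i) < z i ∧ z i - nxt A.Λ (p i) ≤ ξ) →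
      (∀ i < n, ∀ j < n, i ≠ j → ∀ m : ℤ, c / 40 / (32 / c) *
        min (z i - nxt A.Λ (p i)) (z j - nxt A.Λ (p j)) ≤ |z i - z j - m|) →
      ∑ i ∈ Finset.range n, (z i - p i) ^ Γ.α * (z i - nxt A.Λ (p i)) ≤ 1 / (8 * Γ.C))
    (t1 : Θ ≤ 1 / (8 * Γ.C) / (1 + 32 / c)) (t2 : 32 / c * Θ ≤ ξ) :
    ∀ p ∈ LE A.Λ, nxt A.Λ p < γ n • x → γ n • x - c / 40 * (γ n • a - γ n • x) ≤ p →
      A.len p < c / 4 * (γ n • x - p) := by
  intro k' hk' b1 b2
  obtain ⟨k, rfl⟩ : ∃ k, k' = γ n • k := ⟨(γ n)⁻¹ • k', by simp⟩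
  have hk : k ∈ LE A.Λ := by simpa using A.act_LE (γ n)⁻¹ hk'
  by_contra hb
  push Not at hb
  have C1 := Γ.C_pos
  set M := 32 / c with hM
  have M1 : 32 ≤ M := by rw [hM, le_div_iff₀ hc]; linarith
  have M2 : c * M = 32 := by rw [hM]; field_simp
  have e8 : 1 / (8 * Γ.C) ≤ 1 / 8 := one_div_le_one_div_of_le (by norm_num) (by linarith)
  have e9 : 1 / (8 * Γ.C) / (1 + M) ≤ 1 / (8 * Γ.C) := div_le_self (by positivity) (by linarith)
  have e4 : 1 / (4 * Γ.C) = 1 / (8 * Γ.C) + 1 / (8 * Γ.C) := by field_simp; norm_num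
  have pos : ∀ g : G, 0 < g • a - g • x := fun g => sub_pos.2 ((act_lt _).2 xa)
  have l1 := A.lt_nxt hk
  unfold Cantor.len at hb
  rw [A.nxt_act] at b1 hb
  set k1 := nxt A.Λ k with hk1
  have kx : k1 < x := (act_lt _).1 b1
  have py : ∀ g : G, 0 < g • x - g • k1 := fun g => sub_pos.2 ((act_lt _).2 kx)
  have pY : ∀ g : G, 0 < g • x - g • k := fun g => sub_pos.2 ((act_lt _).2 (l1.trans kx))
  have l3 := (act_lt (γ n)).2 l1
  have θn := hΘ n le_rfl
  have θ0 := pos (γ n)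
  have y1 : γ n • x - γ n • k ≤ γ n • a - γ n • x := by nlinarith
  have hull1 : a ≤ k1 + 1 := (act_le (γ n)).1 (by rw [SmoothAct.per]; linarith)
  have hull2 : x ≤ k + 1 := (act_le (γ n)).1 (by rw [SmoothAct.per]; linarith)
  have eD : ∀ g : G, Vw x g a k1 = D g x / (g • a - g • x) + D g x / (g • x - g • k1) := fun g => by
    unfold Vw; rw [← neg_sub (g • x) (g • k1), div_neg]; ring
  have eW : ∀ g : G, -Vw x g k1 k = D g x / (g • x - g • k1) - D g x / (g • x - g • k) :=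
    fun g => by unfold Vw; rw [← neg_sub (g • x) (g • k1), ← neg_sub (g • x) (g • k), div_neg,
      div_neg]; ring
  have start : c / 8 * Vw x (γ n) a k1 ≤ -Vw x (γ n) k1 k := by
    rw [eD, eW]
    have s0 := D_pos (γ n) x
    have q1 := py (γ n)
    have q2 := pY (γ n)
    have d1 : D (γ n) x / (γ n • a - γ n • x) ≤ D (γ n) x / (γ n • x - γ n • k1) :=
      div_le_div_of_nonneg_left s0.le q1 (by linarith)
    have d2 : D (γ n) x / (γ n • x - γ n • k) ≤ (1 - c / 4) * (D (γ n) x / (γ n • x - γ n • k1)) := by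
      rw [mul_div_assoc', div_le_div_iff₀ q2 q1]
      nlinarith
    nlinarith [div_pos s0 q1]
  have rev := hγ.rev Γ.inv
  have key : ∀ i ≤ n, (∀ j < i, γ (n - j) • x - γ (n - j) • k1 ≤ M * (γ (n - j) • a - γ (n - j) • x)) →
      Vw x (γ (n - i)) a k1 ≤ M * -Vw x (γ (n - i)) k1 k := by
    intro i hi H
    obtain ⟨μ1, -, m2, m3⟩ := Γ.path_W (rev.mono hi) (x := x) (a := a) (b := k1) (lo := k1)
      (hi := a) kx.ne (Or.inl ⟨xa, Or.inl kx.le⟩) ⟨kx.le, xa.le⟩ ⟨by linarith, le_rfl⟩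
      ⟨le_rfl, by linarith⟩ hull1 (by
        have u1 : ∑ j ∈ Finset.range i, (γ (n - j) • a - γ (n - j) • x) ^ (1 + Γ.α) ≤
            2 * (1 / (8 * Γ.C) / (1 + M)) := by
          have r := Finset.sum_range_reflect (fun j => (γ j • a - γ j • x) ^ (1 + Γ.α)) (n + 1)
          simp only [Nat.add_sub_cancel] at r
          have r2 := Finset.sum_le_sum_of_subset_of_nonneg
            (f := fun j => (γ (n - j) • a - γ (n - j) • x) ^ (1 + Γ.α))
            (Finset.range_mono (show i ≤ n + 1 by omega))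
            fun j _ _ => Real.rpow_nonneg (pos _).le _
          rw [r, Finset.sum_range_succ] at r2
          linarith [rpow_le_self Γ.α_pos θ0.le (by linarith)]
        have u2 : ∀ j ∈ Finset.range i, (γ (n - j) • a - γ (n - j) • k1) ^ Γ.α *
            |γ (n - j) • a - γ (n - j) • x| ≤
              (1 + M) * (γ (n - j) • a - γ (n - j) • x) ^ (1 + Γ.α) := fun j hj => by
          have w1 := H j (Finset.mem_range.1 hj)
          have w2 := pos (γ (n - j))
          have w3 := py (γ (n - j))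
          have w4 := Real.rpow_le_rpow (by linarith) (show γ (n - j) • a - γ (n - j) • k1 ≤
            (1 + M) * (γ (n - j) • a - γ (n - j) • x) by linarith) Γ.α_pos.le
          rw [Real.mul_rpow (by linarith) w2.le] at w4
          have w5 := Real.rpow_le_rpow_of_exponent_le (show 1 ≤ 1 + M by linarith) Γ.α_le
          rw [Real.rpow_one] at w5
          rw [abs_of_pos w2, add_comm 1 Γ.α, Real.rpow_add w2, Real.rpow_one, ← mul_assoc]
          exact mul_le_mul_of_nonneg_right (w4.trans (mul_le_mul_of_nonneg_right w5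
            (Real.rpow_nonneg w2.le _))) w2.le
        refine (Finset.sum_le_sum u2).trans ?_
        rw [← Finset.mul_sum]
        refine (mul_le_mul_of_nonneg_left u1 (by linarith)).trans (le_of_eq ?_)
        field_simp
        norm_num)
    obtain ⟨μ2, m4, -, m6⟩ := Γ.path_W (rev.mono hi) (x := x) (a := k1) (b := k) (lo := k)
      (hi := x) (l1.trans kx).ne (Or.inr ⟨kx, Or.inl l1.le⟩) ⟨by linarith, le_rfl⟩
      ⟨l1.le, kx.le⟩ ⟨le_rfl, by linarith⟩ hull2 (by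
        rcases i with _ | i
        · simp; positivity
        have u1 := gs i (fun j => γ (n - (j + 1)) • x) (fun j => γ (n - (j + 1)) • k)
          (fun j hj => ⟨A.act_LE _ hk, by rw [A.nxt_act]; exact (act_lt _).2 kx, by
            rw [A.nxt_act]
            have := mul_le_mul_of_nonneg_left (hΘ (n - (j + 1)) (by omega))
              (show 0 ≤ M by linarith)
            linarith [H (j + 1) (by omega)]⟩)
          fun j hj j' hj' hne m => by
            refine le_trans ?_ (hP _ (by omega) _ (by omega) (by omega) m)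
            simp only [A.nxt_act]
            rw [div_mul_eq_mul_div, mul_div_assoc]
            refine mul_le_mul_of_nonneg_left ?_ (by positivity)
            rw [div_le_iff₀' (by linarith), mul_min_of_nonneg _ _ (by linarith)]
            exact min_le_min (H _ (by omega)) (H _ (by omega))
        simp only [A.nxt_act] at u1
        have ab : ∀ g : G, |g • k1 - g • x| = g • x - g • k1 := fun g => by
          rw [abs_sub_comm, abs_of_pos (py g)]
        simp only [ab]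
        rw [Finset.sum_range_succ', Nat.sub_zero]
        have u2 : (γ n • x - γ n • k) ^ Γ.α ≤ 1 :=
          Real.rpow_le_one (pY _).le (by linarith) Γ.α_pos.le
        have u3 := mul_le_mul_of_nonneg_right u2 (py (γ n)).le
        linarith)
    simp only [Nat.sub_zero] at m3 m6
    have d0 : 0 < Vw x (γ n) a k1 := by
      rw [eD]; exact add_pos (div_pos (D_pos _ _) (pos _)) (div_pos (D_pos _ _) (py _))
    have d1 : Vw x (γ n) a k1 ≤ M / 4 * -Vw x (γ n) k1 k := by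
      have := mul_le_mul_of_nonneg_left start (show 0 ≤ M / 4 by linarith)
      rw [← mul_assoc, show M / 4 * (c / 8) = c * M / 32 by ring, M2] at this
      linarith
    have d2 : 0 ≤ -Vw x (γ n) k1 k := by nlinarith
    rw [m3, m6]
    nlinarith [mul_le_mul_of_nonneg_right m4 d2, mul_le_mul_of_nonneg_right m2 d0.le]
  have ind : ∀ i ≤ n, γ (n - i) • x - γ (n - i) • k1 ≤ M * (γ (n - i) • a - γ (n - i) • x) := by
    intro i
    induction i using Nat.strong_induction_on with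
    | _ i ih =>
      intro hi
      have := key i hi fun j hj => ih j hj (by omega)
      rw [eD, eW] at this
      set g := γ (n - i)
      have s0 := D_pos g x
      have q1 := div_pos s0 (py g)
      have q2 := div_pos s0 (pY g)
      have q3 : D g x / (g • a - g • x) ≤ M * (D g x / (g • x - g • k1)) := by nlinarith
      rw [mul_div_assoc', div_le_div_iff₀ (pos g) (py g)] at q3
      exact le_of_mul_le_mul_left (by linarith) s0
  have fin := key n le_rfl fun j hj => ind j hj.le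
  rw [Nat.sub_self, h0, eD, eW] at fin
  simp only [D_one, one_smul] at fin
  have f1 := mul_le_mul_of_nonneg_left (hK k hk kx) (show 0 ≤ M by linarith)
  have f2 : 0 < 1 / (x - k1) := one_div_pos.2 (by linarith)
  linarith

theorem Bad.sep {A : Cantor G} (B : Bad A) (Γ : Gen G) {c : ℝ} (hc : 0 < c) (hc1 : c ≤ 1)
    (hT : A.Thick c) (h2 : A.Two B.x) {η : ℝ} (hη : 0 < η) :
    ∃ Θ > 0, ∃ U : ℝ, ∀ a ∈ LE A.Λ, B.x < a → nxt A.Λ a ≤ B.x + 1 → U ≤ 1 / (a - B.x) →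
      (∀ p ∈ LE A.Λ, B.x < p → p < a → 1 / (p - B.x) - 1 / (nxt A.Λ p - B.x) ≤
        2 * (1 / (a - B.x) - 1 / (nxt A.Λ a - B.x))) →
      ∀ (γ : ℕ → G) (N : ℕ), Pa Γ.S γ N → γ 0 = 1 → Sim B.x γ (N + 1) →
        (∀ t ≤ N, γ t • a - γ t • B.x ≤ Θ) →
        ∑ k ∈ Finset.range (N + 1), (γ k • a - γ k • B.x) ^ (1 + Γ.α) ≤ η ∧
          A.Thk (c / 4) (c / 40 * (γ N • a - γ N • B.x)) (γ N • B.x) := by
  have C1 := Γ.C_pos
  obtain ⟨K, -, hK⟩ := B.poro Γ
  have M1 : 32 ≤ 32 / c := by rw [le_div_iff₀ hc]; linarith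
  have e0 : 0 < 1 / (8 * Γ.C) / (1 + 32 / c) := by positivity
  have e8 : 1 / (8 * Γ.C) ≤ 1 / 8 := one_div_le_one_div_of_le (by norm_num) (by linarith)
  have e9 : 1 / (8 * Γ.C) / (1 + 32 / c) ≤ 1 / (8 * Γ.C) :=
    div_le_self (by positivity) (by linarith)
  have e4 : 1 / (8 * Γ.C) ≤ 1 / (4 * Γ.C) := one_div_le_one_div_of_le (by linarith) (by linarith)
  obtain ⟨θ0, θp, hθ⟩ := sum_sep Γ.α_pos (κ := c / 40) (by positivity) (lt_min hη e0)
  obtain ⟨ξ, ξp, g1, g2⟩ := A.gap_sum Γ.α_pos Γ.α_le (κ := c / 40 / (32 / c))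
    (ε := 1 / (8 * Γ.C)) (by positivity) (by positivity)
  refine ⟨min (min θ0 (1 / (8 * Γ.C) / (1 + 32 / c))) (ξ / (32 / c)),
    lt_min (lt_min θp e0) (by positivity), 32 / c * K + 1, fun a ha xa a1 hU hr γ N hγ h0 hs hΘ => ?_⟩
  set Θ := min (min θ0 (1 / (8 * Γ.C) / (1 + 32 / c))) (ξ / (32 / c))
  have t0 : Θ ≤ θ0 := (min_le_left _ _).trans (min_le_left _ _)
  have t1 : Θ ≤ 1 / (8 * Γ.C) / (1 + 32 / c) := (min_le_left _ _).trans (min_le_right _ _)
  have t2 : 32 / c * Θ ≤ ξ := by rw [← le_div_iff₀' (by linarith)]; exact min_le_right _ _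
  have pos : ∀ g : G, 0 < g • a - g • B.x := fun g => sub_pos.2 ((act_lt _).2 xa)
  have sp : ∀ n ≤ N + 1, (∀ i < n, A.Thk (c / 4) (c / 40 * (γ i • a - γ i • B.x)) (γ i • B.x)) →
      ∀ i < n, ∀ j < n, i ≠ j → ∀ m : ℤ, c / 40 * min (γ i • a - γ i • B.x) (γ j • a - γ j • B.x) ≤
        |γ i • B.x - γ j • B.x - m| := fun n hn H i hi j hj hij m => by
    rw [mul_min_of_nonneg _ _ (by positivity)]
    exact A.sep_thk hc hc1 hT (h2.act _) (h2.act _) (H i hi) (H j hj)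
      (by nlinarith [hΘ i (by omega), pos (γ i)]) (hs i (by omega) j (by omega) hij m)
  have sm : ∀ n ≤ N + 1, (∀ i < n, A.Thk (c / 4) (c / 40 * (γ i • a - γ i • B.x)) (γ i • B.x)) →
      ∑ k ∈ Finset.range n, (γ k • a - γ k • B.x) ^ (1 + Γ.α) ≤
        min η (1 / (8 * Γ.C) / (1 + 32 / c)) := fun n hn H =>
    hθ n (fun i => γ i • B.x) _ (fun i hi => ⟨pos _, (hΘ i (by omega)).trans t0⟩) (sp n hn H)
  have main : ∀ n ≤ N, A.Thk (c / 4) (c / 40 * (γ n • a - γ n • B.x)) (γ n • B.x) := by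
    intro n
    induction n using Nat.strong_induction_on with
    | _ n ih =>
      intro hn
      have H := fun i (hi : i < n) => ih i hi (by omega)
      have s1 := (sm n (by omega) H).trans (min_le_right _ _)
      refine ⟨thkR A Γ hc hc1 ha xa a1 hr (hγ.mono hn) h0 (by linarith) (le_trans (g1 n
        (fun i => γ i • B.x) (fun i => γ i • a) (fun i hi => ⟨A.act_LE _ ha, (act_lt _).2 xa,
          by nlinarith [hΘ i (by omega), pos (γ i)]⟩) fun i hi j hj hij m => le_trans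
            (mul_le_mul_of_nonneg_right (div_le_self (by positivity) (by linarith))
              (le_min (pos _).le (pos _).le)) (sp n (by omega) H i hi j hj hij m)) e4),
        thkL A Γ hc hc1 xa hK (by linarith) (hγ.mono hn) h0 (fun t ht => hΘ t (by omega))
          (sp n (by omega) H) s1 g2 t1 t2⟩
  exact ⟨(sm _ le_rfl fun i hi => main i (by omega)).trans (min_le_left _ _), main N le_rfl⟩

end Pool.Agent.Lib.MP_173a7e_an
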