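import Pool.Agent.Lib.MP_173a7e_an.AllE
import Pool.Agent.Lib.MP_173a7e_an.AllF

/-! There is no bad point. -/

set_option autoImplicit false

namespace Pool.Agent.Lib.MP_173a7e_an

open Set Filter Topology

variable {G : Type} [Group G] [MulAction G ℝ] [SmoothAct G]

theorem allg_Q (Γ : Gen G) {γ : ℕ → G} {n : ℕ} (hγ : Pa Γ.S γ n) (h0 : γ 0 = 1) {x a : ℝ}
    (hx : x < a) (ha : a ≤ x + 1) :
    1 / (a - x) - D (γ n) x / (γ n • a - γ n • x) -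
      Γ.C * ∑ k ∈ Finset.range n, D (γ k) x * (γ k • a - γ k • x) ^ Γ.α ≤ Nl (γ n) x := by
  have e : ∀ g : G, |g • x - g • a| = g • a - g • x := fun g => by
    rw [abs_sub_comm, abs_of_pos (sub_pos.2 ((act_lt g).2 hx))]
  have h := Γ.path_Q hγ hx.ne' (fun k _ => by rw [e]; linarith only [act_le_one (γ k) ha])
  simp only [e] at h
  rw [h0, D_one, Nl_one, one_smul, one_smul, ← neg_sub (γ n • a), ← neg_sub a, div_neg,
    div_neg] at h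
  linarith only [(abs_le.1 h).2]

theorem allg_Nl (Γ : Gen G) {γ : ℕ → G} {n : ℕ} (hγ : Pa Γ.S γ n) (h0 : γ 0 = 1) (x : ℝ) :
    Nl (γ n) x ≤ Γ.C * ∑ k ∈ Finset.range n, D (γ k) x := by
  induction n with
  | zero => simp [h0, Nl_one]
  | succ n ih =>
    obtain ⟨s, hs, e⟩ := hγ n (Nat.lt_succ_self n)
    rw [e, Nl_mul, Finset.sum_range_succ, mul_add]
    linarith only [ih (hγ.mono (Nat.le_succ n)), mul_le_mul_of_nonneg_right
      ((le_abs_self _).trans (Γ.Nb s hs (γ n • x))) (D_pos (γ n) x).le]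

theorem allg_lg {S : Finset G} {L : ℝ} (hL : 0 ≤ L) (hS : ∀ s ∈ S, GLip L s) {γ : ℕ → G} {n : ℕ}
    (hγ : Pa S γ n) (h0 : γ 0 = 1) {k x u : ℝ} (h1 : k ≤ u) (h2 : u ≤ x) :
    lg (γ n) x - lg (γ n) u ≤ L * ∑ i ∈ Finset.range n, (γ i • x - γ i • k) := by
  induction n with
  | zero => simp [h0, lg_one]
  | succ n ih =>
    obtain ⟨s, hs, e⟩ := hγ n (Nat.lt_succ_self n)
    have a1 := (le_abs_self _).trans (hS s hs (γ n • x) (γ n • u))
    rw [abs_of_nonneg (sub_nonneg.2 ((act_le _).2 h2))] at a1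
    rw [e, lg_mul, lg_mul, Finset.sum_range_succ, mul_add]
    linarith only [ih (hγ.mono (Nat.le_succ n)), a1,
      mul_le_mul_of_nonneg_left ((act_le (γ n)).2 h1) hL]

theorem allg_gaps (A : Cantor G) {k : ℝ} (hk : k ∈ LE A.Λ) {γ : ℕ → G} {n : ℕ}
    (hs : Sim (nxt A.Λ k) γ n) :
    ∑ i ∈ Finset.range n, (γ i • nxt A.Λ k - γ i • k) ≤ 2 := by
  refine disj_sum _ (fun i => γ i • k) _ (fun i _ => ⟨sub_nonneg.2 ((act_le _).2 (A.le_nxt k)),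
    by linarith only [act_le_one (γ i) (A.nxt_le_one hk.1)]⟩)
    fun i hi j hj hij m u a1 a2 a3 a4 => ?_
  have m1 := A.inv (γ i) k hk.1
  have m2 := (A.add_int_mem m).2 (A.inv (γ j) k hk.1)
  have e1 := A.nxt_act (γ i) k
  have e2 := (A.nxt_int (γ j • k) m).trans (congrArg (· + (m : ℝ)) (A.nxt_act (γ j) k))
  have e : γ i • k = γ j • k + m :=
    le_antisymm (A.le_of_lt_nxt m1 (by rw [e2]; linarith only [a1, a4]))
      (A.le_of_lt_nxt m2 (by rw [e1]; linarith only [a2, a3]))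
  exact hs i (Finset.mem_range.1 hi) j (Finset.mem_range.1 hj) hij m (by rw [← e1, e, e2])

theorem allg_sumD (A : Cantor G) (Γ : Gen G) {k : ℝ} (hk : k ∈ LE A.Λ) :
    ∃ C2 > 0, ∀ (γ : ℕ → G) (n : ℕ), Pa Γ.S γ n → γ 0 = 1 → Sim (nxt A.Λ k) γ (n + 1) →
      ∑ i ∈ Finset.range (n + 1), D (γ i) (nxt A.Λ k) ≤ C2 := by
  obtain ⟨L, hL, hS⟩ := finite_bounds (Γ.S : Set G) Γ.S.finite_toSet
  have l0 := A.lt_nxt hk
  have l1 := sub_pos.2 l0
  have c0 : 0 < Real.exp (L * 2) / (nxt A.Λ k - k) := div_pos (Real.exp_pos _) l1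
  refine ⟨Real.exp (L * 2) / (nxt A.Λ k - k) * 2, by positivity, fun γ n hγ h0 hs => ?_⟩
  refine le_trans ?_ (mul_le_mul_of_nonneg_left (allg_gaps A hk hs) c0.le)
  rw [Finset.mul_sum]
  refine Finset.sum_le_sum fun t ht => ?_
  have ht' := Nat.lt_succ_iff.1 (Finset.mem_range.1 ht)
  obtain ⟨u, hu, e⟩ := mvt (γ t) k (nxt A.Λ k)
  rw [uIcc_of_le l0.le] at hu
  have a1 := allg_lg (zero_le_one.trans hL) (fun s h => (hS s h).1) (hγ.mono ht') h0 hu.1 hu.2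
  have a2 := allg_gaps A hk (hs.mono (ht'.trans (Nat.le_succ n)))
  have a3 := D_le_of_lg (a1.trans (mul_le_mul_of_nonneg_left a2 (zero_le_one.trans hL)))
  rw [e, mul_comm (D _ u), ← mul_assoc, div_mul_cancel₀ _ l1.ne']
  exact a3

theorem Bad.two {A : Cantor G} (B : Bad A) (Γ : Gen G) {c : ℝ} (hc : 0 < c) (hT : A.Thick c) :
    A.Two B.x := by
  refine ⟨B.mem, B.acc, fun ε hε => by_contra fun hn => ?_⟩
  push Not at hn
  obtain ⟨k, hk, k1, k2⟩ := A.exists_gap (u := B.x - ε / 2) fun h =>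
    absurd (hn _ h (by linarith)) (by linarith)
  have e : nxt A.Λ k = B.x :=
    le_antisymm (A.nxt_le B.mem (by linarith)) (hn _ (A.nxt_mem k) (by linarith))
  obtain ⟨C2, c0, hC⟩ := allg_sumD A Γ hk
  rw [e] at hC
  obtain ⟨η, η0, hη⟩ := B.lasso Γ hc hT
  have δ0 := B.δ_pos
  have C0 : 0 < Γ.C := one_pos.trans_le Γ.C_pos
  obtain ⟨W, W1, W2, W3⟩ : ∃ W : ℝ, 1 ≤ W ∧ 1 / W < B.δ ∧ C2 / W ≤ η := by
    have a1 : 0 < 2 / B.δ := by positivity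
    have a2 : 0 < C2 / η := by positivity
    refine ⟨1 + 2 / B.δ + C2 / η, by linarith, ?_, ?_⟩
    · rw [div_lt_iff₀ (by positivity), mul_add, mul_add, mul_div_cancel₀ _ δ0.ne']
      linarith only [δ0, mul_pos δ0 a2]
    · rw [div_le_iff₀ (by positivity), mul_add, mul_div_cancel₀ _ η0.ne']
      linarith only [mul_pos η0 (add_pos one_pos a1)]
  have W0 : 0 < W := one_pos.trans_le W1
  have cc := mul_pos C0 c0
  obtain ⟨a, a1, a2, a3⟩ : ∃ a, B.x < a ∧ a ≤ B.x + 1 ∧ 1 / (a - B.x) = W + 2 * (Γ.C * C2) :=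
    ⟨B.x + 1 / (W + 2 * (Γ.C * C2)), lt_add_of_pos_right _ (by positivity), by
      linarith only [(div_le_one (show 0 < W + 2 * (Γ.C * C2) by positivity)).2
        (show 1 ≤ W + 2 * (Γ.C * C2) by linarith only [W1, cc])],
      by rw [add_sub_cancel_left, one_div_one_div]⟩
  refine hη a a1 a2 fun γ n hγ h0 hs => ?_
  have p0 : ∀ g : G, 0 < g • a - g • B.x := fun g => sub_pos.2 ((act_lt g).2 a1)
  have p1 : ∀ g : G, g • a - g • B.x ≤ 1 := fun g => by linarith only [act_le_one g a2]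
  have key : ∀ t ≤ n, γ t • a - γ t • B.x ≤ D (γ t) B.x / W := by
    intro t ht
    have b0 : ∑ i ∈ Finset.range t, D (γ i) B.x ≤ C2 :=
      (Finset.sum_le_sum_of_subset_of_nonneg (Finset.range_mono (ht.trans (Nat.le_succ n)))
        fun i _ _ => (D_pos _ _).le).trans (hC γ n hγ h0 hs)
    have b1 := allg_Q Γ (hγ.mono ht) h0 a1 a2
    have b2 := allg_Nl Γ (hγ.mono ht) h0 B.x
    have b3 : ∑ i ∈ Finset.range t, D (γ i) B.x * (γ i • a - γ i • B.x) ^ Γ.α ≤ C2 :=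
      (Finset.sum_le_sum fun i _ => mul_le_of_le_one_right (D_pos _ _).le
        (Real.rpow_le_one (p0 _).le (p1 _) Γ.α_pos.le)).trans b0
    have b4 : W ≤ D (γ t) B.x / (γ t • a - γ t • B.x) := by
      linarith only [b1, b2, a3, mul_le_mul_of_nonneg_left b0 C0.le,
        mul_le_mul_of_nonneg_left b3 C0.le]
    rw [le_div_iff₀ (p0 _)] at b4
    rw [le_div_iff₀ W0, mul_comm]
    exact b4
  refine ⟨((key n le_rfl).trans (div_le_div_of_nonneg_right (B.ne _) W0.le)).trans_lt W2, ?_⟩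
  refine le_trans (Finset.sum_le_sum fun t ht => (rpow_le_self Γ.α_pos (p0 _).le (p1 _)).trans
    (key t (Nat.lt_succ_iff.1 (Finset.mem_range.1 ht)))) ?_
  rw [← Finset.sum_div]
  exact (div_le_div_of_nonneg_right (hC γ n hγ h0 hs) W0.le).trans W3

theorem allg_record {A : Cantor G} (B : Bad A) (Γ : Gen G) {ρ : ℝ} (hρ : 0 < ρ) :
    ∃ a ∈ LE A.Λ, B.x < a ∧ nxt A.Λ a ≤ B.x + ρ ∧ ∀ p ∈ LE A.Λ, B.x < p → p < a →
      1 / (p - B.x) - 1 / (nxt A.Λ p - B.x) ≤ 2 * (1 / (a - B.x) - 1 / (nxt A.Λ a - B.x)) := by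
  obtain ⟨K, hK, -⟩ := B.poro Γ
  obtain ⟨V, hV⟩ : ∃ V : Set ℝ, V = (fun p => 1 / (p - B.x) - 1 / (nxt A.Λ p - B.x)) ''
    {p | p ∈ LE A.Λ ∧ B.x < p ∧ nxt A.Λ p ≤ B.x + ρ} := ⟨_, rfl⟩
  have hb : BddAbove V := ⟨K, by
    rw [hV]
    rintro _ ⟨p, hp, rfl⟩
    exact hK p hp.1 hp.2.1⟩
  obtain ⟨p0, q1, q2, q3, -⟩ := B.exp B.x (B.x + ρ) (B.acc ρ hρ)
  have m0 : 1 / (p0 - B.x) - 1 / (nxt A.Λ p0 - B.x) ∈ V := hV ▸ ⟨p0, ⟨q1, q2, q3.le⟩, rfl⟩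
  have s0 : 0 < sSup V := lt_of_lt_of_le (sub_pos.2 (one_div_lt_one_div_of_lt (sub_pos.2 q2)
    (sub_lt_sub_right (A.lt_nxt q1) _))) (le_csSup hb m0)
  obtain ⟨v, hv, h1⟩ := exists_lt_of_lt_csSup ⟨_, m0⟩ (half_lt_self s0)
  rw [hV] at hv
  obtain ⟨a, ha, rfl⟩ := hv
  refine ⟨a, ha.1, ha.2.1, ha.2.2, fun p hp r1 r2 => ?_⟩
  have := le_csSup hb (show 1 / (p - B.x) - 1 / (nxt A.Λ p - B.x) ∈ V from hV ▸
    ⟨p, ⟨hp, r1, ((A.nxt_le ha.1.1 r2).trans (A.le_nxt a)).trans ha.2.2⟩, rfl⟩)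
  linarith only [this, h1]

theorem Bad.false {A : Cantor G} (B : Bad A) (Γ : Gen G) : False := by
  classical
  obtain ⟨c, hc, hc1, hT⟩ := A.thick Γ B.δ_pos B.exp
  have h2 := B.two Γ hc hT
  obtain ⟨η, η0, hη⟩ := B.lasso Γ hc hT
  obtain ⟨Θ, Θ0, U0, hsep⟩ := B.sep Γ hc hc1 hT h2 η0
  obtain ⟨Sb, -, hSb⟩ := beta_sum A Γ B.δ_pos B.exp B.mem B.ne B.acc
  obtain ⟨L, hL, hS⟩ := finite_bounds (Γ.S : Set G) Γ.S.finite_toSet
  have δ0 := B.δ_pos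
  have C0 : 0 < Γ.C := one_pos.trans_le Γ.C_pos
  have L0 : 0 < L := one_pos.trans_le hL
  obtain ⟨ξ, ξ0, ξ1, ξ2⟩ : ∃ ξ : ℝ, 0 < ξ ∧ L * ξ ≤ Θ ∧ L * ξ < B.δ :=
    ⟨min Θ (B.δ / 2) / L, by positivity, by
      rw [mul_div_cancel₀ _ L0.ne']; exact min_le_left _ _, by
      rw [mul_div_cancel₀ _ L0.ne']; exact (min_le_right _ _).trans_lt (half_lt_self δ0)⟩
  have ξ3 : ξ ≤ L * ξ := le_mul_of_one_le_left ξ0.le hL
  have sel : ∀ q : ℝ, ∃ (g : G) (θ : ℝ), ξ < θ ∧ θ ≤ 1 ∧ A.Thk (c / 4) (c / 40 * θ) (g • B.x) ∧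
      q ≤ Nl g B.x := by
    intro q
    obtain ⟨U, u1, u2, u3, u4⟩ : ∃ U : ℝ, 1 ≤ U ∧ U0 ≤ U ∧ 1 / ξ ≤ U ∧
        q + 1 / ξ + Γ.C * (Sb + η) ≤ U :=
      ⟨max (max 1 U0) (max (1 / ξ) (q + 1 / ξ + Γ.C * (Sb + η))),
        (le_max_left _ _).trans (le_max_left _ _), (le_max_right _ _).trans (le_max_left _ _),
        (le_max_left _ _).trans (le_max_right _ _), (le_max_right _ _).trans (le_max_right _ _)⟩
    have u0 : 0 < U := one_pos.trans_le u1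
    obtain ⟨a, ha, a1, a2, a3⟩ := allg_record B Γ (one_div_pos.2 u0)
    have a4 : nxt A.Λ a ≤ B.x + 1 := by linarith only [a2, (div_le_one u0).2 u1]
    have a5 : a ≤ B.x + 1 := (A.le_nxt a).trans a4
    have a6 : a - B.x ≤ 1 / U := by linarith only [a2, A.le_nxt a]
    have a7 : U ≤ 1 / (a - B.x) := (le_one_div u0 (sub_pos.2 a1)).2 a6
    have a8 : a - B.x ≤ ξ := a6.trans ((one_div_le u0 ξ0).2 u3)
    have p0 : ∀ g : G, 0 < g • a - g • B.x := fun g => sub_pos.2 ((act_lt g).2 a1)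
    have hs := hsep a ha a1 a4 (u2.trans a7) a3
    obtain ⟨γ, n, hγ, h0, hsim, hex⟩ : ∃ (γ : ℕ → G) (n : ℕ), Pa Γ.S γ n ∧ γ 0 = 1 ∧
        Sim B.x γ (n + 1) ∧ ∃ t, t ≤ n ∧ ξ < γ t • a - γ t • B.x := by
      by_contra hn
      push Not at hn
      exact hη a a1 a5 fun γ n b1 b2 b3 => ⟨((hn γ n b1 b2 b3 n le_rfl).trans ξ3).trans_lt ξ2,
        (hs γ n b1 b2 b3 fun t ht => ((hn γ n b1 b2 b3 t ht).trans ξ3).trans ξ1).1⟩
    obtain ⟨N, ⟨n1, n2⟩, n3⟩ : ∃ N, (N ≤ n ∧ ξ < γ N • a - γ N • B.x) ∧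
        ∀ t < N, γ t • a - γ t • B.x ≤ ξ :=
      ⟨Nat.find hex, Nat.find_spec hex, fun t ht => not_lt.1 fun h =>
        Nat.find_min hex ht ⟨ht.le.trans (Nat.find_spec hex).1, h⟩⟩
    have hΘ : ∀ t ≤ N, γ t • a - γ t • B.x ≤ Θ := by
      rintro (_ | t) ht
      · rw [h0, one_smul, one_smul]
        exact (a8.trans ξ3).trans ξ1
      · obtain ⟨s, hs', e⟩ := hγ t (lt_of_lt_of_le ht n1)
        have b1 := (le_abs_self _).trans
          (abs_act_le (fun x => ((hS s hs').2 x).1) (γ t • a) (γ t • B.x))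
        rw [abs_of_pos (p0 _)] at b1
        rw [e, mul_smul, mul_smul]
        exact (b1.trans (mul_le_mul_of_nonneg_left (n3 t ht) L0.le)).trans ξ1
    obtain ⟨b1, b2⟩ := hs γ N (hγ.mono n1) h0 (hsim.mono (Nat.succ_le_succ n1)) hΘ
    refine ⟨γ N, _, n2, by linarith only [act_le_one (γ N) a5], b2, ?_⟩
    have b3 := allg_Q Γ (hγ.mono n1) h0 a1 a5
    have b4 : D (γ N) B.x / (γ N • a - γ N • B.x) ≤ 1 / ξ :=
      div_le_div₀ zero_le_one (B.ne _) ξ0 n2.le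
    have b5 : ∑ k ∈ Finset.range N, D (γ k) B.x * (γ k • a - γ k • B.x) ^ Γ.α ≤ Sb + η := by
      refine (Finset.sum_le_sum fun k _ => young Γ.α_pos (D_pos _ _).le (p0 _).le).trans ?_
      rw [Finset.sum_range_succ] at b1
      rw [Finset.sum_add_distrib]
      linarith only [b1, hSb N γ (hsim.mono (n1.trans (Nat.le_succ n))),
        Real.rpow_nonneg (p0 (γ N)).le (1 + Γ.α)]
    linarith only [b3, b4, a7, u4, mul_le_mul_of_nonneg_left b5 C0.le]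
  choose g θ h1 h3 h4 h5 using sel
  let q : ℕ → ℝ := fun n => Nat.rec 0 (fun _ r => Nl (g r) B.x + 1) n
  have q1 : ∀ n, q (n + 1) = Nl (g (q n)) B.x + 1 := fun _ => rfl
  have q2 : StrictMono fun n => Nl (g (q n)) B.x := strictMono_nat_of_lt_succ fun n => by
    linarith only [h5 (q (n + 1)), q1 n]
  have c0 : 0 < c / 40 := by positivity
  obtain ⟨N, hN⟩ := exists_nat_gt (1 / (c / 40 * ξ) + 1)
  have := count_mod (Finset.range N) (fun n => g (q n) • B.x) (mul_pos c0 ξ0)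
    fun i _ j _ hij m => le_trans
      (le_min (mul_le_mul_of_nonneg_left (h1 _).le c0.le)
        (mul_le_mul_of_nonneg_left (h1 _).le c0.le))
      (A.sep_thk hc hc1 hT (h2.act _) (h2.act _) (h4 (q i)) (h4 (q j))
        (by linarith only [mul_le_mul_of_nonneg_left (h3 (q i)) c0.le, hc1])
        fun e => hij (q2.injective (B.jet e).2))
  rw [Finset.card_range] at this
  linarith only [this, hN]

theorem star_all (A : Cantor G) (Γ : Gen G) {δ : ℝ} (hδ : 0 < δ) (hE : A.Exp δ) {x : ℝ}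
    (hx : x ∈ A.Λ) (hne : ∀ g : G, D g x ≤ 1) (hacc : ∀ ε > 0, ∃ w ∈ A.Λ, x < w ∧ w < x + ε) :
    ∃ g : G, g • x = x ∧ ∃ ε > 0, ∀ u ∈ Ioo x (x + ε), g • u ≠ u := by
  by_cases h : ∃ f : G, f • x = x ∧ ∀ v, x < v → ∃ w ∈ A.Λ, x < w ∧ w < v ∧ f • w ≠ w
  · obtain ⟨f, a, b⟩ := h
    exact ⟨f, a, nofix A Γ hδ hE hne a b⟩
  · push Not at h
    exact (Bad.false ⟨x, δ, hδ, hE, hx, hne, hacc, h⟩ Γ).elim

end Pool.Agent.Lib.MP_173a7e_an
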