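import Pool.Agent.Lib.MP_173a7e_an.Slim

/-! Definitions and distortion lemmas for the case of exact second order smoothness. -/

set_option autoImplicit false

namespace Pool.Agent.Lib.MP_173a7e_an

open Set Filter Topology
open scoped Pointwise

variable {G : Type} [Group G] [MulAction G ℝ]

/-- A finite symmetric generating set. -/
structure Gen0 (G : Type) [Group G] where
  S : Finset G
  one_mem : 1 ∈ S
  inv : ∀ s ∈ S, s⁻¹ ∈ S
  gen : ∀ g : G, ∃ n : ℕ, g ∈ (S : Set G) ^ n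

/-- The constants used to pass from thickness to isolated fixed points. -/
structure Par (A : Cantor G) extends Gen0 G where
  L : ℝ
  L_pos : 0 < L
  lip : ∀ s ∈ S, GLip L s
  c : ℝ
  c_pos : 0 < c
  c_le : c ≤ 1
  thick : A.Thick c
  δ : ℝ
  exp : A.Exp δ
  h : ℝ
  h_pos : 0 < h
  M : ℝ
  M_pos : 0 < M
  LM : L * M ≤ h
  M_lt : M < δ
  h8 : Real.exp (8 * h) < 1 + c
  hk : Real.exp h * (Real.exp (2 * h) - 1) ≤ c / 4

/-- The distortion of `g` on `[lo, hi]` is at most `h`. -/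
def Dist (h lo hi : ℝ) (g : G) : Prop :=
  ∀ u ∈ Icc lo hi, ∀ w ∈ Icc lo hi, D g u ≤ Real.exp h * D g w

/-- Along paths that are simple for `z` the images of `[lo, hi]` have small total length. -/
def Par.Ctl {A : Cantor G} (P : Par A) (z lo hi : ℝ) : Prop :=
  ∀ (γ : ℕ → G) (n : ℕ), Pa P.S γ n → γ 0 = 1 → Sim z γ (n + 1) →
    ∑ t ∈ Finset.range (n + 1), (γ t • hi - γ t • lo) ≤ P.M

/-- A point of the Cantor set or a closed gap. -/
def Cantor.Blk (A : Cantor G) (a b : ℝ) : Prop :=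
  a ∈ A.Λ ∧ b ∈ A.Λ ∧ a ≤ b ∧ ∀ y ∈ A.Λ, a < y → b ≤ y

/-- Gaps within distance `r` of the block `[a, b]` are small compared with their distance. -/
def Cantor.Solid (A : Cantor G) (k r a b : ℝ) : Prop :=
  (∀ j ∈ LE A.Λ, b ≤ j → j < b + r → A.len j ≤ k * (j - b)) ∧
    ∀ j ∈ LE A.Λ, nxt A.Λ j ≤ a → a - r < nxt A.Λ j → A.len j ≤ k * (a - nxt A.Λ j)

theorem Cantor.Solid.mono {A : Cantor G} {k k' r r' a b : ℝ} (H : A.Solid k r a b) (hk : k ≤ k')
    (hr : r' ≤ r) : A.Solid k' r' a b :=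
  ⟨fun j hj h1 h2 => (H.1 j hj h1 (by linarith)).trans
      (mul_le_mul_of_nonneg_right hk (sub_nonneg.2 h1)),
    fun j hj h1 h2 => (H.2 j hj h1 (by linarith)).trans
      (mul_le_mul_of_nonneg_right hk (sub_nonneg.2 h1))⟩

theorem Cantor.blk_pt {A : Cantor G} {x : ℝ} (hx : x ∈ A.Λ) : A.Blk x x :=
  ⟨hx, hx, le_rfl, fun _ _ h => h.le⟩

theorem Cantor.blk_gap {A : Cantor G} {p : ℝ} (hp : p ∈ LE A.Λ) : A.Blk p (nxt A.Λ p) :=
  ⟨hp.1, A.nxt_mem p, A.le_nxt p, fun _ hy h => A.nxt_le hy h⟩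

theorem Par.mu_le {A : Cantor G} (P : Par A) : Real.exp (2 * P.h) ≤ 2 := by
  have := Real.exp_le_exp.2 (show 2 * P.h ≤ 8 * P.h by linarith [P.h_pos])
  linarith [P.h8, P.c_le]

theorem Par.one_le_mu {A : Cantor G} (P : Par A) : 1 ≤ Real.exp (2 * P.h) :=
  Real.one_le_exp (by linarith [P.h_pos])

theorem Dist.mono {h lo hi lo' hi' : ℝ} {g : G} (H : Dist h lo hi g) (h1 : lo ≤ lo')
    (h2 : hi' ≤ hi) : Dist h lo' hi' g := fun u hu w hw =>
  H u ⟨h1.trans hu.1, hu.2.trans h2⟩ w ⟨h1.trans hw.1, hw.2.trans h2⟩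

omit [MulAction G ℝ] in
theorem exists_gen0 (hfg : Group.FG G) : Nonempty (Gen0 G) := by
  classical
  obtain ⟨T, hT⟩ := hfg.out
  let S : Finset G := insert 1 (T ∪ T.image (·⁻¹))
  have hinv : ∀ s ∈ S, s⁻¹ ∈ S := by
    intro s hs
    simp only [S, Finset.mem_insert, Finset.mem_union, Finset.mem_image] at hs ⊢
    rcases hs with rfl | h | ⟨a, h, rfl⟩
    · left; simp
    · right; right; exact ⟨s, h, rfl⟩
    · right; left; simpa using h
  refine ⟨⟨S, Finset.mem_insert_self _ _, hinv, fun g => ?_⟩⟩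
  have hg : g ∈ Subgroup.closure (T : Set G) := by rw [hT]; trivial
  induction hg using Subgroup.closure_induction'' with
  | one => exact ⟨0, by simp⟩
  | mem x hx => exact ⟨1, by simp [S, Finset.mem_coe.1 hx]⟩
  | inv_mem x hx => exact ⟨1, by
      rw [pow_one]; exact hinv x (by simp [S, Finset.mem_coe.1 hx])⟩
  | mul x y _ _ a b =>
    obtain ⟨n, a⟩ := a
    obtain ⟨m, b⟩ := b
    exact ⟨n + m, by rw [pow_add]; exact Set.mul_mem_mul a b⟩

variable [SmoothAct G]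

theorem Cantor.Blk.act {A : Cantor G} {a b : ℝ} (H : A.Blk a b) (g : G) :
    A.Blk (g • a) (g • b) :=
  ⟨A.inv g a H.1, A.inv g b H.2.1, (act_le g).2 H.2.2.1, fun y hy h => by
    rw [← smul_inv_smul g y] at h ⊢
    exact (act_le g).2 (H.2.2.2 _ (A.inv _ _ hy) ((act_lt g).1 h))⟩

theorem exists_par (A : Cantor G) (Γ : Gen0 G) {δ c : ℝ} (hδ : 0 < δ) (hE : A.Exp δ) (hc : 0 < c)
    (hc1 : c ≤ 1) (hT : A.Thick c) : ∃ P : Par A, P.δ = δ := by
  obtain ⟨L, hL, hS⟩ := finite_bounds (Γ.S : Set G) Γ.S.finite_toSet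
  have L0 : 0 < L := by linarith
  have ex : ∀ x : ℝ, 0 ≤ x → x ≤ 1 / 2 → Real.exp x ≤ 1 + 2 * x := fun x h0 h1 => by
    have a := Real.add_one_le_exp (-x)
    have b : Real.exp x * Real.exp (-x) = 1 := by rw [← Real.exp_add]; simp
    nlinarith [Real.exp_pos x, mul_le_mul_of_nonneg_left a (Real.exp_pos x).le]
  refine ⟨⟨Γ, L, L0, fun s hs => (hS s hs).1, c, hc, hc1, hT, δ, hE, c / 20, by positivity,
    min (c / 20 / L) (δ / 2), lt_min (by positivity) (by positivity), ?_,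
    (min_le_right _ _).trans_lt (by linarith), ?_, ?_⟩, rfl⟩
  · exact (mul_le_mul_of_nonneg_left (min_le_left _ _) L0.le).trans
      (by rw [mul_div_cancel₀ _ L0.ne'])
  · linarith [ex (8 * (c / 20)) (by positivity) (by linarith)]
  · have a := ex (c / 20) (by positivity) (by linarith)
    have b := ex (2 * (c / 20)) (by positivity) (by linarith)
    have d : 1 ≤ Real.exp (2 * (c / 20)) := Real.one_le_exp (by positivity)
    nlinarith [mul_le_mul a (show Real.exp (2 * (c / 20)) - 1 ≤ c / 5 by linarith) (by linarith)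
      (by positivity)]

omit [SmoothAct G] in
theorem dist_one {h : ℝ} (hh : 0 ≤ h) (lo hi : ℝ) : Dist h lo hi (1 : G) := fun u _ w _ => by
  rw [D_one, D_one, mul_one]; exact Real.one_le_exp hh

theorem Dist.up {h lo hi : ℝ} {g : G} (H : Dist h lo hi g) {u w1 w2 : ℝ} (hu : u ∈ Icc lo hi)
    (h1 : lo ≤ w1) (h2 : w1 ≤ w2) (h3 : w2 ≤ hi) :
    g • w2 - g • w1 ≤ Real.exp h * D g u * (w2 - w1) := by
  obtain ⟨v, hv, e⟩ := mvt g w1 w2
  rw [uIcc_of_le h2] at hv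
  rw [e]
  exact mul_le_mul_of_nonneg_right (H v ⟨h1.trans hv.1, hv.2.trans h3⟩ u hu) (sub_nonneg.2 h2)

theorem Dist.low {h lo hi : ℝ} {g : G} (H : Dist h lo hi g) {u w1 w2 : ℝ} (hu : u ∈ Icc lo hi)
    (h1 : lo ≤ w1) (h2 : w1 ≤ w2) (h3 : w2 ≤ hi) :
    D g u * (w2 - w1) ≤ Real.exp h * (g • w2 - g • w1) := by
  obtain ⟨v, hv, e⟩ := mvt g w1 w2
  rw [uIcc_of_le h2] at hv
  rw [e, ← mul_assoc]
  exact mul_le_mul_of_nonneg_right (H u hu v ⟨h1.trans hv.1, hv.2.trans h3⟩) (sub_nonneg.2 h2)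

theorem Dist.ratio {h lo hi : ℝ} {g : G} (H : Dist h lo hi g) {u1 u2 w1 w2 : ℝ}
    (a1 : lo ≤ u1) (a2 : u1 ≤ u2) (a3 : u2 ≤ hi) (b1 : lo ≤ w1) (b2 : w1 ≤ w2) (b3 : w2 ≤ hi) :
    (g • u2 - g • u1) * (w2 - w1) ≤ Real.exp h * ((g • w2 - g • w1) * (u2 - u1)) := by
  obtain ⟨v, hv, e⟩ := mvt g u1 u2
  rw [uIcc_of_le a2] at hv
  have := mul_le_mul_of_nonneg_right (H.low ⟨a1.trans hv.1, hv.2.trans a3⟩ b1 b2 b3)
    (sub_nonneg.2 a2)
  rw [e]
  linarith

theorem Par.dist_path {A : Cantor G} (P : Par A) {γ : ℕ → G} {n : ℕ} (hγ : Pa P.S γ n)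
    (h0 : γ 0 = 1) {lo hi : ℝ} (hs : ∑ t ∈ Finset.range n, (γ t • hi - γ t • lo) ≤ P.M) :
    Dist P.h lo hi (γ n) := by
  have key : ∀ m ≤ n, ∀ u ∈ Icc lo hi, ∀ w ∈ Icc lo hi, lg (γ m) u - lg (γ m) w ≤
      P.L * ∑ t ∈ Finset.range m, (γ t • hi - γ t • lo) := by
    intro m hm u hu w hw
    induction m with
    | zero => simp [h0, lg_one]
    | succ m ih =>
      obtain ⟨s, hs, e⟩ := hγ m hm
      have a1 := (le_abs_self _).trans (P.lip s hs (γ m • u) (γ m • w))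
      have a2 : |γ m • u - γ m • w| ≤ γ m • hi - γ m • lo := by
        have := (act_le (γ m)).2 hu.1
        have := (act_le (γ m)).2 hu.2
        have := (act_le (γ m)).2 hw.1
        have := (act_le (γ m)).2 hw.2
        rw [abs_le]; constructor <;> linarith
      rw [e, lg_mul, lg_mul, Finset.sum_range_succ, mul_add]
      linarith only [ih (by omega), a1, mul_le_mul_of_nonneg_left a2 P.L_pos.le]
  intro u hu w hw
  exact D_le_of_lg ((key n le_rfl u hu w hw).trans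
    ((mul_le_mul_of_nonneg_left hs P.L_pos.le).trans P.LM))

theorem Par.boot {A : Cantor G} (P : Par A) {γ : ℕ → G} {n : ℕ} (hγ : Pa P.S γ n)
    (h0 : γ 0 = 1) {lo hi : ℝ}
    (H : ∀ m ≤ n, (∀ t < m, Dist P.h lo hi (γ t)) →
      ∑ t ∈ Finset.range m, (γ t • hi - γ t • lo) ≤ P.M) : ∀ t ≤ n, Dist P.h lo hi (γ t) := by
  intro t
  induction t using Nat.strong_induction_on with
  | _ t ih => exact fun ht => P.dist_path (hγ.mono ht) h0 (H t ht fun s hs => ih s hs (by omega))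

theorem Par.ctl_of {A : Cantor G} (P : Par A) {z lo hi : ℝ}
    (H : ∀ (γ : ℕ → G) (n : ℕ), Pa P.S γ n → γ 0 = 1 → Sim z γ (n + 1) →
      (∀ t ≤ n, Dist P.h lo hi (γ t)) →
      ∑ t ∈ Finset.range (n + 1), (γ t • hi - γ t • lo) ≤ P.M) : P.Ctl z lo hi := by
  intro γ n hγ h0 hs
  refine H γ n hγ h0 hs (P.boot hγ h0 fun m hm hd => ?_)
  rcases m with _ | m
  · simpa using P.M_pos.le
  · exact H γ m (hγ.mono (by omega)) h0 (hs.mono (by omega)) fun t ht => hd t (by omega)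

theorem Par.Ctl.mono {A : Cantor G} {P : Par A} {z lo hi lo' hi' : ℝ} (H : P.Ctl z lo hi)
    (h1 : lo ≤ lo') (h2 : hi' ≤ hi) : P.Ctl z lo' hi' := fun γ n a b c =>
  (Finset.sum_le_sum fun t _ => by
    linarith [(act_le (γ t)).2 h1, (act_le (γ t)).2 h2]).trans (H γ n a b c)

theorem Cantor.sim_nxt (A : Cantor G) {p : ℝ} (hp : p ∈ LE A.Λ) (γ : ℕ → G) (n : ℕ) :
    Sim (nxt A.Λ p) γ n ↔ Sim p γ n := by
  refine forall₅_congr fun i _ j _ _ => forall_congr' fun m => not_congr ⟨fun e => ?_, fun e => ?_⟩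
  · have h1 := A.act_LE (γ i) hp
    have h2 := A.LE_int (A.act_LE (γ j) hp) m
    rw [← A.nxt_act, ← A.nxt_act, ← A.nxt_int] at e
    exact le_antisymm (A.le_of_lt_nxt h1.1 (e ▸ A.lt_nxt h1))
      (A.le_of_lt_nxt h2.1 (e.symm ▸ A.lt_nxt h2))
  · rw [← A.nxt_act, ← A.nxt_act, ← A.nxt_int, e]

theorem first_rep0 (Γ : Gen0 G) {x y δ : ℝ} (hw : ∃ w : G, δ ≤ |w • y - w • x|)
    (hs : ∀ (γ : ℕ → G) (n : ℕ), Pa Γ.S γ n → γ 0 = 1 → Sim x γ (n + 1) →
      |γ n • y - γ n • x| < δ) :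
    ∃ (γ : ℕ → G) (i j : ℕ) (m : ℤ), Pa Γ.S γ i ∧ γ 0 = 1 ∧ Sim x γ i ∧ j < i ∧
      γ i • x = γ j • x + m ∧ γ i • y ≠ γ j • y + m := by
  classical
  have ex : ∃ n : ℕ, ∃ w ∈ (Γ.S : Set G) ^ n, δ ≤ |w • y - w • x| := by
    obtain ⟨w, h⟩ := hw
    obtain ⟨n, hn⟩ := Γ.gen w
    exact ⟨n, w, hn, h⟩
  obtain ⟨w, hw1, hw2⟩ := Nat.find_spec ex
  have mn := fun k => Nat.find_min ex (m := k)
  generalize Nat.find ex = n at hw1 mn
  obtain ⟨γ, c1, c2, c3⟩ := pa_of_pow n w hw1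
  have ns : ¬ Sim x γ (n + 1) := fun h => by
    have := hs γ n c1 c2 h
    rw [c3] at this
    linarith
  have ex2 : ∃ i : ℕ, ¬ Sim x γ (i + 1) := ⟨n, ns⟩
  have d1 := Nat.find_spec ex2
  have d2 := Nat.find_min' ex2 ns
  have d3 : Sim x γ (Nat.find ex2) := by
    rcases h : Nat.find ex2 with _ | k
    · exact fun i hi => absurd hi (Nat.not_lt_zero i)
    · exact not_not.1 (Nat.find_min ex2 (m := k) (by omega))
  generalize Nat.find ex2 = i at d1 d2 d3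
  have d4 : ∃ j < i, ∃ m : ℤ, γ i • x = γ j • x + m := by
    by_contra hc
    push Not at hc
    refine d1 fun a ha b hb hab m e => ?_
    rcases (Nat.lt_succ_iff.1 ha).eq_or_lt with rfl | ha'
    · exact hc b (by omega) m e
    · rcases (Nat.lt_succ_iff.1 hb).eq_or_lt with rfl | hb'
      · exact hc a ha' (-m) (by rw [e]; push_cast; ring)
      · exact d3 a ha' b hb' hab m e
  obtain ⟨j, hj, m, e⟩ := d4
  refine ⟨γ, i, j, m, c1.mono d2, c2, d3, hj, e, fun e' => mn (n - i + j) (by omega) ?_⟩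
  have m1 := c1.mem_pow i (n - i) (by omega)
  have m2 := c1.mem_pow 0 j (by omega)
  rw [show i + (n - i) = n by omega, c3] at m1
  rw [zero_add, c2, inv_one, mul_one] at m2
  have f : ∀ z : ℝ, γ i • z = γ j • z + m → (w * (γ i)⁻¹ * γ j) • z = w • z - m := fun z hz => by
    rw [mul_smul, ← sub_eq_iff_eq_add.2 hz, act_sub_int, mul_smul, inv_smul_smul]
  refine ⟨w * (γ i)⁻¹ * γ j, by rw [pow_add]; exact Set.mul_mem_mul m1 m2, ?_⟩
  rw [f x e, f y e', sub_sub_sub_cancel_right]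
  exact hw2

end Pool.Agent.Lib.MP_173a7e_an
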