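import Pool.Agent.Lib.MP_173a7e_an.C2A

/-! Solid blocks have summable radii. -/

set_option autoImplicit false

namespace Pool.Agent.Lib.MP_173a7e_an

open Set Filter Topology
open scoped Pointwise

variable {G : Type} [Group G] [MulAction G ℝ] [SmoothAct G]

theorem c2b_num {c ρ x y l : ℝ} (hc : 0 < c) (hc1 : c ≤ 1) (hρ : 0 < ρ) (hxy : x ≤ y) (hl : 0 < l)
    (h : c * (x * y) ≤ l * (x + l + y)) (hs : x < ρ → l ≤ c / 4 * x) : c * ρ / 3 ≤ l := by
  rcases lt_or_ge x ρ with h1 | h1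
  · have h2 := hs h1
    have h3 : 0 < x := by
      by_contra h3
      nlinarith
    have h4 : x + l + y ≤ 3 * y := by nlinarith
    have h5 : l * (x + l + y) ≤ c / 4 * x * (3 * y) :=
      mul_le_mul h2 h4 (by linarith) (by positivity)
    have h6 : 0 < c * (x * y) := mul_pos hc (mul_pos h3 (by linarith))
    linarith
  · rcases le_or_gt y l with h2 | h2
    · nlinarith
    · have h3 : c * x * y ≤ 3 * l * y := by nlinarith
      have h4 := le_of_mul_le_mul_right h3 (by linarith)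
      nlinarith

theorem c2b_left {A : Cantor G} {k r a b : ℝ} (H : A.Solid k r a b) (m : ℤ) {j : ℝ}
    (hj : j ∈ LE A.Λ) (h1 : nxt A.Λ j ≤ a + m) (h2 : a + m - r < nxt A.Λ j) :
    A.len j ≤ k * (a + m - nxt A.Λ j) := by
  have := H.2 _ (A.LE_int hj (-m)) (by rw [A.nxt_int]; push_cast; linarith)
    (by rw [A.nxt_int]; push_cast; linarith)
  rw [A.len_int, A.nxt_int] at this
  push_cast at this
  exact this.trans_eq (by ring)

theorem c2b_lt {A : Cantor G} {k r a b a' b' : ℝ} (H : A.Blk a b) (H' : A.Blk a' b') (hr : 0 < r)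
    (hs : A.Solid k r a' b') (m : ℤ) (h : a < a' + m) : b < a' + m := by
  refine (H.2.2.2 _ ((A.add_int_mem m).2 H'.1) h).lt_of_ne fun e => ?_
  have h1 : nxt A.Λ a = a' + m := le_antisymm (A.nxt_le ((A.add_int_mem m).2 H'.1) h)
    (le_csInf ⟨_, (A.add_int_mem m).2 H'.1, h⟩ fun y hy => e ▸ H.2.2.2 y hy.1 hy.2)
  have h2 := A.mem_LE H.1 (h1 ▸ h)
  have h3 := c2b_left hs m h2 h1.le (by linarith)
  rw [h1, sub_self, mul_zero] at h3
  exact absurd (A.len_pos h2) (not_lt.2 h3)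

omit [SmoothAct G] in
theorem c2b_acc {A : Cantor G} {k r a b q : ℝ} (H : A.Blk a b) (hr : 0 < r)
    (hs : A.Solid k r a b) (h : b < q) : ∃ w ∈ A.Λ, b < w ∧ w < q := by
  have h1 : nxt A.Λ b ≤ b := by
    by_contra h1
    have h2 := A.mem_LE H.2.1 (not_le.1 h1)
    have h3 := hs.1 b h2 le_rfl (by linarith)
    rw [sub_self, mul_zero] at h3
    exact absurd (A.len_pos h2) (not_lt.2 h3)
  obtain ⟨y, hy, h2⟩ := A.exists_above b
  obtain ⟨w, hw, h3⟩ := exists_lt_of_csInf_lt (s := A.Λ ∩ Ioi b) ⟨y, hy, h2⟩ (h1.trans_lt h)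
  exact ⟨w, hw.1, hw.2, h3⟩

theorem c2b_count (A : Cantor G) {c ρ : ℝ} (hc : 0 < c) (hc1 : c ≤ 1) (hT : A.Thick c)
    (hρ : 0 < ρ) {ι : Type} (s : Finset ι) (a b : ι → ℝ)
    (h : ∀ i ∈ s, A.Blk (a i) (b i) ∧ A.Solid (c / 4) ρ (a i) (b i))
    (hne : ∀ i ∈ s, ∀ j ∈ s, i ≠ j → ∀ m : ℤ, a i ≠ a j + m) {F : Finset A.X}
    (hF : ∀ v : A.X, c * ρ / 3 ≤ A.len v.1 → v ∈ F) : s.card ≤ F.card := by
  have key : ∀ i ∈ s, ∃ j ∈ LE A.Λ, b i ≤ j ∧ c * ρ / 3 ≤ A.len j ∧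
      ∀ k ∈ s, ∀ m : ℤ, b i < a k + m → j < a k + m := fun i hi => by
    obtain ⟨k, hk, hm⟩ := s.exists_min_image
      (fun k => a k + ((⌊b i - a k⌋ + 1 : ℤ) : ℝ)) ⟨i, hi⟩
    have e1 := Int.lt_floor_add_one (b i - a k)
    have e2 := Int.floor_le (b i - a k)
    have e3 : b i < a k + ((⌊b i - a k⌋ + 1 : ℤ) : ℝ) := by push_cast; linarith
    obtain ⟨j, hj, j1, j2, j3⟩ := hT _ (h i hi).1.2.1 _ ((A.add_int_mem _).2 (h k hk).1.1)
      (c2b_acc (h i hi).1 hρ (h i hi).2 e3) (by push_cast; linarith)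
    have s1 := (h i hi).2.1 j hj j1
    have s2 := c2b_left (h k hk).2 _ hj j2
    have e4 := A.lt_nxt hj
    refine ⟨j, hj, j1, ?_, fun k' hk' m e => ?_⟩
    · generalize a k + ((⌊b i - a k⌋ + 1 : ℤ) : ℝ) = q at j3 s2
      have e5 : q - b i = j - b i + A.len j + (q - nxt A.Λ j) := by
        unfold Cantor.len
        ring
      rw [e5] at j3
      rcases le_total (j - b i) (q - nxt A.Λ j) with e6 | e6
      · exact c2b_num hc hc1 hρ e6 (A.len_pos hj) j3 fun e7 => s1 (by linarith)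
      · exact c2b_num hc hc1 hρ e6 (A.len_pos hj) (by linarith) fun e7 => s2 (by linarith)
    · have e5 : ((⌊b i - a k'⌋ + 1 : ℤ) : ℝ) ≤ m := by
        exact_mod_cast Int.floor_lt.2 (show b i - a k' < m by linarith)
      have e6 := hm k' hk'
      linarith
  choose! j j1 j2 j3 j4 using key
  have inj : ∀ i ∈ s, ∀ k ∈ s, ∀ m : ℤ, j i = j k + m → ¬ a i < a k + m := fun i hi k hk m e e1 => by
    have e2 := j4 i hi k hk m (c2b_lt (h i hi).1 (h k hk).1 hρ (h k hk).2 m e1)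
    linarith [(h k hk).1.2.2.1, j2 k hk]
  rw [← Finset.card_attach]
  refine Finset.card_le_card_of_injOn (fun i => A.cls (j i.1) (j1 i.1 i.2))
    (fun i _ => hF _ (by rw [A.len_cls]; exact j3 i.1 i.2)) fun i _ k _ e => ?_
  obtain ⟨m, hm⟩ := (A.cls_eq_iff _ _).1 e
  by_contra hik
  rcases lt_or_gt_of_ne (hne i.1 i.2 k.1 k.2 (fun e' => hik (Subtype.ext e')) m) with e1 | e1
  · exact inj i.1 i.2 k.1 k.2 m hm e1
  · exact inj k.1 k.2 i.1 i.2 (-m) (by push_cast; linarith) (by push_cast; linarith)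

/-- Layer cake lemma. -/
theorem Cantor.lc (A : Cantor G) {c η : ℝ} (hc : 0 < c) (hc1 : c ≤ 1) (hT : A.Thick c)
    (hη : 0 < η) : ∃ ξ > 0, ∀ (ι : Type) (s : Finset ι) (a b r : ι → ℝ),
      (∀ i ∈ s, A.Blk (a i) (b i) ∧ 0 < r i ∧ r i ≤ ξ ∧ A.Solid (c / 4) (r i) (a i) (b i)) →
      (∀ i ∈ s, ∀ j ∈ s, i ≠ j → ∀ m : ℤ, a i ≠ a j + m) → ∑ i ∈ s, r i ≤ η := by
  classical
  obtain ⟨τ, hτ, hs⟩ := A.small_sum (show 0 < c * η / 6 by positivity)
  let F := (A.big_finite hτ).toFinset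
  refine ⟨η / (2 * (F.card + 1)), by positivity, fun ι s a b r h hne => ?_⟩
  have hp : ∀ i : s, 0 < c * r i / 3 := fun i => by
    have := (h i.1 i.2).2.1
    positivity
  obtain ⟨v, hv, hv'⟩ := (Finset.all_card_le_biUnion_card_iff_exists_injective
    fun i : s => (A.big_finite (hp i)).toFinset).1 fun s' => by
      rcases s'.eq_empty_or_nonempty with rfl | hs'
      · simp
      obtain ⟨i0, hi0, hm⟩ := s'.exists_min_image (fun i => r i.1) hs'
      refine c2b_count A hc hc1 hT (h i0.1 i0.2).2.1 s' (fun i => a i.1) (fun i => b i.1)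
        (fun i hi => ⟨(h i.1 i.2).1, (h i.1 i.2).2.2.2.mono le_rfl (hm i hi)⟩)
        (fun i _ k _ e => hne i.1 i.2 k.1 k.2 fun e' => e (Subtype.ext e')) fun w hw => ?_
      exact Finset.mem_biUnion.2 ⟨i0, hi0, (Set.Finite.mem_toFinset _).2 hw⟩
  rw [← Finset.sum_coe_sort s r, ← Finset.sum_filter_add_sum_filter_not _ fun i => v i ∈ F]
  have e1 : ∑ i : s with v i ∈ F, r i.1 ≤ η / 2 := by
    have e2 : (Finset.univ.filter fun i : s => v i ∈ F).card ≤ F.card :=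
      Finset.card_le_card_of_injOn v (fun i hi => (Finset.mem_filter.1 hi).2) hv.injOn
    refine (Finset.sum_le_card_nsmul _ _ _ fun i _ => (h i.1 i.2).2.2.1).trans ?_
    have e3 : ((Finset.univ.filter fun i : s => v i ∈ F).card : ℝ) ≤ F.card + 1 := by
      exact_mod_cast e2.trans (Nat.le_succ _)
    rw [nsmul_eq_mul]
    refine (mul_le_mul_of_nonneg_right e3 (by positivity)).trans_eq ?_
    field_simp
  have e2 := hs ((Finset.univ.filter fun i : s => v i ∉ F).image v) fun w hw => by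
    obtain ⟨i, hi, rfl⟩ := Finset.mem_image.1 hw
    exact not_le.1 fun e => (Finset.mem_filter.1 hi).2 ((Set.Finite.mem_toFinset _).2 e)
  rw [Finset.sum_image hv.injOn] at e2
  have e3 : ∑ i : s with v i ∉ F, c * r i.1 / 3 ≤ c * η / 6 :=
    (Finset.sum_le_sum fun i _ => ((A.big_finite (hp i)).mem_toFinset.1 (hv' i) :)).trans e2
  rw [← Finset.sum_div, ← Finset.mul_sum] at e3
  have e4 : ∑ i : s with v i ∉ F, r i.1 ≤ η / 2 := le_of_mul_le_mul_left (by linarith) hc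
  linarith

end Pool.Agent.Lib.MP_173a7e_an
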