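import Pool.Agent.Lib.MP_173a7e_an.C2A

/-! Almost isometric maps with two fixed points are trivial; short paths. -/

set_option autoImplicit false

namespace Pool.Agent.Lib.MP_173a7e_an

open Set Filter Topology
open scoped Pointwise

variable {G : Type} [Group G] [MulAction G ℝ] [SmoothAct G]

theorem Cantor.nc0 (A : Cantor G) {c μ : ℝ} (hT : A.Thick c) (h2 : μ ^ 2 < 1 + c) {f : G}
    {e e' : ℝ} (he : e ∈ A.Λ) (he' : e' ∈ A.Λ) (hl : e' ≤ e + 1) (f1 : f • e = e)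
    (f2 : f • e' = e') (hD : ∀ u ∈ Icc e e', D f u ≤ μ ∧ D f⁻¹ u ≤ μ) :
    ∀ y ∈ A.Λ, e < y → y < e' → f • y = y := by
  intro y hy y1 y2
  by_contra hne
  have hc : IsClosed (A.Λ ∩ {w : ℝ | f • w = w}) :=
    A.closed.inter (isClosed_eq (cont_smul f) continuous_id)
  have s1 : BddAbove (A.Λ ∩ {w : ℝ | f • w = w} ∩ Iic y) := ⟨y, fun _ hz => hz.2⟩
  have s2 : BddBelow (A.Λ ∩ {w : ℝ | f • w = w} ∩ Ici y) := ⟨y, fun _ hz => hz.2⟩
  have m1 := (hc.inter isClosed_Iic).csSup_mem ⟨e, ⟨he, f1⟩, y1.le⟩ s1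
  have m2 := (hc.inter isClosed_Ici).csInf_mem ⟨e', ⟨he', f2⟩, y2.le⟩ s2
  have u1 : ∀ w ∈ A.Λ, f • w = w → w ≤ y → w ≤ sSup (A.Λ ∩ {w : ℝ | f • w = w} ∩ Iic y) :=
    fun w a b d => le_csSup s1 ⟨⟨a, b⟩, d⟩
  have u2 : ∀ w ∈ A.Λ, f • w = w → y ≤ w → sInf (A.Λ ∩ {w : ℝ | f • w = w} ∩ Ici y) ≤ w :=
    fun w a b d => csInf_le s2 ⟨⟨a, b⟩, d⟩
  generalize sSup (A.Λ ∩ {w : ℝ | f • w = w} ∩ Iic y) = a at m1 u1
  generalize sInf (A.Λ ∩ {w : ℝ | f • w = w} ∩ Ici y) = b at m2 u2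
  obtain ⟨⟨a1, a2⟩, a3⟩ := m1
  obtain ⟨⟨b1, b2⟩, b3⟩ := m2
  have a2 : f • a = a := a2
  have b2 : f • b = b := b2
  have a4 : a < y := lt_of_le_of_ne a3 fun k => hne (k ▸ a2)
  have b4 : y < b := lt_of_le_of_ne b3 fun k => hne (k.symm ▸ b2)
  have a5 : e ≤ a := u1 e he f1 y1.le
  have b5 : b ≤ e' := u2 e' he' f2 y2.le
  have no : ∀ w ∈ A.Λ, f • w = w → a < w → w < b → False := fun w p q k1 k2 => by
    rcases le_total w y with k | k
    · exact absurd (u1 w p q k) (not_le.2 k1)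
    · exact absurd (u2 w p q k) (not_le.2 k2)
  obtain ⟨j, hj, j1, j2, j3⟩ := hT a a1 b b1 ⟨y, hy, a4, b4⟩ (by linarith)
  have j4 := A.lt_nxt hj
  have j5 : a < j := lt_of_le_of_ne j1 fun k => by
    subst k
    exact no _ (A.nxt_mem a) (by rw [← A.nxt_act, a2]) j4 ((A.nxt_le hy a4).trans_lt b4)
  have j6 : nxt A.Λ j < b := lt_of_le_of_ne j2 fun k => by
    have k1 : nxt A.Λ (f • j) = nxt A.Λ j := by rw [A.nxt_act, k, b2]
    refine no j hj.1 (le_antisymm (A.le_of_lt_nxt (A.inv f j hj.1) ?_)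
      (A.le_of_lt_nxt hj.1 (by rwa [k1]))) j5 (by linarith)
    rw [← k1]
    exact A.lt_nxt (A.act_LE f hj)
  have j7 : f • j ≠ j := fun k => no j hj.1 k j5 (by linarith)
  have key : ∀ k : G, k • a = a → k⁻¹ • b = b →
      (∀ u ∈ Icc e e', D k u ≤ μ ∧ D k⁻¹ u ≤ μ) → j < k • j → False := by
    intro k ka kb kD hk
    have k1 : nxt A.Λ j ≤ k • j := A.nxt_le (A.inv k j hj.1) hk
    have k2 : k⁻¹ • nxt A.Λ j ≤ j := by rw [← act_le k, smul_inv_smul]; exact k1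
    obtain ⟨u, hu, eu⟩ := mvt k a j
    obtain ⟨v, hv, ev⟩ := mvt k⁻¹ (nxt A.Λ j) b
    rw [uIcc_of_le j1] at hu
    rw [uIcc_of_le j2] at hv
    have p1 : nxt A.Λ j - a ≤ μ * (j - a) := by
      linarith [mul_le_mul_of_nonneg_right
        (kD u ⟨a5.trans hu.1, by linarith [hu.2]⟩).1 (sub_nonneg.2 j1)]
    have p2 : b - j ≤ μ * (b - nxt A.Λ j) := by
      linarith [mul_le_mul_of_nonneg_right
        (kD v ⟨by linarith [hv.1], hv.2.trans b5⟩).2 (sub_nonneg.2 j2)]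
    have q1 := mul_le_mul p1 p2 (by linarith) (by linarith)
    have q2 := mul_lt_mul_of_pos_right h2 (mul_pos (sub_pos.2 j5) (sub_pos.2 j6))
    unfold Cantor.len at j3
    linarith
  rcases lt_or_gt_of_ne j7 with k | k
  · refine key f⁻¹ (by rw [inv_smul_eq_iff, a2]) (by rw [inv_inv, b2])
      (fun u hu => by rw [inv_inv]; exact (hD u hu).symm) ?_
    rw [← act_lt f, smul_inv_smul]
    exact k
  · exact key f a2 (by rw [inv_smul_eq_iff, b2]) hD k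

theorem nofix0 (A : Cantor G) {c : ℝ} (hc : 0 < c) (hT : A.Thick c) {x : ℝ} (hx : x ∈ A.Λ)
    (hne : ∀ g : G, D g x ≤ 1) {g : G} (hg : g • x = x)
    (hm : ∀ v, x < v → ∃ w ∈ A.Λ, x < w ∧ w < v ∧ g • w ≠ w) :
    ∃ ε > 0, ∀ u ∈ Ioo x (x + ε), g • u ≠ u := by
  obtain ⟨μ, μ1, μ2⟩ : ∃ μ : ℝ, 1 < μ ∧ μ ^ 2 < 1 + c := by
    refine ⟨Real.sqrt (1 + c / 2), ?_, ?_⟩
    · rw [Real.lt_sqrt zero_le_one]; linarith
    · rw [Real.sq_sqrt (by linarith)]; linarith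
  have ev : ∀ᶠ u in 𝓝 x, D g u < μ ∧ D g⁻¹ u < μ :=
    ((cont_D g).continuousAt.eventually (gt_mem_nhds ((hne g).trans_lt μ1))).and
      ((cont_D g⁻¹).continuousAt.eventually (gt_mem_nhds ((hne g⁻¹).trans_lt μ1)))
  obtain ⟨ε, ε0, hε⟩ := Metric.eventually_nhds_iff.1 ev
  have key : ∀ p ∈ A.Λ, x < p → p < x + min ε 1 → g • p = p → False := by
    intro p hp p1 p2 p3
    obtain ⟨w, w1, w2, w3, w4⟩ := hm p p1
    have r1 := min_le_left ε 1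
    have r2 := min_le_right ε 1
    refine w4 (A.nc0 hT μ2 hx hp (by linarith) hg p3 (fun u hu => ?_) w w1 w2 w3)
    have := hε (y := u) (by rw [Real.dist_eq, abs_lt]; constructor <;> linarith [hu.1, hu.2])
    exact ⟨this.1.le, this.2.le⟩
  refine ⟨min ε 1, lt_min ε0 one_pos, fun u hu e => ?_⟩
  by_cases h : u ∈ A.Λ
  · exact key u h hu.1 hu.2 e
  · obtain ⟨p, hp, p1, p2⟩ := A.exists_gap h
    obtain ⟨w, w1, w2, w3, -⟩ := hm u hu.1
    refine key p hp.1 (w2.trans_le (A.le_of_lt_nxt w1 (w3.trans p2))) (p1.trans hu.2)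
      (A.gap_unique (A.inv g p hp.1) hp.1 (u := u) ?_ ?_ p1 p2)
    · rw [← e, act_lt]; exact p1
    · rw [A.nxt_act, ← e, act_lt]; exact p2

theorem Cantor.sim_small (A : Cantor G) {ε : ℝ} (hε : 0 < ε) : ∃ τ > 0, ∀ p ∈ LE A.Λ,
    ∀ (γ : ℕ → G) (n : ℕ), Sim p γ n → (∀ t < n, A.len (γ t • p) < τ) →
      ∑ t ∈ Finset.range n, A.len (γ t • p) ≤ ε := by
  classical
  obtain ⟨τ, τ0, hτ⟩ := A.small_sum hε
  refine ⟨τ, τ0, fun p hp γ n hs hl => ?_⟩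
  have inj : Set.InjOn (fun t => A.cls (γ t • p) (A.act_LE _ hp)) (Finset.range n : Set ℕ) := by
    intro i hi j hj e
    by_contra hij
    obtain ⟨m, hm⟩ := (A.cls_eq_iff _ _).1 e
    exact hs i (by simpa using hi) j (by simpa using hj) hij m hm
  have := hτ ((Finset.range n).image fun t => A.cls (γ t • p) (A.act_LE _ hp)) (by
    intro v hv
    obtain ⟨t, ht, rfl⟩ := Finset.mem_image.1 hv
    rw [A.len_cls]
    exact hl t (Finset.mem_range.1 ht))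
  rw [Finset.sum_image inj] at this
  simpa only [A.len_cls] using this

theorem short_path (A : Cantor G) (Γ : Gen0 G) {p ρ : ℝ} (h : ∃ g : G, ρ ≤ A.len (g • p)) :
    ∃ (γ : ℕ → G) (n : ℕ), Pa Γ.S γ n ∧ γ 0 = 1 ∧ Sim p γ (n + 1) ∧ ρ ≤ A.len (γ n • p) ∧
      ∀ t < n, A.len (γ t • p) < ρ := by
  classical
  have ex : ∃ n : ℕ, ∃ w ∈ (Γ.S : Set G) ^ n, ρ ≤ A.len (w • p) := by
    obtain ⟨w, h⟩ := h
    obtain ⟨n, hn⟩ := Γ.gen w
    exact ⟨n, w, hn, h⟩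
  obtain ⟨w, hw1, hw2⟩ := Nat.find_spec ex
  have mn := fun k => Nat.find_min ex (m := k)
  generalize Nat.find ex = n at hw1 mn
  obtain ⟨γ, c1, c2, c3⟩ := pa_of_pow n w hw1
  have m0 : ∀ t ≤ n, γ t ∈ (Γ.S : Set G) ^ t := fun t ht => by
    have m2 := c1.mem_pow 0 t (by omega)
    rwa [zero_add, c2, inv_one, mul_one] at m2
  have rep : ∀ i ≤ n, ∀ j < i, ∀ m : ℤ, γ i • p ≠ γ j • p + m := fun i hi j hj m e => by
    refine mn (n - i + j) (by omega) ⟨w * (γ i)⁻¹ * γ j, ?_, ?_⟩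
    · have m1 := c1.mem_pow i (n - i) (by omega)
      rw [show i + (n - i) = n by omega, c3] at m1
      rw [pow_add]
      exact Set.mul_mem_mul m1 (m0 j (by omega))
    · have k : (w * (γ i)⁻¹ * γ j) • p = w • p + ((-m : ℤ) : ℝ) := by
        rw [mul_smul, ← sub_eq_iff_eq_add.2 e, act_sub_int, mul_smul, inv_smul_smul]
        push_cast
        ring
      rw [k, A.len_int]
      exact hw2
  refine ⟨γ, n, c1, c2, fun i hi j hj hij m e => ?_, by rwa [c3],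
    fun t ht => not_le.1 fun k => mn t ht ⟨γ t, m0 t ht.le, k⟩⟩
  rcases lt_or_gt_of_ne hij with k | k
  · exact rep j (by omega) i k (-m) (by rw [e]; push_cast; ring)
  · exact rep i (by omega) j k m e

theorem sumD0 (A : Cantor G) (Γ : Gen0 G) {k : ℝ} (hk : k ∈ LE A.Λ) :
    ∃ C2 > 0, ∀ (γ : ℕ → G) (n : ℕ), Pa Γ.S γ n → γ 0 = 1 → Sim (nxt A.Λ k) γ (n + 1) →
      ∑ i ∈ Finset.range (n + 1), D (γ i) (nxt A.Λ k) ≤ C2 := by
  obtain ⟨L, hL, hS⟩ := finite_bounds (Γ.S : Set G) Γ.S.finite_toSet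
  have l0 := A.lt_nxt hk
  have l1 := sub_pos.2 l0
  have c0 : 0 < Real.exp (L * 2) / (nxt A.Λ k - k) := div_pos (Real.exp_pos _) l1
  refine ⟨Real.exp (L * 2) / (nxt A.Λ k - k) * 2, by positivity, fun γ n hγ h0 hs => ?_⟩
  refine le_trans ?_ (mul_le_mul_of_nonneg_left (allg_gaps A hk hs) c0.le)
  rw [Finset.mul_sum]
  refine Finset.sum_le_sum fun t ht => ?_
  have ht' := Nat.lt_succ_iff.1 (Finset.mem_range.1 ht)
  obtain ⟨u, hu, e⟩ := mvt (γ t) k (nxt A.Λ k)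
  rw [uIcc_of_le l0.le] at hu
  have a1 := allg_lg (zero_le_one.trans hL) (fun s h => (hS s h).1) (hγ.mono ht') h0 hu.1 hu.2
  have a2 := allg_gaps A hk (hs.mono (ht'.trans (Nat.le_succ n)))
  have a3 := D_le_of_lg (a1.trans (mul_le_mul_of_nonneg_left a2 (zero_le_one.trans hL)))
  rw [e, mul_comm (D _ u), ← mul_assoc, div_mul_cancel₀ _ l1.ne']
  exact a3

end Pool.Agent.Lib.MP_173a7e_an
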