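import Pool.Agent.Lib.MP_173a7e_an.C2B

/-! Controlled neighbourhoods are solid and solid blocks have larger controlled neighbourhoods. -/

set_option autoImplicit false

namespace Pool.Agent.Lib.MP_173a7e_an

open Set Filter Topology
open scoped Pointwise

variable {G : Type} [Group G] [MulAction G ℝ] [SmoothAct G]

theorem c2d_exp (h : ℝ) : Real.exp (2 * h) = Real.exp h * Real.exp h := by
  rw [two_mul, Real.exp_add]

theorem c2d_aux {h lo hi e u0 u1 u : ℝ} (hh : 0 ≤ h) {g1 g2 : G} (d1 : Dist h lo hi g1)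
    (d2 : Dist h lo hi g2) (he : g1 • e = g2 • e) (h1 : lo ≤ e) (h2 : e ≤ hi)
    (a0 : u0 ∈ Icc lo hi) (a1 : u1 ∈ Icc lo hi) (hs : D g1 u0 = D g2 u1)
    (b1 : e - (e - lo) / Real.exp (2 * h) ≤ u) (b2 : u ≤ e + (hi - e) / Real.exp (2 * h)) :
    D (g2⁻¹ * g1) u ≤ Real.exp (2 * h) := by
  have m1 : 1 ≤ Real.exp (2 * h) := Real.one_le_exp (by linarith)
  have hu : u ∈ Icc lo hi := ⟨by linarith [div_le_self (sub_nonneg.2 h1) m1],
    by linarith [div_le_self (sub_nonneg.2 h2) m1]⟩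
  rw [sub_le_comm, le_div_iff₀ (Real.exp_pos _)] at b1
  rw [← sub_le_iff_le_add', le_div_iff₀ (Real.exp_pos _)] at b2
  rw [c2d_exp] at *
  have E0 := Real.exp_pos h
  have s0 := D_pos g1 u0
  have e1 : g2 • (g2⁻¹ * g1) • u = g1 • u := by rw [mul_smul, smul_inv_smul]
  have hf : (g2⁻¹ * g1) • u ∈ Icc lo hi := by
    rw [mem_Icc, ← act_le g2, ← act_le g2 (y := hi), e1]
    have c1 := (act_le g2).2 h1
    have c2 := (act_le g2).2 h2
    rcases le_total u e with c | c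
    · have c3 := d1.up a0 hu.1 c h2
      have c4 := d2.low a1 le_rfl h1 h2
      have c5 := mul_le_mul_of_nonneg_left b1 s0.le
      rw [← hs] at c4
      refine ⟨?_, by linarith [(act_le g1).2 c]⟩
      have : Real.exp h * D g1 u0 * (e - u) ≤ g2 • e - g2 • lo :=
        le_of_mul_le_mul_left (by linarith) E0
      linarith
    · have c3 := d1.up a0 h1 c hu.2
      have c4 := d2.low a1 h1 h2 le_rfl
      have c5 := mul_le_mul_of_nonneg_left b2 s0.le
      rw [← hs] at c4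
      refine ⟨by linarith [(act_le g1).2 c], ?_⟩
      have : Real.exp h * D g1 u0 * (u - e) ≤ g2 • hi - g2 • e :=
        le_of_mul_le_mul_left (by linarith) E0
      linarith
  have e2 := D_mul g2 (g2⁻¹ * g1) u
  rw [mul_inv_cancel_left] at e2
  have c1 := d1 u hu u0 a0
  have c2 := mul_le_mul_of_nonneg_left (d2 u1 a1 _ hf) E0.le
  rw [← hs] at c2
  exact le_of_mul_le_mul_left (by linarith) (D_pos g2 ((g2⁻¹ * g1) • u))

theorem Par.lasso {A : Cantor G} (P : Par A) {e lo hi y : ℝ} (h1 : lo ≤ e) (h2 : e ≤ hi)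
    (hC : P.Ctl e lo hi)
    (hfix : ∀ f : G, f • e = e → ∃ u ∈ Icc lo hi, f • u ∈ Icc lo hi ∧ D f u = 1)
    (hy : y ∈ Icc lo hi) (hw : ∃ w ∈ A.Λ, (e < w ∧ w < y) ∨ (y < w ∧ w < e)) :
    ∃ f : G, f • e = e ∧ f • y ≠ y ∧ ∀ u, e - (e - lo) / Real.exp (2 * P.h) ≤ u →
      u ≤ e + (hi - e) / Real.exp (2 * P.h) →
      D f u ≤ Real.exp (2 * P.h) ∧ D f⁻¹ u ≤ Real.exp (2 * P.h) := by
  have nn : ∀ g : G, 0 ≤ g • hi - g • lo := fun g => sub_nonneg.2 ((act_le g).2 (h1.trans h2))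
  have ex : ∀ u v : ℝ, (∃ w ∈ A.Λ, u < w ∧ w < v) → ∃ g : G, P.δ ≤ g • v - g • u := fun u v h => by
    obtain ⟨p, -, a, b, g, c⟩ := P.exp u v h
    rw [Cantor.len, A.nxt_act] at c
    exact ⟨g, by linarith [(act_lt g).2 a, (act_lt g).2 b]⟩
  obtain ⟨γ, i, j, m, c1, c2, c3, hj, e1, e2⟩ := first_rep0 P.toGen0 (x := e) (y := y) (δ := P.δ)
    (by
      obtain ⟨w, hw, h | h⟩ := hw
      · exact (ex _ _ ⟨w, hw, h⟩).imp fun g hg => hg.trans (le_abs_self _)
      · exact (ex _ _ ⟨w, hw, h⟩).imp fun g hg => hg.trans ((le_abs_self _).trans_eq (abs_sub_comm ..)))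
    fun γ n a b c => by
      have := (Finset.single_le_sum (f := fun t => γ t • hi - γ t • lo) (fun t _ => nn (γ t))
        (Finset.self_mem_range_succ n)).trans (hC γ n a b c)
      have := P.M_lt
      rw [abs_lt]
      constructor <;> linarith [(act_le (γ n)).2 h1, (act_le (γ n)).2 h2, (act_le (γ n)).2 hy.1,
        (act_le (γ n)).2 hy.2]
  obtain ⟨i, rfl⟩ : ∃ i', i = i' + 1 := ⟨i - 1, by omega⟩
  have hs := hC γ i (c1.mono i.le_succ) c2 c3
  have d1 := P.dist_path c1 c2 hs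
  have d2 : Dist P.h lo hi (A.t ^ m * γ j) := fun u hu w hw => by
    rw [A.D_tz_mul, A.D_tz_mul]
    exact P.dist_path (c1.mono hj.le) c2 ((Finset.sum_le_sum_of_subset_of_nonneg
      (Finset.range_mono hj.le) fun t _ _ => nn (γ t)).trans hs) u hu w hw
  rw [← A.tz_smul, ← mul_smul] at e1 e2
  generalize A.t ^ m * γ j = g2 at *
  generalize γ (i + 1) = g1 at *
  have f1 : (g2⁻¹ * g1) • e = e := by rw [mul_smul, e1, inv_smul_smul]
  obtain ⟨u0, a0, a1, a2⟩ := hfix _ f1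
  have e3 := D_mul g2 (g2⁻¹ * g1) u0
  rw [mul_inv_cancel_left, a2, mul_one] at e3
  refine ⟨_, f1, fun h => e2 (inv_smul_eq_iff.1 (mul_smul g2⁻¹ g1 y ▸ h)), fun u b1 b2 =>
    ⟨c2d_aux P.h_pos.le d1 d2 e1 h1 h2 a0 a1 e3 b1 b2, ?_⟩⟩
  rw [mul_inv_rev, inv_inv]
  exact c2d_aux P.h_pos.le d2 d1 e1.symm h1 h2 a1 a0 e3.symm b1 b2

theorem c2d_move {f : G} {e y : ℝ} {Q : G → Prop} (h1 : f • e = e) (h2 : f • y ≠ y) (q1 : Q f)
    (q2 : Q f⁻¹) : (∃ k : G, k • e = e ∧ y < k • y ∧ Q k) ∧ ∃ k : G, k • e = e ∧ k • y < y ∧ Q k := by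
  have h3 : f⁻¹ • e = e := inv_smul_eq_iff.2 h1.symm
  rcases h2.lt_or_gt with h | h <;> have h4 := (act_lt f⁻¹).2 h <;> rw [inv_smul_smul] at h4
  exacts [⟨⟨_, h3, h4, q2⟩, _, h1, h, q1⟩, ⟨⟨_, h1, h, q1⟩, _, h3, h4, q2⟩]

theorem Par.solid_of {A : Cantor G} (P : Par A) {p R : ℝ} (hp : p ∈ LE A.Λ) (hR : 0 < R)
    (hC : P.Ctl p (p - R) (nxt A.Λ p + R)) :
    A.Solid (Real.exp (2 * P.h) - 1) (R / Real.exp (2 * P.h)) p (nxt A.Λ p) := by
  have ab := A.lt_nxt hp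
  have m0 := Real.exp_pos (2 * P.h)
  have m1 := div_le_self hR.le P.one_le_mu
  have hfix : ∀ f : G, f • p = p → ∃ u ∈ Icc (p - R) (nxt A.Λ p + R),
      f • u ∈ Icc (p - R) (nxt A.Λ p + R) ∧ D f u = 1 := fun f hf => by
    have h1 : f • nxt A.Λ p = nxt A.Λ p := by rw [← A.nxt_act, hf]
    obtain ⟨u, hu, e⟩ := mvt f p (nxt A.Λ p)
    have h2 := (act_uIcc f).2 hu
    rw [hf, h1] at e h2
    rw [uIcc_of_le ab.le] at hu h2
    exact ⟨u, ⟨by linarith [hu.1], by linarith [hu.2]⟩, ⟨by linarith [h2.1], by linarith [h2.2]⟩,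
      mul_right_cancel₀ (sub_pos.2 ab).ne' (e.symm.trans (one_mul _).symm)⟩
  refine ⟨fun j hj h1 h2 => ?_, fun j hj h1 h2 => ?_⟩
  · have acc : ∀ v, nxt A.Λ p < v → ∃ w ∈ A.Λ, nxt A.Λ p < w ∧ w < v := fun v hv => by
      obtain ⟨w, a, b, c⟩ := A.perf _ (A.nxt_mem p) _ (lt_min (sub_pos.2 hv) (sub_pos.2 ab))
      rw [lt_min_iff, abs_lt, abs_lt] at c
      exact ⟨w, a, b.lt_or_gt.resolve_left fun h => by linarith [A.le_of_lt_nxt a h, c.2.1],
        by linarith [c.1.2]⟩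
    obtain ⟨w, a, b, c⟩ := acc _ (h1.trans_lt (A.lt_nxt hj))
    have h3 := b.trans_le (A.le_of_lt_nxt a c)
    obtain ⟨f, f1, f2, f3⟩ := P.lasso (e := nxt A.Λ p) (lo := p - R) (hi := nxt A.Λ p + R) (y := j)
      (by linarith) (by linarith) (fun γ n a b c => hC γ n a b ((A.sim_nxt hp γ _).1 c))
      (fun f hf => hfix f (by
        have h4 := A.act_LE f hp
        rw [← A.nxt_act] at hf
        exact le_antisymm (A.le_of_lt_nxt h4.1 (hf ▸ A.lt_nxt h4)) (A.le_of_lt_nxt hp.1 (hf ▸ ab))))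
      ⟨by linarith, by linarith⟩ ((acc j h3).imp fun w h => ⟨h.1, Or.inl h.2⟩)
    have f4 : ∀ u ∈ Icc (nxt A.Λ p) j, _ := fun u hu => f3 u
      (by linarith [hu.1, div_nonneg (show 0 ≤ nxt A.Λ p - (p - R) by linarith) m0.le])
      (by rw [add_sub_cancel_left]; linarith [hu.2])
    obtain ⟨k, k1, k2, k3⟩ := (c2d_move (Q := fun k => ∀ u ∈ Icc (nxt A.Λ p) j,
      D k u ≤ Real.exp (2 * P.h)) f1 f2 (fun u hu => (f4 u hu).1) fun u hu => (f4 u hu).2).1
    obtain ⟨u, hu, e⟩ := mvt k (nxt A.Λ p) j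
    have k4 := mul_le_mul_of_nonneg_right (k3 u (uIcc_of_le h1 ▸ hu)) (sub_nonneg.2 h1)
    rw [Cantor.len]
    linarith [A.nxt_le (A.inv k j hj.1) k2]
  · have acc : ∀ v, v < p → ∃ w ∈ A.Λ, v < w ∧ w < p := fun v hv => by
      obtain ⟨w, a, b, c⟩ := A.perf _ hp.1 _ (lt_min (sub_pos.2 hv) (sub_pos.2 ab))
      rw [lt_min_iff, abs_lt, abs_lt] at c
      exact ⟨w, a, by linarith [c.1.1],
        b.lt_or_gt.resolve_right fun h => by linarith [A.nxt_le a h, c.2.2]⟩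
    obtain ⟨w, a, b, c⟩ := acc _ ((A.lt_nxt hj).trans_le h1)
    have h3 := (A.nxt_le a b).trans_lt c
    obtain ⟨f, f1, f2, f3⟩ := P.lasso (y := nxt A.Λ j) (by linarith) (by linarith) hC hfix
      ⟨by linarith, by linarith⟩ ((acc _ h3).imp fun w h => ⟨h.1, Or.inr h.2⟩)
    have f4 : ∀ u ∈ Icc (nxt A.Λ j) p, _ := fun u hu => f3 u
      (by rw [sub_sub_cancel]; linarith [hu.1])
      (by linarith [hu.2, div_nonneg (show 0 ≤ nxt A.Λ p + R - p by linarith) m0.le])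
    obtain ⟨k, k1, k2, k3⟩ := (c2d_move (Q := fun k => ∀ u ∈ Icc (nxt A.Λ j) p,
      D k u ≤ Real.exp (2 * P.h)) f1 f2 (fun u hu => (f4 u hu).1) fun u hu => (f4 u hu).2).2
    obtain ⟨u, hu, e⟩ := mvt k (nxt A.Λ j) p
    have k4 := mul_le_mul_of_nonneg_right (k3 u (uIcc_of_le h1 ▸ hu)) (sub_nonneg.2 h1)
    rw [Cantor.len]
    linarith [A.le_of_lt_nxt (A.inv k _ (A.nxt_mem j)) k2]

theorem Cantor.Solid.act {A : Cantor G} {k r a b h R u : ℝ} {g : G} (H : A.Solid k r a b)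
    (hk : 0 ≤ k) (hr : 0 < r) (hR : (1 + k) * r ≤ R) (hD : Dist h (a - R) (b + R) g)
    (hu : u ∈ Icc a b) :
    A.Solid (Real.exp h * k) (Real.exp (-h) * D g u * r) (g • a) (g • b) := by
  have ab := hu.1.trans hu.2
  have kr := mul_nonneg hk hr.le
  have hu' : u ∈ Icc (a - R) (b + R) := ⟨by linarith [hu.1], by linarith [hu.2]⟩
  have E0 := Real.exp_pos h
  have low : ∀ v w, a - R ≤ v → w ≤ b + R → w - v = r →
      Real.exp (-h) * D g u * r ≤ g • w - g • v := fun v w h1 h2 h3 => by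
    have := hD.low hu' h1 (show v ≤ w by linarith) h2
    rwa [Real.exp_neg, mul_assoc, inv_mul_le_iff₀ E0, ← h3]
  refine ⟨fun j' hj' h1 h2 => ?_, fun j' hj' h1 h2 => ?_⟩ <;>
    obtain ⟨j, rfl⟩ := MulAction.surjective g j' <;>
    have hj : j ∈ LE A.Λ := inv_smul_smul g j ▸ A.act_LE g⁻¹ hj' <;>
    have l0 := A.len_pos hj
  · have a1 := (act_le g).1 h1
    have a2 : j < b + r := (act_lt g).1
      (by linarith [low b (b + r) (by linarith) (by linarith) (by ring)])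
    have a3 := H.1 j hj a1 a2
    have a4 : 0 < j - b := pos_of_mul_pos_right (l0.trans_le a3) hk
    have a5 := mul_le_mul_of_nonneg_left (show j - b ≤ r by linarith) hk
    rw [Cantor.len] at *
    have a6 := hD.ratio (u1 := j) (u2 := nxt A.Λ j) (w1 := b) (w2 := j) (by linarith) (by linarith)
      (by linarith) (by linarith) a1 (by linarith)
    have a7 := mul_le_mul_of_nonneg_left (mul_le_mul_of_nonneg_left a3 (sub_nonneg.2 h1)) E0.le
    rw [A.nxt_act]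
    exact le_of_mul_le_mul_right (by linarith) a4
  · rw [A.nxt_act] at h1 h2
    have a1 := (act_le g).1 h1
    have a2 : a - r < nxt A.Λ j := (act_lt g).1
      (by linarith [low (a - r) a (by linarith) (by linarith) (by ring)])
    have a3 := H.2 j hj a1 a2
    have a4 : 0 < a - nxt A.Λ j := pos_of_mul_pos_right (l0.trans_le a3) hk
    have a5 := mul_le_mul_of_nonneg_left (show a - nxt A.Λ j ≤ r by linarith) hk
    rw [Cantor.len] at *
    have a6 := hD.ratio (u1 := j) (u2 := nxt A.Λ j) (w1 := nxt A.Λ j) (w2 := a) (by linarith)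
      (by linarith) (by linarith) (by linarith) a1 (by linarith)
    have a7 := mul_le_mul_of_nonneg_left (mul_le_mul_of_nonneg_left a3 (sub_nonneg.2 h1)) E0.le
    rw [A.nxt_act]
    exact le_of_mul_le_mul_right (by linarith) a4

theorem Par.step {A : Cantor G} (P : Par A) : ∃ ξ > 0, ∀ a b r : ℝ, A.Blk a b → 0 < r → r ≤ ξ →
    b - a ≤ 2 * r → (∀ g : G, ∃ u ∈ Icc a b, D g u ≤ 1) →
    A.Solid (Real.exp (2 * P.h) - 1) r a b → P.Ctl a (a - 4 * r) (b + 4 * r) := by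
  obtain ⟨ξ, x0, hx⟩ := A.lc P.c_pos P.c_le P.thick (η := P.M / 20) (by linarith [P.M_pos])
  refine ⟨ξ, x0, fun a b r hB r0 r1 r2 hu H => P.ctl_of fun γ n _ _ hs hd => ?_⟩
  choose u u1 u2 using hu
  have m1 := P.one_le_mu
  have m2 := P.mu_le
  have E0 := Real.exp_pos P.h
  have E1 : Real.exp (-P.h) ≤ 1 := Real.exp_le_one_iff.2 (by linarith [P.h_pos])
  have pos : ∀ g : G, 0 < Real.exp (-P.h) * D g (u g) * r := fun g =>
    mul_pos (mul_pos (Real.exp_pos _) (D_pos _ _)) r0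
  have := hx ℕ (Finset.range (n + 1)) (fun t => γ t • a) (fun t => γ t • b)
    (fun t => Real.exp (-P.h) * D (γ t) (u (γ t)) * r)
    (fun t ht => ⟨hB.act _, pos _, (mul_le_of_le_one_left r0.le
      (mul_le_one₀ E1 (D_pos _ _).le (u2 _))).trans r1,
      (H.act (by linarith) r0 (by nlinarith) (hd t (Finset.mem_range_succ_iff.1 ht))
        (u1 _)).mono P.hk le_rfl⟩)
    fun i hi j hj => hs i (Finset.mem_range.1 hi) j (Finset.mem_range.1 hj)
  refine (Finset.sum_le_sum (g := fun t => 20 * (Real.exp (-P.h) * D (γ t) (u (γ t)) * r))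
    fun t ht => ?_).trans (by rw [← Finset.mul_sum]; linarith)
  have h1 := (hd t (Finset.mem_range_succ_iff.1 ht)).up (u := u (γ t))
    ⟨by linarith [(u1 (γ t)).1], by linarith [(u1 (γ t)).2]⟩ le_rfl
    (show a - 4 * r ≤ b + 4 * r by linarith [hB.2.2.1]) le_rfl
  have h2 := mul_le_mul_of_nonneg_left (show b + 4 * r - (a - 4 * r) ≤ 10 * r by linarith)
    (mul_pos E0 (D_pos (γ t) (u (γ t)))).le
  have h3 := mul_le_mul_of_nonneg_right m2 (pos (γ t)).le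
  have h4 : Real.exp (2 * P.h) * Real.exp (-P.h) = Real.exp P.h := by
    rw [← Real.exp_add]; congr 1; ring
  rw [← mul_assoc, ← mul_assoc, h4] at h3
  linarith

end Pool.Agent.Lib.MP_173a7e_an
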