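import Pool.Agent.Lib.MP_173a7e_an.C2C
import Pool.Agent.Lib.MP_173a7e_an.C2D

/-! Every gap has an image of definite length. -/

set_option autoImplicit false

namespace Pool.Agent.Lib.MP_173a7e_an

open Set Filter Topology
open scoped Pointwise

variable {G : Type} [Group G] [MulAction G ℝ] [SmoothAct G]

theorem c2e_max (A : Cantor G) {p : ℝ} (hp : p ∈ LE A.Λ) :
    ∃ g : G, ∀ g' : G, A.len (g' • g • p) ≤ A.len (g • p) := by
  obtain ⟨v, ⟨h1, g, rfl⟩, h2⟩ := exists_max_image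
    {v : A.X | A.len p ≤ A.len v.1 ∧ ∃ g : G, v = A.cls (g • p) (A.act_LE g hp)}
    (fun v => A.len v.1) ((A.big_finite (A.len_pos hp)).subset fun v hv => hv.1)
    ⟨_, by rw [A.len_cls, one_smul], 1, rfl⟩
  rw [A.len_cls] at h1
  refine ⟨g, fun g' => ?_⟩
  rcases le_total (A.len p) (A.len (g' • g • p)) with h | h
  · have := h2 _ ⟨by rwa [A.len_cls, mul_smul], g' * g, rfl⟩
    simpa only [A.len_cls, mul_smul] using this
  · exact h.trans h1

theorem c2e_len (A : Cantor G) (g : G) (q : ℝ) : A.len (g • q) = g • nxt A.Λ q - g • q := by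
  rw [Cantor.len, A.nxt_act]

theorem c2e_der (A : Cantor G) {q : ℝ} (hq : q ∈ LE A.Λ) (hm : ∀ g : G, A.len (g • q) ≤ A.len q)
    (g : G) : ∃ u ∈ Icc q (nxt A.Λ q), D g u ≤ 1 := by
  obtain ⟨u, hu, e⟩ := mvt g q (nxt A.Λ q)
  rw [uIcc_of_le (A.le_nxt q)] at hu
  have h1 := hm g
  rw [c2e_len, e] at h1
  exact ⟨u, hu, le_of_mul_le_mul_right (by rwa [one_mul]) (A.len_pos hq)⟩

omit [SmoothAct G] in
theorem c2e_exp {A : Cantor G} (P : Par A) : Real.exp P.h ≤ 2 :=
  (Real.exp_le_exp.2 (by linarith [P.h_pos])).trans P.mu_le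

theorem c2e_half {A : Cantor G} (P : Par A) {p R : ℝ} (hp : p ∈ LE A.Λ) (hR : 0 < R)
    (hC : P.Ctl p (p - R) (nxt A.Λ p + R)) :
    A.Solid (Real.exp (2 * P.h) - 1) (R / 2) p (nxt A.Λ p) :=
  (P.solid_of hp hR hC).mono le_rfl
    (div_le_div_of_nonneg_left hR.le (Real.exp_pos _) P.mu_le)

theorem c2e_start {A : Cantor G} (P : Par A) : ∃ τ > 0, ∀ q ∈ LE A.Λ,
    (∀ g : G, A.len (g • q) ≤ A.len q) → A.len q < τ →
      A.Solid (Real.exp (2 * P.h) - 1) (A.len q / 2) q (nxt A.Λ q) := by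
  obtain ⟨τ, h0, H⟩ := A.sim_small (ε := P.M / 6) (by linarith [P.M_pos])
  refine ⟨τ, h0, fun q hq hm hl => c2e_half P hq (A.len_pos hq) ?_⟩
  refine P.ctl_of fun γ n _ _ hs hd => ?_
  have h1 := H q hq γ (n + 1) hs fun t _ => (hm _).trans_lt hl
  have h2 : ∀ t ∈ Finset.range (n + 1), γ t • (nxt A.Λ q + A.len q) - γ t • (q - A.len q) ≤
      6 * A.len (γ t • q) := fun t ht => by
    have l0 := A.len_pos hq
    have l1 := A.le_nxt q
    have l2 := A.len_pos (A.act_LE (γ t) hq)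
    have a := (hd t (Nat.lt_succ_iff.1 (Finset.mem_range.1 ht))).ratio le_rfl (by linarith) le_rfl
      (show q - A.len q ≤ q by linarith) l1 (by linarith)
    rw [← c2e_len, show nxt A.Λ q + A.len q - (q - A.len q) = 3 * A.len q by
      rw [Cantor.len]; ring, ← Cantor.len] at a
    refine le_of_mul_le_mul_right (a.trans ?_) l0
    have b := mul_le_mul_of_nonneg_right (c2e_exp P)
      (show 0 ≤ A.len (γ t • q) * (3 * A.len q) by positivity)
    linarith
  refine (Finset.sum_le_sum h2).trans ?_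
  rw [← Finset.mul_sum]
  linarith

theorem c2e_solid {A : Cantor G} (P : Par A) : ∃ ξ > 0, ∀ q ∈ LE A.Λ,
    (∀ g : G, A.len (g • q) ≤ A.len q) → A.len q < ξ → A.Solid (P.c / 4) ξ q (nxt A.Λ q) := by
  obtain ⟨τ, τ0, H1⟩ := c2e_start P
  obtain ⟨ξ, ξ0, H2⟩ := P.step
  refine ⟨min τ ξ, lt_min τ0 ξ0, fun q hq hm hl => ?_⟩
  have l0 := A.len_pos hq
  have l1 := hl.trans_le (min_le_right _ _)
  have key : ∀ n : ℕ, A.Solid (Real.exp (2 * P.h) - 1) (min (2 ^ n * (A.len q / 2)) ξ) q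
      (nxt A.Λ q) := by
    intro n
    induction n with
    | zero =>
      exact (H1 q hq hm (hl.trans_le (min_le_left _ _))).mono le_rfl
        ((min_le_left _ _).trans (by simp))
    | succ n ih =>
      have a : A.len q / 2 ≤ 2 ^ n * (A.len q / 2) :=
        le_mul_of_one_le_left (by linarith) (one_le_pow₀ one_le_two)
      have b : A.len q / 2 ≤ min (2 ^ n * (A.len q / 2)) ξ := le_min a (by linarith)
      refine (c2e_half P hq (by linarith) (H2 q _ _ (Cantor.blk_gap hq) (by linarith)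
        (min_le_right _ _) (by rw [← Cantor.len]; linarith) (c2e_der A hq hm) ih)).mono le_rfl ?_
      rcases le_total (2 ^ n * (A.len q / 2)) ξ with h | h
      · rw [min_eq_left h]
        exact (min_le_left _ _).trans (by rw [pow_succ]; linarith)
      · rw [min_eq_right h]
        exact (min_le_right _ _).trans (by linarith)
  obtain ⟨n, hn⟩ := pow_unbounded_of_one_lt (ξ / (A.len q / 2)) (one_lt_two (α := ℝ))
  rw [div_lt_iff₀ (by linarith)] at hn
  refine (key n).mono (le_trans ?_ P.hk)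
    (le_min ((min_le_right _ _).trans hn.le) (min_le_right _ _))
  exact le_mul_of_one_le_left (by linarith [P.one_le_mu]) (Real.one_le_exp P.h_pos.le)

theorem Par.hector {A : Cantor G} (P : Par A) :
    ∃ d > 0, ∀ p ∈ LE A.Λ, ∃ g : G, d ≤ A.len (g • p) := by
  obtain ⟨ξ, ξ0, H1⟩ := c2e_solid P
  obtain ⟨ζ, ζ0, H2⟩ := A.lc P.c_pos P.c_le P.thick one_pos
  have r0 := lt_min ξ0 ζ0
  have fin : {v : A.X | (∀ g : G, A.len (g • v.1) ≤ A.len v.1) ∧ A.len v.1 < ξ}.Finite := by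
    by_contra hi
    obtain ⟨n, hn⟩ := exists_nat_gt (1 / min ξ ζ)
    obtain ⟨s, hs, hc⟩ := Set.Infinite.exists_subset_card_eq hi n
    have := H2 A.X s (fun v => v.1) (fun v => nxt A.Λ v.1) (fun _ => min ξ ζ)
      (fun v hv => ⟨Cantor.blk_gap v.2.1, r0, min_le_right _ _,
        (H1 _ v.2.1 (hs hv).1 (hs hv).2).mono le_rfl (min_le_left _ _)⟩)
      fun v _ w _ hne m e => hne (by
        rw [← A.cls_val v, ← A.cls_val w, A.cls_eq_iff]
        exact ⟨m, e⟩)
    rw [Finset.sum_const, hc, nsmul_eq_mul] at this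
    rw [div_lt_iff₀ r0] at hn
    linarith
  obtain ⟨κ, κ0, H3⟩ := fin_min _ fin (P := fun v κ => κ ≤ A.len v.1)
    (fun _ _ _ _ h h' => h.trans h') fun v _ => ⟨_, A.len_pos v.2.1, le_rfl⟩
  refine ⟨min κ ξ, lt_min κ0 ξ0, fun p hp => ?_⟩
  obtain ⟨g, hg⟩ := c2e_max A hp
  refine ⟨g, ?_⟩
  rcases le_or_gt ξ (A.len (g • p)) with h | h
  · exact (min_le_right _ _).trans h
  · have hq := A.act_LE g hp
    have := H3 (A.cls _ hq) ⟨fun g' => ?_, by rwa [A.len_cls]⟩
    · rw [A.len_cls] at this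
      exact (min_le_left _ _).trans this
    · rw [A.len_cls, ← A.len_int _ ⌊g • p⌋, ← act_int]
      exact (congrArg (fun x => A.len (g' • x)) (Int.fract_add_floor (g • p))).trans_le (hg g')

end Pool.Agent.Lib.MP_173a7e_an
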