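import Pool.Agent.Lib.MP_173a7e_an.C2E

/-! There is no bad point when the Cantor set is thick. -/

set_option autoImplicit false

namespace Pool.Agent.Lib.MP_173a7e_an

open Set Filter Topology
open scoped Pointwise

variable {G : Type} [Group G] [MulAction G ℝ] [SmoothAct G]

omit [SmoothAct G] in
theorem c2f_exp {A : Cantor G} (P : Par A) : Real.exp P.h ≤ 2 :=
  (Real.exp_le_exp.2 (by linarith [P.h_pos])).trans P.mu_le

theorem Bad.lasso0 {A : Cantor G} (B : Bad A) (P : Par A) {R : ℝ} (hR : 0 < R)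
    (hC : P.Ctl B.x B.x (B.x + R)) : False := by
  have μ1 := P.one_le_mu
  have h8 : (Real.exp (2 * P.h) * Real.exp (2 * P.h)) ^ 2 < 1 + P.c := by
    rw [← Real.exp_add, ← Real.exp_nat_mul]
    have e : ((2 : ℕ) : ℝ) * (2 * P.h + 2 * P.h) = 8 * P.h := by push_cast; ring
    rw [e]
    exact P.h8
  have hL : ∀ y, B.x < y → y ≤ B.x + R → ∃ f : G, f • B.x = B.x ∧ f • y ≠ y ∧ ∀ u, B.x ≤ u →
      u ≤ B.x + R / Real.exp (2 * P.h) →
      D f u ≤ Real.exp (2 * P.h) ∧ D f⁻¹ u ≤ Real.exp (2 * P.h) := by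
    intro y y1 y2
    obtain ⟨f, f1, f2, f3⟩ := P.lasso (e := B.x) (lo := B.x) (hi := B.x + R) (y := y) le_rfl
      (by linarith) hC
      (fun f hf => ⟨B.x, ⟨le_rfl, by linarith⟩, by rw [hf]; exact ⟨le_rfl, by linarith⟩, by
        have a := D_inv_mul f B.x
        rw [hf] at a
        have c := mul_le_mul_of_nonneg_right (B.ne f⁻¹) (D_pos f B.x).le
        exact le_antisymm (B.ne f) (by linarith)⟩) ⟨y1.le, y2⟩ (by
        obtain ⟨w, w1, w2, w3⟩ := B.acc (y - B.x) (sub_pos.2 y1)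
        exact ⟨w, w1, Or.inl ⟨w2, by linarith⟩⟩)
    refine ⟨f, f1, f2, fun u u1 u2 => f3 u ?_ ?_⟩
    · rwa [sub_self, zero_div, sub_zero]
    · rwa [add_sub_cancel_left]
  generalize Real.exp (2 * P.h) = μ at μ1 h8 hL
  have μ0 : 0 < μ := by linarith
  have ρ0 : 0 < min 1 (R / μ) := lt_min one_pos (div_pos hR μ0)
  have ρ1 := min_le_left 1 (R / μ)
  have ρ2 := min_le_right 1 (R / μ)
  have ρ3 : R / μ ≤ R := div_le_self hR.le μ1
  obtain ⟨p, hp, p1, p2, -⟩ := B.exp B.x (B.x + min 1 (R / μ)) (B.acc _ ρ0)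
  have p3 := A.lt_nxt hp
  obtain ⟨Gd, hG⟩ : ∃ Gd : G → Prop, ∀ g, Gd g ↔ g • B.x = B.x ∧ g • nxt A.Λ p ≤ nxt A.Λ p ∧
      ∀ u ∈ Icc B.x (nxt A.Λ p), D g u ≤ μ ∧ D g⁻¹ u ≤ μ := ⟨_, fun _ => Iff.rfl⟩
  have key : ∀ y, B.x < y → y < p → ∃ g : G, Gd g ∧ g • y ≠ y := by
    intro y y1 y2
    obtain ⟨f, f1, f2, f3⟩ := hL y y1 (by linarith)
    have f4 : ∀ u ∈ Icc B.x (nxt A.Λ p), D f u ≤ μ ∧ D f⁻¹ u ≤ μ := fun u hu =>
      f3 u hu.1 (by linarith [hu.2])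
    rcases le_total (f • nxt A.Λ p) (nxt A.Λ p) with k | k
    · exact ⟨f, (hG f).2 ⟨f1, k, f4⟩, f2⟩
    · refine ⟨f⁻¹, (hG _).2 ⟨inv_smul_eq_iff.2 f1.symm, ?_, fun u hu => ?_⟩,
        fun k => f2 (inv_smul_eq_iff.1 k).symm⟩
      · rwa [← act_le f, smul_inv_smul]
      · rw [inv_inv]
        exact (f4 u hu).symm
  have into : ∀ g, Gd g → ∀ u ∈ Icc B.x (nxt A.Λ p), g • u ∈ Icc B.x (nxt A.Λ p) := by
    intro g hg u hu
    obtain ⟨g1, g2, -⟩ := (hG g).1 hg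
    exact ⟨g1.symm.le.trans ((act_le g).2 hu.1), ((act_le g).2 hu.2).trans g2⟩
  have κ0 : 0 < A.len p / μ := div_pos (A.len_pos hp) μ0
  have big : ∀ g : G, Gd g → g • p ∈ LE A.Λ ∧ A.len p / μ ≤ A.len (g • p) ∧
      |g • p| ≤ |B.x| + 1 := by
    intro g hg
    have b1 := into g hg p ⟨p1.le, p3.le⟩
    have b2 := into g hg _ ⟨p1.le.trans p3.le, le_rfl⟩
    have b3 : g • p ≤ g • nxt A.Λ p := (act_le g).2 p3.le
    refine ⟨A.act_LE g hp, ?_, abs_le.2 ⟨by linarith [neg_abs_le B.x, b1.1],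
      by linarith [le_abs_self B.x, b1.2]⟩⟩
    obtain ⟨v, hv, e⟩ := mvt g⁻¹ (g • p) (g • nxt A.Λ p)
    rw [uIcc_of_le b3] at hv
    rw [inv_smul_smul, inv_smul_smul] at e
    have b4 := mul_le_mul_of_nonneg_right
      (((hG g).1 hg).2.2 v ⟨b1.1.trans hv.1, hv.2.trans b2.2⟩).2 (sub_nonneg.2 b3)
    unfold Cantor.len
    rw [A.nxt_act, div_le_iff₀ μ0]
    linarith
  have two : ∀ a b : G, Gd a → Gd b → ∀ u ∈ Icc B.x (nxt A.Λ p), D (a⁻¹ * b) u ≤ μ * μ := by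
    intro a b ha hb u hu
    rw [D_mul]
    exact mul_le_mul (((hG a).1 ha).2.2 _ (into b hb u hu)).2 (((hG b).1 hb).2.2 u hu).1
      (D_pos _ _).le μ0.le
  obtain ⟨κ, k0, hκ⟩ := fin_min _ (A.bigR_finite κ0 (|B.x| + 1))
    (P := fun r κ => (∃ g : G, Gd g ∧ g • p = r) → ∃ g : G, Gd g ∧ g • p = r ∧
        ∀ w ∈ A.Λ, B.x < w → w < B.x + κ → g • w = w)
    (fun r κ κ' _ b h h' => by
      obtain ⟨g, g1, g2, g3⟩ := h h'
      exact ⟨g, g1, g2, fun w w1 w2 w3 => g3 w w1 w2 (by linarith)⟩)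
    fun r _ => by
      by_cases h : ∃ g : G, Gd g ∧ g • p = r
      · obtain ⟨g, g1, g2⟩ := h
        obtain ⟨v, v1, v2⟩ := B.triv g ((hG g).1 g1).1
        exact ⟨v - B.x, sub_pos.2 v1, fun _ =>
          ⟨g, g1, g2, fun w w1 w2 w3 => v2 w w1 w2 (by linarith)⟩⟩
      · exact ⟨1, one_pos, fun h' => absurd h' h⟩
  obtain ⟨y, y0, y1, y2⟩ := B.acc (min κ (p - B.x)) (lt_min k0 (sub_pos.2 p1))
  have y3 : y < p := by linarith [min_le_right κ (p - B.x)]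
  obtain ⟨g, g1, g2⟩ := key y y1 y3
  obtain ⟨r, r1, r2, r3⟩ := hκ _ (big g g1) ⟨g, g1, rfl⟩
  have h1 : (r⁻¹ * g) • B.x = B.x := by
    rw [mul_smul, ((hG g).1 g1).1, inv_smul_eq_iff, ((hG r).1 r1).1]
  have h2 : (r⁻¹ * g) • p = p := by rw [mul_smul, ← r2, inv_smul_smul]
  have h3 : ∀ t : ℝ, r • (r⁻¹ * g) • t = g • t := fun t => by rw [mul_smul, smul_inv_smul]
  have := A.nc0 (f := r⁻¹ * g) P.thick h8 B.mem hp.1 (by linarith) h1 h2 (fun u hu =>
    ⟨two r g r1 g1 u ⟨hu.1, hu.2.trans p3.le⟩, by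
      rw [mul_inv_rev, inv_inv]
      exact two g r g1 r1 u ⟨hu.1, hu.2.trans p3.le⟩⟩) y y0 y1 y3
  refine g2 ?_
  rw [← h3, this]
  exact r3 y y0 y1 (by linarith [min_le_left κ (p - B.x)])

theorem Bad.ctl_end {A : Cantor G} (B : Bad A) (P : Par A) {k : ℝ} (hk : k ∈ LE A.Λ)
    (e : nxt A.Λ k = B.x) : ∃ R > 0, P.Ctl B.x B.x (B.x + R) := by
  obtain ⟨C, C0, hC⟩ := sumD0 A P.toGen0 hk
  rw [e] at hC
  have R0 : 0 < P.M / (2 * C) := div_pos P.M_pos (by linarith)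
  refine ⟨_, R0, P.ctl_of fun γ n a b c d => ?_⟩
  calc ∑ t ∈ Finset.range (n + 1), (γ t • (B.x + P.M / (2 * C)) - γ t • B.x)
      ≤ ∑ t ∈ Finset.range (n + 1), 2 * (P.M / (2 * C)) * D (γ t) B.x :=
        Finset.sum_le_sum fun t ht => by
          have h1 := (d t (Nat.lt_succ_iff.1 (Finset.mem_range.1 ht))).up (u := B.x) (w1 := B.x)
            (w2 := B.x + P.M / (2 * C)) ⟨le_rfl, by linarith⟩ le_rfl (by linarith) le_rfl
          have h2 := mul_le_mul_of_nonneg_right (c2f_exp P) (mul_pos (D_pos (γ t) B.x) R0).le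
          rw [add_sub_cancel_left] at h1
          linarith
    _ = 2 * (P.M / (2 * C)) * ∑ t ∈ Finset.range (n + 1), D (γ t) B.x :=
        (Finset.mul_sum _ _ _).symm
    _ ≤ 2 * (P.M / (2 * C)) * C := mul_le_mul_of_nonneg_left (hC γ n a b c) (by linarith)
    _ = P.M := by field_simp

theorem Bad.solid0 {A : Cantor G} (B : Bad A) (P : Par A) (h2 : A.Two B.x) :
    ∃ r > 0, A.Solid (Real.exp (2 * P.h) - 1) r B.x B.x := by
  have k0 : 0 < Real.exp (2 * P.h) - 1 := by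
    linarith [Real.add_one_le_exp (2 * P.h), P.h_pos]
  generalize Real.exp (2 * P.h) - 1 = k at k0
  have K0 : 0 < 1 + 1 / k := by positivity
  have dv : ∀ s l : ℝ, k * s < l → l + s ≤ (1 + 1 / k) * l := fun s l h => by
    have : s ≤ l / k := by rw [le_div_iff₀ k0]; linarith
    rw [add_mul, one_mul, one_div, inv_mul_eq_div]
    linarith
  generalize 1 + 1 / k = K at K0 dv
  obtain ⟨d, d0, hd⟩ := P.hector
  obtain ⟨τ, τ0, hτ⟩ := A.sim_small (ε := P.M / (2 * K)) (div_pos P.M_pos (by linarith))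
  have ρ0 : 0 < min d τ := lt_min d0 τ0
  have aux : ∀ j ∈ LE A.Λ, ∀ lo hi : ℝ, lo ≤ j → nxt A.Λ j ≤ hi → B.x ∈ Icc lo hi →
      hi - lo ≤ K * A.len j → min d τ / 2 ≤ A.len j := by
    intro j hj lo hi h1 h3 hx h4
    obtain ⟨γ, n, a, b, c, e1, e2⟩ := short_path A P.toGen0 (p := j) (ρ := min d τ) (by
      obtain ⟨g, hg⟩ := hd j hj
      exact ⟨g, (min_le_left _ _).trans hg⟩)
    have l0 := A.len_pos hj
    have hD := P.boot a b (lo := lo) (hi := hi) (fun m hm H => by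
      calc ∑ t ∈ Finset.range m, (γ t • hi - γ t • lo)
          ≤ ∑ t ∈ Finset.range m, 2 * K * A.len (γ t • j) := Finset.sum_le_sum fun t ht => by
            have r1 := (H t (Finset.mem_range.1 ht)).ratio le_rfl (hx.1.trans hx.2) le_rfl h1
              (A.le_nxt j) h3
            rw [← A.nxt_act] at r1
            have r2 := A.len_pos (A.act_LE (γ t) hj)
            have r3 : A.len (γ t • j) * (hi - lo) ≤ A.len (γ t • j) * (K * A.len j) :=
              mul_le_mul_of_nonneg_left h4 r2.le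
            have r4 := mul_le_mul (c2f_exp P) r3
              (mul_nonneg r2.le (sub_nonneg.2 (hx.1.trans hx.2))) zero_le_two
            refine le_of_mul_le_mul_right ?_ l0
            have r5 : (γ t • hi - γ t • lo) * A.len j ≤
              Real.exp P.h * (A.len (γ t • j) * (hi - lo)) := r1
            linarith
        _ = 2 * K * ∑ t ∈ Finset.range m, A.len (γ t • j) := (Finset.mul_sum _ _ _).symm
        _ ≤ 2 * K * (P.M / (2 * K)) := mul_le_mul_of_nonneg_left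
            (hτ j hj γ m (c.mono (by omega)) fun t ht =>
              (e2 t (by omega)).trans_le (min_le_right _ _)) (by linarith)
        _ = P.M := by field_simp) n le_rfl
    have u1 := hD.up hx h1 (A.le_nxt j) h3
    rw [← A.nxt_act] at u1
    have u2 : A.len (γ n • j) ≤ Real.exp P.h * D (γ n) B.x * A.len j := u1
    have u3 := mul_le_mul_of_nonneg_right
      (mul_le_mul (c2f_exp P) (B.ne (γ n)) (D_pos _ _).le zero_le_two) l0.le
    linarith
  obtain ⟨r, r0, hr⟩ := fin_min _ (A.bigR_finite (half_pos ρ0) (|B.x| + 2))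
    (P := fun p κ => κ ≤ |p - B.x| ∧ κ ≤ |nxt A.Λ p - B.x|)
    (fun p κ κ' _ b h => ⟨b.trans h.1, b.trans h.2⟩) fun p hp => by
      have p3 := A.lt_nxt hp.1
      refine ⟨min |p - B.x| |nxt A.Λ p - B.x|, lt_min (abs_pos.2 (sub_ne_zero.2 fun e => ?_))
        (abs_pos.2 (sub_ne_zero.2 fun e => ?_)), min_le_left _ _, min_le_right _ _⟩
      · obtain ⟨w, w1, w2, w3⟩ := h2.2.1 _ (sub_pos.2 p3)
        have := A.nxt_le w1 (show p < w by linarith)
        linarith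
      · obtain ⟨w, w1, w2, w3⟩ := h2.2.2 _ (sub_pos.2 p3)
        have := A.le_of_lt_nxt w1 (show w < nxt A.Λ p by linarith)
        linarith
  have m1 := min_le_left r 1
  have m2 := min_le_right r 1
  have x1 := neg_abs_le B.x
  have x2 := le_abs_self B.x
  refine ⟨min r 1, lt_min r0 one_pos, fun j hj j1 j2 => ?_, fun j hj j1 j2 => ?_⟩
  · by_contra hc
    have j3 := A.le_nxt j
    have j4 := dv _ _ (not_le.1 hc)
    have j5 := aux j hj B.x (nxt A.Λ j) j1 le_rfl ⟨le_rfl, by linarith⟩ (by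
      refine le_trans (le_of_eq ?_) j4
      unfold Cantor.len
      ring)
    have j6 := (hr j ⟨hj, j5, abs_le.2 ⟨by linarith, by linarith⟩⟩).1
    rw [abs_of_nonneg (sub_nonneg.2 j1)] at j6
    linarith
  · by_contra hc
    have j3 := A.le_nxt j
    have j7 := A.nxt_le_one hj.1
    have j4 := dv _ _ (not_le.1 hc)
    have j5 := aux j hj j B.x le_rfl j1 ⟨by linarith, le_rfl⟩ (by
      refine le_trans (le_of_eq ?_) j4
      unfold Cantor.len
      ring)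
    have j6 := (hr j ⟨hj, j5, abs_le.2 ⟨by linarith, by linarith⟩⟩).2
    rw [abs_of_nonpos (sub_nonpos.2 j1)] at j6
    linarith

theorem Bad.false0 {A : Cantor G} (B : Bad A) (P : Par A) : False := by
  by_cases hl : ∀ ε > 0, ∃ w ∈ A.Λ, B.x - ε < w ∧ w < B.x
  · obtain ⟨r, r0, hr⟩ := B.solid0 P ⟨B.mem, B.acc, hl⟩
    obtain ⟨ξ, ξ0, hξ⟩ := P.step
    have m0 := lt_min r0 ξ0
    refine B.lasso0 P (R := 4 * min r ξ) (by linarith) ((hξ B.x B.x (min r ξ) (A.blk_pt B.mem) m0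
      (min_le_right _ _) (by linarith) (fun g => ⟨B.x, ⟨le_rfl, le_rfl⟩, B.ne g⟩)
      (hr.mono le_rfl (min_le_left _ _))).mono (by linarith) le_rfl)
  · push Not at hl
    obtain ⟨ε, hε, hn⟩ := hl
    obtain ⟨k, hk, k1, k2⟩ := A.exists_gap (u := B.x - ε / 2) fun h =>
      absurd (hn _ h (by linarith)) (by linarith)
    obtain ⟨R, R0, hR⟩ := B.ctl_end P hk
      (le_antisymm (A.nxt_le B.mem (by linarith)) (hn _ (A.nxt_mem k) (by linarith)))
    exact B.lasso0 P R0 hR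

theorem star_all0 (A : Cantor G) (Γ : Gen0 G) {δ c : ℝ} (hδ : 0 < δ) (hE : A.Exp δ) (hc : 0 < c)
    (hc1 : c ≤ 1) (hT : A.Thick c) {x : ℝ}
    (hx : x ∈ A.Λ) (hne : ∀ g : G, D g x ≤ 1) (hacc : ∀ ε > 0, ∃ w ∈ A.Λ, x < w ∧ w < x + ε) :
    ∃ g : G, g • x = x ∧ ∃ ε > 0, ∀ u ∈ Ioo x (x + ε), g • u ≠ u := by
  by_cases h : ∃ f : G, f • x = x ∧ ∀ v, x < v → ∃ w ∈ A.Λ, x < w ∧ w < v ∧ f • w ≠ w
  · obtain ⟨f, a, b⟩ := h
    exact ⟨f, a, nofix0 A hc hT hx hne a b⟩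
  · push Not at h
    obtain ⟨P, -⟩ := exists_par A Γ hδ hE hc hc1 hT
    exact (Bad.false0 ⟨x, δ, hδ, hE, hx, hne, hacc, h⟩ P).elim

end Pool.Agent.Lib.MP_173a7e_an
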