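import Pool.Agent.Lib.MP_173a7e_an.C2L
import Pool.Agent.Lib.MP_173a7e_an.C2.Close

/-! Thickness for actions of class exactly two. -/

set_option autoImplicit false

namespace Pool.Agent.Lib.MP_173a7e_an

open Set Filter Topology
open scoped Pointwise

variable {G : Type} [Group G] [MulAction G ℝ] [SmoothAct G]

theorem Cantor.thick0 (A : Cantor G) (Γ : Gen0 G) {δ : ℝ} (hδ : 0 < δ) (hE : A.Exp δ) :
    ∃ c > 0, c ≤ 1 ∧ A.Thick c := by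
  obtain ⟨Γ2, -⟩ := C2.exists_gen Γ.S Γ.one_mem Γ.inv Γ.gen
  refine C2.thick A Γ2 (fun σ hσ => ?_) hδ hE
  obtain ⟨ρ, ρ0, h⟩ := l2_bound Γ2.S hσ
  refine ⟨ρ, ρ0, fun n p a b q s h1 h2 θ hθ => h (Finset.range n) p a b q s (fun i hi => ?_)
    (fun i _ j hj hij m => h2 i j hij (Finset.mem_range.1 hj) m) θ hθ⟩
  obtain ⟨a1, ⟨a2, a3, a4, a5, a6⟩, a7⟩ := h1 i (Finset.mem_range.1 hi)
  exact ⟨a1, a2, a3, a4, a7, le_min a5 a6⟩

end Pool.Agent.Lib.MP_173a7e_an
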