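import Pool.Agent.Lib.MP_173a7e_an.Main
import Pool.Agent.Lib.MP_173a7e_an.C2F
import Pool.Agent.Lib.MP_173a7e_an.C2T

/-! Isolated fixed points at non-expandable points, for groups of lifts. -/

set_option autoImplicit false

namespace Pool.Agent.Lib.MP_173a7e_an

open Set Filter Topology

theorem hp_fg0 (G0 : Subgroup (Equiv.Perm ℝ)) (hfg : G0.FG) (sg : ∀ g ∈ G0, Tp g 1 ∨ Tp g (-1)) :
    Group.FG (Hp G0) := by
  have no : ∀ {g : Equiv.Perm ℝ}, Tp g 1 → Tp g (-1) → False := fun h h' => by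
    linarith [h 0, h' 0]
  have : Group.FG G0 := (Group.fg_iff_subgroup_fg G0).2 hfg
  have : (Hp G0).FiniteIndex := by
    by_cases hr : ∃ r : G0, r ∉ Hp G0
    · obtain ⟨r, hr⟩ := hr
      have hr' : Tp r.1 (-1) := (sg _ r.2).resolve_left hr
      refine ⟨?_⟩
      rw [Subgroup.index_eq_two_iff.2 ⟨r, fun b => ?_⟩]
      · norm_num
      · rcases sg _ b.2 with h | h
        · exact Or.inr ⟨h, fun h' => no h' (by simpa using h.mul hr' (Or.inr rfl))⟩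
        · exact Or.inl ⟨show Tp (b.1 * r.1) 1 by simpa using h.mul hr' (Or.inr rfl),
            fun h' => no h' h⟩
    · push Not at hr
      rw [(Subgroup.eq_top_iff' _).2 hr]; infer_instance
  exact Subgroup.fg_of_index_ne_zero _

theorem star_perm3 (G0 : Subgroup (Equiv.Perm ℝ)) (hfg : G0.FG) (ht : Equiv.addRight (1 : ℝ) ∈ G0)
    (hG : ∀ g ∈ G0, ContDiff ℝ 2 (⇑g) ∧ (∀ x : ℝ, deriv (⇑g) x ≠ 0) ∧
      ((∀ x : ℝ, g (x + 1) = g x + 1) ∨ (∀ x : ℝ, g (x + 1) = g x - 1)))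
    (Λ : Set ℝ) (hne : Λ.Nonempty) (hc : IsClosed Λ)
    (hp : ∀ x ∈ Λ, ∀ ε > 0, ∃ y ∈ Λ, y ≠ x ∧ |y - x| < ε)
    (hnd : ∀ a b : ℝ, a < b → ∃ u, a < u ∧ u < b ∧ u ∉ Λ) (hinv : ∀ g ∈ G0, ∀ x ∈ Λ, g x ∈ Λ)
    (hmin : ∀ x ∈ Λ, ∀ w ∈ Λ, ∀ ε > 0, ∃ g ∈ G0, |g x - w| < ε)
    {x : ℝ}
    (hx : x ∈ Λ) (h1 : ∀ g ∈ G0, |deriv (⇑g) x| ≤ 1)
    (hacc : ∀ ε > 0, ∃ w ∈ Λ, x < w ∧ w < x + ε) :
    ∃ g ∈ G0, g x = x ∧ 0 < deriv (⇑g) x ∧ ∃ ε > 0, ∀ u ∈ Ioo x (x + ε), g u ≠ u := by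
  have sg := fun g hg => sign_cases (hG g hg).1 (hG g hg).2.1 (hG g hg).2.2
  have hiff : ∀ g ∈ G0, ∀ x, x ∈ Λ ↔ g x ∈ Λ := fun g hg x =>
    ⟨hinv g hg x, fun h => by simpa using hinv g⁻¹ (G0.inv_mem hg) _ h⟩
  have no : ∀ {g : Equiv.Perm ℝ}, Tp g 1 → Tp g (-1) → False := fun h h' => by
    linarith [h 0, h' 0]
  have : SmoothAct (Hp G0) := ⟨fun g => (hG _ g.1.2).1, fun g x => by
    rcases sg _ g.1.2 with h | h
    · exact h.1 x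
    · exact (no g.2 h.2.2).elim, fun g => g.2⟩
  let A : Cantor (Hp G0) := ⟨Λ, ⟨⟨_, ht⟩, fun _ => rfl⟩, fun _ => rfl, hc, hne, hp, hnd,
    fun g => hinv _ g.1.2⟩
  obtain ⟨Γ⟩ := exists_gen0 (G := Hp G0) (hp_fg0 G0 hfg fun g hg => (sg g hg).imp (·.2.2) (·.2.2))
  obtain ⟨u0, -, -, hu0⟩ := hnd 0 1 one_pos
  obtain ⟨k, hk, -⟩ := A.exists_gap hu0
  obtain ⟨δ, hδ, d1, d2⟩ : ∃ δ > 0, δ ≤ A.len k ∧ ∀ g ∈ G0, Tp g (-1) →
      ∃ h : Hp G0, δ ≤ A.len (h • g (nxt Λ k)) := by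
    by_cases hr : ∃ r ∈ G0, Tp r (-1)
    · obtain ⟨r, hr, hr'⟩ := hr
      have hra : StrictAnti r := ((sg r hr).resolve_left fun h => no h.2.2 hr').2.1
      have a := (anti_gap A hra r.surjective (hiff r hr) hk).1
      refine ⟨min (A.len k) (A.len (r (nxt Λ k))), lt_min (A.len_pos hk) (A.len_pos a),
        min_le_left _ _, fun g hg hg' => ⟨⟨⟨r * g⁻¹, G0.mul_mem hr (G0.inv_mem hg)⟩,
          show Tp (r * g⁻¹) 1 by simpa using hr'.mul (hg'.inv (Or.inr rfl)) (Or.inr rfl)⟩, ?_⟩⟩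
      show _ ≤ A.len (r (g⁻¹ (g (nxt Λ k))))
      simp
    · exact ⟨_, A.len_pos hk, le_rfl, fun g hg hg' => absurd ⟨g, hg, hg'⟩ hr⟩
  have hE : A.Exp δ := by
    rintro u v ⟨w, hw, a, b⟩
    obtain ⟨w1, w3, m1, m3, c1, c2, c3⟩ : ∃ w1 w3, w1 ∈ Λ ∧ w3 ∈ Λ ∧ u < w1 ∧ w1 < w3 ∧ w3 < v := by
      obtain ⟨y, hy, c, d⟩ := hp w hw (min (w - u) (v - w)) (lt_min (by linarith) (by linarith))
      rw [abs_lt] at d
      have := min_le_left (w - u) (v - w)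
      have := min_le_right (w - u) (v - w)
      rcases lt_or_gt_of_ne c with e | e
      · exact ⟨y, w, hy, hw, by linarith, e, b⟩
      · exact ⟨w, y, hw, hy, a, e, by linarith⟩
    obtain ⟨w1, w2, m1, m2, c1, c2, c4⟩ : ∃ w1 w2, w1 ∈ Λ ∧ w2 ∈ Λ ∧ u < w1 ∧ w1 < w2 ∧
        w2 < w3 := by
      obtain ⟨y, hy, c, d⟩ := hp w1 m1 (min (w1 - u) (w3 - w1)) (lt_min (by linarith) (by linarith))
      rw [abs_lt] at d
      have := min_le_left (w1 - u) (w3 - w1)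
      have := min_le_right (w1 - u) (w3 - w1)
      rcases lt_or_gt_of_ne c with e | e
      · exact ⟨y, w1, hy, m1, by linarith, e, c2⟩
      · exact ⟨w1, y, m1, hy, c1, e, by linarith⟩
    obtain ⟨g, hg, d⟩ := hmin k hk.1 w2 m2 (min (w2 - w1) (w3 - w2))
      (lt_min (by linarith) (by linarith))
    rw [abs_lt] at d
    have := min_le_left (w2 - w1) (w3 - w2)
    have := min_le_right (w2 - w1) (w3 - w2)
    rcases sg g hg with h | h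
    · let g' : Hp G0 := ⟨⟨g, hg⟩, h.2.2⟩
      refine ⟨g' • k, A.act_LE g' hk, show u < g k by linarith,
        (A.nxt_le m3 (show g k < w3 by linarith)).trans_lt c3, g'⁻¹, by rwa [inv_smul_smul]⟩
    · obtain ⟨e1, e2⟩ := anti_gap A h.2.1 g.surjective (hiff g hg) hk
      refine ⟨_, e1, c1.trans_le (A.le_of_lt_nxt m1 (by rw [e2]; linarith)), by rw [e2]; linarith,
        d2 g hg h.2.2⟩
  obtain ⟨c, c0, c1, hT⟩ := A.thick0 Γ hδ hE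
  obtain ⟨g, a, b⟩ := star_all0 A Γ hδ hE c0 c1 hT hx
    (fun g => (le_abs_self _).trans (h1 _ g.1.2)) hacc
  exact ⟨g.1.1, g.1.2, a, D_pos g x, b⟩

theorem star_full0 (G0 : Subgroup (Equiv.Perm ℝ)) (hfg : G0.FG) (ht : Equiv.addRight (1 : ℝ) ∈ G0)
    (hG : ∀ g ∈ G0, ContDiff ℝ 2 (⇑g) ∧ (∀ x : ℝ, deriv (⇑g) x ≠ 0) ∧
      ((∀ x : ℝ, g (x + 1) = g x + 1) ∨ (∀ x : ℝ, g (x + 1) = g x - 1)))
    (Λ : Set ℝ) (hne : Λ.Nonempty) (hperf : Perfect Λ) (hint : interior Λ = ∅)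
    (hinv : ∀ g ∈ G0, ∀ x ∈ Λ, g x ∈ Λ)
    (hmin : ∀ x ∈ Λ, Λ ⊆ closure {y : ℝ | ∃ g ∈ G0, g x = y}) :
    ∀ x ∈ Λ, (∀ g ∈ G0, |deriv (⇑g) x| ≤ 1) →
      (x ∈ closure (Λ ∩ Ioi x) → ∃ g ∈ G0, g x = x ∧ 0 < deriv (⇑g) x ∧
        ∃ ε > 0, ∀ u ∈ Ioo x (x + ε), g u ≠ u) ∧
      (x ∈ closure (Λ ∩ Iio x) → ∃ g ∈ G0, g x = x ∧ 0 < deriv (⇑g) x ∧
        ∃ ε > 0, ∀ u ∈ Ioo (x - ε) x, g u ≠ u) := by
  have hp : ∀ x ∈ Λ, ∀ ε > 0, ∃ y ∈ Λ, y ≠ x ∧ |y - x| < ε := fun x hx ε hε => by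
    obtain ⟨y, h1, h2⟩ := (accPt_iff_nhds.1 (hperf.acc x hx)) _ (Metric.ball_mem_nhds x hε)
    exact ⟨y, h1.2, h2, by simpa [Real.dist_eq] using h1.1⟩
  have hnd : ∀ a b : ℝ, a < b → ∃ u, a < u ∧ u < b ∧ u ∉ Λ := fun a b hab => by
    by_contra h
    push Not at h
    have : Ioo a b ⊆ interior Λ := interior_maximal (fun u hu => h u hu.1 hu.2) isOpen_Ioo
    rw [hint] at this
    exact this (show (a + b) / 2 ∈ Ioo a b from ⟨by linarith, by linarith⟩)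
  have hm : ∀ x ∈ Λ, ∀ w ∈ Λ, ∀ ε > 0, ∃ g ∈ G0, |g x - w| < ε := fun x hx w hw ε hε => by
    obtain ⟨_, ⟨g, hg, rfl⟩, h⟩ := Metric.mem_closure_iff.1 (hmin x hx hw) ε hε
    exact ⟨g, hg, by rwa [Real.dist_eq, abs_sub_comm] at h⟩
  intro x hx h1
  refine ⟨fun h => star_perm3 G0 hfg ht hG Λ hne hperf.closed hp hnd hinv hm
    hx h1 fun ε hε => ?_, fun h => ?_⟩
  · obtain ⟨w, hw, d⟩ := Metric.mem_closure_iff.1 h ε hε
    rw [Real.dist_eq, abs_lt] at d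
    exact ⟨w, hw.1, hw.2, by linarith⟩
  let c : Equiv.Perm ℝ →* Equiv.Perm ℝ := (MulAut.conj (Equiv.neg ℝ)).toMonoidHom
  have ce : ∀ g : Equiv.Perm ℝ, ⇑(c g) = fun y => -g (-y) := fun g => rfl
  have cd : ∀ g : Equiv.Perm ℝ, deriv ⇑(c g) = fun y => deriv (⇑g) (-y) := fun g => funext fun y => by
    rw [ce, deriv.fun_neg, deriv_comp_neg, neg_neg]
  obtain ⟨_, ⟨g, hg, rfl⟩, a1, a2, ε, hε, a3⟩ := star_perm3 (G0.map c)
    (by
      classical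
      obtain ⟨T, hT⟩ := hfg
      exact ⟨T.image c, by rw [Finset.coe_image, ← MonoidHom.map_closure, hT]⟩)
    ⟨_, G0.inv_mem ht, Equiv.ext fun y => by rw [ce]; simp [add_comm]⟩
    (by
      rintro _ ⟨g, hg, rfl⟩
      refine ⟨by rw [ce]; exact ((hG g hg).1.comp contDiff_neg).neg,
        fun y => by rw [cd]; exact (hG g hg).2.1 _, (hG g hg).2.2.imp (fun h y => ?_) fun h y => ?_⟩
      all_goals
        have := h (-(y + 1))
        rw [show -(y + 1) + 1 = -y by ring] at this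
        simp only [ce]; linarith)
    {y | -y ∈ Λ} (hne.elim fun y hy => ⟨-y, by simpa using hy⟩)
    (hperf.closed.preimage continuous_neg)
    (fun y hy ε hε => by
      obtain ⟨z, b1, b2, b3⟩ := hp _ hy ε hε
      exact ⟨-z, by simpa using b1, fun e => b2 (by rw [← e, neg_neg]), by
        rw [← abs_neg]; convert b3 using 2; ring⟩)
    (fun a b hab => by
      obtain ⟨u, b1, b2, b3⟩ := hnd (-b) (-a) (by linarith)
      exact ⟨-u, by linarith, by linarith, by simpa using b3⟩)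
    (by
      rintro _ ⟨g, hg, rfl⟩ y hy
      simpa [ce] using hinv g hg _ hy)
    (fun y hy w hw ε hε => by
      obtain ⟨g, hg, b⟩ := hm _ hy _ hw ε hε
      exact ⟨_, ⟨g, hg, rfl⟩, by rw [ce, ← abs_neg]; convert b using 2; ring⟩)
    (x := -x)
    (by simpa using hx)
    (by
      rintro _ ⟨g, hg, rfl⟩
      simpa [cd] using h1 g hg)
    (fun ε hε => by
      obtain ⟨w, hw, d⟩ := Metric.mem_closure_iff.1 h ε hε
      rw [Real.dist_eq, abs_lt] at d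
      exact ⟨-w, by simpa using hw.1, by linarith [mem_Iio.1 hw.2], by linarith⟩)
  refine ⟨g, hg, by simpa [ce] using a1, by simpa [cd] using a2, ε, hε, fun u hu e => ?_⟩
  exact a3 (-u) ⟨by linarith [hu.2], by linarith [hu.1]⟩ (by simp [ce, e])

end Pool.Agent.Lib.MP_173a7e_an
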