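import Pool.Agent.Lib.MP_173a7e_an.C2L

/-! Small cross ratio distortion at small scales for maps of class two. -/

set_option autoImplicit false

namespace Pool.Agent.Lib.MP_173a7e_an

open Set Filter Topology

variable {G : Type} [Group G] [MulAction G ℝ] [SmoothAct G]

theorem taylor2 (g : G) {p t : ℝ} (h : p ≠ t) :
    ∃ ξ ∈ uIcc p t, D g t * (t - p) - (g • t - g • p) = DD g ξ / 2 * (t - p) ^ 2 := by
  have d1 : ∀ u, HasDerivAt (fun u => D g t * (t - u) - (g • t - g • u)) (D g u - D g t) u := by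
    intro u
    have := (((hasDerivAt_id u).const_sub t).const_mul (D g t)).sub ((hasD g u).const_sub (g • t))
    exact this.congr_deriv (by ring)
  have d2 : ∀ u, HasDerivAt (fun u => (t - u) ^ 2) (-2 * (t - u)) u := by
    intro u
    have := ((hasDerivAt_id u).const_sub t).pow 2
    exact this.congr_deriv (by simp)
  have key : ∃ c ∈ uIcc p t, c ≠ t ∧ (t - p) ^ 2 * (D g c - D g t) =
      (D g t * (t - p) - (g • t - g • p)) * (-2 * (t - c)) := by
    rcases lt_or_gt_of_ne h with h' | h'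
    · obtain ⟨c, hc, e⟩ := exists_ratio_hasDerivAt_eq_ratio_slope _ _ h'
        (fun u _ => (d1 u).continuousAt.continuousWithinAt) (fun u _ => d1 u) _ _
        (fun u _ => (d2 u).continuousAt.continuousWithinAt) (fun u _ => d2 u)
      refine ⟨c, by rw [uIcc_of_le h'.le]; exact Ioo_subset_Icc_self hc, hc.2.ne, ?_⟩
      simp only [sub_self, mul_zero] at e
      linarith
    · obtain ⟨c, hc, e⟩ := exists_ratio_hasDerivAt_eq_ratio_slope _ _ h'
        (fun u _ => (d1 u).continuousAt.continuousWithinAt) (fun u _ => d1 u) _ _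
        (fun u _ => (d2 u).continuousAt.continuousWithinAt) (fun u _ => d2 u)
      refine ⟨c, by rw [uIcc_of_ge h'.le]; exact Ioo_subset_Icc_self hc, hc.1.ne', ?_⟩
      simp only [sub_self, mul_zero] at e
      linarith
  obtain ⟨c, hc, hct, e⟩ := key
  obtain ⟨ξ, hξ, e2⟩ := mvtD g c t
  refine ⟨ξ, uIcc_subset_uIcc hc right_mem_uIcc hξ, ?_⟩
  have h3 : t - c ≠ 0 := sub_ne_zero.2 (Ne.symm hct)
  apply mul_right_cancel₀ h3
  have : D g c - D g t = -(DD g ξ * (t - c)) := by linarith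
  rw [this] at e
  linarith

/-- Admissible positions of four points in an interval. -/
def Ord4 (lo hi p p' t1 t2 : ℝ) : Prop :=
  lo ≤ p ∧ p ≤ hi ∧ lo ≤ p' ∧ p' ≤ hi ∧ lo ≤ t1 ∧ t1 ≤ t2 ∧ t2 ≤ hi ∧ (p ≤ t1 ∨ t2 ≤ p) ∧
    (p' ≤ t1 ∨ t2 ≤ p')

theorem key0 (g : G) {σ : ℝ} (hσ : 0 < σ) : ∃ ρ > 0, ∀ p t : ℝ, p ≠ t → |t - p| ≤ ρ →
    |D g t / (g • t - g • p) - 1 / (t - p) - Nl g t| ≤ σ := by
  obtain ⟨C1, -, h1⟩ := D_bdd g⁻¹
  obtain ⟨C2, -, h2⟩ := per_bdd _ (cont_DD g) (DD_int g)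
  obtain ⟨C, hC, k1, k2⟩ : ∃ C : ℝ, 1 ≤ C ∧ C1 ≤ C ∧ C2 ≤ C :=
    ⟨max 1 (max C1 C2), le_max_left _ _, by simp, by simp⟩
  have C0 : 0 < C := by linarith
  obtain ⟨ρ, ρ0, hρ⟩ := C2L.DD_unif g (σ := σ / C) (by positivity)
  refine ⟨min ρ (σ / C ^ 4), by positivity, fun p t hpt hd => ?_⟩
  obtain ⟨ξ, hξ, e1⟩ := taylor2 g hpt
  obtain ⟨η, hη, e2⟩ := mvt g p t
  obtain ⟨ζ, -, e3⟩ := mvtD g η t
  have near : ∀ u ∈ uIcc p t, |t - u| ≤ |t - p| := fun u hu => by
    rcases mem_uIcc.1 hu with h | h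
    · rw [abs_of_nonneg (by linarith [h.2]), abs_of_nonneg (by linarith [h.1, h.2])]
      linarith [h.1]
    · rw [abs_of_nonpos (by linarith [h.1]), abs_of_nonpos (by linarith [h.1, h.2])]
      linarith [h.2]
  have low : ∀ x, (D g x)⁻¹ ≤ C := fun x => by rw [← D_inv]; exact (h1 _).trans k1
  have n1 := sub_ne_zero.2 hpt.symm
  have p1 := D_pos g t
  have p2 := D_pos g η
  have e4 : D g t / (g • t - g • p) - 1 / (t - p) - Nl g t =
      ((DD g ξ - DD g t) * (D g η)⁻¹ + DD g t * (DD g ζ * (t - η)) * (D g η)⁻¹ * (D g t)⁻¹) / 2 := by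
    have e5 : DD g ξ = 2 * (D g t - D g η) / (t - p) := by
      rw [e2] at e1
      field_simp
      refine mul_right_cancel₀ n1 ?_
      linarith
    rw [← e3, e2, e5, Nl]
    field_simp
    ring
  have b1 : |DD g ξ - DD g t| ≤ σ / C := hρ _ _ (by
    rw [abs_sub_comm]; exact (near ξ hξ).trans (hd.trans (min_le_left _ _)))
  have b2 : |t - η| ≤ σ / C ^ 4 := (near η hη).trans (hd.trans (min_le_right _ _))
  have b3 : |(DD g ξ - DD g t) * (D g η)⁻¹| ≤ σ / C * C := by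
    rw [abs_mul, abs_of_pos (inv_pos.2 p2)]
    exact mul_le_mul b1 (low _) (inv_pos.2 p2).le (by positivity)
  have b4 : |DD g t * (DD g ζ * (t - η)) * (D g η)⁻¹ * (D g t)⁻¹| ≤
      C * (C * (σ / C ^ 4)) * C * C := by
    rw [abs_mul, abs_mul, abs_mul, abs_mul, abs_of_pos (inv_pos.2 p2), abs_of_pos (inv_pos.2 p1)]
    have := (h2 t).trans k2
    have := (h2 ζ).trans k2
    have := low η
    have := low t
    have := (inv_pos.2 p2).le
    have := (inv_pos.2 p1).le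
    gcongr
  rw [div_mul_cancel₀ _ C0.ne'] at b3
  rw [show C * (C * (σ / C ^ 4)) * C * C = σ by field_simp] at b4
  rw [e4, abs_div, abs_two]
  linarith [abs_add_le ((DD g ξ - DD g t) * (D g η)⁻¹)
    (DD g t * (DD g ζ * (t - η)) * (D g η)⁻¹ * (D g t)⁻¹)]

theorem cr0 (S : Finset G) {σ : ℝ} (hσ : 0 < σ) : ∃ ρ > 0, ∀ s ∈ S, ∀ lo hi p p' t1 t2 : ℝ,
    Ord4 lo hi p p' t1 t2 → hi - lo ≤ ρ → |Xr s p p' t1 t2| ≤ 2 * σ * (t2 - t1) := by
  obtain ⟨ρ, ρ0, hρ⟩ := fin_min (S : Set G) S.finite_toSet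
    (P := fun g ρ => ∀ p t : ℝ, p ≠ t → |t - p| ≤ ρ →
      |D g t / (g • t - g • p) - 1 / (t - p) - Nl g t| ≤ σ)
    (fun g a b _ h h' x y e1 e2 => h' x y e1 (e2.trans h)) fun g _ => key0 g hσ
  refine ⟨ρ, ρ0, fun s hs lo hi p p' t1 t2 h hl => ?_⟩
  obtain ⟨a1, a2, a3, a4, a5, a6, a7, a8, a9⟩ := h
  rcases a6.eq_or_lt with e | e
  · subst e; unfold Xr; simp
  · obtain ⟨c, hc, e2⟩ := exists_hasDerivAt_eq_slope (fun t => Fl s p t - Fl s p' t)
      (fun t => (D s t / (s • t - s • p) - 1 / (t - p)) - (D s t / (s • t - s • p') - 1 / (t - p')))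
      e ((cont_Fl s p).sub (cont_Fl s p')).continuousOn (fun t ht =>
        (hasD_Fl s (by rcases a8 with a | a <;> intro b <;> linarith [ht.1, ht.2])).sub
          (hasD_Fl s (by rcases a9 with a | a <;> intro b <;> linarith [ht.1, ht.2])))
    have bd : ∀ q, lo ≤ q → q ≤ hi → (q ≤ t1 ∨ t2 ≤ q) →
        |D s c / (s • c - s • q) - 1 / (c - q) - Nl s c| ≤ σ := by
      intro q b1 b2 b3
      have b4 : |c - q| ≤ hi - lo := by rw [abs_le]; constructor <;> linarith [hc.1, hc.2]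
      exact hρ s hs q c (by rcases b3 with a | a <;> intro b <;> linarith [hc.1, hc.2])
        (b4.trans hl)
    have b1 := bd p a1 a2 a8
    have b2 := bd p' a3 a4 a9
    have e3 : Xr s p p' t1 t2 = ((D s c / (s • c - s • p) - 1 / (c - p) - Nl s c) -
        (D s c / (s • c - s • p') - 1 / (c - p') - Nl s c)) * (t2 - t1) := by
      rw [eq_div_iff (sub_pos.2 e).ne'] at e2
      unfold Xr; linarith
    rw [e3, abs_mul, abs_of_pos (sub_pos.2 e)]
    refine mul_le_mul_of_nonneg_right ((abs_sub _ _).trans ?_) (sub_pos.2 e).le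
    linarith

end Pool.Agent.Lib.MP_173a7e_an
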