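import Pool.Agent.Lib.MP_173a7e_an.C2A

/-! A square root bound for the cross ratio distortion summed over a laminar family. -/

set_option autoImplicit false

namespace Pool.Agent.Lib.MP_173a7e_an

open Set Filter Topology

namespace C2L

/-- Laminar families on the line, later members being older. -/
def Lam (F : Finset ℕ) (p a b q : ℕ → ℝ) : Prop :=
  (∀ i ∈ F, p i ≤ a i ∧ a i ≤ b i ∧ b i ≤ q i) ∧ ∀ i ∈ F, ∀ j ∈ F, i < j →
    q i ≤ p j ∨ q j ≤ p i ∨ (p j ≤ p i ∧ q i ≤ a j) ∨ (b j ≤ p i ∧ q i ≤ q j)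

theorem Lam.sub {F F' : Finset ℕ} {p a b q : ℕ → ℝ} (h : Lam F p a b q) (hs : F' ⊆ F) :
    Lam F' p a b q := ⟨fun i hi => h.1 i (hs hi), fun i hi j hj => h.2 i (hs hi) j (hs hj)⟩

theorem sum_split (F : Finset ℕ) (c : ℕ → ℝ) (P : ℕ → Prop) [DecidablePred P] {x y : ℝ}
    (h1 : ∑ i ∈ F.filter P, c i ≤ x) (h2 : ∑ i ∈ F.filter (fun i => ¬ P i), c i ≤ y) :
    ∑ i ∈ F, c i ≤ x + y := by
  rw [← Finset.sum_filter_add_sum_filter_not F P]; linarith

theorem lam_ind {p a b q c : ℕ → ℝ} {Pot : ℝ → ℝ → ℝ} {u0 v0 : ℝ}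
    (h0 : ∀ u v, u0 ≤ u → u ≤ v → v ≤ v0 → 0 ≤ Pot u v)
    (h1 : ∀ u w v, u0 ≤ u → u ≤ w → w ≤ v → v ≤ v0 → Pot u w + Pot w v ≤ Pot u v) (n : ℕ) :
    ∀ F : Finset ℕ, F.card ≤ n → Lam F p a b q →
      (∀ i ∈ F, c i + Pot (p i) (a i) + Pot (b i) (q i) ≤ Pot (p i) (q i)) →
      ∀ u v, u0 ≤ u → u ≤ v → v ≤ v0 → (∀ i ∈ F, u ≤ p i ∧ q i ≤ v) → ∑ i ∈ F, c i ≤ Pot u v := by
  classical
  induction n with
  | zero =>
    intro F hF _ _ u v a1 a2 a3 _
    rw [Finset.card_eq_zero.1 (Nat.le_zero.1 hF), Finset.sum_empty]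
    exact h0 u v a1 a2 a3
  | succ n ih =>
    intro F hF hL hc u v a1 a2 a3 hin
    rcases F.eq_empty_or_nonempty with rfl | hne
    · rw [Finset.sum_empty]; exact h0 u v a1 a2 a3
    have hj := F.max'_mem hne
    have hlt : ∀ i ∈ F.erase (F.max' hne), i < F.max' hne := fun i hi =>
      lt_of_le_of_ne (F.le_max' i (Finset.mem_of_mem_erase hi)) (Finset.ne_of_mem_erase hi)
    generalize F.max' hne = j at hj hlt
    obtain ⟨o1, o2, o3⟩ := hL.1 j hj
    obtain ⟨o4, o5⟩ := hin j hj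
    have key : ∀ (F' : Finset ℕ) (u' v' : ℝ), F' ⊆ F.erase j → u0 ≤ u' → u' ≤ v' → v' ≤ v0 →
        (∀ i ∈ F', u' ≤ p i ∧ q i ≤ v') → ∑ i ∈ F', c i ≤ Pot u' v' := fun F' u' v' hs b1 b2 b3 b4 =>
      ih F' (by
        have := Finset.card_le_card hs
        rw [Finset.card_erase_of_mem hj] at this
        omega) (hL.sub (hs.trans (F.erase_subset j)))
        (fun i hi => hc i (Finset.mem_of_mem_erase (hs hi))) u' v' b1 b2 b3 b4
    have s4 : ∑ i ∈ F.erase j, c i ≤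
        Pot u (p j) + (Pot (q j) v + (Pot (p j) (a j) + Pot (b j) (q j))) := by
      refine sum_split _ c (fun i => q i ≤ p j) (key _ _ _ (Finset.filter_subset _ _) a1 o4
        (by linarith) fun i hi => ?_) (sum_split _ c (fun i => q j ≤ p i) (key _ _ _
          ((Finset.filter_subset _ _).trans (Finset.filter_subset _ _)) (by linarith) o5 a3
          fun i hi => ?_) (sum_split _ c (fun i => p j ≤ p i ∧ q i ≤ a j) (key _ _ _
          (((Finset.filter_subset _ _).trans (Finset.filter_subset _ _)).trans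
            (Finset.filter_subset _ _)) (by linarith) o1 (by linarith) fun i hi => ?_)
          (key _ _ _ (((Finset.filter_subset _ _).trans (Finset.filter_subset _ _)).trans
            (Finset.filter_subset _ _)) (by linarith) o3 (by linarith) fun i hi => ?_)))
      · rw [Finset.mem_filter] at hi
        exact ⟨(hin i (Finset.mem_of_mem_erase hi.1)).1, hi.2⟩
      · simp only [Finset.mem_filter] at hi
        exact ⟨hi.2, (hin i (Finset.mem_of_mem_erase hi.1.1)).2⟩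
      · simp only [Finset.mem_filter] at hi
        exact hi.2
      · simp only [Finset.mem_filter] at hi
        rcases hL.2 i (Finset.mem_of_mem_erase hi.1.1.1) j hj (hlt i hi.1.1.1) with h | h | h | h
        · exact absurd h hi.1.1.2
        · exact absurd h hi.1.2
        · exact absurd h hi.2
        · exact h
    rw [← Finset.add_sum_erase F c hj]
    linarith [hc j hj, h1 u (p j) v a1 o4 (by linarith) a3,
      h1 (p j) (q j) v (by linarith) (by linarith) o5 a3]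

theorem lam_top {p a b q c : ℕ → ℝ} {K : ℝ} (hK : 0 ≤ K) (n : ℕ) :
    ∀ F : Finset ℕ, F.card ≤ n → Lam F p a b q →
      (∀ j ∈ F, ∀ F' ⊆ F, (∀ i ∈ F', p j ≤ p i ∧ q i ≤ q j) → ∑ i ∈ F', c i ≤ K * (q j - p j)) →
      ∀ u v, u ≤ v → (∀ i ∈ F, u ≤ p i ∧ q i ≤ v) → ∑ i ∈ F, c i ≤ K * (v - u) := by
  classical
  induction n with
  | zero =>
    intro F hF _ _ u v a2 _
    rw [Finset.card_eq_zero.1 (Nat.le_zero.1 hF), Finset.sum_empty]
    exact mul_nonneg hK (sub_nonneg.2 a2)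
  | succ n ih =>
    intro F hF hL hc u v a2 hin
    rcases F.eq_empty_or_nonempty with rfl | hne
    · rw [Finset.sum_empty]; exact mul_nonneg hK (sub_nonneg.2 a2)
    have hj := F.max'_mem hne
    have hlt : ∀ i ∈ F, i ≠ F.max' hne → i < F.max' hne := fun i hi h =>
      lt_of_le_of_ne (F.le_max' i hi) h
    generalize F.max' hne = j at hj hlt
    obtain ⟨o1, o2, o3⟩ := hL.1 j hj
    obtain ⟨o4, o5⟩ := hin j hj
    have key : ∀ (F' : Finset ℕ) (u' v' : ℝ), F' ⊆ F → j ∉ F' → u' ≤ v' →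
        (∀ i ∈ F', u' ≤ p i ∧ q i ≤ v') → ∑ i ∈ F', c i ≤ K * (v' - u') :=
      fun F' u' v' hs hn b2 b4 => ih F' (by
        have := Finset.card_lt_card (Finset.ssubset_iff_subset_ne.2 ⟨hs, fun e => hn (e ▸ hj)⟩)
        omega) (hL.sub hs) (fun i hi F2 h2 => hc i (hs hi) F2 (h2.trans hs)) u' v' b2 b4
    have s3 : ∑ i ∈ F, c i ≤ K * (q j - p j) + (K * (p j - u) + K * (v - q j)) := by
      refine sum_split _ c (fun i => p j ≤ p i ∧ q i ≤ q j)
        (hc j hj _ (Finset.filter_subset _ _) fun i hi => (Finset.mem_filter.1 hi).2)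
        (sum_split _ c (fun i => q i ≤ p j) (key _ _ _
          ((Finset.filter_subset _ _).trans (Finset.filter_subset _ _)) (by simp) o4
          fun i hi => ?_) (key _ _ _
          ((Finset.filter_subset _ _).trans (Finset.filter_subset _ _)) (by simp) o5
          fun i hi => ?_))
      · simp only [Finset.mem_filter] at hi
        exact ⟨(hin i hi.1.1).1, hi.2⟩
      · simp only [Finset.mem_filter] at hi
        refine ⟨?_, (hin i hi.1.1).2⟩
        rcases hL.2 i hi.1.1 j hj (hlt i hi.1.1 fun e => hi.1.2 (by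
          rw [e]; exact ⟨le_rfl, le_rfl⟩)) with h | h | h | h
        · exact absurd h hi.2
        · exact h
        · exact absurd ⟨h.1, by linarith [h.2]⟩ hi.1.2
        · exact absurd ⟨by linarith [h.1], h.2⟩ hi.1.2
    linarith

/-- An energy attached to an interval. -/
noncomputable def En (Φ φ : ℝ → ℝ) (u v : ℝ) : ℝ :=
  ((φ v - (Φ v - Φ u) / (v - u)) ^ 2 + ((Φ v - Φ u) / (v - u) - φ u) ^ 2) / (v - u)

theorem En_nonneg (Φ φ : ℝ → ℝ) {u v : ℝ} (h : u ≤ v) : 0 ≤ En Φ φ u v :=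
  div_nonneg (by positivity) (sub_nonneg.2 h)

theorem En_self (Φ φ : ℝ → ℝ) (u : ℝ) : En Φ φ u u = 0 := by simp [En]

theorem En_split (Φ φ : ℝ → ℝ) {u w v : ℝ} (h1 : u < w) (h2 : w < v) :
    (φ w + (Φ v - Φ u) / (v - u) - (Φ w - Φ u) / (w - u) - (Φ v - Φ w) / (v - w)) ^ 2 *
      ((v - u) / ((w - u) * (v - w))) ≤ En Φ φ u w + En Φ φ w v - En Φ φ u v := by
  obtain ⟨x, rfl⟩ : ∃ x, w = u + x := ⟨w - u, by ring⟩
  obtain ⟨y, rfl⟩ : ∃ y, v = u + x + y := ⟨v - (u + x), by ring⟩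
  have x0 : 0 < x := by linarith
  have y0 : 0 < y := by linarith
  obtain ⟨s, hs⟩ : ∃ s, Φ (u + x) = Φ u + x * s := ⟨(Φ (u + x) - Φ u) / x, by field_simp; ring⟩
  obtain ⟨r, hr⟩ : ∃ r, Φ (u + x + y) = Φ (u + x) + y * r :=
    ⟨(Φ (u + x + y) - Φ (u + x)) / y, by field_simp; ring⟩
  unfold En
  rw [hr, hs]
  generalize φ u = f0
  generalize φ (u + x) = f1
  generalize φ (u + x + y) = f2
  generalize Φ u = z
  have e1 : u + x - u = x := by ring
  have e2 : u + x + y - (u + x) = y := by ring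
  have e3 : u + x + y - u = x + y := by ring
  have e4 : (z + x * s - z) / x = s := by field_simp; ring
  have e5 : (z + x * s + y * r - (z + x * s)) / y = r := by field_simp; ring
  have e6 : z + x * s + y * r - z = x * s + y * r := by ring
  rw [e1, e2, e3, e4, e5, e6]
  have key : ((f1 - s) ^ 2 + (s - f0) ^ 2) / x + ((f2 - r) ^ 2 + (r - f1) ^ 2) / y -
      ((f2 - (x * s + y * r) / (x + y)) ^ 2 + ((x * s + y * r) / (x + y) - f0) ^ 2) / (x + y) =
      (f1 + (x * s + y * r) / (x + y) - s - r) ^ 2 * ((x + y) / (x * y)) +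
        (y / (x * (x + y)) * (s - f0 - x * (r - s) / (x + y)) ^ 2 +
          x / (y * (x + y)) * (f2 - r - y * (r - s) / (x + y)) ^ 2) := by
    field_simp
    ring
  rw [key]
  exact le_add_of_nonneg_right (by positivity)

theorem En_sup (Φ φ : ℝ → ℝ) {u w v : ℝ} (h1 : u ≤ w) (h2 : w ≤ v) :
    En Φ φ u v ≤ En Φ φ u w + En Φ φ w v := by
  rcases h1.eq_or_lt with rfl | h1
  · rw [En_self, zero_add]
  rcases h2.eq_or_lt with rfl | h2
  · rw [En_self, add_zero]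
  have := En_split Φ φ h1 h2
  have p : 0 ≤ (v - u) / ((w - u) * (v - w)) :=
    div_nonneg (by linarith) (mul_nonneg (by linarith) (by linarith))
  linarith [mul_nonneg (sq_nonneg (φ w + (Φ v - Φ u) / (v - u) - (Φ w - Φ u) / (w - u) -
    (Φ v - Φ w) / (v - w))) p]

theorem slope_near {Φ φ : ℝ → ℝ} (hd : ∀ x, HasDerivAt Φ (φ x) x) {σ u0 v0 : ℝ} (hσ : 0 ≤ σ)
    (hl : ∀ x ∈ Icc u0 v0, ∀ y ∈ Icc u0 v0, |φ x - φ y| ≤ σ * |x - y|) {u w v : ℝ} (h0 : u0 ≤ u)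
    (h1 : u ≤ w) (h2 : w ≤ v) (h3 : v ≤ v0) (h : u < v) :
    |φ w - (Φ v - Φ u) / (v - u)| ≤ σ * (v - u) := by
  obtain ⟨ξ, hξ, e⟩ := exists_hasDerivAt_eq_slope Φ φ h
    (fun x _ => (hd x).continuousAt.continuousWithinAt) fun x _ => hd x
  rw [← e]
  refine (hl w ⟨by linarith, by linarith⟩ ξ ⟨by linarith [hξ.1], by linarith [hξ.2]⟩).trans
    (mul_le_mul_of_nonneg_left ?_ hσ)
  rw [abs_le]; constructor <;> linarith [hξ.1, hξ.2]

theorem En_le {Φ φ : ℝ → ℝ} (hd : ∀ x, HasDerivAt Φ (φ x) x) {σ u0 v0 : ℝ} (hσ : 0 ≤ σ)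
    (hl : ∀ x ∈ Icc u0 v0, ∀ y ∈ Icc u0 v0, |φ x - φ y| ≤ σ * |x - y|) {u v : ℝ} (h0 : u0 ≤ u)
    (h : u ≤ v) (h3 : v ≤ v0) : En Φ φ u v ≤ 2 * σ ^ 2 * (v - u) := by
  rcases h.eq_or_lt with rfl | h
  · rw [En_self, sub_self, mul_zero]
  have a := sq_le_sq' (abs_le.1 (slope_near hd hσ hl h0 h.le le_rfl h3 h)).1
    (abs_le.1 (slope_near hd hσ hl h0 h.le le_rfl h3 h)).2
  have b := sq_le_sq' (abs_le.1 (slope_near hd hσ hl h0 le_rfl h.le h3 h)).1
    (abs_le.1 (slope_near hd hσ hl h0 le_rfl h.le h3 h)).2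
  unfold En
  rw [div_le_iff₀ (sub_pos.2 h), ← neg_sq ((Φ v - Φ u) / (v - u) - φ u), neg_sub]
  linarith

theorem delta_le {Φ φ : ℝ → ℝ} (hd : ∀ x, HasDerivAt Φ (φ x) x) {σ u0 v0 : ℝ} (hσ : 0 ≤ σ)
    (hl : ∀ x ∈ Icc u0 v0, ∀ y ∈ Icc u0 v0, |φ x - φ y| ≤ σ * |x - y|) {p a b q θ : ℝ}
    (h0 : u0 ≤ p) (h1 : p < a) (h2 : a < b) (h3 : b < q) (h4 : q ≤ v0) (hθ : 0 < θ)
    (ht : b - a ≤ min (a - p) (q - b)) :
    (Φ b - Φ a) / (b - a) + (Φ q - Φ p) / (q - p) - (Φ a - Φ p) / (a - p) - (Φ q - Φ b) / (q - b) ≤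
      2 * θ * min (a - p) (q - b) +
        (En Φ φ p a + En Φ φ a q - En Φ φ p q) / (4 * θ) + 3 * σ * (b - a) := by
  have e1 := abs_le.1 (slope_near hd hσ hl (by linarith) le_rfl h2.le (by linarith) h2)
  have e2 := abs_le.1 (slope_near hd hσ hl (by linarith) h2.le le_rfl (by linarith) h2)
  have e3 := abs_le.1 (slope_near hd hσ hl (by linarith) le_rfl h3.le h4 h3)
  have e4 : (Φ q - Φ a) / (q - a) - (Φ q - Φ b) / (q - b) ≤ σ * (b - a) := by
    have e5 : (Φ q - Φ a) / (q - a) - (Φ q - Φ b) / (q - b) =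
        ((Φ b - Φ a) / (b - a) - (Φ q - Φ b) / (q - b)) * (b - a) / (q - a) := by
      have n1 := (sub_pos.2 h2).ne'
      have n2 := (sub_pos.2 h3).ne'
      have n3 := (sub_pos.2 (h2.trans h3)).ne'
      field_simp
      ring
    rw [e5, div_le_iff₀ (by linarith)]
    nlinarith [mul_le_mul_of_nonneg_right (show (Φ b - Φ a) / (b - a) - (Φ q - Φ b) / (q - b) ≤
      σ * (q - a) by linarith [e2.1, e3.2]) (sub_pos.2 h2).le]
  have e6 := En_split Φ φ h1 (h2.trans h3)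
  generalize En Φ φ p a + En Φ φ a q - En Φ φ p q = W at e6 ⊢
  have k0 : 0 < (a - p) * (q - a) / (q - p) :=
    div_pos (mul_pos (by linarith) (by linarith)) (by linarith)
  have k1 : (a - p) * (q - a) / (q - p) ≤ 2 * min (a - p) (q - b) := by
    rw [div_le_iff₀ (by linarith)]
    rcases min_cases (a - p) (q - b) with ⟨e, _⟩ | ⟨e, _⟩ <;> rw [e] at ht ⊢ <;> nlinarith
  rw [← one_div_div ((a - p) * (q - a)) (q - p), mul_one_div, div_le_iff₀ k0] at e6
  generalize (a - p) * (q - a) / (q - p) = κ at e6 k0 k1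
  have e7 : φ a + (Φ q - Φ p) / (q - p) - (Φ a - Φ p) / (a - p) - (Φ q - Φ a) / (q - a) ≤
      θ * κ + W / (4 * θ) := by
    generalize φ a + (Φ q - Φ p) / (q - p) - (Φ a - Φ p) / (a - p) - (Φ q - Φ a) / (q - a) = d
      at e6 ⊢
    rw [← sub_le_iff_le_add', le_div_iff₀ (by positivity)]
    refine le_of_mul_le_mul_right ?_ k0
    nlinarith [sq_nonneg (d - 2 * θ * κ)]
  nlinarith [mul_le_mul_of_nonneg_left k1 hθ.le, mul_nonneg hσ (sub_pos.2 h2).le, e1.1]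

variable {G : Type} [Group G] [MulAction G ℝ] [SmoothAct G]

theorem xr_le {g : G} {C : ℝ} (hC : 1 ≤ C) (c1 : ∀ x, D g x ≤ C ∧ D g⁻¹ x ≤ C)
    (c2 : ∀ x, |DD g x| ≤ C) {p a b q X : ℝ} (h1 : p < a) (h2 : a < b) (h3 : b < q)
    (ht : b - a ≤ min (a - p) (q - b)) (hX : 0 ≤ X)
    (hΔ : (g • b - g • a) / (b - a) + (g • q - g • p) / (q - p) - (g • a - g • p) / (a - p) -
      (g • q - g • b) / (q - b) ≤ X) :
    Xr g a q p b ≤ C ^ 3 * X + 4 * C ^ 4 * ((a - p) * (q - b)) := by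
  have sl : ∀ u v : ℝ, u < v → ∃ ξ ∈ Icc u v, (g • v - g • u) / (v - u) = D g ξ := fun u v h => by
    obtain ⟨ξ, hξ, e⟩ := mvt g u v
    rw [uIcc_of_le h.le] at hξ
    exact ⟨ξ, hξ, by rw [e, mul_div_cancel_right₀ _ (sub_pos.2 h).ne']⟩
  have lip : ∀ x y : ℝ, |D g x - D g y| ≤ C * |x - y| := fun x y => by
    obtain ⟨u, -, e⟩ := mvtD g y x
    rw [e, abs_mul]
    exact mul_le_mul_of_nonneg_right (c2 u) (abs_nonneg _)
  have low : ∀ x, 1 ≤ C * D g x := fun x => by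
    rw [← D_inv_mul g x]
    exact mul_le_mul_of_nonneg_right (c1 _).2 (D_pos g x).le
  have e0 := Real.add_one_le_exp (Xr g a q p b)
  rw [exp_Xr, sl_symm g q p, sl_symm g a p, sl_symm g q b, sl_ne g h2.ne', sl_ne g h1.ne',
    sl_ne g h3.ne', sl_ne g (h1.trans (h2.trans h3)).ne'] at e0
  obtain ⟨x1, m1, e1⟩ := sl a b h2
  obtain ⟨x2, m2, e2⟩ := sl p a h1
  obtain ⟨x3, m3, e3⟩ := sl b q h3
  rw [e1, e2, e3] at e0 hΔ
  have t1 := ht.trans (min_le_left _ _)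
  have t2 := ht.trans (min_le_right _ _)
  have d1 : |D g x1 - D g x2| ≤ C * (2 * (a - p)) := (lip _ _).trans
    (mul_le_mul_of_nonneg_left (by rw [abs_le]; constructor <;>
      linarith [m1.1, m1.2, m2.1, m2.2]) (by linarith))
  have d2 : |D g x1 - D g x3| ≤ C * (2 * (q - b)) := (lip _ _).trans
    (mul_le_mul_of_nonneg_left (by rw [abs_le]; constructor <;>
      linarith [m1.1, m1.2, m3.1, m3.2]) (by linarith))
  have d3 : -((D g x1 - D g x2) * (D g x1 - D g x3)) ≤ C * (2 * (a - p)) * (C * (2 * (q - b))) := by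
    refine (neg_le_abs _).trans ?_
    rw [abs_mul]
    exact mul_le_mul d1 d2 (abs_nonneg _) (by positivity)
  have p1 := D_pos g x1
  have p2 := D_pos g x2
  have p3 := D_pos g x3
  have l2 := low x2
  have l3 := low x3
  have u1 := (c1 x1).1
  generalize D g x1 = J at *
  generalize D g x2 = L at *
  generalize D g x3 = R at *
  generalize (g • q - g • p) / (q - p) = T at *
  have w0 : 0 ≤ (a - p) * (q - b) := mul_nonneg (by linarith) (by linarith)
  have w1 : 1 ≤ C ^ 2 * (L * R) := by nlinarith [mul_le_mul l2 l3 zero_le_one (by positivity)]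
  have w2 : J * T - L * R ≤ C * X + 4 * C ^ 2 * ((a - p) * (q - b)) := by
    nlinarith [mul_le_mul_of_nonneg_left hΔ p1.le, mul_le_mul_of_nonneg_right u1 hX]
  have w3 : J * T / (L * R) ≤ 1 + (C ^ 3 * X + 4 * C ^ 4 * ((a - p) * (q - b))) := by
    rw [div_le_iff₀ (mul_pos p2 p3)]
    nlinarith [mul_le_mul_of_nonneg_left w1
      (show 0 ≤ C * X + 4 * C ^ 2 * ((a - p) * (q - b)) by positivity)]
  linarith

theorem one_gen {g : G} {C σ ρ θ : ℝ} (hC : 1 ≤ C) (c1 : ∀ x, D g x ≤ C ∧ D g⁻¹ x ≤ C)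
    (c2 : ∀ x, |DD g x| ≤ C) (hσ : 0 ≤ σ) (hρ : 0 ≤ ρ) (hθ : 0 < θ)
    (c3 : ∀ x y, |x - y| ≤ ρ → |DD g x - DD g y| ≤ σ) {F : Finset ℕ} {p a b q : ℕ → ℝ}
    (hL : Lam F p a b q) (hF : ∀ i ∈ F, p i < a i ∧ a i < b i ∧ b i < q i ∧ q i - p i ≤ ρ ∧
      b i - a i ≤ min (a i - p i) (q i - b i) ∧ 0 ≤ p i ∧ q i ≤ 2) :
    ∑ i ∈ F, (Xr g (a i) (q i) (p i) (b i) - θ * min (a i - p i) (q i - b i)) ≤
      (C ^ 6 * σ ^ 2 / θ + 3 * C ^ 3 * σ + 2 * C ^ 4 * ρ) * (2 - 0) := by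
  have C0 : 0 < C := by linarith
  refine lam_top (by positivity) _ F le_rfl hL (fun j hj F' hs hin => ?_) 0 2 (by norm_num)
    fun i hi => (hF i hi).2.2.2.2.2
  obtain ⟨j1, j2, j3, j4, -⟩ := hF j hj
  obtain ⟨Φ, hΦ⟩ : ∃ Φ : ℝ → ℝ, Φ = fun x => g • x - DD g (p j) * (x * x / 2) := ⟨_, rfl⟩
  obtain ⟨φ, hφ⟩ : ∃ φ : ℝ → ℝ, φ = fun x => D g x - DD g (p j) * x := ⟨_, rfl⟩
  have hd : ∀ x, HasDerivAt Φ (φ x) x := fun x => by
    rw [hΦ, hφ]
    exact ((hasD g x).fun_sub ((((hasDerivAt_id' x).fun_mul (hasDerivAt_id' x)).div_const 2).const_mul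
      (DD g (p j)))).congr_deriv (by ring)
  have hl : ∀ x ∈ Icc (p j) (q j), ∀ y ∈ Icc (p j) (q j), |φ x - φ y| ≤ σ * |x - y| := by
    intro x hx y hy
    obtain ⟨u, hu, e⟩ := mvtD g y x
    have e' : φ x - φ y = (DD g u - DD g (p j)) * (x - y) := by rw [hφ]; linarith
    rw [e', abs_mul]
    refine mul_le_mul_of_nonneg_right (c3 _ _ ?_) (abs_nonneg _)
    rw [abs_le]
    rcases mem_uIcc.1 hu with h | h <;> constructor <;> linarith [h.1, h.2, hx.1, hx.2, hy.1, hy.2]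
  have k0 : 0 < C ^ 6 / (2 * θ) := by positivity
  have := lam_ind (p := p) (a := a) (b := b) (q := q)
    (c := fun i => Xr g (a i) (q i) (p i) (b i) - θ * min (a i - p i) (q i - b i))
    (Pot := fun u v => C ^ 6 / (2 * θ) * (2 * σ ^ 2 * (v - u) - En Φ φ u v) +
      3 * C ^ 3 * σ * (v - u) + 2 * C ^ 4 * (v - u) ^ 2) (u0 := p j) (v0 := q j)
    (fun u v a1 a2 a3 => by
      have := En_le hd hσ hl a1 a2 a3
      have := sub_nonneg.2 a2
      have := mul_nonneg k0.le (show 0 ≤ 2 * σ ^ 2 * (v - u) - En Φ φ u v by linarith)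
      positivity)
    (fun u w v a1 a2 a3 a4 => by
      have b1 := mul_le_mul_of_nonneg_left (En_sup Φ φ a2 a3) k0.le
      have b2 := mul_nonneg (show 0 ≤ 4 * C ^ 4 by positivity)
        (mul_nonneg (sub_nonneg.2 a2) (sub_nonneg.2 a3))
      nlinarith) _ F' le_rfl (hL.sub hs) (fun i hi => by
      obtain ⟨i1, i2, i3, -, i5, -⟩ := hF i (hs hi)
      obtain ⟨i6, i7⟩ := hin i hi
      have b1 := delta_le hd hσ hl i6 i1 i2 i3 i7 (θ := θ / (2 * C ^ 3)) (by positivity) i5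
      have b2 := En_sup Φ φ i1.le (i2.trans i3).le
      have b3 := En_sup Φ φ i2.le i3.le
      have b4 := En_le hd hσ hl (i6.trans i1.le) i2.le (i3.le.trans i7)
      have m0 : 0 ≤ min (a i - p i) (q i - b i) := le_min (by linarith) (by linarith)
      have l0 : 0 ≤ b i - a i := by linarith
      have w0 : 0 ≤ En Φ φ (p i) (a i) + En Φ φ (a i) (q i) - En Φ φ (p i) (q i) := by linarith
      have sq : ∀ u v : ℝ, u < v → (Φ v - Φ u) / (v - u) =
          (g • v - g • u) / (v - u) - DD g (p j) * ((u + v) / 2) := fun u v h => by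
        have := (sub_pos.2 h).ne'
        rw [hΦ]
        field_simp
        ring
      rw [sq _ _ i1, sq _ _ i2, sq _ _ i3, sq _ _ (i1.trans (i2.trans i3))] at b1
      have b5 := xr_le hC c1 c2 i1 i2 i3 i5 (X := 2 * (θ / (2 * C ^ 3)) * min (a i - p i) (q i - b i) +
        (En Φ φ (p i) (a i) + En Φ φ (a i) (q i) - En Φ φ (p i) (q i)) / (4 * (θ / (2 * C ^ 3))) +
        3 * σ * (b i - a i)) (by positivity) (by linarith)
      have b6 : C ^ 3 * (2 * (θ / (2 * C ^ 3)) * min (a i - p i) (q i - b i) +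
          (En Φ φ (p i) (a i) + En Φ φ (a i) (q i) - En Φ φ (p i) (q i)) / (4 * (θ / (2 * C ^ 3))) +
          3 * σ * (b i - a i)) = θ * min (a i - p i) (q i - b i) + C ^ 6 / (2 * θ) *
          (En Φ φ (p i) (a i) + En Φ φ (a i) (q i) - En Φ φ (p i) (q i)) +
          3 * C ^ 3 * σ * (b i - a i) := by
        field_simp
        ring
      rw [b6] at b5
      have b7 := mul_le_mul_of_nonneg_left (b3.trans (add_le_add b4 le_rfl)) k0.le
      have b8 := mul_nonneg (show 0 ≤ 2 * C ^ 4 by positivity) (mul_nonneg l0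
        (show 0 ≤ 2 * (a i - p i) + 2 * (q i - b i) + (b i - a i) by linarith))
      nlinarith) (p j) (q j) le_rfl (by linarith) le_rfl hin
  refine this.trans ?_
  have b1 := mul_nonneg k0.le (En_nonneg Φ φ (show p j ≤ q j by linarith))
  have b2 := mul_le_mul_of_nonneg_left j4
    (show 0 ≤ 2 * C ^ 4 * (q j - p j) from mul_nonneg (by positivity) (by linarith))
  have b3 : C ^ 6 / (2 * θ) * (2 * σ ^ 2 * (q j - p j)) = C ^ 6 * σ ^ 2 / θ * (q j - p j) := by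
    field_simp
  nlinarith

theorem Xr_int (g : G) (p p' t1 t2 : ℝ) (m : ℤ) :
    Xr g (p + m) (p' + m) (t1 + m) (t2 + m) = Xr g p p' t1 t2 := by
  have : ∀ u v : ℝ, Fl g (u + m) (v + m) = Fl g u v := fun u v => by
    unfold Fl
    by_cases h : v = u
    · rw [h, sl_same, sl_same, D_int]
    · rw [sl_ne g h, sl_ne g (fun e => h (add_right_cancel e)), act_int, act_int,
        add_sub_add_right_eq_sub, add_sub_add_right_eq_sub]
  simp only [Xr, this]

theorem DD_unif (g : G) {σ : ℝ} (hσ : 0 < σ) :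
    ∃ ρ > 0, ∀ x y, |x - y| ≤ ρ → |DD g x - DD g y| ≤ σ := by
  obtain ⟨ρ, ρ0, h⟩ := Metric.uniformContinuousOn_iff.1
    ((isCompact_Icc (a := (-1 : ℝ)) (b := 2)).uniformContinuousOn_of_continuous
      (cont_DD g).continuousOn) σ hσ
  refine ⟨min (ρ / 2) 1, lt_min (by linarith) one_pos, fun x y hxy => ?_⟩
  have a1 := abs_le.1 (hxy.trans (min_le_right _ _))
  have a2 := hxy.trans (min_le_left _ _)
  have f1 := Int.floor_le y
  have f2 := Int.lt_floor_add_one y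
  have := h (x + (-⌊y⌋ : ℤ)) ⟨by push_cast; linarith [a1.1], by push_cast; linarith [a1.2]⟩
    (y + (-⌊y⌋ : ℤ)) ⟨by push_cast; linarith, by push_cast; linarith⟩
    (by rw [Real.dist_eq, add_sub_add_right_eq_sub]; linarith)
  rw [DD_int, DD_int, Real.dist_eq] at this
  exact this.le

end C2L

variable {G : Type} [Group G] [MulAction G ℝ] [SmoothAct G]

/-- The square root bound. -/
theorem l2_bound (S : Finset G) {σ1 : ℝ} (hσ : 0 < σ1) : ∃ ρ0 > 0,
    ∀ (I : Finset ℕ) (p a b q : ℕ → ℝ) (s : ℕ → G),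
      (∀ i ∈ I, s i ∈ S ∧ p i < a i ∧ a i < b i ∧ b i < q i ∧ q i - p i ≤ ρ0 ∧
        b i - a i ≤ min (a i - p i) (q i - b i)) →
      (∀ i ∈ I, ∀ j ∈ I, i < j → ∀ m : ℤ, q i + m ≤ p j ∨ q j ≤ p i + m ∨
        (p j ≤ p i + m ∧ q i + m ≤ a j) ∨ (b j ≤ p i + m ∧ q i + m ≤ q j)) →
      ∀ θ > 0, ∑ i ∈ I, Xr (s i) (a i) (q i) (p i) (b i) ≤
        θ * ∑ i ∈ I, min (a i - p i) (q i - b i) + σ1 / θ + 1 := by
  classical
  obtain ⟨C1, hC1, hS⟩ := finite_bounds (S : Set G) S.finite_toSet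
  obtain ⟨C2, hC2⟩ := fin_max (S : Set G) S.finite_toSet (P := fun g (C : ℝ) => ∀ x, |DD g x| ≤ C)
    (fun g a b h h' x => (h' x).trans h) fun g _ => by
      obtain ⟨C, -, h⟩ := per_bdd _ (cont_DD g) (DD_int g)
      exact ⟨C, h⟩
  obtain ⟨C, hC, k1, k2⟩ : ∃ C : ℝ, 1 ≤ C ∧ C1 ≤ C ∧ C2 ≤ C :=
    ⟨max C1 C2, hC1.trans (le_max_left _ _), le_max_left _ _, le_max_right _ _⟩
  have C0 : 0 < C := by linarith
  obtain ⟨N, hN, N0⟩ : ∃ N : ℝ, (S.card : ℝ) ≤ N ∧ 0 < N :=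
    ⟨S.card + 1, by linarith, by positivity⟩
  obtain ⟨σ, σ0, σ1', σ2, σ3⟩ : ∃ σ : ℝ, 0 < σ ∧ σ ≤ 1 ∧ σ ≤ σ1 / (2 * N * C ^ 6) ∧
      σ ≤ 1 / (12 * N * C ^ 3) :=
    ⟨min 1 (min (σ1 / (2 * N * C ^ 6)) (1 / (12 * N * C ^ 3))), by positivity, min_le_left _ _,
      (min_le_right _ _).trans (min_le_left _ _), (min_le_right _ _).trans (min_le_right _ _)⟩
  obtain ⟨ρ1, ρ0, hρ⟩ := fin_min (S : Set G) S.finite_toSet
    (P := fun g ρ => ∀ x y, |x - y| ≤ ρ → |DD g x - DD g y| ≤ σ)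
    (fun g a b _ h h' x y e => h' x y (e.trans h)) fun g _ => C2L.DD_unif g σ0
  obtain ⟨ρ, r0, r1, r2, r3⟩ : ∃ ρ : ℝ, 0 < ρ ∧ ρ ≤ 1 ∧ ρ ≤ ρ1 ∧ ρ ≤ 1 / (8 * N * C ^ 4) :=
    ⟨min 1 (min ρ1 (1 / (8 * N * C ^ 4))), by positivity, min_le_left _ _,
      (min_le_right _ _).trans (min_le_left _ _), (min_le_right _ _).trans (min_le_right _ _)⟩
  refine ⟨ρ, r0, fun I p a b q s h1 h2 θ hθ => ?_⟩
  have key : ∀ g ∈ S, ∑ i ∈ I with s i = g, (Xr (s i) (a i) (q i) (p i) (b i) -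
      θ * min (a i - p i) (q i - b i)) ≤
      (C ^ 6 * σ ^ 2 / θ + 3 * C ^ 3 * σ + 2 * C ^ 4 * ρ) * (2 - 0) := by
    intro g hg
    refine le_trans (le_of_eq (Finset.sum_congr rfl fun i hi => ?_)) (C2L.one_gen (g := g) hC
      (fun x => ⟨((hS g hg).2 x).1.trans k1, ((hS g hg).2 x).2.trans k1⟩)
      (fun x => (hC2 g hg x).trans k2) σ0.le r0.le hθ (fun x y e => hρ g hg x y (e.trans r2))
      (p := fun i => p i + (-⌊p i⌋ : ℤ)) (a := fun i => a i + (-⌊p i⌋ : ℤ))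
      (b := fun i => b i + (-⌊p i⌋ : ℤ)) (q := fun i => q i + (-⌊p i⌋ : ℤ))
      ⟨fun i hi => ?_, fun i hi j hj hij => ?_⟩ fun i hi => ?_)
    · rw [C2L.Xr_int, (Finset.mem_filter.1 hi).2, add_sub_add_right_eq_sub,
        add_sub_add_right_eq_sub]
    · obtain ⟨-, i1, i2, i3, -⟩ := h1 i (Finset.mem_filter.1 hi).1
      exact ⟨by linarith, by linarith, by linarith⟩
    · have := h2 i (Finset.mem_filter.1 hi).1 j (Finset.mem_filter.1 hj).1 hij (⌊p j⌋ - ⌊p i⌋)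
      push_cast at this ⊢
      rcases this with h | h | h | h
      · left; linarith
      · right; left; linarith
      · right; right; left; constructor <;> linarith [h.1, h.2]
      · right; right; right; constructor <;> linarith [h.1, h.2]
    · obtain ⟨-, i1, i2, i3, i4, i5⟩ := h1 i (Finset.mem_filter.1 hi).1
      have f1 := Int.floor_le (p i)
      have f2 := Int.lt_floor_add_one (p i)
      simp only [add_sub_add_right_eq_sub, add_lt_add_iff_right]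
      push_cast
      exact ⟨i1, i2, i3, i4, i5, by linarith, by linarith⟩
  have e1 := Finset.sum_le_card_nsmul S _ _ key
  rw [Finset.sum_fiberwise_of_maps_to fun i hi => (h1 i hi).1, Finset.sum_sub_distrib,
    ← Finset.mul_sum, nsmul_eq_mul] at e1
  have e2 := mul_le_mul_of_nonneg_right hN
    (show 0 ≤ (C ^ 6 * σ ^ 2 / θ + 3 * C ^ 3 * σ + 2 * C ^ 4 * ρ) * (2 - 0) by positivity)
  rw [le_div_iff₀ (by positivity)] at σ2 σ3 r3
  have e3 : 2 * N * (C ^ 6 * σ ^ 2 / θ) ≤ σ1 / θ := by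
    rw [← mul_div_assoc]
    refine div_le_div_of_nonneg_right ?_ hθ.le
    nlinarith [mul_le_mul_of_nonneg_left σ1' (show 0 ≤ σ * (2 * N * C ^ 6) by positivity)]
  nlinarith

end Pool.Agent.Lib.MP_173a7e_an
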