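import Pool.Agent.Lib.MP_173a7e_an.Defs

/-! Calculus for smooth actions on the line commuting with the unit translation. -/

set_option autoImplicit false

namespace Pool.Agent.Lib.MP_173a7e_an

open Set Filter Topology

/-- Action by increasing `C²` diffeomorphisms commuting with `x ↦ x + 1`. -/
class SmoothAct (G : Type) [Group G] [MulAction G ℝ] : Prop where
  smooth : ∀ g : G, ContDiff ℝ 2 (fun x : ℝ => g • x)
  pos : ∀ (g : G) (x : ℝ), 0 < deriv (fun y : ℝ => g • y) x
  per : ∀ (g : G) (x : ℝ), g • (x + 1) = g • x + 1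

variable {G : Type} [Group G] [MulAction G ℝ]

/-- The derivative. -/
noncomputable def D (g : G) (x : ℝ) : ℝ := deriv (fun y : ℝ => g • y) x

/-- The logarithm of the derivative. -/
noncomputable def lg (g : G) (x : ℝ) : ℝ := Real.log (D g x)

/-- `lg h` is `K`-Lipschitz on the ball of radius `r` about `z`. -/
def Lip (r K z : ℝ) (h : G) : Prop :=
  ∀ u v, |u - z| ≤ r → |v - z| ≤ r → |lg h u - lg h v| ≤ K * |u - v|

/-- Bounded distortion at scale `1 / K`. -/
def Good (K z : ℝ) (h : G) : Prop := 1 ≤ K ∧ Lip (1 / K) K z h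

/-- Global Lipschitz bound. -/
def GLip (L : ℝ) (h : G) : Prop := ∀ u v, |lg h u - lg h v| ≤ L * |u - v|

theorem D_one (x : ℝ) : D (1 : G) x = 1 := by
  unfold D; simp

theorem lg_one (x : ℝ) : lg (1 : G) x = 0 := by
  unfold lg; rw [D_one]; simp

variable [SmoothAct G]

theorem diffAt (g : G) (x : ℝ) : DifferentiableAt ℝ (fun y : ℝ => g • y) x :=
  ((SmoothAct.smooth g).differentiable (by norm_num)) x

theorem hasD (g : G) (x : ℝ) : HasDerivAt (fun y : ℝ => g • y) (D g x) x :=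
  (diffAt g x).hasDerivAt

theorem D_pos (g : G) (x : ℝ) : 0 < D g x := SmoothAct.pos g x

theorem cont_smul (g : G) : Continuous (fun y : ℝ => g • y) := (SmoothAct.smooth g).continuous

theorem contDiff_D (g : G) : ContDiff ℝ 1 (D g) := by
  have h : ContDiff ℝ (1 + 1) (fun x : ℝ => g • x) := by
    have := SmoothAct.smooth g
    norm_num at this ⊢
    exact this
  exact (contDiff_succ_iff_deriv.1 h).2.2

theorem cont_D (g : G) : Continuous (D g) := (contDiff_D g).continuous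

theorem contDiff_lg (g : G) : ContDiff ℝ 1 (lg g) :=
  (contDiff_D g).log (fun x => (D_pos g x).ne')

theorem cont_lg (g : G) : Continuous (lg g) := (contDiff_lg g).continuous

theorem D_mul (g h : G) (x : ℝ) : D (g * h) x = D g (h • x) * D h x := by
  have h1 : HasDerivAt (fun y : ℝ => (g * h) • y) (D g (h • x) * D h x) x := by
    have := (hasD g (h • x)).comp x (hasD h x)
    simpa [Function.comp_def, mul_smul] using this
  exact h1.deriv

theorem D_inv_mul (g : G) (x : ℝ) : D g⁻¹ (g • x) * D g x = 1 := by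
  rw [← D_mul]; simp [D_one]

theorem D_inv (g : G) (x : ℝ) : D g⁻¹ (g • x) = (D g x)⁻¹ :=
  eq_inv_of_mul_eq_one_left (D_inv_mul g x)

theorem exp_lg (g : G) (x : ℝ) : Real.exp (lg g x) = D g x := Real.exp_log (D_pos g x)

theorem lg_mul (g h : G) (x : ℝ) : lg (g * h) x = lg g (h • x) + lg h x := by
  unfold lg; rw [D_mul, Real.log_mul (D_pos _ _).ne' (D_pos _ _).ne']

theorem lg_inv (g : G) (x : ℝ) : lg g⁻¹ (g • x) = - lg g x := by
  unfold lg; rw [D_inv, Real.log_inv]

theorem lg_inv' (g : G) (x : ℝ) : lg g⁻¹ x = - lg g (g⁻¹ • x) := by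
  rw [← lg_inv, smul_inv_smul]

theorem smul_strictMono (g : G) : StrictMono (fun y : ℝ => g • y) :=
  strictMono_of_deriv_pos (SmoothAct.pos g)

theorem act_lt (g : G) {x y : ℝ} : g • x < g • y ↔ x < y := (smul_strictMono g).lt_iff_lt

theorem act_le (g : G) {x y : ℝ} : g • x ≤ g • y ↔ x ≤ y := (smul_strictMono g).le_iff_le

theorem act_nat (g : G) (x : ℝ) (n : ℕ) : g • (x + n) = g • x + n := by
  induction n with
  | zero => simp
  | succ n ih => push_cast; rw [← add_assoc, SmoothAct.per, ih]; ring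

theorem act_int (g : G) (x : ℝ) (n : ℤ) : g • (x + n) = g • x + n := by
  obtain ⟨m, rfl | rfl⟩ := Int.eq_nat_or_neg n
  · simpa using act_nat g x m
  · have := act_nat g (x + ((-(m : ℤ) : ℤ) : ℝ)) m
    simp at this ⊢
    linarith

theorem act_sub_int (g : G) (x : ℝ) (n : ℤ) : g • (x - n) = g • x - n := by
  have := act_int g x (-n)
  push_cast at this
  simpa [sub_eq_add_neg] using this

theorem D_int (g : G) (x : ℝ) (n : ℤ) : D g (x + n) = D g x := by
  have h1 : HasDerivAt (fun y : ℝ => g • (y + n)) (D g (x + n) * 1) x :=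
    (hasD g (x + n)).comp x ((hasDerivAt_id x).add_const _)
  have h2 : HasDerivAt (fun y : ℝ => g • (y + n)) (D g x) x := by
    simp only [act_int]
    exact (hasD g x).add_const _
  have := h1.unique h2
  simpa using this

theorem lg_int (g : G) (x : ℝ) (n : ℤ) : lg g (x + n) = lg g x := by
  unfold lg; rw [D_int]

theorem mvt (g : G) (a b : ℝ) : ∃ u ∈ uIcc a b, g • b - g • a = D g u * (b - a) := by
  rcases lt_trichotomy a b with h | h | h
  · obtain ⟨c, hc, hc'⟩ := exists_hasDerivAt_eq_slope (fun y : ℝ => g • y) (D g) h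
      (cont_smul g).continuousOn (fun x _ => hasD g x)
    refine ⟨c, ?_, ?_⟩
    · rw [uIcc_of_le h.le]; exact Ioo_subset_Icc_self hc
    · rw [hc']; field_simp [(sub_pos.2 h).ne']
  · subst h; exact ⟨a, left_mem_uIcc, by simp⟩
  · obtain ⟨c, hc, hc'⟩ := exists_hasDerivAt_eq_slope (fun y : ℝ => g • y) (D g) h
      (cont_smul g).continuousOn (fun x _ => hasD g x)
    refine ⟨c, ?_, ?_⟩
    · rw [uIcc_of_ge h.le]; exact Ioo_subset_Icc_self hc
    · rw [hc']; field_simp [(sub_pos.2 h).ne']; ring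

theorem mvt_abs (g : G) (a b : ℝ) : ∃ u ∈ uIcc a b, |g • b - g • a| = D g u * |b - a| := by
  obtain ⟨u, hu, h⟩ := mvt g a b
  exact ⟨u, hu, by rw [h, abs_mul, abs_of_pos (D_pos g u)]⟩

theorem act_uIcc (g : G) {a b u : ℝ} : g • u ∈ uIcc (g • a) (g • b) ↔ u ∈ uIcc a b := by
  simp only [mem_uIcc, act_le]

theorem per_bdd (f : ℝ → ℝ) (hf : Continuous f) (hp : ∀ x (n : ℤ), f (x + n) = f x) :
    ∃ C, 0 ≤ C ∧ ∀ x, |f x| ≤ C := by
  obtain ⟨C, hC⟩ := (isCompact_Icc (a := (0 : ℝ)) (b := 1)).exists_bound_of_continuousOn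
    hf.continuousOn
  refine ⟨max C 0, le_max_right _ _, fun x => ?_⟩
  have h := hC (Int.fract x) ⟨Int.fract_nonneg x, (Int.fract_lt_one x).le⟩
  have h2 := hp (Int.fract x) ⌊x⌋
  rw [Int.fract_add_floor] at h2
  rw [h2]
  exact le_trans h (le_max_left _ _)

theorem lg_bdd (g : G) : ∃ C, 0 ≤ C ∧ ∀ x, |lg g x| ≤ C := per_bdd _ (cont_lg g) (lg_int g)

theorem D_bdd (g : G) : ∃ C, 0 ≤ C ∧ ∀ x, D g x ≤ C := by
  obtain ⟨C, h0, hC⟩ := per_bdd _ (cont_D g) (D_int g)
  exact ⟨C, h0, fun x => le_trans (le_abs_self _) (hC x)⟩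

theorem exists_gLip (g : G) : ∃ L, 0 ≤ L ∧ GLip L g := by
  have hd : Differentiable ℝ (lg g) := (contDiff_lg g).differentiable (by norm_num)
  have hc : Continuous (deriv (lg g)) := (contDiff_lg g).continuous_deriv le_rfl
  have hp : ∀ x (n : ℤ), deriv (lg g) (x + n) = deriv (lg g) x := by
    intro x n
    have : (fun y => lg g (y + n)) = lg g := funext fun y => lg_int g y n
    rw [← deriv_comp_add_const (lg g) (n : ℝ) x, this]
  obtain ⟨C, h0, hC⟩ := per_bdd _ hc hp
  refine ⟨C, h0, fun u v => ?_⟩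
  have := Convex.norm_image_sub_le_of_norm_deriv_le (s := univ) (f := lg g) (C := C)
    (fun x _ => hd x) (fun x _ => hC x) convex_univ (mem_univ v) (mem_univ u)
  simpa [Real.norm_eq_abs] using this

omit [SmoothAct G] in
theorem GLip.mono {L L' : ℝ} {g : G} (h : GLip L g) (hL : L ≤ L') : GLip L' g :=
  fun u v => le_trans (h u v) (mul_le_mul_of_nonneg_right hL (abs_nonneg _))

omit [SmoothAct G] in
theorem GLip.good {L : ℝ} {g : G} (h : GLip L g) (hL : 1 ≤ L) (z : ℝ) : Good L z g :=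
  ⟨hL, fun u v _ _ => h u v⟩

/-- Uniform bounds for a finite set of elements. -/
theorem finite_bounds (T : Set G) (hT : T.Finite) :
    ∃ L, 1 ≤ L ∧ ∀ g ∈ T, GLip L g ∧ ∀ x, D g x ≤ L ∧ D g⁻¹ x ≤ L := by
  induction T, hT using Set.Finite.induction_on with
  | empty => exact ⟨1, le_rfl, by simp⟩
  | @insert a s _ _ ih =>
    obtain ⟨L, h1, hL⟩ := ih
    obtain ⟨L1, -, hL1⟩ := exists_gLip a
    obtain ⟨C1, -, hC1⟩ := D_bdd a
    obtain ⟨C2, -, hC2⟩ := D_bdd a⁻¹
    refine ⟨max L (max L1 (max C1 C2)), le_trans h1 (le_max_left _ _), ?_⟩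
    rintro g (rfl | hg)
    · refine ⟨hL1.mono (by simp), fun x => ⟨le_trans (hC1 x) (by simp), le_trans (hC2 x) (by simp)⟩⟩
    · exact ⟨(hL g hg).1.mono (by simp), fun x => ⟨le_trans ((hL g hg).2 x).1 (by simp),
        le_trans ((hL g hg).2 x).2 (by simp)⟩⟩

theorem abs_act_le {g : G} {L : ℝ} (h : ∀ x, D g x ≤ L) (a b : ℝ) :
    |g • a - g • b| ≤ L * |a - b| := by
  obtain ⟨u, -, hu⟩ := mvt_abs g b a
  rw [hu]; exact mul_le_mul_of_nonneg_right (h u) (abs_nonneg _)

theorem uIcc_abs {a b u z r : ℝ} (hu : u ∈ uIcc a b) (ha : |a - z| ≤ r) (hb : |b - z| ≤ r) :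
    |u - z| ≤ r := by
  rw [abs_le] at *
  rcases mem_uIcc.1 hu with h | h <;> constructor <;> linarith [h.1, h.2]

theorem D_le_of_lg {g h : G} {u v c : ℝ} (H : lg g u - lg h v ≤ c) :
    D g u ≤ Real.exp c * D h v := by
  rw [← exp_lg, ← exp_lg, ← Real.exp_add]
  exact Real.exp_le_exp.2 (by linarith)

theorem exp_one_le_three : Real.exp 1 ≤ 3 := by
  have := Real.exp_one_lt_d9; linarith

omit [SmoothAct G] in
theorem Lip.mono {r r' K K' z : ℝ} {h : G} (H : Lip r K z h) (hr : r' ≤ r) (hK : K ≤ K') :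
    Lip r' K' z h := fun u v hu hv =>
  le_trans (H u v (le_trans hu hr) (le_trans hv hr)) (mul_le_mul_of_nonneg_right hK (abs_nonneg _))

omit [SmoothAct G] in
theorem Good.mono {K K' z : ℝ} {h : G} (H : Good K z h) (hK : K ≤ K') : Good K' z h :=
  ⟨le_trans H.1 hK, H.2.mono (one_div_le_one_div_of_le (by linarith [H.1]) hK) hK⟩

omit [SmoothAct G] in
theorem Good.pos {K z : ℝ} {h : G} (H : Good K z h) : 0 < K := by linarith [H.1]

omit [SmoothAct G] in
theorem good_one {K : ℝ} (hK : 1 ≤ K) (z : ℝ) : Good K z (1 : G) :=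
  ⟨hK, fun u v _ _ => by simp only [lg_one, sub_zero, abs_zero]; positivity⟩

omit [SmoothAct G] in
theorem Good.lg_le {K z u : ℝ} {h : G} (H : Good K z h) (hu : |u - z| ≤ 1 / K) :
    |lg h u - lg h z| ≤ 1 := by
  have hK := H.pos
  have h1 := H.2 u z hu (by simp; positivity)
  calc _ ≤ K * |u - z| := h1
    _ ≤ K * (1 / K) := mul_le_mul_of_nonneg_left hu hK.le
    _ = 1 := by field_simp

theorem Good.D_le {K z u : ℝ} {h : G} (H : Good K z h) (hu : |u - z| ≤ 1 / K) :
    D h u ≤ 3 * D h z := by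
  have h1 := abs_le.1 (H.lg_le hu)
  exact le_trans (D_le_of_lg h1.2) (mul_le_mul_of_nonneg_right exp_one_le_three (D_pos _ _).le)

theorem Good.le_D {K z u : ℝ} {h : G} (H : Good K z h) (hu : |u - z| ≤ 1 / K) :
    D h z ≤ 3 * D h u := by
  have h1 := abs_le.1 (H.lg_le hu)
  exact le_trans (D_le_of_lg (c := 1) (by linarith [h1.1]))
    (mul_le_mul_of_nonneg_right exp_one_le_three (D_pos _ _).le)

theorem Good.len_le {K z u v : ℝ} {h : G} (H : Good K z h) (hu : |u - z| ≤ 1 / K)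
    (hv : |v - z| ≤ 1 / K) : |h • u - h • v| ≤ 3 * D h z * |u - v| := by
  obtain ⟨w, hw, e⟩ := mvt_abs h v u
  rw [e]
  exact mul_le_mul_of_nonneg_right (H.D_le (uIcc_abs hw hv hu)) (abs_nonneg _)

theorem Good.le_len {K z u v : ℝ} {h : G} (H : Good K z h) (hu : |u - z| ≤ 1 / K)
    (hv : |v - z| ≤ 1 / K) : D h z * |u - v| ≤ 3 * |h • u - h • v| := by
  obtain ⟨w, hw, e⟩ := mvt_abs h v u
  rw [e, ← mul_assoc]
  exact mul_le_mul_of_nonneg_right (H.le_D (uIcc_abs hw hv hu)) (abs_nonneg _)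

theorem Lip.comp {r r' K K' A z : ℝ} {φ f : G} (hA : ∀ u, |u - z| ≤ r → D φ u ≤ A)
    (H : Lip r K z φ) (H' : Lip r' K' (φ • z) f) (hr : A * r ≤ r') (hK' : 0 ≤ K') :
    Lip r (K + K' * A) z (f * φ) := by
  intro u v hu hv
  have hr0 : 0 ≤ r := le_trans (abs_nonneg _) hu
  have hz : |z - z| ≤ r := by simpa using hr0
  have hA0 : 0 ≤ A := le_trans (D_pos φ z).le (hA z hz)
  have key : ∀ a b, |a - z| ≤ r → |b - z| ≤ r → |φ • a - φ • b| ≤ A * |a - b| := by
    intro a b ha hb
    obtain ⟨w, hw, e⟩ := mvt_abs φ b a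
    rw [e]
    exact mul_le_mul_of_nonneg_right (hA w (uIcc_abs hw hb ha)) (abs_nonneg _)
  have h1 := H u v hu hv
  have h2 := H' (φ • u) (φ • v)
    (le_trans (key u z hu hz) (le_trans (mul_le_mul_of_nonneg_left hu hA0) hr))
    (le_trans (key v z hv hz) (le_trans (mul_le_mul_of_nonneg_left hv hA0) hr))
  have h3 := mul_le_mul_of_nonneg_left (key u v hu hv) hK'
  rw [lg_mul, lg_mul]
  calc _ = |(lg f (φ • u) - lg f (φ • v)) + (lg φ u - lg φ v)| := by ring_nf
    _ ≤ |lg f (φ • u) - lg f (φ • v)| + |lg φ u - lg φ v| := abs_add_le _ _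
    _ ≤ _ := by nlinarith

theorem Good.comp {K K' A z : ℝ} {φ f : G} (H : Good K z φ) (H' : Good K' (φ • z) f)
    (hA : D φ z ≤ A) : Good (K + 3 * A * K') z (f * φ) := by
  have hK := H.pos
  have hK' := H'.pos
  have hA0 : 0 < A := lt_of_lt_of_le (D_pos _ _) hA
  have h0 : 0 < 3 * A * K' := by positivity
  have hle : 1 / (K + 3 * A * K') ≤ 1 / K := one_div_le_one_div_of_le hK (by linarith)
  refine ⟨by linarith [H.1], ?_⟩
  have := Lip.comp (A := 3 * A) (r := 1 / (K + 3 * A * K'))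
    (fun u hu => le_trans (H.D_le (le_trans hu hle)) (by linarith)) (H.2.mono hle le_rfl) H'.2
    (by
      rw [mul_one_div, div_le_div_iff₀ (by positivity) hK']
      nlinarith) hK'.le
  exact this.mono le_rfl (by nlinarith)

theorem Good.inv {K a z : ℝ} {φ : G} (H : Good K z φ) (ha : 0 < a) (hD : a ≤ D φ z) :
    Good (3 * K / a + 1) (φ • z) φ⁻¹ := by
  have hK := H.pos
  have h0 : 0 < 3 * K / a := by positivity
  refine ⟨by linarith, ?_⟩
  have hr : 1 / (3 * K / a + 1) ≤ a / (3 * K) := by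
    rw [← one_div_div (3 * K) a]; exact one_div_le_one_div_of_le h0 (by linarith)
  have hz : |z - z| ≤ 1 / K := by simp; positivity
  have hin : ∀ u, |u - φ • z| ≤ a / (3 * K) → |φ⁻¹ • u - z| ≤ 1 / K := by
    intro u hu
    have e1 : |z + 1 / K - z| ≤ 1 / K := by simp [abs_of_pos hK]
    have e2 : |z - 1 / K - z| ≤ 1 / K := by simp [abs_of_pos hK]
    have h1 := H.le_len e1 hz
    have h2 := H.le_len e2 hz
    have p1 : φ • z < φ • (z + 1 / K) := (act_lt φ).2 (by linarith [one_div_pos.2 hK])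
    have p2 : φ • (z - 1 / K) < φ • z := (act_lt φ).2 (by linarith [one_div_pos.2 hK])
    rw [abs_of_pos (sub_pos.2 p1)] at h1
    rw [abs_of_neg (sub_neg.2 p2)] at h2
    have e3 : |z + 1 / K - z| = 1 / K := by simp [abs_of_pos hK]
    have e4 : |z - 1 / K - z| = 1 / K := by simp [abs_of_pos hK]
    rw [e3] at h1
    rw [e4] at h2
    have h5 : a / (3 * K) ≤ D φ z * (1 / K) / 3 := by
      rw [show D φ z * (1 / K) / 3 = D φ z / (3 * K) by field_simp]
      exact div_le_div_of_nonneg_right hD (by positivity)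
    rw [abs_le] at hu ⊢
    constructor
    · have : φ • (z - 1 / K) ≤ φ • (φ⁻¹ • u) := by rw [smul_inv_smul]; linarith [hu.1]
      have := (act_le φ).1 this
      linarith
    · have : φ • (φ⁻¹ • u) ≤ φ • (z + 1 / K) := by rw [smul_inv_smul]; linarith [hu.2]
      have := (act_le φ).1 this
      linarith
  intro u v hu hv
  have hu' := hin u (le_trans hu hr)
  have hv' := hin v (le_trans hv hr)
  rw [lg_inv', lg_inv']
  have h1 := H.2 _ _ hu' hv'
  have h2 := H.le_len hu' hv'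
  rw [smul_inv_smul, smul_inv_smul] at h2
  have h3 : |φ⁻¹ • u - φ⁻¹ • v| ≤ 3 / a * |u - v| := by
    rw [div_mul_eq_mul_div, le_div_iff₀ ha]
    nlinarith [abs_nonneg (φ⁻¹ • u - φ⁻¹ • v)]
  calc _ = |lg φ (φ⁻¹ • u) - lg φ (φ⁻¹ • v)| := by rw [abs_sub_comm]; ring_nf
    _ ≤ K * (3 / a * |u - v|) := le_trans h1 (mul_le_mul_of_nonneg_left h3 hK.le)
    _ = 3 * K / a * |u - v| := by ring
    _ ≤ _ := mul_le_mul_of_nonneg_right (by linarith) (abs_nonneg _)

omit [SmoothAct G] in
theorem Good.move {K z z' : ℝ} {φ : G} (H : Good K z φ) (hz : |z' - z| ≤ 1 / (2 * K)) :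
    Good (2 * K) z' φ := by
  have hK := H.pos
  refine ⟨by linarith [H.1], fun u v hu hv => ?_⟩
  have e : 1 / K = 1 / (2 * K) + 1 / (2 * K) := by field_simp; ring
  have key : ∀ w, |w - z'| ≤ 1 / (2 * K) → |w - z| ≤ 1 / K := by
    intro w hw
    rw [e]; exact le_trans (abs_sub_le w z' z) (add_le_add hw hz)
  exact le_trans (H.2 u v (key u hu) (key v hv))
    (mul_le_mul_of_nonneg_right (by linarith) (abs_nonneg _))

theorem Good.shift {K z : ℝ} {φ : G} (H : Good K z φ) (n : ℤ) : Good K (z + n) φ := by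
  refine ⟨H.1, fun u v hu hv => ?_⟩
  have := H.2 (u - n) (v - n) (by rw [show u - n - z = u - (z + n) by ring]; exact hu)
    (by rw [show v - n - z = v - (z + n) by ring]; exact hv)
  rw [← lg_int φ (u - n) n, ← lg_int φ (v - n) n] at this
  simpa using this

omit [SmoothAct G] in
theorem Good.congr {K z : ℝ} {φ ψ : G} (H : Good K z φ) (h : ∀ u, lg ψ u = lg φ u) :
    Good K z ψ := ⟨H.1, fun u v hu hv => by rw [h, h]; exact H.2 u v hu hv⟩

/-- The Schwartz lemma. -/
theorem schwartz {L K A z : ℝ} (hL : 0 ≤ L) (φ : ℕ → G) (n : ℕ)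
    (hs : ∀ j < n, ∃ s, GLip L s ∧ φ (j + 1) = s * φ j) (H : Good K z (φ 0))
    (hA : ∑ j ∈ Finset.range n, D (φ j) z ≤ A) : Good (K + 3 * L * A) z (φ n) := by
  have hK := H.pos
  have hsum : ∀ m ≤ n, ∑ j ∈ Finset.range m, D (φ j) z ≤ A := fun m hm =>
    le_trans (Finset.sum_le_sum_of_subset_of_nonneg (Finset.range_mono hm)
      (fun j _ _ => (D_pos _ _).le)) hA
  have hA0 : 0 ≤ A := by simpa using hsum 0 (Nat.zero_le _)
  have hLA : 0 ≤ 3 * L * A := by positivity
  have hle : 1 / (K + 3 * L * A) ≤ 1 / K := one_div_le_one_div_of_le hK (by linarith)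
  have main : ∀ m ≤ n, Lip (1 / (K + 3 * L * A)) (K + 3 * L * ∑ j ∈ Finset.range m, D (φ j) z)
      z (φ m) := by
    intro m
    induction m with
    | zero => intro _; simpa using H.2.mono hle le_rfl
    | succ m ih =>
      intro hm
      have ih' := ih (by omega)
      obtain ⟨s, hs1, hs2⟩ := hs m (by omega)
      have hg : Good (K + 3 * L * A) z (φ m) := ⟨by linarith [H.1], ih'.mono le_rfl (by
        have := mul_le_mul_of_nonneg_left (hsum m (by omega)) (show 0 ≤ 3 * L by positivity)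
        linarith)⟩
      have := Lip.comp (A := 3 * D (φ m) z) (f := s) (K' := L)
        (r' := 3 * D (φ m) z * (1 / (K + 3 * L * A)))
        (fun u hu => hg.D_le hu) ih' (fun u v _ _ => hs1 u v) le_rfl hL
      rw [hs2, Finset.sum_range_succ]
      exact this.mono le_rfl (le_of_eq (by ring))
  refine ⟨by linarith [H.1], (main n le_rfl).mono le_rfl ?_⟩
  have := mul_le_mul_of_nonneg_left hA (show 0 ≤ 3 * L by positivity)
  linarith

/-- Chains of expanding steps have inverses of uniformly bounded distortion. -/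
theorem chain_const {lam K1 : ℝ} (hlam : 1 < lam) (hK1 : 1 ≤ K1) :
    ∃ K0, 1 ≤ K0 ∧ ∃ P : G → ℝ → Prop, (∀ p, P 1 p) ∧
      (∀ h p f, P h p → lam ≤ D f (h • p) → Good K1 (f • h • p) f⁻¹ → P (f * h) p) ∧
      (∀ h p, P h p → Good K0 (h • p) h⁻¹) := by
  have hl : 0 < Real.log lam := Real.log_pos hlam
  set μ := Real.exp (-(Real.log lam / 2)) with hμ
  have hμ0 : 0 < μ := Real.exp_pos _
  have hμ1 : μ < 1 := Real.exp_lt_one_iff.2 (by linarith)
  set r0 := min (1 / K1) (Real.log lam / (2 * K1)) with hr0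
  have hr0p : 0 < r0 := lt_min (by positivity) (by positivity)
  set K' := K1 / (1 - μ) with hK'
  have hK'0 : 0 < K' := div_pos (by linarith) (by linarith)
  refine ⟨max 1 (max K' (1 / r0)), le_max_left _ _, fun h p => Lip r0 K' (h • p) h⁻¹, ?_, ?_, ?_⟩
  · intro p u v _ _
    simp only [inv_one, lg_one, sub_zero, abs_zero]; positivity
  · intro h p f hP hf hg
    have hz : D f⁻¹ (f • h • p) ≤ lam⁻¹ := by
      rw [D_inv]; exact inv_anti₀ (by linarith) hf
    have hA : ∀ u, |u - f • h • p| ≤ r0 → D f⁻¹ u ≤ μ := by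
      intro u hu
      have h1 := hg.2 u (f • h • p) (le_trans hu (min_le_left _ _)) (by simp; positivity)
      have h2 : K1 * |u - f • h • p| ≤ Real.log lam / 2 := by
        calc _ ≤ K1 * (Real.log lam / (2 * K1)) :=
              mul_le_mul_of_nonneg_left (le_trans hu (min_le_right _ _)) (by linarith)
          _ = _ := by field_simp
      have h3 : lg f⁻¹ (f • h • p) ≤ - Real.log lam := by
        unfold lg; rw [← Real.log_inv]; exact Real.log_le_log (D_pos _ _) hz
      rw [← exp_lg, hμ]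
      exact Real.exp_le_exp.2 (by linarith [(abs_le.1 h1).2])
    have := Lip.comp (f := h⁻¹) (r' := r0) (K' := K') hA (hg.2.mono (min_le_left _ _) le_rfl)
      (by rw [inv_smul_smul]; exact hP) (by nlinarith) hK'0.le
    show Lip r0 K' ((f * h) • p) (f * h)⁻¹
    rw [mul_inv_rev, mul_smul]
    refine this.mono le_rfl (le_of_eq ?_)
    rw [hK']; field_simp [(sub_pos.2 hμ1).ne']; ring
  · intro h p hP
    refine ⟨le_max_left _ _, hP.mono ?_ (by simp)⟩
    rw [one_div_le (by positivity) hr0p]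
    simp

end Pool.Agent.Lib.MP_173a7e_an
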