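import Pool.Agent.Lib.MP_173a7e_an.Defs

set_option autoImplicit false

namespace Pool.Agent.Lib.MP_173a7e_an

open Set Filter

namespace Comb

variable {G X : Type} [Group G] [MulAction G X] {S : Finset G}

theorem finite_words (S : Finset G) (r : ℕ) :
    {g : G | ∃ l : List G, l.length ≤ r ∧ (∀ s ∈ l, s ∈ S) ∧ l.prod = g}.Finite := by
  refine ((List.finite_length_le S r).image fun l => (l.map Subtype.val).prod).subset ?_
  rintro _ ⟨l, h1, h2, rfl⟩
  exact ⟨l.attachWith _ h2, by simpa using h1, by simp⟩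

/-- Products of at most `r` generators. -/
noncomputable def Wd (S : Finset G) (r : ℕ) : Finset G := (finite_words S r).toFinset

theorem near_iff {r : ℕ} {u v : X} : Near S r u v ↔ ∃ w ∈ Wd S r, v = w • u := by
  simp only [Wd, Finite.mem_toFinset, mem_ofPred_eq]
  exact ⟨fun ⟨l, h1, h2, h3⟩ => ⟨_, ⟨l, h1, h2, rfl⟩, h3⟩,
    fun ⟨_, ⟨l, h1, h2, rfl⟩, h3⟩ => ⟨l, h1, h2, h3⟩⟩

theorem near_refl (r : ℕ) (u : X) : Near S r u u := ⟨[], by simp, by simp, by simp⟩

theorem near_mono {r r' : ℕ} {u v : X} (h : Near S r u v) (hr : r ≤ r') : Near S r' u v :=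
  h.imp fun _ h => ⟨h.1.trans hr, h.2⟩

theorem near_trans {r r' : ℕ} {u v z : X} (h : Near S r u v) (h' : Near S r' v z) :
    Near S (r + r') u z := by
  obtain ⟨l, h1, h2, rfl⟩ := h
  obtain ⟨l', k1, k2, rfl⟩ := h'
  refine ⟨l' ++ l, by simp; omega, fun s hs => ?_, by simp [mul_smul]⟩
  exact (List.mem_append.mp hs).elim (k2 s) (h2 s)

theorem near_step {s : G} (hs : s ∈ S) (u : X) : Near S 1 u (s • u) :=
  ⟨[s], by simp, by simpa, by simp⟩

theorem near_symm (hinv : ∀ s ∈ S, s⁻¹ ∈ S) {r : ℕ} {u v : X} (h : Near S r u v) :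
    Near S r v u := by
  obtain ⟨l, h1, h2, rfl⟩ := h
  refine ⟨(l.map fun x => x⁻¹).reverse, by simpa using h1, fun s hs => ?_,
    by rw [← List.prod_inv_reverse, inv_smul_smul]⟩
  obtain ⟨t, ht, rfl⟩ := List.mem_map.mp (List.mem_reverse.mp hs)
  exact hinv t (h2 t ht)

theorem exists_word (hinv : ∀ s ∈ S, s⁻¹ ∈ S) (hgen : Subgroup.closure (S : Set G) = ⊤) (g : G) :
    ∃ l : List G, (∀ s ∈ l, s ∈ S) ∧ l.prod = g := by
  have hg : g ∈ Subgroup.closure (S : Set G) := hgen ▸ Subgroup.mem_top g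
  induction hg using Subgroup.closure_induction with
  | mem x hx => exact ⟨[x], by simpa, by simp⟩
  | one => exact ⟨[], by simp, by simp⟩
  | mul x y _ _ hx hy =>
    obtain ⟨l, h1, rfl⟩ := hx
    obtain ⟨l', k1, rfl⟩ := hy
    exact ⟨l ++ l', fun s hs => (List.mem_append.mp hs).elim (h1 s) (k1 s), by simp⟩
  | inv x _ hx =>
    obtain ⟨l, h1, rfl⟩ := hx
    refine ⟨(l.map fun x => x⁻¹).reverse, fun s hs => ?_, by rw [← List.prod_inv_reverse]⟩
    obtain ⟨t, ht, rfl⟩ := List.mem_map.mp (List.mem_reverse.mp hs)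
    exact hinv t (h1 t ht)

theorem card_image_eq {A Y Z : Type} [DecidableEq Y] [DecidableEq Z] (E : Finset A) (f : A → Y)
    (g : A → Z) (h : ∀ a ∈ E, ∀ b ∈ E, f a = f b ↔ g a = g b) :
    (E.image f).card = (E.image g).card := by
  classical
  induction E using Finset.induction_on with
  | empty => simp
  | insert a E ha ih =>
    have e : f a ∈ E.image f ↔ g a ∈ E.image g := by
      simp only [Finset.mem_image]
      exact exists_congr fun b => and_congr_right fun hb => h b (by simp [hb]) a (by simp)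
    rw [Finset.image_insert, Finset.image_insert, Finset.card_insert_eq_ite,
      Finset.card_insert_eq_ite, ih fun x hx y hy => h x (by simp [hx]) y (by simp [hy])]
    simp only [e]

variable {σ : X → G} {B : Set X}

theorem near_iter (hσ : ∀ v, σ v ∈ S) (i : ℕ) (u : X) : Near S i u ((stp σ)^[i] u) := by
  induction i with
  | zero => exact near_refl _ _
  | succ i ih => rw [Function.iterate_succ_apply']; exact near_trans ih (near_step (hσ _) _)

/-- The orbit has not met `B` before time `i`. -/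
def Al (σ : X → G) (B : Set X) (u : X) (i : ℕ) : Prop := ∀ j < i, (stp σ)^[j] u ∉ B

theorem Al.mono {u : X} {i j : ℕ} (h : Al σ B u i) (hj : j ≤ i) : Al σ B u j :=
  fun k hk => h k (hk.trans_le hj)

theorem Al.shift {u : X} {a j : ℕ} (h : Al σ B u (j + a)) : Al σ B ((stp σ)^[a] u) j :=
  fun k hk => by rw [← Function.iterate_add_apply]; exact h _ (by omega)

/-- The stopped orbit of `u` enters the ball around `v` through `F • v`. -/
def Chi (S : Finset G) (σ : X → G) (B : Set X) (ρ : ℕ) (v : X) (F : Finset G) (u : X) : Prop :=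
  ∃ i, Al σ B u i ∧ Near S ρ v ((stp σ)^[i] u) ∧ (∀ j < i, ¬ Near S ρ v ((stp σ)^[j] u)) ∧
    ∃ w ∈ F, (stp σ)^[i] u = w • v

/-- Good pairs. -/
def Good (S : Finset G) (σ : X → G) (B : Set X) (ρ D E : ℕ) (v : X) (F : Finset G) : Prop :=
  ∀ w₁ ∈ Wd S E, ∀ w₂ ∈ Wd S E, ¬ Near S ρ v (w₁ • v) → ¬ Near S ρ v (w₂ • v) →
    Near S D (w₁ • v) (w₂ • v) → (Chi S σ B ρ v F (w₁ • v) ↔ Chi S σ B ρ v F (w₂ • v))

variable {ρ D E : ℕ} {v : X} {F : Finset G}

theorem chi_shift {u : X} {a : ℕ} (h : Al σ B u a) (h' : ∀ j < a, ¬ Near S ρ v ((stp σ)^[j] u)) :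
    Chi S σ B ρ v F u ↔ Chi S σ B ρ v F ((stp σ)^[a] u) := by
  simp only [Chi, ← Function.iterate_add_apply]
  constructor
  · rintro ⟨i, h1, h2, h3, h4⟩
    obtain ⟨j, rfl⟩ : ∃ j, i = j + a := ⟨i - a, by
      have := not_lt.mp fun hi => h' i hi h2
      omega⟩
    exact ⟨j, h1.shift, h2, fun k hk => h3 _ (by omega), h4⟩
  · rintro ⟨i, h1, h2, h3, h4⟩
    refine ⟨i + a, fun k hk => ?_, h2, fun k hk => ?_, h4⟩
    · by_cases hka : k < a
      · exact h k hka
      · have := h1 (k - a) (by omega)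
        rwa [← Function.iterate_add_apply, Nat.sub_add_cancel (not_lt.mp hka)] at this
    · by_cases hka : k < a
      · exact h' k hka
      · have := h3 (k - a) (by omega)
        rwa [Nat.sub_add_cancel (not_lt.mp hka)] at this

section main
variable (hinv : ∀ s ∈ S, s⁻¹ ∈ S) (hσ : ∀ v, σ v ∈ S) (htop : ∀ v, ∃ n, (stp σ)^[n] v ∈ B)
  {r₀ k₁ : ℕ} (hBP : ∀ v a, Al σ B v a → ∀ (γ : ℕ → X) (n : ℕ), IsPath S γ n →
    γ 0 = v → γ n ∈ B → ∃ k ≤ n, Near S r₀ ((stp σ)^[a] v) (γ k))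
  (hk : ∀ v j, Al σ B v j → Near S (2 * (r₀ + 1) + 1) v ((stp σ)^[j] v) → j ≤ k₁)

include htop in
theorem exists_top (u : X) : ∃ n, (stp σ)^[n] u ∈ B ∧ Al σ B u n := by
  classical
  exact ⟨Nat.find (htop u), Nat.find_spec (htop u), fun j hj => Nat.find_min (htop u) hj⟩

include hσ htop hBP in
theorem fellow {s : G} (hs : s ∈ S) {u : X} {a : ℕ} (ha : Al σ B u a) :
    ∃ b, Al σ B (s • u) b ∧ Near S (r₀ + 1) ((stp σ)^[a] u) ((stp σ)^[b] (s • u)) := by
  obtain ⟨n, h1, h2⟩ := exists_top htop (s • u)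
  obtain ⟨k, hk, h⟩ := hBP u a ha (fun k => Nat.casesOn k u fun b => (stp σ)^[b] (s • u)) (n + 1)
    (fun k _ => by
      cases k with
      | zero => exact ⟨s, hs, rfl⟩
      | succ k => exact ⟨_, hσ _, Function.iterate_succ_apply' _ _ _⟩) rfl h1
  cases k with
  | zero => exact ⟨0, h2.mono (Nat.zero_le _), near_trans h (near_step hs u)⟩
  | succ k => exact ⟨k, h2.mono (by omega), near_mono h (by omega)⟩

include hinv hσ htop hBP hk in
theorem chi_step_aux {s : G} (hs : s ∈ S) {u : X}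
    (hg : Good S σ B ρ (r₀ + 1) (ρ + k₁ + (r₀ + 1) + (r₀ + 1)) v F)
    (h1 : ¬ Near S (ρ + k₁ + (r₀ + 1)) v u) (h2 : ¬ Near S (ρ + k₁ + (r₀ + 1)) v (s • u))
    (h : ∃ a, Al σ B u a ∧ Near S (ρ + k₁ + (r₀ + 1)) v ((stp σ)^[a] u)) :
    Chi S σ B ρ v F u ↔ Chi S σ B ρ v F (s • u) := by
  classical
  obtain ⟨a, ⟨ha, hx⟩, hmin⟩ : ∃ a, (Al σ B u a ∧ Near S (ρ + k₁ + (r₀ + 1)) v ((stp σ)^[a] u)) ∧
      ∀ j < a, ¬ Near S (ρ + k₁ + (r₀ + 1)) v ((stp σ)^[j] u) :=
    ⟨Nat.find h, Nat.find_spec h, fun j hj hn =>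
      Nat.find_min h hj ⟨(Nat.find_spec h).1.mono hj.le, hn⟩⟩
  have key : ∀ t ≤ a, ∃ b, Al σ B (s • u) b ∧ (∀ j ≤ b, ¬ Near S ρ v ((stp σ)^[j] (s • u))) ∧
      Near S (r₀ + 1) ((stp σ)^[t] u) ((stp σ)^[b] (s • u)) := by
    intro t ht
    induction t with
    | zero =>
      refine ⟨0, fun _ h => absurd h (Nat.not_lt_zero _), fun j hj hn => h2 ?_,
        near_mono (near_step hs u) (by omega)⟩
      rw [Nat.le_zero.mp hj] at hn
      exact near_mono hn (by omega)
    | succ t ih =>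
      obtain ⟨b₁, -, k2, k3⟩ := ih (by omega)
      obtain ⟨b₂, l1, l3⟩ := fellow hσ htop hBP hs (ha.mono ht)
      refine ⟨b₂, l1, fun j hj hn => ?_, l3⟩
      have hj' : b₁ < j := not_le.mp fun e => k2 j e hn
      obtain ⟨c, rfl⟩ : ∃ c, b₂ = c + b₁ := ⟨b₂ - b₁, by omega⟩
      obtain ⟨e, rfl⟩ : ∃ e, j = e + b₁ := ⟨j - b₁, by omega⟩
      rw [Function.iterate_succ_apply'] at l3
      have hc := hk _ c l1.shift (by
        rw [← Function.iterate_add_apply]
        exact near_mono (near_trans (near_trans (near_symm hinv k3) (near_step (hσ _) _)) l3)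
          (by omega))
      rw [Function.iterate_add_apply] at hn
      exact hmin t ht (near_mono (near_trans (near_trans hn (near_symm hinv (near_iter hσ e _)))
        (near_symm hinv k3)) (by omega))
  obtain ⟨b, k1, k2, k3⟩ := key a le_rfl
  rw [chi_shift ha fun j hj hn => hmin j hj (near_mono hn (by omega)),
    chi_shift k1 fun j hj => k2 j hj.le]
  obtain ⟨w₁, hw₁, e₁⟩ := near_iff.mp (near_mono hx (Nat.le_add_right _ (r₀ + 1)))
  obtain ⟨w₂, hw₂, e₂⟩ := near_iff.mp (near_trans hx k3)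
  have hxo : ¬ Near S ρ v ((stp σ)^[a] u) := fun hn => by
    cases a with
    | zero => exact h1 hx
    | succ a =>
      rw [Function.iterate_succ_apply'] at hn
      exact hmin a (by omega) (near_mono (near_trans hn (near_symm hinv (near_step (hσ _) _)))
        (by omega))
  have hyo := k2 b le_rfl
  rw [e₁] at hxo
  rw [e₂] at hyo
  rw [e₁, e₂] at k3 ⊢
  exact hg w₁ hw₁ w₂ hw₂ hxo hyo k3

include hinv hσ htop hBP hk in
theorem chi_step {s : G} (hs : s ∈ S) {u : X}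
    (hg : Good S σ B ρ (r₀ + 1) (ρ + k₁ + (r₀ + 1) + (r₀ + 1)) v F)
    (h1 : ¬ Near S (ρ + k₁ + (r₀ + 1)) v u) (h2 : ¬ Near S (ρ + k₁ + (r₀ + 1)) v (s • u)) :
    Chi S σ B ρ v F u ↔ Chi S σ B ρ v F (s • u) := by
  by_cases h : ∃ a, Al σ B u a ∧ Near S (ρ + k₁ + (r₀ + 1)) v ((stp σ)^[a] u)
  · exact chi_step_aux hinv hσ htop hBP hk hs hg h1 h2 h
  by_cases h' : ∃ a, Al σ B (s • u) a ∧ Near S (ρ + k₁ + (r₀ + 1)) v ((stp σ)^[a] (s • u))
  · have := chi_step_aux hinv hσ htop hBP hk (hinv s hs) hg h2 (by rwa [inv_smul_smul]) h'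
    rw [inv_smul_smul] at this
    exact this.symm
  · exact iff_of_false (fun ⟨i, k1, k2, _⟩ => h ⟨i, k1, near_mono k2 (by omega)⟩)
      fun ⟨i, k1, k2, _⟩ => h' ⟨i, k1, near_mono k2 (by omega)⟩

/-- Points joined to `B` by a path which avoids the ball. -/
inductive Jn (S : Finset G) (B : Set X) (r : ℕ) (v : X) : X → Prop
  | base (z : X) : z ∈ B → ¬ Near S r v z → Jn S B r v z
  | step (z : X) (s : G) : s ∈ S → ¬ Near S r v z → Jn S B r v (s • z) → Jn S B r v z

theorem Jn.path {r : ℕ} {z : X} (h : Jn S B r v z) : ∃ (γ : ℕ → X) (n : ℕ), IsPath S γ n ∧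
    γ 0 = z ∧ γ n ∈ B ∧ ∀ k ≤ n, ¬ Near S r v (γ k) := by
  induction h with
  | base z h1 h2 => exact ⟨fun _ => z, 0, fun _ h => absurd h (Nat.not_lt_zero _), rfl, h1,
      fun _ _ => h2⟩
  | step z s hs h2 _ ih =>
    obtain ⟨γ, n, k1, k2, k3, k4⟩ := ih
    refine ⟨fun k => Nat.casesOn k z γ, n + 1, fun k hk => ?_, rfl, k3, fun k hk => ?_⟩
    · cases k with
      | zero => exact ⟨s, hs, k2⟩
      | succ k => exact k1 k (by omega)
    · cases k with
      | zero => exact h2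
      | succ k => exact k4 k (by omega)

theorem jn_of_iter (hσ : ∀ v, σ v ∈ S) {r i : ℕ} {z : X}
    (h : ∀ j < i, ¬ Near S r v ((stp σ)^[j] z)) (h' : Jn S B r v ((stp σ)^[i] z)) :
    Jn S B r v z := by
  induction i with
  | zero => exact h'
  | succ i ih =>
    rw [Function.iterate_succ_apply'] at h'
    exact ih (fun j hj => h j (by omega)) (.step _ _ (hσ _) (h i (by omega)) h')

include hinv in
theorem Jn.fwd {r : ℕ} {z : X} {s : G} (hs : s ∈ S) (h : Jn S B r v z)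
    (h' : ¬ Near S r v (s • z)) : Jn S B r v (s • z) :=
  .step _ s⁻¹ (hinv s hs) h' (by rwa [inv_smul_smul])

include hinv in
theorem Jn.near {r D : ℕ} {x y : X} (h : Jn S B r v x) (hx : ¬ Near S (r + D) v x)
    (hxy : Near S D x y) : Jn S B r v y := by
  obtain ⟨l, h1, h2, rfl⟩ := hxy
  induction l with
  | nil => simpa using h
  | cons s l ih =>
    rw [List.prod_cons, mul_smul]
    refine (ih (by simp at h1; omega) fun t ht => h2 t (by simp [ht])).fwd hinv (h2 s (by simp))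
      fun hn => hx (near_trans hn (near_symm hinv ⟨s :: l, h1, h2, by simp [mul_smul]⟩))

open Classical in
include hinv hσ htop in
theorem chi_iff (v z : X) : Chi S σ B (r₀ + (r₀ + 1)) v
    ((Wd S (r₀ + (r₀ + 1))).filter fun w => ¬ Jn S B r₀ v (w • v)) z ↔ ¬ Jn S B r₀ v z := by
  constructor
  · rintro ⟨i, -, -, h3, w, hw, e⟩ hz
    refine (Finset.mem_filter.mp hw).2 (e ▸ ?_)
    clear e
    induction i with
    | zero => exact hz
    | succ i ih =>
      rw [Function.iterate_succ_apply']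
      refine (ih fun j hj => h3 j (by omega)).fwd hinv (hσ _) fun hn => h3 i (by omega) ?_
      exact near_mono (near_trans hn (near_symm hinv (near_step (hσ _) _))) (by omega)
  · intro hz
    obtain ⟨n, h1, h2⟩ := exists_top htop z
    have h : ∃ i, i ≤ n ∧ Near S (r₀ + (r₀ + 1)) v ((stp σ)^[i] z) := by
      by_contra! h
      exact hz (jn_of_iter hσ (fun j hj hn => h j hj.le (near_mono hn (by omega)))
        (.base _ h1 fun hn => h n le_rfl (near_mono hn (by omega))))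
    have hm : ∀ j < Nat.find h, ¬ Near S (r₀ + (r₀ + 1)) v ((stp σ)^[j] z) := fun j hj hn =>
      Nat.find_min h hj ⟨hj.le.trans (Nat.find_spec h).1, hn⟩
    obtain ⟨w, hw, e⟩ := near_iff.mp (Nat.find_spec h).2
    exact ⟨Nat.find h, h2.mono (Nat.find_spec h).1, (Nat.find_spec h).2, hm, w,
      Finset.mem_filter.mpr ⟨hw, fun hj => hz (jn_of_iter hσ
        (fun j hj hn => hm j hj (near_mono hn (by omega))) (e ▸ hj))⟩, e⟩

/-- The pairs counted by the depth. -/
def Dset (S : Finset G) (σ : X → G) (B : Set X) (ρ D E : ℕ) (u : X) : Set (X × Finset G) :=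
  {p | p.2 ⊆ Wd S ρ ∧ Good S σ B ρ D E p.1 p.2 ∧ Chi S σ B ρ p.1 p.2 u}

include hinv hσ htop in
theorem finite_dset (u : X) : (Dset S σ B ρ D E u).Finite := by
  obtain ⟨n, h1, -⟩ := exists_top htop u
  refine ((((Wd S (n + ρ)).finite_toSet.image fun w => w • u).prod
    (Wd S ρ).powerset.finite_toSet)).subset ?_
  rintro ⟨v, F⟩ ⟨k1, -, i, k2, k3, -⟩
  have hi : i ≤ n := not_lt.mp fun h => k2 n h h1
  obtain ⟨w, hw, e⟩ := near_iff.mp
    (near_trans (near_mono (near_iter hσ i u) hi) (near_symm hinv k3))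
  exact ⟨⟨w, hw, e.symm⟩, by simpa using k1⟩

include hinv hσ htop hBP in
theorem le_depth {u : X} {n : ℕ} (h1 : (stp σ)^[n] u ∈ B) (h2 : Al σ B u n) :
    n ≤ (Dset S σ B (r₀ + (r₀ + 1)) (r₀ + 1) E u).ncard := by
  classical
  have hlt : ∀ a b, a < b → b < n → (stp σ)^[a] u ≠ (stp σ)^[b] u := fun a b hab hb e => by
    refine h2 (n - b + a) (by omega) ?_
    rwa [Function.iterate_add_apply, e, ← Function.iterate_add_apply, Nat.sub_add_cancel hb.le]
  conv_lhs => rw [← Set.ncard_Iio_nat n]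
  refine Set.ncard_le_ncard_of_injOn (fun a => ((stp σ)^[a] u, (Wd S (r₀ + (r₀ + 1))).filter
    fun w => ¬ Jn S B r₀ ((stp σ)^[a] u) (w • (stp σ)^[a] u))) (fun a ha => ⟨?_, ?_, ?_⟩) ?_
    (finite_dset hinv hσ htop u)
  · exact Finset.filter_subset _ _
  · intro w₁ _ w₂ _ k1 k2 k3
    rw [chi_iff hinv hσ htop, chi_iff hinv hσ htop]
    exact not_congr ⟨fun h => h.near hinv k1 k3, fun h => h.near hinv k2 (near_symm hinv k3)⟩
  · rw [chi_iff hinv hσ htop]
    intro h
    obtain ⟨γ, m, k1, k2, k3, k4⟩ := h.path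
    obtain ⟨k, hk, hn⟩ := hBP u a (h2.mono (le_of_lt ha)) γ m k1 k2 k3
    exact k4 k hk hn
  · intro a ha b hb e
    have e' := congrArg Prod.fst e
    rcases lt_trichotomy a b with h | h | h
    exacts [absurd e' (hlt a b h hb), h, absurd e'.symm (hlt b a h ha)]

open Classical in
/-- The local part of the count. -/
noncomputable def loc (S : Finset G) (σ : X → G) (B : Set X) (ρ D E r : ℕ) (g : G) (u : X) :
    Finset (G × Finset G) :=
  (Wd S r ×ˢ (Wd S ρ).powerset).filter fun p =>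
    Good S σ B ρ D E (p.1 • u) p.2 ∧ Chi S σ B ρ (p.1 • u) p.2 (g • u)

open Classical in
theorem ncard_loc (r : ℕ) (g : G) (u : X) :
    (Dset S σ B ρ D E (g • u) ∩ {p | Near S r u p.1}).ncard =
      ((loc S σ B ρ D E r g u).image fun p => (p.1 • u, p.2)).card := by
  rw [← Set.ncard_coe_finset]
  congr 1
  ext ⟨v, F⟩
  simp only [Finset.coe_image, loc, Finset.coe_filter, Finset.mem_product, Finset.mem_powerset]
  constructor
  · rintro ⟨⟨h1, h2, h3⟩, h4⟩
    obtain ⟨w, hw, rfl⟩ : ∃ w ∈ Wd S r, v = w • u := near_iff.mp h4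
    exact ⟨(w, F), ⟨⟨hw, h1⟩, h2, h3⟩, rfl⟩
  · rintro ⟨⟨w, F'⟩, ⟨⟨hw, h1⟩, h2, h3⟩, e⟩
    obtain ⟨rfl, rfl⟩ := Prod.mk.inj e
    exact ⟨⟨h1, h2, h3⟩, near_iff.mpr ⟨w, hw, rfl⟩⟩

end main

theorem summable_pow (hσ : ∀ v, σ v ∈ S) (hB : B.Finite) (n : X → ℕ)
    (hn : ∀ u, (stp σ)^[n u] u ∈ B) : Summable fun u => ((S.card + 1 : ℝ)⁻¹) ^ n u := by
  classical
  obtain ⟨L, h1, h2⟩ : ∃ L : ℕ → Finset X, (∀ m, (L m).card ≤ hB.toFinset.card * S.card ^ m) ∧
      ∀ m u, (stp σ)^[m] u ∈ B → u ∈ L m := by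
    refine ⟨fun m => Nat.rec hB.toFinset
      (fun _ L => Finset.image₂ (fun s z => s⁻¹ • z) S L) m, fun m => ?_, fun m => ?_⟩
    · induction m with
      | zero => simp
      | succ m ih =>
        refine (Finset.card_image₂_le _ _ _).trans ((Nat.mul_le_mul_left _ ih).trans (le_of_eq ?_))
        ring
    · induction m with
      | zero => exact fun u hu => by simpa using hu
      | succ m ih =>
        exact fun u hu => Finset.mem_image₂.mpr ⟨σ u, hσ u, _, ih (stp σ u) hu, by simp [stp]⟩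
  have hq : (0 : ℝ) < S.card + 1 := by positivity
  have : Summable fun p : Σ m, L m => ((S.card + 1 : ℝ)⁻¹) ^ p.1 := by
    refine (summable_sigma_of_nonneg fun _ => by positivity).mpr ⟨fun _ => .of_finite, ?_⟩
    refine Summable.of_nonneg_of_le (fun _ => tsum_nonneg fun _ => by positivity) (fun m => ?_)
      ((summable_geometric_of_lt_one (r := S.card * (S.card + 1 : ℝ)⁻¹) (by positivity)
        (by rw [mul_inv_lt_iff₀ hq]; simp)).mul_left (hB.toFinset.card : ℝ))
    simp only [tsum_fintype, Finset.sum_const, Finset.card_univ, Fintype.card_coe, nsmul_eq_mul]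
    rw [mul_pow, ← mul_assoc]
    exact mul_le_mul_of_nonneg_right (by exact_mod_cast h1 m) (by positivity)
  exact this.comp_injective (i := fun u => ⟨n u, u, h2 _ u (hn u)⟩)
    fun u u' e => congrArg (fun p : Σ m, L m => p.2.1) e

section tame
variable {Φ : Filter (X × X)}

/-- Tame predicates. -/
def Tame (Φ : Filter (X × X)) (Q : X → Prop) : Prop := ∀ᶠ p in Φ, (Q p.1 ↔ Q p.2)

theorem Tame.not {Q : X → Prop} (h : Tame Φ Q) : Tame Φ fun u => ¬ Q u :=
  h.mono fun _ => not_congr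

theorem Tame.and {Q Q' : X → Prop} (h : Tame Φ Q) (h' : Tame Φ Q') : Tame Φ fun u => Q u ∧ Q' u :=
  (Eventually.and h h').mono fun _ e => and_congr e.1 e.2

theorem Tame.imp {Q Q' : X → Prop} (h : Tame Φ Q) (h' : Tame Φ Q') : Tame Φ fun u => Q u → Q' u :=
  (Eventually.and h h').mono fun _ e => imp_congr e.1 e.2

theorem Tame.iff {Q Q' : X → Prop} (h : Tame Φ Q) (h' : Tame Φ Q') :
    Tame Φ fun u => (Q u ↔ Q' u) :=
  (Eventually.and h h').mono fun _ e => iff_congr e.1 e.2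

theorem tame_all {A : Type} (t : Finset A) {Q : A → X → Prop} (h : ∀ a, Tame Φ (Q a)) :
    Tame Φ fun u => ∀ a ∈ t, Q a u :=
  ((eventually_all_finset t).mpr fun a _ => h a).mono fun _ e => forall₂_congr e

theorem tame_ex {A : Type} (t : Finset A) {Q : A → X → Prop} (h : ∀ a, Tame Φ (Q a)) :
    Tame Φ fun u => ∃ a ∈ t, Q a u :=
  ((eventually_all_finset t).mpr fun a _ => h a).mono fun _ e =>
    exists_congr fun a => and_congr_right (e a)

theorem tame_lt (i : ℕ) {Q : ℕ → X → Prop} (h : ∀ a, Tame Φ (Q a)) :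
    Tame Φ fun u => ∀ a < i, Q a u := by
  simpa only [Finset.mem_range] using tame_all (Finset.range i) h

variable (hF : ∀ g : G, Tendsto (fun p : X × X => (g • p.1, g • p.2)) Φ Φ)
  (hfix : ∀ g : G, ∀ᶠ p in Φ, (g • p.1 = p.1 ↔ g • p.2 = p.2))
  (hσ : ∀ v, σ v ∈ S) (hσF : ∀ᶠ p in Φ, σ p.1 = σ p.2)

include hfix in
theorem tame_eq (g g' : G) : Tame Φ fun u => g • u = g' • u := by
  simpa only [Tame, mul_smul, inv_smul_eq_iff] using hfix (g'⁻¹ * g)

include hfix in
theorem tame_near (r : ℕ) (g g' : G) : Tame Φ fun u => Near S r (g • u) (g' • u) := by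
  simpa only [near_iff, mul_smul] using tame_ex (Wd S r) fun w => tame_eq hfix g' (w * g)

include hF hσ hσF in
theorem tame_iter (i : ℕ) {Q : X → X → Prop} (h : ∀ g : G, Tame Φ fun u => Q u (g • u)) :
    Tame Φ fun u => Q u ((stp σ)^[i] u) := by
  induction i generalizing Q with
  | zero => simpa using h 1
  | succ i ih =>
    simp only [Function.iterate_succ_apply']
    refine ih (Q := fun u z => Q u (stp σ z)) fun g => ?_
    filter_upwards [(hF g).eventually hσF, (eventually_all_finset S).mpr fun s _ => h (s * g)]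
      with p h1 h2
    have := h2 _ (hσ (g • p.1))
    simp only [mul_smul] at this
    simp only [stp]
    rw [← h1]
    exact this

variable (hinv : ∀ s ∈ S, s⁻¹ ∈ S) (hgen : Subgroup.closure (S : Set G) = ⊤)
  (hBF : ∀ᶠ p in Φ, (p.1 ∈ B ↔ p.2 ∈ B))
  (hP : ∀ r, ∃ k, ∀ v j, Al σ B v j → Near S r v ((stp σ)^[j] v) → j ≤ k)

include hF hfix hσ hσF hinv hgen hBF hP in
theorem tame_chi (ρ : ℕ) (F : Finset G) (w w' : G) :
    Tame Φ fun u => Chi S σ B ρ (w • u) F (w' • u) := by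
  suffices h : ∀ w : G, Tame Φ fun u => Chi S σ B ρ (w • u) F u by
    simpa only [Tame, mul_smul, inv_smul_smul] using (hF w').eventually (h (w * w'⁻¹))
  intro w
  obtain ⟨l, hl, rfl⟩ := exists_word hinv hgen w
  obtain ⟨k, hk⟩ := hP (l.length + ρ)
  have := tame_ex (Finset.range (k + 1)) fun i =>
    (tame_lt i fun j => tame_iter hF hσ hσF j (Q := fun _ z => z ∉ B)
      fun g => Tame.not ((hF g).eventually hBF)).and
    ((tame_iter hF hσ hσF i (Q := fun u z => Near S ρ (l.prod • u) z)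
      fun g => tame_near hfix ρ _ g).and
    ((tame_lt i fun j => tame_iter hF hσ hσF j (Q := fun u z => ¬ Near S ρ (l.prod • u) z)
      fun g => (tame_near hfix ρ _ g).not).and
    (tame_iter hF hσ hσF i (Q := fun u z => ∃ w ∈ F, z = w • l.prod • u) fun g =>
      tame_ex F fun w => by simpa only [mul_smul] using tame_eq hfix g (w * l.prod))))
  convert this using 2 with u
  exact ⟨fun ⟨i, h⟩ => ⟨i, Finset.mem_range.mpr (Nat.lt_succ_of_le
    (hk u i h.1 (near_trans ⟨l, le_rfl, hl, rfl⟩ h.2.1))), h⟩, fun ⟨i, _, h⟩ => ⟨i, h⟩⟩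

include hF hfix hσ hσF hinv hgen hBF hP in
theorem tame_good (ρ D E : ℕ) (F : Finset G) (w : G) :
    Tame Φ fun u => Good S σ B ρ D E (w • u) F := by
  refine (hF w).eventually (p := fun p => Good S σ B ρ D E p.1 F ↔ Good S σ B ρ D E p.2 F) ?_
  have h1 : ∀ g : G, Tame Φ fun u => ¬ Near S ρ u (g • u) := fun g => by
    simpa only [one_smul] using (tame_near (S := S) hfix ρ 1 g).not
  have h2 : ∀ g : G, Tame Φ fun u => Chi S σ B ρ u F (g • u) := fun g => by
    simpa only [one_smul] using tame_chi hF hfix hσ hσF hinv hgen hBF hP ρ F 1 g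
  exact tame_all _ fun w₁ => tame_all _ fun w₂ => (h1 w₁).imp ((h1 w₂).imp
    ((tame_near hfix D w₁ w₂).imp ((h2 w₁).iff (h2 w₂))))

open Classical in
include hF hfix hσ hσF hinv hgen hBF hP in
theorem loc_eq (ρ D E r : ℕ) (g : G) : ∀ᶠ p in Φ,
    (Dset S σ B ρ D E (g • p.1) ∩ {q | Near S r p.1 q.1}).ncard =
      (Dset S σ B ρ D E (g • p.2) ∩ {q | Near S r p.2 q.1}).ncard := by
  filter_upwards [(eventually_all_finset (Wd S r ×ˢ (Wd S ρ).powerset)).mpr fun q _ =>
    (tame_good hF hfix hσ hσF hinv hgen hBF hP ρ D E q.2 q.1).and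
      (tame_chi hF hfix hσ hσF hinv hgen hBF hP ρ q.2 q.1 g),
    (eventually_all_finset (Wd S r)).mpr fun w _ => (eventually_all_finset (Wd S r)).mpr
      fun w' _ => tame_eq hfix w w'] with p h1 h2
  rw [ncard_loc, ncard_loc, show loc S σ B ρ D E r g p.1 = loc S σ B ρ D E r g p.2 from
    Finset.filter_congr h1]
  refine card_image_eq _ _ _ fun a ha b hb => ?_
  simp only [Prod.mk.injEq]
  exact and_congr_left' (h2 _ (Finset.mem_product.mp (Finset.mem_filter.mp ha).1).1 _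
    (Finset.mem_product.mp (Finset.mem_filter.mp hb).1).1)

end tame

end Comb

open Comb

theorem exists_depth {G X : Type} [Group G] [MulAction G X] (S : Finset G)
    (hinv : ∀ s ∈ S, s⁻¹ ∈ S) (hgen : Subgroup.closure (S : Set G) = ⊤)
    (F : Filter (X × X)) (hF : ∀ g : G, Tendsto (fun p : X × X => (g • p.1, g • p.2)) F F)
    (hfix : ∀ g : G, ∀ᶠ p in F, (g • p.1 = p.1 ↔ g • p.2 = p.2))
    (σ : X → G) (hσ : ∀ v, σ v ∈ S) (hσF : ∀ᶠ p in F, σ p.1 = σ p.2)
    (B : Set X) (hB : B.Finite) (hBF : ∀ᶠ p in F, (p.1 ∈ B ↔ p.2 ∈ B))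
    (htop : ∀ v, ∃ n, (stp σ)^[n] v ∈ B)
    (hP : ∀ r, ∃ k, ∀ v j, (∀ i < j, (stp σ)^[i] v ∉ B) → Near S r v ((stp σ)^[j] v) → j ≤ k)
    (hBP : ∃ r, ∀ v a, (∀ i < a, (stp σ)^[i] v ∉ B) → ∀ (γ : ℕ → X) (n : ℕ), IsPath S γ n →
      γ 0 = v → γ n ∈ B → ∃ k ≤ n, Near S r ((stp σ)^[a] v) (γ k)) :
    ∃ ℓ : X → ℝ, (∀ v, 0 < ℓ v) ∧ Summable ℓ ∧
      ∀ g : G, ∀ᶠ p in F, ℓ (g • p.1) * ℓ p.2 = ℓ (g • p.2) * ℓ p.1 := by
  obtain ⟨r₀, hBP⟩ := hBP
  obtain ⟨k₁, hk⟩ := hP (2 * (r₀ + 1) + 1)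
  let A := Dset S σ B (r₀ + (r₀ + 1)) (r₀ + 1) (r₀ + (r₀ + 1) + k₁ + (r₀ + 1) + (r₀ + 1))
  have hA : ∀ u, (A u).Finite := finite_dset hinv hσ htop
  have hq : (0 : ℝ) < S.card + 1 := by positivity
  refine ⟨fun u => ((S.card + 1 : ℝ)⁻¹) ^ (A u).ncard, fun _ => by positivity, ?_, fun g => ?_⟩
  · choose n h1 h2 using exists_top htop
    exact Summable.of_nonneg_of_le (fun _ => by positivity) (fun u => pow_le_pow_of_le_one
      (by positivity) (inv_le_one_of_one_le₀ (by simp)) (le_depth hinv hσ htop hBP (h1 u) (h2 u)))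
      (summable_pow hσ hB n h1)
  suffices h : ∀ᶠ p in F, (A (g • p.1)).ncard + (A p.2).ncard =
      (A (g • p.2)).ncard + (A p.1).ncard from h.mono fun p e => by rw [← pow_add, e, pow_add]
  obtain ⟨l, hl, rfl⟩ := exists_word hinv hgen g
  induction l with
  | nil => exact Eventually.of_forall fun p => by simp [add_comm]
  | cons s l ih =>
    have hs := hl s (by simp)
    let N := fun u : X => {q : X × Finset G | Near S (r₀ + (r₀ + 1) + k₁ + (r₀ + 1) + 1) u q.1}
    have key : ∀ u, (A (s • u)).ncard + (A u ∩ N u).ncard =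
        (A u).ncard + (A (s • u) ∩ N u).ncard := by
      intro u
      have e : A (s • u) \ N u = A u \ N u := by
        ext q
        refine and_congr_left fun hq => and_congr_right fun _ => and_congr_right fun hg => ?_
        exact (chi_step hinv hσ htop hBP hk hs hg
          (fun h => hq (near_mono (near_symm hinv h) (by omega))) fun h => hq (near_mono
            (near_trans (near_step hs u) (near_symm hinv h)) (by omega))).symm
      have e1 := Set.ncard_inter_add_ncard_sdiff_eq_ncard _ (N u) (hA (s • u))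
      have e2 := Set.ncard_inter_add_ncard_sdiff_eq_ncard _ (N u) (hA u)
      rw [e] at e1
      omega
    have h1 : ∀ᶠ p in F, (A (s • p.1)).ncard + (A p.2).ncard =
        (A (s • p.2)).ncard + (A p.1).ncard := by
      filter_upwards [loc_eq hF hfix hσ hσF hinv hgen hBF hP _ _ _ _ s,
        loc_eq hF hfix hσ hσF hinv hgen hBF hP _ _ _ _ 1] with p
        (e1 : (A (s • p.1) ∩ N p.1).ncard = (A (s • p.2) ∩ N p.2).ncard)
        (e2 : (A (1 • p.1) ∩ N p.1).ncard = (A (1 • p.2) ∩ N p.2).ncard)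
      rw [one_smul, one_smul] at e2
      have := key p.1
      have := key p.2
      omega
    filter_upwards [ih fun t ht => hl t (by simp [ht]), (hF l.prod).eventually h1] with p e1 e2
    simp only [List.prod_cons, mul_smul] at e2 ⊢
    omega

end Pool.Agent.Lib.MP_173a7e_an
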