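import Mathlib

/-! Basic notions for the Dippolito project: left end points of gaps, words, paths. -/

set_option autoImplicit false

namespace Pool.Agent.Lib.MP_173a7e_an

open Set

/-- Left end points of the gaps of `Λ`. -/
def LE (Λ : Set ℝ) : Set ℝ := {p | p ∈ Λ ∧ ∃ q, p < q ∧ ∀ y ∈ Ioo p q, y ∉ Λ}

/-- The next point of `Λ` to the right of `p`. -/
noncomputable def nxt (Λ : Set ℝ) (p : ℝ) : ℝ := sInf (Λ ∩ Ioi p)

section Graph

variable {G X : Type} [Group G] [MulAction G X]

/-- `v` is reached from `u` by a word of length at most `r` in `S`. -/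
def Near (S : Finset G) (r : ℕ) (u v : X) : Prop :=
  ∃ w : List G, w.length ≤ r ∧ (∀ s ∈ w, s ∈ S) ∧ v = w.prod • u

/-- `γ 0, ..., γ n` is a path in the Schreier graph of `S`. -/
def IsPath (S : Finset G) (γ : ℕ → X) (n : ℕ) : Prop := ∀ k < n, ∃ s ∈ S, γ (k + 1) = s • γ k

/-- The map `v ↦ σ v • v`. -/
def stp (σ : X → G) (v : X) : X := σ v • v

end Graph

end Pool.Agent.Lib.MP_173a7e_an
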