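import Pool.Agent.Lib.MP_173a7e_an.Main

/-! Cross-ratio calculus, generators, paths and counting. -/

set_option autoImplicit false
set_option linter.unusedSectionVars false
set_option linter.unusedVariables false

namespace Pool.Agent.Lib.MP_173a7e_an

section

open Set Filter Topology

variable {G : Type} [Group G] [MulAction G ℝ]

/-- The difference quotient, equal to the derivative on the diagonal. -/
noncomputable def sl (g : G) (p t : ℝ) : ℝ := dslope (fun y : ℝ => g • y) p t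

/-- The second derivative. -/
noncomputable def DD (g : G) (x : ℝ) : ℝ := deriv (D g) x

/-- Half of the nonlinearity. -/
noncomputable def Nl (g : G) (x : ℝ) : ℝ := DD g x / (2 * D g x)

/-- Logarithm of the difference quotient. -/
noncomputable def Fl (g : G) (p t : ℝ) : ℝ := Real.log (sl g p t)

/-- Logarithmic cross-ratio distortion. -/
noncomputable def Xr (g : G) (p p' t1 t2 : ℝ) : ℝ := Fl g p t2 - Fl g p t1 - Fl g p' t2 + Fl g p' t1

theorem sl_same (g : G) (p : ℝ) : sl g p p = D g p := by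
  unfold sl D; rw [dslope_same]

theorem sl_ne (g : G) {p t : ℝ} (h : t ≠ p) : sl g p t = (g • t - g • p) / (t - p) := by
  unfold sl; rw [dslope_of_ne _ h, slope_def_field]

theorem sl_symm (g : G) (p t : ℝ) : sl g p t = sl g t p := by
  by_cases h : t = p
  · rw [h]
  · rw [sl_ne g h, sl_ne g (Ne.symm h), ← neg_sub (g • p), ← neg_sub p, neg_div_neg_eq]

theorem Fl_symm (g : G) (p t : ℝ) : Fl g p t = Fl g t p := by
  unfold Fl; rw [sl_symm]

variable [SmoothAct G]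

theorem sl_pos (g : G) (p t : ℝ) : 0 < sl g p t := by
  rcases lt_trichotomy t p with h | h | h
  · rw [sl_ne g h.ne]
    exact div_pos_of_neg_of_neg (sub_neg.2 ((act_lt g).2 h)) (sub_neg.2 h)
  · rw [h, sl_same]; exact D_pos g p
  · rw [sl_ne g h.ne']
    exact div_pos (sub_pos.2 ((act_lt g).2 h)) (sub_pos.2 h)

theorem exp_Fl (g : G) (p t : ℝ) : Real.exp (Fl g p t) = sl g p t := Real.exp_log (sl_pos g p t)

omit [SmoothAct G] in
theorem act_ne (g : G) {p t : ℝ} (h : t ≠ p) : g • t ≠ g • p := fun e =>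
  h (MulAction.injective g e)

theorem sl_mul (g h : G) (p t : ℝ) : sl (g * h) p t = sl g (h • p) (h • t) * sl h p t := by
  by_cases e : t = p
  · rw [e, sl_same, sl_same, sl_same, D_mul]
  · have e' := act_ne h e
    rw [sl_ne _ e, sl_ne _ e, sl_ne _ e', mul_smul, mul_smul]
    field_simp [sub_ne_zero.2 e, sub_ne_zero.2 e']

theorem Fl_mul (g h : G) (p t : ℝ) : Fl (g * h) p t = Fl g (h • p) (h • t) + Fl h p t := by
  unfold Fl; rw [sl_mul, Real.log_mul (sl_pos _ _ _).ne' (sl_pos _ _ _).ne']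

theorem Xr_mul (g h : G) (p p' t1 t2 : ℝ) :
    Xr (g * h) p p' t1 t2 = Xr g (h • p) (h • p') (h • t1) (h • t2) + Xr h p p' t1 t2 := by
  unfold Xr; simp only [Fl_mul]; ring

theorem exp_Xr (g : G) (p p' t1 t2 : ℝ) :
    Real.exp (Xr g p p' t1 t2) = sl g p t2 * sl g p' t1 / (sl g p t1 * sl g p' t2) := by
  unfold Xr
  rw [Real.exp_add, Real.exp_sub, Real.exp_sub]
  simp only [exp_Fl]
  have := sl_pos g p t1
  have := sl_pos g p' t2
  field_simp

theorem cont_sl (g : G) (p : ℝ) : Continuous (sl g p) := by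
  rw [continuous_iff_continuousAt]
  intro t
  by_cases h : t = p
  · subst h; exact continuousAt_dslope_same.2 (diffAt g t)
  · exact (continuousAt_dslope_of_ne h).2 (cont_smul g).continuousAt

theorem cont_Fl (g : G) (p : ℝ) : Continuous (Fl g p) :=
  (cont_sl g p).log fun t => (sl_pos g p t).ne'

theorem hasD_Fl (g : G) {p t : ℝ} (h : t ≠ p) :
    HasDerivAt (Fl g p) (D g t / (g • t - g • p) - 1 / (t - p)) t := by
  have h1 : t - p ≠ 0 := sub_ne_zero.2 h
  have h2 : g • t - g • p ≠ 0 := sub_ne_zero.2 (act_ne g h)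
  have a : HasDerivAt (fun u => Real.log (g • u - g • p) - Real.log (u - p))
      (D g t / (g • t - g • p) - 1 / (t - p)) t :=
    (((hasD g t).sub_const _).log h2).sub (((hasDerivAt_id t).sub_const p).log h1)
  refine a.congr_of_eventuallyEq ?_
  filter_upwards [isOpen_ne.mem_nhds h] with u hu
  unfold Fl
  rw [sl_ne g hu, Real.log_div (sub_ne_zero.2 (act_ne g hu)) (sub_ne_zero.2 hu)]

theorem hasD_D (g : G) (x : ℝ) : HasDerivAt (D g) (DD g x) x :=
  (((contDiff_D g).differentiable (by norm_num)) x).hasDerivAt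

theorem cont_DD (g : G) : Continuous (DD g) := (contDiff_D g).continuous_deriv le_rfl

theorem DD_int (g : G) (x : ℝ) (n : ℤ) : DD g (x + n) = DD g x := by
  have : (fun y => D g (y + n)) = D g := funext fun y => D_int g y n
  unfold DD
  rw [← deriv_comp_add_const (D g) (n : ℝ) x, this]

theorem mvtD (g : G) (a b : ℝ) : ∃ u ∈ uIcc a b, D g b - D g a = DD g u * (b - a) := by
  rcases lt_trichotomy a b with h | h | h
  · obtain ⟨c, hc, hc'⟩ := exists_hasDerivAt_eq_slope (D g) (DD g) h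
      (cont_D g).continuousOn (fun x _ => hasD_D g x)
    refine ⟨c, ?_, ?_⟩
    · rw [uIcc_of_le h.le]; exact Ioo_subset_Icc_self hc
    · rw [hc']; field_simp [(sub_pos.2 h).ne']
  · subst h; exact ⟨a, left_mem_uIcc, by simp⟩
  · obtain ⟨c, hc, hc'⟩ := exists_hasDerivAt_eq_slope (D g) (DD g) h
      (cont_D g).continuousOn (fun x _ => hasD_D g x)
    refine ⟨c, ?_, ?_⟩
    · rw [uIcc_of_ge h.le]; exact Ioo_subset_Icc_self hc
    · rw [hc']; field_simp [(sub_pos.2 h).ne']; ring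

theorem taylor2 (g : G) {p t : ℝ} (h : p ≠ t) :
    ∃ ξ ∈ uIcc p t, D g t * (t - p) - (g • t - g • p) = DD g ξ / 2 * (t - p) ^ 2 := by
  have d1 : ∀ u, HasDerivAt (fun u => D g t * (t - u) - (g • t - g • u)) (D g u - D g t) u := by
    intro u
    have := (((hasDerivAt_id u).const_sub t).const_mul (D g t)).sub ((hasD g u).const_sub (g • t))
    exact this.congr_deriv (by ring)
  have d2 : ∀ u, HasDerivAt (fun u => (t - u) ^ 2) (-2 * (t - u)) u := by
    intro u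
    have := ((hasDerivAt_id u).const_sub t).pow 2
    exact this.congr_deriv (by simp)
  have key : ∃ c ∈ uIcc p t, c ≠ t ∧ (t - p) ^ 2 * (D g c - D g t) =
      (D g t * (t - p) - (g • t - g • p)) * (-2 * (t - c)) := by
    rcases lt_or_gt_of_ne h with h' | h'
    · obtain ⟨c, hc, e⟩ := exists_ratio_hasDerivAt_eq_ratio_slope _ _ h'
        (fun u _ => (d1 u).continuousAt.continuousWithinAt) (fun u _ => d1 u) _ _
        (fun u _ => (d2 u).continuousAt.continuousWithinAt) (fun u _ => d2 u)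
      refine ⟨c, by rw [uIcc_of_le h'.le]; exact Ioo_subset_Icc_self hc, hc.2.ne, ?_⟩
      simp only [sub_self, mul_zero] at e
      linarith
    · obtain ⟨c, hc, e⟩ := exists_ratio_hasDerivAt_eq_ratio_slope _ _ h'
        (fun u _ => (d1 u).continuousAt.continuousWithinAt) (fun u _ => d1 u) _ _
        (fun u _ => (d2 u).continuousAt.continuousWithinAt) (fun u _ => d2 u)
      refine ⟨c, by rw [uIcc_of_ge h'.le]; exact Ioo_subset_Icc_self hc, hc.1.ne', ?_⟩
      simp only [sub_self, mul_zero] at e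
      linarith
  obtain ⟨c, hc, hct, e⟩ := key
  obtain ⟨ξ, hξ, e2⟩ := mvtD g c t
  refine ⟨ξ, uIcc_subset_uIcc hc right_mem_uIcc hξ, ?_⟩
  have h3 : t - c ≠ 0 := sub_ne_zero.2 (Ne.symm hct)
  apply mul_right_cancel₀ h3
  have : D g c - D g t = -(DD g ξ * (t - c)) := by linarith
  rw [this] at e
  linarith

/-- Hoelder bound for the second derivative at scales at most one. -/
def Hol (α : ℝ) (g : G) : Prop :=
  ∃ H, ∀ x y : ℝ, |x - y| ≤ 1 → |DD g x - DD g y| ≤ H * |x - y| ^ α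

omit [SmoothAct G] in
theorem Hol.mono {α β : ℝ} {g : G} (h : Hol α g) (hβ : 0 < β) (hle : β ≤ α) : Hol β g := by
  obtain ⟨H, hH⟩ := h
  refine ⟨max H 0, fun x y hxy => (hH x y hxy).trans ?_⟩
  have h1 : |x - y| ^ α ≤ |x - y| ^ β :=
    Real.rpow_le_rpow_of_exponent_ge' (abs_nonneg _) hxy hβ.le hle
  have h2 : 0 ≤ |x - y| ^ α := Real.rpow_nonneg (abs_nonneg _) _
  calc H * |x - y| ^ α ≤ max H 0 * |x - y| ^ α := mul_le_mul_of_nonneg_right (le_max_left _ _) h2
    _ ≤ _ := mul_le_mul_of_nonneg_left h1 (le_max_right _ _)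

theorem Nl_bdd (g : G) : ∃ C, 0 ≤ C ∧ ∀ x, |Nl g x| ≤ C :=
  per_bdd _ ((cont_DD g).div (continuous_const.mul (cont_D g))
    (fun x => mul_ne_zero two_ne_zero (D_pos g x).ne')) (fun x n => by
      unfold Nl; simp only [DD_int, D_int])

theorem key_bound {α : ℝ} (h0 : 0 < α) (h1 : α ≤ 1) {g : G} (hg : Hol α g) :
    ∃ C, 0 ≤ C ∧ ∀ p t : ℝ, p ≠ t → |t - p| ≤ 1 →
      |D g t / (g • t - g • p) - 1 / (t - p) - Nl g t| ≤ C * |t - p| ^ α := by
  obtain ⟨H, hH⟩ := hg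
  obtain ⟨M, M0, hM⟩ := per_bdd _ (cont_DD g) (DD_int g)
  obtain ⟨L, L0, hL⟩ := per_bdd (fun x => (D g x)⁻¹) ((cont_D g).inv₀ fun x => (D_pos g x).ne')
    (fun x n => by simp only [D_int])
  have hL' : ∀ x, (D g x)⁻¹ ≤ L := fun x => le_trans (le_abs_self _) (hL x)
  refine ⟨max H 0 * L + M * M * L * L, by positivity, fun p t hpt hr => ?_⟩
  obtain ⟨ξ, hξ, e1⟩ := taylor2 g hpt
  obtain ⟨ζ, hζ, e2⟩ := mvt g p t
  obtain ⟨υ, -, e3⟩ := mvtD g ζ t
  have n1 : t - p ≠ 0 := sub_ne_zero.2 (Ne.symm hpt)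
  have p1 := D_pos g ζ
  have p2 := D_pos g t
  have e4 : D g t / (g • t - g • p) - 1 / (t - p) - Nl g t =
      (DD g ξ - DD g t) * (D g ζ)⁻¹ / 2 +
        DD g t * (DD g υ * (t - ζ)) * (D g ζ)⁻¹ * (D g t)⁻¹ / 2 := by
    have : D g t / (g • t - g • p) - 1 / (t - p) = DD g ξ / (2 * D g ζ) := by
      rw [e2] at e1 ⊢
      field_simp
      apply mul_right_cancel₀ n1
      linarith
    rw [this, ← e3]
    unfold Nl
    field_simp
    ring
  have r0 : 0 ≤ |t - p| := abs_nonneg _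
  have b1 : |ξ - t| ≤ |t - p| := by
    rw [abs_sub_comm t p]; exact abs_sub_right_of_mem_uIcc hξ |>.trans_eq' (abs_sub_comm _ _) |>.trans_eq (abs_sub_comm _ _)
  have b2 : |t - ζ| ≤ |t - p| := abs_sub_right_of_mem_uIcc hζ
  have b3 : |DD g ξ - DD g t| ≤ max H 0 * |t - p| ^ α := by
    refine (hH ξ t (b1.trans hr)).trans ?_
    calc H * |ξ - t| ^ α ≤ max H 0 * |ξ - t| ^ α :=
          mul_le_mul_of_nonneg_right (le_max_left _ _) (Real.rpow_nonneg (abs_nonneg _) _)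
      _ ≤ _ := mul_le_mul_of_nonneg_left (Real.rpow_le_rpow (abs_nonneg _) b1 h0.le)
          (le_max_right _ _)
  have b4 : |t - p| ≤ |t - p| ^ α := by
    have := Real.rpow_le_rpow_of_exponent_ge' r0 hr h0.le h1
    rwa [Real.rpow_one] at this
  have q0 : 0 ≤ |t - p| ^ α := Real.rpow_nonneg r0 _
  have i1 := inv_pos.2 p1
  have i2 := inv_pos.2 p2
  rw [e4]
  refine (abs_add_le _ _).trans ?_
  rw [abs_div, abs_div, abs_mul, abs_mul, abs_mul, abs_mul, abs_mul, abs_of_pos i1, abs_of_pos i2,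
    abs_two, add_mul]
  have c1 : |DD g ξ - DD g t| * (D g ζ)⁻¹ ≤ max H 0 * L * |t - p| ^ α := by
    calc _ ≤ (max H 0 * |t - p| ^ α) * L :=
          mul_le_mul b3 (hL' _) i1.le (by positivity)
      _ = _ := by ring
  have c2 : |DD g t| * (|DD g υ| * |t - ζ|) * (D g ζ)⁻¹ * (D g t)⁻¹ ≤
      M * M * L * L * |t - p| ^ α := by
    calc _ ≤ M * (M * |t - p| ^ α) * L * L := by
          gcongr
          · exact hM _
          · exact hM _
          · exact b2.trans b4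
          · exact hL' _
          · exact hL' _
      _ = _ := by ring
  have c3 : 0 ≤ |DD g ξ - DD g t| * (D g ζ)⁻¹ := by positivity
  have c4 : 0 ≤ |DD g t| * (|DD g υ| * |t - ζ|) * (D g ζ)⁻¹ * (D g t)⁻¹ := by positivity
  linarith

end

section

open Set Filter Topology
open scoped Pointwise

theorem count_sep {ι : Type} (s : Finset ι) (f : ι → ℝ) {A l δ : ℝ} (hδ : 0 < δ) (hl : 0 ≤ l)
    (h1 : ∀ i ∈ s, A ≤ f i ∧ f i ≤ A + l) (h2 : ∀ i ∈ s, ∀ j ∈ s, i ≠ j → δ ≤ |f i - f j|) :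
    (s.card : ℝ) ≤ l / δ + 1 := by
  have h3 : s.card ≤ (Finset.range (⌊l / δ⌋₊ + 1)).card := by
    refine Finset.card_le_card_of_injOn (fun i => ⌊(f i - A) / δ⌋₊) (fun i hi => ?_) ?_
    · simp only [Finset.coe_range, mem_Iio]
      exact Nat.lt_succ_of_le (Nat.floor_le_floor
        (div_le_div_of_nonneg_right (by linarith [(h1 i hi).2]) hδ.le))
    · intro i hi j hj e
      by_contra hne
      have a := h2 i hi j hj hne
      have p1 : 0 ≤ (f i - A) / δ := div_nonneg (by linarith [(h1 i hi).1]) hδ.le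
      have p2 : 0 ≤ (f j - A) / δ := div_nonneg (by linarith [(h1 j hj).1]) hδ.le
      have b1 := Nat.floor_le p1
      have b2 := Nat.floor_le p2
      have b3 := Nat.lt_floor_add_one ((f i - A) / δ)
      have b4 := Nat.lt_floor_add_one ((f j - A) / δ)
      simp only at e
      rw [e] at b1 b3
      have c : |(f i - A) / δ - (f j - A) / δ| < 1 := by rw [abs_lt]; constructor <;> linarith
      rw [← sub_div, abs_div, abs_of_pos hδ, div_lt_one hδ, show f i - A - (f j - A) = f i - f j by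
        ring] at c
      linarith
  rw [Finset.card_range] at h3
  have h4 := Nat.floor_le (div_nonneg hl hδ.le)
  have : (s.card : ℝ) ≤ ((⌊l / δ⌋₊ + 1 : ℕ) : ℝ) := by exact_mod_cast h3
  push_cast at this
  linarith

theorem count_mod {ι : Type} (s : Finset ι) (z : ι → ℝ) {δ : ℝ} (hδ : 0 < δ)
    (h2 : ∀ i ∈ s, ∀ j ∈ s, i ≠ j → ∀ m : ℤ, δ ≤ |z i - z j - m|) :
    (s.card : ℝ) ≤ 1 / δ + 1 := by
  refine count_sep s (fun i => Int.fract (z i)) (A := 0) hδ zero_le_one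
    (fun i _ => ⟨Int.fract_nonneg _, by linarith [Int.fract_lt_one (z i)]⟩) fun i hi j hj hne => ?_
  have := h2 i hi j hj hne (⌊z i⌋ - ⌊z j⌋)
  convert this using 2
  unfold Int.fract; push_cast; ring

/-- The tail sums controlling dyadic classes. -/
noncomputable def tl (α : ℝ) (k0 : ℕ) : ℝ :=
  ∑' k : ℕ, ((k + k0 : ℕ) + 1 : ℝ) * (((1 : ℝ) / 2) ^ α) ^ (k + k0)

theorem tl_summable {α : ℝ} (h : 0 < α) :
    Summable fun k : ℕ => ((k : ℝ) + 1) * (((1 : ℝ) / 2) ^ α) ^ k := by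
  have q0 : 0 ≤ ((1 : ℝ) / 2) ^ α := by positivity
  have q1 : ((1 : ℝ) / 2) ^ α < 1 := Real.rpow_lt_one (by norm_num) (by norm_num) h
  have a := summable_pow_mul_geometric_of_norm_lt_one 1 (r := ((1 : ℝ) / 2) ^ α)
    (by rwa [Real.norm_of_nonneg q0])
  have b := summable_geometric_of_lt_one q0 q1
  refine (a.add b).congr fun k => ?_
  ring

theorem tl_small {α : ℝ} (h : 0 < α) {ε : ℝ} (hε : 0 < ε) : ∃ k0, ∀ k ≥ k0, tl α k ≤ ε := by
  have := tendsto_sum_nat_add fun k : ℕ => ((k : ℝ) + 1) * (((1 : ℝ) / 2) ^ α) ^ k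
  obtain ⟨k0, hk⟩ := eventually_atTop.1 (this.eventually (ge_mem_nhds hε))
  exact ⟨k0, hk⟩

theorem tl_nonneg (α : ℝ) (k0 : ℕ) : 0 ≤ tl α k0 := tsum_nonneg fun k => by positivity

open Classical in
theorem dyad {ι : Type} {α : ℝ} (h : 0 < α) (s : Finset ι) (θ : ι → ℝ) {A : ℝ} (hA : 0 ≤ A)
    (k0 : ℕ) (h1 : ∀ i ∈ s, 0 < θ i ∧ θ i ≤ (1 / 2) ^ k0)
    (h2 : ∀ k : ℕ, ((s.filter fun i => (1 / 2) ^ (k + 1) < θ i ∧ θ i ≤ (1 / 2) ^ k).card : ℝ) ≤
      A * (k + 1) * 2 ^ k) : ∑ i ∈ s, θ i ^ (1 + α) ≤ A * tl α k0 := by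
  have ex : ∀ i ∈ s, ∃ k : ℕ, (1 / 2 : ℝ) ^ (k + k0 + 1) < θ i ∧ θ i ≤ (1 / 2) ^ (k + k0) := by
    intro i hi
    have p : (0 : ℝ) < (1 / 2) ^ k0 := by positivity
    obtain ⟨k, a, b⟩ := exists_nat_pow_near_of_lt_one (x := θ i / (1 / 2) ^ k0)
      (y := (1 / 2 : ℝ)) (div_pos (h1 i hi).1 p) ((div_le_one p).2 (h1 i hi).2) (by norm_num)
      (by norm_num)
    refine ⟨k, ?_, ?_⟩
    · rw [lt_div_iff₀ p] at a
      calc (1 / 2 : ℝ) ^ (k + k0 + 1) = (1 / 2) ^ (k + 1) * (1 / 2) ^ k0 := by ring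
        _ < _ := a
    · rw [div_le_iff₀ p] at b
      calc _ ≤ _ := b
        _ = _ := by ring
  choose! κ hκ using ex
  set q : ℝ := ((1 : ℝ) / 2) ^ α with hq
  have q0 : 0 ≤ q := by positivity
  rw [← Finset.sum_fiberwise_of_maps_to (s := s) (t := s.image κ) (g := κ)
    (fun i hi => Finset.mem_image_of_mem _ hi)]
  have sm : Summable fun k : ℕ => ((k + k0 : ℕ) + 1 : ℝ) * q ^ (k + k0) :=
    (summable_nat_add_iff k0).2 (tl_summable h)
  unfold tl
  rw [← tsum_mul_left]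
  refine le_trans (Finset.sum_le_sum fun k _ => ?_)
    ((sm.mul_left A).sum_le_tsum _ fun k _ => by positivity)
  have b1 : ∀ i ∈ s.filter fun i => κ i = k, θ i ^ (1 + α) ≤ (1 / 2) ^ (k + k0) * q ^ (k + k0) := by
    intro i hi
    rw [Finset.mem_filter] at hi
    have a := hκ i hi.1
    rw [hi.2] at a
    calc θ i ^ (1 + α) ≤ ((1 / 2) ^ (k + k0) : ℝ) ^ (1 + α) :=
          Real.rpow_le_rpow (h1 i hi.1).1.le a.2 (by linarith)
      _ = _ := by
          rw [Real.rpow_add (by positivity), Real.rpow_one, hq, ← Real.rpow_natCast_mul (by norm_num),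
            mul_comm ((k + k0 : ℕ) : ℝ), Real.rpow_mul_natCast (by norm_num)]
  have b2 : ((s.filter fun i => κ i = k).card : ℝ) ≤ A * ((k + k0 : ℕ) + 1) * 2 ^ (k + k0) := by
    refine le_trans ?_ (h2 (k + k0))
    have : (s.filter fun i => κ i = k) ⊆
        s.filter fun i => (1 / 2) ^ (k + k0 + 1) < θ i ∧ θ i ≤ (1 / 2) ^ (k + k0) := by
      intro i hi
      rw [Finset.mem_filter] at hi ⊢
      have a := hκ i hi.1
      rw [hi.2] at a
      exact ⟨hi.1, a⟩
    exact_mod_cast Finset.card_le_card this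
  have b3 := Finset.sum_le_card_nsmul _ _ _ b1
  rw [nsmul_eq_mul] at b3
  refine b3.trans ((mul_le_mul_of_nonneg_right b2 (by positivity)).trans (le_of_eq ?_))
  have : (2 : ℝ) ^ (k + k0) * (1 / 2) ^ (k + k0) = 1 := by rw [← mul_pow]; norm_num
  calc _ = A * ((((k + k0 : ℕ) : ℝ) + 1) * q ^ (k + k0)) * (2 ^ (k + k0) * (1 / 2) ^ (k + k0)) := by
        ring
    _ = _ := by rw [this, mul_one]

/-- Sum bound for families separated in proportion to their sizes. -/
theorem sum_sep {α : ℝ} (h : 0 < α) {κ ε : ℝ} (hκ : 0 < κ) (hε : 0 < ε) :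
    ∃ θ0 > 0, ∀ (n : ℕ) (z θ : ℕ → ℝ), (∀ i < n, 0 < θ i ∧ θ i ≤ θ0) →
      (∀ i < n, ∀ j < n, i ≠ j → ∀ m : ℤ, κ * min (θ i) (θ j) ≤ |z i - z j - m|) →
      ∑ i ∈ Finset.range n, θ i ^ (1 + α) ≤ ε := by
  classical
  obtain ⟨k0, hk⟩ := tl_small h (ε := ε / (2 / κ + 1)) (by positivity)
  refine ⟨(1 / 2) ^ k0, by positivity, fun n z θ h1 h2 => ?_⟩
  refine (dyad h _ θ (A := 2 / κ + 1) (by positivity) k0
    (fun i hi => h1 i (Finset.mem_range.1 hi)) fun k => ?_).trans ?_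
  · refine (count_mod _ z (δ := κ * (1 / 2) ^ (k + 1)) (by positivity) fun i hi j hj hne m => ?_).trans ?_
    · rw [Finset.mem_filter, Finset.mem_range] at hi hj
      refine le_trans (mul_le_mul_of_nonneg_left (le_min hi.2.1.le hj.2.1.le) hκ.le)
        (h2 i hi.1 j hj.1 hne m)
    · have e : 1 / (κ * (1 / 2) ^ (k + 1)) = 2 / κ * 2 ^ k := by
        rw [one_div_pow]; field_simp; ring
      rw [e]
      have a : (1 : ℝ) ≤ 2 ^ k := one_le_pow₀ (by norm_num)
      have b : (1 : ℝ) ≤ k + 1 := by linarith [Nat.cast_nonneg (α := ℝ) k]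
      calc 2 / κ * 2 ^ k + 1 ≤ (2 / κ + 1) * 1 * 2 ^ k := by nlinarith
        _ ≤ _ := by gcongr
  · have := hk k0 le_rfl
    rw [le_div_iff₀ (by positivity)] at this
    linarith

variable {G : Type} [Group G]

/-- `γ 0, ..., γ n` is a path in the Cayley graph. -/
def Pa (S : Finset G) (γ : ℕ → G) (n : ℕ) : Prop := ∀ k < n, ∃ s ∈ S, γ (k + 1) = s * γ k

theorem Pa.mono {S : Finset G} {γ : ℕ → G} {n m : ℕ} (h : Pa S γ n) (hm : m ≤ n) : Pa S γ m :=
  fun k hk => h k (by omega)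

theorem Pa.mul_right {S : Finset G} {γ : ℕ → G} {n : ℕ} (h : Pa S γ n) (u : G) :
    Pa S (fun k => γ k * u) n := fun k hk => by
  obtain ⟨s, hs, e⟩ := h k hk
  exact ⟨s, hs, by simp only [e, mul_assoc]⟩

theorem Pa.shift {S : Finset G} {γ : ℕ → G} {n : ℕ} (h : Pa S γ n) (i : ℕ) :
    Pa S (fun k => γ (i + k)) (n - i) := fun k hk => h (i + k) (by omega)

theorem Pa.snoc {S : Finset G} {γ : ℕ → G} {n : ℕ} (h : Pa S γ n) {s : G} (hs : s ∈ S) :
    Pa S (fun k => if k ≤ n then γ k else s * γ n) (n + 1) := fun k hk => by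
  by_cases c : k < n
  · simp only [show k + 1 ≤ n by omega, c.le, if_true]; exact h k c
  · obtain rfl : k = n := by omega
    simp only [show ¬ k + 1 ≤ k by omega, le_refl, if_true, if_false]
    exact ⟨s, hs, rfl⟩

theorem Pa.mem_pow {S : Finset G} {γ : ℕ → G} {n : ℕ} (h : Pa S γ n) (i j : ℕ) (hij : i + j ≤ n) :
    γ (i + j) * (γ i)⁻¹ ∈ (S : Set G) ^ j := by
  induction j with
  | zero => simp
  | succ j ih =>
    obtain ⟨s, hs, e⟩ := h (i + j) (by omega)
    rw [← add_assoc, e, mul_assoc, pow_succ']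
    exact Set.mul_mem_mul hs (ih (by omega))

theorem pa_of_pow {S : Finset G} (n : ℕ) :
    ∀ g ∈ (S : Set G) ^ n, ∃ γ : ℕ → G, Pa S γ n ∧ γ 0 = 1 ∧ γ n = g := by
  induction n with
  | zero => intro g hg; exact ⟨fun _ => 1, fun k hk => by omega, rfl, by simpa using hg.symm⟩
  | succ n ih =>
    intro g hg
    rw [pow_succ'] at hg
    obtain ⟨s, hs, h, hh, rfl⟩ := hg
    obtain ⟨γ, a, b, c⟩ := ih h hh
    exact ⟨_, a.snoc hs, by simpa using b, by simp [c]⟩

theorem erase (S : Finset G) (H : Subgroup G) (γ : ℕ → G) (n : ℕ) (hγ : Pa S γ n) :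
    ∃ (γ' : ℕ → G) (n' : ℕ), Pa S γ' n' ∧ γ' 0 = γ 0 ∧ (γ' n')⁻¹ * γ n ∈ H ∧
      (∀ i ≤ n', ∃ k ≤ n, (γ' i)⁻¹ * γ k ∈ H) ∧
      ∀ i ≤ n', ∀ j ≤ n', (γ' i)⁻¹ * γ' j ∈ H → i = j := by
  obtain ⟨β, n', a1, a2, a3, a4, a5⟩ := erase_loops (S := S) n (fun k => (γ k : G ⧸ H))
    (fun k hk => by
      obtain ⟨s, hs, e⟩ := hγ k hk
      exact ⟨s, hs, by simp only [e]; rfl⟩)
  choose! s hs using a1
  have e : ∀ j ≤ n', β j = ((along s 0 (γ 0) j : G) : G ⧸ H) := by
    intro j hj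
    have := along_smul (s := s) (γ := β) (n := n') (i0 := 0) (fun k hk => (hs k hk).2)
      (φ := γ 0) (v := ((1 : G) : G ⧸ H)) (by rw [a2]; simp [MulAction.Quotient.smul_mk]) j
      (by omega)
    rw [zero_add] at this
    rw [this]; simp [MulAction.Quotient.smul_mk]
  refine ⟨along s 0 (γ 0), n', fun k hk => ⟨s k, (hs k hk).1, by simp [along]⟩, rfl, ?_,
    fun i hi => ?_, fun i hi j hj h => ?_⟩
  · rw [← QuotientGroup.eq, ← e _ le_rfl, a3]
  · obtain ⟨k, hk, b⟩ := a4 i hi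
    exact ⟨k, hk, by rw [← QuotientGroup.eq, ← e _ hi, b]⟩
  · apply a5 i hi j hj
    rw [e _ hi, e _ hj, QuotientGroup.eq]; exact h

variable [MulAction G ℝ]

/-- A finite symmetric generating set with uniform second order bounds. -/
structure Gen (G : Type) [Group G] [MulAction G ℝ] where
  S : Finset G
  one_mem : 1 ∈ S
  inv : ∀ s ∈ S, s⁻¹ ∈ S
  gen : ∀ g : G, ∃ n : ℕ, g ∈ (S : Set G) ^ n
  α : ℝ
  α_pos : 0 < α
  α_le : α ≤ 1
  C : ℝ
  C_pos : 1 ≤ C
  key : ∀ s ∈ S, ∀ p t : ℝ, p ≠ t → |t - p| ≤ 1 →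
    |D s t / (s • t - s • p) - 1 / (t - p) - Nl s t| ≤ C * |t - p| ^ α
  Nb : ∀ s ∈ S, ∀ x, |Nl s x| ≤ C

/-- Admissible positions of four points in an interval. -/
def Ord4 (lo hi p p' t1 t2 : ℝ) : Prop :=
  lo ≤ p ∧ p ≤ hi ∧ lo ≤ p' ∧ p' ≤ hi ∧ lo ≤ t1 ∧ t1 ≤ t2 ∧ t2 ≤ hi ∧ (p ≤ t1 ∨ t2 ≤ p) ∧
    (p' ≤ t1 ∨ t2 ≤ p')

variable [SmoothAct G]

theorem Ord4.act {lo hi p p' t1 t2 : ℝ} (h : Ord4 lo hi p p' t1 t2) (g : G) :
    Ord4 (g • lo) (g • hi) (g • p) (g • p') (g • t1) (g • t2) := by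
  simpa only [Ord4, act_le] using h

theorem Gen.cr (Γ : Gen G) {s : G} (hs : s ∈ Γ.S) {lo hi p p' t1 t2 : ℝ}
    (h : Ord4 lo hi p p' t1 t2) (hl : hi - lo ≤ 1) :
    |Xr s p p' t1 t2| ≤ 2 * Γ.C * (hi - lo) ^ Γ.α * (t2 - t1) := by
  obtain ⟨a1, a2, a3, a4, a5, a6, a7, a8, a9⟩ := h
  rcases a6.eq_or_lt with e | e
  · subst e; unfold Xr; simp
  · obtain ⟨c, hc, e2⟩ := exists_hasDerivAt_eq_slope (fun t => Fl s p t - Fl s p' t)
      (fun t => (D s t / (s • t - s • p) - 1 / (t - p)) - (D s t / (s • t - s • p') - 1 / (t - p')))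
      e ((cont_Fl s p).sub (cont_Fl s p')).continuousOn (fun t ht =>
        (hasD_Fl s (by rcases a8 with a | a <;> intro b <;> linarith [ht.1, ht.2])).sub
          (hasD_Fl s (by rcases a9 with a | a <;> intro b <;> linarith [ht.1, ht.2])))
    have bd : ∀ q, lo ≤ q → q ≤ hi → (q ≤ t1 ∨ t2 ≤ q) →
        |D s c / (s • c - s • q) - 1 / (c - q) - Nl s c| ≤ Γ.C * (hi - lo) ^ Γ.α := by
      intro q b1 b2 b3
      have b4 : |c - q| ≤ hi - lo := by rw [abs_le]; constructor <;> linarith [hc.1, hc.2]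
      refine (Γ.key s hs q c (by rcases b3 with a | a <;> intro b <;> linarith [hc.1, hc.2])
        (b4.trans hl)).trans ?_
      exact mul_le_mul_of_nonneg_left (Real.rpow_le_rpow (abs_nonneg _) b4 Γ.α_pos.le)
        (by linarith [Γ.C_pos])
    have b1 := bd p a1 a2 a8
    have b2 := bd p' a3 a4 a9
    have e3 : Xr s p p' t1 t2 = ((D s c / (s • c - s • p) - 1 / (c - p) - Nl s c) -
        (D s c / (s • c - s • p') - 1 / (c - p') - Nl s c)) * (t2 - t1) := by
      rw [eq_div_iff (sub_pos.2 e).ne'] at e2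
      unfold Xr; linarith
    rw [e3, abs_mul, abs_of_pos (sub_pos.2 e)]
    refine mul_le_mul_of_nonneg_right ((abs_sub _ _).trans ?_) (sub_pos.2 e).le
    linarith

theorem Gen.path_X (Γ : Gen G) {γ : ℕ → G} {n : ℕ} (hγ : Pa Γ.S γ n) {lo hi p p' t1 t2 : ℝ}
    (h : Ord4 lo hi p p' t1 t2) (hl : ∀ k < n, γ k • hi - γ k • lo ≤ 1) :
    |Xr (γ n) p p' t1 t2 - Xr (γ 0) p p' t1 t2| ≤
      2 * Γ.C * ∑ k ∈ Finset.range n, (γ k • hi - γ k • lo) ^ (1 + Γ.α) := by
  induction n with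
  | zero => simp
  | succ n ih =>
    obtain ⟨s, hs, e⟩ := hγ n (by omega)
    have a := ih (hγ.mono (by omega)) fun k hk => hl k (by omega)
    have o := h.act (γ n)
    have b := Γ.cr hs o (hl n (by omega))
    obtain ⟨-, -, -, -, a5, a6, a7, -, -⟩ := o
    have l0 : 0 ≤ γ n • hi - γ n • lo := by linarith
    have c : (γ n • hi - γ n • lo) ^ Γ.α * (γ n • t2 - γ n • t1) ≤
        (γ n • hi - γ n • lo) ^ (1 + Γ.α) := by
      rw [add_comm, Real.rpow_add' l0 (by linarith [Γ.α_pos]), Real.rpow_one]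
      exact mul_le_mul_of_nonneg_left (by linarith) (Real.rpow_nonneg l0 _)
    rw [e, Xr_mul, Finset.sum_range_succ, mul_add, add_sub_assoc]
    refine (abs_add_le _ _).trans ?_
    have d : 2 * Γ.C * (γ n • hi - γ n • lo) ^ Γ.α * (γ n • t2 - γ n • t1) ≤
        2 * Γ.C * (γ n • hi - γ n • lo) ^ (1 + Γ.α) := by
      rw [mul_assoc (2 * Γ.C)]
      exact mul_le_mul_of_nonneg_left c (by linarith [Γ.C_pos])
    linarith

theorem Nl_mul (g h : G) (x : ℝ) : Nl (g * h) x = Nl g (h • x) * D h x + Nl h x := by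
  have e : D (g * h) = fun x => D g (h • x) * D h x := funext fun x => D_mul g h x
  have a : HasDerivAt (D (g * h)) (DD g (h • x) * D h x * D h x + D g (h • x) * DD h x) x := by
    rw [e]
    exact ((hasD_D g (h • x)).comp x (hasD h x)).mul (hasD_D h x)
  have b : DD (g * h) x = _ := a.deriv
  have p1 := D_pos g (h • x)
  have p2 := D_pos h x
  unfold Nl
  rw [b, D_mul]
  field_simp

theorem Gen.path_Q (Γ : Gen G) {γ : ℕ → G} {n : ℕ} (hγ : Pa Γ.S γ n) {x v : ℝ} (hv : v ≠ x)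
    (hl : ∀ k < n, |γ k • x - γ k • v| ≤ 1) :
    |(D (γ n) x / (γ n • x - γ n • v) - Nl (γ n) x) -
        (D (γ 0) x / (γ 0 • x - γ 0 • v) - Nl (γ 0) x)| ≤
      Γ.C * ∑ k ∈ Finset.range n, D (γ k) x * |γ k • x - γ k • v| ^ Γ.α := by
  induction n with
  | zero => simp
  | succ n ih =>
    obtain ⟨s, hs, e⟩ := hγ n (by omega)
    have a := ih (hγ.mono (by omega)) fun k hk => hl k (by omega)
    have b := Γ.key s hs (γ n • v) (γ n • x) (act_ne _ hv) (hl n (by omega))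
    have p := D_pos (γ n) x
    have c : (D (γ (n + 1)) x / (γ (n + 1) • x - γ (n + 1) • v) - Nl (γ (n + 1)) x) =
        D (γ n) x * (D s (γ n • x) / (s • γ n • x - s • γ n • v) - 1 / (γ n • x - γ n • v) -
          Nl s (γ n • x)) + (D (γ n) x / (γ n • x - γ n • v) - Nl (γ n) x) := by
      rw [e, D_mul, Nl_mul, mul_smul, mul_smul]; ring
    rw [c, Finset.sum_range_succ, mul_add, add_sub_assoc]
    refine (abs_add_le _ _).trans ?_
    rw [abs_mul, abs_of_pos p]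
    have := mul_le_mul_of_nonneg_left b p.le
    nlinarith

theorem exists_gen (hfg : Group.FG G) (hH : ∀ g : G, ∃ α > 0, Hol α g) : Nonempty (Gen G) := by
  classical
  obtain ⟨T, hT⟩ := hfg.out
  let S : Finset G := insert 1 (T ∪ T.image (·⁻¹))
  have hinv : ∀ s ∈ S, s⁻¹ ∈ S := by
    intro s hs
    simp only [S, Finset.mem_insert, Finset.mem_union, Finset.mem_image] at hs ⊢
    rcases hs with rfl | h | ⟨a, h, rfl⟩
    · left; simp
    · right; right; exact ⟨s, h, rfl⟩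
    · right; left; simpa using h
  have h1 : (1 : G) ∈ S := Finset.mem_insert_self _ _
  obtain ⟨α, α0, hα⟩ := fin_min (S : Set G) S.finite_toSet (P := fun g α => α ≤ 1 ∧ Hol α g)
    (fun g κ κ' a b c => ⟨b.trans c.1, c.2.mono a b⟩) (fun g _ => by
      obtain ⟨α, a, b⟩ := hH g
      exact ⟨min α 1, lt_min a one_pos, min_le_right _ _, b.mono (lt_min a one_pos) (min_le_left _ _)⟩)
  obtain ⟨C, hC⟩ := fin_max (S : Set G) S.finite_toSet (P := fun g (C : ℝ) => 1 ≤ C ∧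
      (∀ p t : ℝ, p ≠ t → |t - p| ≤ 1 →
        |D g t / (g • t - g • p) - 1 / (t - p) - Nl g t| ≤ C * |t - p| ^ α) ∧ ∀ x, |Nl g x| ≤ C)
    (fun g κ κ' a b => ⟨b.1.trans a, fun p t c d => (b.2.1 p t c d).trans
      (mul_le_mul_of_nonneg_right a (Real.rpow_nonneg (abs_nonneg _) _)),
      fun x => (b.2.2 x).trans a⟩) (fun g hg => by
      obtain ⟨C1, -, a⟩ := key_bound α0 (hα g hg).1 (hα g hg).2
      obtain ⟨C2, -, b⟩ := Nl_bdd g
      exact ⟨max 1 (max C1 C2), le_max_left _ _, fun p t c d => (a p t c d).trans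
        (mul_le_mul_of_nonneg_right (by simp) (Real.rpow_nonneg (abs_nonneg _) _)),
        fun x => (b x).trans (by simp)⟩)
  refine ⟨⟨S, h1, hinv, fun g => ?_, α, α0, (hα 1 h1).1, C, (hC 1 h1).1, fun s hs => (hC s hs).2.1,
    fun s hs => (hC s hs).2.2⟩⟩
  have hg : g ∈ Subgroup.closure (T : Set G) := by rw [hT]; trivial
  induction hg using Subgroup.closure_induction'' with
  | one => exact ⟨0, by simp⟩
  | mem x hx => exact ⟨1, by simp [S, Finset.mem_coe.1 hx]⟩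
  | inv_mem x hx => exact ⟨1, by
      rw [pow_one]; exact hinv x (by simp [S, Finset.mem_coe.1 hx])⟩
  | mul x y _ _ a b =>
    obtain ⟨n, a⟩ := a
    obtain ⟨m, b⟩ := b
    exact ⟨n + m, by rw [pow_add]; exact Set.mul_mem_mul a b⟩

end

end Pool.Agent.Lib.MP_173a7e_an
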