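import Pool.Agent.Lib.MP_173a7e_an.FreeA

/-! Horoball separation, markers, classes and tameness. -/

set_option autoImplicit false
set_option linter.unusedSectionVars false
set_option linter.unusedVariables false

namespace Pool.Agent.Lib.MP_173a7e_an

section

open Set Filter Topology
open scoped Pointwise

theorem count_two {ι : Type} (s : Finset ι) (e f : ι → ℝ) {l β r : ℝ} (hl : 0 < l) (hβ : 0 < β)
    (hr : 0 < r) (h1 : ∀ i ∈ s, |f i - e i| ≤ 2 * r)
    (h2 : ∀ i ∈ s, ∀ j ∈ s, i ≠ j → ∀ m : ℤ, |e i - e j - m| < l →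
      |e i - e j - m| ≤ 2 * r ∧ β ≤ |f i - f j - m|) :
    (s.card : ℝ) ≤ (1 / l + 1) * (8 * r / β + 1) := by
  classical
  let c : ι → ℕ := fun i => ⌊Int.fract (e i) / l⌋₊
  have c1 : ∀ i ∈ s, c i ∈ Finset.range (⌊1 / l⌋₊ + 1) := fun i _ => by
    rw [Finset.mem_range]
    exact Nat.lt_succ_of_le (Nat.floor_le_floor
      (div_le_div_of_nonneg_right (Int.fract_lt_one _).le hl.le))
  have c2 : ∀ i j, c i = c j → |e i - e j - (⌊e i⌋ - ⌊e j⌋ : ℤ)| < l := by
    intro i j h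
    have p1 : 0 ≤ Int.fract (e i) / l := div_nonneg (Int.fract_nonneg _) hl.le
    have p2 : 0 ≤ Int.fract (e j) / l := div_nonneg (Int.fract_nonneg _) hl.le
    have b1 := Nat.floor_le p1
    have b2 := Nat.floor_le p2
    have b3 := Nat.lt_floor_add_one (Int.fract (e i) / l)
    have b4 := Nat.lt_floor_add_one (Int.fract (e j) / l)
    simp only [c] at h
    rw [h] at b1 b3
    have d : |Int.fract (e i) / l - Int.fract (e j) / l| < 1 := by
      rw [abs_lt]; constructor <;> linarith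
    rw [← sub_div, abs_div, abs_of_pos hl, div_lt_one hl] at d
    have e0 : Int.fract (e i) - Int.fract (e j) = e i - e j - (⌊e i⌋ - ⌊e j⌋ : ℤ) := by
      unfold Int.fract; push_cast; ring
    rwa [e0] at d
  rw [Finset.card_eq_sum_card_fiberwise c1]
  push_cast
  have c3 : ∀ k ∈ Finset.range (⌊1 / l⌋₊ + 1),
      (((s.filter fun i => c i = k).card : ℕ) : ℝ) ≤ 8 * r / β + 1 := by
    intro k _
    rcases (s.filter fun i => c i = k).eq_empty_or_nonempty with h | ⟨i0, h0⟩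
    · rw [h]; simp; positivity
    · rw [Finset.mem_filter] at h0
      refine count_sep _ (fun i => f i - ⌊e i⌋) (A := e i0 - ⌊e i0⌋ - 4 * r) hβ (by positivity)
        (fun i hi => ?_) fun i hi j hj hne => ?_
      · rw [Finset.mem_filter] at hi
        have a := abs_le.1 (h1 i hi.1)
        by_cases hi0 : i = i0
        · subst hi0; constructor <;> linarith
        · have b := abs_le.1 (h2 i hi.1 i0 h0.1 hi0 _ (c2 i i0 (hi.2.trans h0.2.symm))).1
          push_cast at b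
          constructor <;> linarith
      · rw [Finset.mem_filter] at hi hj
        have b := (h2 i hi.1 j hj.1 hne _ (c2 i j (hi.2.trans hj.2.symm))).2
        convert b using 2
        push_cast; ring
  refine (Finset.sum_le_card_nsmul _ _ _ c3).trans ?_
  rw [nsmul_eq_mul, Finset.card_range]
  refine mul_le_mul_of_nonneg_right ?_ (by positivity)
  push_cast
  linarith [Nat.floor_le (show 0 ≤ 1 / l by positivity)]

variable {G : Type} [Group G] [MulAction G ℝ]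

/-- Every interval meeting the Cantor set contains a gap that can be made long. -/
def Cantor.Exp (A : Cantor G) (δ : ℝ) : Prop :=
  ∀ u v : ℝ, (∃ w ∈ A.Λ, u < w ∧ w < v) →
    ∃ p ∈ LE A.Λ, u < p ∧ nxt A.Λ p < v ∧ ∃ g : G, δ ≤ A.len (g • p)

variable [SmoothAct G]

theorem B_eq (w : G) {a b : ℝ} (h : a < b) :
    D w a * D w b / (w • b - w • a) ^ 2 = Real.exp (Xr w b a a b) / (b - a) ^ 2 := by
  have h1 : b - a ≠ 0 := (sub_pos.2 h).ne'
  have h2 : w • b - w • a ≠ 0 := (sub_pos.2 ((act_lt w).2 h)).ne'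
  rw [exp_Xr, sl_same, sl_same, sl_symm w b a, sl_ne w h.ne']
  field_simp

theorem Xr_one (p p' t1 t2 : ℝ) : Xr (1 : G) p p' t1 t2 = 0 := by
  have := Xr_mul (1 : G) 1 p p' t1 t2
  simp only [mul_one, one_smul] at this
  linarith

theorem exp_half : Real.exp (1 / 2) ≤ 2 := by
  have := Real.exp_bound_div_one_sub_of_interval (x := 1 / 2) (by norm_num) (by norm_num)
  norm_num at this ⊢; exact this

theorem rpow_le_self {α θ : ℝ} (h : 0 < α) (h0 : 0 ≤ θ) (h1 : θ ≤ 1) : θ ^ (1 + α) ≤ θ := by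
  have := Real.rpow_le_rpow_of_exponent_ge' h0 h1 zero_le_one (show 1 ≤ 1 + α by linarith)
  rwa [Real.rpow_one] at this

theorem beta_step (A : Cantor G) (x : ℝ) (hne : ∀ g : G, D g x ≤ 1) {R : ℝ}
    (hR : 2 ≤ R) (s : Finset ℕ) (ga gb : ℕ → G) (kk : ℕ → ℝ) (hx : x ∈ A.Λ)
    (hk : ∀ t ∈ s, kk t ∈ LE A.Λ ∧ ga t • x ≤ kk t ∧ nxt A.Λ (kk t) ≤ gb t • x)
    (IH : ∀ (g h : G), ∀ t ∈ s, ∀ m : ℤ, g • x ≤ kk t + m → nxt A.Λ (kk t) + m ≤ h • x →
      D g x * D h x ≤ R ^ 2 * (h • x - g • x) ^ 2)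
    (NG : ∀ t ∈ s, ∀ t' ∈ s, t < t' → ∀ m : ℤ,
      ¬ (ga t • x ≤ kk t' + m ∧ nxt A.Λ (kk t') + m ≤ gb t • x))
    (hB : ∀ t ∈ s, R ^ 2 / 2 * (gb t • x - ga t • x) ^ 2 ≤ D (ga t) x * D (gb t) x) (k : ℕ) :
    ((s.filter fun t => (1 / 2) ^ (k + 1) < gb t • x - ga t • x ∧
      gb t • x - ga t • x ≤ (1 / 2) ^ k).card : ℝ) ≤ 272 * (k + 1) * 2 ^ k := by
  classical
  set r : ℝ := (1 / 2) ^ (k + 1) with hr
  have r0 : 0 < r := by positivity
  have r1 : r ≤ 1 := pow_le_one₀ (by norm_num) (by norm_num)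
  have r2 : (1 / 2 : ℝ) ^ k = 2 * r := by rw [hr]; ring
  have r3 : 1 / r = 2 * 2 ^ k := by rw [hr, one_div_pow]; field_simp; ring
  have tri : ∀ (g : G) (m : ℤ), ∀ t ∈ s, g • x ≤ kk t + m ∨ nxt A.Λ (kk t) + m ≤ g • x := by
    intro g m t _
    by_cases c : nxt A.Λ (kk t) + m ≤ g • x
    · exact Or.inr c
    · left
      have := A.le_of_lt_nxt (p := kk t) ((A.sub_int_mem m).2 (A.inv g x hx)) (by linarith)
      linarith
  have IH' : ∀ (g h : G) (m1 : ℤ), ∀ t ∈ s, ∀ m : ℤ, g • x + m1 ≤ kk t + m →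
      nxt A.Λ (kk t) + m ≤ h • x → D g x * D h x ≤ R ^ 2 * (h • x - (g • x + m1)) ^ 2 := by
    intro g h m1 t ht m a b
    have := IH (A.t ^ m1 * g) h t ht m (by rwa [mul_smul, A.tz_smul]) b
    rwa [A.D_tz_mul, mul_smul, A.tz_smul] at this
  have IH'' : ∀ (g h : G) (m1 : ℤ), ∀ t ∈ s, ∀ m : ℤ, g • x ≤ kk t + m →
      nxt A.Λ (kk t) + m ≤ h • x + m1 → D g x * D h x ≤ R ^ 2 * (h • x + m1 - g • x) ^ 2 := by
    intro g h m1 t ht m a b
    have := IH g (A.t ^ m1 * h) t ht m a (by rwa [mul_smul, A.tz_smul])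
    rwa [A.D_tz_mul, mul_smul, A.tz_smul] at this
  have cls : ∀ (i : ℕ) (ge gf : ℕ → G) (s' : Finset ℕ),
      (∀ t ∈ s', t ∈ s ∧ r < |gf t • x - ge t • x| ∧ |gf t • x - ge t • x| ≤ 2 * r ∧
        (1 / 2) ^ (i + 1) < D (ge t) x ∧ D (ge t) x ≤ (1 / 2) ^ i ∧ D (gf t) x ≤ D (ge t) x ∧
        R ^ 2 / 2 * (gf t • x - ge t • x) ^ 2 ≤ D (ge t) x * D (gf t) x) →
      (∀ t ∈ s', ∀ t' ∈ s', t < t' → ∀ m : ℤ,
        R ^ 2 * (ge t • x - ge t' • x - m) ^ 2 < D (ge t) x * D (ge t') x →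
          |ge t • x - ge t' • x - m| ≤ 2 * r ∧
            D (gf t) x * D (gf t') x ≤ R ^ 2 * (gf t • x - gf t' • x - m) ^ 2) →
      (s'.card : ℝ) ≤ 136 * 2 ^ k := by
    intro i ge gf s' H1 H2
    rcases s'.eq_empty_or_nonempty with h | ⟨t0, h0⟩
    · rw [h]; simp
    set σ : ℝ := (1 / 2) ^ (i + 1) with hσ
    have σ0 : 0 < σ := by positivity
    have σ1 : σ ≤ 1 := pow_le_one₀ (by norm_num) (by norm_num)
    have σ2 : (1 / 2 : ℝ) ^ i = 2 * σ := by rw [hσ]; ring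
    have R0 : 0 < R := by linarith
    have lowf : ∀ t ∈ s', R ^ 2 * r ^ 2 / (4 * σ) ≤ D (gf t) x := by
      intro t ht
      obtain ⟨-, a, -, -, c, -, d⟩ := H1 t ht
      have e1 : r ^ 2 ≤ (gf t • x - ge t • x) ^ 2 := by
        rw [← sq_abs (gf t • x - ge t • x)]; gcongr
      have e2 := D_pos (gf t) x
      rw [div_le_iff₀ (by positivity)]
      rw [σ2] at c
      nlinarith [mul_le_mul_of_nonneg_right c e2.le, sq_nonneg R]
    have dom : R * r ≤ 3 * σ := by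
      obtain ⟨-, -, -, -, c, d, -⟩ := H1 t0 h0
      have := (lowf t0 h0).trans (d.trans c)
      rw [div_le_iff₀ (by positivity), σ2] at this
      by_contra hc
      push Not at hc
      nlinarith [mul_pos R0 r0]
    have key : ∀ t ∈ s', ∀ t' ∈ s', t < t' → ∀ m : ℤ, |ge t • x - ge t' • x - m| < σ / R →
        |ge t • x - ge t' • x - m| ≤ 2 * r ∧ R * r ^ 2 / (4 * σ) ≤ |gf t • x - gf t' • x - m| := by
      intro t ht t' ht' hlt m hm
      have a1 := (H1 t ht).2.2.2.1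
      have a2 := (H1 t' ht').2.2.2.1
      obtain ⟨b1, b2⟩ := H2 t ht t' ht' hlt m (by
        rw [lt_div_iff₀ R0] at hm
        have : (|ge t • x - ge t' • x - m| * R) ^ 2 < σ ^ 2 := by gcongr
        rw [mul_pow, sq_abs] at this
        nlinarith [mul_lt_mul'' a1 a2 σ0.le σ0.le])
      refine ⟨b1, ?_⟩
      have b3 := mul_le_mul (lowf t ht) (lowf t' ht') (by positivity) (D_pos _ _).le
      have b4 : (R * (R * r ^ 2 / (4 * σ))) ^ 2 ≤ (R * |gf t • x - gf t' • x - m|) ^ 2 := by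
        rw [mul_pow R |_|, sq_abs]
        refine le_trans (le_of_eq ?_) (b3.trans b2)
        ring
      exact le_of_mul_le_mul_left (abs_le_of_sq_le_sq' b4 (by positivity)).2 R0
    refine (count_two s' (fun t => ge t • x) (fun t => gf t • x) (l := σ / R)
      (β := R * r ^ 2 / (4 * σ)) (r := r) (by positivity) (by positivity) r0
      (fun t ht => (H1 t ht).2.2.1) fun t ht t' ht' hne' m hm => ?_).trans ?_
    · rcases lt_or_gt_of_ne hne' with c | c
      · exact key t ht t' ht' c m hm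
      · have e1 : ∀ u v : ℝ, |u - v - m| = |v - u - ((-m : ℤ) : ℝ)| := fun u v => by
          rw [← abs_neg]; push_cast; congr 1; ring
        simp only [e1] at hm ⊢
        exact key t' ht' t ht c (-m) hm
    · have e1 : 1 / (σ / R) ≤ 3 * (1 / r) := by
        rw [one_div_div, div_le_iff₀ σ0]
        calc R = R * r * (1 / r) := by field_simp
          _ ≤ 3 * σ * (1 / r) := by gcongr
          _ = _ := by ring
      have e2 : 8 * r / (R * r ^ 2 / (4 * σ)) = 32 * (σ / R) * (1 / r) := by field_simp; norm_num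
      have e3 : σ / R ≤ 1 := by rw [div_le_one R0]; linarith
      have e4 : 1 / (σ / R) * (32 * (σ / R) * (1 / r)) = 32 * (1 / r) := by field_simp
      have e5 : 1 ≤ 1 / r := by rw [le_div_iff₀ r0]; linarith
      rw [e2, add_mul, mul_add, e4]
      have e6 : 32 * (σ / R) * (1 / r) ≤ 32 * 1 * (1 / r) := by gcongr
      rw [r3] at e1 e5 e6 ⊢
      linarith
  set s0 := s.filter fun t => r < gb t • x - ga t • x ∧ gb t • x - ga t • x ≤ (1 / 2) ^ k
  let sa : ℕ → Finset ℕ := fun i => s0.filter fun t =>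
    (1 / 2) ^ (i + 1) < D (ga t) x ∧ D (ga t) x ≤ (1 / 2) ^ i ∧ D (gb t) x ≤ D (ga t) x
  let sb : ℕ → Finset ℕ := fun i => s0.filter fun t =>
    (1 / 2) ^ (i + 1) < D (gb t) x ∧ D (gb t) x ≤ (1 / 2) ^ i ∧ D (ga t) x ≤ D (gb t) x
  have sub : s0 ⊆ (Finset.range (k + 1)).biUnion fun i => sa i ∪ sb i := by
    intro t ht
    have ht' := Finset.mem_filter.1 ht
    have b := hB t ht'.1
    have lev : ∀ y : ℝ, y ≤ 1 → D (ga t) x * D (gb t) x ≤ y ^ 2 → 0 < y →
        ∃ i ∈ Finset.range (k + 1), (1 / 2) ^ (i + 1) < y ∧ y ≤ (1 / 2) ^ i := by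
      intro y y1 y2 y0
      obtain ⟨i, c, d⟩ := exists_nat_pow_near_of_lt_one (x := y) (y := (1 / 2 : ℝ)) y0 y1
        (by norm_num) (by norm_num)
      refine ⟨i, Finset.mem_range.2 ?_, c, d⟩
      by_contra hc
      have e1 : (1 / 2 : ℝ) ^ i ≤ r := pow_le_pow_of_le_one (by norm_num) (by norm_num) (by omega)
      have e2 : r ^ 2 < (gb t • x - ga t • x) ^ 2 := by gcongr; exact ht'.2.1
      have e3 : y ^ 2 ≤ r ^ 2 := by gcongr; exact d.trans e1
      have e4 : 2 ≤ R ^ 2 / 2 := by nlinarith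
      nlinarith [sq_nonneg (gb t • x - ga t • x), sq_nonneg r]
    have pa := D_pos (ga t) x
    have pb := D_pos (gb t) x
    rw [Finset.mem_biUnion]
    rcases le_total (D (gb t) x) (D (ga t) x) with c | c
    · obtain ⟨i, hi, d⟩ := lev _ (hne _) (by nlinarith) pa
      exact ⟨i, hi, Finset.mem_union_left _ (Finset.mem_filter.2 ⟨ht, d.1, d.2, c⟩)⟩
    · obtain ⟨i, hi, d⟩ := lev _ (hne _) (by nlinarith) pb
      exact ⟨i, hi, Finset.mem_union_right _ (Finset.mem_filter.2 ⟨ht, d.1, d.2, c⟩)⟩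
  have ca : ∀ i, ((sa i).card : ℝ) ≤ 136 * 2 ^ k := by
    intro i
    refine cls i ga gb _ (fun t ht => ?_) fun t ht t' ht' hlt m hm => ?_
    · have a := Finset.mem_filter.1 ht
      have b := Finset.mem_filter.1 a.1
      rw [abs_of_pos (r0.trans b.2.1)]
      exact ⟨b.1, b.2.1, r2 ▸ b.2.2, a.2.1, a.2.2.1, a.2.2.2, hB t b.1⟩
    · have b := Finset.mem_filter.1 (Finset.mem_filter.1 ht).1
      have b' := Finset.mem_filter.1 (Finset.mem_filter.1 ht').1
      obtain ⟨-, k1, k2⟩ := hk t b.1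
      obtain ⟨-, k3, k4⟩ := hk t' b'.1
      have l1 := A.le_nxt (kk t)
      have l2 := A.le_nxt (kk t')
      have u1 := b.2.2
      have u2 := b'.2.2
      rw [r2] at u1 u2
      have n1 : ¬ nxt A.Λ (kk t) ≤ ga t' • x + m := fun c => by
        have := IH'' (ga t) (ga t') m t b.1 0 (by simpa using k1) (by simpa using c)
        nlinarith
      have n2 : ¬ nxt A.Λ (kk t') + m ≤ ga t • x := fun c => by
        have := IH' (ga t') (ga t) m t' b'.1 m (by linarith) c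
        nlinarith
      have n3 := NG t b.1 t' b'.1 hlt m
      refine ⟨by rw [abs_le]; constructor <;> linarith, ?_⟩
      have n4 := (tri (ga t) m t' b'.1).resolve_right n2
      have n5 := (tri (gb t) m t' b'.1).resolve_right fun c => n3 ⟨n4, c⟩
      have := IH'' (gb t) (gb t') m t' b'.1 m n5 (by linarith)
      nlinarith
  have cb : ∀ i, ((sb i).card : ℝ) ≤ 136 * 2 ^ k := by
    intro i
    refine cls i gb ga _ (fun t ht => ?_) fun t ht t' ht' hlt m hm => ?_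
    · have a := Finset.mem_filter.1 ht
      have b := Finset.mem_filter.1 a.1
      rw [abs_sub_comm, abs_of_pos (r0.trans b.2.1)]
      exact ⟨b.1, b.2.1, r2 ▸ b.2.2, a.2.1, a.2.2.1, a.2.2.2, by nlinarith [hB t b.1]⟩
    · have b := Finset.mem_filter.1 (Finset.mem_filter.1 ht).1
      have b' := Finset.mem_filter.1 (Finset.mem_filter.1 ht').1
      obtain ⟨-, k1, k2⟩ := hk t b.1
      obtain ⟨-, k3, k4⟩ := hk t' b'.1
      have l1 := A.le_nxt (kk t)
      have l2 := A.le_nxt (kk t')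
      have u1 := b.2.2
      have u2 := b'.2.2
      rw [r2] at u1 u2
      have n1 : ¬ gb t' • x + m ≤ kk t := fun c => by
        have := IH' (gb t') (gb t) m t b.1 0 (by simpa using c) (by simpa using k2)
        nlinarith
      have n2 : ¬ gb t • x ≤ kk t' + m := fun c => by
        have := IH'' (gb t) (gb t') m t' b'.1 m c (by linarith)
        nlinarith
      have n3 := NG t b.1 t' b'.1 hlt m
      refine ⟨by rw [abs_le]; constructor <;> linarith, ?_⟩
      have n4 := (tri (gb t) m t' b'.1).resolve_left n2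
      have n5 := (tri (ga t) m t' b'.1).resolve_left fun c => n3 ⟨c, n4⟩
      have := IH' (ga t') (ga t) m t' b'.1 m (by linarith) n5
      nlinarith
  have c1 : (s0.card : ℝ) ≤ ∑ i ∈ Finset.range (k + 1), (((sa i ∪ sb i).card : ℕ) : ℝ) := by
    exact_mod_cast (Finset.card_le_card sub).trans Finset.card_biUnion_le
  refine c1.trans ((Finset.sum_le_card_nsmul _ _ (272 * 2 ^ k) fun i _ => ?_).trans (le_of_eq ?_))
  · have : (((sa i ∪ sb i).card : ℕ) : ℝ) ≤ (sa i).card + (sb i).card := by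
      exact_mod_cast Finset.card_union_le _ _
    linarith [ca i, cb i]
  · rw [nsmul_eq_mul, Finset.card_range]; push_cast; ring

theorem beta (A : Cantor G) (Γ : Gen G) {δ : ℝ} (hδ : 0 < δ) (hE : A.Exp δ) {x : ℝ}
    (hx : x ∈ A.Λ) (hne : ∀ g : G, D g x ≤ 1) (hacc : ∀ ε > 0, ∃ w ∈ A.Λ, x < w ∧ w < x + ε) :
    ∃ R : ℝ, 2 ≤ R ∧ ∀ g h : G, g • x < h • x →
      D g x * D h x ≤ R ^ 2 * (h • x - g • x) ^ 2 := by
  classical
  have C1 := Γ.C_pos
  obtain ⟨k1, hk1⟩ := tl_small Γ.α_pos (ε := 1 / (8 * Γ.C) / 272) (by positivity)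
  obtain ⟨k2, hk2⟩ := exists_pow_lt_of_lt_one (x := min δ (1 / (8 * Γ.C))) (y := (1 / 2 : ℝ))
    (lt_min hδ (by positivity)) (by norm_num)
  set k0 := max k1 k2
  set δ1 : ℝ := (1 / 2) ^ k0 with hδ1
  have d0 : 0 < δ1 := by positivity
  have d1 : δ1 ≤ 1 := pow_le_one₀ (by norm_num) (by norm_num)
  have d2 : δ1 < min δ (1 / (8 * Γ.C)) :=
    lt_of_le_of_lt (pow_le_pow_of_le_one (by norm_num) (by norm_num) (le_max_right _ _)) hk2
  have d3 := hk1 k0 (le_max_left _ _)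
  set R : ℝ := 2 / δ1 with hR
  have R2 : 2 ≤ R := by rw [hR, le_div_iff₀ d0]; linarith
  have R3 : R * δ1 = 2 := by rw [hR]; field_simp
  have main : ∀ n : ℕ, ∀ (g h : G), ∀ p ∈ LE A.Λ, (∃ w ∈ (Γ.S : Set G) ^ n, δ ≤ A.len (w • p)) →
      g • x ≤ p → nxt A.Λ p ≤ h • x → D g x * D h x ≤ R ^ 2 * (h • x - g • x) ^ 2 := by
    intro n
    induction n using Nat.strong_induction_on with
    | _ n IH =>
    intro g h p hp ⟨w, hw, hw'⟩ h1 h2
    by_contra hB
    push Not at hB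
    have ab : g • x < h • x := lt_of_le_of_lt h1 (lt_of_lt_of_le (A.lt_nxt hp) h2)
    obtain ⟨γ, c1, c2, c3⟩ := pa_of_pow n w hw
    have gd : ∀ t ≤ n, ∀ m : ℤ, γ n * (γ t)⁻¹ ∈ (Γ.S : Set G) ^ (n - t) ∧
        δ ≤ A.len ((γ n * (γ t)⁻¹) • (γ t • p + m)) := by
      intro t ht m
      have := c1.mem_pow t (n - t) (by omega)
      rw [show t + (n - t) = n by omega] at this
      refine ⟨this, ?_⟩
      rw [act_int, A.len_int, mul_smul, inv_smul_smul, c3]; exact hw'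
    have pos : ∀ t, 0 < (γ t * h) • x - (γ t * g) • x := fun t => by
      rw [mul_smul, mul_smul]; exact sub_pos.2 ((act_lt _).2 ab)
    have sz : ∀ t, R ^ 2 / 2 * ((γ t * h) • x - (γ t * g) • x) ^ 2 ≤
        D (γ t * g) x * D (γ t * h) x → (γ t * h) • x - (γ t * g) • x ≤ δ1 := by
      intro t ht
      have a1 : D (γ t * g) x * D (γ t * h) x ≤ 1 :=
        mul_le_one₀ (hne _) (D_pos _ _).le (hne _)
      have a2 : (R * ((γ t * h) • x - (γ t * g) • x)) ^ 2 ≤ (R * δ1) ^ 2 := by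
        rw [R3]; nlinarith
      exact le_of_mul_le_mul_left (abs_le_of_sq_le_sq' a2 (by rw [R3]; norm_num)).2 (by linarith)
    have claim : ∀ τ ≤ n, ∀ t ≤ τ, R ^ 2 / 2 * ((γ t * h) • x - (γ t * g) • x) ^ 2 ≤
        D (γ t * g) x * D (γ t * h) x := by
      intro τ
      induction τ with
      | zero =>
        intro _ t ht
        obtain rfl : t = 0 := by omega
        rw [c2, one_mul, one_mul]
        nlinarith [sq_nonneg (R * (h • x - g • x))]
      | succ τ ih =>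
        intro hτ t ht
        have ih' := ih (by omega)
        rcases ht.lt_or_eq with ht | rfl
        · exact ih' t (by omega)
        have s1 : ∑ k ∈ (Finset.range (τ + 1)).erase 0,
            ((γ k * h) • x - (γ k * g) • x) ^ (1 + Γ.α) ≤ 272 * tl Γ.α k0 := by
          refine dyad Γ.α_pos _ (fun k => (γ k * h) • x - (γ k * g) • x) (by norm_num) k0
            (fun k hk => ⟨pos k, sz k (ih' k (by simp at hk; omega))⟩) fun k => ?_
          have := beta_step A x hne R2 ((Finset.range (τ + 1)).erase 0) (fun k => γ k * g)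
            (fun k => γ k * h) (fun k => γ k • p) hx
            (fun t _ => ⟨A.act_LE _ hp, by rw [mul_smul, act_le]; exact h1,
              by rw [A.nxt_act, mul_smul, act_le]; exact h2⟩)
            (fun g' h' t ht m a b => by
              simp only [Finset.mem_erase, Finset.mem_range] at ht
              exact IH (n - t) (by omega) g' h' _ (A.LE_int (A.act_LE _ hp) m)
                ⟨_, gd t (by omega) m⟩ a (by rwa [A.nxt_int]))
            (fun t ht t' ht' hlt m ⟨a, b⟩ => by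
              simp only [Finset.mem_erase, Finset.mem_range] at ht ht'
              have e1 := c1.mem_pow 0 t (by omega)
              rw [c2, zero_add, inv_one, mul_one] at e1
              obtain ⟨e2, e3⟩ := gd t' (by omega) m
              have := IH (n - t' + t) (by omega) g h ((γ t)⁻¹ • (γ t' • p + m))
                (A.act_LE _ (A.LE_int (A.act_LE _ hp) m))
                ⟨γ n * (γ t')⁻¹ * γ t, by rw [pow_add]; exact Set.mul_mem_mul e2 e1,
                  by rw [mul_smul, smul_inv_smul]; exact e3⟩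
                (by rw [← act_le (γ t), smul_inv_smul, ← mul_smul]; exact a)
                (by rw [A.nxt_act, ← act_le (γ t), smul_inv_smul, ← mul_smul, A.nxt_int]; exact b)
              linarith)
            (fun t ht => ih' t (by simp at ht; omega)) k
          convert this
        have s2 := rpow_le_self Γ.α_pos (pos 0).le ((sz 0 (ih' 0 (by omega))).trans d1)
        have s3 := Finset.add_sum_erase (Finset.range (τ + 1))
          (fun k => ((γ k * h) • x - (γ k * g) • x) ^ (1 + Γ.α)) (a := 0) (by simp)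
        have s4 := Γ.path_X (c1.mono hτ) (lo := g • x) (hi := h • x) (p := h • x) (p' := g • x)
          (t1 := g • x) (t2 := h • x) ⟨ab.le, le_rfl, le_rfl, ab.le, le_rfl, ab.le, le_rfl,
            Or.inr le_rfl, Or.inl le_rfl⟩ (fun k hk => by
              have := (sz k (ih' k (by omega))).trans d1
              rwa [mul_smul, mul_smul] at this)
        rw [c2, Xr_one, sub_zero] at s4
        simp only [mul_smul] at s1 s2 s3
        have s5 := sz 0 (ih' 0 (by omega))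
        simp only [mul_smul] at s5
        have s6 : ∑ k ∈ Finset.range (τ + 1), (γ k • h • x - γ k • g • x) ^ (1 + Γ.α) ≤
            1 / (4 * Γ.C) := by
          have : 1 / (4 * Γ.C) = 1 / (8 * Γ.C) + 272 * (1 / (8 * Γ.C) / 272) := by
            field_simp; norm_num
          linarith [min_le_right δ (1 / (8 * Γ.C))]
        have s7 : -(1 / 2) ≤ Xr (γ (τ + 1)) (h • x) (g • x) (g • x) (h • x) := by
          have := mul_le_mul_of_nonneg_left s6 (show 0 ≤ 2 * Γ.C by linarith)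
          rw [show 2 * Γ.C * (1 / (4 * Γ.C)) = 1 / 2 by field_simp; norm_num] at this
          linarith [(abs_le.1 s4).1]
        have s8 : 1 / 2 ≤ Real.exp (Xr (γ (τ + 1)) (h • x) (g • x) (g • x) (h • x)) := by
          refine le_trans ?_ (Real.exp_le_exp.2 s7)
          rw [Real.exp_neg]
          exact le_trans (by norm_num) (inv_anti₀ (Real.exp_pos _) exp_half)
        have s9 := B_eq (γ (τ + 1)) ab
        have p1 := pos (τ + 1)
        simp only [mul_smul] at p1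
        have p2 := sub_pos.2 ab
        rw [div_eq_div_iff (by positivity) (by positivity)] at s9
        rw [D_mul, D_mul, mul_smul, mul_smul]
        have p3 : 0 < (h • x - g • x) ^ 2 := by positivity
        refine le_of_mul_le_mul_right ?_ p3
        have q1 := mul_le_mul_of_nonneg_right s8
          (show 0 ≤ (γ (τ + 1) • h • x - γ (τ + 1) • g • x) ^ 2 by positivity)
        have q2 := mul_le_mul q1 hB.le (by positivity) (by positivity)
        rw [← s9] at q2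
        nlinarith
    have e1 := sz n (claim n le_rfl n le_rfl)
    have e2 : A.len (w • p) ≤ (γ n * h) • x - (γ n * g) • x := by
      unfold Cantor.len
      rw [A.nxt_act, c3, mul_smul, mul_smul]
      linarith [(act_le w).2 h1, (act_le w).2 h2]
    linarith [min_le_left δ (1 / (8 * Γ.C))]
  refine ⟨R, R2, fun g h ab => ?_⟩
  obtain ⟨w, hw, a, b⟩ := hacc (g⁻¹ • h • x - x) (by
    rw [gt_iff_lt, sub_pos, ← act_lt g, smul_inv_smul]; exact ab)
  obtain ⟨p, hp, c, d, w', e⟩ := hE (g • x) (h • x) ⟨g • w, A.inv _ _ hw, (act_lt g).2 a, by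
    rw [← act_lt g⁻¹, inv_smul_smul]; linarith⟩
  obtain ⟨n, hn⟩ := Γ.gen w'
  exact main n g h p hp ⟨w', hn, e⟩ c.le d.le

/-- The derivatives along the orbit are summable to the power `1 + α`. -/
theorem beta_sum (A : Cantor G) (Γ : Gen G) {δ : ℝ} (hδ : 0 < δ) (hE : A.Exp δ) {x : ℝ}
    (hx : x ∈ A.Λ) (hne : ∀ g : G, D g x ≤ 1) (hacc : ∀ ε > 0, ∃ w ∈ A.Λ, x < w ∧ w < x + ε) :
    ∃ Sb : ℝ, 1 ≤ Sb ∧ ∀ (n : ℕ) (γ : ℕ → G),
      (∀ i < n, ∀ j < n, i ≠ j → ∀ m : ℤ, γ i • x ≠ γ j • x + m) →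
      ∑ i ∈ Finset.range n, D (γ i) x ^ (1 + Γ.α) ≤ Sb := by
  classical
  obtain ⟨R, R2, hR⟩ := beta A Γ hδ hE hx hne hacc
  refine ⟨max 1 ((2 * R + 1) * tl Γ.α 0), le_max_left _ _, fun n γ hγ => ?_⟩
  refine le_trans (dyad Γ.α_pos _ (fun i => D (γ i) x) (A := 2 * R + 1) (by linarith) 0
    (fun i _ => ⟨D_pos _ _, by simpa using hne _⟩) fun k => ?_) (le_max_right _ _)
  have R0 : 0 < R := by linarith
  refine (count_mod _ (fun i => γ i • x) (δ := (1 / 2) ^ (k + 1) / R) (by positivity)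
    fun i hi j hj hij m => ?_).trans ?_
  · rw [Finset.mem_filter, Finset.mem_range] at hi hj
    have a : D (γ i) x * D (γ j) x ≤ R ^ 2 * (γ i • x - γ j • x - m) ^ 2 := by
      rcases lt_or_gt_of_ne (hγ i hi.1 j hj.1 hij m) with c | c
      · have := hR (γ i) (A.t ^ m * γ j) (by rwa [mul_smul, A.tz_smul])
        rw [A.D_tz_mul, mul_smul, A.tz_smul] at this
        nlinarith
      · have := hR (A.t ^ m * γ j) (γ i) (by rwa [mul_smul, A.tz_smul])
        rw [A.D_tz_mul, mul_smul, A.tz_smul] at this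
        nlinarith
    have b := mul_le_mul hi.2.1.le hj.2.1.le (by positivity) (D_pos _ _).le
    rw [div_le_iff₀ R0]
    refine (abs_le_of_sq_le_sq' (a := (1 / 2 : ℝ) ^ (k + 1)) ?_ (by positivity)).2
    rw [mul_pow, sq_abs]
    nlinarith
  · have e : 1 / ((1 / 2) ^ (k + 1) / R) = 2 * R * 2 ^ k := by
      rw [one_div_pow]; field_simp; ring
    rw [e]
    have a : (1 : ℝ) ≤ 2 ^ k := one_le_pow₀ (by norm_num)
    have b : (1 : ℝ) ≤ k + 1 := by linarith [Nat.cast_nonneg (α := ℝ) k]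
    calc 2 * R * 2 ^ k + 1 ≤ (2 * R + 1) * 1 * 2 ^ k := by nlinarith
      _ ≤ _ := by gcongr

end

section

open Set Filter Topology
open scoped Pointwise

/-- The elements acting as integer translations. -/
def Tr (G : Type) [Group G] [MulAction G ℝ] : Subgroup G where
  carrier := {u | ∃ m : ℤ, ∀ y : ℝ, u • y = y + m}
  mul_mem' := by
    rintro a b ⟨m, hm⟩ ⟨n, hn⟩
    exact ⟨n + m, fun y => by rw [mul_smul, hn, hm]; push_cast; ring⟩
  one_mem' := ⟨0, fun y => by simp⟩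
  inv_mem' := by
    rintro a ⟨m, hm⟩
    exact ⟨-m, fun y => by rw [inv_smul_eq_iff, hm]; push_cast; ring⟩

variable {G : Type} [Group G] [MulAction G ℝ]

/-- The first `n` terms are distinct modulo translations. -/
def Inj (γ : ℕ → G) (n : ℕ) : Prop := ∀ i < n, ∀ j < n, (γ i)⁻¹ * γ j ∈ Tr G → i = j

theorem Inj.mono {γ : ℕ → G} {n m : ℕ} (h : Inj γ n) (hm : m ≤ n) : Inj γ m :=
  fun i hi j hj => h i (by omega) j (by omega)

theorem Inj.shift {γ : ℕ → G} {n : ℕ} (h : Inj γ n) (k : ℕ) : Inj (fun i => γ (k + i)) (n - k) :=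
  fun i hi j hj e => by have := h (k + i) (by omega) (k + j) (by omega) e; omega

/-- The data of a non-expandable point with trivial stabiliser, and the constants. -/
structure Ctx (G : Type) [Group G] [MulAction G ℝ] where
  Γ : Gen G
  t : ℤ → G
  t_smul : ∀ (m : ℤ) (y : ℝ), t m • y = y + m
  x : ℝ
  ne : ∀ g : G, D g x ≤ 1
  free : ∀ (g : G) (n : ℤ), g • x = x + n → g ∈ Tr G
  δ : ℝ
  δ_le : δ ≤ 1
  big : ∀ v, x < v → ∃ g : G, δ ≤ g • v - g • x
  Sb : ℝ
  Sb_pos : 1 ≤ Sb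
  Sb_le : ∀ (n : ℕ) (γ : ℕ → G), Inj γ n → ∑ i ∈ Finset.range n, D (γ i) x ^ (1 + Γ.α) ≤ Sb
  η0 : ℝ
  θ : ℝ
  ω : ℝ
  ρt : ℝ
  η0_pos : 0 < η0
  θ_pos : 0 < θ
  ω_pos : 0 < ω
  ω_lt : ω < δ
  c1 : ω * Sb ≤ 1 / (44 * Γ.C)
  c2 : (3 / ω) ^ 2 * η0 ≤ 1 / (44 * Γ.C)
  c3 : 3 / ω * θ < δ
  c4 : ∀ (n : ℕ) (z th : ℕ → ℝ), (∀ i < n, 0 < th i ∧ th i ≤ θ) →
    (∀ i < n, ∀ j < n, i ≠ j → ∀ m : ℤ, 1 / 400 * min (th i) (th j) ≤ |z i - z j - m|) →
    ∑ i ∈ Finset.range n, th i ^ (1 + Γ.α) ≤ η0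
  c5 : 1 ≤ ρt
  c6 : 1 ≤ θ * ρt
  c7 : Sb ≤ η0 * ρt

variable [SmoothAct G]

theorem Tr.smul {u : G} (hu : u ∈ Tr G) : ∃ m : ℤ, ∀ (g : G) (y : ℝ), (g * u) • y = g • y + m ∧
    D (g * u) y = D g y ∧ Nl (g * u) y = Nl g y := by
  obtain ⟨m, hm⟩ := hu
  have e : ∀ (g : G) (y : ℝ), (g * u) • y = g • y + m := fun g y => by rw [mul_smul, hm, act_int]
  have e2 : ∀ (g : G), D (g * u) = D g := fun g => funext fun y => by
    unfold D; simp only [e]; rw [deriv_add_const]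
  exact ⟨m, fun g y => ⟨e g y, by rw [e2], by unfold Nl DD; rw [e2]⟩⟩

theorem Tr.conj {u : G} (hu : u ∈ Tr G) (h : G) : h * u * h⁻¹ ∈ Tr G := by
  obtain ⟨m, hm⟩ := hu
  exact ⟨m, fun y => by rw [mul_smul, mul_smul, hm, act_int, smul_inv_smul]⟩

theorem Inj.mul_right {γ : ℕ → G} {n : ℕ} (hγ : Inj γ n) (h : G) : Inj (fun i => γ i * h) n :=
  fun i hi j hj e => hγ i hi j hj (by simpa [mul_assoc] using Tr.conj e h)

theorem free_path (Γ : Gen G) (g g' : G) : ∃ (γ : ℕ → G) (n : ℕ), Pa Γ.S γ n ∧ γ 0 = g ∧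
    (γ n)⁻¹ * g' ∈ Tr G ∧ Inj γ (n + 1) := by
  obtain ⟨n, hn⟩ := Γ.gen (g' * g⁻¹)
  obtain ⟨β, a, b, c⟩ := pa_of_pow n _ hn
  obtain ⟨γ, m, h1, h2, h3, -, h5⟩ := erase Γ.S (Tr G) _ n (a.mul_right g)
  exact ⟨γ, m, h1, by simpa [b] using h2, by simpa [c] using h3,
    fun i hi j hj => h5 i (by omega) j (by omega)⟩

theorem Gen.ctl (Γ : Gen G) {γ : ℕ → G} {n : ℕ} (hγ : Pa Γ.S γ n) {lo hi p p' t1 t2 : ℝ}
    (h : Ord4 lo hi p p' t1 t2) (hl : ∀ k < n, γ k • hi - γ k • lo ≤ 1)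
    (hs : ∑ k ∈ Finset.range n, (γ k • hi - γ k • lo) ^ (1 + Γ.α) ≤ 1 / (22 * Γ.C)) :
    Real.exp (Xr (γ n) p p' t1 t2) ≤ 11 / 10 * Real.exp (Xr (γ 0) p p' t1 t2) ∧
      Real.exp (Xr (γ 0) p p' t1 t2) ≤ 11 / 10 * Real.exp (Xr (γ n) p p' t1 t2) := by
  have C1 := Γ.C_pos
  have a := Γ.path_X hγ h hl
  have b := mul_le_mul_of_nonneg_left hs (show 0 ≤ 2 * Γ.C by linarith)
  rw [show 2 * Γ.C * (1 / (22 * Γ.C)) = 1 / 11 by field_simp; norm_num] at b
  have c := abs_le.1 (a.trans b)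
  have e : Real.exp (1 / 11) ≤ 11 / 10 := by
    have := Real.exp_bound_div_one_sub_of_interval (x := 1 / 11) (by norm_num) (by norm_num)
    norm_num at this ⊢; exact this
  have key : ∀ u v : ℝ, u ≤ 1 / 11 + v → Real.exp u ≤ 11 / 10 * Real.exp v := fun u v huv =>
    (Real.exp_le_exp.2 huv).trans (by
      rw [Real.exp_add]; exact mul_le_mul_of_nonneg_right e (Real.exp_pos _).le)
  exact ⟨key _ _ (by linarith), key _ _ (by linarith)⟩

namespace Ctx

variable (X : Ctx G)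

/-- The size of the view of the marker `y`. -/
noncomputable def th (y : ℝ) (g : G) : ℝ := g • X.x - g • y

/-- The depth relative to the marker `y`. -/
noncomputable def dd (y : ℝ) (g : G) : ℝ := D g X.x / X.th y g

/-- The component of `g0` in the set where the depth is at least `ρ`. -/
inductive Cl (y ρ : ℝ) (g0 : G) : G → Prop
  | base : ρ ≤ X.dd y g0 → Cl y ρ g0 g0
  | step {g s : G} : Cl y ρ g0 g → s ∈ X.Γ.S → ρ ≤ X.dd y (s * g) → Cl y ρ g0 (s * g)
  | tr {g u : G} : Cl y ρ g0 g → u ∈ Tr G → Cl y ρ g0 (g * u)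

/-- All views in the class are small and summable. -/
def Tame (y ρ : ℝ) (g0 : G) : Prop := (∀ g, X.Cl y ρ g0 g → X.th y g ≤ X.θ) ∧
  ∀ (n : ℕ) (γ : ℕ → G), (∀ i < n, X.Cl y ρ g0 (γ i)) → Inj γ n →
    ∑ i ∈ Finset.range n, X.th y (γ i) ^ (1 + X.Γ.α) ≤ X.η0

/-- Tame class with an escape route and tame subclasses. -/
def Nice (y ρ : ℝ) (g : G) : Prop := y < X.x ∧ X.Tame y ρ g ∧
  (∃ g', X.Cl y ρ g g' ∧ 3 ≤ X.dd y g') ∧
  ∀ z, z < X.x → 100 * X.dd y g ≤ X.dd z g → ∃ σ ≤ 2 / 5 * X.dd z g, X.Tame z σ g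

variable {X}

theorem ω_le : X.ω ≤ 1 := X.ω_lt.le.trans X.δ_le

theorem three_le : 3 ≤ 3 / X.ω := by
  rw [le_div_iff₀ X.ω_pos]; linarith [ω_le (X := X)]

theorem θ_le : X.θ ≤ 1 / 3 := by
  nlinarith [three_le (X := X), X.c3, X.δ_le, X.θ_pos]

theorem η0_le : 8 * X.η0 ≤ 1 / (22 * X.Γ.C) := by
  have a := three_le (X := X)
  have b := X.c2
  have C1 := X.Γ.C_pos
  have c : 1 / (44 * X.Γ.C) ≤ 1 / (22 * X.Γ.C) := one_div_le_one_div_of_le (by positivity) (by linarith)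
  have : 9 ≤ (3 / X.ω) ^ 2 := by nlinarith
  nlinarith [X.η0_pos]

theorem th_pos {y : ℝ} (hy : y < X.x) (g : G) : 0 < X.th y g := sub_pos.2 ((act_lt g).2 hy)

theorem dd_pos {y : ℝ} (hy : y < X.x) (g : G) : 0 < X.dd y g := div_pos (D_pos _ _) (th_pos hy g)

theorem dd_mul {y : ℝ} (hy : y < X.x) (g : G) : X.dd y g * X.th y g = D g X.x :=
  div_mul_cancel₀ _ (th_pos hy g).ne'

theorem th_tr (y : ℝ) (g : G) {u : G} (hu : u ∈ Tr G) : X.th y (g * u) = X.th y g := by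
  obtain ⟨m, hm⟩ := Tr.smul hu
  unfold th; rw [(hm g _).1, (hm g _).1]; ring

theorem dd_tr (y : ℝ) (g : G) {u : G} (hu : u ∈ Tr G) : X.dd y (g * u) = X.dd y g := by
  unfold dd; rw [th_tr y g hu]
  obtain ⟨m, hm⟩ := Tr.smul hu
  rw [(hm g _).2.1]

theorem th_anti {y z : ℝ} (h : y ≤ z) (g : G) : X.th z g ≤ X.th y g := by
  unfold th; linarith [(act_le g).2 h]

theorem dd_mono {y z : ℝ} (h : y ≤ z) (hz : z < X.x) (g : G) : X.dd y g ≤ X.dd z g :=
  div_le_div_of_nonneg_left (D_pos _ _).le (th_pos hz g) (th_anti h g)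

theorem le_of_dd {y z : ℝ} (hy : y < X.x) {g : G} (h : X.dd y g ≤ X.dd z g) (hz : z < X.x) :
    y ≤ z := by
  by_contra c
  push Not at c
  have : X.dd z g < X.dd y g := div_lt_div_of_pos_left (D_pos _ _) (th_pos hy g) (by
    unfold th; linarith [(act_lt g).2 c])
  linarith

theorem marker (g : G) {c : ℝ} (hc : 0 < c) : ∃ y < X.x, X.dd y g = c := by
  have p := D_pos g X.x
  refine ⟨g⁻¹ • (g • X.x - D g X.x / c), ?_, ?_⟩
  · rw [← act_lt g, smul_inv_smul]; linarith [div_pos p hc]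
  · unfold dd th; rw [smul_inv_smul, sub_sub_cancel]; field_simp

theorem dd_sub {y z : ℝ} (h : y ≤ z) (hz : z < X.x) (g : G) : X.dd z g - X.dd y g =
    Real.exp (Xr g X.x y z X.x) * ((z - y) / ((X.x - y) * (X.x - z))) := by
  rcases h.eq_or_lt with rfl | h
  · simp
  have a1 := th_pos hz g
  have a2 := th_pos (h.trans hz) g
  have a3 := sub_pos.2 ((act_lt g).2 h)
  have a4 := sub_pos.2 hz
  have a5 := sub_pos.2 (h.trans hz)
  have a6 := sub_pos.2 h
  unfold dd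
  unfold th at *
  rw [exp_Xr, sl_same, sl_symm g X.x z, sl_ne g h.ne', sl_ne g hz.ne', sl_ne g (h.trans hz).ne']
  field_simp
  ring

theorem ctlD {γ : ℕ → G} {n : ℕ} (hγ : Pa X.Γ.S γ n) {y z : ℝ} (h : y ≤ z) (hz : z < X.x)
    (hl : ∀ k < n, X.th y (γ k) ≤ 1)
    (hs : ∑ k ∈ Finset.range n, X.th y (γ k) ^ (1 + X.Γ.α) ≤ 1 / (22 * X.Γ.C)) :
    X.dd z (γ n) - X.dd y (γ n) ≤ 11 / 10 * (X.dd z (γ 0) - X.dd y (γ 0)) ∧
      X.dd z (γ 0) - X.dd y (γ 0) ≤ 11 / 10 * (X.dd z (γ n) - X.dd y (γ n)) := by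
  obtain ⟨a, b⟩ := X.Γ.ctl hγ (lo := y) (hi := X.x) (p := X.x) (p' := y) (t1 := z) (t2 := X.x)
    ⟨by linarith, le_rfl, le_rfl, by linarith, h, hz.le, le_rfl, Or.inr le_rfl, Or.inl h⟩ hl hs
  have c : 0 ≤ (z - y) / ((X.x - y) * (X.x - z)) :=
    div_nonneg (by linarith) (mul_nonneg (by linarith) (by linarith))
  rw [dd_sub h hz, dd_sub h hz]
  constructor <;> nlinarith

theorem Cl.le {y ρ : ℝ} {g0 g : G} (h : X.Cl y ρ g0 g) : ρ ≤ X.dd y g := by
  induction h with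
  | base h => exact h
  | step _ _ h _ => exact h
  | tr _ hu ih => rwa [dd_tr _ _ hu]

omit [SmoothAct G] in
theorem Cl.le0 {y ρ : ℝ} {g0 g : G} (h : X.Cl y ρ g0 g) : ρ ≤ X.dd y g0 := by
  induction h with
  | base h => exact h
  | step _ _ _ ih => exact ih
  | tr _ _ ih => exact ih

omit [SmoothAct G] in
theorem Cl.trans {y ρ : ℝ} {g0 g g' : G} (h : X.Cl y ρ g0 g) (h' : X.Cl y ρ g g') :
    X.Cl y ρ g0 g' := by
  induction h' with
  | base _ => exact h
  | step _ hs h ih => exact ih.step hs h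
  | tr _ hu ih => exact ih.tr hu

theorem Cl.symm {y ρ : ℝ} {g0 g : G} (h : X.Cl y ρ g0 g) : X.Cl y ρ g g0 := by
  induction h with
  | base h => exact .base h
  | @step g s h hs h' ih =>
    have := (Cl.base h').step (X.Γ.inv s hs) (by simpa using h.le)
    rw [inv_mul_cancel_left] at this
    exact this.trans ih
  | @tr g u h hu ih =>
    have := (Cl.base (X := X) (y := y) (ρ := ρ) (g0 := g * u)
      (by rw [dd_tr _ _ hu]; exact h.le)).tr ((Tr G).inv_mem hu)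
    rw [mul_inv_cancel_right] at this
    exact this.trans ih

omit [SmoothAct G] in
theorem path_cl {y ρ : ℝ} {γ : ℕ → G} {n : ℕ} (hγ : Pa X.Γ.S γ n)
    (h : ∀ i ≤ n, ρ ≤ X.dd y (γ i)) : ∀ i ≤ n, X.Cl y ρ (γ 0) (γ i) := by
  intro i
  induction i with
  | zero => exact fun hi => .base (h 0 hi)
  | succ i ih =>
    intro hi
    obtain ⟨s, hs, e⟩ := hγ i (by omega)
    rw [e]
    exact (ih (by omega)).step hs (e ▸ h _ hi)

theorem Cl.path {y ρ : ℝ} {g0 g : G} (h : X.Cl y ρ g0 g) : ∃ (γ : ℕ → G) (n : ℕ),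
    Pa X.Γ.S γ n ∧ γ 0 = g0 ∧ (γ n)⁻¹ * g ∈ Tr G ∧ (∀ i ≤ n, X.Cl y ρ g0 (γ i)) ∧
      Inj γ (n + 1) := by
  have a : ∃ (γ : ℕ → G) (n : ℕ), Pa X.Γ.S γ n ∧ γ 0 = g0 ∧ (γ n)⁻¹ * g ∈ Tr G ∧
      ∀ i ≤ n, ρ ≤ X.dd y (γ i) := by
    induction h with
    | base h => exact ⟨fun _ => g0, 0, fun k hk => by omega, rfl, by simp, fun _ _ => h⟩
    | @step g s _ hs h' ih =>
      obtain ⟨γ, n, a, b, c, d⟩ := ih
      refine ⟨_, n + 1, a.snoc hs, by simpa using b, by simpa [mul_assoc] using c, fun i hi => ?_⟩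
      by_cases e : i ≤ n
      · simpa [e] using d i e
      · have := dd_tr (X := X) y (s * γ n) c
        simp only [mul_assoc, mul_inv_cancel_left] at this
        simpa [e, ← this] using h'
    | @tr g u _ hu ih =>
      obtain ⟨γ, n, a, b, c, d⟩ := ih
      exact ⟨γ, n, a, b, by rw [← mul_assoc]; exact (Tr G).mul_mem c hu, d⟩
  obtain ⟨β, n, a, b, c, d⟩ := a
  obtain ⟨γ, m, h1, h2, h3, h4, h5⟩ := erase X.Γ.S (Tr G) β n a
  refine ⟨γ, m, h1, h2.trans b, ?_, ?_, fun i hi j hj => h5 i (by omega) j (by omega)⟩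
  · simpa [mul_assoc] using (Tr G).mul_mem h3 c
  · rw [← b, ← h2]
    refine path_cl h1 fun i hi => ?_
    obtain ⟨k, hk, e⟩ := h4 i hi
    have := dd_tr (X := X) y (γ i) e
    rw [mul_inv_cancel_left] at this
    rw [← this]; exact d k hk

omit [SmoothAct G] in
theorem Tame.of_cl {y ρ : ℝ} {g0 g : G} (h : X.Tame y ρ g0) (h' : X.Cl y ρ g0 g) : X.Tame y ρ g :=
  ⟨fun g' a => h.1 g' (h'.trans a), fun n γ a b => h.2 n γ (fun i hi => h'.trans (a i hi)) b⟩

theorem Tame.tr {y ρ : ℝ} {g u : G} (h : X.Tame y ρ g) (hu : u ∈ Tr G) : X.Tame y ρ (g * u) := by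
  have key : ∀ g', X.Cl y ρ (g * u) g' → X.Cl y ρ g g' := fun g' a =>
    ((Cl.base (by have := a.le0; rwa [dd_tr _ _ hu] at this)).tr hu).trans a
  exact ⟨fun g' a => h.1 g' (key g' a), fun n γ a b => h.2 n γ (fun i hi => key _ (a i hi)) b⟩

theorem Nice.tr {y ρ : ℝ} {g u : G} (h : X.Nice y ρ g) (hu : u ∈ Tr G) : X.Nice y ρ (g * u) := by
  obtain ⟨a, b, ⟨g', c, d⟩, e⟩ := h
  refine ⟨a, b.tr hu, ⟨g', ((Cl.base c.le0).tr hu).symm.trans c, d⟩, fun z hz h => ?_⟩
  simp only [dd_tr _ _ hu] at h ⊢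
  obtain ⟨σ, h1, h2⟩ := e z hz h
  exact ⟨σ, h1, h2.tr hu⟩

theorem Tame.ctl {y ρ : ℝ} {g0 : G} (h : X.Tame y ρ g0) {γ : ℕ → G} {n : ℕ} (hγ : Pa X.Γ.S γ n)
    (h1 : ∀ i < n, X.Cl y ρ g0 (γ i)) (h2 : Inj γ n) {z : ℝ} (hy : y ≤ z) (hz : z < X.x) :
    X.dd z (γ n) - X.dd y (γ n) ≤ 11 / 10 * (X.dd z (γ 0) - X.dd y (γ 0)) ∧
      X.dd z (γ 0) - X.dd y (γ 0) ≤ 11 / 10 * (X.dd z (γ n) - X.dd y (γ n)) :=
  ctlD hγ hy hz (fun k hk => (h.1 _ (h1 k hk)).trans (by linarith [θ_le (X := X)]))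
    ((h.2 n γ h1 h2).trans (by linarith [η0_le (X := X), X.η0_pos]))

theorem Tame.step {y ρ : ℝ} {g0 g s : G} (h : X.Tame y ρ g0) (hg : X.Cl y ρ g0 g)
    (hs : s ∈ X.Γ.S) {z : ℝ} (hy : y ≤ z) (hz : z < X.x) :
    X.dd z (s * g) - X.dd y (s * g) ≤ 11 / 10 * (X.dd z g0 - X.dd y g0) ∧
      X.dd z g0 - X.dd y g0 ≤ 11 / 10 * (X.dd z (s * g) - X.dd y (s * g)) := by
  obtain ⟨γ, n, a, b, c, d, e⟩ := hg.path
  have := h.ctl (a.snoc hs) (fun i hi => by simpa [show i ≤ n by omega] using d i (by omega))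
    (fun i hi j hj => by simpa [show i ≤ n by omega, show j ≤ n by omega] using e i hi j hj) hy hz
  have e1 : ∀ w, X.dd w (s * γ n) = X.dd w (s * g) := fun w => by
    have := dd_tr (X := X) w (s * γ n) c
    simpa [mul_assoc] using this.symm
  simpa [b, e1] using this

theorem Tame.nested {y ρ : ℝ} {g : G} (h : X.Tame y ρ g) (hg : ρ ≤ X.dd y g) {z σ : ℝ}
    (hy : y ≤ z) (hz : z < X.x) (hσ : 11 / 10 * (X.dd z g - X.dd y g) + ρ ≤ σ) : X.Tame z σ g := by
  have key : ∀ g', X.Cl z σ g g' → X.Cl y ρ g g' := by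
    intro g' a
    induction a with
    | base _ => exact .base hg
    | step _ hs h' ih => exact ih.step hs (by linarith [(h.step ih hs hy hz).1])
    | tr _ hu ih => exact ih.tr hu
  refine ⟨fun g' a => (th_anti hy g').trans (h.1 g' (key g' a)), fun n γ a b => ?_⟩
  refine le_trans (Finset.sum_le_sum fun i _ => ?_) (h.2 n γ (fun i hi => key _ (a i hi)) b)
  exact Real.rpow_le_rpow (th_pos hz _).le (th_anti hy _) (by linarith [X.Γ.α_pos])

theorem tame_top {y ρ : ℝ} (hy : y < X.x) (hρ : X.ρt ≤ ρ) (g0 : G) : X.Tame y ρ g0 := by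
  have p : 0 < X.ρt := by linarith [X.c5]
  have key : ∀ g, X.Cl y ρ g0 g → X.th y g ≤ X.ρt⁻¹ * D g X.x := fun g a => by
    rw [← dd_mul hy, inv_mul_eq_div, le_div_iff₀ p, mul_comm]
    exact mul_le_mul_of_nonneg_right (hρ.trans a.le) (th_pos hy g).le
  refine ⟨fun g a => (key g a).trans ?_, fun n γ a b => ?_⟩
  · rw [inv_mul_eq_div, div_le_iff₀ p]; exact (X.ne g).trans X.c6
  · have c : ∀ i ∈ Finset.range n, X.th y (γ i) ^ (1 + X.Γ.α) ≤
        X.ρt⁻¹ * D (γ i) X.x ^ (1 + X.Γ.α) := fun i hi => by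
      refine (Real.rpow_le_rpow (th_pos hy _).le (key _ (a i (Finset.mem_range.1 hi)))
        (by linarith [X.Γ.α_pos])).trans ?_
      rw [Real.mul_rpow (by positivity) (D_pos _ _).le]
      exact mul_le_mul_of_nonneg_right (rpow_le_self X.Γ.α_pos (by positivity)
        (inv_le_one_of_one_le₀ X.c5)) (Real.rpow_nonneg (D_pos _ _).le _)
    refine (Finset.sum_le_sum c).trans ?_
    rw [← Finset.mul_sum, inv_mul_eq_div, div_le_iff₀ p]
    exact (X.Sb_le n γ b).trans X.c7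

end Ctx

end

end Pool.Agent.Lib.MP_173a7e_an
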