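import Pool.Agent.Lib.MP_173a7e_an.FreeB

/-! Separation of nice vertices and the level construction. -/

set_option autoImplicit false
set_option linter.unusedSectionVars false
set_option linter.unusedVariables false

namespace Pool.Agent.Lib.MP_173a7e_an

section

open Set Filter Topology

theorem rpow_add_le {α a b : ℝ} (h0 : 0 < α) (h1 : α ≤ 1) (ha : 0 ≤ a) (hb : 0 ≤ b) :
    (a + b) ^ (1 + α) ≤ 4 * (a ^ (1 + α) + b ^ (1 + α)) := by
  have key : ∀ c : ℝ, 0 ≤ c → (2 * c) ^ (1 + α) ≤ 4 * c ^ (1 + α) := fun c hc => by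
    rw [Real.mul_rpow (by norm_num) hc]
    refine mul_le_mul_of_nonneg_right ?_ (Real.rpow_nonneg hc _)
    have := Real.rpow_le_rpow_of_exponent_le (x := 2) (by norm_num) (show 1 + α ≤ 2 by linarith)
    rw [Real.rpow_two] at this
    linarith
  have p1 := Real.rpow_nonneg ha (1 + α)
  have p2 := Real.rpow_nonneg hb (1 + α)
  rcases le_total a b with h | h
  · have := Real.rpow_le_rpow (by linarith) (show a + b ≤ 2 * b by linarith)
      (show 0 ≤ 1 + α by linarith)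
    linarith [key b hb]
  · have := Real.rpow_le_rpow (by linarith) (show a + b ≤ 2 * a by linarith)
      (show 0 ≤ 1 + α by linarith)
    linarith [key a ha]

variable {G : Type} [Group G] [MulAction G ℝ] [SmoothAct G]

namespace Ctx

variable {X : Ctx G}

theorem sh_lt {h : G} (hx : X.x < h • X.x) : h⁻¹ • X.x < X.x := by
  rwa [← act_lt h, smul_inv_smul]

theorem th_sh (h w : G) : X.th (h⁻¹ • X.x) (w * h) = w • h • X.x - w • X.x := by
  unfold th; rw [mul_smul, mul_smul, smul_inv_smul]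

theorem B_form {h : G} (hx : X.x < h • X.x) (w : G) :
    D w X.x / X.th (h⁻¹ • X.x) (w * h) * X.dd (h⁻¹ • X.x) (w * h) =
      Real.exp (Xr w (h • X.x) X.x X.x (h • X.x)) * (D h X.x / (h • X.x - X.x) ^ 2) := by
  have a := B_eq w hx
  have p := th_pos (sh_lt hx) (w * h)
  have q := sub_pos.2 hx
  unfold dd
  rw [th_sh] at *
  rw [div_eq_div_iff (by positivity) (by positivity)] at a
  rw [D_mul]
  field_simp
  linear_combination D h X.x * a

theorem D_form {h : G} (hx : X.x < h • X.x) {y : ℝ} (hy : y < X.x) (w : G) :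
    X.dd y w + D w X.x / X.th (h⁻¹ • X.x) (w * h) = Real.exp (Xr w y X.x X.x (h • X.x)) *
      ((h • X.x - y) / ((X.x - y) * (h • X.x - X.x))) := by
  have p := th_pos (sh_lt hx) (w * h)
  have p2 := th_pos hy w
  have q := sub_pos.2 hx
  have q2 := sub_pos.2 hy
  have q3 := sub_pos.2 (hy.trans hx)
  have q4 := sub_pos.2 ((act_lt w).2 (hy.trans hx))
  unfold dd
  rw [th_sh] at *
  unfold th at *
  rw [exp_Xr, sl_same, sl_ne w (hy.trans hx).ne', sl_ne w hy.ne', sl_ne w hx.ne']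
  field_simp
  ring

theorem PL {y ρ σ : ℝ} {g h : G} (hx : X.x < h • X.x) (hy : y < X.x) (ta : X.Tame y ρ g)
    (esc : ∃ g', X.Cl y ρ g g' ∧ 3 ≤ X.dd y g') (tb : X.Tame (h⁻¹ • X.x) σ (g * h))
    (hσ : σ ≤ 2 / 5 * X.dd (h⁻¹ • X.x) (g * h))
    (small : 100 * X.th (h⁻¹ • X.x) (g * h) ≤ X.th y g)
    (ra : D g X.x ≤ X.th (h⁻¹ • X.x) (g * h)) : False := by
  obtain ⟨g', e1, e2⟩ := esc
  obtain ⟨γ, n, a, b, c, d, e⟩ := e1.path
  have hz := sh_lt hx
  set z := h⁻¹ • X.x with hzz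
  have pT := fun w => th_pos hz (w * h)
  have pb := fun w => dd_pos hz (w * h)
  have pa := fun w => div_pos (D_pos w X.x) (pT w)
  have r1 : D g X.x / X.th z (g * h) ≤ 1 := (div_le_one (pT g)).2 ra
  have r2 : 100 * X.dd y g ≤ D g X.x / X.th z (g * h) := by
    rw [le_div_iff₀ (pT g), ← dd_mul hy g]
    nlinarith [dd_pos hy g]
  have ctl : ∀ τ ≤ n, (∀ i < τ, X.Cl z σ (g * h) (γ i * h)) →
      σ ≤ X.dd z (γ τ * h) ∧ X.dd y (γ τ) ≤ 2 := by
    intro τ hτ H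
    have l1 : ∀ k, γ k • h • X.x - γ k • y = X.th y (γ k) + X.th z (γ k * h) := fun k => by
      rw [th_sh]; unfold th; ring
    have l2 : ∀ k < τ, γ k • h • X.x - γ k • y ≤ 1 := fun k hk => by
      linarith [l1 k, ta.1 _ (d k (by omega)), tb.1 _ (H k hk), θ_le (X := X)]
    have l3 : ∑ k ∈ Finset.range τ, (γ k • h • X.x - γ k • y) ^ (1 + X.Γ.α) ≤
        1 / (22 * X.Γ.C) := by
      have s1 := ta.2 τ γ (fun i hi => d i (by omega)) (e.mono (by omega))
      have s2 := tb.2 τ _ H ((e.mono (by omega)).mul_right h)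
      simp only [l1]
      refine (Finset.sum_le_sum fun k _ =>
        rpow_add_le X.Γ.α_pos X.Γ.α_le (th_pos hy _).le (pT _).le).trans ?_
      rw [← Finset.mul_sum, Finset.sum_add_distrib]
      linarith [η0_le (X := X)]
    have c1 := (X.Γ.ctl (a.mono hτ) (lo := y) (hi := h • X.x) (p := h • X.x) (p' := X.x)
      (t1 := X.x) (t2 := h • X.x) ⟨by linarith, le_rfl, hy.le, hx.le, hy.le, hx.le, le_rfl,
        Or.inr le_rfl, Or.inl le_rfl⟩ l2 l3).2
    have c2 := (X.Γ.ctl (a.mono hτ) (lo := y) (hi := h • X.x) (p := y) (p' := X.x)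
      (t1 := X.x) (t2 := h • X.x) ⟨le_rfl, by linarith, hy.le, hx.le, hy.le, hx.le, le_rfl,
        Or.inl hy.le, Or.inl le_rfl⟩ l2 l3).1
    rw [b] at c1 c2
    have d1 := mul_le_mul_of_nonneg_right c1 (show 0 ≤ D h X.x / (h • X.x - X.x) ^ 2 from
      div_nonneg (D_pos _ _).le (sq_nonneg _))
    have d2 := mul_le_mul_of_nonneg_right c2
      (show 0 ≤ (h • X.x - y) / ((X.x - y) * (h • X.x - X.x)) from
        div_nonneg (by linarith) (mul_nonneg (by linarith) (by linarith)))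
    rw [mul_assoc, ← B_form hx, ← B_form hx] at d1
    rw [mul_assoc, ← D_form hx hy, ← D_form hx hy] at d2
    rw [← hzz] at d1 d2
    have q1 := pa (γ τ)
    have q2 := pa g
    have q3 := pb (γ τ)
    have q4 := pb g
    have q5 := dd_pos hy (γ τ)
    refine ⟨?_, by linarith⟩
    have q6 : D (γ τ) X.x / X.th z (γ τ * h) ≤ 2 * (D g X.x / X.th z (g * h)) := by linarith
    have q7 := mul_le_mul_of_nonneg_right q6 q3.le
    have q8 : X.dd z (g * h) ≤ 11 / 5 * X.dd z (γ τ * h) :=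
      le_of_mul_le_mul_left (by linarith) q2
    linarith
  have cl : ∀ τ ≤ n, ∀ i ≤ τ, X.Cl z σ (g * h) (γ i * h) := by
    intro τ
    induction τ with
    | zero =>
      intro _ i hi
      obtain rfl : i = 0 := by omega
      rw [b]; exact .base (by linarith [pb g])
    | succ τ ih =>
      intro hτ i hi
      rcases hi.lt_or_eq with hi | rfl
      · exact ih (by omega) i (by omega)
      · obtain ⟨s, hs, e'⟩ := a τ (by omega)
        have := (ctl (τ + 1) hτ fun i hi => ih (by omega) i (by omega)).1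
        rw [e', mul_assoc] at this ⊢
        exact (ih (by omega) τ le_rfl).step hs this
  have f1 := (ctl n le_rfl fun i hi => cl n le_rfl i hi.le).2
  have f2 := dd_tr (X := X) y (γ n) c
  rw [mul_inv_cancel_left] at f2
  linarith

theorem PL' {z2 σ : ℝ} {g h : G} (hx : X.x < h • X.x) (h1 : h⁻¹ • X.x ≤ z2) (h2 : z2 < X.x)
    (e0 : X.dd z2 (g * h) - X.dd (h⁻¹ • X.x) (g * h) =
      D g X.x / X.th (h⁻¹ • X.x) (g * h) * X.dd (h⁻¹ • X.x) (g * h))
    (tb : X.Tame z2 σ (g * h)) (hσ : σ ≤ 2 / 5 * X.dd z2 (g * h))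
    (ra : X.th (h⁻¹ • X.x) (g * h) ≤ D g X.x) : False := by
  obtain ⟨w, hw⟩ := X.big _ hx
  obtain ⟨γ, n, a, b, c, e⟩ := free_path X.Γ g w
  have hz := sh_lt hx
  set z := h⁻¹ • X.x with hzz
  have pT := fun w => th_pos hz (w * h)
  have pb := fun w => dd_pos hz (w * h)
  have pa := fun w => div_pos (D_pos w X.x) (pT w)
  have r1 : 1 ≤ D g X.x / X.th z (g * h) := (one_le_div (pT g)).2 ra
  set B0 := D g X.x / X.th z (g * h) * X.dd z (g * h) with hB0
  have r2 : X.dd z (g * h) ≤ B0 := by nlinarith [pb g]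
  have ω0 := X.ω_pos
  have ω1 := ω_le (X := X)
  have ω3 := three_le (X := X)
  let P : ℕ → Prop := fun t =>
    B0 ≤ 11 / 10 * (D (γ t) X.x / X.th z (γ t * h) * X.dd z (γ t * h)) ∧
      X.dd z2 (γ t * h) - X.dd z (γ t * h) ≤ 11 / 10 * B0 ∧ X.Cl z2 σ (g * h) (γ t * h)
  have size : ∀ t, P t → X.th z (γ t * h) ≤ X.ω * D (γ t) X.x ∨
      X.th z (γ t * h) ≤ 3 / X.ω * X.th z2 (γ t * h) := by
    rintro t ⟨p1, p2, -⟩
    by_cases k : X.th z (γ t * h) ≤ X.ω * D (γ t) X.x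
    · exact Or.inl k
    right
    have q1 : D (γ t) X.x / X.th z (γ t * h) ≤ 1 / X.ω := by
      rw [div_le_div_iff₀ (pT _) ω0]; linarith
    have q2 := mul_le_mul_of_nonneg_right q1 (pb (γ t)).le
    have q3 := dd_mul hz (γ t * h)
    have q4 := dd_mul h2 (γ t * h)
    have q5 : 1 ≤ 1 / X.ω := by rw [le_div_iff₀ ω0]; linarith
    have q6 : X.dd z2 (γ t * h) ≤ 3 / X.ω * X.dd z (γ t * h) := by
      rw [show 3 / X.ω = 3 * (1 / X.ω) by ring]
      nlinarith [pb (γ t)]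
    refine le_of_mul_le_mul_left ?_ (pb (γ t))
    rw [q3, ← q4]
    nlinarith [th_pos h2 (γ t * h)]
  have lt : ∀ t, P t → X.th z (γ t * h) < X.δ := fun t ht => by
    rcases size t ht with k | k
    · nlinarith [X.ne (γ t), X.ω_lt]
    · have := mul_le_mul_of_nonneg_left (tb.1 _ ht.2.2) (show 0 ≤ 3 / X.ω by linarith)
      linarith [X.c3]
  have main : ∀ τ ≤ n, ∀ t ≤ τ, P t := by
    intro τ
    induction τ with
    | zero =>
      intro _ t ht
      obtain rfl : t = 0 := by omega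
      simp only [P, b]
      exact ⟨by linarith [pb g], by linarith [pb g], .base (by linarith [pb g])⟩
    | succ τ ih =>
      intro hτ t ht
      have ih' := ih (by omega)
      rcases ht.lt_or_eq with ht | rfl
      · exact ih' t (by omega)
      have l2 : ∀ k < τ + 1, X.th z (γ k * h) ≤ 1 := fun k hk =>
        (lt k (ih' k (by omega))).le.trans X.δ_le
      have l3 : ∑ k ∈ Finset.range (τ + 1), X.th z (γ k * h) ^ (1 + X.Γ.α) ≤
          1 / (22 * X.Γ.C) := by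
        have s1 := X.Sb_le (τ + 1) γ (e.mono (by omega))
        have s2 := tb.2 (τ + 1) _ (fun i hi => (ih' i (by omega)).2.2)
          ((e.mono (by omega)).mul_right h)
        have s3 : ∀ k ∈ Finset.range (τ + 1), X.th z (γ k * h) ^ (1 + X.Γ.α) ≤
            X.ω * D (γ k) X.x ^ (1 + X.Γ.α) + (3 / X.ω) ^ 2 * X.th z2 (γ k * h) ^ (1 + X.Γ.α) := by
          intro k hk
          have α0 : 0 ≤ 1 + X.Γ.α := by linarith [X.Γ.α_pos]
          have u1 := Real.rpow_nonneg (D_pos (γ k) X.x).le (1 + X.Γ.α)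
          have u2 := Real.rpow_nonneg (th_pos h2 (γ k * h)).le (1 + X.Γ.α)
          rcases size k (ih' k (by simp at hk; omega)) with j | j
          · refine (Real.rpow_le_rpow (pT _).le j α0).trans ?_
            rw [Real.mul_rpow ω0.le (D_pos _ _).le]
            have := mul_le_mul_of_nonneg_right (rpow_le_self X.Γ.α_pos ω0.le ω1) u1
            nlinarith [mul_nonneg (sq_nonneg (3 / X.ω)) u2]
          · refine (Real.rpow_le_rpow (pT _).le j α0).trans ?_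
            rw [Real.mul_rpow (by linarith) (th_pos h2 _).le]
            have v := Real.rpow_le_rpow_of_exponent_le (x := 3 / X.ω) (by linarith)
              (show 1 + X.Γ.α ≤ 2 by linarith [X.Γ.α_le])
            rw [Real.rpow_two] at v
            have := mul_le_mul_of_nonneg_right v u2
            nlinarith [mul_nonneg ω0.le u1]
        refine (Finset.sum_le_sum s3).trans ?_
        rw [Finset.sum_add_distrib, ← Finset.mul_sum, ← Finset.mul_sum]
        have s4 := mul_le_mul_of_nonneg_left s1 ω0.le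
        have s5 := mul_le_mul_of_nonneg_left s2 (sq_nonneg (3 / X.ω))
        have : 1 / (22 * X.Γ.C) = 1 / (44 * X.Γ.C) + 1 / (44 * X.Γ.C) := by
          have := X.Γ.C_pos
          field_simp; norm_num
        linarith [X.c1, X.c2]
      have c1 := (X.Γ.ctl (a.mono hτ) (lo := X.x) (hi := h • X.x) (p := h • X.x) (p' := X.x)
        (t1 := X.x) (t2 := h • X.x) ⟨hx.le, le_rfl, le_rfl, hx.le, le_rfl, hx.le, le_rfl,
          Or.inr le_rfl, Or.inl le_rfl⟩ (by simpa only [hzz, th_sh] using l2)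
          (by simpa only [hzz, th_sh] using l3)).2
      have c2 := ctlD ((a.mono hτ).mul_right h) h1 h2 l2 l3
      simp only [b] at c1 c2
      have d1 := mul_le_mul_of_nonneg_right c1 (show 0 ≤ D h X.x / (h • X.x - X.x) ^ 2 from
        div_nonneg (D_pos _ _).le (sq_nonneg _))
      rw [mul_assoc, ← B_form hx, ← B_form hx] at d1
      refine ⟨d1, by linarith [c2.1], ?_⟩
      obtain ⟨s, hs, e'⟩ := a τ (by omega)
      have : σ ≤ X.dd z2 (γ (τ + 1) * h) := by linarith [c2.2, pb (γ (τ + 1)), pb g]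
      rw [e', mul_assoc] at this ⊢
      exact (ih' τ le_rfl).2.2.step hs this
  have f1 := lt n (main n le_rfl n le_rfl)
  obtain ⟨m, hm⟩ := Tr.smul c
  have f2 := (hm (γ n) (h • X.x)).1
  have f3 := (hm (γ n) X.x).1
  rw [mul_inv_cancel_left] at f2 f3
  rw [th_sh] at f1
  linarith

theorem sep0 {y ρ y' ρ' : ℝ} {g g' : G} (H : X.Nice y ρ g) (H' : X.Nice y' ρ' g')
    (hlt : g • X.x < g' • X.x) (h1 : 100 * (g' • X.x - g • X.x) ≤ X.th y g)
    (h2 : 100 * (g' • X.x - g • X.x) ≤ X.th y' g') : False := by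
  obtain ⟨h, rfl⟩ : ∃ h, g' = g * h := ⟨g⁻¹ * g', by simp⟩
  have hx : X.x < h • X.x := by rwa [mul_smul, act_lt] at hlt
  have hz := sh_lt hx
  rw [mul_smul, ← th_sh] at h1 h2
  have pb := dd_pos hz (g * h)
  have pT := th_pos hz (g * h)
  have k : 100 * X.dd y' (g * h) ≤ X.dd (h⁻¹ • X.x) (g * h) := by
    refine le_of_mul_le_mul_right ?_ pT
    rw [dd_mul hz, ← dd_mul H'.1]
    nlinarith [dd_pos H'.1 (g * h)]
  rcases le_total (D g X.x) (X.th (h⁻¹ • X.x) (g * h)) with c | c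
  · obtain ⟨σ, a, b⟩ := H'.2.2.2 _ hz k
    exact PL hx H.1 H.2.1 H.2.2.1 b a h1 c
  · have pB := mul_pos (div_pos (D_pos g X.x) pT) pb
    obtain ⟨z2, a, b⟩ := marker (X := X) (g * h) (add_pos pb pB)
    obtain ⟨σ, d, e⟩ := H'.2.2.2 _ a (by linarith)
    exact PL' hx (le_of_dd hz (g := g * h) (by linarith) a) a (by linarith) e d c

theorem sep {y ρ y' ρ' : ℝ} {g g' : G} (H : X.Nice y ρ g) (H' : X.Nice y' ρ' g')
    (hne : g⁻¹ * g' ∉ Tr G) (m : ℤ) :
    min (X.th y g) (X.th y' g') ≤ 100 * |g • X.x - g' • X.x - m| := by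
  have tm : X.t m ∈ Tr G := ⟨m, X.t_smul m⟩
  have H2 := H'.tr tm
  have e : (g' * X.t m) • X.x = g' • X.x + m := by rw [mul_smul, X.t_smul, act_int]
  have e2 := th_tr (X := X) y' g' tm
  by_contra c
  push Not at c
  have c1 := c.trans_le (min_le_left _ _)
  have c2 := c.trans_le (min_le_right _ _)
  rcases lt_trichotomy (g • X.x) (g' • X.x + m) with k | k | k
  · rw [abs_of_neg (by linarith)] at c1 c2
    exact sep0 H H2 (by rwa [e]) (by rw [e]; linarith) (by rw [e, e2]; linarith)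
  · refine hne (X.free _ (-m) ?_)
    rw [mul_smul, inv_smul_eq_iff, act_int, k]; push_cast; ring
  · rw [abs_of_pos (by linarith)] at c1 c2
    exact sep0 H2 H (by rwa [e]) (by rw [e, e2]; linarith) (by rw [e]; linarith)

end Ctx

end

section

open Set Filter Topology

variable {G : Type} [Group G] [MulAction G ℝ] [SmoothAct G]

theorem Nl_one (x : ℝ) : Nl (1 : G) x = 0 := by
  have := Nl_mul (1 : G) 1 x
  rw [mul_one, one_smul, D_one] at this
  linarith

namespace Ctx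

/-- The invariants of a level along the path `γ 0, ..., γ n`. -/
def St (X : Ctx G) (γ : ℕ → G) (n : ℕ) (y a ρ : ℝ) : Prop :=
  y < X.x ∧ (∀ i ≤ n, a ≤ X.dd y (γ i)) ∧ (∃ i ≤ n, X.dd y (γ i) = a) ∧ a / 200 ≤ ρ ∧
    ρ ≤ a / 150 ∧ X.Tame y ρ (γ 0) ∧ 3 + 11 / 10 * a ≤ X.dd y (γ n) ∧
    ∀ g, X.Cl y ρ (γ 0) g → ∀ z, y ≤ z → z < X.x →
      ∃ σ ≤ 1 / 5 * (X.dd z g - X.dd y g) + 9 / 100 * a, X.Tame z σ g

variable {X : Ctx G}

theorem St.pos {γ : ℕ → G} {n : ℕ} {y a ρ : ℝ} (h : X.St γ n y a ρ) : 0 < a := by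
  obtain ⟨hy, -, ⟨i, -, e⟩, -⟩ := h
  rw [← e]; exact dd_pos hy _

theorem St.cl {γ : ℕ → G} {n : ℕ} (hγ : Pa X.Γ.S γ n) {y a ρ : ℝ} (h : X.St γ n y a ρ) :
    ∀ i ≤ n, X.Cl y ρ (γ 0) (γ i) :=
  path_cl hγ fun i hi => by linarith [h.2.1 i hi, h.2.2.2.2.1, h.pos]

theorem St.nice {γ : ℕ → G} {n : ℕ} (hγ : Pa X.Γ.S γ n) {y a ρ : ℝ} (h : X.St γ n y a ρ) {g : G}
    (hg : X.Cl y ρ (γ 0) g) : X.Nice y ρ g := by
  have a0 := h.pos
  have c := h.cl hγ n le_rfl
  obtain ⟨hy, -, -, h4, -, h6, h7, h8⟩ := h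
  refine ⟨hy, h6.of_cl hg, ⟨_, hg.symm.trans c, by linarith⟩, fun z hz k => ?_⟩
  have p := dd_pos hy g
  obtain ⟨σ, b1, b2⟩ := h8 g hg z (le_of_dd hy (g := g) (by linarith) hz) hz
  exact ⟨σ, by linarith [hg.le, dd_pos hz g], b2⟩

theorem exists_min (f : ℕ → ℝ) (n : ℕ) : ∃ i ≤ n, ∀ j ≤ n, f i ≤ f j := by
  obtain ⟨i, hi, h⟩ := Finset.exists_min_image (Finset.range (n + 1)) f ⟨0, by simp⟩
  exact ⟨i, by simp at hi; omega, fun j hj => h j (by simp; omega)⟩

theorem St.step {γ : ℕ → G} {n : ℕ} (hγ : Pa X.Γ.S γ n) {y a ρ : ℝ} (h : X.St γ n y a ρ)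
    (hs : ∀ g, X.Cl y ρ (γ 0) g → X.th y g ≤ X.θ / 4) :
    ∃ y' a' ρ', X.St γ n y' a' ρ' ∧ a' ≤ 99 / 100 * a := by
  have a0 := h.pos
  have hcl := h.cl hγ
  have hn := fun g => h.nice hγ (g := g)
  obtain ⟨hy, h2, ⟨i0, hi0, h3⟩, h4, h5, h6, h7, h8⟩ := h
  obtain ⟨y', hy', e1⟩ := marker (X := X) (γ i0) (show 0 < 99 / 100 * a by linarith)
  have yy : y' ≤ y := le_of_dd hy' (g := γ i0) (by linarith) hy
  let Gd : G → Prop := fun g => X.Cl y ρ (γ 0) g ∧ X.th y' g ≤ 4 * X.th y g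
  have sm : ∀ (m : ℕ) (β : ℕ → G), (∀ i < m, Gd (β i)) → Inj β m →
      ∑ i ∈ Finset.range m, X.th y' (β i) ^ (1 + X.Γ.α) ≤ X.η0 := by
    intro m β b1 b2
    refine X.c4 m (fun i => β i • X.x) _ (fun i hi => ⟨th_pos hy' _, ?_⟩) fun i hi j hj hij k => ?_
    · linarith [(b1 i hi).2, hs _ (b1 i hi).1]
    · have := sep (hn _ (b1 i hi).1) (hn _ (b1 j hj).1) (fun c => hij (b2 i hi j hj c)) k
      have c : min (X.th y' (β i)) (X.th y' (β j)) ≤ 4 * min (X.th y (β i)) (X.th y (β j)) := by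
        rw [mul_min_of_nonneg _ _ (by norm_num)]
        exact min_le_min (b1 i hi).2 (b1 j hj).2
      linarith
  have rat : ∀ g, a / 200 ≤ X.dd y' g → X.dd y g - X.dd y' g ≤ 11 / 1000 * a →
      X.th y' g ≤ 4 * X.th y g := fun g b1 b2 => by
    refine le_of_mul_le_mul_left ?_ (dd_pos hy' g)
    rw [dd_mul hy', ← dd_mul hy]
    nlinarith [th_pos hy g]
  have c2 : ∀ g, X.Cl y' (a / 200) (γ i0) g → Gd g := by
    intro g hg
    obtain ⟨β, m, b1, b2, b3, b4, b5⟩ := hg.path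
    have c1 : ∀ τ ≤ m, ∀ i ≤ τ, Gd (β i) := by
      intro τ
      induction τ with
      | zero =>
        intro _ i hi
        obtain rfl : i = 0 := by omega
        rw [b2]
        exact ⟨hcl i0 hi0, rat _ (by linarith) (by linarith)⟩
      | succ τ ih =>
        intro hτ i hi
        have ih' := ih (by omega)
        rcases hi.lt_or_eq with hi | rfl
        · exact ih' i (by omega)
        have d := ctlD (b1.mono hτ) yy hy (fun k hk => by
            linarith [(ih' k (by omega)).2, hs _ (ih' k (by omega)).1, θ_le (X := X)])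
          ((sm _ β (fun i hi => ih' i (by omega)) (b5.mono (by omega))).trans
            (by linarith [η0_le (X := X), X.η0_pos]))
        rw [b2] at d
        have d2 := (b4 _ hτ).le
        refine ⟨?_, rat _ d2 (by linarith [d.1])⟩
        obtain ⟨s, hs', e⟩ := b1 τ (by omega)
        have d3 : ρ ≤ X.dd y (β (τ + 1)) := by linarith [d.2]
        rw [e] at d3 ⊢
        exact (ih' τ le_rfl).1.step hs' d3
    obtain ⟨d1, d2⟩ := c1 m le_rfl m le_rfl
    have d3 := d1.tr b3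
    rw [← th_tr y _ b3, ← th_tr y' _ b3] at d2
    rw [mul_inv_cancel_left] at d2 d3
    exact ⟨d3, d2⟩
  have c3 : X.Tame y' (a / 200) (γ i0) :=
    ⟨fun g hg => by linarith [(c2 g hg).2, hs _ (c2 g hg).1],
      fun m β b1 b2 => sm m β (fun i hi => c2 _ (b1 i hi)) b2⟩
  have c4 : ∀ g, X.Cl y' (a / 200) (γ i0) g → ∀ s ∈ X.Γ.S,
      X.dd y (s * g) - X.dd y' (s * g) ≤ 11 / 1000 * a ∧
        a / 110 ≤ X.dd y (s * g) - X.dd y' (s * g) := fun g hg s hs => by
    have := c3.step hg hs yy hy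
    constructor <;> linarith [this.1, this.2]
  have c5 : ∀ g, X.Cl y' (a / 200) (γ i0) g → X.dd y g - X.dd y' g ≤ 11 / 1000 * a ∧
      a / 110 ≤ X.dd y g - X.dd y' g := fun g hg => by simpa using c4 g hg 1 X.Γ.one_mem
  have c6 : ∀ g, X.Cl y a (γ i0) g → X.Cl y' (a / 200) (γ i0) g := by
    intro g hg
    induction hg with
    | base _ => exact .base (by linarith)
    | step _ hs h' ih => exact ih.step hs (by linarith [(c4 _ ih _ hs).1])
    | tr _ hu ih => exact ih.tr hu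
  have c7 : ∀ i ≤ n, X.Cl y' (a / 200) (γ i0) (γ i) := fun i hi =>
    c6 _ ((path_cl hγ h2 i0 hi0).symm.trans (path_cl hγ h2 i hi))
  obtain ⟨i1, hi1, hm⟩ := exists_min (fun i => X.dd y' (γ i)) n
  have u1 : X.dd y' (γ i1) ≤ 99 / 100 * a := e1 ▸ hm i0 hi0
  have u2 : 989 / 1000 * a ≤ X.dd y' (γ i1) := by linarith [(c5 _ (c7 i1 hi1)).1, h2 i1 hi1]
  refine ⟨y', _, a / 200, ⟨hy', hm, ⟨i1, hi1, rfl⟩, by linarith, by linarith,
    c3.of_cl (c7 0 (by omega)), by linarith [(c5 _ (c7 n le_rfl)).1], fun g hg z k1 k2 => ?_⟩, u1⟩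
  have hg' := (c7 0 (by omega)).trans hg
  obtain ⟨v1, v2⟩ := c5 g hg'
  rcases le_total y z with k | k
  · obtain ⟨σ, b1, b2⟩ := h8 g (c2 g hg').1 z k k2
    exact ⟨σ, by linarith, b2⟩
  · have := dd_mono k hy g
    have := dd_mono k1 k2 g
    exact ⟨_, by linarith, (c3.of_cl hg').nested hg.le k1 k2 le_rfl⟩

theorem St.select {γ : ℕ → G} {n : ℕ} (hγ : Pa X.Γ.S γ n) {y a ρ : ℝ} (h : X.St γ n y a ρ) :
    ∃ y' a' ρ' g, a' ≤ a ∧ X.St γ n y' a' ρ' ∧ X.Cl y' ρ' (γ 0) g ∧ X.θ / 4 < X.th y' g := by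
  by_contra c
  push Not at c
  have a0 := h.pos
  have it : ∀ j : ℕ, ∃ y' a' ρ', X.St γ n y' a' ρ' ∧ a' ≤ (99 / 100) ^ j * a := by
    intro j
    induction j with
    | zero => exact ⟨y, a, ρ, h, by simp⟩
    | succ j ih =>
      obtain ⟨y', a', ρ', b1, b2⟩ := ih
      have : (99 / 100 : ℝ) ^ j ≤ 1 := pow_le_one₀ (by norm_num) (by norm_num)
      obtain ⟨y2, a2, ρ2, b3, b4⟩ := b1.step hγ fun g hg => c y' a' ρ' g (by nlinarith) b1 hg
      exact ⟨y2, a2, ρ2, b3, by rw [pow_succ]; linarith⟩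
  obtain ⟨i1, hi1, hm⟩ := exists_min (fun i => D (γ i) X.x) n
  obtain ⟨j, hj⟩ := exists_pow_lt_of_lt_one (x := D (γ i1) X.x / a) (y := (99 / 100 : ℝ))
    (div_pos (D_pos _ _) a0) (by norm_num)
  obtain ⟨y', a', ρ', b1, b2⟩ := it j
  rw [lt_div_iff₀ a0] at hj
  have b3 := b1.cl hγ
  have b0 := b1.pos
  obtain ⟨hy, -, ⟨i, hi, e⟩, -, -, b4, -⟩ := b1
  have b5 := dd_mul hy (γ i)
  have b6 := b4.1 _ (b3 i hi)
  have b7 := hm i hi
  rw [e] at b5
  nlinarith [θ_le (X := X)]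

theorem Tame.Q {y ρ : ℝ} {g0 g : G} (hy : y < X.x) (h : X.Tame y ρ g0) (hg : X.Cl y ρ g0 g) :
    X.dd y g - Nl g X.x ≤ X.dd y g0 - Nl g0 X.x + X.Γ.C * (X.Sb + X.η0) := by
  obtain ⟨γ, n, a, b, c, d, e⟩ := hg.path
  have ab : ∀ w : G, |w • X.x - w • y| = X.th y w := fun w => abs_of_pos (th_pos hy w)
  have q := X.Γ.path_Q a (x := X.x) hy.ne fun k hk => by
    rw [ab]; linarith [h.1 _ (d k hk.le), θ_le (X := X)]
  simp only [ab, b] at q
  have s1 := X.Sb_le n γ (e.mono (by omega))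
  have s2 := h.2 n γ (fun i hi => d i hi.le) (e.mono (by omega))
  have s3 : ∑ k ∈ Finset.range n, D (γ k) X.x * X.th y (γ k) ^ X.Γ.α ≤ X.Sb + X.η0 := by
    refine le_trans (Finset.sum_le_sum fun k _ => ?_) (le_trans
      (Finset.sum_add_distrib (f := fun k => D (γ k) X.x ^ (1 + X.Γ.α))
        (g := fun k => X.th y (γ k) ^ (1 + X.Γ.α))).le (by linarith))
    have p1 := D_pos (γ k) X.x
    have p2 := th_pos hy (γ k)
    simp only [Real.rpow_add p1, Real.rpow_add p2, Real.rpow_one]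
    have p3 := Real.rpow_nonneg p1.le X.Γ.α
    have p4 := Real.rpow_nonneg p2.le X.Γ.α
    rcases le_total (D (γ k) X.x) (X.th y (γ k)) with j | j
    · nlinarith
    · nlinarith [Real.rpow_le_rpow p2.le j X.Γ.α_pos.le]
  have f2 := dd_tr (X := X) y (γ n) c
  obtain ⟨m, hm⟩ := Tr.smul c
  have f3 := (hm (γ n) X.x).2.2
  rw [mul_inv_cancel_left] at f2 f3
  have := (abs_le.1 (q.trans (mul_le_mul_of_nonneg_left s3 (by linarith [X.Γ.C_pos])))).2
  rw [f2, f3]
  unfold dd th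
  linarith

theorem top_Q {γ : ℕ → G} {n : ℕ} (hγ : Pa X.Γ.S γ n) (hi : Inj γ n) {v : ℝ} (hv : v ≠ X.x)
    (h : ∀ k < n, |γ k • X.x - γ k • v| ≤ D (γ k) X.x) :
    |(D (γ n) X.x / (γ n • X.x - γ n • v) - Nl (γ n) X.x) -
      (D (γ 0) X.x / (γ 0 • X.x - γ 0 • v) - Nl (γ 0) X.x)| ≤ X.Γ.C * X.Sb := by
  refine (X.Γ.path_Q hγ hv fun k hk => (h k hk).trans (X.ne _)).trans
    (mul_le_mul_of_nonneg_left (le_trans (Finset.sum_le_sum fun k hk => ?_) (X.Sb_le n γ hi))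
      (by linarith [X.Γ.C_pos]))
  have p1 := D_pos (γ k) X.x
  rw [Real.rpow_add p1, Real.rpow_one]
  exact mul_le_mul_of_nonneg_left (Real.rpow_le_rpow (abs_nonneg _) (h k (Finset.mem_range.1 hk))
    X.Γ.α_pos.le) p1.le

theorem p_unbdd (q : ℝ) : ∃ g : G, q ≤ Nl g X.x := by
  classical
  have δ0 : 0 < X.δ := X.ω_pos.trans X.ω_lt
  have δ1 : 1 ≤ 1 / X.δ := by rw [le_div_iff₀ δ0]; linarith [X.δ_le]
  have C0 : 0 ≤ X.Γ.C * X.Sb := mul_nonneg (by linarith [X.Γ.C_pos]) (by linarith [X.Sb_pos])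
  set M := |q| + X.Γ.C * X.Sb + 1 / X.δ with hM
  have M0 : 0 < M := by linarith [abs_nonneg q]
  have hv : X.x < X.x + 1 / M := by linarith [one_div_pos.2 M0]
  obtain ⟨w, hw⟩ := X.big _ hv
  obtain ⟨γ, n, a, b, c, e⟩ := free_path X.Γ 1 w
  have pos : ∀ g : G, 0 < g • (X.x + 1 / M) - g • X.x := fun g => sub_pos.2 ((act_lt g).2 hv)
  have ex : ∃ k, k ≤ n ∧ D (γ k) X.x / (γ k • (X.x + 1 / M) - γ k • X.x) ≤ 1 / X.δ := by
    refine ⟨n, le_rfl, ?_⟩
    obtain ⟨m, hm⟩ := Tr.smul c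
    have f2 := (hm (γ n) (X.x + 1 / M)).1
    have f3 := (hm (γ n) X.x).1
    rw [mul_inv_cancel_left] at f2 f3
    exact div_le_div₀ zero_le_one (X.ne _) δ0 (by linarith)
  obtain ⟨k1, k2⟩ := Nat.find_spec ex
  have := top_Q (a.mono k1) (e.mono (by omega)) hv.ne' fun k hk => by
    have := Nat.find_min ex hk
    push Not at this
    have := (δ1.trans (this (by omega)).le)
    rw [one_le_div (pos _)] at this
    rwa [abs_sub_comm, abs_of_pos (pos _)]
  rw [b, D_one, Nl_one, one_smul, one_smul, ← neg_sub (γ _ • (X.x + 1 / M)), div_neg,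
    show X.x - (X.x + 1 / M) = -(1 / M) by ring, div_neg, one_div_one_div] at this
  exact ⟨γ (Nat.find ex), by linarith [(abs_le.1 this).2, le_abs_self q]⟩

theorem start (q : ℝ) : ∃ (γ : ℕ → G) (n : ℕ) (y a ρ : ℝ), Pa X.Γ.S γ n ∧ X.St γ n y a ρ ∧
    a ≤ 200 * X.ρt + X.Γ.C + X.Γ.C * X.Sb ∧ ∀ i ≤ n, q ≤ Nl (γ i) X.x := by
  classical
  have C1 := X.Γ.C_pos
  have C0 : 0 ≤ X.Γ.C * X.Sb := mul_nonneg (by linarith) (by linarith [X.Sb_pos])
  have r1 := X.c5
  set a1 := 200 * X.ρt + X.Γ.C + X.Γ.C * X.Sb with ha1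
  obtain ⟨w, hw⟩ := p_unbdd (X := X) (|q| + X.Γ.C + X.Γ.C * X.Sb + 3 + 11 / 10 * a1)
  obtain ⟨β, N, a, b, c, e⟩ := free_path X.Γ 1 w
  have f3 : Nl (β N) X.x = Nl w X.x := by
    obtain ⟨m, hm⟩ := Tr.smul c
    have f3 := (hm (β N) X.x).2.2
    rw [mul_inv_cancel_left] at f3
    exact f3.symm
  set t0 := Nat.findGreatest (fun k => Nl (β k) X.x ≤ |q|) N with ht0
  have g1 : Nl (β t0) X.x ≤ |q| := Nat.findGreatest_spec (P := fun k => Nl (β k) X.x ≤ |q|)
    (Nat.zero_le N) (by simp only [b, Nl_one]; exact abs_nonneg q)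
  have g2 : ∀ k, t0 < k → k ≤ N → |q| < Nl (β k) X.x := fun k h1 h2 =>
    lt_of_not_ge (Nat.findGreatest_is_greatest (P := fun k => Nl (β k) X.x ≤ |q|) h1 h2)
  have g3 : t0 < N := by
    refine lt_of_le_of_ne (Nat.findGreatest_le N) fun h => ?_
    rw [h] at g1
    linarith
  have g4 : Nl (β (t0 + 1)) X.x ≤ |q| + X.Γ.C := by
    obtain ⟨s, hs, e'⟩ := a t0 g3
    rw [e', Nl_mul]
    have h1 := (abs_le.1 (X.Γ.Nb s hs (β t0 • X.x))).2
    nlinarith [X.ne (β t0), D_pos (β t0) X.x]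
  have pa := a.shift (t0 + 1)
  have pi := e.shift (t0 + 1)
  set γ : ℕ → G := fun k => β (t0 + 1 + k) with hγ
  set n := N - (t0 + 1) with hn
  have g5 : ∀ i ≤ n, |q| < Nl (γ i) X.x := fun i hi => g2 _ (by omega) (by omega)
  obtain ⟨y, hy, e1⟩ := marker (X := X) (γ 0) (show 0 < a1 by linarith)
  have ctl : ∀ τ ≤ n, (∀ k < τ, 200 * X.ρt ≤ X.dd y (γ k)) →
      200 * X.ρt - |q| + Nl (γ τ) X.x ≤ X.dd y (γ τ) := by
    intro τ hτ H
    have := top_Q (pa.mono hτ) (pi.mono (by omega)) hy.ne fun k hk => by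
      have p := th_pos hy (γ k)
      rw [← dd_mul hy]
      change |X.th y (γ k)| ≤ _
      rw [abs_of_pos p]
      nlinarith [H k hk]
    change |(X.dd y (γ τ) - _) - (X.dd y (γ 0) - Nl (β (t0 + 1)) X.x)| ≤ _ at this
    linarith [(abs_le.1 this).1]
  have low : ∀ τ ≤ n, 200 * X.ρt ≤ X.dd y (γ τ) := by
    intro τ
    induction τ using Nat.strong_induction_on with
    | _ τ ih => exact fun hτ => by linarith [ctl τ hτ fun k hk => ih k hk (by omega), g5 τ hτ]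
  obtain ⟨i1, hi1, hm⟩ := exists_min (fun i => X.dd y (γ i)) n
  have u1 : X.dd y (γ i1) ≤ a1 := e1 ▸ hm 0 (by omega)
  have u2 := low i1 hi1
  have u3 := ctl n le_rfl fun k hk => low k hk.le
  have u4 : γ n = β N := by simp only [hγ]; congr 1; omega
  refine ⟨γ, n, y, _, X.dd y (γ i1) / 200, pa, ⟨hy, hm, ⟨i1, hi1, rfl⟩, le_rfl, by linarith,
    tame_top hy (by linarith) _, ?_, fun g _ z k1 k2 => ⟨X.ρt, ?_, tame_top k2 le_rfl _⟩⟩, u1,
    fun i hi => (le_abs_self q).trans (g5 i hi).le⟩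
  · rw [u4] at u3 ⊢
    linarith
  · linarith [dd_mono k1 k2 g]

theorem sel (q : ℝ) : ∃ (g : G) (y ρ : ℝ), X.Nice y ρ g ∧ X.θ / 4 < X.th y g ∧ q ≤ Nl g X.x := by
  obtain ⟨γ, n, y, a, ρ, h1, h2, h3, h4⟩ := start (X := X)
    (q + (200 * X.ρt + X.Γ.C + X.Γ.C * X.Sb) + X.Γ.C * (X.Sb + X.η0))
  obtain ⟨y', a', ρ', g, b1, b2, b3, b4⟩ := h2.select h1
  refine ⟨g, y', ρ', b2.nice h1 b3, b4, ?_⟩
  have b5 := b2.cl h1
  obtain ⟨hy, -, ⟨i, hi, e⟩, -, -, b6, -⟩ := b2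
  have := (b6.of_cl (b5 i hi)).Q hy ((b5 i hi).symm.trans b3)
  linarith [dd_pos hy g, h4 i hi]

theorem false (X : Ctx G) : False := by
  choose g y ρ h1 h2 h3 using sel (X := X)
  let q : ℕ → ℝ := fun n => Nat.rec 0 (fun _ r => Nl (g r) X.x + 1) n
  have q1 : ∀ n, q (n + 1) = Nl (g (q n)) X.x + 1 := fun _ => rfl
  have q2 : StrictMono fun n => Nl (g (q n)) X.x := strictMono_nat_of_lt_succ fun n => by
    linarith [h3 (q (n + 1)), q1 n]
  have θ0 := X.θ_pos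
  obtain ⟨N, hN⟩ := exists_nat_gt (1 / (X.θ / 400) + 1)
  have := count_mod (Finset.range N) (fun n => g (q n) • X.x) (δ := X.θ / 400) (by positivity)
    fun i _ j _ hij m => by
      have := sep (h1 (q i)) (h1 (q j)) (fun c => hij (q2.injective (by
        obtain ⟨m, hm⟩ := Tr.smul c
        have f3 := (hm (g (q i)) X.x).2.2
        rw [mul_inv_cancel_left] at f3
        exact f3.symm))) m
      linarith [lt_min (h2 (q i)) (h2 (q j))]
  rw [Finset.card_range] at this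
  linarith

end Ctx

end

end Pool.Agent.Lib.MP_173a7e_an
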