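import Pool.Agent.Lib.MP_173a7e_an.FreeC

/-! Slow elements and isolated fixed points for topologically free actions. -/

set_option autoImplicit false
set_option linter.unusedSectionVars false
set_option linter.unusedVariables false

namespace Pool.Agent.Lib.MP_173a7e_an

section

open Set Filter Topology

variable {G : Type} [Group G] [MulAction G ℝ] [SmoothAct G]

theorem Xr_tr (g : G) {u : G} (hu : u ∈ Tr G) (p p' t1 t2 : ℝ) :
    Xr (g * u) p p' t1 t2 = Xr g p p' t1 t2 := by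
  obtain ⟨m, hm⟩ := Tr.smul hu
  have e : ∀ p t, sl (g * u) p t = sl g p t := fun p t => by
    by_cases h : t = p
    · rw [h, sl_same, sl_same, (hm g p).2.1]
    · rw [sl_ne _ h, sl_ne _ h, (hm g p).1, (hm g t).1]; ring_nf
  unfold Xr Fl; simp only [e]

/-- A slowly moving element on an interval between two fixed points. -/
structure Slow (A : Cantor G) (σ : ℝ) where
  f : G
  e : ℝ
  e' : ℝ
  fe : f • e = e
  fe' : f • e' = e'
  pos : ∀ u, e < u → u < e' → u < f • u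
  mem : ∃ w ∈ A.Λ, e < w ∧ w < e'
  D1 : ∀ u, e ≤ u → u ≤ e' → D f u ≤ 1 + σ
  D2 : ∀ u, e ≤ u → u ≤ e' → D f⁻¹ u ≤ 1 + σ
  L : ℝ
  L0 : 0 ≤ L
  lip : GLip L f
  small : L * (e' - e) ≤ 1 / 2

namespace Slow

variable {A : Cantor G} {σ : ℝ} (J : Slow A σ)

/-- Controlled views. -/
def Ct (h : G) : Prop := ∀ p p' t1 t2, Ord4 J.e J.e' p p' t1 t2 → |Xr h p p' t1 t2| ≤ 1 / 11

theorem lt : J.e < J.e' := by obtain ⟨w, -, a, b⟩ := J.mem; linarith

theorem f_lt {u : ℝ} (h : u < J.e') : J.f • u < J.e' := by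
  rw [← J.fe', act_lt]; exact h

theorem lt_f {u : ℝ} (h : J.e < u) : J.e < J.f • u := by
  rw [← J.fe, act_lt]; exact h

theorem pow_mem (n : ℕ) {u : ℝ} (h : J.e < u) (h' : u < J.e') :
    J.e < J.f ^ n • u ∧ J.f ^ n • u < J.e' := by
  induction n with
  | zero => simpa using ⟨h, h'⟩
  | succ n ih => rw [pow_succ', mul_smul]; exact ⟨J.lt_f ih.1, J.f_lt ih.2⟩

theorem inv_mem {u : ℝ} (h : J.e < u) (h' : u < J.e') : J.e < J.f⁻¹ • u ∧ J.f⁻¹ • u < J.e' := by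
  constructor
  · rw [← act_lt J.f, smul_inv_smul, J.fe]; exact h
  · rw [← act_lt J.f, smul_inv_smul, J.fe']; exact h'

theorem up {a b : ℝ} (ha : J.e ≤ a) (hab : a ≤ b) (hb : b ≤ J.e') :
    J.f • b - J.f • a ≤ (1 + σ) * (b - a) ∧ b - a ≤ (1 + σ) * (J.f • b - J.f • a) := by
  constructor
  · obtain ⟨u, hu, e⟩ := mvt J.f a b
    rw [uIcc_of_le hab] at hu
    rw [e]
    exact mul_le_mul_of_nonneg_right (J.D1 u (ha.trans hu.1) (hu.2.trans hb)) (by linarith)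
  · obtain ⟨u, hu, e⟩ := mvt J.f⁻¹ (J.f • a) (J.f • b)
    have h1 := (act_le J.f).2 hab
    have h2 := (act_le J.f).2 ha
    have h3 := (act_le J.f).2 hb
    rw [J.fe] at h2
    rw [J.fe'] at h3
    rw [uIcc_of_le h1] at hu
    rw [inv_smul_smul, inv_smul_smul] at e
    rw [e]
    exact mul_le_mul_of_nonneg_right (J.D2 u (h2.trans hu.1) (hu.2.trans h3)) (by linarith)

theorem ct_one : J.Ct 1 := fun p p' t1 t2 _ => by rw [Xr_one]; norm_num

theorem Ct.slow {J : Slow A σ} {h : G} (H : J.Ct h) (s0 : 0 ≤ σ) (s1 : σ ≤ 1 / 1000) {u : ℝ}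
    (h1 : J.e < u) (h2 : u < J.e') : h • J.f • u - h • u ≤ 5 * σ * (h • u - h • J.e) ∧
      h • J.f • u - h • u ≤ 5 * σ * (h • J.e' - h • u) := by
  have a1 := J.pos u h1 h2
  have a2 := J.f_lt h2
  have b1 := (J.up le_rfl h1.le h2.le).1
  have b2 := (J.up h1.le h2.le le_rfl).2
  rw [J.fe] at b1
  rw [J.fe'] at b2
  have c := (abs_le.1 (H (J.f • u) J.e' J.e u ⟨by linarith, a2.le, by linarith, le_rfl, le_rfl,
    h1.le, h2.le, Or.inr a1.le, Or.inr h2.le⟩)).2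
  have e : Real.exp (1 / 11) ≤ 11 / 10 := by
    have := Real.exp_bound_div_one_sub_of_interval (x := 1 / 11) (by norm_num) (by norm_num)
    norm_num at this ⊢; exact this
  have d := (Real.exp_le_exp.2 c).trans e
  rw [exp_Xr, sl_symm h (J.f • u) u, sl_symm h J.e' J.e, sl_symm h (J.f • u), sl_symm h J.e',
    sl_ne h a1.ne', sl_ne h (h1.trans h2).ne', sl_ne h (h1.trans a1).ne', sl_ne h h2.ne'] at d
  have p1 := sub_pos.2 ((act_lt h).2 a1)
  have p2 := sub_pos.2 ((act_lt h).2 h1)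
  have p3 := sub_pos.2 ((act_lt h).2 a2)
  set P := h • J.f • u - h • u
  set U := h • u - h • J.e
  set V := h • J.e' - h • J.f • u
  have q1 := sub_pos.2 a1
  have q2 := sub_pos.2 h1
  have q3 := sub_pos.2 a2
  set p := J.f • u - u
  set a := u - J.e
  set b := J.e' - J.f • u
  rw [show h • J.e' - h • J.e = U + P + V by simp only [P, U, V]; ring,
    show h • J.f • u - h • J.e = U + P by simp only [P, U]; ring,
    show h • J.e' - h • u = P + V by simp only [P, V]; ring,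
    show J.e' - J.e = a + p + b by simp only [p, a, b]; ring,
    show J.f • u - J.e = a + p by simp only [p, a]; ring,
    show J.e' - u = p + b by simp only [p, b]; ring] at d
  have k1 : p ≤ σ * a := by simp only [p, a]; linarith
  have k2 : p ≤ σ * b := by simp only [p, b]; linarith
  have k3 : p * (a + p + b) ≤ 2 * σ * ((a + p) * (p + b)) := by
    have := mul_le_mul_of_nonneg_right k1 (show 0 ≤ p + b by linarith)
    have := mul_le_mul_of_nonneg_right k2 (show 0 ≤ a + p by linarith)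
    nlinarith [mul_nonneg s0 (mul_nonneg q1.le (show 0 ≤ p + b by linarith)),
      mul_nonneg s0 (mul_nonneg q1.le (show 0 ≤ a + p by linarith)), sq_nonneg p]
  have k4 : P * (U + P + V) / ((U + P) * (P + V)) ≤
      11 / 10 * (p * (a + p + b) / ((a + p) * (p + b))) := by
    rw [← div_le_iff₀ (by positivity)]
    refine le_trans (le_of_eq ?_) d
    field_simp
  have k5 : p * (a + p + b) / ((a + p) * (p + b)) ≤ 2 * σ := by
    rw [div_le_iff₀ (by positivity)]; exact k3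
  have k6 : P * (U + P + V) ≤ 11 / 5 * σ * ((U + P) * (P + V)) := by
    rw [← div_le_iff₀ (by positivity)]; linarith
  have k7 : P ≤ 11 / 5 * σ * (U + P) := by
    refine le_of_mul_le_mul_right ?_ (show 0 < U + P + V by linarith)
    have : 11 / 5 * σ * ((U + P) * (P + V)) ≤ 11 / 5 * σ * ((U + P) * (U + P + V)) :=
      mul_le_mul_of_nonneg_left (mul_le_mul_of_nonneg_left (by linarith) (by linarith))
        (by linarith)
    linarith
  have k8 : P ≤ 11 / 5 * σ * (P + V) := by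
    refine le_of_mul_le_mul_right ?_ (show 0 < U + P + V by linarith)
    have : 11 / 5 * σ * ((U + P) * (P + V)) ≤ 11 / 5 * σ * ((U + P + V) * (P + V)) :=
      mul_le_mul_of_nonneg_left (mul_le_mul_of_nonneg_right (by linarith) (by linarith))
        (by linarith)
    linarith
  rw [show h • J.e' - h • u = P + V by simp only [P, V]; ring]
  constructor <;> nlinarith [mul_nonneg s0 p1.le, mul_nonneg s0 p2.le, mul_nonneg s0 p3.le]

theorem Ct.two {J : Slow A σ} {h : G} (H : J.Ct h) (s0 : 0 ≤ σ) (s1 : σ ≤ 1 / 1000) {v : ℝ}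
    (h1 : J.e < v) (h2 : v < J.e') :
    h • J.f • J.f • v - h • v ≤ 15 * σ * (h • v - h • J.e) := by
  have a := (H.slow s0 s1 h1 h2).1
  have b := (H.slow s0 s1 (J.lt_f h1) (J.f_lt h2)).1
  have p2 := sub_pos.2 ((act_lt h).2 h1)
  nlinarith [mul_nonneg s0 p2.le]

theorem Ct.koebe {J : Slow A σ} {h : G} (H : J.Ct h) (s0 : 0 ≤ σ) (s1 : σ ≤ 1 / 1000) {v : ℝ}
    (h1 : J.e < v) (h2 : v < J.e') {a b c d : ℝ} (k1 : v ≤ a) (k2 : a ≤ b)
    (k3 : b ≤ J.f • J.f • v) (k4 : v ≤ c) (k5 : c ≤ d) (k6 : d ≤ J.f • J.f • v) :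
    sl h a b ≤ 2 * sl h c d := by
  have w1 := J.f_lt (J.f_lt h2)
  have t1 := H.two s0 s1 h1 h2
  have t2 := J.ct_one.two s0 s1 h1 h2
  simp only [one_smul] at t2
  set w := J.f • J.f • v
  have om : ∀ t t', v ≤ t → t ≤ w → v ≤ t' → t' ≤ w → Fl h J.e t - Fl h J.e t' ≤ 1 / 32 := by
    intro t t' a1 a2 a3 a4
    have n1 : J.e < t := by linarith
    have n2 : J.e < t' := by linarith
    have p2 := sub_pos.2 ((act_lt h).2 h1)
    have b : sl h J.e t ≤ (1 + 1 / 32) * sl h J.e t' := by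
      rw [sl_ne h n1.ne', sl_ne h n2.ne', mul_div_assoc', div_le_div_iff₀ (by linarith) (by linarith)]
      have c1 : h • t - h • J.e ≤ (1 + 15 / 1000) * (h • v - h • J.e) := by
        nlinarith [(act_le h).2 a2]
      have c2 : t' - J.e ≤ (1 + 15 / 1000) * (v - J.e) := by nlinarith
      have c3 := mul_le_mul c1 c2 (by linarith) (by positivity)
      have c4 := mul_le_mul (show h • v - h • J.e ≤ h • t' - h • J.e by linarith [(act_le h).2 a3])
        (show v - J.e ≤ t - J.e by linarith) (by linarith) (by linarith [(act_le h).2 n2.le])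
      nlinarith [mul_pos p2 (sub_pos.2 h1)]
    have c := Real.log_le_log (sl_pos _ _ _) b
    rw [Real.log_mul (by norm_num) (sl_pos _ _ _).ne'] at c
    have := Real.log_le_sub_one_of_pos (show (0 : ℝ) < 1 + 1 / 32 by norm_num)
    unfold Fl; linarith
  have key : ∀ a b, v ≤ a → a ≤ b → b ≤ w → |Fl h a b - Fl h v w| ≤ 1 / 4 := by
    intro a b k1 k2 k3
    have c1 := abs_le.1 (H J.e b v a ⟨le_rfl, by linarith, by linarith, by linarith, h1.le, k1,
      by linarith, Or.inl h1.le, Or.inr k2⟩)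
    have c2 := abs_le.1 (H J.e v b w ⟨le_rfl, by linarith, by linarith, by linarith, by linarith,
      k3, by linarith, Or.inl (by linarith), Or.inl (by linarith)⟩)
    unfold Xr at c1 c2
    rw [Fl_symm h b a, Fl_symm h b v] at c1
    have d1 := om a v k1 (by linarith) le_rfl (by linarith)
    have d2 := om v a le_rfl (by linarith) k1 (by linarith)
    have d3 := om w b (by linarith) le_rfl (by linarith) k3
    have d4 := om b w (by linarith) k3 (by linarith) le_rfl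
    rw [abs_le]; constructor <;> linarith [c1.1, c1.2, c2.1, c2.2]
  have c1 := abs_le.1 (key a b k1 k2 k3)
  have c2 := abs_le.1 (key c d k4 k5 k6)
  rw [← exp_Fl, ← exp_Fl]
  refine (Real.exp_le_exp.2 (show Fl h a b ≤ 1 / 2 + Fl h c d by linarith)).trans ?_
  rw [Real.exp_add]
  exact mul_le_mul_of_nonneg_right exp_half (Real.exp_pos _).le

theorem nxt_le_f {p : ℝ} (hp : p ∈ A.Λ) (h1 : J.e < p) (h2 : p < J.e') : nxt A.Λ p ≤ J.f • p :=
  A.nxt_le (A.inv _ _ hp) (J.pos p h1 h2)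

theorem denjoy {p : ℝ} (hp : p ∈ LE A.Λ) (h1 : J.e < p) (h2 : p < J.e') (n : ℕ) :
    A.len (J.f ^ n • p) * (J.f • p - p) ≤ 2 * (A.len p * (J.f • J.f ^ n • p - J.f ^ n • p)) ∧
    A.len p * (J.f • J.f ^ n • p - J.f ^ n • p) ≤ 2 * (A.len (J.f ^ n • p) * (J.f • p - p)) := by
  have cm : ∀ n : ℕ, J.f ^ n • J.f • p = J.f • J.f ^ n • p := fun n => by
    rw [← mul_smul, ← mul_smul, ← pow_succ, ← pow_succ']
  have key : ∀ u w, p ≤ u → u ≤ J.f • p → p ≤ w → w ≤ J.f • p → ∀ n : ℕ,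
      lg (J.f ^ n) u - lg (J.f ^ n) w ≤ J.L * (J.f ^ n • p - p) := by
    intro u w a1 a2 a3 a4 n
    induction n with
    | zero => simp [lg_one]
    | succ n ih =>
      have b := (abs_le.1 (J.lip (J.f ^ n • u) (J.f ^ n • w))).2
      have c : |J.f ^ n • u - J.f ^ n • w| ≤ J.f • J.f ^ n • p - J.f ^ n • p := by
        rw [← cm, abs_le]
        constructor <;> linarith [(act_le (J.f ^ n)).2 a1, (act_le (J.f ^ n)).2 a2,
          (act_le (J.f ^ n)).2 a3, (act_le (J.f ^ n)).2 a4]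
      have d := mul_le_mul_of_nonneg_left c J.L0
      rw [pow_succ', lg_mul, lg_mul, mul_smul]
      linarith
  have key2 : ∀ u w, p ≤ u → u ≤ J.f • p → p ≤ w → w ≤ J.f • p →
      D (J.f ^ n) u ≤ 2 * D (J.f ^ n) w := by
    intro u w a1 a2 a3 a4
    have b := key u w a1 a2 a3 a4 n
    have c := mul_le_mul_of_nonneg_left (show J.f ^ n • p - p ≤ J.e' - J.e by
      linarith [(J.pow_mem n h1 h2).2]) J.L0
    exact (D_le_of_lg (c := 1 / 2) (by linarith [J.small])).trans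
      (mul_le_mul_of_nonneg_right exp_half (D_pos _ _).le)
  have a1 := A.lt_nxt hp
  have a2 := J.nxt_le_f hp.1 h1 h2
  obtain ⟨u, hu, e1⟩ := mvt (J.f ^ n) p (nxt A.Λ p)
  obtain ⟨w, hw, e2⟩ := mvt (J.f ^ n) p (J.f • p)
  rw [uIcc_of_le a1.le] at hu
  rw [uIcc_of_le (by linarith)] at hw
  have b1 := key2 u w hu.1 (hu.2.trans a2) hw.1 hw.2
  have b2 := key2 w u hw.1 hw.2 hu.1 (hu.2.trans a2)
  unfold Cantor.len
  rw [A.nxt_act, ← cm, e1, e2]
  have c := mul_pos (sub_pos.2 a1) (show 0 < J.f • p - p by linarith)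
  constructor <;> nlinarith

theorem reach {u v : ℝ} (h1 : J.e < u) (h2 : v < J.e') : ∃ n : ℕ, v < J.f ^ n • u := by
  by_contra c
  push Not at c
  have uv : u ≤ v := by simpa using c 0
  obtain ⟨w, hw, hm⟩ := (isCompact_Icc (a := u) (b := v)).exists_isMinOn ⟨u, le_rfl, uv⟩
    (f := fun y => J.f • y - y) ((cont_smul J.f).sub continuous_id).continuousOn
  have m0 := sub_pos.2 (J.pos w (by linarith [hw.1]) (by linarith [hw.2]))
  have key : ∀ n : ℕ, u + n * (J.f • w - w) ≤ J.f ^ n • u := by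
    intro n
    induction n with
    | zero => simp
    | succ n ih =>
      have := hm (show J.f ^ n • u ∈ Icc u v from ⟨by nlinarith [Nat.cast_nonneg (α := ℝ) n], c n⟩)
      rw [pow_succ', mul_smul]
      push_cast
      have : J.f • w - w ≤ J.f • J.f ^ n • u - J.f ^ n • u := this
      linarith
  obtain ⟨n, hn⟩ := exists_nat_gt ((v - u) / (J.f • w - w))
  rw [div_lt_iff₀ m0] at hn
  linarith [key n, c n]

theorem ratio : ∃ c > 0, (∀ p ∈ LE A.Λ, J.e < p → p < J.e' → A.len p ≤ 2 * c * (J.f • p - p)) ∧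
    ∀ v, J.e < v → v < J.e' → ∃ q ∈ LE A.Λ, v < q ∧ q ≤ J.f • v ∧
      c * (J.f • q - q) ≤ 2 * A.len q := by
  classical
  let T : Set ℝ := {r | ∃ p ∈ LE A.Λ, J.e < p ∧ p < J.e' ∧ r = A.len p / (J.f • p - p)}
  have hb : BddAbove T := ⟨1, by
    rintro _ ⟨p, hp, a, b, rfl⟩
    rw [div_le_one (sub_pos.2 (J.pos p a b))]
    unfold Cantor.len; linarith [J.nxt_le_f hp.1 a b]⟩
  obtain ⟨w, hw, w1, w2⟩ := J.mem
  obtain ⟨u, u1, u2, hu⟩ := A.nd w J.e' w2
  obtain ⟨p1, hp1, b1, b2⟩ := A.exists_gap hu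
  have b3 := A.le_of_lt_nxt hw (u1.trans b2)
  have m1 : A.len p1 / (J.f • p1 - p1) ∈ T := ⟨p1, hp1, by linarith, by linarith, rfl⟩
  have m2 := div_pos (A.len_pos hp1) (sub_pos.2 (J.pos p1 (by linarith) (by linarith)))
  have m3 := le_csSup hb m1
  obtain ⟨_, ⟨p0, hp0, a, b, rfl⟩, m4⟩ := exists_lt_of_lt_csSup ⟨_, m1⟩
    (show sSup T / 2 < sSup T by linarith)
  have d0 := sub_pos.2 (J.pos p0 a b)
  refine ⟨A.len p0 / (J.f • p0 - p0), div_pos (A.len_pos hp0) d0, fun p hp a' b' => ?_,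
    fun v v1 v2 => ?_⟩
  · have := le_csSup hb ⟨p, hp, a', b', rfl⟩
    rw [← div_le_iff₀ (sub_pos.2 (J.pos p a' b'))]
    linarith
  · rw [show ∀ P : ℝ → Prop, (∃ q ∈ LE A.Λ, P q) = (∃ q, q ∈ LE A.Λ ∧ P q) from fun _ => rfl]
    rcases le_or_gt p0 v with k | k
    · have ex := J.reach a v2
      have k1 := Nat.find_spec ex
      obtain ⟨n, hn⟩ : ∃ n, Nat.find ex = n + 1 := Nat.exists_eq_succ_of_ne_zero fun h => by
        rw [h] at k1; simp at k1; linarith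
      have k2 := Nat.find_min ex (show n < Nat.find ex by omega)
      refine ⟨_, A.act_LE _ hp0, k1, ?_, ?_⟩
      · rw [hn, pow_succ', mul_smul, act_le]; exact le_of_not_gt k2
      · rw [div_mul_eq_mul_div, div_le_iff₀ d0]
        linarith [(J.denjoy hp0 a b (Nat.find ex)).2]
    · have ex : ∃ n : ℕ, p0 ≤ J.f ^ n • J.f • v := (J.reach (J.lt_f v1) b).imp fun _ h => h.le
      have k1 := Nat.find_spec ex
      set n := Nat.find ex with hn
      have k2 : J.f ^ n • v < p0 := by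
        rcases Nat.eq_zero_or_pos n with h | h
        · rw [h]; simpa using k
        · have := Nat.find_min ex (show n - 1 < Nat.find ex by omega)
          rw [← mul_smul, ← pow_succ, show n - 1 + 1 = n by omega] at this
          exact lt_of_not_ge this
      have k3 : v < (J.f ^ n)⁻¹ • p0 := by rwa [← act_lt (J.f ^ n), smul_inv_smul]
      have k4 : (J.f ^ n)⁻¹ • p0 ≤ J.f • v := by rwa [← act_le (J.f ^ n), smul_inv_smul]
      refine ⟨_, A.act_LE (J.f ^ n)⁻¹ hp0, k3, k4, ?_⟩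
      have := (J.denjoy (A.act_LE (J.f ^ n)⁻¹ hp0) (v1.trans k3) (k4.trans_lt (J.f_lt v2)) n).1
      rw [smul_inv_smul] at this
      rw [div_mul_eq_mul_div, div_le_iff₀ d0]
      linarith

theorem views (s0 : 0 ≤ σ) (s1 : σ ≤ 1 / 1000) : ∃ c > 0, ∀ h, J.Ct h →
    (∀ p ∈ LE A.Λ, J.e < p → p < J.e' → A.len (h • p) ≤ 4 * c * (h • J.f • p - h • p)) ∧
    ∀ v, J.e < v → v < J.e' → ∃ q ∈ LE A.Λ, v < q ∧ nxt A.Λ q ≤ J.f • J.f • v ∧
      c * (h • J.f • J.f • v - h • v) ≤ 10 * A.len (h • q) := by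
  obtain ⟨c, c0, H1, H2⟩ := J.ratio
  refine ⟨c, c0, fun h H => ⟨fun p hp a b => ?_, fun v v1 v2 => ?_⟩⟩
  · have a1 := A.lt_nxt hp
    have a2 := J.nxt_le_f hp.1 a b
    have a3 := J.pos _ (J.lt_f a) (J.f_lt b)
    have k := H.koebe s0 s1 a b le_rfl a1.le (by linarith) le_rfl (a1.le.trans a2) a3.le
    have a4 := H1 p hp a b
    rw [sl_ne h a1.ne', sl_ne h (by linarith : p < J.f • p).ne', mul_div_assoc',
      div_le_div_iff₀ (by linarith) (by linarith)] at k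
    unfold Cantor.len at *
    rw [A.nxt_act]
    have a5 := sub_pos.2 ((act_lt h).2 (by linarith : p < J.f • p))
    refine le_of_mul_le_mul_right ?_ (show 0 < J.f • p - p by linarith)
    nlinarith
  · obtain ⟨q, hq, q1, q2, q3⟩ := H2 v v1 v2
    have a0 := J.f_lt v2
    have a1 := A.lt_nxt hq
    have a2 := J.nxt_le_f hq.1 (by linarith) (by linarith)
    have a3 := (act_le J.f).2 q2
    have a4 := J.pos v v1 v2
    refine ⟨q, hq, q1, a2.trans a3, ?_⟩
    have k := H.koebe s0 s1 v1 v2 le_rfl (show v ≤ J.f • J.f • v by linarith) le_rfl q1.le a1.le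
      (a2.trans a3)
    rw [sl_ne h a1.ne', sl_ne h (by linarith : v < J.f • J.f • v).ne', mul_div_assoc',
      div_le_div_iff₀ (by linarith) (by linarith)] at k
    have b1 := (J.up v1.le a4.le a0.le).1
    have b2 := (J.up v1.le q1.le (by linarith)).2
    have b3 := (act_le J.f).2 q1.le
    have b4 : J.f • J.f • v - v ≤ 5 / 2 * (J.f • q - q) := by nlinarith
    have b5 : c * (J.f • J.f • v - v) ≤ 5 * A.len q := by nlinarith
    unfold Cantor.len at *
    rw [A.nxt_act]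
    have a5 := sub_pos.2 ((act_lt h).2 a1)
    refine le_of_mul_le_mul_right ?_ (sub_pos.2 a1)
    nlinarith [mul_le_mul_of_nonneg_left k c0.le, mul_le_mul_of_nonneg_left b5 a5.le]

theorem cross (s0 : 0 ≤ σ) (s1 : σ ≤ 1 / 1000) {h h' : G} (H : J.Ct h) (H' : J.Ct h') {v : ℝ}
    (v1 : J.e < v) (v2 : v < J.e') (k1 : h' • J.e ≤ h • v) (k2 : h • J.f • J.f • v ≤ h' • J.e')
    (k3 : h' • J.e = h • v ∨ h • J.f • J.f • v = h' • J.e') : False := by
  obtain ⟨c, c0, Hc⟩ := J.views s0 s1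
  obtain ⟨q, hq, q1, q2, q3⟩ := (Hc h H).2 v v1 v2
  have a1 := (act_lt h).2 q1
  have a2 := (act_lt h).2 ((A.lt_nxt hq).trans_le q2)
  have b1 : J.e < h'⁻¹ • h • q := by rw [← act_lt h', smul_inv_smul]; linarith
  have b2 : h'⁻¹ • h • q < J.e' := by rw [← act_lt h', smul_inv_smul]; linarith
  have b3 := (Hc h' H').1 _ (A.act_LE _ (A.act_LE h hq)) b1 b2
  have b4 := H'.slow s0 s1 b1 b2
  rw [smul_inv_smul] at b3 b4
  have b5 : h' • J.f • h'⁻¹ • h • q - h • q ≤ 1 / 200 * (h • J.f • J.f • v - h • v) := by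
    rcases k3 with k | k
    · nlinarith [b4.1]
    · nlinarith [b4.2]
  nlinarith [mul_le_mul_of_nonneg_left b5 c0.le,
    mul_pos c0 (show 0 < h • J.f • J.f • v - h • v by linarith)]

theorem sep (s0 : 0 ≤ σ) (s1 : σ ≤ 1 / 1000) {h h' : G} (H : J.Ct h) (H' : J.Ct h')
    (hne : ¬ (h • J.e = h' • J.e ∧ h • J.e' = h' • J.e')) :
    min (h • J.e' - h • J.e) (h' • J.e' - h' • J.e) ≤ |h • J.e - h' • J.e| := by
  have one : ∀ h h' : G, J.Ct h → J.Ct h' → h • J.e < h' • J.e → h' • J.e < h • J.e' →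
      h' • J.e - h • J.e < h' • J.e' - h' • J.e → False := by
    intro h h' H H' a b c
    have v1 : J.e < h⁻¹ • h' • J.e := by rwa [← act_lt h, smul_inv_smul]
    have v2 : h⁻¹ • h' • J.e < J.e' := by rwa [← act_lt h, smul_inv_smul]
    have d := H.two s0 s1 v1 v2
    refine J.cross s0 s1 H H' v1 v2 (by simp) ?_ (Or.inl (by simp))
    rw [smul_inv_smul] at d
    nlinarith
  have two : ∀ h h' : G, J.Ct h → J.Ct h' → h • J.e = h' • J.e → h' • J.e' < h • J.e' → False := by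
    intro h h' H H' a b
    have v1 : J.e < h⁻¹ • h' • J.e' := by rw [← act_lt h, smul_inv_smul, a, act_lt]; exact J.lt
    have v2 : h⁻¹ • h' • J.e' < J.e' := by rwa [← act_lt h, smul_inv_smul]
    have v3 := J.inv_mem v1 v2
    have v4 := J.inv_mem v3.1 v3.2
    exact J.cross s0 s1 H H' v4.1 v4.2 (by rw [← a, act_le]; exact v4.1.le) (by simp)
      (Or.inr (by simp))
  by_contra c
  push Not at c
  have c1 := c.trans_le (min_le_left _ _)
  have c2 := c.trans_le (min_le_right _ _)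
  rcases lt_trichotomy (h • J.e) (h' • J.e) with k | k | k
  · rw [abs_of_neg (by linarith)] at c1 c2
    exact one h h' H H' k (by linarith) (by linarith)
  · rcases lt_trichotomy (h • J.e') (h' • J.e') with j | j | j
    · exact two h' h H' H k.symm j
    · exact hne ⟨k, j⟩
    · exact two h h' H H' k j
  · rw [abs_of_pos (by linarith)] at c1 c2
    exact one h' h H' H k (by linarith) (by linarith)

/-- Elements moving both end points by the same integer. -/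
def Hs : Subgroup G where
  carrier := {u | ∃ m : ℤ, u • J.e = J.e + m ∧ u • J.e' = J.e' + m}
  mul_mem' := by
    rintro a b ⟨m, h1, h2⟩ ⟨n, h3, h4⟩
    exact ⟨m + n, by rw [mul_smul, h3, act_int, h1]; push_cast; ring,
      by rw [mul_smul, h4, act_int, h2]; push_cast; ring⟩
  one_mem' := ⟨0, by simp, by simp⟩
  inv_mem' := by
    rintro a ⟨m, h1, h2⟩
    exact ⟨-m, by rw [inv_smul_eq_iff, act_int, h1]; push_cast; ring,
      by rw [inv_smul_eq_iff, act_int, h2]; push_cast; ring⟩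

end Slow

theorem no_slow (A : Cantor G) (Γ : Gen G) {δ : ℝ} (hδ : 0 < δ) (hE : A.Exp δ) :
    ∃ σ > 0, IsEmpty (Slow A σ) := by
  classical
  have C1 := Γ.C_pos
  obtain ⟨θ0, θp, hθ⟩ := sum_sep Γ.α_pos (κ := 1) (ε := 1 / (22 * Γ.C)) one_pos (by positivity)
  set δ1 := min θ0 (min δ 1) with hδ1
  have d0 : 0 < δ1 := lt_min θp (lt_min hδ one_pos)
  have d1 : δ1 ≤ θ0 := min_le_left _ _
  have d2 : δ1 ≤ δ := (min_le_right _ _).trans (min_le_left _ _)
  have d3 : δ1 ≤ 1 := (min_le_right _ _).trans (min_le_right _ _)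
  obtain ⟨κ, κ0, hκ⟩ := A.piece (δ1 / 2) (by linarith)
  refine ⟨min (1 / 1000) (κ / 20), lt_min (by norm_num) (by linarith), ⟨fun J => ?_⟩⟩
  have s0 : 0 ≤ min (1 / 1000) (κ / 20) := le_min (by norm_num) (by linarith)
  have s1 := min_le_left (1 / 1000) (κ / 20)
  have s2 := min_le_right (1 / 1000) (κ / 20)
  obtain ⟨p, hp, p1, p2, g, hg⟩ := hE J.e J.e' J.mem
  obtain ⟨N, hN⟩ := Γ.gen g
  obtain ⟨β, a, b, c⟩ := pa_of_pow N g hN
  obtain ⟨γ, n, h1, h2, h3, -, h5⟩ := erase Γ.S J.Hs β N a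
  have pos : ∀ h : G, 0 < h • J.e' - h • J.e := fun h => sub_pos.2 ((act_lt h).2 J.lt)
  have ex : ∃ k, k ≤ n ∧ δ1 ≤ γ k • J.e' - γ k • J.e := by
    refine ⟨n, le_rfl, ?_⟩
    obtain ⟨m, e1, e2⟩ := h3
    rw [c, mul_smul, inv_smul_eq_iff, act_int] at e1 e2
    unfold Cantor.len at hg
    rw [A.nxt_act] at hg
    linarith [(act_lt g).2 p1, (act_lt g).2 p2]
  obtain ⟨k1, k2⟩ := Nat.find_spec ex
  have k3 : ∀ k < Nat.find ex, γ k • J.e' - γ k • J.e ≤ δ1 := fun k hk => by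
    have := Nat.find_min ex hk
    push Not at this
    exact (this (by omega)).le
  have ct : ∀ τ ≤ Nat.find ex, J.Ct (γ τ) := by
    intro τ
    induction τ using Nat.strong_induction_on with
    | _ τ ih =>
      intro hτ p p' t1 t2 ho
      have q := Γ.path_X (h1.mono (hτ.trans k1)) ho fun k hk => (k3 k (by omega)).trans d3
      rw [h2, b, Xr_one, sub_zero] at q
      have s := hθ τ (fun i => γ i • J.e) (fun i => γ i • J.e' - γ i • J.e)
        (fun i hi => ⟨pos _, (k3 i (by omega)).trans d1⟩) fun i hi j hj hij m => by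
          have tm : A.t ^ m ∈ Tr G := ⟨m, A.tz_smul m⟩
          have e : ∀ y : ℝ, (γ j * A.t ^ m) • y = γ j • y + m := fun y => by
            rw [mul_smul, A.tz_smul, act_int]
          have := J.sep s0 s1 (ih i hi (by omega)) (h' := γ j * A.t ^ m)
            (fun p p' t1 t2 ho => by rw [Xr_tr _ tm]; exact ih j hj (by omega) p p' t1 t2 ho)
            (fun ⟨e1, e2⟩ => hij (h5 j (by omega) i (by omega) ⟨m,
              by rw [mul_smul, inv_smul_eq_iff, act_int, e1, e],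
              by rw [mul_smul, inv_smul_eq_iff, act_int, e2, e]⟩).symm)
          simp only [e] at this
          rw [one_mul, sub_sub]
          rwa [add_sub_add_right_eq_sub] at this
      have := mul_le_mul_of_nonneg_left s (show 0 ≤ 2 * Γ.C by linarith)
      rw [show 2 * Γ.C * (1 / (22 * Γ.C)) = 1 / 11 by field_simp; norm_num] at this
      exact q.trans this
  have H := ct _ le_rfl
  set h := γ (Nat.find ex)
  obtain ⟨r, hr, u, u1, u2, u3, u4⟩ := hκ (h • J.e + δ1 / 4)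
  have v1 : J.e < h⁻¹ • u := by rw [← act_lt h, smul_inv_smul]; linarith
  have v2 : h⁻¹ • u < J.e' := by rw [← act_lt h, smul_inv_smul]; linarith
  obtain ⟨c, c0, Hc⟩ := J.views s0 s1
  obtain ⟨q, hq, q1, q2, -⟩ := (Hc h H).2 _ v1 v2
  have w1 := H.two s0 s1 v1 v2
  have w2 := (act_lt h).2 q1
  have w3 := (act_lt h).2 ((A.lt_nxt hq).trans_le q2)
  rw [smul_inv_smul] at w1 w2
  refine A.not_mem_gap (p := r) (by linarith) ?_ (A.inv h q hq.1)
  have w4 : 15 * min (1 / 1000) (κ / 20) * (u - h • J.e) ≤ 15 * (κ / 20) * 1 := by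
    gcongr
    · linarith
    · linarith
  linarith

theorem nofix (A : Cantor G) (Γ : Gen G) {δ : ℝ} (hδ : 0 < δ) (hE : A.Exp δ) {x : ℝ}
    (hne : ∀ g : G, D g x ≤ 1) {g : G} (hg : g • x = x)
    (hm : ∀ v, x < v → ∃ w ∈ A.Λ, x < w ∧ w < v ∧ g • w ≠ w) :
    ∃ ε > 0, ∀ u ∈ Ioo x (x + ε), g • u ≠ u := by
  obtain ⟨σ, σ0, ⟨hσ⟩⟩ := no_slow A Γ hδ hE
  obtain ⟨L1, l1, hL1⟩ := exists_gLip g
  obtain ⟨L2, l2, hL2⟩ := exists_gLip g⁻¹
  have ev : ∀ᶠ u in 𝓝 x, D g u < 1 + σ ∧ D g⁻¹ u < 1 + σ :=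
    ((cont_D g).continuousAt.eventually (gt_mem_nhds (by linarith [hne g]))).and
      ((cont_D g⁻¹).continuousAt.eventually (gt_mem_nhds (by linarith [hne g⁻¹])))
  obtain ⟨ε, ε0, hε⟩ := Metric.eventually_nhds_iff.1 ev
  refine ⟨min ε (1 / (2 * (L1 + L2 + 1))), lt_min ε0 (by positivity), fun u0 ⟨a1, a2⟩ a3 => ?_⟩
  have a4 := min_le_left ε (1 / (2 * (L1 + L2 + 1)))
  have a5 := min_le_right ε (1 / (2 * (L1 + L2 + 1)))
  obtain ⟨w, hw, w1, w2, w3⟩ := hm u0 a1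
  have cl : IsClosed {u : ℝ | g • u = u} := isClosed_eq (cont_smul g) continuous_id
  have m1 := (cl.inter (isClosed_Icc (a := x) (b := w))).csSup_mem ⟨x, hg, le_rfl, w1.le⟩
    ⟨w, fun _ h => h.2.2⟩
  have m2 := (cl.inter (isClosed_Icc (a := w) (b := u0))).csInf_mem ⟨u0, a3, w2.le, le_rfl⟩
    ⟨w, fun _ h => h.2.1⟩
  set e := sSup ({u : ℝ | g • u = u} ∩ Icc x w)
  set e' := sInf ({u : ℝ | g • u = u} ∩ Icc w u0)
  have e1 : e < w := lt_of_le_of_ne m1.2.2 fun h => w3 (h ▸ m1.1)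
  have e2 : w < e' := lt_of_le_of_ne m2.2.1 fun h => w3 (h ▸ m2.1)
  have nf : ∀ u, e < u → u < e' → g • u ≠ u := fun u b1 b2 b3 => by
    rcases le_total u w with c | c
    · exact absurd (show u ≤ e from le_csSup ⟨w, fun _ h => h.2.2⟩ ⟨b3, m1.2.1.trans b1.le, c⟩)
        (not_le.2 b1)
    · exact absurd (show e' ≤ u from csInf_le ⟨w, fun _ h => h.2.1⟩ ⟨b3, c, b2.le.trans m2.2.2⟩)
        (not_le.2 b2)
  have nr : ∀ u, e ≤ u → u ≤ e' → D g u < 1 + σ ∧ D g⁻¹ u < 1 + σ := fun u b1 b2 => hε (by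
    rw [Real.dist_eq, abs_lt]; constructor <;> linarith [m1.2.1, m2.2.2])
  have sg : ∀ u u', e < u → u < e' → e < u' → u' < e' → u < g • u → u' < g • u' := by
    intro u u' b1 b2 b3 b4 b5
    by_contra c
    push Not at c
    obtain ⟨z, hz, k⟩ := intermediate_value_uIcc (a := u) (b := u') (f := fun y => g • y - y)
      ((cont_smul g).sub continuous_id).continuousOn
      (show (0 : ℝ) ∈ uIcc _ _ from mem_uIcc.2 (Or.inr ⟨by linarith, by linarith⟩))
    rcases mem_uIcc.1 hz with j | j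
    · exact nf z (by linarith [j.1]) (by linarith [j.2]) (by simp only at k; linarith)
    · exact nf z (by linarith [j.1]) (by linarith [j.2]) (by simp only at k; linarith)
  have sm : ∀ L, 0 ≤ L → L ≤ L1 + L2 → L * (e' - e) ≤ 1 / 2 := fun L b1 b2 => by
    have c : e' - e ≤ 1 / (2 * (L1 + L2 + 1)) := by linarith [m1.2.1, m2.2.2]
    refine (mul_le_mul (show L ≤ L1 + L2 + 1 by linarith) c (by linarith) (by linarith)).trans
      (le_of_eq ?_)
    field_simp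
  rcases lt_or_gt_of_ne w3 with k | k
  · refine hσ ⟨g⁻¹, e, e', by rw [inv_smul_eq_iff]; exact m1.1.symm,
      by rw [inv_smul_eq_iff]; exact m2.1.symm, fun u b1 b2 => ?_, ⟨w, hw, e1, e2⟩,
      fun u b1 b2 => (nr u b1 b2).2.le, fun u b1 b2 => by rw [inv_inv]; exact (nr u b1 b2).1.le,
      L2, l2, hL2, sm _ l2 (by linarith)⟩
    rw [← act_lt g, smul_inv_smul]
    refine lt_of_le_of_ne (le_of_not_gt fun c => ?_) (nf u b1 b2)
    linarith [sg u w b1 b2 e1 e2 c]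
  · exact hσ ⟨g, e, e', m1.1, m2.1, fun u b1 b2 => sg w u e1 e2 b1 b2 k, ⟨w, hw, e1, e2⟩,
      fun u b1 b2 => (nr u b1 b2).1.le, fun u b1 b2 => (nr u b1 b2).2.le, L1, l1, hL1,
      sm _ l1 (by linarith)⟩

end

section

open Set Filter Topology

theorem star_right {G : Type} [Group G] [MulAction G ℝ] [SmoothAct G] (A : Cantor G) (Γ : Gen G)
    {δ : ℝ} (hδ : 0 < δ) (hE : A.Exp δ) {x : ℝ}
    (TF : ∀ g : G, g • x = x → (∀ y : ℝ, g • y = y) ∨
      ∃ f : G, f • x = x ∧ ∀ v, x < v → ∃ w ∈ A.Λ, x < w ∧ w < v ∧ f • w ≠ w)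
    (hx : x ∈ A.Λ) (hne : ∀ g : G, D g x ≤ 1)
    (hacc : ∀ ε > 0, ∃ w ∈ A.Λ, x < w ∧ w < x + ε) :
    ∃ g : G, g • x = x ∧ ∃ ε > 0, ∀ u ∈ Ioo x (x + ε), g • u ≠ u := by
  by_cases free : ∀ (g : G) (n : ℤ), g • x = x + n → g ∈ Tr G
  · exfalso
    obtain ⟨Sb, S1, hS⟩ := beta_sum A Γ hδ hE hx hne hacc
    have C1 := Γ.C_pos
    have d0 : 0 < min δ 1 := lt_min hδ one_pos
    set ω := min (min δ 1 / 2) (1 / (44 * Γ.C) / Sb) with hω
    have ω0 : 0 < ω := lt_min (by linarith) (by positivity)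
    set η0 := 1 / (44 * Γ.C) / (3 / ω) ^ 2 with hη
    have η00 : 0 < η0 := by positivity
    obtain ⟨θ0, θp, hθ⟩ := sum_sep Γ.α_pos (κ := 1 / 400) (ε := η0) (by norm_num) η00
    set θ := min θ0 (min δ 1 * ω / 6) with hθ'
    have θ1 : 0 < θ := lt_min θp (by positivity)
    refine Ctx.false (G := G)
      { Γ := Γ, t := fun m => A.t ^ m, t_smul := A.tz_smul, x := x, ne := hne, free := free
        δ := min δ 1, δ_le := min_le_right _ _, big := fun v hv => ?_, Sb := Sb, Sb_pos := S1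
        Sb_le := fun n γ h => hS n γ fun i hi j hj hij m e => ?_
        η0 := η0, θ := θ, ω := ω, ρt := max 1 (max (1 / θ) (Sb / η0)), η0_pos := η00
        θ_pos := θ1, ω_pos := ω0, ω_lt := ?_, c1 := ?_, c2 := ?_, c3 := ?_
        c4 := fun n z th h => hθ n z th fun i hi => ⟨(h i hi).1, (h i hi).2.trans (min_le_left _ _)⟩
        c5 := le_max_left _ _, c6 := ?_, c7 := ?_ }
    · obtain ⟨w, hw, a, b⟩ := hacc (v - x) (by linarith)
      obtain ⟨p, hp, c, d, g, e⟩ := hE x v ⟨w, hw, a, by linarith⟩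
      refine ⟨g, ?_⟩
      unfold Cantor.len at e
      rw [A.nxt_act] at e
      linarith [(act_lt g).2 c, (act_lt g).2 d, min_le_left δ 1]
    · exact hij (h j hj i hi (free _ m (by rw [mul_smul, inv_smul_eq_iff, act_int, e]))).symm
    · linarith [min_le_left (min δ 1 / 2) (1 / (44 * Γ.C) / Sb)]
    · rw [← le_div_iff₀ (by linarith)]; exact min_le_right _ _
    · rw [hη]; exact le_of_eq (by field_simp)
    · have := mul_le_mul_of_nonneg_left (min_le_right θ0 (min δ 1 * ω / 6))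
        (show 0 ≤ 3 / ω by positivity)
      rw [show 3 / ω * (min δ 1 * ω / 6) = min δ 1 / 2 by field_simp; norm_num] at this
      linarith
    · rw [← div_le_iff₀' θ1]; exact (le_max_left _ _).trans (le_max_right _ _)
    · rw [← div_le_iff₀' η00]; exact (le_max_right _ _).trans (le_max_right _ _)
  · push Not at free
    obtain ⟨g, n, h1, h2⟩ := free
    rcases TF (A.t ^ (-n) * g) (by rw [mul_smul, A.tz_smul, h1]; push_cast; ring) with c | c
    · refine (h2 ⟨n, fun y => ?_⟩).elim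
      have := c y
      rw [mul_smul, A.tz_smul] at this
      push_cast at this
      linarith
    · obtain ⟨f, a, b⟩ := c
      exact ⟨f, a, nofix A Γ hδ hE hne a b⟩

theorem hp_fg (G0 : Subgroup (Equiv.Perm ℝ)) (hfg : G0.FG) (sg : ∀ g ∈ G0, Tp g 1 ∨ Tp g (-1)) :
    Group.FG (Hp G0) := by
  have no : ∀ {g : Equiv.Perm ℝ}, Tp g 1 → Tp g (-1) → False := fun h h' => by
    linarith [h 0, h' 0]
  have : Group.FG G0 := (Group.fg_iff_subgroup_fg G0).2 hfg
  have : (Hp G0).FiniteIndex := by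
    by_cases hr : ∃ r : G0, r ∉ Hp G0
    · obtain ⟨r, hr⟩ := hr
      have hr' : Tp r.1 (-1) := (sg _ r.2).resolve_left hr
      refine ⟨?_⟩
      rw [Subgroup.index_eq_two_iff.2 ⟨r, fun b => ?_⟩]
      · norm_num
      · rcases sg _ b.2 with h | h
        · exact Or.inr ⟨h, fun h' => no h' (by simpa using h.mul hr' (Or.inr rfl))⟩
        · exact Or.inl ⟨show Tp (b.1 * r.1) 1 by simpa using h.mul hr' (Or.inr rfl),
            fun h' => no h' h⟩
    · push Not at hr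
      rw [(Subgroup.eq_top_iff' _).2 hr]; infer_instance
  exact Subgroup.fg_of_index_ne_zero _

theorem star_perm (G0 : Subgroup (Equiv.Perm ℝ)) (hfg : G0.FG) (ht : Equiv.addRight (1 : ℝ) ∈ G0)
    (hG : ∀ g ∈ G0, ContDiff ℝ 2 (⇑g) ∧ (∀ x : ℝ, deriv (⇑g) x ≠ 0) ∧
      ((∀ x : ℝ, g (x + 1) = g x + 1) ∨ (∀ x : ℝ, g (x + 1) = g x - 1)))
    (hH : ∀ g ∈ G0, ∃ C α : ℝ, 0 < α ∧ ∀ x y : ℝ,
      |deriv (deriv ⇑g) x - deriv (deriv ⇑g) y| ≤ C * |x - y| ^ α)
    (Λ : Set ℝ) (hne : Λ.Nonempty) (hc : IsClosed Λ)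
    (hp : ∀ x ∈ Λ, ∀ ε > 0, ∃ y ∈ Λ, y ≠ x ∧ |y - x| < ε)
    (hnd : ∀ a b : ℝ, a < b → ∃ u, a < u ∧ u < b ∧ u ∉ Λ) (hinv : ∀ g ∈ G0, ∀ x ∈ Λ, g x ∈ Λ)
    (hmin : ∀ x ∈ Λ, ∀ w ∈ Λ, ∀ ε > 0, ∃ g ∈ G0, |g x - w| < ε)
    {x : ℝ} (TF : ∀ g ∈ G0, g x = x → 0 < deriv (⇑g) x → (∀ y : ℝ, g y = y) ∨
      ∃ f ∈ G0, f x = x ∧ 0 < deriv (⇑f) x ∧ ∀ v, x < v → ∃ w ∈ Λ, x < w ∧ w < v ∧ f w ≠ w)
    (hx : x ∈ Λ) (h1 : ∀ g ∈ G0, |deriv (⇑g) x| ≤ 1)
    (hacc : ∀ ε > 0, ∃ w ∈ Λ, x < w ∧ w < x + ε) :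
    ∃ g ∈ G0, g x = x ∧ 0 < deriv (⇑g) x ∧ ∃ ε > 0, ∀ u ∈ Ioo x (x + ε), g u ≠ u := by
  have sg := fun g hg => sign_cases (hG g hg).1 (hG g hg).2.1 (hG g hg).2.2
  have hiff : ∀ g ∈ G0, ∀ x, x ∈ Λ ↔ g x ∈ Λ := fun g hg x =>
    ⟨hinv g hg x, fun h => by simpa using hinv g⁻¹ (G0.inv_mem hg) _ h⟩
  have no : ∀ {g : Equiv.Perm ℝ}, Tp g 1 → Tp g (-1) → False := fun h h' => by
    linarith [h 0, h' 0]
  have : SmoothAct (Hp G0) := ⟨fun g => (hG _ g.1.2).1, fun g x => by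
    rcases sg _ g.1.2 with h | h
    · exact h.1 x
    · exact (no g.2 h.2.2).elim, fun g => g.2⟩
  let A : Cantor (Hp G0) := ⟨Λ, ⟨⟨_, ht⟩, fun _ => rfl⟩, fun _ => rfl, hc, hne, hp, hnd,
    fun g => hinv _ g.1.2⟩
  obtain ⟨Γ⟩ := exists_gen (G := Hp G0) (hp_fg G0 hfg fun g hg => (sg g hg).imp (·.2.2) (·.2.2))
    fun g => by
      obtain ⟨C, α, a, b⟩ := hH _ g.1.2
      exact ⟨α, a, C, fun x y _ => b x y⟩
  obtain ⟨u0, -, -, hu0⟩ := hnd 0 1 one_pos
  obtain ⟨k, hk, -⟩ := A.exists_gap hu0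
  obtain ⟨δ, hδ, d1, d2⟩ : ∃ δ > 0, δ ≤ A.len k ∧ ∀ g ∈ G0, Tp g (-1) →
      ∃ h : Hp G0, δ ≤ A.len (h • g (nxt Λ k)) := by
    by_cases hr : ∃ r ∈ G0, Tp r (-1)
    · obtain ⟨r, hr, hr'⟩ := hr
      have hra : StrictAnti r := ((sg r hr).resolve_left fun h => no h.2.2 hr').2.1
      have a := (anti_gap A hra r.surjective (hiff r hr) hk).1
      refine ⟨min (A.len k) (A.len (r (nxt Λ k))), lt_min (A.len_pos hk) (A.len_pos a),
        min_le_left _ _, fun g hg hg' => ⟨⟨⟨r * g⁻¹, G0.mul_mem hr (G0.inv_mem hg)⟩,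
          show Tp (r * g⁻¹) 1 by simpa using hr'.mul (hg'.inv (Or.inr rfl)) (Or.inr rfl)⟩, ?_⟩⟩
      show _ ≤ A.len (r (g⁻¹ (g (nxt Λ k))))
      simp
    · exact ⟨_, A.len_pos hk, le_rfl, fun g hg hg' => absurd ⟨g, hg, hg'⟩ hr⟩
  have hE : A.Exp δ := by
    rintro u v ⟨w, hw, a, b⟩
    obtain ⟨w1, w3, m1, m3, c1, c2, c3⟩ : ∃ w1 w3, w1 ∈ Λ ∧ w3 ∈ Λ ∧ u < w1 ∧ w1 < w3 ∧ w3 < v := by
      obtain ⟨y, hy, c, d⟩ := hp w hw (min (w - u) (v - w)) (lt_min (by linarith) (by linarith))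
      rw [abs_lt] at d
      have := min_le_left (w - u) (v - w)
      have := min_le_right (w - u) (v - w)
      rcases lt_or_gt_of_ne c with e | e
      · exact ⟨y, w, hy, hw, by linarith, e, b⟩
      · exact ⟨w, y, hw, hy, a, e, by linarith⟩
    obtain ⟨w1, w2, m1, m2, c1, c2, c4⟩ : ∃ w1 w2, w1 ∈ Λ ∧ w2 ∈ Λ ∧ u < w1 ∧ w1 < w2 ∧
        w2 < w3 := by
      obtain ⟨y, hy, c, d⟩ := hp w1 m1 (min (w1 - u) (w3 - w1)) (lt_min (by linarith) (by linarith))
      rw [abs_lt] at d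
      have := min_le_left (w1 - u) (w3 - w1)
      have := min_le_right (w1 - u) (w3 - w1)
      rcases lt_or_gt_of_ne c with e | e
      · exact ⟨y, w1, hy, m1, by linarith, e, c2⟩
      · exact ⟨w1, y, m1, hy, c1, e, by linarith⟩
    obtain ⟨g, hg, d⟩ := hmin k hk.1 w2 m2 (min (w2 - w1) (w3 - w2))
      (lt_min (by linarith) (by linarith))
    rw [abs_lt] at d
    have := min_le_left (w2 - w1) (w3 - w2)
    have := min_le_right (w2 - w1) (w3 - w2)
    rcases sg g hg with h | h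
    · let g' : Hp G0 := ⟨⟨g, hg⟩, h.2.2⟩
      refine ⟨g' • k, A.act_LE g' hk, show u < g k by linarith,
        (A.nxt_le m3 (show g k < w3 by linarith)).trans_lt c3, g'⁻¹, by rwa [inv_smul_smul]⟩
    · obtain ⟨e1, e2⟩ := anti_gap A h.2.1 g.surjective (hiff g hg) hk
      refine ⟨_, e1, c1.trans_le (A.le_of_lt_nxt m1 (by rw [e2]; linarith)), by rw [e2]; linarith,
        d2 g hg h.2.2⟩
  obtain ⟨g, a, b⟩ := star_right A Γ hδ hE (fun g hg => (TF _ g.1.2 hg (D_pos g x)).imp_right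
      fun ⟨f, hf, a, b, c⟩ => ⟨⟨⟨f, hf⟩, ((sg f hf).resolve_right fun h => by
        linarith [h.1 x]).2.2⟩, a, c⟩) hx
    (fun g => (le_abs_self _).trans (h1 _ g.1.2)) hacc
  exact ⟨g.1.1, g.1.2, a, D_pos g x, b⟩

theorem star_tf (G0 : Subgroup (Equiv.Perm ℝ)) (hfg : G0.FG) (ht : Equiv.addRight (1 : ℝ) ∈ G0)
    (hG : ∀ g ∈ G0, ContDiff ℝ 2 (⇑g) ∧ (∀ x : ℝ, deriv (⇑g) x ≠ 0) ∧
      ((∀ x : ℝ, g (x + 1) = g x + 1) ∨ (∀ x : ℝ, g (x + 1) = g x - 1)))
    (hH : ∀ g ∈ G0, ∃ C α : ℝ, 0 < α ∧ ∀ x y : ℝ,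
      |deriv (deriv ⇑g) x - deriv (deriv ⇑g) y| ≤ C * |x - y| ^ α)
    (Λ : Set ℝ) (hne : Λ.Nonempty) (hperf : Perfect Λ) (hint : interior Λ = ∅)
    (hinv : ∀ g ∈ G0, ∀ x ∈ Λ, g x ∈ Λ)
    (hmin : ∀ x ∈ Λ, Λ ⊆ closure {y : ℝ | ∃ g ∈ G0, g x = y})
    (TF : ∀ x ∈ Λ, (∀ g ∈ G0, |deriv (⇑g) x| ≤ 1) → ∀ g ∈ G0, g x = x → 0 < deriv (⇑g) x → g ≠ 1 →
      (x ∈ closure (Λ ∩ Ioi x) → ∃ f ∈ G0, f x = x ∧ 0 < deriv (⇑f) x ∧
        x ∈ closure {y ∈ Λ ∩ Ioi x | f y ≠ y}) ∧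
      (x ∈ closure (Λ ∩ Iio x) → ∃ f ∈ G0, f x = x ∧ 0 < deriv (⇑f) x ∧
        x ∈ closure {y ∈ Λ ∩ Iio x | f y ≠ y})) :
    ∀ x ∈ Λ, (∀ g ∈ G0, |deriv (⇑g) x| ≤ 1) →
      (x ∈ closure (Λ ∩ Ioi x) → ∃ g ∈ G0, g x = x ∧ 0 < deriv (⇑g) x ∧
        ∃ ε > 0, ∀ u ∈ Ioo x (x + ε), g u ≠ u) ∧
      (x ∈ closure (Λ ∩ Iio x) → ∃ g ∈ G0, g x = x ∧ 0 < deriv (⇑g) x ∧
        ∃ ε > 0, ∀ u ∈ Ioo (x - ε) x, g u ≠ u) := by
  have hp : ∀ x ∈ Λ, ∀ ε > 0, ∃ y ∈ Λ, y ≠ x ∧ |y - x| < ε := fun x hx ε hε => by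
    obtain ⟨y, h1, h2⟩ := (accPt_iff_nhds.1 (hperf.acc x hx)) _ (Metric.ball_mem_nhds x hε)
    exact ⟨y, h1.2, h2, by simpa [Real.dist_eq] using h1.1⟩
  have hnd : ∀ a b : ℝ, a < b → ∃ u, a < u ∧ u < b ∧ u ∉ Λ := fun a b hab => by
    by_contra h
    push Not at h
    have : Ioo a b ⊆ interior Λ := interior_maximal (fun u hu => h u hu.1 hu.2) isOpen_Ioo
    rw [hint] at this
    exact this (show (a + b) / 2 ∈ Ioo a b from ⟨by linarith, by linarith⟩)
  have hm : ∀ x ∈ Λ, ∀ w ∈ Λ, ∀ ε > 0, ∃ g ∈ G0, |g x - w| < ε := fun x hx w hw ε hε => by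
    obtain ⟨_, ⟨g, hg, rfl⟩, h⟩ := Metric.mem_closure_iff.1 (hmin x hx hw) ε hε
    exact ⟨g, hg, by rwa [Real.dist_eq, abs_sub_comm] at h⟩
  intro x hx h1
  refine ⟨fun h => star_perm G0 hfg ht hG hH Λ hne hperf.closed hp hnd hinv hm
    (fun g hg a b => ?_) hx h1 fun ε hε => ?_, fun h => ?_⟩
  · by_cases c : g = 1
    · exact Or.inl fun y => by rw [c]; rfl
    · obtain ⟨f, hf, d1, d2, d3⟩ := (TF x hx h1 g hg a b c).1 h
      refine Or.inr ⟨f, hf, d1, d2, fun v hv => ?_⟩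
      obtain ⟨w, hw, d⟩ := Metric.mem_closure_iff.1 d3 (v - x) (by linarith)
      rw [Real.dist_eq, abs_lt] at d
      exact ⟨w, hw.1.1, hw.1.2, by linarith, hw.2⟩
  · obtain ⟨w, hw, d⟩ := Metric.mem_closure_iff.1 h ε hε
    rw [Real.dist_eq, abs_lt] at d
    exact ⟨w, hw.1, hw.2, by linarith⟩
  let c : Equiv.Perm ℝ →* Equiv.Perm ℝ := (MulAut.conj (Equiv.neg ℝ)).toMonoidHom
  have ce : ∀ g : Equiv.Perm ℝ, ⇑(c g) = fun y => -g (-y) := fun g => rfl
  have cd : ∀ g : Equiv.Perm ℝ, deriv ⇑(c g) = fun y => deriv (⇑g) (-y) := fun g => funext fun y => by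
    rw [ce, deriv.fun_neg, deriv_comp_neg, neg_neg]
  obtain ⟨_, ⟨g, hg, rfl⟩, a1, a2, ε, hε, a3⟩ := star_perm (G0.map c)
    (by
      classical
      obtain ⟨T, hT⟩ := hfg
      exact ⟨T.image c, by rw [Finset.coe_image, ← MonoidHom.map_closure, hT]⟩)
    ⟨_, G0.inv_mem ht, Equiv.ext fun y => by rw [ce]; simp [add_comm]⟩
    (by
      rintro _ ⟨g, hg, rfl⟩
      refine ⟨by rw [ce]; exact ((hG g hg).1.comp contDiff_neg).neg,
        fun y => by rw [cd]; exact (hG g hg).2.1 _, (hG g hg).2.2.imp (fun h y => ?_) fun h y => ?_⟩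
      all_goals
        have := h (-(y + 1))
        rw [show -(y + 1) + 1 = -y by ring] at this
        simp only [ce]; linarith)
    (by
      rintro _ ⟨g, hg, rfl⟩
      obtain ⟨C, α, a, b⟩ := hH g hg
      refine ⟨C, α, a, fun u v => ?_⟩
      rw [cd, deriv_comp_neg, deriv_comp_neg, ← neg_sub', abs_neg, ← abs_neg (u - v), neg_sub']
      exact b _ _)
    {y | -y ∈ Λ} (hne.elim fun y hy => ⟨-y, by simpa using hy⟩)
    (hperf.closed.preimage continuous_neg)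
    (fun y hy ε hε => by
      obtain ⟨z, b1, b2, b3⟩ := hp _ hy ε hε
      exact ⟨-z, by simpa using b1, fun e => b2 (by rw [← e, neg_neg]), by
        rw [← abs_neg]; convert b3 using 2; ring⟩)
    (fun a b hab => by
      obtain ⟨u, b1, b2, b3⟩ := hnd (-b) (-a) (by linarith)
      exact ⟨-u, by linarith, by linarith, by simpa using b3⟩)
    (by
      rintro _ ⟨g, hg, rfl⟩ y hy
      simpa [ce] using hinv g hg _ hy)
    (fun y hy w hw ε hε => by
      obtain ⟨g, hg, b⟩ := hm _ hy _ hw ε hε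
      exact ⟨_, ⟨g, hg, rfl⟩, by rw [ce, ← abs_neg]; convert b using 2; ring⟩)
    (x := -x)
    (by
      rintro _ ⟨g, hg, rfl⟩ a b
      by_cases k : g = 1
      · exact Or.inl fun y => by rw [k, map_one]; rfl
      · obtain ⟨f, hf, d1, d2, d3⟩ := (TF x hx h1 g hg (by simpa [ce] using a)
          (by simpa [cd] using b) k).2 h
        refine Or.inr ⟨_, ⟨f, hf, rfl⟩, by simpa [ce] using d1, by simpa [cd] using d2,
          fun v hv => ?_⟩
        obtain ⟨w, hw, d⟩ := Metric.mem_closure_iff.1 d3 (v + x) (by linarith)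
        rw [Real.dist_eq, abs_lt] at d
        exact ⟨-w, by simpa using hw.1.1, by linarith [mem_Iio.1 hw.1.2], by linarith,
          by simpa [ce] using hw.2⟩)
    (by simpa using hx)
    (by
      rintro _ ⟨g, hg, rfl⟩
      simpa [cd] using h1 g hg)
    (fun ε hε => by
      obtain ⟨w, hw, d⟩ := Metric.mem_closure_iff.1 h ε hε
      rw [Real.dist_eq, abs_lt] at d
      exact ⟨-w, by simpa using hw.1, by linarith [mem_Iio.1 hw.2], by linarith⟩)
  refine ⟨g, hg, by simpa [ce] using a1, by simpa [cd] using a2, ε, hε, fun u hu e => ?_⟩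
  exact a3 (-u) ⟨by linarith [hu.2], by linarith [hu.1]⟩ (by simp [ce, e])

end

end Pool.Agent.Lib.MP_173a7e_an
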