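import Pool.Agent.Lib.MP_173a7e_an.Calc

/-! Gaps of an invariant Cantor set. -/

set_option autoImplicit false

namespace Pool.Agent.Lib.MP_173a7e_an

open Set Filter Topology

/-- An invariant perfect nowhere dense set, and the unit translation. -/
structure Cantor (G : Type) [Group G] [MulAction G ℝ] where
  Λ : Set ℝ
  t : G
  t_smul : ∀ x : ℝ, t • x = x + 1
  closed : IsClosed Λ
  ne : Λ.Nonempty
  perf : ∀ x ∈ Λ, ∀ ε > 0, ∃ y ∈ Λ, y ≠ x ∧ |y - x| < ε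
  nd : ∀ a b : ℝ, a < b → ∃ u, a < u ∧ u < b ∧ u ∉ Λ
  inv : ∀ g : G, ∀ x ∈ Λ, g • x ∈ Λ

theorem unif {P : ℝ → ℝ → Prop} (hm : ∀ κ κ' y, 0 < κ' → κ' ≤ κ → P κ y → P κ' y) {K : Set ℝ}
    (hK : IsCompact K) (h : ∀ x ∈ K, ∃ κ > 0, ∀ᶠ y in 𝓝 x, P κ y) : ∃ κ > 0, ∀ y ∈ K, P κ y := by
  refine hK.induction_on (p := fun s => ∃ κ > 0, ∀ y ∈ s, P κ y) ⟨1, one_pos, by simp⟩ ?_ ?_ ?_
  · rintro s t hst ⟨κ, h0, h1⟩
    exact ⟨κ, h0, fun y hy => h1 y (hst hy)⟩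
  · rintro s t ⟨κ, h0, h1⟩ ⟨κ', h0', h1'⟩
    refine ⟨min κ κ', lt_min h0 h0', ?_⟩
    rintro y (hy | hy)
    · exact hm _ _ _ (lt_min h0 h0') (min_le_left _ _) (h1 y hy)
    · exact hm _ _ _ (lt_min h0 h0') (min_le_right _ _) (h1' y hy)
  · intro x hx
    obtain ⟨κ, h0, h1⟩ := h x hx
    exact ⟨{y | P κ y}, mem_nhdsWithin_of_mem_nhds h1, κ, h0, fun y hy => hy⟩

theorem fin_min {ι : Type} (T : Set ι) (hT : T.Finite) {P : ι → ℝ → Prop}
    (hm : ∀ i κ κ', 0 < κ' → κ' ≤ κ → P i κ → P i κ') (h : ∀ i ∈ T, ∃ κ > 0, P i κ) :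
    ∃ κ > 0, ∀ i ∈ T, P i κ := by
  induction T, hT using Set.Finite.induction_on with
  | empty => exact ⟨1, one_pos, by simp⟩
  | @insert a s _ _ ih =>
    obtain ⟨κ, h0, h1⟩ := ih (fun i hi => h i (Or.inr hi))
    obtain ⟨κ', h0', h1'⟩ := h a (Or.inl rfl)
    refine ⟨min κ κ', lt_min h0 h0', ?_⟩
    rintro i (rfl | hi)
    · exact hm _ _ _ (lt_min h0 h0') (min_le_right _ _) h1'
    · exact hm _ _ _ (lt_min h0 h0') (min_le_left _ _) (h1 i hi)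

theorem fin_max {ι α : Type} [LinearOrder α] [Nonempty α] (T : Set ι) (hT : T.Finite)
    {P : ι → α → Prop} (hm : ∀ i a b, a ≤ b → P i a → P i b) (h : ∀ i ∈ T, ∃ a, P i a) :
    ∃ a, ∀ i ∈ T, P i a := by
  induction T, hT using Set.Finite.induction_on with
  | empty => exact ⟨Classical.arbitrary α, by simp⟩
  | @insert a s _ _ ih =>
    obtain ⟨κ, h1⟩ := ih (fun i hi => h i (Or.inr hi))
    obtain ⟨κ', h1'⟩ := h a (Or.inl rfl)
    refine ⟨max κ κ', ?_⟩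
    rintro i (rfl | hi)
    · exact hm _ _ _ (le_max_right _ _) h1'
    · exact hm _ _ _ (le_max_left _ _) (h1 i hi)

variable {G : Type} [Group G] [MulAction G ℝ]

namespace Cantor

variable (A : Cantor G)

theorem mem_iff (g : G) {x : ℝ} : g • x ∈ A.Λ ↔ x ∈ A.Λ :=
  ⟨fun h => by simpa using A.inv g⁻¹ _ h, A.inv g x⟩

theorem tinv_smul (x : ℝ) : A.t⁻¹ • x = x - 1 := by
  rw [inv_smul_eq_iff, A.t_smul]; ring

theorem tz_smul (n : ℤ) (x : ℝ) : A.t ^ n • x = x + n := by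
  induction n using Int.induction_on generalizing x with
  | zero => simp
  | succ n ih => rw [zpow_add_one, mul_smul, ih, A.t_smul]; push_cast; ring
  | pred n ih => rw [zpow_sub_one, mul_smul, ih, A.tinv_smul]; push_cast; ring

theorem add_int_mem {x : ℝ} (n : ℤ) : x + n ∈ A.Λ ↔ x ∈ A.Λ := by
  rw [← A.tz_smul, A.mem_iff]

theorem sub_int_mem {x : ℝ} (n : ℤ) : x - n ∈ A.Λ ↔ x ∈ A.Λ := by
  rw [← A.add_int_mem n]; simp

theorem D_tz (n : ℤ) (x : ℝ) : D (A.t ^ n) x = 1 := by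
  unfold D; simp only [A.tz_smul]; simp

theorem exists_above (x : ℝ) : ∃ y ∈ A.Λ, x < y := by
  obtain ⟨y, hy⟩ := A.ne
  refine ⟨y + (⌊x - y⌋ + 1 : ℤ), (A.add_int_mem _).2 hy, ?_⟩
  have := Int.lt_floor_add_one (x - y)
  push_cast; linarith

theorem exists_below (x : ℝ) : ∃ y ∈ A.Λ, y < x := by
  obtain ⟨y, hy⟩ := A.ne
  refine ⟨y + (⌊x - y⌋ - 1 : ℤ), (A.add_int_mem _).2 hy, ?_⟩
  have := Int.floor_le (x - y)
  push_cast; linarith

theorem nxt_le {p y : ℝ} (hy : y ∈ A.Λ) (h : p < y) : nxt A.Λ p ≤ y :=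
  csInf_le ⟨p, fun _ hz => le_of_lt hz.2⟩ ⟨hy, h⟩

theorem le_nxt (p : ℝ) : p ≤ nxt A.Λ p := by
  obtain ⟨y, hy, h⟩ := A.exists_above p
  exact le_csInf ⟨y, hy, h⟩ (fun _ hz => le_of_lt hz.2)

theorem nxt_mem (p : ℝ) : nxt A.Λ p ∈ A.Λ := by
  obtain ⟨y, hy, h⟩ := A.exists_above p
  have := csInf_mem_closure (s := A.Λ ∩ Ioi p) ⟨y, hy, h⟩ ⟨p, fun _ hz => le_of_lt hz.2⟩
  exact A.closed.closure_subset_iff.2 inter_subset_left this

theorem lt_nxt {p : ℝ} (hp : p ∈ LE A.Λ) : p < nxt A.Λ p := by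
  obtain ⟨-, q, hq, h⟩ := hp
  obtain ⟨y, hy, h'⟩ := A.exists_above p
  refine lt_of_lt_of_le hq (le_csInf ⟨y, hy, h'⟩ ?_)
  intro z hz
  by_contra hc
  exact h z ⟨hz.2, lt_of_not_ge hc⟩ hz.1

theorem not_mem_gap {p u : ℝ} (h1 : p < u) (h2 : u < nxt A.Λ p) : u ∉ A.Λ :=
  fun hu => absurd (A.nxt_le hu h1) (not_le.2 h2)

theorem mem_LE {p : ℝ} (hp : p ∈ A.Λ) (h : p < nxt A.Λ p) : p ∈ LE A.Λ :=
  ⟨hp, _, h, fun _ hy => A.not_mem_gap hy.1 hy.2⟩

theorem nxt_le_one {p : ℝ} (hp : p ∈ A.Λ) : nxt A.Λ p ≤ p + 1 :=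
  A.nxt_le (by simpa using (A.add_int_mem 1).2 hp) (by linarith)

theorem exists_gap {u : ℝ} (hu : u ∉ A.Λ) : ∃ p ∈ LE A.Λ, p < u ∧ u < nxt A.Λ p := by
  obtain ⟨y, hy, h⟩ := A.exists_below u
  have hb : BddAbove (A.Λ ∩ Iic u) := ⟨u, fun _ hz => hz.2⟩
  have hne : (A.Λ ∩ Iic u).Nonempty := ⟨y, hy, h.le⟩
  have hm := (A.closed.inter isClosed_Iic).csSup_mem hne hb
  set p := sSup (A.Λ ∩ Iic u)
  have hpu : p < u := lt_of_le_of_ne hm.2 (fun e => hu (e ▸ hm.1))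
  have hun : u < nxt A.Λ p := by
    by_contra hc
    have h1 : nxt A.Λ p ≤ p := le_csSup hb ⟨A.nxt_mem p, le_of_not_gt hc⟩
    obtain ⟨y', hy', h'⟩ := A.exists_above p
    have h2 : u ≤ nxt A.Λ p := le_csInf ⟨y', hy', h'⟩ (fun z hz => by
      by_contra hc'
      have : z ≤ p := le_csSup hb ⟨hz.1, le_of_lt (lt_of_not_ge hc')⟩
      exact absurd hz.2 (not_lt.2 this))
    linarith
  exact ⟨p, A.mem_LE hm.1 (by linarith), hpu, hun⟩

theorem le_of_lt_nxt {p y : ℝ} (hy : y ∈ A.Λ) (h : y < nxt A.Λ p) : y ≤ p := by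
  by_contra hc
  exact absurd (A.nxt_le hy (lt_of_not_ge hc)) (not_le.2 h)

theorem gap_unique {p q u : ℝ} (hp : p ∈ A.Λ) (hq : q ∈ A.Λ) (h1 : p < u) (h2 : u < nxt A.Λ p)
    (h3 : q < u) (h4 : u < nxt A.Λ q) : p = q :=
  le_antisymm (A.le_of_lt_nxt hp (by linarith)) (A.le_of_lt_nxt hq (by linarith))

/-- Length of the gap starting at `p`. -/
noncomputable def len (p : ℝ) : ℝ := nxt A.Λ p - p

theorem len_pos {p : ℝ} (hp : p ∈ LE A.Λ) : 0 < A.len p := sub_pos.2 (A.lt_nxt hp)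

theorem len_le_one {p : ℝ} (hp : p ∈ A.Λ) : A.len p ≤ 1 := by
  have := A.nxt_le_one hp; unfold len; linarith

theorem abs_len (p : ℝ) : |nxt A.Λ p - p| = A.len p := abs_of_nonneg (sub_nonneg.2 (A.le_nxt p))

variable [SmoothAct G]

theorem nxt_act (g : G) (p : ℝ) : nxt A.Λ (g • p) = g • nxt A.Λ p := by
  have key : ∀ (g : G) (p : ℝ), g • nxt A.Λ p ≤ nxt A.Λ (g • p) := by
    intro g p
    obtain ⟨y, hy, h⟩ := A.exists_above (g • p)
    refine le_csInf ⟨y, hy, h⟩ (fun z hz => ?_)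
    have h1 : nxt A.Λ p ≤ g⁻¹ • z := A.nxt_le (A.inv _ _ hz.1) (by
      rw [← act_lt g, smul_inv_smul]; exact hz.2)
    rwa [← act_le g, smul_inv_smul] at h1
  refine le_antisymm ?_ (key g p)
  have := key g⁻¹ (g • p)
  rwa [inv_smul_smul, ← act_le g, smul_inv_smul] at this

theorem act_LE (g : G) {p : ℝ} (hp : p ∈ LE A.Λ) : g • p ∈ LE A.Λ :=
  A.mem_LE (A.inv g p hp.1) (by rw [A.nxt_act, act_lt]; exact A.lt_nxt hp)

theorem nxt_int (p : ℝ) (n : ℤ) : nxt A.Λ (p + n) = nxt A.Λ p + n := by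
  rw [← A.tz_smul, A.nxt_act, A.tz_smul]

theorem LE_int {p : ℝ} (hp : p ∈ LE A.Λ) (n : ℤ) : p + n ∈ LE A.Λ := by
  rw [← A.tz_smul]; exact A.act_LE _ hp

theorem len_int (p : ℝ) (n : ℤ) : A.len (p + n) = A.len p := by
  unfold len; rw [A.nxt_int]; ring

theorem len_act (g : G) (p : ℝ) : A.len (g • p) = |g • nxt A.Λ p - g • p| := by
  rw [← A.nxt_act, A.abs_len]

theorem lg_tz_mul (n : ℤ) (g : G) (x : ℝ) : lg (A.t ^ n * g) x = lg g x := by
  rw [lg_mul]; unfold lg; rw [A.D_tz]; simp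

theorem D_tz_mul (n : ℤ) (g : G) (x : ℝ) : D (A.t ^ n * g) x = D g x := by
  rw [D_mul, A.D_tz]; simp

theorem good_tz_mul (n : ℤ) {K z : ℝ} {g : G} (H : Good K z g) : Good K z (A.t ^ n * g) :=
  H.congr (A.lg_tz_mul n g)

theorem fract_LE {p : ℝ} (hp : p ∈ LE A.Λ) : Int.fract p ∈ LE A.Λ := by
  have := A.LE_int hp (-⌊p⌋)
  simpa [Int.fract, sub_eq_add_neg] using this

/-- Every interval of length `η` contains a piece of a gap of length `κ`. -/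
theorem piece (η : ℝ) (hη : 0 < η) : ∃ κ > 0, ∀ a, ∃ p ∈ LE A.Λ, ∃ c, a ≤ c ∧ c + κ ≤ a + η ∧
    p ≤ c ∧ c + κ ≤ nxt A.Λ p := by
  obtain ⟨κ, h0, h⟩ := unif (P := fun κ a => ∃ p ∈ LE A.Λ, ∃ c, a ≤ c ∧ c + κ ≤ a + η ∧
      p ≤ c ∧ c + κ ≤ nxt A.Λ p) (by
        rintro κ κ' y - h ⟨p, hp, c, h1, h2, h3, h4⟩
        exact ⟨p, hp, c, h1, by linarith, h3, by linarith⟩)
    (isCompact_Icc (a := (0 : ℝ)) (b := 1)) (by
      intro x _
      obtain ⟨u, h1, h2, hu⟩ := A.nd (x + η / 4) (x + η / 2) (by linarith)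
      obtain ⟨p, hp, h3, h4⟩ := A.exists_gap hu
      refine ⟨min (η / 4) (nxt A.Λ p - u), lt_min (by linarith) (by linarith), ?_⟩
      filter_upwards [Ioo_mem_nhds (show x - η / 4 < x by linarith)
        (show x < x + η / 4 by linarith)] with y hy
      have := min_le_left (η / 4) (nxt A.Λ p - u)
      have := min_le_right (η / 4) (nxt A.Λ p - u)
      exact ⟨p, hp, u, by linarith [hy.2], by linarith [hy.1], h3.le, by linarith⟩)
  refine ⟨κ, h0, fun a => ?_⟩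
  obtain ⟨p, hp, c, h1, h2, h3, h4⟩ := h (Int.fract a) ⟨Int.fract_nonneg a, (Int.fract_lt_one a).le⟩
  have e := Int.fract_add_floor a
  refine ⟨p + ⌊a⌋, A.LE_int hp _, c + ⌊a⌋, by linarith, by linarith, by linarith, ?_⟩
  rw [A.nxt_int]; linarith

/-- Every ball about a point of `Λ` contains a whole gap of definite length. -/
theorem whole (ρ : ℝ) (hρ : 0 < ρ) : ∃ κ > 0, ∀ z ∈ A.Λ, ∃ p ∈ LE A.Λ, |p - z| ≤ ρ ∧
    |nxt A.Λ p - z| ≤ ρ ∧ κ ≤ A.len p := by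
  obtain ⟨κ, h0, h⟩ := unif (P := fun κ z => z ∈ A.Λ → ∃ p ∈ LE A.Λ, |p - z| ≤ ρ ∧
      |nxt A.Λ p - z| ≤ ρ ∧ κ ≤ A.len p) (by
        rintro κ κ' y - h H hy
        obtain ⟨p, hp, h1, h2, h3⟩ := H hy
        exact ⟨p, hp, h1, h2, by linarith⟩)
    (isCompact_Icc (a := (0 : ℝ)) (b := 1)) (by
      intro x _
      by_cases hx : x ∈ A.Λ
      · obtain ⟨y, hy, hne, hd⟩ := A.perf x hx (ρ / 2) (by linarith)
        have key : ∀ a b, a ∈ A.Λ → b ∈ A.Λ → a < b → ∃ p ∈ LE A.Λ, a ≤ p ∧ nxt A.Λ p ≤ b := by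
          intro a b ha hb hab
          obtain ⟨u, h1, h2, hu⟩ := A.nd a b hab
          obtain ⟨p, hp, h3, h4⟩ := A.exists_gap hu
          exact ⟨p, hp, A.le_of_lt_nxt ha (by linarith), A.nxt_le hb (by linarith)⟩
        rw [abs_lt] at hd
        have : ∃ p ∈ LE A.Λ, x - ρ / 2 ≤ p ∧ nxt A.Λ p ≤ x + ρ / 2 := by
          rcases lt_or_gt_of_ne hne with h | h
          · obtain ⟨p, hp, h1, h2⟩ := key y x hy hx h
            exact ⟨p, hp, by linarith, by linarith⟩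
          · obtain ⟨p, hp, h1, h2⟩ := key x y hx hy h
            exact ⟨p, hp, by linarith, by linarith⟩
        obtain ⟨p, hp, h1, h2⟩ := this
        refine ⟨A.len p, A.len_pos hp, ?_⟩
        filter_upwards [Ioo_mem_nhds (show x - ρ / 2 < x by linarith)
          (show x < x + ρ / 2 by linarith)] with y hy _
        have := A.lt_nxt hp
        refine ⟨p, hp, ?_, ?_, le_rfl⟩ <;> rw [abs_le] <;> constructor <;> linarith [hy.1, hy.2]
      · refine ⟨1, one_pos, ?_⟩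
        filter_upwards [A.closed.isOpen_compl.mem_nhds hx] with y hy hy'
        exact absurd hy' hy)
  refine ⟨κ, h0, fun z hz => ?_⟩
  have e := Int.fract_add_floor z
  obtain ⟨p, hp, h1, h2, h3⟩ := h (Int.fract z) ⟨Int.fract_nonneg z, (Int.fract_lt_one z).le⟩
    (by rw [← A.add_int_mem ⌊z⌋, e]; exact hz)
  refine ⟨p + ⌊z⌋, A.LE_int hp _, ?_, ?_, by rwa [A.len_int]⟩
  · rwa [show p + ⌊z⌋ - z = p - Int.fract z by linarith]
  · rwa [A.nxt_int, show nxt A.Λ p + ⌊z⌋ - z = nxt A.Λ p - Int.fract z by linarith]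

/-- Gaps modulo the integers. -/
def X : Type := ↥(LE A.Λ ∩ Ico 0 1)

/-- The class of a left end point. -/
noncomputable def cls (p : ℝ) (hp : p ∈ LE A.Λ) : A.X :=
  ⟨Int.fract p, A.fract_LE hp, Int.fract_nonneg p, Int.fract_lt_one p⟩

theorem act_fract (g : G) (x : ℝ) : Int.fract (g • Int.fract x) = Int.fract (g • x) := by
  rw [Int.fract, Int.fract, Int.fract, act_sub_int]
  simp

noncomputable instance : MulAction G A.X where
  smul g v := A.cls (g • v.1) (A.act_LE g v.2.1)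
  one_smul v := Subtype.ext (by
    show Int.fract ((1 : G) • v.1) = v.1
    rw [one_smul]; exact Int.fract_eq_self.2 v.2.2)
  mul_smul g h v := Subtype.ext (by
    show Int.fract ((g * h) • v.1) = Int.fract (g • Int.fract (h • v.1))
    rw [act_fract, mul_smul])

theorem smul_val (g : G) (v : A.X) : (g • v).1 = Int.fract (g • v.1) := rfl

theorem smul_cls (g : G) {p : ℝ} (hp : p ∈ LE A.Λ) :
    g • A.cls p hp = A.cls (g • p) (A.act_LE g hp) :=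
  Subtype.ext (act_fract g p)

theorem cls_val (v : A.X) : A.cls v.1 v.2.1 = v := Subtype.ext (Int.fract_eq_self.2 v.2.2)

theorem cls_eq_iff {p q : ℝ} (hp : p ∈ LE A.Λ) (hq : q ∈ LE A.Λ) :
    A.cls p hp = A.cls q hq ↔ ∃ n : ℤ, p = q + n := by
  have e : A.cls p hp = A.cls q hq ↔ Int.fract p = Int.fract q := Subtype.ext_iff
  rw [e, Int.fract_eq_fract]
  constructor
  · rintro ⟨n, h⟩; exact ⟨n, by linarith⟩
  · rintro ⟨n, h⟩; exact ⟨n, by linarith⟩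

theorem len_cls {p : ℝ} (hp : p ∈ LE A.Λ) : A.len (A.cls p hp).1 = A.len p := by
  show A.len (Int.fract p) = A.len p
  rw [← A.len_int (Int.fract p) ⌊p⌋, Int.fract_add_floor]

omit [SmoothAct G] in
theorem summable_len : Summable fun v : A.X => A.len v.1 := by
  refine summable_of_sum_le (c := 2) (fun v => (A.len_pos v.2.1).le) (fun T => ?_)
  have hd : PairwiseDisjoint (↑T : Set A.X) (fun v => Ioo v.1 (nxt A.Λ v.1)) := by
    intro v _ w _ hvw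
    rw [Function.onFun, Set.disjoint_left]
    intro u h1 h2
    exact hvw (Subtype.ext (A.gap_unique v.2.1.1 w.2.1.1 h1.1 h1.2 h2.1 h2.2))
  have h1 := MeasureTheory.measure_biUnion_finset (μ := MeasureTheory.volume) hd
    (fun v _ => measurableSet_Ioo)
  have h2 : (⋃ v ∈ T, Ioo v.1 (nxt A.Λ v.1)) ⊆ Ioo 0 2 := by
    intro u hu
    simp only [mem_iUnion] at hu
    obtain ⟨v, -, h⟩ := hu
    have := A.nxt_le_one v.2.1.1
    exact ⟨by linarith [h.1, v.2.2.1], by linarith [h.2, v.2.2.2]⟩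
  have h3 := MeasureTheory.measure_mono (μ := MeasureTheory.volume) h2
  rw [h1] at h3
  simp only [Real.volume_Ioo] at h3
  rw [← ENNReal.ofReal_sum_of_nonneg (fun v _ => sub_nonneg.2 (A.le_nxt _)),
    ENNReal.ofReal_le_ofReal_iff (by norm_num)] at h3
  simpa [len] using h3

omit [SmoothAct G] in
theorem big_finite {κ : ℝ} (hκ : 0 < κ) : {v : A.X | κ ≤ A.len v.1}.Finite := by
  have := A.summable_len.tendsto_cofinite_zero
  have h := this.eventually (gt_mem_nhds hκ)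
  rw [eventually_cofinite] at h
  simpa using h

theorem bigR_finite {κ : ℝ} (hκ : 0 < κ) (R : ℝ) :
    {p | p ∈ LE A.Λ ∧ κ ≤ A.len p ∧ |p| ≤ R}.Finite := by
  have h1 := (A.big_finite hκ).prod (Set.finite_Icc ⌊-R⌋ ⌊R⌋)
  refine (h1.image (fun x => x.1.1 + (x.2 : ℝ))).subset ?_
  rintro p ⟨hp, h2, h3⟩
  rw [abs_le] at h3
  refine ⟨(A.cls p hp, ⌊p⌋), ⟨?_, Int.floor_mono h3.1, Int.floor_mono h3.2⟩,
    Int.fract_add_floor p⟩
  show κ ≤ A.len (A.cls p hp).1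
  rwa [A.len_cls]

omit [SmoothAct G] in
theorem small_sum {ε : ℝ} (hε : 0 < ε) : ∃ τ > 0, ∀ T : Finset A.X, (∀ v ∈ T, A.len v.1 < τ) →
    ∑ v ∈ T, A.len v.1 ≤ ε := by
  obtain ⟨s, hs⟩ := summable_iff_vanishing_norm.1 A.summable_len ε hε
  obtain ⟨τ, h0, hτ⟩ := fin_min (↑s : Set A.X) s.finite_toSet (P := fun v κ => κ ≤ A.len v.1)
    (fun _ _ _ _ h h' => le_trans h h') (fun v _ => ⟨_, A.len_pos v.2.1, le_rfl⟩)
  refine ⟨τ, h0, fun T hT => ?_⟩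
  have := hs T (Finset.disjoint_left.2 fun v hv hv' => absurd (hτ v hv') (not_le.2 (hT v hv)))
  exact le_trans (le_abs_self _) this.le

end Cantor

end Pool.Agent.Lib.MP_173a7e_an
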