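import Pool.Agent.Lib.MP_173a7e_an.Zone

-- part Pool.Agent.Lib.MP_173a7e_an.Cover
section

/-! Non-expandable points, zones and expanding charts. -/

set_option autoImplicit false

namespace Pool.Agent.Lib.MP_173a7e_an

open Set Filter Topology

variable {G : Type} [Group G] [MulAction G ℝ]

/-- Non-expandable points of `Λ`. -/
def Cantor.NE (A : Cantor G) (x : ℝ) : Prop := x ∈ A.Λ ∧ ∀ g : G, D g x ≤ 1

/-- `Λ` accumulates at `x` on the side `s`. -/
def Cantor.Acc (A : Cantor G) (x s : ℝ) : Prop :=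
  ∀ ε > 0, ∃ u ∈ A.Λ, s * x < s * u ∧ s * u < s * x + ε

/-- `g` fixes `x` and repels on the side `s`. -/
def Pos (x s : ℝ) (g : G) : Prop :=
  g • x = x ∧ ∃ ε > 0, ∀ u, s * x < s * u → s * u < s * x + ε → s * u < s * g • u

/-- The fixing property at non-expandable points. -/
def Cantor.Star (A : Cantor G) : Prop :=
  ∀ x s, A.NE x → (s = 1 ∨ s = -1) → A.Acc x s → ∃ g : G, Pos x s g

theorem Cantor.exists_zone (A : Cantor G) {x s : ℝ} (hs : s = 1 ∨ s = -1) (ha : A.Acc x s) {g : G}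
    (hg : Pos x s g) : ∃ Z : Zone A, Z.x = x ∧ Z.s = s ∧ Z.g = g := by
  obtain ⟨h1, ε, hε, h2⟩ := hg
  obtain ⟨Y, hY, h3, h4⟩ := ha ε hε
  exact ⟨⟨x, s, g, Y, hs, h1, hY, h3, fun u h5 h6 => h2 u h5 (by linarith)⟩, rfl, rfl, rfl⟩

/-- Finitely many zones and expanding charts covering `Λ`. -/
structure Cover (A : Cantor G) where
  ι : Type
  fin : Finite ι
  Z : ι → Zone A
  n0 : ℕ
  κ : Type
  finκ : Finite κ
  f : κ → G
  a : κ → ℝ
  b : κ → ℝ
  lam : ℝ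
  K1 : ℝ
  lam_gt : 1 < lam
  K1_ge : 1 ≤ K1
  zone_ne : ∀ i, A.NE (Z i).x
  all_zones : ∀ x s, A.NE x → (s = 1 ∨ s = -1) → A.Acc x s →
    ∃ i, ∃ n : ℤ, (Z i).x = x + n ∧ (Z i).s = s
  uniq : ∀ i j m m' (n n' : ℤ) u, n0 ≤ m → n0 ≤ m' → (Z i).InD m (u + n) →
    (Z j).InD m' (u + n') → i = j ∧ n = n'
  deep_exp : ∀ i m u, n0 ≤ m → (Z i).InD m u → lam ≤ D ((Z i).g ^ m) u
  good : ∀ i m u, (Z i).InN 0 u → Good K1 u ((Z i).g⁻¹ ^ m)
  f_exp : ∀ j u, a j < u → u < b j → lam ≤ D (f j) u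
  f_lip : ∀ j, GLip K1 (f j)⁻¹
  cover : ∀ u ∈ A.Λ, ¬ A.NE u → (∃ i m, ∃ n : ℤ, n0 ≤ m ∧ (Z i).InD m (u + n)) ∨
    ∃ j, ∃ n : ℤ, a j < u + n ∧ u + n < b j
  ne_fin : {x | A.NE x ∧ x ∈ Ico (0 : ℝ) 1}.Finite

variable [SmoothAct G]

theorem Cantor.NE_int (A : Cantor G) {x : ℝ} (h : A.NE x) (n : ℤ) : A.NE (x + n) :=
  ⟨(A.add_int_mem n).2 h.1, fun g => by rw [D_int]; exact h.2 g⟩

theorem Cantor.NE_fract (A : Cantor G) {x : ℝ} (h : A.NE x) : A.NE (Int.fract x) := by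
  have := A.NE_int h (-⌊x⌋)
  simpa [Int.fract, sub_eq_add_neg] using this

omit [SmoothAct G] in
theorem Cantor.Acc_int (A : Cantor G) {x s : ℝ} (h : A.Acc x s) (n : ℤ) : A.Acc (x + n) s := by
  intro ε hε
  obtain ⟨u, hu, h1, h2⟩ := h ε hε
  exact ⟨u + n, (A.add_int_mem n).2 hu, by linarith [mul_add s x n, mul_add s u n],
    by linarith [mul_add s x n, mul_add s u n]⟩

theorem Cantor.NE.D_eq {A : Cantor G} {x : ℝ} (h : A.NE x) {g : G} (hg : g • x = x) :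
    D g x = 1 := by
  have h1 := D_inv_mul g x
  rw [hg] at h1
  have h2 := h.2 g
  have h3 := h.2 g⁻¹
  have h4 := D_pos g x
  nlinarith

theorem Zone.deep_two {A : Cantor G} (Z : Zone A) :
    ∃ n, ∀ m u, n ≤ m → Z.InD m u → 2 ≤ D (Z.g ^ m) u := by
  obtain ⟨n, hn⟩ := Z.D_small (ε := 1 / 2) (by norm_num)
  refine ⟨n, fun m u hm hu => ?_⟩
  have h1 := hn m (Z.g ^ m • u) hm (((Z.inD_pow 0 m u).2 (by simpa using hu)).inN)
  have h2 := D_inv_mul (Z.g ^ m) u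
  rw [inv_pow] at h1
  have := D_pos (Z.g ^ m) u
  nlinarith

theorem Zone.near {A : Cantor G} (Z : Zone A) (n : ℕ) {u : ℝ} (h1 : Z.s * Z.x < Z.s * u)
    (h2 : Z.s * u < Z.s * Z.pt (n + 1)) : ∃ m, n ≤ m ∧ Z.InD m u := by
  obtain ⟨m, hm⟩ := Z.exists_level h1 (le_trans h2.le (Z.pt_anti (by omega)))
  refine ⟨m, ?_, hm⟩
  by_contra hc
  have := Z.pt_anti (show m + 2 ≤ n + 1 by omega)
  linarith [hm.1]

theorem Cantor.exists_cover (A : Cantor G) (Q : Zone A → Prop)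
    (hZ : ∀ x s, A.NE x → (s = 1 ∨ s = -1) → A.Acc x s → ∃ Z : Zone A, Z.x = x ∧ Z.s = s ∧ Q Z) :
    ∃ C : Cover A, ∀ i, Q (C.Z i) := by
  classical
  choose Z0 hZ0 using fun (i : {i : ℝ × ℝ // A.NE i.1 ∧ (i.2 = 1 ∨ i.2 = -1) ∧ A.Acc i.1 i.2}) =>
    hZ i.1.1 i.1.2 i.2.1 i.2.2.1 i.2.2.2
  have loc : ∀ x, A.NE x → ∀ n : {i : ℝ × ℝ // A.NE i.1 ∧ (i.2 = 1 ∨ i.2 = -1) ∧ A.Acc i.1 i.2} → ℕ,
      ∃ ε > 0, ∀ u ∈ A.Λ, |u - x| < ε → u = x ∨ ∃ i : {i : ℝ × ℝ // A.NE i.1 ∧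
        (i.2 = 1 ∨ i.2 = -1) ∧ A.Acc i.1 i.2}, i.1.1 = x ∧ ∃ m, n i ≤ m ∧ (Z0 i).InD m u := by
    intro x hx n
    have side : ∀ s : ℝ, (s = 1 ∨ s = -1) → ∃ ε > 0, ∀ u ∈ A.Λ, s * x < s * u → s * u < s * x + ε →
        ∃ i : {i : ℝ × ℝ // A.NE i.1 ∧ (i.2 = 1 ∨ i.2 = -1) ∧ A.Acc i.1 i.2}, i.1.1 = x ∧
          ∃ m, n i ≤ m ∧ (Z0 i).InD m u := by
      intro s hs
      by_cases ha : A.Acc x s
      · let i : {i : ℝ × ℝ // A.NE i.1 ∧ (i.2 = 1 ∨ i.2 = -1) ∧ A.Acc i.1 i.2} := ⟨(x, s), hx, hs, ha⟩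
        have e1 : (Z0 i).x = x := (hZ0 i).1
        have e2 : (Z0 i).s = s := (hZ0 i).2.1
        refine ⟨s * (Z0 i).pt (n i + 1) - s * x, ?_, fun u _ h1 h2 => ⟨i, rfl, ?_⟩⟩
        · have := (Z0 i).pt_pos (n i + 1); rw [e1, e2] at this; linarith
        · exact (Z0 i).near (n i) (by rw [e1, e2]; exact h1) (by rw [e2]; linarith)
      · unfold Cantor.Acc at ha
        push Not at ha
        obtain ⟨ε, hε, h⟩ := ha
        exact ⟨ε, hε, fun u hu h1 h2 => absurd (h u hu h1) (not_le.2 h2)⟩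
    obtain ⟨ε1, h1, H1⟩ := side 1 (Or.inl rfl)
    obtain ⟨ε2, h2, H2⟩ := side (-1) (Or.inr rfl)
    refine ⟨min ε1 ε2, lt_min h1 h2, fun u hu h => ?_⟩
    have := min_le_left ε1 ε2
    have := min_le_right ε1 ε2
    rw [abs_lt] at h
    rcases lt_trichotomy u x with hl | hl | hl
    · exact Or.inr (H2 u hu (by linarith) (by linarith))
    · exact Or.inl hl
    · exact Or.inr (H1 u hu (by linarith) (by linarith))
  choose n1 hn1 using fun i => (Z0 i).deep_two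
  have iso : ∀ x, A.NE x → ∃ ε > 0, ∀ u, A.NE u → |u - x| < ε → u = x := by
    intro x hx
    obtain ⟨ε, hε, h⟩ := loc x hx n1
    refine ⟨ε, hε, fun u hu h' => ?_⟩
    rcases h u hu.1 h' with e | ⟨i, -, m, hm, hi⟩
    · exact e
    · linarith [hn1 i m u hm hi, hu.2 ((Z0 i).g ^ m)]
  have hfin : {x | A.NE x ∧ x ∈ Ico (0 : ℝ) 1}.Finite := by
    have hcl : IsClosed {x | A.NE x} := by
      have : {x | A.NE x} = A.Λ ∩ ⋂ g : G, {x | D g x ≤ 1} := by
        ext x; simp [Cantor.NE]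
      rw [this]
      exact A.closed.inter (isClosed_iInter fun g => isClosed_le (cont_D g) continuous_const)
    have hc : IsCompact ({x | A.NE x} ∩ Icc (0 : ℝ) 1) := isCompact_Icc.inter_left hcl
    choose! ε hε using iso
    obtain ⟨T, hT, hcov⟩ := hc.elim_nhds_subcover (fun x => Metric.ball x (ε x))
      (fun x hx => Metric.ball_mem_nhds x (hε x hx.1).1)
    refine T.finite_toSet.subset ?_
    rintro x ⟨h1, h2⟩
    have := hcov ⟨h1, Ico_subset_Icc_self h2⟩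
    simp only [mem_iUnion] at this
    obtain ⟨y, hy, h⟩ := this
    rw [(hε y (hT y hy).1).2 x h1 (by simpa [Real.dist_eq] using h)]
    exact hy
  let ι := {i : {i : ℝ × ℝ // A.NE i.1 ∧ (i.2 = 1 ∨ i.2 = -1) ∧ A.Acc i.1 i.2} //
    i.1.1 ∈ Ico (0 : ℝ) 1}
  have hι : Finite ι := by
    have h2 : ({1, -1} : Set ℝ).Finite := by simp
    have h3 := (hfin.prod h2).to_subtype
    refine Finite.of_injective (β := ↥({x | A.NE x ∧ x ∈ Ico (0 : ℝ) 1} ×ˢ ({1, -1} : Set ℝ)))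
      (fun i => ⟨i.1.1, ⟨i.1.2.1, i.2⟩, i.1.2.2.1⟩) ?_
    intro i j h
    have h' : i.1.1 = j.1.1 := Subtype.mk.inj h
    exact Subtype.ext (Subtype.ext h')
  obtain ⟨d, hd, Hd⟩ := fin_min _ hfin (P := fun x ε => ∀ u, A.NE u → |u - x| < ε → u = x)
    (fun x ε ε' _ h H u hu h' => H u hu (by linarith)) (fun x hx => iso x hx.1)
  obtain ⟨n0, hn0⟩ := fin_max (univ : Set ι) finite_univ (P := fun i (n : ℕ) => n1 i.1 ≤ n ∧
      ∀ k, n ≤ k → (Z0 i.1).s * (Z0 i.1).pt k - (Z0 i.1).s * (Z0 i.1).x < d / 2)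
    (fun i a b hab H => ⟨le_trans H.1 hab, fun k hk => H.2 k (le_trans hab hk)⟩) (fun i _ => by
      obtain ⟨n, hn⟩ := (Z0 i.1).small (show 0 < d / 2 by linarith)
      exact ⟨max (n1 i.1) n, le_max_left _ _, fun k hk => hn k (le_trans (le_max_right _ _) hk)⟩)
  have chart : ∀ z : ℝ, ∃ f : G, ∃ r > 0, ∃ lam > 1, ((z ∈ A.Λ ∧ ¬ A.NE z) →
      ∀ u, z - r < u → u < z + r → lam ≤ D f u) ∧ (¬ (z ∈ A.Λ ∧ ¬ A.NE z) →
      ∀ u ∈ A.Λ, ¬ A.NE u → z - r < u → u < z + r →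
        ∃ i : ι, ∃ m, ∃ n : ℤ, n0 ≤ m ∧ (Z0 i.1).InD m (u + n)) := by
    intro z
    by_cases hz : z ∈ A.Λ
    · by_cases hne : A.NE z
      · obtain ⟨ε, hε, h⟩ := loc _ (A.NE_fract hne) (fun _ => n0)
        refine ⟨1, ε, hε, 2, by norm_num, fun h => absurd hne h.2, fun _ u hu hu' h1 h2 => ?_⟩
        have e := Int.fract_add_floor z
        rcases h (u + (-⌊z⌋ : ℤ)) ((A.add_int_mem _).2 hu) (by
          rw [abs_lt]; push_cast; constructor <;> linarith) with h3 | ⟨i, hi, m, hm, h3⟩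
        · exfalso; apply hu'
          have : u = z := by push_cast at h3; linarith
          rw [this]; exact hne
        · exact ⟨⟨i, by rw [hi]; exact ⟨Int.fract_nonneg _, Int.fract_lt_one _⟩⟩, m, _, hm, h3⟩
      · have : ∃ f : G, 1 < D f z := by
          by_contra hc
          push Not at hc
          exact hne ⟨hz, hc⟩
        obtain ⟨f, hf⟩ := this
        have h1 := (cont_D f).continuousAt.eventually
          (lt_mem_nhds (show (1 + D f z) / 2 < D f z by linarith))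
        obtain ⟨r, hr, h2⟩ := Metric.eventually_nhds_iff.1 h1
        refine ⟨f, r, hr, (1 + D f z) / 2, by linarith, fun _ u h3 h4 => (h2 ?_).le,
          fun h => absurd ⟨hz, hne⟩ h⟩
        rw [Real.dist_eq, abs_lt]; constructor <;> linarith
    · obtain ⟨r, hr, h2⟩ := Metric.isOpen_iff.1 A.closed.isOpen_compl z hz
      refine ⟨1, r, hr, 2, by norm_num, fun h => absurd h.1 hz, fun _ u hu _ h3 h4 => ?_⟩
      exact absurd hu (h2 (by rw [Metric.mem_ball, Real.dist_eq, abs_lt]; constructor <;> linarith))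
  choose f r hr lam hlam hch using chart
  obtain ⟨T, -, hcov⟩ := (isCompact_Icc (a := (0 : ℝ)) (b := 1)).elim_nhds_subcover
    (fun z => Ioo (z - r z) (z + r z))
    (fun z _ => Ioo_mem_nhds (by linarith [hr z]) (by linarith [hr z]))
  obtain ⟨μ, hμ, Hμ⟩ := fin_min _ T.finite_toSet (P := fun z μ => 1 + μ ≤ lam z)
    (fun z a b _ h H => by linarith) (fun z _ => ⟨lam z - 1, by linarith [hlam z], by linarith⟩)
  obtain ⟨L, hL1, hL⟩ := finite_bounds _ (T.finite_toSet.image (fun z => (f z)⁻¹))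
  obtain ⟨K, hK⟩ := fin_max (univ : Set ι) finite_univ (P := fun i (K : ℝ) =>
      ∀ m u, (Z0 i.1).InN 0 u → Good K u ((Z0 i.1).g⁻¹ ^ m))
    (fun i a b hab H m u hu => (H m u hu).mono hab) (fun i _ => (Z0 i.1).good_inv)
  refine ⟨⟨ι, hι, fun i => Z0 i.1, n0, {z // z ∈ T ∧ z ∈ A.Λ ∧ ¬ A.NE z}, ?_, fun z => f z.1,
    fun z => z.1 - r z.1, fun z => z.1 + r z.1, min 2 (1 + μ), max L K,
    lt_min (by norm_num) (by linarith), le_trans hL1 (le_max_left _ _), ?_, ?_, ?_, ?_, ?_, ?_, ?_,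
    ?_, hfin⟩, fun i => (hZ0 i.1).2.2⟩
  · exact (T.finite_toSet.subset (fun z hz => hz.1)).to_subtype
  · intro i; rw [(hZ0 i.1).1]; exact i.1.2.1
  · intro x s hx hs ha
    have e : Int.fract x = x + (-⌊x⌋ : ℤ) := by push_cast; rfl
    refine ⟨⟨⟨(Int.fract x, s), A.NE_fract hx, hs, by rw [e]; exact A.Acc_int ha _⟩,
      Int.fract_nonneg _, Int.fract_lt_one _⟩, -⌊x⌋, ?_, (hZ0 _).2.1⟩
    rw [(hZ0 _).1]; exact e
  · intro i j m m' n n' u hm hm' h h'
    have a1 := lt_of_le_of_lt h.inN.abs ((hn0 i trivial).2 m hm)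
    have a2 := lt_of_le_of_lt h'.inN.abs ((hn0 j trivial).2 m' hm')
    have b1 := h.pos
    have b2 := h'.pos
    rw [(hZ0 _).1] at a1 a2
    rw [(hZ0 _).1, (hZ0 _).2.1] at b1 b2
    have c := Hd i.1.1.1 ⟨i.1.2.1, i.2⟩ (j.1.1.1 + (n - n' : ℤ)) (A.NE_int j.1.2.1 _) (by
      rw [abs_lt] at *; push_cast; constructor <;> linarith)
    have hn : n = n' := by
      have h1 := i.2.1; have h2 := i.2.2; have h3 := j.2.1; have h4 := j.2.2
      have h5 : ((n - n' : ℤ) : ℝ) < 1 := by linarith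
      have h6 : (-1 : ℝ) < ((n - n' : ℤ) : ℝ) := by linarith
      have h7 : n - n' < 1 := by exact_mod_cast h5
      have h8 : -1 < n - n' := by exact_mod_cast h6
      omega
    subst hn
    refine ⟨Subtype.ext (Subtype.ext (Prod.ext ?_ ?_)), rfl⟩
    · simpa using c.symm
    · simp only [sub_self, Int.cast_zero, add_zero] at c
      rw [c] at b2
      rcases i.1.2.2.1 with e1 | e1 <;> rcases j.1.2.2.1 with e2 | e2 <;> rw [e1] at b1 <;>
        rw [e2] at b2 <;> linarith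
  · intro i m u hm hu
    exact le_trans (min_le_left _ _) (hn1 i.1 m u (le_trans (hn0 i trivial).1 hm) hu)
  · intro i m u hu; exact (hK i trivial m u hu).mono (le_max_right _ _)
  · intro j u h1 h2
    exact le_trans (min_le_right _ _) (le_trans (Hμ j.1 j.2.1) ((hch j.1).1 j.2.2 u h1 h2))
  · intro j; exact (hL _ ⟨j.1, j.2.1, rfl⟩).1.mono (le_max_left _ _)
  · intro u hu hne
    have := hcov (show Int.fract u ∈ Icc (0 : ℝ) 1 from ⟨Int.fract_nonneg _, (Int.fract_lt_one _).le⟩)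
    simp only [mem_iUnion] at this
    obtain ⟨z, hz, h⟩ := this
    have e : Int.fract u = u + (-⌊u⌋ : ℤ) := by push_cast; rfl
    by_cases hc : z ∈ A.Λ ∧ ¬ A.NE z
    · exact Or.inr ⟨⟨z, hz, hc⟩, -⌊u⌋, by rw [← e]; exact h.1, by rw [← e]; exact h.2⟩
    · obtain ⟨i, m, n, h1, h2⟩ := (hch z).2 hc _ (by rw [e]; exact (A.add_int_mem _).2 hu)
        (fun h' => hne (by simpa using A.NE_int h' ⌊u⌋)) h.1 h.2
      refine Or.inl ⟨i, m, -⌊u⌋ + n, h1, ?_⟩
      rw [e] at h2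
      convert h2 using 1
      push_cast; ring

theorem Cantor.Star.cover {A : Cantor G} (h : A.Star) : Nonempty (Cover A) := by
  obtain ⟨C, -⟩ := A.exists_cover (fun _ => True) (fun x s hx hs ha => by
    obtain ⟨g, hg⟩ := h x s hx hs ha
    obtain ⟨Z, h1, h2, -⟩ := A.exists_zone hs ha hg
    exact ⟨Z, h1, h2, trivial⟩)
  exact ⟨C⟩

end Pool.Agent.Lib.MP_173a7e_an
end

-- part Pool.Agent.Lib.MP_173a7e_an.Rig
section

/-! Expansion of intervals and rigidity. -/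

set_option autoImplicit false

namespace Pool.Agent.Lib.MP_173a7e_an

open Set Filter Topology

variable {G : Type} [Group G] [MulAction G ℝ] [SmoothAct G] {A : Cantor G}

theorem Cover.step (C : Cover A) {z : ℝ} (hz : z ∈ A.Λ) (hne : ¬ A.NE z) :
    ∃ f : G, C.lam ≤ D f z ∧ Good C.K1 (f • z) f⁻¹ := by
  rcases C.cover z hz hne with ⟨i, m, n, hm, h⟩ | ⟨j, n, h1, h2⟩
  · refine ⟨(C.Z i).g ^ m, by rw [← D_int _ z n]; exact C.deep_exp i m _ hm h, ?_⟩
    have := (C.good i m _ (((C.Z i).inD_pow 0 m _).2 (by simpa using h)).inN).shift (-n)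
    rw [act_int, inv_pow] at this
    simpa using this
  · exact ⟨C.f j, by rw [← D_int _ z n]; exact C.f_exp j _ h1 h2, (C.f_lip j).good C.K1_ge _⟩

theorem Cover.nstep (C : Cover A) : ∃ η > 0, ∃ B : ℝ, ∀ x, A.NE x → ∀ z ∈ A.Λ, x < z → z - x < η →
    ∃ f : G, f • x = x ∧ η ≤ f • z - x ∧ Good C.K1 (f • z) f⁻¹ ∧ D f⁻¹ (f • z) ≤ B := by
  have := C.fin
  obtain ⟨η1, h1, H1⟩ := fin_min (univ : Set C.ι) finite_univ
    (P := fun i η => η ≤ (C.Z i).s * (C.Z i).pt 2 - (C.Z i).s * (C.Z i).x)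
    (fun i a b _ h H => le_trans h H) (fun i _ => ⟨_, sub_pos.2 ((C.Z i).pt_pos 2), le_rfl⟩)
  obtain ⟨η2, h2, H2⟩ := fin_min _ C.ne_fin
    (P := fun x η => ¬ A.Acc x 1 → ∀ u ∈ A.Λ, x < u → x + η ≤ u)
    (fun i a b _ h H h' u hu h'' => by linarith [H h' u hu h'']) (fun x _ => by
      by_cases ha : A.Acc x 1
      · exact ⟨1, one_pos, fun h => absurd ha h⟩
      · unfold Cantor.Acc at ha
        push Not at ha
        obtain ⟨ε, hε, h⟩ := ha
        exact ⟨ε, hε, fun _ u hu h' => by simpa using h u hu (by simpa using h')⟩)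
  obtain ⟨B, hB⟩ := fin_max (univ : Set C.ι) finite_univ
    (P := fun i (B : ℝ) => ∀ m u, (C.Z i).InN 0 u → D ((C.Z i).g⁻¹ ^ m) u ≤ B)
    (fun i a b h H m u hu => le_trans (H m u hu) h) (fun i _ => (C.Z i).D_bdd)
  refine ⟨min η1 η2, lt_min h1 h2, B, fun x hx z hz hxz hη => ?_⟩
  have m1 := min_le_left η1 η2
  have m2 := min_le_right η1 η2
  by_cases ha : A.Acc x 1
  · obtain ⟨i, n, e1, e2⟩ := C.all_zones x 1 hx (Or.inl rfl) ha
    have h3 := H1 i trivial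
    have h4 := (C.Z i).pt_step 1
    obtain ⟨m, hm⟩ := (C.Z i).exists_level (u := z + n) (by rw [e1, e2]; linarith)
      (by rw [e1, e2] at h3; rw [e2] at h4 ⊢; norm_num at h4 ⊢; linarith)
    have h5 := ((C.Z i).inD_pow 0 m _).2 (by simpa using hm)
    have h6 := (C.good i m _ h5.inN).shift (-n)
    have h7 := hB i trivial m _ h5.inN
    have h8 := h5.1
    have h9 := (C.Z i).fix_zpow m
    rw [act_int, inv_pow] at h6 h7
    rw [D_int] at h7
    rw [act_int, e2] at h8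
    rw [e1, e2] at h3
    rw [e1, act_int, zpow_natCast] at h9
    refine ⟨(C.Z i).g ^ m, by linarith, by norm_num at h8 h3; linarith, by simpa using h6, h7⟩
  · exfalso
    have e := Int.fract_add_floor x
    have := H2 (Int.fract x) ⟨A.NE_fract hx, Int.fract_nonneg _, Int.fract_lt_one _⟩
      (fun h => ha (by rw [← e]; exact A.Acc_int h _)) (z - ⌊x⌋) ((A.sub_int_mem _).2 hz)
      (by linarith)
    linarith

theorem Cover.expand (C : Cover A) : ∃ K η : ℝ, 0 < η ∧ η ≤ 1 / K ∧ ∀ p ∈ A.Λ, ∀ q ∈ A.Λ, p < q →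
    ∃ (φ : G) (z0 z1 : ℝ), |z1 - z0| = η ∧ Good K z0 φ ∧ (φ • z0 = p ∨ φ • z0 = q) ∧
      φ • z1 ∈ Icc p q := by
  obtain ⟨K0, hK0, P, hP1, hP2, hP3⟩ := chain_const (G := G) C.lam_gt C.K1_ge
  obtain ⟨η1, hη1, B, H⟩ := C.nstep
  have hK1 := C.K1_ge
  set K := max K0 (C.K1 + 3 * B * (2 * K0)) with hK
  have hK0K : K0 ≤ K := le_max_left _ _
  set η := min η1 (1 / (2 * K)) with hη
  have hη0 : 0 < η := lt_min hη1 (by have : 0 < K := by linarith
                                     positivity)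
  have hηa : η ≤ η1 := min_le_left _ _
  have hηb : η ≤ 1 / (2 * K0) := le_trans (min_le_right _ _)
    (one_div_le_one_div_of_le (by linarith) (by linarith))
  have hηc : η ≤ 1 / K := le_trans (min_le_right _ _)
    (one_div_le_one_div_of_le (by linarith) (by linarith))
  have hηd : η ≤ 1 / K0 := le_trans hηb (one_div_le_one_div_of_le (by linarith) (by linarith))
  refine ⟨K, η, hη0, hηc, fun p hp q hq hpq => ?_⟩
  by_contra hc
  have big : ∀ h, P h p → h • q - h • p < η := by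
    intro h hP
    by_contra hb
    apply hc
    refine ⟨h⁻¹, h • p, h • p + η, by simp [abs_of_pos hη0], (hP3 h p hP).mono hK0K,
      Or.inl (inv_smul_smul _ _), ?_, ?_⟩
    · rw [← act_le h, smul_inv_smul]; linarith
    · rw [← act_le h, smul_inv_smul]; linarith
  have main : ∀ n : ℕ, ∃ h, P h p ∧ C.lam ^ n ≤ D h p := by
    intro n
    induction n with
    | zero => exact ⟨1, hP1 p, by simp [D_one]⟩
    | succ n ih =>
      obtain ⟨h, hP, hD⟩ := ih
      by_cases hne : A.NE (h • p)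
      · exfalso
        have hlt : h • p < h • q := (act_lt h).2 hpq
        obtain ⟨f, e, h1, h2, h3⟩ := H _ hne (h • q) (A.inv _ _ hq) hlt
          (by linarith [big h hP])
        apply hc
        have h4 : Good (2 * K0) (f⁻¹ • f • h • q) h⁻¹ := by
          rw [inv_smul_smul]
          exact (hP3 h p hP).move (by
            rw [abs_of_pos (sub_pos.2 hlt)]; linarith [big h hP])
        refine ⟨h⁻¹ * f⁻¹, f • h • q, f • h • q - η, by simp [abs_of_pos hη0],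
          (h2.comp h4 h3).mono (le_max_right _ _), Or.inr (by simp [mul_smul]), ?_, ?_⟩
        · rw [mul_smul, ← act_le h, smul_inv_smul, ← act_le f, smul_inv_smul, e]; linarith
        · rw [mul_smul, ← act_le h, smul_inv_smul, ← act_le f, smul_inv_smul]; linarith
      · obtain ⟨f, h1, h2⟩ := C.step (A.inv h p hp) hne
        refine ⟨f * h, hP2 h p f hP h1 h2, ?_⟩
        rw [D_mul, pow_succ']
        exact mul_le_mul h1 hD (pow_nonneg (by linarith [C.lam_gt]) _) (D_pos _ _).le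
  obtain ⟨n, hn⟩ := pow_unbounded_of_one_lt (3 * η / (q - p)) C.lam_gt
  obtain ⟨h, hP, hD⟩ := main n
  have hlt : h • p < h • q := (act_lt h).2 hpq
  have h1 := (hP3 h p hP).len_le (u := h • q) (v := h • p)
    (by rw [abs_of_pos (sub_pos.2 hlt)]; linarith [big h hP]) (by simp; linarith)
  rw [inv_smul_smul, inv_smul_smul, abs_of_pos (sub_pos.2 hpq), abs_of_pos (sub_pos.2 hlt),
    D_inv] at h1
  rw [div_lt_iff₀ (sub_pos.2 hpq)] at hn
  have h2 := big h hP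
  have h3 := D_pos h p
  have h4 : D h p * (q - p) ≤ 3 * (h • q - h • p) := by
    have := mul_le_mul_of_nonneg_left h1 h3.le
    rwa [show D h p * (3 * (D h p)⁻¹ * (h • q - h • p)) = 3 * (h • q - h • p) by field_simp] at this
  nlinarith [mul_le_mul_of_nonneg_right hD (sub_pos.2 hpq).le]

/-- Rigidity: a map close to the identity between two fixed points is the identity on `Λ`. -/
theorem Cantor.Star.rigid (hA : A.Star) : ∃ ε > 0, ∀ (δ : G) (p q : ℝ), p ∈ A.Λ → q ∈ A.Λ →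
    δ • p = p → δ • q = q → (∀ u ∈ uIcc p q, |lg δ u| ≤ ε) → ∀ y ∈ A.Λ, y ∈ uIcc p q →
    δ • y = y := by
  obtain ⟨C⟩ := hA.cover
  obtain ⟨K, η, hη, hηK, H⟩ := C.expand
  obtain ⟨ε, hε, F⟩ := A.fix_gap hη hηK
  refine ⟨ε, hε, ?_⟩
  have main : ∀ (δ : G) (p q : ℝ), p ≤ q → p ∈ A.Λ → q ∈ A.Λ →
      δ • p = p → δ • q = q → (∀ u ∈ Icc p q, |lg δ u| ≤ ε) → ∀ y ∈ A.Λ, y ∈ Icc p q →
      δ • y = y := by
    intro δ p q hpq hp hq e1 e2 hδ y hy hy'
    by_contra hc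
    have hcl : IsClosed (A.Λ ∩ {u | δ • u = u}) :=
      A.closed.inter (isClosed_eq (cont_smul δ) continuous_id)
    have b1 : BddAbove (A.Λ ∩ {u | δ • u = u} ∩ Iic y) := ⟨y, fun _ h => h.2⟩
    have b2 : BddBelow (A.Λ ∩ {u | δ • u = u} ∩ Ici y) := ⟨y, fun _ h => h.2⟩
    have n1 : p ∈ A.Λ ∩ {u | δ • u = u} ∩ Iic y := ⟨⟨hp, e1⟩, hy'.1⟩
    have n2 : q ∈ A.Λ ∩ {u | δ • u = u} ∩ Ici y := ⟨⟨hq, e2⟩, hy'.2⟩
    have m1 := (hcl.inter isClosed_Iic).csSup_mem ⟨p, n1⟩ b1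
    have m2 := (hcl.inter isClosed_Ici).csInf_mem ⟨q, n2⟩ b2
    have l1 := le_csSup b1 n1
    have l2 := csInf_le b2 n2
    set P := sSup (A.Λ ∩ {u | δ • u = u} ∩ Iic y)
    set Q := sInf (A.Λ ∩ {u | δ • u = u} ∩ Ici y)
    have hPy : P < y := lt_of_le_of_ne m1.2 (fun e => hc (e ▸ m1.1.2))
    have hyQ : y < Q := lt_of_le_of_ne m2.2 (fun e => hc (e ▸ m2.1.2))
    obtain ⟨φ, z0, z1, h1, h2, h3, h4⟩ := H P m1.1.1 Q m2.1.1 (by linarith)
    have h5 : φ • z0 ∈ Icc P Q := by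
      rcases h3 with h | h <;> rw [h] <;> constructor <;> linarith
    have h6 : uIcc (φ • z0) (φ • z1) ⊆ Icc P Q := uIcc_subset_Icc h5 h4
    obtain ⟨r, hr, e, u, hu, h7, h8⟩ := F φ δ z0 z1 h1 h2
      (fun u hu => hδ u ⟨by linarith [(h6 hu).1], by linarith [(h6 hu).2]⟩) (by
        have : δ • φ • z0 = φ • z0 := by
          rcases h3 with h | h <;> rw [h]
          · exact m1.1.2
          · exact m2.1.2
        rw [this]; simp; exact mul_nonneg hε.le (D_pos _ _).le)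
    have a1 : P ≤ r := A.le_of_lt_nxt m1.1.1 (by linarith [(h6 hu).1])
    have a2 : nxt A.Λ r ≤ Q := A.nxt_le m2.1.1 (by linarith [(h6 hu).2])
    have e' : δ • nxt A.Λ r = nxt A.Λ r := by rw [← A.nxt_act, e]
    rcases le_or_gt y r with h | h
    · have : Q ≤ r := csInf_le b2 ⟨⟨hr.1, e⟩, h⟩
      linarith
    · have h9 := A.nxt_le hy h
      have : nxt A.Λ r ≤ P := le_csSup b1 ⟨⟨A.nxt_mem r, e'⟩, h9⟩
      linarith
  intro δ p q hp hq e1 e2 hδ y hy hy'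
  rcases le_total p q with h | h
  · rw [uIcc_of_le h] at hδ hy'; exact main δ p q h hp hq e1 e2 hδ y hy hy'
  · rw [uIcc_of_ge h] at hδ hy'; exact main δ q p h hq hp e2 e1 hδ y hy hy'

/-- Points in the orbit of a non-expandable point are reached with bounded distortion. -/
theorem Cantor.Star.rep (hA : A.Star) {x : ℝ} (hx : A.NE x) :
    ∃ K, ∀ β : G, ∃ γ : G, γ • x = β • x ∧ Good K x γ := by
  obtain ⟨C⟩ := hA.cover
  obtain ⟨K0, hK0, P, hP1, hP2, hP3⟩ := chain_const (G := G) C.lam_gt C.K1_ge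
  obtain ⟨L, hL⟩ := fin_max _ C.ne_fin (P := fun y (L : ℝ) => (∃ θ : G, θ • x = y) →
      ∃ θ : G, θ • x = y ∧ Good L x θ)
    (fun y a b hab H h => by obtain ⟨θ, h1, h2⟩ := H h; exact ⟨θ, h1, h2.mono hab⟩) (fun y _ => by
      by_cases h : ∃ θ : G, θ • x = y
      · obtain ⟨θ, hθ⟩ := h
        obtain ⟨L, -, hL⟩ := exists_gLip θ
        exact ⟨max 1 L, fun _ => ⟨θ, hθ, (hL.mono (le_max_right _ _)).good (le_max_left _ _) _⟩⟩
      · exact ⟨1, fun h' => absurd h' h⟩)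
  refine ⟨L + 3 * 1 * K0, fun β => ?_⟩
  have main : ∃ h, P h (β • x) ∧ A.NE (h • β • x) := by
    by_contra hc
    push Not at hc
    have main : ∀ n : ℕ, ∃ h, P h (β • x) ∧ C.lam ^ n ≤ D h (β • x) := by
      intro n
      induction n with
      | zero => exact ⟨1, hP1 _, by simp [D_one]⟩
      | succ n ih =>
        obtain ⟨h, hP, hD⟩ := ih
        obtain ⟨f, h1, h2⟩ := C.step (A.inv h _ (A.inv β x hx.1)) (hc h hP)
        refine ⟨f * h, hP2 h _ f hP h1 h2, ?_⟩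
        rw [D_mul, pow_succ']
        exact mul_le_mul h1 hD (pow_nonneg (by linarith [C.lam_gt]) _) (D_pos _ _).le
    obtain ⟨n, hn⟩ := pow_unbounded_of_one_lt (1 / D β x) C.lam_gt
    obtain ⟨h, -, hD⟩ := main n
    have h1 := hx.2 (h * β)
    rw [D_mul] at h1
    rw [div_lt_iff₀ (D_pos _ _)] at hn
    nlinarith [mul_le_mul_of_nonneg_right hD (D_pos β x).le]
  obtain ⟨h, hP, hne⟩ := main
  have e := Int.fract_add_floor (h • β • x)
  obtain ⟨θ, h1, h2⟩ := hL (Int.fract (h • β • x)) ⟨A.NE_fract hne, Int.fract_nonneg _,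
    Int.fract_lt_one _⟩ ⟨A.t ^ (-⌊h • β • x⌋) * h * β, by
      rw [mul_smul, mul_smul, A.tz_smul]; push_cast; linarith⟩
  have e2 : (A.t ^ ⌊h • β • x⌋ * θ) • x = h • β • x := by rw [mul_smul, A.tz_smul, h1, e]
  refine ⟨h⁻¹ * (A.t ^ ⌊h • β • x⌋ * θ), by rw [mul_smul, e2, inv_smul_smul], ?_⟩
  exact (A.good_tz_mul _ h2).comp (by rw [e2]; exact hP3 h _ hP) (hx.2 _)

end Pool.Agent.Lib.MP_173a7e_an
end

-- part Pool.Agent.Lib.MP_173a7e_an.Nuc
section

/-! Finite nucleus, packing and excursions. -/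

set_option autoImplicit false

namespace Pool.Agent.Lib.MP_173a7e_an

open Set Filter Topology

variable {G : Type} [Group G] [MulAction G ℝ] [SmoothAct G] {A : Cantor G}

theorem Cantor.Star.nucleus (hA : A.Star) {K : ℝ} (hK : 1 ≤ K) : ∃ Φ : Set G, Φ.Finite ∧ ∃ ρ > 0,
    ∀ z ∈ A.Λ, ∀ h : G, Good K z h → 1 / K ≤ D h z →
      ∃ ψ ∈ Φ, ∃ n : ℤ, ∀ y ∈ A.Λ, |y - z| ≤ ρ → h • y = ψ • y + n := by
  classical
  obtain ⟨ε, hε, R⟩ := hA.rigid
  have hK0 : 0 < K := by linarith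
  set r := min (1 / K) (ε / (4 * K)) with hr
  have hr0 : 0 < r := lt_min (by positivity) (by positivity)
  have hr1 : r ≤ 1 / K := min_le_left _ _
  have hr2 : K * (2 * r) ≤ ε / 2 := by
    have : r ≤ ε / (4 * K) := min_le_right _ _
    rw [le_div_iff₀ (by positivity)] at this
    linarith
  have hr3 : r ≤ 1 := le_trans hr1 (by rw [div_le_one hK0]; exact hK)
  obtain ⟨κ, hκ, H⟩ := A.piece (r / 2) (by linarith)
  have hB := A.bigR_finite (κ := κ / (3 * K)) (by positivity) 3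
  set B := {p | p ∈ LE A.Λ ∧ κ / (3 * K) ≤ A.len p ∧ |p| ≤ 3}
  let Typ : (ℝ × ℝ) × (ℝ × ℝ) → G → Prop := fun τ h => h • τ.1.1 = τ.2.1 ∧ h • τ.1.2 = τ.2.2 ∧
    ∀ u ∈ uIcc (nxt A.Λ τ.1.1) τ.1.2, ∀ v ∈ uIcc (nxt A.Λ τ.1.1) τ.1.2, |lg h u - lg h v| ≤ ε / 2
  have hch : ∀ τ, ∃ ψ : G, (∃ h, Typ τ h) → Typ τ ψ := fun τ => by
    by_cases h : ∃ h, Typ τ h
    · exact ⟨h.choose, fun _ => h.choose_spec⟩
    · exact ⟨1, fun h' => absurd h' h⟩
  choose ψ hψ using hch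
  refine ⟨ψ '' ((B ×ˢ B) ×ˢ (B ×ˢ B)), ((hB.prod hB).prod (hB.prod hB)).image _, r / 2,
    by linarith, ?_⟩
  have main : ∀ z ∈ A.Λ, ∀ h : G, Good K z h → 1 / K ≤ D h z → z ∈ Ico (0 : ℝ) 1 →
      h • z ∈ Ico (0 : ℝ) 1 → ∃ ψ' ∈ ψ '' ((B ×ˢ B) ×ˢ (B ×ˢ B)),
        ∀ y ∈ A.Λ, |y - z| ≤ r / 2 → h • y = ψ' • y := by
    intro z hz h hg hD hz1 hz2
    obtain ⟨p1, hp1, c1, a1, a2, a3, a4⟩ := H (z - r)
    obtain ⟨p2, hp2, c2, b1, b2, b3, b4⟩ := H (z + r / 2)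
    have q1 : nxt A.Λ p1 ≤ z := A.nxt_le hz (by linarith)
    have q2 : z ≤ p2 := A.le_of_lt_nxt hz (by linarith)
    have q3 := A.nxt_le_one hp1.1
    have hκ' : κ / (3 * K) ≤ κ := div_le_self hκ.le (by linarith)
    have img : ∀ p c, p ≤ c → c + κ ≤ nxt A.Λ p → |c - z| ≤ r → |c + κ - z| ≤ r →
        κ / (3 * K) ≤ A.len (h • p) := by
      intro p c h1 h2 h3 h4
      have h5 := hg.le_len (le_trans h4 hr1) (le_trans h3 hr1)
      have h6 : h • c < h • (c + κ) := (act_lt h).2 (by linarith)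
      rw [abs_of_pos (sub_pos.2 h6), add_sub_cancel_left, abs_of_pos hκ] at h5
      have h7 := (act_le h).2 h1
      have h8 := (act_le h).2 h2
      unfold Cantor.len
      rw [A.nxt_act, div_le_iff₀ (by positivity)]
      rw [div_le_iff₀ hK0] at hD
      nlinarith [mul_le_mul_of_nonneg_right h5 hK0.le, mul_le_mul_of_nonneg_right hD hκ.le]
    have e1 : h • (z - 2) = h • z - 2 := by simpa using act_sub_int h z 2
    have e2 : h • (z + 1) = h • z + 1 := SmoothAct.per h z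
    have hl1 := A.lt_nxt hp1
    have c1' : h • (z - 2) ≤ h • p1 := (act_le h).2 (by linarith)
    have c2' : h • p1 ≤ h • z := (act_le h).2 (by linarith)
    have c3' : h • z ≤ h • p2 := (act_le h).2 q2
    have c4' : h • p2 ≤ h • (z + 1) := (act_le h).2 (by linarith)
    have hT : Typ ((p1, p2), (h • p1, h • p2)) h := by
      refine ⟨rfl, rfl, fun u hu v hv => ?_⟩
      have k1 : |nxt A.Λ p1 - z| ≤ r := by rw [abs_le]; constructor <;> linarith
      have k2 : |p2 - z| ≤ r := by rw [abs_le]; constructor <;> linarith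
      have k3 := uIcc_abs hu k1 k2
      have k4 := uIcc_abs hv k1 k2
      refine le_trans (hg.2 u v (le_trans k3 hr1) (le_trans k4 hr1)) (le_trans ?_ hr2)
      refine mul_le_mul_of_nonneg_left ?_ hK0.le
      rw [abs_le] at *; constructor <;> linarith
    obtain ⟨t1, t2, t3⟩ := hψ _ ⟨h, hT⟩
    set χ := ψ ((p1, p2), (h • p1, h • p2))
    refine ⟨χ, ⟨_, ⟨⟨⟨hp1, ?_, ?_⟩, ⟨hp2, ?_, ?_⟩⟩, ⟨⟨A.act_LE h hp1, ?_, ?_⟩,
      ⟨A.act_LE h hp2, ?_, ?_⟩⟩⟩, rfl⟩, fun y hy hy' => ?_⟩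
    · unfold Cantor.len; simp only; linarith
    · rw [abs_le]; constructor <;> simp only <;> linarith [hz1.1, hz1.2]
    · unfold Cantor.len; simp only; linarith
    · rw [abs_le]; constructor <;> simp only <;> linarith [hz1.1, hz1.2]
    · exact img p1 c1 a3 a4 (by rw [abs_le]; constructor <;> linarith)
        (by rw [abs_le]; constructor <;> linarith)
    · rw [abs_le]; constructor <;> simp only <;> linarith [hz2.1, hz2.2]
    · exact img p2 c2 b3 b4 (by rw [abs_le]; constructor <;> linarith)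
        (by rw [abs_le]; constructor <;> linarith)
    · rw [abs_le]; constructor <;> simp only <;> linarith [hz2.1, hz2.2]
    · simp only at t1 t2 t3
      have f1 : (χ⁻¹ * h) • nxt A.Λ p1 = nxt A.Λ p1 := by
        rw [← A.nxt_act, mul_smul, ← t1, inv_smul_smul]
      have f2 : (χ⁻¹ * h) • p2 = p2 := by rw [mul_smul, ← t2, inv_smul_smul]
      rw [abs_le] at hy'
      have g1 : nxt A.Λ p1 ≤ y := A.nxt_le hy (by linarith)
      have g2 : y ≤ p2 := A.le_of_lt_nxt hy (by linarith)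
      have goal : (χ⁻¹ * h) • y = y := by
        rcases eq_or_lt_of_le (le_trans g1 g2) with e | e
        · rw [show y = p2 by linarith]; exact f2
        · obtain ⟨w, hw, e'⟩ := mvt (χ⁻¹ * h) (nxt A.Λ p1) p2
          rw [f1, f2] at e'
          have hw1 : D (χ⁻¹ * h) w = 1 := by
            have := sub_pos.2 e
            have h9 : (D (χ⁻¹ * h) w - 1) * (p2 - nxt A.Λ p1) = 0 := by linarith
            rcases mul_eq_zero.1 h9 with h10 | h10 <;> linarith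
          have hw2 : lg (χ⁻¹ * h) w = 0 := by unfold lg; rw [hw1]; simp
          have hin : ∀ u ∈ uIcc (nxt A.Λ p1) p2, (χ⁻¹ * h) • u ∈ uIcc (nxt A.Λ p1) p2 := by
            intro u hu
            have := (act_uIcc (χ⁻¹ * h)).2 hu
            rwa [f1, f2] at this
          refine R _ _ _ (A.nxt_mem p1) hp2.1 f1 f2 (fun u hu => ?_) y hy
            (by rw [uIcc_of_le e.le]; exact ⟨g1, g2⟩)
          have k1 := hT.2.2 u hu w hw
          have k2 := t3 _ (hin u hu) _ (hin w hw)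
          rw [lg_mul, lg_inv', ← mul_smul] at hw2 ⊢
          rw [abs_le] at *
          constructor <;> linarith
      rw [mul_smul, inv_smul_eq_iff] at goal
      exact goal
  intro z hz h hg hD
  have e := Int.fract_add_floor z
  have e' := Int.fract_add_floor (h • Int.fract z)
  have hg' : Good K (Int.fract z) h := by
    have := hg.shift (-⌊z⌋)
    simpa [Int.fract, sub_eq_add_neg] using this
  obtain ⟨χ, h1, h2⟩ := main (Int.fract z) (by rw [← A.add_int_mem ⌊z⌋, e]; exact hz)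
    (A.t ^ (-⌊h • Int.fract z⌋) * h) (A.good_tz_mul _ hg')
    (by rw [A.D_tz_mul, ← D_int h _ ⌊z⌋, e]; exact hD) ⟨Int.fract_nonneg _, Int.fract_lt_one _⟩ (by
      rw [mul_smul, A.tz_smul]; push_cast
      exact ⟨Int.fract_nonneg _, Int.fract_lt_one _⟩)
  refine ⟨χ, h1, ⌊h • Int.fract z⌋, fun y hy hy' => ?_⟩
  have := h2 (y - ⌊z⌋) ((A.sub_int_mem _).2 hy) (by
    rwa [show y - ⌊z⌋ - Int.fract z = y - z by linarith])
  rw [mul_smul, A.tz_smul, act_sub_int, act_sub_int] at this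
  push_cast at this
  linarith

theorem good_quot {K z c B : ℝ} {φ ψ : G} (h1 : Good K z φ) (h2 : Good K z ψ) (e : φ • z = ψ • z)
    (hc : D φ z ≤ c * D ψ z) (hB : D ψ z ≤ B) : Good (K + 3 * c * (3 * K + B)) z (ψ⁻¹ * φ) := by
  have h3 := h2.inv (D_pos ψ z) le_rfl
  rw [← e] at h3
  refine (h1.comp h3 hc).mono ?_
  have hp := D_pos ψ z
  have hc0 : 0 < c := by
    have := D_pos φ z
    by_contra h; nlinarith
  have : 3 * (c * D ψ z) * (3 * K / D ψ z + 1) = 3 * c * (3 * K + D ψ z) := by field_simp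
  rw [this]
  nlinarith

theorem Good.len_act {K z p : ℝ} {h : G} (H : Good K z h) (h1 : |p - z| ≤ 1 / K)
    (h2 : |nxt A.Λ p - z| ≤ 1 / K) :
    A.len (h • p) ≤ 3 * D h z * A.len p ∧ D h z * A.len p ≤ 3 * A.len (h • p) := by
  rw [A.len_act, ← A.abs_len p]
  exact ⟨H.len_le h2 h1, H.le_len h2 h1⟩

theorem Cantor.Star.packing (hA : A.Star) {K : ℝ} (hK : 1 ≤ K) : ∃ ρ > 0, ∀ ε > 0, ∃ τ > 0,
    ∀ z ∈ A.Λ, ∀ y ∈ A.Λ, |y - z| ≤ ρ → ∀ (T : Finset ℕ) (h : ℕ → G),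
      (∀ i ∈ T, Good K z (h i) ∧ D (h i) z ≤ τ) →
      (∀ i ∈ T, ∀ j ∈ T, ∀ n : ℤ, h i • y = h j • y + n → i = j) → ∑ i ∈ T, D (h i) z ≤ ε := by
  classical
  have hK0 : 0 < K := by linarith
  obtain ⟨Φ, hΦ, ρ', hρ', N⟩ := hA.nucleus (K := 2 * K + 3 * 81 * (3 * (2 * K) + 3)) (by linarith)
  set ρ := min (1 / (2 * K)) (ρ' / 2)
  have hρ0 : 0 < ρ := lt_min (by positivity) (by linarith)
  have hρ1 : ρ ≤ 1 / (2 * K) := min_le_left _ _
  have hρ2 : ρ ≤ ρ' / 2 := min_le_right _ _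
  have hρ3 : ρ ≤ 1 / K := le_trans hρ1 (one_div_le_one_div_of_le hK0 (by linarith))
  obtain ⟨κ, hκ, W⟩ := A.whole ρ hρ0
  refine ⟨ρ, hρ0, fun ε hε => ?_⟩
  set M : ℝ := hΦ.toFinset.card + 1
  have hM : 0 < M := by positivity
  obtain ⟨τ, hτ, S⟩ := A.small_sum (ε := ε * κ / (3 * M)) (by positivity)
  refine ⟨min 1 (τ / 4), lt_min one_pos (by linarith), fun z hz y hy hyz T h hT hinj => ?_⟩
  have m1 := min_le_left 1 (τ / 4)
  have m2 := min_le_right 1 (τ / 4)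
  obtain ⟨p, hp, w1, w2, w3⟩ := W z hz
  have hl := A.len_pos hp
  have hl1 := A.len_le_one hp.1
  let c : ℕ → A.X := fun i => A.cls (h i • p) (A.act_LE _ hp)
  have hc : ∀ i, A.len (c i).1 = A.len (h i • p) := fun i => A.len_cls _
  have hlen := fun i (hi : i ∈ T) => (hT i hi).1.len_act (A := A) (le_trans w1 hρ3)
    (le_trans w2 hρ3)
  have fib : ∀ v ∈ T.image c, ((T.filter fun i => c i = v).card : ℝ) ≤ M := by
    intro v hv
    obtain ⟨j, hj, rfl⟩ := Finset.mem_image.1 hv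
    have key : ∀ i ∈ T.filter fun i => c i = c j, ∃ ψ ∈ hΦ.toFinset, ∃ n : ℤ,
        h i • y = h j • ψ • y + n := by
      intro i hi
      obtain ⟨hi, e⟩ := Finset.mem_filter.1 hi
      have e2 := congrArg (fun v : A.X => A.len v.1) e
      simp only [hc] at e2
      obtain ⟨n, e3⟩ := (A.cls_eq_iff _ _).1 e
      have d1 : D (h i) z ≤ 9 * D (h j) z := by
        have a1 := (hlen i hi).2
        have a2 := (hlen j hj).1
        exact le_of_mul_le_mul_right (by nlinarith) hl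
      have d2 : D (h j) z ≤ 9 * D (h i) z := by
        have a1 := (hlen j hj).2
        have a2 := (hlen i hi).1
        exact le_of_mul_le_mul_right (by nlinarith) hl
      have d3 := (hT i hi).1.D_le (le_trans w1 hρ3)
      have d4 := (hT j hj).1.le_D (le_trans w1 hρ3)
      have d5 := (hT j hj).1.D_le (le_trans w1 hρ3)
      have d6 := (hT i hi).1.le_D (le_trans w1 hρ3)
      have e4 : (A.t ^ (-n) * h i) • p = h j • p := by
        rw [mul_smul, A.tz_smul, e3]; push_cast; ring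
      have g := good_quot (c := 81) (B := 3)
        (A.good_tz_mul (-n) ((hT i hi).1.move (le_trans w1 hρ1)))
        ((hT j hj).1.move (le_trans w1 hρ1)) e4 (by rw [A.D_tz_mul]; linarith)
        (by linarith [(hT j hj).2])
      obtain ⟨ψ, hψ, n', e5⟩ := N p hp.1 _ g (by
        rw [D_mul, e4, D_inv, A.D_tz_mul, div_le_iff₀ (by positivity), inv_mul_eq_div,
          div_mul_eq_mul_div, le_div_iff₀ (D_pos _ _)]
        nlinarith [D_pos (h i) p])
      have e6 := e5 y hy (by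
        have := abs_sub_le y z p
        rw [abs_sub_comm z p] at this
        linarith)
      rw [mul_smul, inv_smul_eq_iff, mul_smul, A.tz_smul, act_int] at e6
      refine ⟨ψ, hΦ.mem_toFinset.2 hψ, n' + n, ?_⟩
      push_cast at e6 ⊢
      linarith
    choose! ψ hψ n hn using key
    have := Finset.card_le_card_of_injOn ψ (s := T.filter fun i => c i = c j) (t := hΦ.toFinset)
      (fun i hi => hψ i hi) (fun i hi i' hi' e => by
        refine hinj i (Finset.mem_filter.1 hi).1 i' (Finset.mem_filter.1 hi').1 (n i - n i') ?_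
        rw [hn i hi, hn i' hi', e]; push_cast; ring)
    have h2 : ((T.filter fun i => c i = c j).card : ℝ) ≤ hΦ.toFinset.card := by exact_mod_cast this
    linarith
  have s1 := S (T.image c) (fun v hv => by
    obtain ⟨i, hi, rfl⟩ := Finset.mem_image.1 hv
    rw [hc]
    have := (hlen i hi).1
    have := (hT i hi).2
    have := D_pos (h i) z
    nlinarith)
  have s2 : ∑ i ∈ T, A.len (c i).1 ≤ M * (ε * κ / (3 * M)) := by
    rw [Finset.sum_comp (fun v : A.X => A.len v.1) c]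
    refine le_trans (Finset.sum_le_sum (g := fun v => M * A.len v.1) (fun v hv => ?_)) ?_
    · rw [nsmul_eq_mul]
      exact mul_le_mul_of_nonneg_right (fib v hv) (A.len_pos v.2.1).le
    · rw [← Finset.mul_sum]; exact mul_le_mul_of_nonneg_left s1 hM.le
  have s3 : (∑ i ∈ T, D (h i) z) * κ ≤ 3 * ∑ i ∈ T, A.len (c i).1 := by
    rw [Finset.sum_mul, Finset.mul_sum]
    refine Finset.sum_le_sum (fun i hi => ?_)
    rw [hc]
    exact le_trans (mul_le_mul_of_nonneg_left w3 (D_pos _ _).le) (hlen i hi).2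
  have s4 : M * (ε * κ / (3 * M)) = ε * κ / 3 := by field_simp
  exact le_of_mul_le_mul_right (by linarith) hκ

theorem Cantor.Star.excursion (hA : A.Star) {K L : ℝ} (hK : 1 ≤ K) (hL : 0 ≤ L) :
    ∃ ρ > 0, ∃ τ > 0, ∀ z ∈ A.Λ, ∀ y ∈ A.Λ, |y - z| ≤ ρ → ∀ (φ : ℕ → G) (n : ℕ),
      Good K z (φ 0) → D (φ 0) z ≤ 1 → (∀ j < n, ∃ s, GLip L s ∧ φ (j + 1) = s * φ j) →
      (∀ i ≤ n, ∀ j ≤ n, ∀ m : ℤ, φ i • y = φ j • y + m → i = j) →
      (∀ j, 0 < j → j < n → Good (K + 3 * L * 2) z (φ j) → D (φ j) z ≤ τ) →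
      Good (K + 3 * L * 2) z (φ n) := by
  obtain ⟨ρ, hρ, P⟩ := hA.packing (K := K + 3 * L * 2) (by linarith)
  obtain ⟨τ, hτ, P⟩ := P 1 one_pos
  refine ⟨ρ, hρ, τ, hτ, fun z hz y hy hyz φ n h0 h1 hs hinj hsm => ?_⟩
  have main : ∀ m ≤ n, Good (K + 3 * L * 2) z (φ m) := by
    intro m
    induction m using Nat.strong_induction_on with
    | _ m ih =>
      intro hm
      refine schwartz hL φ m (fun j hj => hs j (by omega)) h0 ?_
      rcases Nat.eq_zero_or_pos m with rfl | hm0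
      · simp
      · have := P z hz y hy hyz (Finset.Ico 1 m) φ (fun i hi => by
          rw [Finset.mem_Ico] at hi
          exact ⟨ih i hi.2 (by omega), hsm i (by omega) (by omega) (ih i hi.2 (by omega))⟩)
          (fun i hi j hj k e => by
            rw [Finset.mem_Ico] at hi hj
            exact hinj i (by omega) j (by omega) k e)
        rw [Finset.range_eq_Ico, Finset.sum_eq_sum_Ico_succ_bot hm0]
        linarith
  exact main n le_rfl

theorem Cantor.Star.fix_loc (hA : A.Star) (δ : G) (y : ℝ) {s : ℝ} (hs : s = 1 ∨ s = -1) :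
    ∃ ε > 0, (∀ u ∈ A.Λ, s * y < s * u → s * u < s * y + ε → δ • u = u) ∨
      (∀ u ∈ A.Λ, s * y < s * u → s * u < s * y + ε → δ • u ≠ u) := by
  have nb : ∀ {Q : ℝ → Prop}, (∀ᶠ u in 𝓝 y, Q u) → ∃ ε > 0, ∀ u, s * y ≤ s * u → s * u < s * y + ε →
      Q u := by
    intro Q h
    obtain ⟨ε, hε, h⟩ := Metric.eventually_nhds_iff.1 h
    refine ⟨ε, hε, fun u h1 h2 => h ?_⟩
    rw [Real.dist_eq, s_abs hs, abs_lt]; constructor <;> linarith
  by_cases hy : y ∈ A.Λ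
  swap
  · obtain ⟨ε, hε, h⟩ := nb (A.closed.isOpen_compl.mem_nhds hy)
    exact ⟨ε, hε, Or.inl fun u hu h1 h2 => absurd hu (h u h1.le h2)⟩
  by_cases e : δ • y = y
  swap
  · obtain ⟨ε, hε, h⟩ := nb (Q := fun u => δ • u ≠ u)
      ((isOpen_ne_fun (cont_smul δ) continuous_id).mem_nhds e)
    exact ⟨ε, hε, Or.inr fun u _ h1 h2 => h u h1.le h2⟩
  have conv : ∀ {ε u w : ℝ}, s * y < s * u → s * u < s * y + ε → w ∈ uIcc y u →
      s * y ≤ s * w ∧ s * w < s * y + ε := by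
    intro ε u w h1 h2 hw
    have := s_uIcc hs hw (a := s * y) (b := s * u) le_rfl h1.le h1.le le_rfl
    exact ⟨this.1, by linarith [this.2]⟩
  by_cases hD : D δ y = 1
  swap
  · obtain ⟨ε, hε, h⟩ := nb ((cont_D δ).continuousAt.eventually_ne hD)
    refine ⟨ε, hε, Or.inr fun u _ h1 h2 e' => ?_⟩
    obtain ⟨w, hw, e2⟩ := mvt δ y u
    rw [e, e'] at e2
    have h3 : (D δ w - 1) * (u - y) = 0 := by linarith
    rcases mul_eq_zero.1 h3 with h4 | h4
    · exact h w (conv h1 h2 hw).1 (conv h1 h2 hw).2 (by linarith)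
    · rw [show u = y by linarith] at h1; exact lt_irrefl _ h1
  obtain ⟨ε0, hε0, R⟩ := hA.rigid
  have h0 : |lg δ y| < ε0 := by unfold lg; rw [hD]; simpa using hε0
  obtain ⟨ε, hε, h⟩ := nb ((cont_lg δ).abs.continuousAt.eventually (gt_mem_nhds h0))
  by_cases hq : ∃ q ∈ A.Λ, s * y < s * q ∧ s * q < s * y + ε ∧ δ • q = q
  · obtain ⟨q, hq, h1, h2, h3⟩ := hq
    refine ⟨s * q - s * y, by linarith, Or.inl fun u hu h4 h5 => ?_⟩
    refine R δ y q hy hq e h3 (fun w hw => (h w (conv h1 h2 hw).1 (conv h1 h2 hw).2).le) u hu ?_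
    rw [mem_uIcc]
    rcases hs with rfl | rfl
    · left; constructor <;> linarith
    · right; constructor <;> linarith
  · push Not at hq
    exact ⟨ε, hε, Or.inr fun u hu h1 h2 => hq u hu h1 h2⟩

end Pool.Agent.Lib.MP_173a7e_an
end

-- part Pool.Agent.Lib.MP_173a7e_an.Hector
section

/-! One-sided stabilisers of non-expandable points act on `Λ` through a cyclic group. -/

set_option autoImplicit false

namespace Pool.Agent.Lib.MP_173a7e_an

open Set Filter Topology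

variable {G : Type} [Group G] [MulAction G ℝ] [SmoothAct G] {A : Cantor G}

/-- One-sided punctured neighbourhoods. -/
def sF (x s : ℝ) : Filter ℝ := 𝓝[{u | s * x < s * u}] x

theorem ev_sF {x s : ℝ} (hs : s = 1 ∨ s = -1) {Q : ℝ → Prop} :
    (∀ᶠ u in sF x s, Q u) ↔ ∃ ε > 0, ∀ u, s * x < s * u → s * u < s * x + ε → Q u := by
  unfold sF
  rw [eventually_nhdsWithin_iff, Metric.eventually_nhds_iff]
  constructor
  · rintro ⟨ε, hε, h⟩
    refine ⟨ε, hε, fun u h1 h2 => h ?_ h1⟩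
    rw [Real.dist_eq, s_abs hs, abs_lt]; constructor <;> linarith
  · rintro ⟨ε, hε, h⟩
    refine ⟨ε, hε, fun u h1 h2 => h u h2 ?_⟩
    rw [Real.dist_eq, s_abs hs, abs_lt] at h1; linarith [h1.2]

omit [SmoothAct G] in
theorem pos_iff {x s : ℝ} (hs : s = 1 ∨ s = -1) {g : G} :
    Pos x s g ↔ g • x = x ∧ ∀ᶠ u in sF x s, s * u < s * g • u := by
  rw [ev_sF hs]; rfl

theorem tendsto_sF {x s : ℝ} (hs : s = 1 ∨ s = -1) {g : G} (h : g • x = x) :
    Tendsto (fun u : ℝ => g • u) (sF x s) (sF x s) := by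
  refine tendsto_nhdsWithin_iff.2 ⟨?_, ?_⟩
  · have := ((cont_smul g).tendsto x).mono_left (nhdsWithin_le_nhds (s := {u | s * x < s * u}))
    rwa [h] at this
  · filter_upwards [self_mem_nhdsWithin] with u hu
    have := (sact_lt hs g).2 hu
    rwa [h] at this

theorem Zone.ev_inN (Z : Zone A) {Q : ℝ → Prop} (h : ∀ᶠ u in sF Z.x Z.s, Q u) :
    ∀ᶠ m in atTop, ∀ v, Z.InN m v → Q v := by
  obtain ⟨ε, hε, h⟩ := (ev_sF Z.hs).1 h
  obtain ⟨n, hn⟩ := Z.small hε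
  exact eventually_atTop.2 ⟨n, fun m hm v hv => h v hv.pos (by linarith [hn m hm, hv.2])⟩

theorem Zone.inN_pt (Z : Zone A) (m : ℕ) : Z.InN m (Z.pt (m + 2)) :=
  ⟨Z.pt_anti (by omega), Z.pt_anti (by omega)⟩

theorem pos_of_nofix {x s ε : ℝ} (hs : s = 1 ∨ s = -1) {g : G} (hx : g • x = x) (hε : 0 < ε)
    (h : ∀ u, s * x < s * u → s * u < s * x + ε → g • u ≠ u) : Pos x s g ∨ Pos x s g⁻¹ := by
  by_contra hc
  rw [not_or] at hc
  have h1 : ∃ u, s * x < s * u ∧ s * u < s * x + ε ∧ s * g • u ≤ s * u := by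
    by_contra h'
    push Not at h'
    exact hc.1 ⟨hx, ε, hε, h'⟩
  have h2 : ∃ u, s * x < s * u ∧ s * u < s * x + ε ∧ s * u ≤ s * g • u := by
    by_contra h'
    push Not at h'
    refine hc.2 ⟨by rw [inv_smul_eq_iff, hx], ε, hε, fun u a b => ?_⟩
    rw [← sact_lt hs g, smul_inv_smul]; exact h' u a b
  obtain ⟨u, a1, a2, a3⟩ := h1
  obtain ⟨v, b1, b2, b3⟩ := h2
  have hc' : Continuous fun w : ℝ => s * g • w - s * w :=
    (continuous_const.mul (cont_smul g)).sub (continuous_const.mul continuous_id)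
  obtain ⟨w, hw, e⟩ := intermediate_value_uIcc (a := u) (b := v) hc'.continuousOn
    (show (0 : ℝ) ∈ uIcc _ _ from mem_uIcc.2 (Or.inl ⟨by linarith, by linarith⟩))
  have := s_uIcc hs hw (a := min (s * u) (s * v)) (b := max (s * u) (s * v)) (min_le_left _ _)
    (le_max_left _ _) (min_le_right _ _) (le_max_right _ _)
  exact h w (lt_of_lt_of_le (lt_min a1 b1) this.1) (lt_of_le_of_lt this.2 (max_lt a2 b2))
    (s_inj hs (by simp only at e; linarith))

theorem Cantor.Star.trichotomy (hA : A.Star) {x s : ℝ} (hs : s = 1 ∨ s = -1) (ha : A.Acc x s)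
    {δ : G} (hx : δ • x = x) :
    (∀ᶠ u in sF x s, u ∈ A.Λ → δ • u = u) ∨ Pos x s δ ∨ Pos x s δ⁻¹ := by
  obtain ⟨ε, hε, h | h⟩ := hA.fix_loc δ x hs
  · exact Or.inl ((ev_sF hs).2 ⟨ε, hε, fun u h1 h2 hu => h u hu h1 h2⟩)
  · right
    obtain ⟨Y, hY, h1, h2⟩ := ha ε hε
    refine pos_of_nofix hs hx (sub_pos.2 h1) (fun u h3 h4 e => ?_)
    by_cases hu : u ∈ A.Λ
    · exact h u hu h3 (by linarith) e
    · obtain ⟨p, hp, h5, h6⟩ := A.exists_gap hu
      obtain ⟨v, hv, h7, h8⟩ := ha _ (sub_pos.2 h3)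
      have := (A.gap_between hs hv hY h5 h6 (by linarith) (by linarith)).1
      refine h p hp.1 (by linarith [this.1]) (by linarith [this.2]) ?_
      refine A.gap_unique (u := u) (A.inv _ _ hp.1) hp.1 ?_ ?_ h5 h6
      · rw [← e, act_lt]; exact h5
      · rw [A.nxt_act, ← e, act_lt]; exact h6

theorem Pos.conj {x s : ℝ} (hs : s = 1 ∨ s = -1) {g h : G} (hg : Pos x s g) (hx : h • x = x) :
    Pos x s (h * g * h⁻¹) := by
  have hx' : h⁻¹ • x = x := by rw [inv_smul_eq_iff, hx]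
  rw [pos_iff hs] at hg ⊢
  refine ⟨by rw [mul_smul, mul_smul, hx', hg.1, hx], ?_⟩
  filter_upwards [(tendsto_sF hs hx').eventually hg.2] with u hu
  rw [mul_smul, mul_smul]
  have := (sact_lt hs h).2 hu
  rwa [smul_inv_smul] at this

theorem Zone.slow_pos (Z : Zone A) (hZ : A.NE Z.x) : ∃ κ > 0, ∀ δ : G, Pos Z.x Z.s δ →
    ∀ᶠ m in atTop, ∀ u, Z.s * Z.pt (m + 2) ≤ Z.s * u → Z.s * u ≤ Z.s * Z.pt (m + 1) →
      κ * Z.l m < Z.s * δ • u - Z.s * u := by
  obtain ⟨ε, hε, κ, hκ, H⟩ := Z.slow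
  refine ⟨κ, hκ, fun δ hδ => ?_⟩
  rw [pos_iff Z.hs] at hδ
  have h0 : |lg δ Z.x| < ε := by unfold lg; rw [hZ.D_eq hδ.1]; simpa using hε
  have h1 : ∀ᶠ u in sF Z.x Z.s, |lg δ u| < ε :=
    ((cont_lg δ).abs.continuousAt.eventually (gt_mem_nhds h0)).filter_mono nhdsWithin_le_nhds
  filter_upwards [Z.ev_inN h1, Z.ev_inN hδ.2] with m h2 h3 u h4 h5
  by_contra hc
  have hu : Z.InN m u := ⟨le_trans (Z.pt_step _).le h4, le_trans h5 (Z.pt_step _).le⟩
  obtain ⟨p, hp, e⟩ := H m δ u h4 h5 (fun v hv => (h2 v hv).le) (by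
    rw [s_abs Z.hs, abs_of_pos (sub_pos.2 (h3 u hu))]; exact le_of_not_gt hc)
  have := h3 p hp
  rw [e] at this
  exact lt_irrefl _ this

theorem Cantor.exists_min (A : Cantor G) {x s : ℝ} (hs : s = 1 ∨ s = -1) (hx : A.NE x)
    (ha : A.Acc x s) {g : G} (hg : Pos x s g) :
    ∃ g0 : G, Pos x s g0 ∧ ∀ δ : G, Pos x s δ → ¬ Pos x s (δ⁻¹ * g0) := by
  by_contra hc
  push Not at hc
  obtain ⟨Z, rfl, rfl, rfl⟩ := A.exists_zone hs ha hg
  obtain ⟨κ, hκ, H⟩ := Z.slow_pos hx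
  have main : ∀ n : ℕ, ∃ δ : G, Pos Z.x Z.s δ ∧ ∀ᶠ m in atTop,
      Z.s * δ • Z.pt (m + 2) - Z.s * Z.pt (m + 2) ≤ (1 - n * κ) * Z.l m := by
    intro n
    induction n with
    | zero => exact ⟨Z.g, hg, Eventually.of_forall fun m => by rw [Z.g_pt]; simp [Zone.l]⟩
    | succ n ih =>
      obtain ⟨δ, h1, h2⟩ := ih
      obtain ⟨δ', h3, h4⟩ := hc δ h1
      have h5 := h4.conj hs h3.1
      refine ⟨δ', h3, ?_⟩
      filter_upwards [h2, H _ h5, Z.ev_inN ((pos_iff hs).1 h3).2, Z.ev_inN ((pos_iff hs).1 h4).2]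
        with m a1 a2 a3 a4
      have b3 := a3 _ (Z.inN_pt m)
      have b4 := a4 _ (Z.inN_pt m)
      rw [mul_smul, ← sact_lt hs δ', smul_inv_smul] at b4
      have hl := Z.l_pos m
      have hn : (0 : ℝ) ≤ n * κ * Z.l m := by positivity
      have b2 := a2 (δ' • Z.pt (m + 2)) b3.le (by unfold Zone.l at *; nlinarith)
      rw [mul_inv_cancel_left, mul_smul, inv_smul_smul] at b2
      push_cast
      nlinarith
  obtain ⟨n, hn⟩ := exists_nat_gt (1 / κ)
  obtain ⟨δ, h1, h2⟩ := main n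
  obtain ⟨m, a1, a2⟩ := (h2.and (Z.ev_inN ((pos_iff hs).1 h1).2)).exists
  have := a2 _ (Z.inN_pt m)
  rw [div_lt_iff₀ hκ] at hn
  nlinarith [Z.l_pos m]

theorem Cantor.Star.archi (hA : A.Star) {x s : ℝ} (hs : s = 1 ∨ s = -1) (hx : A.NE x)
    (ha : A.Acc x s) {g δ : G} (hg : Pos x s g) (hδ : Pos x s δ) :
    ∃ n : ℕ, Pos x s (δ⁻¹ * g ^ n) := by
  obtain ⟨Z, rfl, rfl, rfl⟩ := A.exists_zone hs ha hδ
  obtain ⟨κ, hκ, H⟩ := Z.slow_pos hx
  obtain ⟨n, hn⟩ := exists_nat_gt (1 / κ)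
  rw [div_lt_iff₀ hκ] at hn
  have key : ∀ᶠ m in atTop, Z.s * Z.g • Z.pt (m + 2) < Z.s * g ^ n • Z.pt (m + 2) := by
    filter_upwards [H _ hg] with m hm
    have hl := Z.l_pos m
    have h0 := hm _ le_rfl (Z.pt_step _).le
    have main : ∀ k : ℕ, Z.s * Z.pt (m + 1) < Z.s * g ^ k • Z.pt (m + 2) ∨
        Z.s * Z.pt (m + 2) + k * κ * Z.l m ≤ Z.s * g ^ k • Z.pt (m + 2) := by
      intro k
      induction k with
      | zero => right; simp
      | succ k ih =>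
        by_cases hk : Z.s * Z.pt (m + 1) < Z.s * g ^ k • Z.pt (m + 2)
        · left
          have : Z.s * g ^ k • Z.pt (m + 2) < Z.s * g ^ k • g • Z.pt (m + 2) :=
            (sact_lt hs _).2 (by nlinarith)
          rw [pow_succ, mul_smul]; linarith
        · right
          have h1 := ih.resolve_left hk
          have hk' : (0 : ℝ) ≤ k * κ * Z.l m := by positivity
          have := hm _ (le_trans (by linarith) h1) (le_of_not_gt hk)
          rw [pow_succ', mul_smul]; push_cast; nlinarith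
    rw [Z.g_pt]
    rcases main n with h | h
    · exact h
    · unfold Zone.l at *; nlinarith
  have hfix : (Z.g⁻¹ * g ^ n) • Z.x = Z.x := by
    have : g ^ n • Z.x = Z.x := MulAction.mem_stabilizer_iff.1
      (Subgroup.pow_mem _ (MulAction.mem_stabilizer_iff.2 hg.1) n)
    rw [mul_smul, this, Z.fix_inv]
  refine ⟨n, ?_⟩
  rcases hA.trichotomy hs ha hfix with h | h | h
  · obtain ⟨m, a1, a2⟩ := (key.and (Z.ev_inN h)).exists
    have := a2 _ (Z.inN_pt m) (Z.pt_mem _)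
    rw [mul_smul, inv_smul_eq_iff] at this
    rw [this] at a1
    exact absurd a1 (lt_irrefl _)
  · exact h
  · obtain ⟨m, a1, a2⟩ := (key.and (Z.ev_inN ((pos_iff hs).1 h).2)).exists
    have := a2 _ (Z.inN_pt m)
    rw [mul_inv_rev, inv_inv, mul_smul, ← sact_lt hs (g ^ n), smul_inv_smul] at this
    linarith

/-- The zone map generates the germs of the stabiliser on `Λ`. -/
def Zone.Cyc (Z : Zone A) : Prop :=
  ∀ δ : G, δ • Z.x = Z.x → ∃ e : ℤ, ∀ᶠ u in sF Z.x Z.s, u ∈ A.Λ → δ • u = Z.g ^ e • u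

theorem Cantor.Star.exists_cyc (hA : A.Star) {x s : ℝ} (hx : A.NE x) (hs : s = 1 ∨ s = -1)
    (ha : A.Acc x s) : ∃ Z : Zone A, Z.x = x ∧ Z.s = s ∧ Z.Cyc := by
  classical
  obtain ⟨g, hg⟩ := hA x s hx hs ha
  obtain ⟨g0, h0, hmin⟩ := A.exists_min hs hx ha hg
  obtain ⟨Z, rfl, rfl, rfl⟩ := A.exists_zone hs ha h0
  refine ⟨Z, rfl, rfl, ?_⟩
  have main : ∀ δ : G, Pos Z.x Z.s δ →
      ∃ e : ℤ, ∀ᶠ u in sF Z.x Z.s, u ∈ A.Λ → δ • u = Z.g ^ e • u := by
    intro δ hδ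
    have hex := hA.archi hs hx ha h0 hδ
    have h1 := Nat.find_spec hex
    rcases e : Nat.find hex with _ | k
    · exfalso
      rw [e, pow_zero, mul_one] at h1
      obtain ⟨m, a1, a2⟩ := ((Z.ev_inN ((pos_iff hs).1 h1).2).and
        (Z.ev_inN ((pos_iff hs).1 hδ).2)).exists
      have b1 := a1 _ (Z.inN_pt m)
      have b2 := a2 _ (Z.inN_pt m)
      rw [← sact_lt hs δ, smul_inv_smul] at b1
      linarith
    · have h2 := Nat.find_min hex (m := k) (by omega)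
      rw [e] at h1
      have hfix : (δ⁻¹ * Z.g ^ k) • Z.x = Z.x := by
        have := Z.fix_zpow k
        rw [zpow_natCast] at this
        rw [mul_smul, this, inv_smul_eq_iff, hδ.1]
      rcases hA.trichotomy hs ha hfix with h | h | h
      · refine ⟨k, h.mono fun u hu hu' => ?_⟩
        have := hu hu'
        rw [mul_smul, inv_smul_eq_iff] at this
        rw [zpow_natCast, this]
      · exact absurd h h2
      · exact absurd (by rwa [inv_inv, mul_assoc, ← pow_succ]) (hmin _ h)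
  intro δ hδ
  rcases hA.trichotomy hs ha hδ with h | h | h
  · exact ⟨0, h.mono fun u hu hu' => by simpa using hu hu'⟩
  · exact main δ h
  · obtain ⟨e, he⟩ := main _ h
    refine ⟨-e, ((tendsto_sF hs hδ).eventually he).mono fun u hu hu' => ?_⟩
    have := hu (A.inv _ _ hu')
    rw [inv_smul_smul] at this
    rw [zpow_neg, eq_inv_smul_iff]; exact this.symm

theorem Cantor.Star.cover_cyc (hA : A.Star) : ∃ C : Cover A, ∀ i, (C.Z i).Cyc :=
  A.exists_cover _ (fun _ _ hx hs ha => hA.exists_cyc hx hs ha)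

theorem Cantor.Star.hector (hA : A.Star) {Z : Zone A} (hx : A.NE Z.x) (hZ : Z.Cyc) {K : ℝ}
    (hK : 1 ≤ K) : ∃ ρ > 0, ∃ N : ℕ, ∀ δ : G, δ • Z.x = Z.x → Good K Z.x δ → ∃ e : ℤ, |e| ≤ N ∧
      ∀ u ∈ A.Λ, Z.s * Z.x < Z.s * u → Z.s * u < Z.s * Z.x + ρ → δ • u = Z.g ^ e • u := by
  obtain ⟨Φ, hΦ, ρ0, hρ0, H⟩ := hA.nucleus hK
  obtain ⟨κ, hκ, H'⟩ := fin_min Φ hΦ (P := fun ψ κ => ∀ n : ℤ, ψ • Z.x + n = Z.x → ∃ e : ℤ,
      ((|e| : ℤ) : ℝ) ≤ 1 / κ ∧ ∀ u ∈ A.Λ, Z.s * Z.x < Z.s * u → Z.s * u < Z.s * Z.x + κ →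
        ψ • u + n = Z.g ^ e • u)
    (fun ψ a b hb hab h n hn => by
      obtain ⟨e, h1, h2⟩ := h n hn
      exact ⟨e, le_trans h1 (one_div_le_one_div_of_le hb hab),
        fun u hu h3 h4 => h2 u hu h3 (by linarith)⟩) (fun ψ _ => by
      by_cases h : ∃ n : ℤ, ψ • Z.x + n = Z.x
      · obtain ⟨n, hn⟩ := h
        obtain ⟨e, he⟩ := hZ (A.t ^ n * ψ) (by rw [mul_smul, A.tz_smul, hn])
        obtain ⟨ε, hε, he⟩ := (ev_sF Z.hs).1 he
        have h0 : (0 : ℝ) < ((|e| : ℤ) : ℝ) + 1 := by positivity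
        refine ⟨min ε (1 / (((|e| : ℤ) : ℝ) + 1)), lt_min hε (by positivity), fun n' hn' => ?_⟩
        have : n' = n := by
          have : (n' : ℝ) = n := by linarith
          exact_mod_cast this
        subst this
        refine ⟨e, ?_, fun u hu h1 h2 => ?_⟩
        · have := one_div_le_one_div_of_le (lt_min hε (by positivity))
            (min_le_right ε (1 / (((|e| : ℤ) : ℝ) + 1)))
          rw [one_div_one_div] at this
          linarith
        · have := he u h1 (lt_of_lt_of_le h2 (by linarith [min_le_left ε (1 / (((|e| : ℤ) : ℝ) + 1))])) hu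
          rwa [mul_smul, A.tz_smul] at this
      · exact ⟨1, one_pos, fun n hn => absurd ⟨n, hn⟩ h⟩)
  obtain ⟨N, hN⟩ := exists_nat_ge (1 / κ)
  refine ⟨min ρ0 κ, lt_min hρ0 hκ, N, fun δ h1 h2 => ?_⟩
  obtain ⟨ψ, hψ, n, h3⟩ := H Z.x hx.1 δ h2 (by
    rw [hx.D_eq h1, div_le_one (by linarith)]; exact hK)
  obtain ⟨e, h4, h5⟩ := H' ψ hψ n (by rw [← h3 Z.x hx.1 (by simpa using hρ0.le), h1])
  refine ⟨e, by exact_mod_cast le_trans h4 hN, fun u hu h6 h7 => ?_⟩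
  have := min_le_left ρ0 κ
  have := min_le_right ρ0 κ
  rw [h3 u hu (by rw [s_abs Z.hs, abs_le]; constructor <;> linarith), h5 u hu h6 (by linarith)]

end Pool.Agent.Lib.MP_173a7e_an
end
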