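import Pool.Agent.Lib.MP_173a7e_an.Defs

/-! Weights on the gaps of a closed periodic set give a piecewise affine conjugacy. -/

set_option autoImplicit false

namespace Pool.Agent.Lib.MP_173a7e_an

open Set Filter Topology

namespace PL

/-- gaps, as pairs of end points -/
def Gap (Λ : Set ℝ) : Set (ℝ × ℝ) :=
  {a | a.1 ∈ Λ ∧ a.2 ∈ Λ ∧ a.1 < a.2 ∧ ∀ y ∈ Ioo a.1 a.2, y ∉ Λ}

/-- the ramp function of a gap -/
noncomputable def cl (a : ℝ × ℝ) (x : ℝ) : ℝ := max 0 (min 1 ((x - a.1) / (a.2 - a.1)))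

/-- weighted length of the gaps between two points -/
noncomputable def D (Λ : Set ℝ) (m : ℝ × ℝ → ℝ) (x y : ℝ) : ℝ :=
  ∑' a : Gap Λ, m a * (cl a y - cl a x)

/-- admissible weights -/
structure Adm (Λ : Set ℝ) (m : ℝ × ℝ → ℝ) : Prop where
  pos : ∀ a ∈ Gap Λ, 0 < m a
  per : ∀ p q, m (p + 1, q + 1) = m (p, q)
  sum : ∀ u v : ℝ, Summable fun a : Gap Λ => if a.1.1 ≤ v ∧ u ≤ a.1.2 then m a else 0

variable {Λ : Set ℝ} {m : ℝ × ℝ → ℝ}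

theorem cl_zero {a : ℝ × ℝ} (h : a.1 < a.2) {x : ℝ} (hx : x ≤ a.1) : cl a x = 0 :=
  max_eq_left ((min_le_right _ _).trans
    (div_nonpos_of_nonpos_of_nonneg (sub_nonpos.2 hx) (sub_pos.2 h).le))

theorem cl_one {a : ℝ × ℝ} (h : a.1 < a.2) {x : ℝ} (hx : a.2 ≤ x) : cl a x = 1 := by
  rw [cl, min_eq_left ((one_le_div (sub_pos.2 h)).2 (by linarith)), max_eq_right zero_le_one]

theorem cl_mono {a : ℝ × ℝ} (h : a.1 < a.2) : Monotone (cl a) := fun _ _ hxy =>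
  max_le_max le_rfl (min_le_min le_rfl
    (div_le_div_of_nonneg_right (sub_le_sub_right hxy _) (sub_pos.2 h).le))

theorem cl_lt {a : ℝ × ℝ} {x y z : ℝ} (h1 : a.1 < z) (h2 : z < a.2) (hx : x < z) (hy : z < y) :
    cl a x < cl a y := by
  have h : 0 < a.2 - a.1 := by linarith
  have e1 : cl a x < (z - a.1) / (a.2 - a.1) :=
    max_lt (div_pos (by linarith) h)
      ((min_le_right _ _).trans_lt (div_lt_div_of_pos_right (by linarith) h))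
  have e2 : (z - a.1) / (a.2 - a.1) < cl a y :=
    lt_max_of_lt_right (lt_min ((div_lt_one h).2 (by linarith))
      (div_lt_div_of_pos_right (by linarith) h))
  exact e1.trans e2

theorem cl_abs (a : ℝ × ℝ) (x y : ℝ) : |cl a y - cl a x| ≤ 1 := by
  have h0 : ∀ x, 0 ≤ cl a x := fun x => le_max_left _ _
  have h1 : ∀ x, cl a x ≤ 1 := fun x => max_le zero_le_one (min_le_left _ _)
  rw [abs_le]
  constructor <;> linarith [h0 x, h0 y, h1 x, h1 y]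

theorem cl_cont (a : ℝ × ℝ) : Continuous (cl a) := by
  unfold cl
  fun_prop

theorem cl_mem {a : ℝ × ℝ} (ha : a ∈ Gap Λ) {x : ℝ} (hx : x ∈ Λ) :
    cl a x = if a.1 < x then 1 else 0 := by
  split_ifs with h
  · exact cl_one ha.2.2.1 (not_lt.1 fun h' => ha.2.2.2 x ⟨h, h'⟩ hx)
  · exact cl_zero ha.2.2.1 (not_lt.1 h)

theorem cl_const {a : ℝ × ℝ} (h : a.1 < a.2) {u v x y : ℝ} (hx : x ∈ Icc u v) (hy : y ∈ Icc u v)
    (hn : v ≤ a.1 ∨ a.2 ≤ u) : cl a y - cl a x = 0 := by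
  rcases hn with hn | hn
  · rw [cl_zero h (hx.2.trans hn), cl_zero h (hy.2.trans hn), sub_self]
  · rw [cl_one h (hn.trans hx.1), cl_one h (hn.trans hy.1), sub_self]

theorem Adm.bound (hm : Adm Λ m) {u v x y : ℝ} (hx : x ∈ Icc u v) (hy : y ∈ Icc u v) (a : Gap Λ) :
    ‖m a * (cl a y - cl a x)‖ ≤ if a.1.1 ≤ v ∧ u ≤ a.1.2 then m a else 0 := by
  split_ifs with h
  · rw [Real.norm_eq_abs, abs_mul, abs_of_pos (hm.pos _ a.2)]
    exact mul_le_of_le_one_right (hm.pos _ a.2).le (cl_abs _ _ _)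
  · rw [cl_const a.2.2.2.1 hx hy (by
      by_contra h'
      push Not at h'
      exact h ⟨h'.1.le, h'.2.le⟩)]
    simp

theorem Adm.summable (hm : Adm Λ m) (x y : ℝ) :
    Summable fun a : Gap Λ => m a * (cl a y - cl a x) :=
  Summable.of_norm_bounded (hm.sum (min x y) (max x y))
    (hm.bound ⟨min_le_left _ _, le_max_left _ _⟩ ⟨min_le_right _ _, le_max_right _ _⟩)

theorem Adm.add (hm : Adm Λ m) (x y z : ℝ) : D Λ m x y + D Λ m y z = D Λ m x z := by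
  rw [D, D, D, ← (hm.summable x y).tsum_add (hm.summable y z)]
  exact tsum_congr fun a => by ring

theorem D_self (x : ℝ) : D Λ m x x = 0 := by simp [D]

theorem Adm.cont (hm : Adm Λ m) (x : ℝ) : Continuous (D Λ m x) := by
  refine continuous_iff_continuousAt.2 fun y => ?_
  have h : ContinuousOn (D Λ m x) (Icc (min x y - 1) (max x y + 1)) :=
    continuousOn_tsum (fun a => (continuous_const.mul ((cl_cont _).sub continuous_const)).continuousOn)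
      (hm.sum (min x y - 1) (max x y + 1)) fun a z hz => hm.bound
        ⟨by linarith [min_le_left x y], by linarith [le_max_left x y]⟩ hz a
  exact h.continuousAt (Icc_mem_nhds (by linarith [min_le_right x y]) (by linarith [le_max_right x y]))

theorem mem_add_int (hper : ∀ x, x ∈ Λ ↔ x + 1 ∈ Λ) (n : ℤ) (x : ℝ) : x + n ∈ Λ ↔ x ∈ Λ := by
  induction n using Int.induction_on with
  | zero => simp
  | succ n ih => rw [← ih, hper (x + ((n : ℤ) : ℝ))]; push_cast; rw [add_assoc]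
  | pred n ih => rw [← ih, hper]; push_cast; ring_nf

theorem gap_mono {g : Equiv.Perm ℝ} (hg : StrictMono g) (hΛ : ∀ x, x ∈ Λ ↔ g x ∈ Λ) (a : ℝ × ℝ) :
    a ∈ Gap Λ ↔ g.prodCongr g a ∈ Gap Λ := by
  simp only [Gap, mem_ofPred_eq, Equiv.prodCongr_apply, Prod.map_fst, Prod.map_snd, ← hΛ,
    hg.lt_iff_lt, mem_Ioo]
  rw [g.surjective.forall (p := fun y => g a.1 < y ∧ y < g a.2 → y ∉ Λ)]
  simp only [← hΛ, hg.lt_iff_lt]

theorem gap_anti {g : Equiv.Perm ℝ} (hg : StrictAnti g) (hΛ : ∀ x, x ∈ Λ ↔ g x ∈ Λ) (a : ℝ × ℝ) :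
    a ∈ Gap Λ ↔ (Equiv.prodComm ℝ ℝ).trans (g.prodCongr g) a ∈ Gap Λ := by
  simp only [Gap, mem_ofPred_eq, Equiv.trans_apply, Equiv.prodComm_apply, Equiv.prodCongr_apply,
    Prod.map_fst, Prod.map_snd, Prod.fst_swap, Prod.snd_swap, ← hΛ, hg.lt_iff_gt, mem_Ioo]
  rw [g.surjective.forall (p := fun y => g a.2 < y ∧ y < g a.1 → y ∉ Λ)]
  simp only [← hΛ, hg.lt_iff_gt]
  tauto

theorem Adm.shift (hm : Adm Λ m) (hper : ∀ x, x ∈ Λ ↔ x + 1 ∈ Λ) (x y : ℝ) :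
    D Λ m (x + 1) (y + 1) = D Λ m x y := by
  rw [D, ← (Equiv.subtypeEquiv _ (gap_mono (g := Equiv.addRight 1)
    (fun _ _ h => by simpa using h) hper)).tsum_eq]
  refine tsum_congr fun a => ?_
  obtain ⟨⟨p, q⟩, ha⟩ := a
  simp [hm.per, cl]

theorem Adm.period (hm : Adm Λ m) (hper : ∀ x, x ∈ Λ ↔ x + 1 ∈ Λ) (x : ℝ) :
    D Λ m x (x + 1) = D Λ m 0 1 := by
  have h1 := hm.shift hper 0 x
  rw [zero_add] at h1
  linarith [hm.add x 0 x, D_self (Λ := Λ) (m := m) x, hm.add x 0 1, hm.add x 1 (x + 1)]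

theorem exists_gap (hc : IsClosed Λ) (hne : Λ.Nonempty) (hper : ∀ x, x ∈ Λ ↔ x + 1 ∈ Λ) {z : ℝ}
    (hz : z ∉ Λ) : ∃ a ∈ Gap Λ, a.1 < z ∧ z < a.2 := by
  obtain ⟨x, hx⟩ := hne
  have h1 : (Λ ∩ Iic z).Nonempty := ⟨x + ⌊z - x⌋, (mem_add_int hper _ _).2 hx, by
    have := Int.floor_le (z - x)
    simp only [mem_Iic]; linarith⟩
  have h2 : (Λ ∩ Ici z).Nonempty := ⟨x + ⌈z - x⌉, (mem_add_int hper _ _).2 hx, by
    have := Int.le_ceil (z - x)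
    simp only [mem_Ici]; linarith⟩
  have b1 : BddAbove (Λ ∩ Iic z) := bddAbove_Iic.mono inter_subset_right
  have b2 : BddBelow (Λ ∩ Ici z) := bddBelow_Ici.mono inter_subset_right
  have m1 := (hc.inter isClosed_Iic).csSup_mem h1 b1
  have m2 := (hc.inter isClosed_Ici).csInf_mem h2 b2
  have l1 : sSup (Λ ∩ Iic z) < z := lt_of_le_of_ne m1.2 fun h => hz (h ▸ m1.1)
  have l2 : z < sInf (Λ ∩ Ici z) := lt_of_le_of_ne m2.2 fun h => hz (h ▸ m2.1)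
  refine ⟨(sSup (Λ ∩ Iic z), sInf (Λ ∩ Ici z)), ⟨m1.1, m2.1, l1.trans l2, fun y hy hyΛ => ?_⟩, l1, l2⟩
  rcases le_total y z with h | h
  · exact absurd (le_csSup b1 ⟨hyΛ, h⟩) (not_le.2 hy.1)
  · exact absurd (csInf_le b2 ⟨hyΛ, h⟩) (not_le.2 hy.2)

theorem Adm.D_pos (hm : Adm Λ m) (hc : IsClosed Λ) (hne : Λ.Nonempty)
    (hper : ∀ x, x ∈ Λ ↔ x + 1 ∈ Λ) (hint : interior Λ = ∅) {x y : ℝ} (h : x < y) :
    0 < D Λ m x y := by
  obtain ⟨z, hz, hzΛ⟩ : ∃ z ∈ Ioo x y, z ∉ Λ := by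
    by_contra h'
    push Not at h'
    have := interior_maximal h' isOpen_Ioo
    rw [hint, subset_empty_iff] at this
    exact (nonempty_Ioo.2 h).ne_empty this
  obtain ⟨a, ha, h1, h2⟩ := exists_gap hc hne hper hzΛ
  exact (hm.summable x y).tsum_pos (fun b => mul_nonneg (hm.pos _ b.2).le
    (sub_nonneg.2 (cl_mono b.2.2.2.1 h.le))) ⟨a, ha⟩
    (mul_pos (hm.pos _ ha) (sub_pos.2 (cl_lt h1 h2 hz.1 hz.2)))

theorem add_int {f : ℝ → ℝ} (hf : ∀ x, f (x + 1) = f x + 1) (n : ℤ) (x : ℝ) :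
    f (x + n) = f x + n := by
  induction n using Int.induction_on with
  | zero => simp
  | succ n ih => push_cast at ih ⊢; rw [← add_assoc, hf, ih, add_assoc]
  | pred n ih =>
    have := hf (x + ((-n - 1 : ℤ) : ℝ))
    push_cast at ih this ⊢
    rw [show x + (-(n : ℝ) - 1) + 1 = x + -n by ring, ih] at this
    linarith

theorem Adm.homeo (hm : Adm Λ m) (hc : IsClosed Λ) (hne : Λ.Nonempty)
    (hper : ∀ x, x ∈ Λ ↔ x + 1 ∈ Λ) (hint : interior Λ = ∅) :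
    ∃ φ : ℝ ≃ₜ ℝ, StrictMono φ ∧ (∀ x, φ (x + 1) = φ x + 1) ∧
      ∀ x y, φ y - φ x = D Λ m x y / D Λ m 0 1 := by
  have hT := hm.D_pos hc hne hper hint zero_lt_one
  let f : ℝ → ℝ := fun x => D Λ m 0 x / D Λ m 0 1
  have hf : ∀ x y, f y - f x = D Λ m x y / D Λ m 0 1 := fun x y => by
    simp only [f]
    rw [← hm.add 0 x y]
    ring
  have h1 : ∀ x, f (x + 1) = f x + 1 := fun x => by
    have := hf x (x + 1)
    rw [hm.period hper, div_self hT.ne'] at this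
    linarith
  have hs : StrictMono f := fun x y h => by
    have := div_pos (hm.D_pos hc hne hper hint h) hT
    linarith [hf x y]
  have hcont : Continuous f := (hm.cont 0).div_const _
  have hsurj : Function.Surjective f := by
    refine hcont.surjective (hs.monotone.tendsto_atTop_atTop fun b => ⟨0 + ⌈b - f 0⌉, ?_⟩)
      (hs.monotone.tendsto_atBot_atBot fun b => ⟨0 + ⌊b - f 0⌋, ?_⟩)
    · rw [add_int h1]; linarith [Int.le_ceil (b - f 0)]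
    · rw [add_int h1]; linarith [Int.floor_le (b - f 0)]
  exact ⟨(hs.orderIsoOfSurjective f hsurj).toHomeomorph, hs, h1, hf⟩

theorem nxt_eq {a : ℝ × ℝ} (ha : a ∈ Gap Λ) {e : ℝ} (h1 : a.1 ≤ e) (h2 : e < a.2) :
    nxt Λ e = a.2 :=
  IsLeast.csInf_eq ⟨⟨ha.2.1, h2⟩, fun y hy =>
    not_lt.1 fun h => ha.2.2.2 y ⟨h1.trans_lt hy.2, h⟩ hy.1⟩

theorem gap_add (hper : ∀ x, x ∈ Λ ↔ x + 1 ∈ Λ) {a : ℝ × ℝ} (ha : a ∈ Gap Λ) (n : ℤ) :
    (a.1 + n, a.2 + n) ∈ Gap Λ :=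
  (gap_mono (g := Equiv.addRight (n : ℝ)) (fun _ _ h => by simpa using h)
    (fun x => (mem_add_int hper n x).symm) a).1 ha

theorem gap_LE {a : ℝ × ℝ} (ha : a ∈ Gap Λ) : a.1 ∈ LE Λ := ⟨ha.1, a.2, ha.2.2.1, ha.2.2.2⟩

theorem adm_base (hper : ∀ x, x ∈ Λ ↔ x + 1 ∈ Λ) {ℓ : ℝ → ℝ} (hpos : ∀ p ∈ LE Λ, 0 < ℓ p)
    (hℓ : ∀ p, ℓ (p + 1) = ℓ p) (hsum : Summable fun p : ↥(LE Λ ∩ Ico 0 1) => ℓ p) :
    Adm Λ fun a => ℓ a.1 := by
  refine ⟨fun a ha => hpos _ (gap_LE ha), fun p _ => hℓ p, fun u v => ?_⟩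
  have hn : ∀ n : ℤ, Summable fun a : Gap Λ => if ⌊a.1.1⌋ = n then ℓ a.1.1 else 0 := fun n => by
    let i : {a : Gap Λ | ⌊a.1.1⌋ = n} → ↥(LE Λ ∩ Ico 0 1) := fun a =>
      ⟨a.1.1.1 + (-n : ℤ), gap_LE (gap_add hper a.1.2 (-n)), by
        have h : ⌊a.1.1.1⌋ = n := a.2
        rw [Int.floor_eq_iff] at h
        push_cast
        constructor <;> linarith [h.1, h.2]⟩
    have hi : Function.Injective i := fun a b h => by
      have h1 : a.1.1.1 = b.1.1.1 := by simpa [i] using h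
      refine Subtype.ext (Subtype.ext (Prod.ext h1 ?_))
      rw [← nxt_eq a.1.2 le_rfl a.1.2.2.2.1, ← nxt_eq b.1.2 le_rfl b.1.2.2.2.1, h1]
    have h2 := (hsum.comp_injective hi).congr (g := fun a => ℓ a.1.1.1) fun a => by
      have := Function.Periodic.int_mul (f := ℓ) (c := 1) hℓ (-n) a.1.1.1
      simpa [i] using this
    exact (summable_subtype_iff_indicator (f := fun a : Gap Λ => ℓ a.1.1)).1 h2 |>.congr fun a => by
      simp [indicator]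
  refine Summable.of_nonneg_of_le (fun a => ?_) (fun a => ?_)
    (summable_sum (s := Finset.Icc ⌊u - 1⌋ ⌊v⌋) fun n _ => hn n)
  · split_ifs
    · exact (hpos _ (gap_LE a.2)).le
    · exact le_rfl
  · rw [Finset.sum_ite_eq]
    by_cases h : a.1.1 ≤ v ∧ u ≤ a.1.2
    · have h1 : a.1.2 ≤ a.1.1 + 1 := not_lt.1 fun h' =>
        a.2.2.2.2 _ ⟨by linarith, h'⟩ ((hper _).1 a.2.1)
      rw [if_pos h, if_pos (Finset.mem_Icc.2
        ⟨Int.floor_mono (by linarith [h.2]), Int.floor_mono h.1⟩)]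
    · rw [if_neg h]
      split_ifs
      · exact (hpos _ (gap_LE a.2)).le
      · exact le_rfl

theorem transport {ℓ : ℝ → ℝ} (hℓ : ∀ p, ℓ (p + 1) = ℓ p) (h0 : Adm Λ fun a => ℓ a.1)
    {g : Equiv.Perm ℝ} (hg : (StrictMono g ∧ ∀ x, g (x + 1) = g x + 1) ∨
      (StrictAnti g ∧ ∀ x, g (x + 1) = g x - 1)) (hΛ : ∀ x, x ∈ Λ ↔ g x ∈ Λ) :
    Adm Λ (fun a => ℓ (min (g a.1) (g a.2))) ∧ ∃ ε : ℝ, (ε = 1 ∨ ε = -1) ∧
      (∀ x, g (x + 1) = g x + ε) ∧ ∀ x ∈ Λ, ∀ y ∈ Λ, D Λ (fun a => ℓ a.1) (g x) (g y) =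
        ε * D Λ (fun a => ℓ (min (g a.1) (g a.2))) x y := by
  rcases hg with ⟨hg, h1⟩ | ⟨hg, h1⟩
  · have e : ∀ a ∈ Gap Λ, min (g a.1) (g a.2) = g a.1 := fun a ha => min_eq_left (hg ha.2.2.1).le
    refine ⟨⟨fun a ha => ?_, fun p q => ?_, fun u v => ?_⟩, 1, .inl rfl, h1, fun x hx y hy => ?_⟩
    · rw [e a ha]
      exact h0.pos _ ((gap_mono hg hΛ a).1 ha)
    · simp only [h1, min_add_add_right, hℓ]
    · refine ((Equiv.subtypeEquiv _ (gap_mono hg hΛ)).summable_iff.2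
        (h0.sum (g u) (g v))).congr fun a => ?_
      simp [hg.le_iff_le, e _ a.2]
    · rw [one_mul, D, ← (Equiv.subtypeEquiv _ (gap_mono hg hΛ)).tsum_eq]
      refine tsum_congr fun a => ?_
      rw [cl_mem (Subtype.property _) ((hΛ x).1 hx), cl_mem (Subtype.property _) ((hΛ y).1 hy),
        cl_mem a.2 hx, cl_mem a.2 hy]
      simp [hg.lt_iff_lt, e _ a.2]
  · have e : ∀ a ∈ Gap Λ, min (g a.1) (g a.2) = g a.2 := fun a ha => min_eq_right (hg ha.2.2.1).le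
    refine ⟨⟨fun a ha => ?_, fun p q => ?_, fun u v => ?_⟩, -1, .inr rfl,
      fun x => by rw [h1]; ring, fun x hx y hy => ?_⟩
    · rw [e a ha]
      exact h0.pos _ ((gap_anti hg hΛ a).1 ha)
    · simp only [h1, min_sub_sub_right]
      rw [← hℓ, sub_add_cancel]
    · refine ((Equiv.subtypeEquiv _ (gap_anti hg hΛ)).summable_iff.2
        (h0.sum (g v) (g u))).congr fun a => ?_
      simp [hg.le_iff_ge, e _ a.2, and_comm]
    · rw [D, D, ← tsum_mul_left, ← (Equiv.subtypeEquiv _ (gap_anti hg hΛ)).tsum_eq]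
      refine tsum_congr fun a => ?_
      have k : ∀ x ∈ Λ, x < a.1.2 ↔ ¬ a.1.1 < x := fun x hx =>
        ⟨fun h h' => a.2.2.2.2 x ⟨h', h⟩ hx, fun h => (not_lt.1 h).trans_lt a.2.2.2.1⟩
      rw [cl_mem (Subtype.property _) ((hΛ x).1 hx), cl_mem (Subtype.property _) ((hΛ y).1 hy),
        cl_mem a.2 hx, cl_mem a.2 hy]
      simp only [Equiv.subtypeEquiv_apply, Equiv.trans_apply, Equiv.prodComm_apply,
        Equiv.prodCongr_apply, Prod.map_fst, Prod.fst_swap, hg.lt_iff_gt, e _ a.2, k x hx, k y hy]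
      split_ifs <;> ring

theorem local_ratio (hper : ∀ x, x ∈ Λ ↔ x + 1 ∈ Λ) {m' : ℝ × ℝ → ℝ} (hm : Adm Λ m) {E : Finset ℝ}
    (hE : ∀ a ∈ Gap Λ, ∀ b ∈ Gap Λ, (∀ e ∈ E, ∀ n : ℤ, e + n ∉ uIcc a.1 b.1) →
      m' a * m b = m' b * m a) {u v : ℝ}
    (h1 : ∀ e ∈ E, ∀ n : ℤ, e + n ∉ Ioo u v) (h2 : ∀ e ∈ E, ∀ n : ℤ, nxt Λ e + n ∉ Ioo u v) :
    ∃ c : ℝ, ∀ x ∈ Icc u v, ∀ y ∈ Icc u v, D Λ m' x y = c * D Λ m x y := by
  have key : ∀ a ∈ Gap Λ, ∀ b ∈ Gap Λ, a.1 < b.1 → u < a.2 → b.1 < v →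
      m' a * m b = m' b * m a := fun a ha b hb hab hu hv => hE a ha b hb fun e he n hn => by
    rw [uIcc_of_le hab.le] at hn
    have h3 : a.2 ≤ b.1 := not_lt.1 fun h => ha.2.2.2 _ ⟨hab, h⟩ hb.1
    by_cases h : e + n < a.2
    · have h4 := nxt_eq (gap_add hper ha (-n)) (e := e) (by push_cast; linarith [hn.1])
        (by push_cast; linarith)
      refine h2 e he n ?_
      rw [h4]
      push_cast
      constructor <;> linarith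
    · exact h1 e he n ⟨by linarith, by linarith [hn.2]⟩
  obtain ⟨c, hc⟩ : ∃ c : ℝ, ∀ a ∈ Gap Λ, a.1 < v → u < a.2 → m' a = c * m a := by
    by_cases h : ∃ b ∈ Gap Λ, b.1 < v ∧ u < b.2
    · obtain ⟨b, hb, hv, hu⟩ := h
      refine ⟨m' b / m b, fun a ha hv' hu' => ?_⟩
      rw [div_mul_eq_mul_div, eq_div_iff (hm.pos b hb).ne']
      rcases lt_trichotomy a.1 b.1 with h | h | h
      · exact key a ha b hb h hu' hv
      · rw [show a = b from Prod.ext h (by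
          rw [← nxt_eq ha le_rfl ha.2.2.1, ← nxt_eq hb le_rfl hb.2.2.1, h])]
      · exact (key b hb a ha h hu hv').symm
    · exact ⟨0, fun a ha hv hu => absurd ⟨a, ha, hv, hu⟩ h⟩
  refine ⟨c, fun x hx y hy => ?_⟩
  rw [D, D, ← tsum_mul_left]
  refine tsum_congr fun a => ?_
  by_cases h : v ≤ a.1.1 ∨ a.1.2 ≤ u
  · rw [cl_const a.2.2.2.1 hx hy h]
    simp
  · push Not at h
    rw [hc a a.2 h.1 h.2, mul_assoc]

theorem gap_ratio {m' : ℝ × ℝ → ℝ} (hm : Adm Λ m) {b : ℝ × ℝ} (hb : b ∈ Gap Λ) :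
    ∃ c : ℝ, ∀ x ∈ Icc b.1 b.2, ∀ y ∈ Icc b.1 b.2, D Λ m' x y = c * D Λ m x y := by
  refine ⟨m' b / m b, fun x hx y hy => ?_⟩
  rw [D, D, ← tsum_mul_left]
  refine tsum_congr fun a => ?_
  by_cases h : b.2 ≤ a.1.1 ∨ a.1.2 ≤ b.1
  · rw [cl_const a.2.2.2.1 hx hy h]
    simp
  · push Not at h
    have h1 : a.1.1 = b.1 := le_antisymm
      (not_lt.1 fun h' => hb.2.2.2 _ ⟨h', h.1⟩ a.2.1)
      (not_lt.1 fun h' => a.2.2.2.2 _ ⟨h', h.2⟩ hb.1)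
    have h2 : a.1 = b := Prod.ext h1 (by
      rw [← nxt_eq a.2 le_rfl a.2.2.2.1, ← nxt_eq hb le_rfl hb.2.2.1, h1])
    rw [h2, ← mul_assoc, div_mul_cancel₀ _ (hm.pos b hb).ne']

theorem exists_avoid (B : Finset ℝ) {x : ℝ} (hx : ∀ b ∈ B, ∀ n : ℤ, x ≠ b + n) :
    ∃ ε > 0, ∀ b ∈ B, ∀ n : ℤ, b + n ∉ Ioo (x - ε) (x + ε) := by
  have : ∀ᶠ z in 𝓝 x, ∀ b ∈ B, z - b ∉ range ((↑) : ℤ → ℝ) :=
    (eventually_all_finset B).2 fun b hb =>
      (Int.isClosedEmbedding_coe_real.isClosed_range.preimage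
        (continuous_sub_right b)).isOpen_compl.mem_nhds fun ⟨n, hn⟩ => hx b hb n (by
          simp only at hn; linarith)
  obtain ⟨ε, hε, h⟩ := Metric.eventually_nhds_iff_ball.1 this
  refine ⟨ε, hε, fun b hb n hn => h _ (by rwa [Real.ball_eq_Ioo]) b hb ⟨n, by ring⟩⟩

end PL

open PL in
theorem pl_of_weights (Λ : Set ℝ) (hc : IsClosed Λ) (hne : Λ.Nonempty)
    (hper : ∀ x, x ∈ Λ ↔ x + 1 ∈ Λ) (hint : interior Λ = ∅) (G : Set (Equiv.Perm ℝ))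
    (hG : ∀ g ∈ G, ((StrictMono g ∧ ∀ x, g (x + 1) = g x + 1) ∨
      (StrictAnti g ∧ ∀ x, g (x + 1) = g x - 1)) ∧ ∀ x, x ∈ Λ ↔ g x ∈ Λ)
    (ℓ : ℝ → ℝ) (hpos : ∀ p ∈ LE Λ, 0 < ℓ p) (hℓ : ∀ p, ℓ (p + 1) = ℓ p)
    (hsum : Summable fun p : ↥(LE Λ ∩ Ico 0 1) => ℓ p)
    (htame : ∀ g ∈ G, ∃ E : Finset ℝ, ∀ p ∈ LE Λ, ∀ q ∈ LE Λ,
      (∀ e ∈ E, ∀ n : ℤ, e + n ∉ uIcc p q) →
        ℓ (min (g p) (g (nxt Λ p))) * ℓ q = ℓ (min (g q) (g (nxt Λ q))) * ℓ p) :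
    ∃ φ : ℝ ≃ₜ ℝ, StrictMono φ ∧ (∀ x : ℝ, φ (x + 1) = φ x + 1) ∧ ∀ g ∈ G, ∃ p : ℝ ≃ₜ ℝ,
      ((∀ x : ℝ, p (x + 1) = p x + 1) ∨ (∀ x : ℝ, p (x + 1) = p x - 1)) ∧
      (∃ B : Finset ℝ, ∀ x : ℝ, (∀ b ∈ B, ∀ n : ℤ, x ≠ b + n) →
        ∃ ε > 0, ∃ a c : ℝ, ∀ z : ℝ, |z - x| < ε → p z = a * z + c) ∧
      (∀ x ∈ Λ, φ (g x) = p (φ x)) ∧
      ∀ b ∈ Gap Λ, ∃ a c : ℝ, ∀ z ∈ Icc b.1 b.2, p (φ z) = a * φ z + c := by
  classical
  have h0 := adm_base hper hpos hℓ hsum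
  obtain ⟨φ, φm, φ1, hφ⟩ := h0.homeo hc hne hper hint
  refine ⟨φ, φm, φ1, fun g hg => ?_⟩
  obtain ⟨hm, s, hs, g1, hD⟩ := transport hℓ h0 (hG g hg).1 (hG g hg).2
  obtain ⟨ψ, -, ψ1, hψ⟩ := hm.homeo hc hne hper hint
  obtain ⟨x₀, hx₀⟩ := hne
  have hs0 : s ≠ 0 := by rcases hs with rfl | rfl <;> norm_num
  have hT : D Λ (fun a => ℓ (min (g a.1) (g a.2))) 0 1 = D Λ (fun a => ℓ a.1) 0 1 := by
    have := hD x₀ hx₀ _ ((hper _).1 hx₀)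
    rw [hm.period hper, g1] at this
    rcases hs with rfl | rfl
    · rw [h0.period hper] at this
      linarith
    · have h1 := h0.period hper (g x₀ + -1)
      rw [show g x₀ + -1 + 1 = g x₀ by ring] at h1
      linarith [h0.add (g x₀) (g x₀ + -1) (g x₀), D_self (Λ := Λ) (m := fun a => ℓ a.1) (g x₀)]
  rw [hT] at hψ
  let p : ℝ ≃ₜ ℝ := φ.symm.trans (ψ.trans ((Homeomorph.mulLeft₀ s hs0).trans
    (Homeomorph.addRight (φ (g x₀) - s * ψ x₀))))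
  have hp : ∀ x, p (φ x) = s * ψ x + (φ (g x₀) - s * ψ x₀) := fun x => by simp [p]
  refine ⟨p, ?_, ?_, fun x hx => ?_, fun b hb => ?_⟩
  · have : ∀ x, p (x + 1) = p x + s := fun x => by
      obtain ⟨x, rfl⟩ := φ.surjective x
      rw [← φ1, hp, hp, ψ1]
      ring
    rcases hs with rfl | rfl
    · exact .inl this
    · exact .inr fun x => by rw [this]; ring
  · obtain ⟨E, hE⟩ := htame g hg
    refine ⟨(E ∪ E.image (nxt Λ)).image φ, fun x hx => ?_⟩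
    obtain ⟨ε, hε, h⟩ := exists_avoid _ hx
    have h' : ∀ e ∈ E ∪ E.image (nxt Λ), ∀ n : ℤ,
        e + n ∉ Ioo (φ.symm (x - ε)) (φ.symm (x + ε)) := fun e he n hn =>
      h _ (Finset.mem_image_of_mem _ he) n (by
        rw [← add_int φ1]
        exact ⟨by simpa using φm hn.1, by simpa using φm hn.2⟩)
    obtain ⟨c, hc⟩ := local_ratio (m' := fun a => ℓ (min (g a.1) (g a.2))) hper h0 (E := E)
      (fun a ha b hb hab => by
        have := hE _ (gap_LE ha) _ (gap_LE hb) hab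
        rwa [nxt_eq ha le_rfl ha.2.2.1, nxt_eq hb le_rfl hb.2.2.1] at this)
      (fun e he => h' e (Finset.mem_union_left _ he))
      (fun e he => h' _ (Finset.mem_union_right _ (Finset.mem_image_of_mem _ he)))
    refine ⟨ε, hε, s * c, p x - s * c * x, fun z hz => ?_⟩
    obtain ⟨x, rfl⟩ := φ.surjective x
    obtain ⟨z, rfl⟩ := φ.surjective z
    rw [abs_lt] at hz
    have k : ∀ y, -ε ≤ φ y - φ x → φ y - φ x ≤ ε →
        y ∈ Icc (φ.symm (φ x - ε)) (φ.symm (φ x + ε)) := fun y h1 h2 =>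
      ⟨φm.le_iff_le.1 (by rw [φ.apply_symm_apply]; linarith),
        φm.le_iff_le.1 (by rw [φ.apply_symm_apply]; linarith)⟩
    have h1 := hψ x z
    rw [hc x (k x (by linarith) (by linarith)) z (k z hz.1.le hz.2.le), mul_div_assoc,
      ← hφ] at h1
    rw [hp, hp]
    linear_combination s * h1
  · have h1 := hφ (g x₀) (g x)
    rw [hD x₀ hx₀ x hx, mul_div_assoc, ← hψ] at h1
    rw [hp]
    linarith
  · obtain ⟨c, hc⟩ := gap_ratio (m' := fun a => ℓ (min (g a.1) (g a.2))) h0 hb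
    refine ⟨s * c, p (φ b.1) - s * c * φ b.1, fun z hz => ?_⟩
    have h1 := hψ b.1 z
    rw [hc b.1 ⟨le_rfl, hb.2.2.1.le⟩ z hz, mul_div_assoc, ← hφ] at h1
    rw [hp, hp]
    linear_combination s * h1

open PL in
theorem affine_unique {Λ : Set ℝ} (hc : IsClosed Λ) (hne : Λ.Nonempty)
    (hper : ∀ x, x ∈ Λ ↔ x + 1 ∈ Λ) {φ : ℝ ≃ₜ ℝ} (φm : StrictMono φ) {p q : ℝ → ℝ}
    (h : ∀ x ∈ Λ, p (φ x) = q (φ x))
    (hp : ∀ b ∈ Gap Λ, ∃ a c : ℝ, ∀ z ∈ Icc b.1 b.2, p (φ z) = a * φ z + c)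
    (hq : ∀ b ∈ Gap Λ, ∃ a c : ℝ, ∀ z ∈ Icc b.1 b.2, q (φ z) = a * φ z + c) (y : ℝ) :
    p y = q y := by
  obtain ⟨z, rfl⟩ := φ.surjective y
  by_cases hz : z ∈ Λ
  · exact h z hz
  obtain ⟨b, hb, h1, h2⟩ := exists_gap hc hne hper hz
  obtain ⟨a, c, e⟩ := hp b hb
  obtain ⟨a', c', e'⟩ := hq b hb
  have k1 := h _ hb.1
  have k2 := h _ hb.2.1
  rw [e _ ⟨le_rfl, hb.2.2.1.le⟩, e' _ ⟨le_rfl, hb.2.2.1.le⟩] at k1
  rw [e _ ⟨hb.2.2.1.le, le_rfl⟩, e' _ ⟨hb.2.2.1.le, le_rfl⟩] at k2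
  have k3 : a = a' := mul_right_cancel₀ (sub_pos.2 (φm hb.2.2.1)).ne' (by linarith)
  rw [e z ⟨h1.le, h2.le⟩, e' z ⟨h1.le, h2.le⟩, k3]
  rw [k3] at k1
  linarith

open PL in
theorem pl_hom (Λ : Set ℝ) (hc : IsClosed Λ) (hne : Λ.Nonempty)
    (hint : interior Λ = ∅) (G : Subgroup (Equiv.Perm ℝ)) (ht : Equiv.addRight (1 : ℝ) ∈ G)
    (hG : ∀ g ∈ G, ((StrictMono g ∧ ∀ x, g (x + 1) = g x + 1) ∨
      (StrictAnti g ∧ ∀ x, g (x + 1) = g x - 1)) ∧ ∀ x, x ∈ Λ ↔ g x ∈ Λ)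
    (ℓ : ℝ → ℝ) (hpos : ∀ p ∈ LE Λ, 0 < ℓ p) (hℓ : ∀ p, ℓ (p + 1) = ℓ p)
    (hsum : Summable fun p : ↥(LE Λ ∩ Ico 0 1) => ℓ p)
    (htame : ∀ g ∈ G, ∃ E : Finset ℝ, ∀ p ∈ LE Λ, ∀ q ∈ LE Λ,
      (∀ e ∈ E, ∀ n : ℤ, e + n ∉ uIcc p q) →
        ℓ (min (g p) (g (nxt Λ p))) * ℓ q = ℓ (min (g q) (g (nxt Λ q))) * ℓ p) :
    ∃ φ : ℝ ≃ₜ ℝ, (∀ x : ℝ, φ (x + 1) = φ x + 1) ∧ ∃ ρ : G →* (ℝ ≃ₜ ℝ),
      (∀ x : ℝ, ρ ⟨_, ht⟩ x = x + 1) ∧ ∀ g : G,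
      ((∀ x : ℝ, ρ g (x + 1) = ρ g x + 1) ∨ (∀ x : ℝ, ρ g (x + 1) = ρ g x - 1)) ∧
      (∃ B : Finset ℝ, ∀ x : ℝ, (∀ b ∈ B, ∀ n : ℤ, x ≠ b + n) →
        ∃ ε > 0, ∃ a c : ℝ, ∀ z : ℝ, |z - x| < ε → ρ g z = a * z + c) ∧
      ∀ x ∈ Λ, φ ((g : Equiv.Perm ℝ) x) = ρ g (φ x) := by
  have hper : ∀ x, x ∈ Λ ↔ x + 1 ∈ Λ := (hG _ ht).2
  obtain ⟨φ, φm, φ1, H⟩ := pl_of_weights Λ hc hne hper hint G hG ℓ hpos hℓ hsum htame
  choose p h1 h2 h3 h4 using fun g : G => H g g.2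
  have hmul : ∀ g h : G, p (g * h) = p g * p h := by
    intro g h
    ext y
    refine affine_unique hc hne hper φm (p := p (g * h)) (q := fun y => p g (p h y))
      (fun x hx => ?_) (h4 _) (fun b hb => ?_) y
    · rw [← h3 _ x hx, ← h3 _ x hx, ← h3 _ _ (((hG _ h.2).2 x).1 hx)]; rfl
    · obtain ⟨a, c, e⟩ := h4 h b hb
      have k1 := e _ ⟨le_rfl, hb.2.2.1.le⟩
      have k2 := e _ ⟨hb.2.2.1.le, le_rfl⟩
      rw [← h3 _ _ hb.1] at k1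
      rw [← h3 _ _ hb.2.1] at k2
      have key : ∀ b' ∈ Gap Λ, (∀ z ∈ Icc b.1 b.2, a * φ z + c ∈ Icc (φ b'.1) (φ b'.2)) →
          ∃ a c : ℝ, ∀ z ∈ Icc b.1 b.2, p g (p h (φ z)) = a * φ z + c := by
        intro b' hb' hin
        obtain ⟨a', c', e'⟩ := h4 g b' hb'
        refine ⟨a' * a, a' * c + c', fun z hz => ?_⟩
        obtain ⟨w, hw⟩ := φ.surjective (a * φ z + c)
        have := hin z hz
        rw [← hw] at this
        rw [e z hz, ← hw, e' w ⟨φm.le_iff_le.1 this.1, φm.le_iff_le.1 this.2⟩, hw]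
        ring
      have k3 := φm hb.2.2.1
      rcases (hG _ h.2).1 with hm | hm
      · refine key _ ((gap_mono hm.1 (hG _ h.2).2 b).1 hb) (fun z hz => ?_)
        have k4 := φm (hm.1 hb.2.2.1)
        have k5 : 0 < a := by nlinarith
        have k6 := φm.monotone hz.1
        have k7 := φm.monotone hz.2
        constructor <;> simp <;> nlinarith
      · refine key _ ((gap_anti hm.1 (hG _ h.2).2 b).1 hb) (fun z hz => ?_)
        have k4 := φm (hm.1 hb.2.2.1)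
        have k5 : a < 0 := by nlinarith
        have k6 := φm.monotone hz.1
        have k7 := φm.monotone hz.2
        constructor <;> simp <;> nlinarith
  refine ⟨φ, φ1, MonoidHom.mk' p hmul, fun y => ?_, fun g => ⟨h1 g, h2 g, h3 g⟩⟩
  refine affine_unique hc hne hper φm (p := p ⟨_, ht⟩) (q := fun y => y + 1) (fun x hx => ?_)
    (h4 _) (fun b _ => ⟨1, 1, fun z _ => by ring⟩) y
  rw [← h3 _ x hx, ← φ1]; rfl

end Pool.Agent.Lib.MP_173a7e_an
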