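import Pool.Agent.Lib.MP_173a7e_an.Path
import Pool.Agent.Lib.MP_173a7e_an.PL

/-! Weights on the gaps with locally constant ratios. -/

set_option autoImplicit false

namespace Pool.Agent.Lib.MP_173a7e_an

open Set Filter Topology Comb

theorem near_fin {G X : Type} [Group G] [MulAction G X] {S : Finset G} (hinv : ∀ s ∈ S, s⁻¹ ∈ S)
    (hgen : Subgroup.closure (S : Set G) = ⊤) {Φ : Set G} (hΦ : Φ.Finite) :
    ∃ r : ℕ, ∀ ψ ∈ Φ, ∀ v : X, Near S r v (ψ • v) :=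
  fin_max Φ hΦ (P := fun ψ (r : ℕ) => ∀ v : X, Near S r v (ψ • v))
    (fun _ _ _ h H v => near_mono (H v) h) (fun ψ _ => by
      obtain ⟨l, h1, h2⟩ := exists_word hinv hgen ψ
      exact ⟨l.length, fun v => ⟨l, le_rfl, h1, by rw [h2]⟩⟩)

theorem near_pow {G X : Type} [Group G] [MulAction G X] {S : Finset G} {g : G} (hg : g ∈ S)
    (k : ℕ) (v : X) : Near S k v (g ^ k • v) := by
  induction k with
  | zero => simpa using near_refl 0 v
  | succ k ih => rw [pow_succ', mul_smul]; exact near_trans ih (near_step hg _)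

variable {G : Type} [Group G] [MulAction G ℝ] [SmoothAct G] {A : Cantor G}

theorem Cantor.Star.weights (hA : A.Star) (hfg : Group.FG G) : ∃ ℓ : ℝ → ℝ,
    (∀ p ∈ LE A.Λ, 0 < ℓ p) ∧ (∀ p, ℓ (p + 1) = ℓ p) ∧
    (Summable fun p : ↥(LE A.Λ ∩ Ico 0 1) => ℓ p) ∧ ∀ g : G, ∃ E : Finset ℝ, ∀ p ∈ LE A.Λ,
      ∀ q ∈ LE A.Λ, Sep E p q → ℓ (g • p) * ℓ q = ℓ (g • q) * ℓ p := by
  classical
  obtain ⟨C, hC⟩ := hA.cover_cyc
  have := C.fin
  obtain ⟨S0, hS0⟩ := hfg.out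
  set T := S0 ∪ C.σr_finite.toFinset
  set S := T ∪ T.image (fun g => g⁻¹)
  have hinv : ∀ s ∈ S, s⁻¹ ∈ S := by
    intro s hs
    rcases Finset.mem_union.1 hs with h | h
    · exact Finset.mem_union_right _ (Finset.mem_image_of_mem _ h)
    · obtain ⟨t, ht, rfl⟩ := Finset.mem_image.1 h
      exact Finset.mem_union_left _ (by simpa using ht)
  have hgen : Subgroup.closure (S : Set G) = ⊤ := by
    rw [eq_top_iff, ← hS0]
    exact Subgroup.closure_mono (fun g hg => Finset.mem_union_left _ (Finset.mem_union_left _ hg))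
  have hσ : ∀ u, C.σr u ∈ S := fun u => Finset.mem_union_left _ (Finset.mem_union_right _
    (C.σr_finite.mem_toFinset.2 ⟨u, rfl⟩))
  have hg : ∀ i, (C.Z i).g ∈ S := fun i => by
    obtain ⟨u, hu⟩ := C.g_mem i; rw [← hu]; exact hσ u
  obtain ⟨L, hL1, hL⟩ := finite_bounds (S : Set G) S.finite_toSet
  obtain ⟨K0, hK0, Θ, Dec⟩ := C.dec hσ
  set η := 1 / (K0 + 3 * L * 2)
  have hη : 0 < η := by positivity
  have hηK : η ≤ 1 / K0 := one_div_le_one_div_of_le (by linarith) (by linarith)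
  set B : Set A.X := {v | η ≤ A.len v.1 ∨ A.NE v.1}
  have hB : B.Finite := (A.big_finite hη).union
    ((C.ne_fin.preimage (f := fun v : A.X => v.1) (Subtype.val_injective.injOn)).subset
      (fun v hv => ⟨hv, v.2.2⟩))
  obtain ⟨c, hc, Hc⟩ := fin_min B hB (P := fun v c => c ≤ A.len v.1)
    (fun _ _ _ _ h h' => le_trans h h') (fun v _ => ⟨_, A.len_pos v.2.1, le_rfl⟩)
  have notB : ∀ {z : ℝ} {hz : z ∈ LE A.Λ}, A.cls z hz ∉ B → A.len z < η := by
    intro z hz h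
    rw [← A.len_cls hz]; exact lt_of_not_ge (fun h' => h (Or.inl h'))
  have lenp : ∀ {p : ℝ} {h : G}, Good K0 (h • p) h⁻¹ → A.len (h • p) < η →
      D h p * A.len p ≤ 3 * A.len (h • p) := by
    intro p h h1 h2
    have := (h1.len_act (A := A) (p := h • p) (by simpa using by linarith)
      (by rw [A.abs_len]; linarith)).1
    rw [inv_smul_smul, D_inv] at this
    have h3 := D_pos h p
    calc _ ≤ D h p * (3 * (D h p)⁻¹ * A.len (h • p)) := mul_le_mul_of_nonneg_left this h3.le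
      _ = _ := by field_simp
  refine (exists_depth S hinv hgen A.F A.F_inv hA.tame_fix C.σ
    (fun v => hσ _) C.tame_σ B hB (A.tame_finite hB) ?_ ?_ ?_).elim ?_
  rotate_left 3
  · rintro ℓ ⟨h1, h2, h3⟩
    refine ⟨fun p => if h : p ∈ LE A.Λ then ℓ (A.cls p h) else 0, fun p hp => ?_, fun p => ?_,
      ?_, fun g => ?_⟩
    · simp only [hp, dif_pos]; exact h1 _
    · by_cases hp : p ∈ LE A.Λ
      · have hp' : p + 1 ∈ LE A.Λ := by simpa using A.LE_int hp 1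
        simp only [hp, hp', dif_pos]
        congr 1
        rw [A.cls_eq_iff]; exact ⟨1, by simp⟩
      · have hp' : p + 1 ∉ LE A.Λ := fun h => hp (by simpa using A.LE_int h (-1))
        simp only [hp, hp', dif_neg, not_false_iff]
    · refine h2.congr (fun v => ?_)
      simp only [v.2.1, dif_pos]
      rw [A.cls_val]
    · obtain ⟨E, hE⟩ := A.ev_F.1 (h3 g)
      refine ⟨E, fun p hp q hq H => ?_⟩
      have := hE p hp q hq H
      simp only [A.smul_cls] at this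
      simp only [hp, hq, A.act_LE g hp, A.act_LE g hq, dif_pos]
      exact this
  · intro v
    by_contra hn
    push Not at hn
    have hl := A.len_pos v.2.1
    obtain ⟨M, hM⟩ := fin_max (univ : Set C.ι) finite_univ (P := fun i (M : ℕ) => ∀ k, M ≤ k →
      (C.Z i).s * (C.Z i).pt k - (C.Z i).s * (C.Z i).x < A.len v.1 / 3)
      (fun i a b hab H k hk => H k (le_trans hab hk)) (fun i _ => (C.Z i).small (by linarith))
    obtain ⟨p, hp, a, k, h, e1, e2, e3, g1, -, g3, g4, g5⟩ := Dec v (Θ (3 * η / A.len v.1) + M + 1)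
      (fun i _ h => hn i (Or.inr h))
    have l1 : A.len p = A.len v.1 := by rw [← e1, A.len_cls]
    have l2 := notB (e3 ▸ hn a)
    have l3 := lenp g1 l2
    rw [l1] at l3
    have l4 := g4 (3 * η / A.len v.1) (by rw [le_div_iff₀ hl]; linarith)
    rcases g5 with rfl | ⟨i, m, b1, -⟩
    · omega
    · have l5 := (C.Z i).len_le b1
      have l6 := hM i trivial (m + k) (by omega)
      nlinarith
  · intro r
    obtain ⟨Lr, hLr1, hLr⟩ := finite_bounds _ (finite_words S (r + 1))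
    obtain ⟨J, hJ⟩ := fin_max (univ : Set C.ι) finite_univ (P := fun i (J : ℕ) => ∀ p ∈ LE A.Λ,
      ∀ (h : G) (a k m : ℕ) (n : ℤ), ∀ w ∈ Words S (r + 1), h ∈ Words S a →
      Good K0 (h • p) h⁻¹ → 1 ≤ D h p → (∀ D0, D h p ≤ D0 → a ≤ Θ D0) → A.len (h • p) ≤ 1 / K0 →
      (C.Z i).InD (m + k) (h • p) → (C.Z i).g ^ k • h • p = w • p + n → a + k ≤ J)
      (fun i a b hab H p hp h a' k m n w c1 c2 c3 c4 c5 c6 c7 c8 =>
        le_trans (H p hp h a' k m n w c1 c2 c3 c4 c5 c6 c7 c8) hab)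
      (fun i _ => hA.p1_zone (C.zone_ne i) (hC i) hK0 Θ (finite_words S (r + 1)) S)
    refine ⟨max J (Θ (3 * Lr)) + 1, fun v j hj hnear => ?_⟩
    rcases j with _ | j
    · omega
    have hn' : Near S (r + 1) v ((stp C.σ)^[j] v) := by
      rw [Function.iterate_succ_apply'] at hnear
      exact near_trans hnear (near_symm hinv (near_step (hσ _) _))
    obtain ⟨l, w1, w2, w3⟩ := hn'
    have hw : l.prod ∈ Words S (r + 1) := ⟨l, w1, w2, rfl⟩
    obtain ⟨p, hp, a, k, h, e1, e2, e3, g1, g2, g3, g4, g5⟩ := Dec v j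
      (fun i hi h => hj i (by omega) (Or.inr h))
    have l2 := notB (e3 ▸ hj a (by omega))
    rw [← e1, A.smul_cls, e1] at w3
    rcases g5 with rfl | ⟨i, m, b1, b2⟩
    · rw [show j = a by omega, e3, A.cls_eq_iff] at w3
      obtain ⟨n, w3⟩ := w3
      have l3 := lenp g1 l2
      have l4 := A.len_act_le (fun x => ((hLr _ hw).2 x).1) p
      rw [w3, A.len_int] at l3
      have := g4 (3 * Lr) (le_of_mul_le_mul_right (by linarith) (A.len_pos hp))
      omega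
    · rw [b2, A.cls_eq_iff] at w3
      obtain ⟨n, w3⟩ := w3
      have := hJ i trivial p hp h a k m n _ hw g2 g1 g3 g4 (by linarith) b1 w3
      omega
  · obtain ⟨Φ, hΦ, BP⟩ := hA.bp_good (S := S) hK0 (show 0 ≤ L by linarith)
      (fun s hs => (hL s hs).1) hc
    obtain ⟨r1, hr1⟩ := near_fin (X := A.X) hinv hgen hΦ
    obtain ⟨r2, hr2⟩ := fin_max (univ : Set C.ι) finite_univ (P := fun i (r : ℕ) =>
      ∀ p, ∀ hp : p ∈ LE A.Λ, ∀ m k : ℕ, (C.Z i).InD (m + k) p → ∀ (γ : ℕ → A.X) (n : ℕ),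
        IsPath S γ n → (∃ φ ∈ Φ, γ 0 = φ • A.cls p hp) → c ≤ A.len (γ n).1 →
        ∃ j ≤ n, Near S r (A.cls ((C.Z i).g ^ k • p) (A.act_LE _ hp)) (γ j))
      (fun i a b hab H p hp m k c1 γ n c2 c3 c4 => by
        obtain ⟨j, h1, h2⟩ := H p hp m k c1 γ n c2 c3 c4
        exact ⟨j, h1, near_mono h2 hab⟩) (fun i _ => by
        obtain ⟨Ψ, hΨ, M, H⟩ := hA.line (S := S) (show 0 ≤ L by linarith)
          (fun s hs => (hL s hs).1) hc (C.zone_ne i) (hC i) hΦ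
        obtain ⟨r, hr⟩ := near_fin (X := A.X) hinv hgen hΨ
        refine ⟨M + (r + r1), fun p hp m k c1 γ n c2 c3 c4 => ?_⟩
        rcases le_or_gt k M with hk | hk
        · obtain ⟨φ, hφ, e⟩ := c3
          refine ⟨0, Nat.zero_le _, ?_⟩
          rw [e, ← A.smul_cls _ hp]
          exact near_mono (near_trans (near_symm hinv (near_pow (hg i) k _)) (hr1 φ hφ _))
            (by omega)
        · obtain ⟨k', rfl⟩ : ∃ k', k = M + k' := ⟨k - M, by omega⟩
          obtain ⟨j, h1, ψ, hψ, e⟩ := H p hp _ k' c1 (by omega) γ n c2 c3 c4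
          refine ⟨j, h1, ?_⟩
          rw [e, ← A.smul_cls _ hp, ← A.smul_cls _ hp, pow_add, mul_smul]
          exact near_mono (near_trans (near_symm hinv (near_pow (hg i) M _)) (hr ψ hψ _))
            (by omega))
    refine ⟨1 + (r1 + r2), fun v a ha γ n hγ e0 hn => ?_⟩
    rcases a with _ | j
    · exact ⟨0, Nat.zero_le _, by rw [e0]; exact near_refl _ _⟩
    suffices H : ∃ k ≤ n, Near S (r1 + r2) ((stp C.σ)^[j] v) (γ k) by
      obtain ⟨k, h1, h2⟩ := H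
      refine ⟨k, h1, ?_⟩
      rw [Function.iterate_succ_apply']
      exact near_trans (near_symm hinv (near_step (hσ _) _)) h2
    obtain ⟨p, hp, a, k, h, e1, e2, e3, g1, g2, g3, g4, g5⟩ := Dec v j
      (fun i hi h => ha i (by omega) (Or.inr h))
    have l2 := notB (e3 ▸ ha a (by omega))
    obtain ⟨k1, hk1, ψ, hψ, e4⟩ := BP (h • p) (A.act_LE _ hp) l2.le h⁻¹ g1
      (by rw [D_inv]; exact inv_le_one_of_one_le₀ g3) γ n hγ
      (by rw [e0, ← A.smul_cls _ hp, inv_smul_smul, e1]) (Hc _ hn)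
    rcases g5 with rfl | ⟨i, m, b1, b2⟩
    · refine ⟨k1, hk1, ?_⟩
      rw [show j = a by omega, e3, e4]
      exact near_mono (hr1 ψ hψ _) (by omega)
    · obtain ⟨j', c1, c2⟩ := hr2 i trivial _ (A.act_LE h hp) m k b1 (fun t => γ (k1 + t)) (n - k1)
        (fun t ht => hγ (k1 + t) (by omega)) ⟨ψ, hψ, e4⟩
        (by rw [show k1 + (n - k1) = n by omega]; exact Hc _ hn)
      exact ⟨k1 + j', by omega, by rw [b2]; exact near_mono c2 (by omega)⟩

/-- `g` moves `x + 1` to `g x + a`. -/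
def Tp (g : Equiv.Perm ℝ) (a : ℝ) : Prop := ∀ x : ℝ, g (x + 1) = g x + a

theorem Tp.neg {g : Equiv.Perm ℝ} {a : ℝ} (h : Tp g a) (x : ℝ) : g (x + -1) = g x + -a := by
  have := h (x + -1)
  rw [show x + -1 + 1 = x by ring] at this
  linarith

theorem Tp.mul {g h : Equiv.Perm ℝ} {a b : ℝ} (h1 : Tp g a) (h2 : Tp h b) (hb : b = 1 ∨ b = -1) :
    Tp (g * h) (a * b) := by
  intro x
  rw [Equiv.Perm.mul_apply, Equiv.Perm.mul_apply, h2]
  rcases hb with rfl | rfl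
  · rw [h1, mul_one]
  · rw [h1.neg]; ring

theorem Tp.inv {g : Equiv.Perm ℝ} {a : ℝ} (h : Tp g a) (ha : a = 1 ∨ a = -1) : Tp g⁻¹ a := by
  intro x
  apply g.injective
  rcases ha with rfl | rfl
  · rw [h]; simp
  · rw [h.neg]; simp

/-- The orientation preserving subgroup. -/
def Hp (G0 : Subgroup (Equiv.Perm ℝ)) : Subgroup G0 where
  carrier := {g | Tp g.1 1}
  mul_mem' := fun h1 h2 => by simpa using Tp.mul h1 h2 (Or.inl rfl)
  one_mem' := fun _ => rfl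
  inv_mem' := fun h => Tp.inv h (Or.inl rfl)

theorem sign_cases {g : Equiv.Perm ℝ} (h1 : ContDiff ℝ 2 (⇑g)) (h2 : ∀ x : ℝ, deriv (⇑g) x ≠ 0)
    (h3 : (∀ x : ℝ, g (x + 1) = g x + 1) ∨ (∀ x : ℝ, g (x + 1) = g x - 1)) :
    ((∀ x, 0 < deriv (⇑g) x) ∧ StrictMono g ∧ Tp g 1) ∨
      ((∀ x, deriv (⇑g) x < 0) ∧ StrictAnti g ∧ Tp g (-1)) := by
  have hc : Continuous (deriv ⇑g) := h1.continuous_deriv (by norm_num)
  have key : (∀ x, 0 < deriv (⇑g) x) ∨ (∀ x, deriv (⇑g) x < 0) := by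
    by_contra h
    push Not at h
    obtain ⟨⟨x, hx⟩, ⟨y, hy⟩⟩ := h
    obtain ⟨z, hz⟩ := intermediate_value_univ x y hc ⟨hx, hy⟩
    exact h2 z hz
  rcases key with h | h
  · have hm := strictMono_of_deriv_pos h
    refine Or.inl ⟨h, hm, h3.resolve_right fun h' => ?_⟩
    have := hm (show (0 : ℝ) < 0 + 1 by norm_num)
    rw [h'] at this; linarith
  · have hm := strictAnti_of_deriv_neg h
    refine Or.inr ⟨h, hm, h3.resolve_left fun h' => ?_⟩
    have := hm (show (0 : ℝ) < 0 + 1 by norm_num)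
    rw [h'] at this; linarith

omit [SmoothAct G] in
theorem anti_gap (A : Cantor G) {r : ℝ → ℝ} (hr : StrictAnti r) (hs : Function.Surjective r)
    (hΛ : ∀ x, x ∈ A.Λ ↔ r x ∈ A.Λ) {p : ℝ} (hp : p ∈ LE A.Λ) :
    r (nxt A.Λ p) ∈ LE A.Λ ∧ nxt A.Λ (r (nxt A.Λ p)) = r p := by
  have h1 := hr (A.lt_nxt hp)
  have key : ∀ y ∈ A.Λ, r (nxt A.Λ p) < y → r p ≤ y := by
    intro y hy h
    obtain ⟨y, rfl⟩ := hs y
    exact hr.antitone (A.le_of_lt_nxt ((hΛ y).2 hy) (hr.lt_iff_gt.1 h))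
  have h2 : r (nxt A.Λ p) ∈ LE A.Λ := ⟨(hΛ _).1 (A.nxt_mem p), r p, h1,
    fun y hy hy' => absurd (key y hy' hy.1) (not_le.2 hy.2)⟩
  exact ⟨h2, le_antisymm (A.nxt_le ((hΛ p).1 hp.1) h1) (key _ (A.nxt_mem _) (A.lt_nxt h2))⟩

theorem dippolito_star (G0 : Subgroup (Equiv.Perm ℝ)) (hfg : G0.FG)
    (ht : Equiv.addRight (1 : ℝ) ∈ G0)
    (hG : ∀ g ∈ G0, ContDiff ℝ 2 (⇑g) ∧ (∀ x : ℝ, deriv (⇑g) x ≠ 0) ∧
      ((∀ x : ℝ, g (x + 1) = g x + 1) ∨ (∀ x : ℝ, g (x + 1) = g x - 1)))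
    (Λ : Set ℝ) (hne : Λ.Nonempty) (hperf : Perfect Λ) (hint : interior Λ = ∅)
    (hinv : ∀ g ∈ G0, ∀ x ∈ Λ, g x ∈ Λ)
    (hstar : ∀ x ∈ Λ, (∀ g ∈ G0, |deriv (⇑g) x| ≤ 1) →
      (x ∈ closure (Λ ∩ Ioi x) → ∃ g ∈ G0, g x = x ∧ 0 < deriv (⇑g) x ∧
        ∃ ε > 0, ∀ u ∈ Ioo x (x + ε), g u ≠ u) ∧
      (x ∈ closure (Λ ∩ Iio x) → ∃ g ∈ G0, g x = x ∧ 0 < deriv (⇑g) x ∧
        ∃ ε > 0, ∀ u ∈ Ioo (x - ε) x, g u ≠ u)) :
    ∃ φ : ℝ ≃ₜ ℝ, (∀ x : ℝ, φ (x + 1) = φ x + 1) ∧ ∃ ρ : G0 →* (ℝ ≃ₜ ℝ),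
      (∀ x : ℝ, ρ ⟨_, ht⟩ x = x + 1) ∧ ∀ g : G0,
      ((∀ x : ℝ, ρ g (x + 1) = ρ g x + 1) ∨ (∀ x : ℝ, ρ g (x + 1) = ρ g x - 1)) ∧
      (∃ B : Finset ℝ, ∀ x : ℝ, (∀ b ∈ B, ∀ n : ℤ, x ≠ b + n) →
        ∃ ε > 0, ∃ a c : ℝ, ∀ z : ℝ, |z - x| < ε → ρ g z = a * z + c) ∧
      ∀ x ∈ Λ, φ ((g : Equiv.Perm ℝ) x) = ρ g (φ x) := by
  classical
  have sg := fun g hg => sign_cases (hG g hg).1 (hG g hg).2.1 (hG g hg).2.2
  have hiff : ∀ g ∈ G0, ∀ x, x ∈ Λ ↔ g x ∈ Λ := fun g hg x =>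
    ⟨hinv g hg x, fun h => by simpa using hinv g⁻¹ (G0.inv_mem hg) _ h⟩
  have no : ∀ {g : Equiv.Perm ℝ}, Tp g 1 → Tp g (-1) → False := fun h h' => by
    linarith [h 0, h' 0]
  have : SmoothAct (Hp G0) := ⟨fun g => (hG _ g.1.2).1, fun g x => by
    rcases sg _ g.1.2 with h | h
    · exact h.1 x
    · exact (no g.2 h.2.2).elim, fun g => g.2⟩
  have chain : ∀ g ∈ G0, ∀ h ∈ G0, ∀ x, deriv (⇑(g * h)) x = deriv (⇑g) (h x) * deriv (⇑h) x :=
    fun g hg h hh x => by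
      rw [Equiv.Perm.coe_mul]
      exact deriv_comp x ((hG g hg).1.differentiable (by norm_num) _)
        ((hG h hh).1.differentiable (by norm_num) _)
  let A : Cantor (Hp G0) := ⟨Λ, ⟨⟨_, ht⟩, fun _ => rfl⟩, fun _ => rfl, hperf.closed, hne,
    fun x hx ε hε => by
      obtain ⟨y, h1, h2⟩ := (accPt_iff_nhds.1 (hperf.acc x hx)) _ (Metric.ball_mem_nhds x hε)
      exact ⟨y, h1.2, h2, by simpa [Real.dist_eq] using h1.1⟩,
    fun a b hab => by
      by_contra h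
      push Not at h
      have : Ioo a b ⊆ interior Λ := interior_maximal (fun u hu => h u hu.1 hu.2) isOpen_Ioo
      rw [hint] at this
      exact this (show (a + b) / 2 ∈ Ioo a b from ⟨by linarith, by linarith⟩),
    fun g => hinv _ g.1.2⟩
  have star0 : ∀ y ∈ Λ, (∀ g ∈ G0, |deriv (⇑g) y| ≤ 1) → ∀ s, (s = 1 ∨ s = -1) → A.Acc y s →
      ∃ h : Hp G0, Pos y s h := by
    intro y hy h s hs ha
    have key : ∃ g ∈ G0, g y = y ∧ 0 < deriv (⇑g) y ∧ ∃ ε > 0, ∀ u, s * y < s * u →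
        s * u < s * y + ε → g u ≠ u := by
      rcases hs with rfl | rfl
      · obtain ⟨g, h1, h2, h3, ε, h4, h5⟩ := (hstar y hy h).1 (Metric.mem_closure_iff.2 fun ε hε => by
          obtain ⟨u, hu, a, b⟩ := ha ε hε
          exact ⟨u, ⟨hu, by simpa using a⟩, by
            rw [Real.dist_eq, abs_lt]; constructor <;> linarith⟩)
        exact ⟨g, h1, h2, h3, ε, h4, fun u a b => h5 u ⟨by linarith, by linarith⟩⟩
      · obtain ⟨g, h1, h2, h3, ε, h4, h5⟩ := (hstar y hy h).2 (Metric.mem_closure_iff.2 fun ε hε => by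
          obtain ⟨u, hu, a, b⟩ := ha ε hε
          exact ⟨u, ⟨hu, by simpa using a⟩, by
            rw [Real.dist_eq, abs_lt]; constructor <;> linarith⟩)
        exact ⟨g, h1, h2, h3, ε, h4, fun u a b => h5 u ⟨by linarith, by linarith⟩⟩
    obtain ⟨g, h1, h2, h3, ε, h4, h5⟩ := key
    have hg : Tp g 1 := by
      rcases sg g h1 with h | h
      · exact h.2.2
      · linarith [h.1 y]
    rcases pos_of_nofix (g := (⟨⟨g, h1⟩, hg⟩ : Hp G0)) hs h2 h4 h5 with h | h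
    · exact ⟨_, h⟩
    · exact ⟨_, h⟩
  have hT : ∀ g ∈ G0, ∀ (n : ℤ) (x : ℝ), deriv (⇑(g * (A.t ^ n).1.1)) x = deriv (⇑g) (x + n) := by
    intro g hg n x
    rw [chain g hg _ (A.t ^ n).1.2]
    have h1 : (A.t ^ n).1.1 x = x + n := A.tz_smul n x
    have h2 : deriv (⇑(A.t ^ n).1.1) x = 1 := A.D_tz n x
    rw [h1, h2, mul_one]
  have hA : A.Star := by
    obtain ⟨κ, hκ, H⟩ := unif (P := fun κ u => u ∈ Λ → (∀ g ∈ G0, |deriv (⇑g) u| ≤ 1) ∨
        ∃ g ∈ G0, 1 + κ ≤ |deriv (⇑g) u|)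
      (fun a b u _ hab h hu => (h hu).imp_right fun ⟨g, h1, h2⟩ => ⟨g, h1, by linarith⟩)
      (isCompact_Icc (a := (0 : ℝ)) (b := 1)) (by
        intro y _
        by_cases hy : y ∈ Λ
        swap
        · exact ⟨1, one_pos, mem_of_superset (hperf.closed.isOpen_compl.mem_nhds hy)
            fun u hu hu' => absurd hu' hu⟩
        by_cases h : ∀ g ∈ G0, |deriv (⇑g) y| ≤ 1
        · have side : ∀ s : ℝ, (s = 1 ∨ s = -1) → ∃ ε > 0, ∀ u ∈ Λ, s * y < s * u →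
              s * u < s * y + ε → ∃ g ∈ G0, 1 + 1 ≤ |deriv (⇑g) u| := by
            intro s hs
            by_cases ha : A.Acc y s
            · obtain ⟨g, hg⟩ := star0 y hy h s hs ha
              obtain ⟨Z, rfl, rfl, -⟩ := A.exists_zone hs ha hg
              obtain ⟨n, hn⟩ := Z.deep_two
              refine ⟨_, sub_pos.2 (Z.pt_pos (n + 1)), fun u _ a b => ?_⟩
              obtain ⟨m, c, d⟩ := Z.near n a (by linarith)
              refine ⟨_, (Z.g ^ m).1.2, le_trans ?_ (le_abs_self _)⟩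
              rw [one_add_one_eq_two]; exact hn m u c d
            · unfold Cantor.Acc at ha
              push Not at ha
              obtain ⟨ε, hε, h⟩ := ha
              exact ⟨ε, hε, fun u hu h1 h2 => absurd (h u hu h1) (not_le.2 h2)⟩
          obtain ⟨ε1, h1, H1⟩ := side 1 (Or.inl rfl)
          obtain ⟨ε2, h2, H2⟩ := side (-1) (Or.inr rfl)
          refine ⟨1, one_pos, mem_of_superset (Ioo_mem_nhds (show y - ε2 < y by linarith)
            (show y < y + ε1 by linarith)) fun u hu hu' => ?_⟩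
          rcases lt_trichotomy u y with c | c | c
          · exact Or.inr (H2 u hu' (by linarith) (by linarith [hu.1]))
          · rw [c]; exact Or.inl h
          · exact Or.inr (H1 u hu' (by linarith) (by linarith [hu.2]))
        · push Not at h
          obtain ⟨g, hg, h⟩ := h
          have hc : Continuous (deriv ⇑g) := (hG g hg).1.continuous_deriv (by norm_num)
          refine ⟨(|deriv (⇑g) y| - 1) / 2, by linarith, ?_⟩
          filter_upwards [hc.abs.continuousAt.eventually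
            (lt_mem_nhds (show 1 + (|deriv (⇑g) y| - 1) / 2 < |deriv (⇑g) y| by linarith))]
            with u hu _
          exact Or.inr ⟨g, hg, hu.le⟩)
    have H' : ∀ u ∈ Λ, (∀ g ∈ G0, |deriv (⇑g) u| ≤ 1) ∨ ∃ g ∈ G0, 1 + κ ≤ |deriv (⇑g) u| := by
      intro u hu
      have e := Int.fract_add_floor u
      rcases H (Int.fract u) ⟨Int.fract_nonneg _, (Int.fract_lt_one _).le⟩
        ((A.add_int_mem ⌊u⌋).1 (by rw [e]; exact hu)) with h | ⟨g, hg, h⟩
      · refine Or.inl fun g hg => ?_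
        rw [← e, ← hT g hg]; exact h _ (G0.mul_mem hg (A.t ^ ⌊u⌋).1.2)
      · refine Or.inr ⟨_, G0.mul_mem hg (A.t ^ (-⌊u⌋)).1.2, ?_⟩
        rw [hT g hg]; push_cast; exact h
    intro x s hx hs ha
    have hb : BddAbove {d | ∃ g ∈ G0, d = |deriv (⇑g) x|} := by
      have hpos : ∀ g ∈ G0, Tp g 1 → |deriv (⇑g) x| ≤ 1 := fun g hg h => by
        have h1 := hx.2 ⟨⟨g, hg⟩, h⟩
        have h2 := D_pos (⟨⟨g, hg⟩, h⟩ : Hp G0) x
        exact (abs_of_pos h2).le.trans h1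
      by_cases hr : ∃ r ∈ G0, Tp r (-1)
      · obtain ⟨r, hr, hr'⟩ := hr
        obtain ⟨C, hC0, hC⟩ := per_bdd (deriv ⇑r) ((hG r hr).1.continuous_deriv (by norm_num))
          (fun y n => by
            have h1 : (fun z => r (z + n)) = fun z => r z - n := funext fun z => by
              have := PL.add_int (f := fun z => - r z) (fun z => by rw [hr' z]; ring) n z
              linarith
            rw [← deriv_comp_add_const, h1, deriv_sub_const])
        refine ⟨max 1 C, ?_⟩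
        rintro _ ⟨g, hg, rfl⟩
        rcases sg g hg with h | h
        · exact le_trans (hpos g hg h.2.2) (le_max_left _ _)
        · have h1 : Tp (r⁻¹ * g) 1 := by
            simpa using (hr'.inv (Or.inr rfl)).mul h.2.2 (Or.inr rfl)
          have h2 := hpos _ (G0.mul_mem (G0.inv_mem hr) hg) h1
          have h3 := chain r hr _ (G0.mul_mem (G0.inv_mem hr) hg) x
          rw [mul_inv_cancel_left] at h3
          rw [h3, abs_mul]
          exact le_trans (mul_le_of_le_one_right (abs_nonneg _) h2)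
            (le_trans (hC _) (le_max_right _ _))
      · refine ⟨1, ?_⟩
        rintro _ ⟨g, hg, rfl⟩
        exact hpos g hg ((sg g hg).resolve_right fun h => hr ⟨g, hg, h.2.2⟩).2.2
    have h1 : (1 : ℝ) ∈ {d | ∃ g ∈ G0, d = |deriv (⇑g) x|} := ⟨1, G0.one_mem, by simp⟩
    have h2 := le_csSup hb h1
    obtain ⟨_, ⟨g, hg, rfl⟩, h3⟩ := exists_lt_of_lt_csSup ⟨1, h1⟩
      (show sSup {d | ∃ g ∈ G0, d = |deriv (⇑g) x|} / (1 + κ) < _ from
        div_lt_self (by linarith) (by linarith))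
    rw [div_lt_iff₀ (by linarith)] at h3
    have h4 := (H' (g x) (hinv g hg x hx.1)).resolve_right (by
      rintro ⟨f, hf, h⟩
      have := le_csSup hb ⟨_, G0.mul_mem hf hg, rfl⟩
      rw [chain f hf g hg, abs_mul] at this
      nlinarith [abs_nonneg (deriv (⇑g) x)])
    obtain ⟨s', a, hs', ha', hTp, hm⟩ : ∃ s' a : ℝ, (s' = 1 ∨ s' = -1) ∧ (a = 1 ∨ a = -1) ∧
        Tp g a ∧ ∀ u v, s * u < s * v ↔ s' * g u < s' * g v := by
      rcases sg g hg with h | h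
      · refine ⟨s, 1, hs, Or.inl rfl, h.2.2, fun u v => ?_⟩
        rcases hs with rfl | rfl <;> simp [h.2.1.lt_iff_lt]
      · refine ⟨-s, -1, ?_, Or.inr rfl, h.2.2, fun u v => ?_⟩
        · rcases hs with rfl | rfl <;> simp
        · rcases hs with rfl | rfl <;> simp [h.2.1.lt_iff_gt]
    have hcont : ∀ ε > 0, ∃ δ > 0, ∀ u, s * x < s * u → s * u < s * x + δ →
        s' * g u < s' * g x + ε := by
      intro ε hε
      obtain ⟨δ, hδ, h⟩ := Metric.continuousAt_iff.1 ((hG g hg).1.continuous.continuousAt (x := x))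
        ε hε
      refine ⟨δ, hδ, fun u a b => ?_⟩
      have := h (x := u) (by rw [Real.dist_eq, s_abs hs, abs_lt]; constructor <;> linarith)
      rw [Real.dist_eq, s_abs hs', abs_lt] at this
      linarith [this.2]
    obtain ⟨f, f1, ε, hε, f2⟩ := star0 _ (hinv g hg x hx.1) h4 s' hs' (fun ε hε => by
      obtain ⟨δ, hδ, h⟩ := hcont ε hε
      obtain ⟨u, hu, b, c⟩ := ha δ hδ
      exact ⟨g u, hinv g hg u hu, (hm _ _).1 b, h u b c⟩)
    obtain ⟨δ, hδ, h⟩ := hcont ε hε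
    have hc : Tp (g⁻¹ * f.1.1 * g) 1 := by
      have := ((hTp.inv ha').mul f.2 (Or.inl rfl)).mul hTp ha'
      rcases ha' with rfl | rfl <;> simpa using this
    refine ⟨⟨⟨_, G0.mul_mem (G0.mul_mem (G0.inv_mem hg) f.1.2) hg⟩, hc⟩, ?_, δ, hδ,
      fun u b c => ?_⟩
    · show g⁻¹ (f • g x) = x
      rw [f1]; simp
    · show s * u < s * g⁻¹ (f • g u)
      rw [hm]
      simpa using f2 _ ((hm _ _).1 b) (h u b c)
  have hFG : Group.FG (Hp G0) := by
    have : Group.FG G0 := (Group.fg_iff_subgroup_fg G0).2 hfg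
    have : (Hp G0).FiniteIndex := by
      by_cases hr : ∃ r : G0, r ∉ Hp G0
      · obtain ⟨r, hr⟩ := hr
        have hr' : Tp r.1 (-1) := ((sg _ r.2).resolve_left fun h => hr h.2.2).2.2
        refine ⟨?_⟩
        rw [Subgroup.index_eq_two_iff.2 ⟨r, fun b => ?_⟩]
        · norm_num
        · rcases sg _ b.2 with h | h
          · exact Or.inr ⟨h.2.2, fun h' => no h' (by simpa using h.2.2.mul hr' (Or.inr rfl))⟩
          · exact Or.inl ⟨show Tp (b.1 * r.1) 1 by simpa using h.2.2.mul hr' (Or.inr rfl),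
              fun h' => no h' h.2.2⟩
      · push Not at hr
        rw [(Subgroup.eq_top_iff' _).2 hr]; infer_instance
    exact Subgroup.fg_of_index_ne_zero _
  obtain ⟨ℓ, l1, l2, l3, l4⟩ := hA.weights hFG
  have l5 : ∀ g ∈ G0, Tp g 1 → ∃ E : Finset ℝ, ∀ p ∈ LE Λ, ∀ q ∈ LE Λ, Sep E p q →
      ℓ (g p) * ℓ q = ℓ (g q) * ℓ p := fun g hg h => l4 ⟨⟨g, hg⟩, h⟩
  have hG' : ∀ g ∈ G0, ((StrictMono g ∧ ∀ x, g (x + 1) = g x + 1) ∨
      (StrictAnti g ∧ ∀ x, g (x + 1) = g x - 1)) ∧ ∀ x, x ∈ Λ ↔ g x ∈ Λ := fun g hg =>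
    ⟨(sg g hg).imp (fun h => h.2) (fun h => h.2), hiff g hg⟩
  by_cases hr : ∃ r ∈ G0, Tp r (-1)
  swap
  · refine pl_hom Λ hperf.closed hne hint G0 ht hG' ℓ l1 l2 l3 (fun g hg => ?_)
    have h := (sg g hg).resolve_right fun h => hr ⟨g, hg, h.2.2⟩
    obtain ⟨E, hE⟩ := l5 g hg h.2.2
    refine ⟨E, fun p hp q hq H => ?_⟩
    rw [min_eq_left (h.2.1.monotone (A.le_nxt p)), min_eq_left (h.2.1.monotone (A.le_nxt q))]
    exact hE p hp q hq H
  obtain ⟨r, hr, hr'⟩ := hr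
  have hra : StrictAnti r := ((sg r hr).resolve_left fun h => no h.2.2 hr').2.1
  have hrg := fun p hp => anti_gap A hra r.surjective (hiff r hr) (p := p) hp
  have lper : ∀ p (n : ℤ), ℓ (p + n) = ℓ p := fun p n => by
    simpa using Function.Periodic.int_mul (f := ℓ) (c := 1) l2 n p
  have l6 : ∀ b ∈ G0, Tp b 1 → ∃ E : Finset ℝ, ∀ p ∈ LE Λ, ∀ q ∈ LE Λ, Sep E p q →
      ℓ (b (r (nxt Λ p))) * ℓ (r (nxt Λ q)) = ℓ (b (r (nxt Λ q))) * ℓ (r (nxt Λ p)) := by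
    intro b hb h
    obtain ⟨E, hE⟩ := l5 b hb h
    have hl : ∀ e : ℝ, ∃ f : ℝ, ∀ q ∈ Λ, q < e → e ≤ nxt Λ q → q = f := by
      intro e
      by_cases h : ∃ q ∈ Λ, q < e ∧ e ≤ nxt Λ q
      · obtain ⟨f, h1, h2, h3⟩ := h
        exact ⟨f, fun q a b c => le_antisymm (A.le_of_lt_nxt a (lt_of_lt_of_le b h3))
          (A.le_of_lt_nxt h1 (lt_of_lt_of_le h2 c))⟩
      · exact ⟨0, fun q a b c => absurd ⟨q, a, b, c⟩ h⟩
    choose lf hlf using hl
    refine ⟨E.image (fun e => r⁻¹ e) ∪ E.image (fun e => lf (r⁻¹ e)), fun p hp q hq H =>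
      hE _ (hrg p hp).1 _ (hrg q hq).1 (fun e he n hn => ?_)⟩
    have e1 : r (r⁻¹ e + (-n : ℤ)) = e + n := by
      have := PL.add_int (f := fun z => - r z) (fun z => by rw [hr' z]; ring) (-n) (r⁻¹ e)
      simp at this ⊢
      linarith
    have s1 := H _ (Finset.mem_union_left _ (Finset.mem_image_of_mem _ he)) (-n)
    have s2 := H _ (Finset.mem_union_right _ (Finset.mem_image_of_mem _ he)) (-n)
    have key : ∀ p q, p ∈ Λ → q ∈ Λ → nxt Λ p ≤ r⁻¹ e + (-n : ℤ) → r⁻¹ e + (-n : ℤ) ≤ nxt Λ q →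
        r⁻¹ e + (-n : ℤ) ∈ uIcc p q ∨ lf (r⁻¹ e) + (-n : ℤ) ∈ uIcc p q := by
      intro p q _ hq a b
      rcases le_or_gt (r⁻¹ e + (-n : ℤ)) q with c | c
      · exact Or.inl (mem_uIcc.2 (Or.inl ⟨le_trans (A.le_nxt p) a, c⟩))
      · right
        rw [← hlf (r⁻¹ e) (q + n) ((A.add_int_mem n).2 hq) (by push_cast at c; linarith)
          (by have := A.nxt_int q n
              push_cast at b
              change nxt Λ (q + n) = nxt Λ q + n at this
              linarith)]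
        simp
    rw [← e1, mem_uIcc, hra.le_iff_ge, hra.le_iff_ge, hra.le_iff_ge, hra.le_iff_ge] at hn
    rcases hn with hn | hn
    · rw [uIcc_comm] at s1 s2
      exact (key q p hq.1 hp.1 hn.2 hn.1).elim s1 s2
    · exact (key p q hp.1 hq.1 hn.2 hn.1).elim s1 s2
  refine pl_hom Λ hperf.closed hne hint G0 ht hG' (fun p => ℓ p * ℓ (r (nxt Λ p)))
    (fun p hp => mul_pos (l1 p hp) (l1 _ (hrg p hp).1)) (fun p => ?_) ?_ (fun g hg => ?_)
  · have h1 : nxt Λ (p + 1) = nxt Λ p + 1 := by simpa using A.nxt_int p 1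
    have h2 := lper (r (nxt Λ p)) (-1)
    push_cast at h2
    simp only [h1, l2, hr' _, h2]
  · refine Summable.of_nonneg_of_le (fun p => (mul_pos (l1 _ p.2.1) (l1 _ (hrg _ p.2.1).1)).le)
      (fun p => ?_) (l3.mul_right (∑' p : ↥(LE Λ ∩ Ico 0 1), ℓ p))
    refine mul_le_mul_of_nonneg_left ?_ (l1 _ p.2.1).le
    have := l3.le_tsum (A.cls _ (hrg _ p.2.1).1) (fun j _ => (l1 _ j.2.1).le)
    refine le_trans (le_of_eq ?_) this
    show _ = ℓ (Int.fract _)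
    rw [← lper (Int.fract _) ⌊r (nxt Λ p)⌋, Int.fract_add_floor]
  · obtain ⟨a, ha, ha', b, hb, hb', e⟩ : ∃ a ∈ G0, Tp a 1 ∧ ∃ b ∈ G0, Tp b 1 ∧ ∀ p ∈ LE Λ,
        ℓ (min (g p) (g (nxt Λ p))) * ℓ (r (nxt Λ (min (g p) (g (nxt Λ p))))) =
          ℓ (a p) * ℓ (b (r (nxt Λ p))) := by
      rcases sg g hg with h | h
      · refine ⟨g, hg, h.2.2, r * g * r⁻¹, G0.mul_mem (G0.mul_mem hr hg) (G0.inv_mem hr), by
          simpa using (hr'.mul h.2.2 (Or.inl rfl)).mul (hr'.inv (Or.inr rfl)) (Or.inr rfl),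
          fun p _ => ?_⟩
        have h1 : nxt Λ (g p) = g (nxt Λ p) := A.nxt_act (⟨⟨g, hg⟩, h.2.2⟩ : Hp G0) p
        rw [min_eq_left (h.2.1.monotone (A.le_nxt p)), h1]
        simp
      · refine ⟨r * g, G0.mul_mem hr hg, by simpa using hr'.mul h.2.2 (Or.inr rfl), g * r⁻¹,
          G0.mul_mem hg (G0.inv_mem hr),
          by simpa using h.2.2.mul (hr'.inv (Or.inr rfl)) (Or.inr rfl), fun p hp => ?_⟩
        have h1 : nxt Λ (g (nxt Λ p)) = g p :=
          (anti_gap A h.2.1 g.surjective (hiff g hg) hp).2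
        rw [min_eq_right (h.2.1.antitone (show p ≤ nxt Λ p from A.le_nxt p)), h1, mul_comm]
        simp
    obtain ⟨E1, h1⟩ := l5 a ha ha'
    obtain ⟨E2, h2⟩ := l6 b hb hb'
    refine ⟨E1 ∪ E2, fun p hp q hq H => ?_⟩
    have k1 := h1 p hp q hq fun x hx => H x (Finset.mem_union_left _ hx)
    have k2 := h2 p hp q hq fun x hx => H x (Finset.mem_union_right _ hx)
    simp only [e p hp, e q hq]
    linear_combination (ℓ (b (r (nxt Λ p))) * ℓ (r (nxt Λ q))) * k1 + (ℓ (a q) * ℓ p) * k2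

theorem interior_empty (G0 : Subgroup (Equiv.Perm ℝ)) (hG : ∀ g ∈ G0, Continuous (⇑g))
    {Λ : Set ℝ} (hne : Λ.Nonempty) (hc : IsClosed Λ) (hu : Λ ≠ univ)
    (hinv : ∀ g ∈ G0, ∀ x ∈ Λ, g x ∈ Λ)
    (hmin : ∀ x ∈ Λ, Λ ⊆ closure {y : ℝ | ∃ g ∈ G0, g x = y}) : interior Λ = ∅ := by
  obtain ⟨x, hx⟩ := nonempty_frontier_iff.2 ⟨hne, hu⟩
  rw [hc.frontier_eq] at hx
  have h : {y : ℝ | ∃ g ∈ G0, g x = y} ⊆ (interior Λ)ᶜ := by
    rintro _ ⟨g, hg, rfl⟩ h
    refine hx.2 (mem_interior_iff_mem_nhds.2 (mem_of_superset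
      ((hG g hg).continuousAt.preimage_mem_nhds (mem_interior_iff_mem_nhds.1 h)) fun y hy => ?_))
    simpa using hinv g⁻¹ (G0.inv_mem hg) _ hy
  have := (hmin x hx.1).trans (closure_minimal h isOpen_interior.isClosed_compl)
  exact eq_empty_of_forall_notMem fun y hy => this (interior_subset hy) hy

end Pool.Agent.Lib.MP_173a7e_an
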