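import Pool.Agent.Lib.MP_173a7e_an.Hector
import Pool.Agent.Lib.MP_173a7e_an.Comb

-- part Pool.Agent.Lib.MP_173a7e_an.Tame
section

/-! The filter of unseparated pairs of gaps and the expansion procedure. -/

set_option autoImplicit false

namespace Pool.Agent.Lib.MP_173a7e_an

open Set Filter Topology

variable {G : Type} [Group G] [MulAction G ℝ] [SmoothAct G] {A : Cantor G}

/-- No integer translate of a point of `E` lies between `p` and `q`. -/
def Sep (E : Finset ℝ) (p q : ℝ) : Prop := ∀ e ∈ E, ∀ n : ℤ, e + n ∉ uIcc p q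

/-- The filter of pairs of gaps not separated by a finite set. -/
def Cantor.F (A : Cantor G) : Filter (A.X × A.X) where
  sets := {s | ∃ E : Finset ℝ, ∀ p hp q hq, Sep E p q → (A.cls p hp, A.cls q hq) ∈ s}
  univ_sets := ⟨∅, fun _ _ _ _ _ => trivial⟩
  sets_of_superset := fun ⟨E, h⟩ hs => ⟨E, fun p hp q hq H => hs (h p hp q hq H)⟩
  inter_sets := fun ⟨E, h⟩ ⟨E', h'⟩ => ⟨E ∪ E', fun p hp q hq H =>
    ⟨h p hp q hq fun e he => H e (Finset.mem_union_left _ he),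
      h' p hp q hq fun e he => H e (Finset.mem_union_right _ he)⟩⟩

theorem Cantor.ev_F (A : Cantor G) {Q : A.X × A.X → Prop} : (∀ᶠ w in A.F, Q w) ↔
    ∃ E : Finset ℝ, ∀ p hp q hq, Sep E p q → Q (A.cls p hp, A.cls q hq) := Iff.rfl

theorem Cantor.F_inv (A : Cantor G) (g : G) :
    Tendsto (fun p : A.X × A.X => (g • p.1, g • p.2)) A.F A.F := by
  classical
  rintro s ⟨E, h⟩
  refine ⟨E.image (fun e => g⁻¹ • e), fun p hp q hq H => ?_⟩
  show (g • A.cls p hp, g • A.cls q hq) ∈ s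
  rw [A.smul_cls, A.smul_cls]
  refine h _ _ _ _ (fun e he n hn => H _ (Finset.mem_image_of_mem _ he) n ?_)
  rw [← act_int, ← act_uIcc g, smul_inv_smul]; exact hn

theorem Cantor.tame_real (A : Cantor G) {Q : ℝ → Prop} (hper : ∀ u (n : ℤ), Q (u + n) ↔ Q u)
    (E : Finset ℝ) (h : ∀ p ∈ LE A.Λ, ∀ q ∈ LE A.Λ, Sep E p q → Q p → Q q) :
    ∀ᶠ w in A.F, (Q w.1.1 ↔ Q w.2.1) := by
  refine A.ev_F.2 ⟨E, fun p hp q hq H => ?_⟩
  show Q (Int.fract p) ↔ Q (Int.fract q)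
  rw [← hper _ ⌊p⌋, ← hper (Int.fract q) ⌊q⌋, Int.fract_add_floor, Int.fract_add_floor]
  exact ⟨h p hp q hq H, h q hq p hp (fun e he n hn => H e he n (by rwa [uIcc_comm]))⟩

theorem Cantor.tame_two (A : Cantor G) {R : ℝ → Prop} (a b : ℝ)
    (h : ∀ u v, R u → a ∉ uIcc u v → b ∉ uIcc u v → R v) :
    ∀ᶠ w in A.F, ((∃ n : ℤ, R (w.1.1 + n)) ↔ ∃ n : ℤ, R (w.2.1 + n)) := by
  classical
  refine A.tame_real (Q := fun u => ∃ n : ℤ, R (u + n)) (fun u n => ⟨?_, ?_⟩) {a, b} ?_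
  · rintro ⟨k, hk⟩; exact ⟨n + k, by push_cast; rwa [← add_assoc]⟩
  · rintro ⟨k, hk⟩; exact ⟨k - n, by push_cast; rwa [show u + n + (k - n) = u + k by ring]⟩
  · rintro p - q - H ⟨n, hn⟩
    have key : ∀ c, c ∈ ({a, b} : Finset ℝ) → c ∉ uIcc (p + n) (q + n) := by
      intro c hc h'
      refine H c hc (-n) ?_
      rw [mem_uIcc] at *
      push_cast
      rcases h' with h' | h' <;> [left; right] <;> constructor <;> linarith [h'.1, h'.2]
    exact ⟨n, h _ _ hn (key a (by simp)) (key b (by simp))⟩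

theorem Cantor.tame_loc (A : Cantor G) {Q : ℝ → Prop} (hper : ∀ u (n : ℤ), Q (u + n) ↔ Q u)
    (h : ∀ y s : ℝ, (s = 1 ∨ s = -1) → ∃ ε > 0,
      (∀ u ∈ A.Λ, s * y < s * u → s * u < s * y + ε → Q u) ∨
      (∀ u ∈ A.Λ, s * y < s * u → s * u < s * y + ε → ¬ Q u)) :
    ∀ᶠ w in A.F, (Q w.1.1 ↔ Q w.2.1) := by
  classical
  have h' : ∀ y : ℝ, ∃ ε > 0, ∀ u ∈ A.Λ, ∀ v ∈ A.Λ, y ∉ uIcc u v → |u - y| < ε → |v - y| < ε →
      Q u → Q v := by
    intro y
    obtain ⟨ε1, a1, H1⟩ := h y 1 (Or.inl rfl)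
    obtain ⟨ε2, a2, H2⟩ := h y (-1) (Or.inr rfl)
    refine ⟨min ε1 ε2, lt_min a1 a2, fun u hu v hv hy h1 h2 hQ => ?_⟩
    have := min_le_left ε1 ε2
    have := min_le_right ε1 ε2
    rw [abs_lt] at h1 h2
    rw [mem_uIcc] at hy
    push Not at hy
    rcases lt_or_ge y u with hl | hl
    · have hv' : y < v := by
        by_contra hc; linarith [hy.2 (le_of_not_gt hc)]
      rcases H1 with H | H
      · exact H v hv (by linarith) (by linarith)
      · exact absurd hQ (H u hu (by linarith) (by linarith))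
    · have hv' := hy.1 hl
      have hu' := hy.2 hv'.le
      rcases H2 with H | H
      · exact H v hv (by linarith) (by linarith)
      · exact absurd hQ (H u hu (by linarith) (by linarith))
  choose ε hε H using h'
  obtain ⟨T, -, hcov⟩ := (isCompact_Icc (a := (0 : ℝ)) (b := 1)).elim_nhds_subcover
    (fun z => Ioo (z - ε z) (z + ε z))
    (fun z _ => Ioo_mem_nhds (by linarith [hε z]) (by linarith [hε z]))
  refine A.tame_real hper (T ∪ (T.image (fun z => z - ε z) ∪ T.image (fun z => z + ε z)))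
    (fun p hp q hq hS hQ => ?_)
  have := hcov (show Int.fract p ∈ Icc (0 : ℝ) 1 from ⟨Int.fract_nonneg _, (Int.fract_lt_one _).le⟩)
  simp only [mem_iUnion] at this
  obtain ⟨z, hz, h1, h2⟩ := this
  have e := Int.fract_add_floor p
  have s1 := hS z (by simp [hz]) ⌊p⌋
  have s2 := hS (z - ε z) (Finset.mem_union_right _ (Finset.mem_union_left _
    (Finset.mem_image_of_mem _ hz))) ⌊p⌋
  have s3 := hS (z + ε z) (Finset.mem_union_right _ (Finset.mem_union_right _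
    (Finset.mem_image_of_mem _ hz))) ⌊p⌋
  rw [mem_uIcc] at s2 s3
  push Not at s2 s3
  rw [← hper _ (-⌊p⌋)] at hQ ⊢
  refine H z _ ((A.add_int_mem _).2 hp.1) _ ((A.add_int_mem _).2 hq.1) (fun h' => s1 ?_) ?_ ?_ hQ
  · rw [mem_uIcc] at *
    push_cast at h'
    rcases h' with h' | h' <;> [left; right] <;> constructor <;> linarith [h'.1, h'.2]
  · rw [abs_lt]; push_cast; constructor <;> linarith
  · rw [abs_lt]; push_cast
    constructor
    · by_contra hc; linarith [s2.2 (by linarith)]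
    · linarith [s3.1 (by linarith)]

theorem Cantor.Star.tame_fix (hA : A.Star) (g : G) :
    ∀ᶠ w in A.F, (g • w.1 = w.1 ↔ g • w.2 = w.2) := by
  obtain ⟨C, -, hC⟩ := per_bdd (fun u => g • u - u) ((cont_smul g).sub continuous_id)
    (fun x n => by rw [act_int]; ring)
  have h1 : ∀ n : ℤ, ∀ᶠ w in A.F, ((A.t ^ (-n) * g) • w.1.1 = w.1.1 ↔
      (A.t ^ (-n) * g) • w.2.1 = w.2.1) := fun n =>
    A.tame_loc (Q := fun u => (A.t ^ (-n) * g) • u = u) (fun u k => by rw [act_int]; simp)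
      (fun y s hs => hA.fix_loc _ y hs)
  have h2 : ∀ v : A.X, g • v = v ↔ ∃ n ∈ Icc ⌊-C⌋ ⌊C⌋, (A.t ^ (-n) * g) • v.1 = v.1 := by
    intro v
    conv_lhs => rw [← A.cls_val v, A.smul_cls, A.cls_eq_iff]
    refine exists_congr fun n => ?_
    rw [mul_smul, A.tz_smul]
    push_cast
    constructor
    · intro h
      have := abs_le.1 (hC v.1)
      refine ⟨⟨?_, Int.le_floor.2 (by linarith [this.2])⟩, by linarith⟩
      have h3 := Int.floor_mono (show -C ≤ (n : ℝ) by linarith [this.1])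
      rwa [Int.floor_intCast] at h3
    · intro h; linarith [h.2]
  filter_upwards [(eventually_all_finite (finite_Icc ⌊-C⌋ ⌊C⌋)).2 (fun n _ => h1 n)] with w hw
  rw [h2, h2]
  exact exists_congr fun n => and_congr_right fun hn => hw n hn

theorem Cantor.tame_finite (A : Cantor G) {B : Set A.X} (hB : B.Finite) :
    ∀ᶠ w in A.F, (w.1 ∈ B ↔ w.2 ∈ B) := by
  classical
  refine A.ev_F.2 ⟨hB.toFinset.image (fun v => v.1), fun p hp q hq H => ?_⟩
  refine iff_of_false (fun h => ?_) (fun h => ?_)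
  · refine H _ (Finset.mem_image_of_mem _ (hB.mem_toFinset.2 h)) ⌊p⌋ ?_
    show Int.fract p + ⌊p⌋ ∈ _
    rw [Int.fract_add_floor]; exact left_mem_uIcc
  · refine H _ (Finset.mem_image_of_mem _ (hB.mem_toFinset.2 h)) ⌊q⌋ ?_
    show Int.fract q + ⌊q⌋ ∈ _
    rw [Int.fract_add_floor]; exact right_mem_uIcc

namespace Cover

variable (C : Cover A)

open Classical in
/-- Choice of the next map from the position data. -/
noncomputable def pick (P1 P0 : C.ι → Prop) (P2 : C.κ → Prop) : G :=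
  if h : ∃ i, P1 i then (C.Z h.choose).g else if h : ∃ i, P0 i then (C.Z h.choose).g ^ C.n0
  else if h : ∃ j, P2 j then C.f h.choose else 1

/-- The next map of the expansion procedure. -/
noncomputable def σr (u : ℝ) : G :=
  C.pick (fun i => ∃ n : ℤ, ∃ m, C.n0 < m ∧ (C.Z i).InD m (u + n))
    (fun i => ∃ n : ℤ, (C.Z i).InD C.n0 (u + n)) (fun j => ∃ n : ℤ, C.a j < u + n ∧ u + n < C.b j)

/-- The expansion procedure on classes of gaps. -/
noncomputable def σ (v : A.X) : G := C.σr v.1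

omit [SmoothAct G] in
theorem σr_one {i : C.ι} {m : ℕ} {n : ℤ} {u : ℝ} (hm : C.n0 < m) (h : (C.Z i).InD m (u + n)) :
    C.σr u = (C.Z i).g := by
  have hex : ∃ i, ∃ n : ℤ, ∃ m, C.n0 < m ∧ (C.Z i).InD m (u + n) := ⟨i, n, m, hm, h⟩
  unfold σr pick
  rw [dif_pos hex]
  obtain ⟨n', m', h1, h2⟩ := hex.choose_spec
  rw [(C.uniq _ _ _ _ _ _ _ h1.le hm.le h2 h).1]

theorem σr_zero {i : C.ι} {n : ℤ} {u : ℝ} (h : (C.Z i).InD C.n0 (u + n)) :
    C.σr u = (C.Z i).g ^ C.n0 := by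
  have hex : ∃ i, ∃ n : ℤ, (C.Z i).InD C.n0 (u + n) := ⟨i, n, h⟩
  have hn : ¬ ∃ i, ∃ n : ℤ, ∃ m, C.n0 < m ∧ (C.Z i).InD m (u + n) := by
    rintro ⟨j, n', m, h1, h2⟩
    obtain ⟨rfl, rfl⟩ := C.uniq _ _ _ _ _ _ _ h1.le le_rfl h2 h
    exact absurd ((C.Z j).level_unique h2 h) h1.ne'
  unfold σr pick
  rw [dif_neg hn, dif_pos hex]
  obtain ⟨n', h2⟩ := hex.choose_spec
  rw [(C.uniq _ _ _ _ _ _ _ le_rfl le_rfl h2 h).1]

theorem σr_exp {u : ℝ} (hu : u ∈ A.Λ) (hne : ¬ A.NE u)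
    (h : ¬ ∃ i m, ∃ n : ℤ, C.n0 ≤ m ∧ (C.Z i).InD m (u + n)) :
    ∃ j, C.σr u = C.f j ∧ C.lam ≤ D (C.f j) u := by
  have h1 : ¬ ∃ i, ∃ n : ℤ, ∃ m, C.n0 < m ∧ (C.Z i).InD m (u + n) :=
    fun ⟨i, n, m, a, b⟩ => h ⟨i, m, n, a.le, b⟩
  have h2 : ¬ ∃ i, ∃ n : ℤ, (C.Z i).InD C.n0 (u + n) := fun ⟨i, n, b⟩ => h ⟨i, _, n, le_rfl, b⟩
  have h3 := (C.cover u hu hne).resolve_left h
  unfold σr pick
  rw [dif_neg h1, dif_neg h2, dif_pos h3]
  obtain ⟨n, a, b⟩ := h3.choose_spec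
  exact ⟨_, rfl, by rw [← D_int _ u n]; exact C.f_exp _ _ a b⟩

omit [SmoothAct G] in
theorem σr_finite : (range C.σr).Finite := by
  have := C.fin
  have := C.finκ
  refine (((finite_range fun i => (C.Z i).g).union (finite_range fun i => (C.Z i).g ^ C.n0)).union
    ((finite_range C.f).insert 1)).subset ?_
  rintro _ ⟨u, rfl⟩
  unfold σr pick
  split_ifs
  · exact Or.inl (Or.inl ⟨_, rfl⟩)
  · exact Or.inl (Or.inr ⟨_, rfl⟩)
  · exact Or.inr (Or.inr ⟨_, rfl⟩)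
  · exact Or.inr (Or.inl rfl)

theorem g_mem (i : C.ι) : (C.Z i).g ∈ range C.σr :=
  ⟨(C.Z i).pt (C.n0 + 2), C.σr_one (m := C.n0 + 1) (n := 0) (by omega)
    ⟨by simpa using (C.Z i).pt_step _, by simp⟩⟩

omit [SmoothAct G] in
theorem σr_int (u : ℝ) (k : ℤ) : C.σr (u + k) = C.σr u := by
  have key : ∀ R : ℝ → Prop, (∃ n : ℤ, R (u + k + n)) = ∃ n : ℤ, R (u + n) := by
    intro R
    refine propext ⟨?_, ?_⟩
    · rintro ⟨n, hn⟩; exact ⟨k + n, by push_cast; rwa [← add_assoc]⟩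
    · rintro ⟨n, hn⟩; exact ⟨n - k, by push_cast; rwa [show u + k + (n - k) = u + n by ring]⟩
  unfold σr
  congr 1
  · funext i; exact key (fun w => ∃ m, C.n0 < m ∧ (C.Z i).InD m w)
  · funext i; exact key (fun w => (C.Z i).InD C.n0 w)
  · funext j; exact key (fun w => C.a j < w ∧ w < C.b j)

theorem stp_cls {p : ℝ} (hp : p ∈ LE A.Λ) :
    stp C.σ (A.cls p hp) = A.cls (C.σr p • p) (A.act_LE _ hp) := by
  unfold stp
  rw [A.smul_cls]
  have : C.σ (A.cls p hp) = C.σr p := by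
    show C.σr (Int.fract p) = _
    rw [← C.σr_int _ ⌊p⌋, Int.fract_add_floor]
  simp only [this]

theorem tame_σ : ∀ᶠ w in A.F, C.σ w.1 = C.σ w.2 := by
  have := C.fin
  have := C.finκ
  have two : ∀ {s a b u v : ℝ}, (s = 1 ∨ s = -1) → s * a < s * u ∧ s * u ≤ s * b → a ∉ uIcc u v →
      b ∉ uIcc u v → s * a < s * v ∧ s * v ≤ s * b := by
    intro s a b u v hs h h1 h2
    rw [mem_uIcc] at h1 h2
    push Not at h1 h2
    rcases hs with rfl | rfl
    · refine ⟨?_, by linarith [h2.1 (by linarith [h.2])]⟩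
      by_contra hc; linarith [h1.2 (by linarith), h.1]
    · refine ⟨by linarith [h1.1 (by linarith [h.1])], ?_⟩
      by_contra hc; linarith [h2.2 (by linarith), h.2]
  have h1 : ∀ i, ∀ᶠ w in A.F, ((∃ n : ℤ, ∃ m, C.n0 < m ∧ (C.Z i).InD m (w.1.1 + n)) ↔
      ∃ n : ℤ, ∃ m, C.n0 < m ∧ (C.Z i).InD m (w.2.1 + n)) := fun i =>
    A.tame_two (R := fun u => ∃ m, C.n0 < m ∧ (C.Z i).InD m u) (C.Z i).x ((C.Z i).pt (C.n0 + 2)) (by
      rintro u v ⟨m, hm, h⟩ a b
      have := two (C.Z i).hs ⟨h.pos, le_trans h.2 ((C.Z i).pt_anti (by omega))⟩ a b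
      obtain ⟨m', h'⟩ := (C.Z i).exists_level this.1 (le_trans this.2 ((C.Z i).pt_anti (by omega)))
      refine ⟨m', ?_, h'⟩
      by_contra hc
      linarith [h'.1, this.2, (C.Z i).pt_anti (show m' + 2 ≤ C.n0 + 2 by omega)])
  have h2 : ∀ i, ∀ᶠ w in A.F, ((∃ n : ℤ, (C.Z i).InD C.n0 (w.1.1 + n)) ↔
      ∃ n : ℤ, (C.Z i).InD C.n0 (w.2.1 + n)) := fun i =>
    A.tame_two (R := fun u => (C.Z i).InD C.n0 u) _ _ (fun u v h a b => two (C.Z i).hs h a b)
  have h3 : ∀ j, ∀ᶠ w in A.F, ((∃ n : ℤ, C.a j < w.1.1 + n ∧ w.1.1 + n < C.b j) ↔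
      ∃ n : ℤ, C.a j < w.2.1 + n ∧ w.2.1 + n < C.b j) := fun j =>
    A.tame_two (R := fun u => C.a j < u ∧ u < C.b j) (C.a j) (C.b j) (fun u v h a b => by
      rw [mem_uIcc] at a b
      push Not at a b
      refine ⟨?_, b.1 h.2.le⟩
      by_contra hc; linarith [a.2 (le_of_not_gt hc), h.1])
  filter_upwards [eventually_all.2 h1, eventually_all.2 h2, eventually_all.2 h3] with w a b c
  unfold σ σr
  congr 1
  · funext i; exact propext (a i)
  · funext i; exact propext (b i)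
  · funext j; exact propext (c j)

end Cover

/-- Products of at most `r` elements of `S`. -/
def Words (S : Finset G) (r : ℕ) : Set G :=
  {g : G | ∃ l : List G, l.length ≤ r ∧ (∀ s ∈ l, s ∈ S) ∧ l.prod = g}

omit [MulAction G ℝ] [SmoothAct G] in
theorem Words.mul {S : Finset G} {r : ℕ} {s g : G} (hs : s ∈ S) (hg : g ∈ Words S r) :
    s * g ∈ Words S (r + 1) := by
  obtain ⟨l, h1, h2, rfl⟩ := hg
  exact ⟨s :: l, by simpa using h1, by simpa using ⟨hs, h2⟩, by simp⟩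

omit [MulAction G ℝ] [SmoothAct G] in
theorem Words.pow_mul {S : Finset G} {r : ℕ} {s g : G} (hs : s ∈ S) (hg : g ∈ Words S r) (k : ℕ) :
    s ^ k * g ∈ Words S (r + k) := by
  induction k with
  | zero => simpa using hg
  | succ k ih => rw [pow_succ', mul_assoc]; exact Words.mul hs ih

/-- Decomposition of the orbit of the expansion procedure into expanding blocks. -/
theorem Cover.dec (C : Cover A) {S : Finset G} (hS : ∀ u, C.σr u ∈ S) :
    ∃ K0, 1 ≤ K0 ∧ ∃ Θ : ℝ → ℕ, ∀ (v : A.X) (j : ℕ), (∀ i < j, ¬ A.NE ((stp C.σ)^[i] v).1) →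
      ∃ p, ∃ hp : p ∈ LE A.Λ, ∃ (a k : ℕ) (h : G), A.cls p hp = v ∧ j = a + k ∧
        (stp C.σ)^[a] v = A.cls (h • p) (A.act_LE _ hp) ∧ Good K0 (h • p) h⁻¹ ∧ h ∈ Words S a ∧
        1 ≤ D h p ∧ (∀ D0, D h p ≤ D0 → a ≤ Θ D0) ∧ (k = 0 ∨ ∃ i m, (C.Z i).InD (m + k) (h • p) ∧
          (stp C.σ)^[j] v = A.cls ((C.Z i).g ^ k • h • p) (A.act_LE _ (A.act_LE _ hp))) := by
  obtain ⟨K0, hK0, P, hP1, hP2, hP3⟩ := chain_const (G := G) C.lam_gt C.K1_ge
  have := C.fin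
  have hlam := C.lam_gt
  have hΞ : ∀ D0 : ℝ, ∃ k : ℕ, ∀ i ∈ (univ : Set C.ι), ∀ m u, (C.Z i).InD m u →
      D ((C.Z i).g ^ m) u ≤ D0 → m ≤ k := fun D0 =>
    fin_max _ finite_univ (P := fun i (k : ℕ) => ∀ m u, (C.Z i).InD m u →
      D ((C.Z i).g ^ m) u ≤ D0 → m ≤ k) (fun i a b hab H m u h1 h2 => le_trans (H m u h1 h2) hab)
      (fun i _ => by
        obtain ⟨n, hn⟩ := (C.Z i).D_small (ε := 1 / (|D0| + 1)) (by positivity)
        refine ⟨n, fun m u h1 h2 => ?_⟩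
        by_contra hc
        have h3 := hn m _ (by omega) ((((C.Z i).inD_pow 0 m u).2 (by simpa using h1)).inN)
        rw [inv_pow, D_inv, le_div_iff₀ (by positivity), inv_mul_eq_div,
          div_le_one (D_pos _ _)] at h3
        linarith [le_abs_self D0])
  choose Ξ hΞ using hΞ
  choose t0 ht0 using fun D0 : ℝ => pow_unbounded_of_one_lt D0 hlam
  have hg : ∀ i, (C.Z i).g ∈ S := fun i => by
    obtain ⟨u, hu⟩ := C.g_mem i; rw [← hu]; exact hS u
  refine ⟨K0, hK0, fun D0 => t0 D0 * (Ξ D0 + 1), fun v j hj => ?_⟩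
  have main : ∀ (p : ℝ) (hp : p ∈ LE A.Λ) (j : ℕ),
      (∀ i < j, ¬ A.NE ((stp C.σ)^[i] (A.cls p hp)).1) → ∃ (a k t : ℕ) (h : G), j = a + k ∧
        (stp C.σ)^[a] (A.cls p hp) = A.cls (h • p) (A.act_LE _ hp) ∧ P h p ∧ h ∈ Words S a ∧
        C.lam ^ t ≤ D h p ∧ (∀ D0, D h p ≤ D0 → a ≤ t * (Ξ D0 + 1)) ∧
        (k = 0 ∨ ∃ i m, ∃ n : ℤ, C.n0 ≤ m ∧ (C.Z i).InD (m + k) (h • p + n) ∧
          (stp C.σ)^[j] (A.cls p hp) =
            A.cls ((C.Z i).g ^ k • h • p) (A.act_LE _ (A.act_LE _ hp))) := by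
    intro p hp j
    induction j with
    | zero =>
      intro _
      exact ⟨0, 0, 0, 1, rfl, by simp, hP1 p, ⟨[], by simp, by simp, by simp⟩, by simp [D_one],
        by simp, Or.inl rfl⟩
    | succ j ih =>
      intro hj
      obtain ⟨a, k, t, h, e1, e2, h1, h2, h3, h4, h5⟩ := ih (fun i hi => hj i (by omega))
      have hD1 : 1 ≤ D h p := le_trans (one_le_pow₀ hlam.le) h3
      have new : ∀ f : G, C.lam ≤ D f (h • p) → Good C.K1 (f • h • p) f⁻¹ →
          f * h ∈ Words S (j + 1) → (stp C.σ)^[j + 1] (A.cls p hp) =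
            A.cls (f • h • p) (A.act_LE _ (A.act_LE _ hp)) →
          (∀ D0, D f (h • p) ≤ D0 → k ≤ Ξ D0) → ∃ (a k t : ℕ) (h : G), j + 1 = a + k ∧
        (stp C.σ)^[a] (A.cls p hp) = A.cls (h • p) (A.act_LE _ hp) ∧ P h p ∧ h ∈ Words S a ∧
        C.lam ^ t ≤ D h p ∧ (∀ D0, D h p ≤ D0 → a ≤ t * (Ξ D0 + 1)) ∧
        (k = 0 ∨ ∃ i m, ∃ n : ℤ, C.n0 ≤ m ∧ (C.Z i).InD (m + k) (h • p + n) ∧
          (stp C.σ)^[j + 1] (A.cls p hp) =
            A.cls ((C.Z i).g ^ k • h • p) (A.act_LE _ (A.act_LE _ hp))) := by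
        intro f f1 f2 f3 f4 f5
        refine ⟨j + 1, 0, t + 1, f * h, rfl, by simp only [mul_smul]; exact f4, hP2 h p f h1 f1 f2,
          f3, ?_, fun D0 hD => ?_, Or.inl rfl⟩
        · rw [D_mul, pow_succ']
          exact mul_le_mul f1 h3 (pow_nonneg (by linarith) _) (D_pos _ _).le
        · rw [D_mul] at hD
          have a1 := h4 D0 (by nlinarith)
          have a2 := f5 D0 (by nlinarith)
          rw [Nat.succ_mul]; omega
      have h6 : (∃ i m, ∃ n : ℤ, C.n0 ≤ m ∧ (C.Z i).InD (m + k) (h • p + n) ∧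
          (stp C.σ)^[j] (A.cls p hp) =
            A.cls ((C.Z i).g ^ k • h • p) (A.act_LE _ (A.act_LE _ hp))) ∨
          (k = 0 ∧ ¬ ∃ i m, ∃ n : ℤ, C.n0 ≤ m ∧ (C.Z i).InD m (h • p + n)) := by
        rcases h5 with h5 | h5
        · by_cases hd : ∃ i m, ∃ n : ℤ, C.n0 ≤ m ∧ (C.Z i).InD m (h • p + n)
          · obtain ⟨i, m, n, b1, b2⟩ := hd
            subst h5
            exact Or.inl ⟨i, m, n, b1, b2, by simpa [e1] using e2⟩
          · exact Or.inr ⟨h5, hd⟩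
        · exact Or.inl h5
      rcases h6 with ⟨i, m, n, b1, b2, b3⟩ | ⟨rfl, hd⟩
      · have b4 : (C.Z i).InD m ((C.Z i).g ^ k • h • p + n) := by
          rw [← act_int, (C.Z i).inD_pow]; exact b2
        rcases eq_or_lt_of_le b1 with b5 | b5
        · subst b5
          have b6 := C.σr_zero b4
          refine new ((C.Z i).g ^ (C.n0 + k)) ?_ ?_ ?_ ?_ (fun D0 hD => ?_)
          · rw [← D_int _ _ n]; exact C.deep_exp i _ _ (by omega) b2
          · have := (C.good i (C.n0 + k) _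
              (((C.Z i).inD_pow 0 _ _).2 (by simpa using b2)).inN).shift (-n)
            rw [act_int, inv_pow] at this
            simpa using this
          · rw [pow_add, mul_assoc, e1]
            exact Words.mul (by rw [← b6]; exact hS _) (Words.pow_mul (hg i) h2 k)
          · rw [Function.iterate_succ_apply', b3, C.stp_cls]
            simp only [b6, pow_add, mul_smul]
          · have := hΞ D0 i trivial _ _ b2 (by rwa [D_int])
            omega
        · obtain ⟨m', rfl⟩ : ∃ m', m = m' + 1 := ⟨m - 1, by omega⟩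
          refine ⟨a, k + 1, t, h, by omega, e2, h1, h2, h3, h4, Or.inr ⟨i, m', n, by omega, ?_, ?_⟩⟩
          · rwa [show m' + (k + 1) = m' + 1 + k by ring]
          · rw [Function.iterate_succ_apply', b3, C.stp_cls]
            simp only [C.σr_one b5 b4, pow_succ', mul_smul]
      · have e3 : j = a := by omega
        subst e3
        have hne : ¬ A.NE (h • p) := by
          intro hc
          apply hj j (by omega)
          rw [e2]; exact A.NE_fract hc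
        obtain ⟨c, c1, c2⟩ := C.σr_exp (A.inv h p hp.1) hne hd
        refine new (C.f c) c2 ((C.f_lip c).good C.K1_ge _) (Words.mul (by rw [← c1]; exact hS _) h2)
          ?_ (fun _ _ => Nat.zero_le _)
        rw [Function.iterate_succ_apply', e2, C.stp_cls]
        simp only [c1]
  obtain ⟨a, k, t, h, e1, e2, h1, h2, h3, h4, h5⟩ := main v.1 v.2.1 j (by rwa [A.cls_val])
  rw [A.cls_val] at e2 h5
  have hD1 : 1 ≤ D h v.1 := le_trans (one_le_pow₀ hlam.le) h3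
  have hΘ : ∀ D0, D h v.1 ≤ D0 → a ≤ t0 D0 * (Ξ D0 + 1) := fun D0 hD => by
    refine le_trans (h4 D0 hD) (Nat.mul_le_mul_right _ ?_)
    exact ((pow_lt_pow_iff_right₀ hlam).1 (lt_of_le_of_lt (le_trans h3 hD) (ht0 D0))).le
  rcases h5 with h5 | ⟨i, m, n, -, b2, b3⟩
  · exact ⟨v.1, v.2.1, a, k, h, A.cls_val v, e1, e2, hP3 _ _ h1, h2, hD1, hΘ, Or.inl h5⟩
  · refine ⟨v.1 + n, A.LE_int v.2.1 n, a, k, h, ?_, e1, ?_, ?_, h2, by rwa [D_int],
      by simpa only [D_int] using hΘ, Or.inr ⟨i, m, by rwa [act_int], ?_⟩⟩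
    · rw [← A.cls_val v, A.cls_eq_iff]; exact ⟨n, by rw [A.cls_val]⟩
    · rw [e2, A.cls_eq_iff]; exact ⟨-n, by rw [act_int]; push_cast; ring⟩
    · rw [act_int]; exact (hP3 _ _ h1).shift n
    · rw [b3, A.cls_eq_iff]; exact ⟨-n, by rw [act_int, act_int]; push_cast; ring⟩

end Pool.Agent.Lib.MP_173a7e_an
end

-- part Pool.Agent.Lib.MP_173a7e_an.Path
section

/-! Bottleneck and properness properties of the expansion procedure. -/

set_option autoImplicit false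

namespace Pool.Agent.Lib.MP_173a7e_an

open Set Filter Topology

theorem erase_loops {G X : Type} [Group G] [MulAction G X] {S : Finset G} (n : ℕ) :
    ∀ γ : ℕ → X, IsPath S γ n → ∃ (γ' : ℕ → X) (n' : ℕ), IsPath S γ' n' ∧ γ' 0 = γ 0 ∧
      γ' n' = γ n ∧ (∀ i ≤ n', ∃ k ≤ n, γ' i = γ k) ∧ ∀ i ≤ n', ∀ j ≤ n', γ' i = γ' j → i = j := by
  induction n using Nat.strong_induction_on with
  | _ n ih =>
    intro γ hγ
    by_cases h : ∃ i j, i < j ∧ j ≤ n ∧ γ i = γ j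
    · obtain ⟨i, j, h1, h2, h3⟩ := h
      obtain ⟨d, rfl⟩ : ∃ d, j = i + (d + 1) := ⟨j - i - 1, by omega⟩
      obtain ⟨γ', n', a1, a2, a3, a4, a5⟩ := ih (n - (d + 1)) (by omega)
        (fun k => if k ≤ i then γ k else γ (k + (d + 1))) (by
          intro k hk
          rcases lt_trichotomy k i with c | c | c
          · simp only [show k + 1 ≤ i by omega, c.le, if_true]; exact hγ k (by omega)
          · subst c
            simp only [show ¬ k + 1 ≤ k by omega, le_refl, if_true, if_false]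
            rw [h3, show k + 1 + (d + 1) = k + (d + 1) + 1 by ring]; exact hγ _ (by omega)
          · simp only [show ¬ k + 1 ≤ i by omega, show ¬ k ≤ i by omega, if_false]
            rw [show k + 1 + (d + 1) = k + (d + 1) + 1 by ring]; exact hγ _ (by omega))
      refine ⟨γ', n', a1, by simpa using a2, ?_, fun k hk => ?_, a5⟩
      · rw [a3]
        split_ifs with c
        · rw [show n - (d + 1) = i by omega, h3]; congr 1; omega
        · congr 1; omega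
      · obtain ⟨l, b1, b2⟩ := a4 k hk
        rw [b2]
        split_ifs with c
        · exact ⟨l, by omega, rfl⟩
        · exact ⟨_, by omega, rfl⟩
    · refine ⟨γ, n, hγ, rfl, rfl, fun i hi => ⟨i, hi, rfl⟩, fun i hi j hj e => ?_⟩
      by_contra hc
      rcases lt_or_gt_of_ne hc with c | c
      · exact h ⟨i, j, c, hj, e⟩
      · exact h ⟨j, i, c, hi, e.symm⟩

/-- The maps along a path. -/
def along {G : Type} [Group G] (s : ℕ → G) (i0 : ℕ) (φ : G) : ℕ → G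
  | 0 => φ
  | j + 1 => s (i0 + j) * along s i0 φ j

theorem along_smul {G X : Type} [Group G] [MulAction G X] {s : ℕ → G} {γ : ℕ → X} {n i0 : ℕ}
    (hs : ∀ k < n, γ (k + 1) = s k • γ k) {φ : G} {v : X} (h : γ i0 = φ • v) (j : ℕ)
    (hj : i0 + j ≤ n) : γ (i0 + j) = along s i0 φ j • v := by
  induction j with
  | zero => exact h
  | succ j ih => rw [← add_assoc, hs _ (by omega), ih (by omega), along, mul_smul]

variable {G : Type} [Group G] [MulAction G ℝ] [SmoothAct G] {A : Cantor G}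

theorem Cantor.Star.excursion' (hA : A.Star) {S : Finset G} {K L : ℝ} (hK : 1 ≤ K) (hL : 0 ≤ L)
    (hS : ∀ s ∈ S, GLip L s) : ∃ ρ > 0, ∃ τ > 0, ∀ z ∈ A.Λ, ∀ y, ∀ hy : y ∈ LE A.Λ, |y - z| ≤ ρ →
      ∀ (s : ℕ → G) (γ : ℕ → A.X) (n i0 : ℕ) (φ : G), (∀ k < n, s k ∈ S ∧ γ (k + 1) = s k • γ k) →
      (∀ i ≤ n, ∀ j ≤ n, γ i = γ j → i = j) → i0 ≤ n → γ i0 = φ • A.cls y hy → Good K z φ →
      D φ z ≤ 1 → (∀ j, 0 < j → i0 + j < n → Good (K + 3 * L * 2) z (along s i0 φ j) →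
        D (along s i0 φ j) z ≤ τ) → Good (K + 3 * L * 2) z (along s i0 φ (n - i0)) := by
  obtain ⟨ρ, hρ, τ, hτ, H⟩ := hA.excursion hK hL
  refine ⟨ρ, hρ, τ, hτ, fun z hz y hy hyz s γ n i0 φ h1 h2 h3 h4 h5 h6 h7 => ?_⟩
  refine H z hz y hy.1 hyz (along s i0 φ) (n - i0) h5 h6
    (fun j hj => ⟨_, hS _ (h1 (i0 + j) (by omega)).1, rfl⟩) (fun i hi j hj m e => ?_)
    (fun j a b => h7 j a (by omega))
  have := h2 (i0 + i) (by omega) (i0 + j) (by omega) (by
    rw [along_smul (fun k hk => (h1 k hk).2) h4 i (by omega),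
      along_smul (fun k hk => (h1 k hk).2) h4 j (by omega), A.smul_cls, A.smul_cls, A.cls_eq_iff]
    exact ⟨m, e⟩)
  omega

/-- Bottleneck property at the end of an expanding block. -/
theorem Cantor.Star.bp_good (hA : A.Star) {S : Finset G} {K L c : ℝ} (hK : 1 ≤ K) (hL : 0 ≤ L)
    (hS : ∀ s ∈ S, GLip L s) (hc : 0 < c) : ∃ Φ : Set G, Φ.Finite ∧ ∀ z, ∀ hz : z ∈ LE A.Λ,
      A.len z ≤ 1 / (K + 3 * L * 2) → ∀ φ : G, Good K z φ → D φ z ≤ 1 → ∀ (γ : ℕ → A.X) (n : ℕ),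
      IsPath S γ n → γ 0 = φ • A.cls z hz → c ≤ A.len (γ n).1 →
      ∃ k ≤ n, ∃ ψ ∈ Φ, γ k = ψ • A.cls z hz := by
  obtain ⟨ρ, hρ, τ, hτ, H⟩ := hA.excursion' hK hL hS
  set τ' := min τ (c / 4)
  have hτ' : 0 < τ' := lt_min hτ (by linarith)
  obtain ⟨Φ, hΦ, ρ', hρ', N⟩ := hA.nucleus (K := max (K + 3 * L * 2) (1 / τ'))
    (le_trans (by linarith) (le_max_left _ _))
  refine ⟨Φ, hΦ, fun z hz hl φ h1 h2 γ0 n0 hγ0 e0 hc0 => ?_⟩
  obtain ⟨γ, n, hγ, e1, e2, hsub, hinj⟩ := erase_loops n0 γ0 hγ0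
  rw [← e1] at e0
  rw [← e2] at hc0
  suffices h : ∃ k ≤ n, ∃ ψ ∈ Φ, γ k = ψ • A.cls z hz by
    obtain ⟨k, hk, ψ, hψ, e⟩ := h
    obtain ⟨k', hk', e'⟩ := hsub k hk
    exact ⟨k', hk', ψ, hψ, by rw [← e', e]⟩
  by_contra hn
  push Not at hn
  choose! s hs using hγ
  have hal := fun j hj => along_smul (i0 := 0) (fun k hk => (hs k hk).2) e0 j hj
  simp only [zero_add] at hal
  have small : ∀ j ≤ n, Good (K + 3 * L * 2) z (along s 0 φ j) → D (along s 0 φ j) z ≤ τ' := by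
    intro j hj hg
    by_contra hD
    obtain ⟨ψ, hψ, m, e⟩ := N z hz.1 _ (hg.mono (le_max_left _ _)) (by
      refine le_trans ?_ (le_of_not_ge hD)
      rw [one_div_le (lt_of_lt_of_le (by positivity) (le_max_right _ _)) hτ']
      exact le_max_right _ _)
    refine hn j hj ψ hψ ?_
    rw [hal j hj, A.smul_cls, A.smul_cls, A.cls_eq_iff]
    exact ⟨m, e z hz.1 (by simpa using hρ'.le)⟩
  have hg := H z hz.1 z hz (by simpa using hρ.le) s γ n 0 φ hs hinj (Nat.zero_le _) e0 h1 h2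
    (fun j _ b c => le_trans (small j (by omega) c) (min_le_left _ _))
  rw [Nat.sub_zero] at hg
  have h3 := (hg.len_act (A := A) (p := z) (by simp; linarith) (by rwa [A.abs_len])).1
  rw [hal n le_rfl, A.smul_cls, A.len_cls] at hc0
  have h4 := le_trans (small n le_rfl hg) (min_le_right _ _)
  have h5 := A.len_le_one hz.1
  have h6 := A.len_pos hz
  have h7 := D_pos (along s 0 φ n) z
  nlinarith

theorem Zone.inD_zpow (Z : Zone A) {m l : ℕ} {e : ℤ} {p : ℝ} (h : (l : ℤ) + e = m)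
    (hp : Z.InD m p) : Z.InD l (Z.g ^ e • p) := by
  obtain ⟨k, rfl | rfl⟩ := Int.eq_nat_or_neg e
  · rw [zpow_natCast, Z.inD_pow, show l + k = m by omega]; exact hp
  · rw [zpow_neg, zpow_natCast, ← inv_pow, show l = m + k by omega]; exact Z.inD_inv k hp

theorem Zone.len_le (Z : Zone A) {m : ℕ} {p : ℝ} (hp : Z.InD m p) :
    A.len p ≤ Z.s * Z.pt m - Z.s * Z.x := by
  rw [← A.abs_len, s_abs Z.hs, abs_le]
  constructor <;> linarith [hp.inN.pos, hp.inN.2, hp.nxt.pos, hp.nxt.2]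

/-- Bottleneck property along a zone. -/
theorem Cantor.Star.line (hA : A.Star) {S : Finset G} {L c : ℝ} (hL : 0 ≤ L)
    (hS : ∀ s ∈ S, GLip L s) (hc : 0 < c) {Z : Zone A} (hx : A.NE Z.x) (hZ : Z.Cyc) {Φ0 : Set G}
    (hΦ0 : Φ0.Finite) : ∃ Ψ : Set G, Ψ.Finite ∧ ∃ M : ℕ, ∀ p, ∀ hp : p ∈ LE A.Λ, ∀ m k : ℕ,
      Z.InD m p → k + M ≤ m → ∀ (γ : ℕ → A.X) (n : ℕ), IsPath S γ n →
      (∃ φ ∈ Φ0, γ 0 = φ • A.cls p hp) → c ≤ A.len (γ n).1 →
      ∃ i ≤ n, ∃ ψ ∈ Ψ, γ i = ψ • A.cls (Z.g ^ k • p) (A.act_LE _ hp) := by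
  obtain ⟨K3, hK3⟩ := hA.rep hx
  obtain ⟨L0, hL0, HL0⟩ := finite_bounds Φ0 hΦ0
  set K := max K3 L0
  have hK : 1 ≤ K := le_trans hL0 (le_max_right _ _)
  obtain ⟨ρ, hρ, τ, hτ, H⟩ := hA.excursion' hK hL hS
  set K2 := K + 3 * L * 2 with hK2
  have hKK : K ≤ K2 := by linarith
  obtain ⟨Φ, hΦ, ρ', hρ', N⟩ := hA.nucleus (K := max K2 (1 / τ))
    (le_trans (by linarith) (le_max_left _ _))
  choose rp hrp using hK3
  obtain ⟨ρ2, hρ2, E, Hec⟩ := hA.hector hx hZ (K := K2 + 3 * 1 * (3 * K2 + 1)) (by linarith)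
  have hΓ : (Φ0 ∪ rp '' Φ).Finite := hΦ0.union (hΦ.image _)
  have hΓg : ∀ φ ∈ Φ0 ∪ rp '' Φ, Good K Z.x φ := by
    rintro φ (h | ⟨ψ, -, rfl⟩)
    · exact ((HL0 φ h).1.good hL0 _).mono (le_max_right _ _)
    · exact (hrp ψ).2.mono (le_max_left _ _)
  obtain ⟨M, hM⟩ := Z.small (ε := min (min ρ ρ2) (min (1 / K2) (c / 4)))
    (lt_min (lt_min hρ hρ2) (lt_min (by have : 0 < K2 := by linarith
                                        positivity) (by linarith)))
  refine ⟨image2 (fun φ (e : ℤ) => φ * Z.g ^ e) (Φ0 ∪ rp '' Φ) (Icc (-E) E),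
    hΓ.image2 _ (finite_Icc _ _), M, fun p hp m k hm hk γ0 n0 hγ0 ⟨φ0, hφ0, e0⟩ hc0 => ?_⟩
  obtain ⟨γ, n, hγ, e1, e2, hsub, hinj⟩ := erase_loops n0 γ0 hγ0
  rw [← e1] at e0
  rw [← e2] at hc0
  suffices h : ∃ i ≤ n, ∃ ψ ∈ image2 (fun φ (e : ℤ) => φ * Z.g ^ e) (Φ0 ∪ rp '' Φ) (Icc (-E) E),
      γ i = ψ • A.cls (Z.g ^ k • p) (A.act_LE _ hp) by
    obtain ⟨k, hk, ψ, hψ, e⟩ := h
    obtain ⟨k', hk', e'⟩ := hsub k hk
    exact ⟨k', hk', ψ, hψ, by rw [← e', e]⟩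
  by_contra hn
  push Not at hn
  choose! s hs using hγ
  have far : ∀ i ≤ n, ∀ φ ∈ Φ0 ∪ rp '' Φ, ∀ e : ℤ, e ≤ k →
      γ i = φ • A.cls (Z.g ^ e • p) (A.act_LE _ hp) → e < k - E := by
    intro i hi φ hφ e he h
    by_contra hc'
    refine hn i hi _ ⟨φ, hφ, e - k, ⟨by omega, by omega⟩, rfl⟩ ?_
    rw [h, A.smul_cls, A.smul_cls]
    simp only [← zpow_natCast, ← mul_smul, mul_assoc, ← zpow_add, sub_add_cancel]
  have deep : ∀ e : ℤ, e ≤ k → ∃ l, M ≤ l ∧ Z.InD l (Z.g ^ e • p) := fun e he =>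
    ⟨(m - e).toNat, by omega, Z.inD_zpow (by omega) hm⟩
  have m1 := min_le_left (min ρ ρ2) (min (1 / K2) (c / 4))
  have m2 := min_le_right (min ρ ρ2) (min (1 / K2) (c / 4))
  have m3 := min_le_left ρ ρ2
  have m4 := min_le_right ρ ρ2
  have m5 := min_le_left (1 / K2) (c / 4)
  have m6 := min_le_right (1 / K2) (c / 4)
  have main : ∀ i ≤ n, ∃ i0 ≤ i, ∃ e : ℤ, ∃ φ ∈ Φ0 ∪ rp '' Φ, e < k - E ∧
      γ i0 = φ • A.cls (Z.g ^ e • p) (A.act_LE _ hp) ∧ ∀ j, 0 < j → i0 + j ≤ i →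
        Good K2 Z.x (along s i0 φ j) → D (along s i0 φ j) Z.x ≤ τ := by
    intro i
    induction i with
    | zero =>
      intro _
      have e0' : γ 0 = φ0 • A.cls (Z.g ^ (0 : ℤ) • p) (A.act_LE _ hp) := by simpa using e0
      exact ⟨0, le_rfl, 0, φ0, Or.inl hφ0, far 0 (Nat.zero_le _) φ0 (Or.inl hφ0) 0 (by omega) e0',
        e0', fun j a b => by omega⟩
    | succ i ih =>
      intro hi
      obtain ⟨i0, a1, e, φ, a2, a3, a4, a5⟩ := ih (by omega)
      obtain ⟨j, hj⟩ : ∃ j, i + 1 = i0 + j := ⟨i + 1 - i0, by omega⟩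
      by_cases hc' : Good K2 Z.x (along s i0 φ j) → D (along s i0 φ j) Z.x ≤ τ
      · refine ⟨i0, by omega, e, φ, a2, a3, a4, fun j' b1 b2 => ?_⟩
        rcases eq_or_ne j' j with rfl | b3
        · exact hc'
        · exact a5 j' b1 (by omega)
      · push Not at hc'
        set β := along s i0 φ j
        obtain ⟨ψ, hψ, n', b1⟩ := N Z.x hx.1 _ (hc'.1.mono (le_max_left _ _)) (by
          refine le_trans ?_ hc'.2.le
          rw [one_div_le (lt_of_lt_of_le (by positivity) (le_max_right _ _)) hτ]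
          exact le_max_right _ _)
        have b2 : (A.t ^ (-n') * β) • Z.x = rp ψ • Z.x := by
          rw [mul_smul, A.tz_smul, b1 _ hx.1 (by simpa using hρ'.le), (hrp ψ).1]; push_cast; ring
        have b3 : ((rp ψ)⁻¹ * (A.t ^ (-n') * β)) • Z.x = Z.x := by
          rw [mul_smul, b2, inv_smul_smul]
        have b4 := hx.D_eq b3
        rw [D_mul, b2, D_inv, inv_mul_eq_div, div_eq_one_iff_eq (D_pos _ _).ne'] at b4
        obtain ⟨e', b5, b6⟩ := Hec _ b3 (good_quot (c := 1) (B := 1) (A.good_tz_mul _ hc'.1)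
          ((hΓg _ (Or.inr ⟨ψ, hψ, rfl⟩)).mono hKK) b2 (by rw [b4, one_mul]) (hx.2 _))
        obtain ⟨l, c1, c2⟩ := deep e (by omega)
        have b7 := b6 _ (A.inv _ _ hp.1) c2.pos (by linarith [hM l c1, c2.inN.2])
        rw [mul_smul, inv_smul_eq_iff, mul_smul, A.tz_smul, ← mul_smul (Z.g ^ e'), ← zpow_add] at b7
        have b8 : γ (i + 1) = rp ψ • A.cls (Z.g ^ (e' + e) • p) (A.act_LE _ hp) := by
          rw [hj, along_smul (fun k hk => (hs k hk).2) a4 j (by omega), A.smul_cls, A.smul_cls,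
            A.cls_eq_iff]
          exact ⟨n', by push_cast at b7; linarith⟩
        rw [abs_le] at b5
        exact ⟨i + 1, le_rfl, e' + e, rp ψ, Or.inr ⟨ψ, hψ, rfl⟩,
          far _ hi _ (Or.inr ⟨ψ, hψ, rfl⟩) _ (by omega) b8, b8, fun j a b => by omega⟩
  obtain ⟨i0, a1, e, φ, a2, a3, a4, a5⟩ := main n le_rfl
  obtain ⟨l, c1, c2⟩ := deep e (by omega)
  have d1 := lt_of_le_of_lt c2.inN.abs (hM l c1)
  have d2 := lt_of_le_of_lt c2.nxt.abs (hM l c1)
  have d3 := lt_of_le_of_lt (Z.len_le c2) (hM l c1)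
  have hg := H Z.x hx.1 _ (A.act_LE _ hp) (by linarith) s γ n i0 φ hs hinj a1 a4 (hΓg _ a2)
    (hx.2 _) (fun j a b => a5 j a b.le)
  have h3 := (hg.len_act (A := A) (p := Z.g ^ e • p) (by linarith) (by linarith)).1
  have h4 := along_smul (fun k hk => (hs k hk).2) a4 (n - i0) (by omega)
  rw [show i0 + (n - i0) = n by omega] at h4
  rw [h4, A.smul_cls, A.len_cls] at hc0
  have h5 := hx.2 (along s i0 φ (n - i0))
  have h6 := A.len_pos (A.act_LE (Z.g ^ e) hp)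
  nlinarith

theorem Cantor.len_act_le (A : Cantor G) {g : G} {L : ℝ} (h : ∀ x, D g x ≤ L) (p : ℝ) :
    A.len (g • p) ≤ L * A.len p := by
  rw [A.len_act, ← A.abs_len p]; exact abs_act_le h _ _

/-- Properness of the orbit, for times inside a zone. -/
theorem Cantor.Star.p1_zone (hA : A.Star) {Z : Zone A} (hx : A.NE Z.x) (hZ : Z.Cyc) {K0 : ℝ}
    (hK0 : 1 ≤ K0) (Θ : ℝ → ℕ) {W : Set G} (hW : W.Finite) (S : Finset G) :
    ∃ J : ℕ, ∀ p ∈ LE A.Λ, ∀ (h : G) (a k m : ℕ) (n : ℤ), ∀ w ∈ W, h ∈ Words S a →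
      Good K0 (h • p) h⁻¹ → 1 ≤ D h p → (∀ D0, D h p ≤ D0 → a ≤ Θ D0) → A.len (h • p) ≤ 1 / K0 →
      Z.InD (m + k) (h • p) → Z.g ^ k • h • p = w • p + n → a + k ≤ J := by
  obtain ⟨L, hL1, hL⟩ := finite_bounds W hW
  obtain ⟨E, hE1, hE⟩ := Z.deriv_cmp
  obtain ⟨Cg, hCg0, hCg⟩ := D_bdd Z.g
  obtain ⟨ε, hε, F⟩ := A.fix_gap (K := K0) (η := 1 / K0) (by positivity) le_rfl
  obtain ⟨L', hL'1, hL'⟩ := finite_bounds _ (hW.image (fun w => w⁻¹ * Z.g * w))
  have hY1 : 0 < Z.s * Z.Y - Z.s * Z.pt 1 := by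
    have := Z.pt_step 0; simp only [Zone.pt, pow_zero, one_smul] at this ⊢; linarith
  set μ1 := min (ε / (6 * L')) ((Z.s * Z.Y - Z.s * Z.pt 1) / (3 * L))
  have hμ1 : 0 < μ1 := lt_min (by positivity) (by positivity)
  have hμa : μ1 * (6 * L') ≤ ε := (le_div_iff₀ (by positivity)).1 (min_le_left _ _)
  have hμb : μ1 * (3 * L) ≤ Z.s * Z.Y - Z.s * Z.pt 1 :=
    (le_div_iff₀ (by positivity)).1 (min_le_right _ _)
  have hT : (image2 (fun w h : G => w * h⁻¹) W (Words S (Θ (1 / μ1)))).Finite :=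
    hW.image2 _ (Comb.finite_words _ _)
  obtain ⟨LT, hLT1, hLT⟩ := finite_bounds _ hT
  obtain ⟨εT, hεT, HT⟩ := fin_min _ hT (P := fun θ ε => ∀ n : ℤ, |θ • Z.x + n - Z.x| < ε →
      θ • Z.x + n = Z.x) (fun θ a b _ hab H n hn => H n (by linarith)) (fun θ _ => by
      set c := Z.x - θ • Z.x
      have h1 := Int.fract_nonneg c
      have h2 := Int.fract_lt_one c
      have h3 := Int.fract_add_floor c
      rcases eq_or_lt_of_le h1 with h | h
      · refine ⟨1, one_pos, fun n hn => ?_⟩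
        have h4 : |((n - ⌊c⌋ : ℤ) : ℝ)| < 1 := by
          push_cast; rwa [show (n : ℝ) - ⌊c⌋ = θ • Z.x + n - Z.x by linarith]
        have h5 : |n - ⌊c⌋| < 1 := by exact_mod_cast h4
        have h6 : n = ⌊c⌋ := by rw [abs_lt] at h5; omega
        rw [h6]; linarith
      · refine ⟨min (Int.fract c) (1 - Int.fract c), lt_min h (by linarith), fun n hn => ?_⟩
        exfalso
        have := min_le_left (Int.fract c) (1 - Int.fract c)
        have := min_le_right (Int.fract c) (1 - Int.fract c)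
        rw [abs_lt] at hn
        have h4 : (⌊c⌋ : ℝ) < n := by linarith
        have h5 : (n : ℝ) < ⌊c⌋ + 1 := by linarith
        have h6 : ⌊c⌋ < n := by exact_mod_cast h4
        have h7 : n < ⌊c⌋ + 1 := by exact_mod_cast h5
        omega)
  obtain ⟨ρ, hρ, N, Hec⟩ := hA.hector hx hZ hLT1
  obtain ⟨M1, hM1⟩ := Z.small (ε := min (min ρ (εT / (LT + 1))) (ε / (2 * L' * L)))
    (lt_min (lt_min hρ (by positivity)) (by positivity))
  obtain ⟨M2, hM2⟩ := Z.l_small (ε := ε / (L * (Cg + 1) * (3 * E * L))) (by positivity)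
  obtain ⟨c, hc, Hc⟩ := fin_min (Iic (max M1 M2)) (finite_Iic _) (P := fun m c => c ≤ Z.l m)
    (fun _ _ _ _ h h' => le_trans h h') (fun m _ => ⟨_, Z.l_pos m, le_rfl⟩)
  obtain ⟨M3, hM3⟩ := Z.l_small (ε := c / (3 * E * L)) (by positivity)
  refine ⟨max (Θ (3 * E * L * (Z.s * Z.Y - Z.s * Z.x) / c) + M3) (Θ (1 / μ1) + N),
    fun p hp h a k m n w hw hh hg hD hΘ hl hm e => ?_⟩
  set z := h • p with hz
  set q := Z.g ^ k • z with hq
  have hqm : Z.InD m q := (Z.inD_pow m k z).2 hm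
  have hzL := A.act_LE h hp
  have hqL := A.act_LE (Z.g ^ k) hzL
  set μ := D h⁻¹ z with hμ
  have hμD : μ * D h p = 1 := D_inv_mul h p
  have hμ0 : 0 < μ := D_pos _ _
  have hμle : μ ≤ 1 := by nlinarith
  have hK0' : 0 < 1 / K0 := by positivity
  have l1 := (hg.len_act (A := A) (p := z) (by simpa using by linarith) (by rwa [A.abs_len])).1
  rw [hz, inv_smul_smul, ← hz] at l1
  have l2 : A.len q ≤ L * A.len p := by
    rw [e, A.len_int]; exact A.len_act_le (fun x => ((hL w hw).2 x).1) p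
  have l3 : A.len z * Z.l m ≤ E * Z.l (m + k) * A.len q := by
    obtain ⟨u, hu, e'⟩ := mvt_abs (Z.g⁻¹ ^ k) q (nxt A.Λ q)
    rw [← A.len_act, A.abs_len, hq, inv_pow, inv_smul_smul, ← hq, ← inv_pow] at e'
    have := (hE m k u (hqm.inN.conv hqm.nxt hu)).1
    have h0 := A.len_pos hqL
    rw [e']; nlinarith
  have star : Z.l m ≤ 3 * E * L * (μ * Z.l (m + k)) := by
    have h0 := A.len_pos hzL
    have h1 := Z.l_pos (m + k)
    have h2 : A.len q ≤ L * (3 * μ * A.len z) :=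
      le_trans l2 (mul_le_mul_of_nonneg_left l1 (by linarith))
    have h3 := mul_le_mul_of_nonneg_left h2 (show 0 ≤ E * Z.l (m + k) by positivity)
    exact le_of_mul_le_mul_left (by nlinarith) h0
  have hEL : 0 < 3 * E * L := by positivity
  rcases le_or_gt m (max M1 M2) with hcase | hcase
  · refine le_trans ?_ (le_max_left _ _)
    have h1 := Hc m hcase
    have h2 := Z.l_pos (m + k)
    have h3 : m + k < M3 := by
      by_contra h'
      have := hM3 (m + k) (by omega)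
      rw [lt_div_iff₀ hEL] at this
      nlinarith [mul_le_mul_of_nonneg_right hμle h2.le]
    have h4 : Z.l (m + k) ≤ Z.s * Z.Y - Z.s * Z.x := by
      have := Z.pt_le (m + k + 1); have := Z.pt_pos (m + k + 2); unfold Zone.l; linarith
    have h5 := hΘ (3 * E * L * (Z.s * Z.Y - Z.s * Z.x) / c) (by
      rw [le_div_iff₀ hc]
      have h6 : c ≤ 3 * E * L * (μ * (Z.s * Z.Y - Z.s * Z.x)) :=
        le_trans (le_trans h1 star) (by gcongr)
      have h7 := mul_le_mul_of_nonneg_left h6 (D_pos h p).le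
      calc _ ≤ _ := h7
        _ = (μ * D h p) * (3 * E * L * (Z.s * Z.Y - Z.s * Z.x)) := by ring
        _ = _ := by rw [hμD, one_mul])
    omega
  have hM1m := hM1 m (by omega)
  have hM1k := lt_of_le_of_lt hm.inN.abs (hM1 (m + k) (by omega))
  have hqx := lt_of_le_of_lt hqm.inN.abs hM1m
  have m1 := min_le_left (min ρ (εT / (LT + 1))) (ε / (2 * L' * L))
  have m2 := min_le_right (min ρ (εT / (LT + 1))) (ε / (2 * L' * L))
  have m3 := min_le_left ρ (εT / (LT + 1))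
  have m4 := min_le_right ρ (εT / (LT + 1))
  rcases le_or_gt μ1 μ with hc2 | hc2
  · refine le_trans ?_ (le_max_right _ _)
    have h1 := hΘ (1 / μ1) (by rw [le_div_iff₀ hμ1]; nlinarith [D_pos h p])
    have hθ : w * h⁻¹ ∈ image2 (fun w h : G => w * h⁻¹) W (Words S (Θ (1 / μ1))) :=
      ⟨w, hw, h, hh.imp fun _ H => ⟨H.1.trans h1, H.2⟩, rfl⟩
    have h2 : (w * h⁻¹) • z + n = q := by rw [mul_smul, hz, inv_smul_smul, e]
    have h3 := HT _ hθ n (by
      have a1 := abs_act_le (fun x => ((hLT _ hθ).2 x).1) Z.x z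
      have a2 : |q - Z.x| * (LT + 1) < εT := (lt_div_iff₀ (by positivity)).1 (by linarith)
      have a3 : |z - Z.x| * (LT + 1) < εT := (lt_div_iff₀ (by positivity)).1 (by linarith)
      rw [abs_sub_comm Z.x z] at a1
      have a4 : |(w * h⁻¹) • Z.x + n - Z.x| ≤ |(w * h⁻¹) • Z.x - (w * h⁻¹) • z| + |q - Z.x| := by
        rw [← h2]; refine le_trans (le_of_eq ?_) (abs_add_le _ _); congr 1; ring
      rcases le_total |q - Z.x| |z - Z.x| with a5 | a5 <;> nlinarith)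
    obtain ⟨e', b1, b2⟩ := Hec (A.t ^ n * (w * h⁻¹)) (by rw [mul_smul, A.tz_smul, h3])
      (A.good_tz_mul _ ((hLT _ hθ).1.good hLT1 _))
    have b3 := b2 z hzL.1 hm.pos (by linarith [hm.inN.2, hM1 (m + k) (by omega)])
    rw [mul_smul, A.tz_smul, h2, hq, ← zpow_natCast] at b3
    have b4 := Z.zpow_inj hm.pos hm.inN.le_Y b3
    rw [abs_le] at b1
    omega
  exfalso
  have hss : Z.s * Z.s = 1 := by rcases Z.hs with h | h <;> rw [h] <;> norm_num
  have hs1 : |Z.s| = 1 := by rcases Z.hs with h | h <;> rw [h] <;> norm_num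
  have hwp : w • p = q - n := by rw [e]; ring
  have hz1 : |z + Z.s * (1 / K0) - z| = 1 / K0 := by
    rw [add_sub_cancel_left, abs_mul, hs1, one_mul, abs_of_pos hK0']
  have hp0 : h⁻¹ • z = p := inv_smul_smul h p
  have r1 : |h⁻¹ • (z + Z.s * (1 / K0)) - p| ≤ 3 * μ := by
    have := hg.len_le (u := z + Z.s * (1 / K0)) (v := z) hz1.le (by simpa using by linarith)
    rw [hp0, hz1] at this
    have h1 : 1 / K0 ≤ 1 := by rw [div_le_one (by linarith)]; exact hK0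
    nlinarith
  have r2 : ∀ u ∈ uIcc (h⁻¹ • z) (h⁻¹ • (z + Z.s * (1 / K0))), |u - p| ≤ 3 * μ := fun u hu =>
    uIcc_abs hu (by rw [hp0]; simpa using hμ0.le) r1
  have r3 : |p - w⁻¹ • (Z.x - n)| ≤ L * |q - Z.x| := by
    have := abs_act_le (fun x => ((hL w hw).2 x).2) (w • p) (Z.x - n)
    rwa [inv_smul_smul, hwp, show q - n - (Z.x - n) = q - Z.x by ring] at this
  have r4 : lg (w⁻¹ * Z.g * w) (w⁻¹ • (Z.x - n)) = 0 := by
    have a1 : Z.g • (Z.x - n) = Z.x - n := by rw [act_sub_int, Z.fix]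
    have a2 : lg Z.g (Z.x - n) = 0 := by
      rw [← lg_int _ _ n, sub_add_cancel]; unfold lg; rw [hx.D_eq Z.fix]; simp
    rw [lg_mul, lg_mul, smul_inv_smul, a1, a2, lg_inv']; ring
  obtain ⟨p0, hp0', f1, u, hu, f2, f3⟩ := F h⁻¹ (w⁻¹ * Z.g * w) z _ hz1 hg (fun u hu => by
      have a1 := (hL' _ ⟨w, hw, rfl⟩).1 u (w⁻¹ • (Z.x - n))
      rw [r4, sub_zero] at a1
      have a2 := abs_sub_le u p (w⁻¹ • (Z.x - n))
      have a3 := r2 u hu
      have a4 : |q - Z.x| * (2 * L' * L) < ε := (lt_div_iff₀ (by positivity)).1 (by linarith)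
      have a5 := mul_le_mul_of_nonneg_left (le_trans a2 (add_le_add a3 r3)) (show 0 ≤ L' by linarith)
      nlinarith) (by
      rw [hp0]
      have a1 := abs_act_le (fun x => ((hL w hw).2 x).2) (Z.g • w • p) (w • p)
      rw [inv_smul_smul, hwp, act_sub_int, show Z.g • q - n - (q - n) = Z.g • q - q by ring] at a1
      have a2 : |Z.g • q - q| ≤ (Cg + 1) * Z.l m := by
        have b1 := abs_act_le hCg q (Z.pt (m + 2))
        rw [Z.g_pt] at b1
        have b2 : |q - Z.pt (m + 2)| ≤ Z.l m := by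
          rw [s_abs Z.hs, abs_le]; unfold Zone.l; constructor <;> linarith [hqm.1, hqm.2]
        have b3 : |Z.pt (m + 1) - q| ≤ Z.l m := by
          rw [s_abs Z.hs, abs_le]; unfold Zone.l; constructor <;> linarith [hqm.1, hqm.2]
        have b4 := abs_sub_le (Z.g • q) (Z.pt (m + 1)) q
        nlinarith
      have a3 := hM2 (m + k) (by omega)
      rw [lt_div_iff₀ (by positivity)] at a3
      rw [mul_smul, mul_smul, hwp, act_sub_int]
      calc _ ≤ L * ((Cg + 1) * (3 * E * L * (μ * Z.l (m + k)))) :=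
            le_trans a1 (mul_le_mul_of_nonneg_left (le_trans a2
              (mul_le_mul_of_nonneg_left star (by linarith))) (by linarith))
        _ = μ * (Z.l (m + k) * (L * (Cg + 1) * (3 * E * L))) := by ring
        _ ≤ _ := by rw [mul_comm ε]; exact mul_le_mul_of_nonneg_left a3.le hμ0.le)
  have g1 : Z.g • (w • p0 + n) = w • p0 + n := by
    rw [mul_smul, mul_smul, inv_smul_eq_iff] at f1
    rw [act_int, f1]
  have g2 : Z.s * q ≤ Z.s * (w • u + n) := by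
    have a1 : Z.s * p ≤ Z.s * u := by
      have a2 : Z.s * h⁻¹ • z ≤ Z.s * h⁻¹ • (z + Z.s * (1 / K0)) := (sact_le Z.hs _).2 (by
        rw [mul_add, ← mul_assoc, hss]; linarith)
      rw [← hp0]
      exact (s_uIcc Z.hs hu le_rfl a2 a2 le_rfl).1
    have := (sact_le Z.hs w).2 a1
    rw [hwp] at this
    linarith [mul_add Z.s (w • u) n, mul_sub Z.s q n]
  have g3 : Z.s * (w • u + n) ≤ Z.s * Z.Y := by
    have a1 := abs_act_le (fun x => ((hL w hw).2 x).1) u p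
    rw [hwp, s_abs Z.hs] at a1
    have a2 := le_trans (le_abs_self _) a1
    have a3 := mul_le_mul_of_nonneg_left (r2 u hu) (show 0 ≤ L by linarith)
    have a4 := le_trans hqm.2 (Z.pt_anti (show 1 ≤ m + 1 by omega))
    nlinarith [mul_add Z.s (w • u) n, mul_sub Z.s q n]
  have g4 := (A.gap_between Z.hs (p := w • p0 + n) hqL.1 Z.Y_mem
    (by linarith [(act_lt w).2 f2]) (by rw [A.nxt_int, A.nxt_act]; linarith [(act_lt w).2 f3])
    g2 g3).1
  have := Z.rep _ (lt_of_lt_of_le hqm.pos g4.1) g4.2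
  rw [g1] at this
  exact lt_irrefl _ this

end Pool.Agent.Lib.MP_173a7e_an
end
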