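import Pool.Agent.Lib.MP_173a7e_an.Gap

/-! The few notions of the earlier files that the case of class two needs. -/

set_option autoImplicit false
set_option linter.unusedSectionVars false
set_option linter.unusedVariables false

namespace Pool.Agent.Lib.MP_173a7e_an

section

open Set Filter Topology

theorem disj_sum {ι : Type} (s : Finset ι) (a l : ι → ℝ) (h0 : ∀ i ∈ s, 0 ≤ l i ∧ l i ≤ 1)
    (h : ∀ i ∈ s, ∀ j ∈ s, i ≠ j → ∀ (m : ℤ) (u : ℝ), a i ≤ u → u < a i + l i →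
      a j + m ≤ u → u < a j + m + l j → False) : ∑ i ∈ s, l i ≤ 2 := by
  have hd : PairwiseDisjoint (↑s : Set ι)
      (fun i => Ico (Int.fract (a i)) (Int.fract (a i) + l i)) := by
    intro i hi j hj hij
    rw [Function.onFun, Set.disjoint_left]
    intro u h1 h2
    simp only [Int.fract, mem_Ico] at h1 h2
    refine h i hi j hj hij (⌊a i⌋ - ⌊a j⌋) (u + ⌊a i⌋) ?_ ?_ ?_ ?_ <;> push_cast <;>
      linarith [h1.1, h1.2, h2.1, h2.2]
  have h1 := MeasureTheory.measure_biUnion_finset (μ := MeasureTheory.volume) hd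
    (fun v _ => measurableSet_Ico)
  have h2 : (⋃ i ∈ s, Ico (Int.fract (a i)) (Int.fract (a i) + l i)) ⊆ Ico 0 2 := by
    intro u hu
    simp only [mem_iUnion] at hu
    obtain ⟨i, hi, hu⟩ := hu
    exact ⟨(Int.fract_nonneg _).trans hu.1,
      by linarith [hu.2, Int.fract_lt_one (a i), (h0 i hi).2]⟩
  have h3 := MeasureTheory.measure_mono (μ := MeasureTheory.volume) h2
  rw [h1] at h3
  simp only [Real.volume_Ico, add_sub_cancel_left] at h3
  rw [← ENNReal.ofReal_sum_of_nonneg (fun i hi => (h0 i hi).1),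
    ENNReal.ofReal_le_ofReal_iff (by norm_num)] at h3
  simpa using h3

variable {G : Type} [Group G] [MulAction G ℝ]

/-- The difference quotient, equal to the derivative on the diagonal. -/
noncomputable def sl (g : G) (p t : ℝ) : ℝ := dslope (fun y : ℝ => g • y) p t

/-- The second derivative. -/
noncomputable def DD (g : G) (x : ℝ) : ℝ := deriv (D g) x

/-- Half of the nonlinearity. -/
noncomputable def Nl (g : G) (x : ℝ) : ℝ := DD g x / (2 * D g x)

/-- Logarithm of the difference quotient. -/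
noncomputable def Fl (g : G) (p t : ℝ) : ℝ := Real.log (sl g p t)

/-- Logarithmic cross-ratio distortion. -/
noncomputable def Xr (g : G) (p p' t1 t2 : ℝ) : ℝ := Fl g p t2 - Fl g p t1 - Fl g p' t2 + Fl g p' t1

theorem sl_same (g : G) (p : ℝ) : sl g p p = D g p := by
  unfold sl D; rw [dslope_same]

theorem sl_ne (g : G) {p t : ℝ} (h : t ≠ p) : sl g p t = (g • t - g • p) / (t - p) := by
  unfold sl; rw [dslope_of_ne _ h, slope_def_field]

theorem sl_symm (g : G) (p t : ℝ) : sl g p t = sl g t p := by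
  by_cases h : t = p
  · rw [h]
  · rw [sl_ne g h, sl_ne g (Ne.symm h), ← neg_sub (g • p), ← neg_sub p, neg_div_neg_eq]

theorem Fl_symm (g : G) (p t : ℝ) : Fl g p t = Fl g t p := by
  unfold Fl; rw [sl_symm]

variable [SmoothAct G]

theorem sl_pos (g : G) (p t : ℝ) : 0 < sl g p t := by
  rcases lt_trichotomy t p with h | h | h
  · rw [sl_ne g h.ne]
    exact div_pos_of_neg_of_neg (sub_neg.2 ((act_lt g).2 h)) (sub_neg.2 h)
  · rw [h, sl_same]; exact D_pos g p
  · rw [sl_ne g h.ne']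
    exact div_pos (sub_pos.2 ((act_lt g).2 h)) (sub_pos.2 h)

theorem exp_Fl (g : G) (p t : ℝ) : Real.exp (Fl g p t) = sl g p t := Real.exp_log (sl_pos g p t)

omit [SmoothAct G] in
theorem act_ne (g : G) {p t : ℝ} (h : t ≠ p) : g • t ≠ g • p := fun e =>
  h (MulAction.injective g e)

theorem sl_mul (g h : G) (p t : ℝ) : sl (g * h) p t = sl g (h • p) (h • t) * sl h p t := by
  by_cases e : t = p
  · rw [e, sl_same, sl_same, sl_same, D_mul]
  · have e' := act_ne h e
    rw [sl_ne _ e, sl_ne _ e, sl_ne _ e', mul_smul, mul_smul]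
    field_simp [sub_ne_zero.2 e, sub_ne_zero.2 e']

theorem Fl_mul (g h : G) (p t : ℝ) : Fl (g * h) p t = Fl g (h • p) (h • t) + Fl h p t := by
  unfold Fl; rw [sl_mul, Real.log_mul (sl_pos _ _ _).ne' (sl_pos _ _ _).ne']

theorem Xr_mul (g h : G) (p p' t1 t2 : ℝ) :
    Xr (g * h) p p' t1 t2 = Xr g (h • p) (h • p') (h • t1) (h • t2) + Xr h p p' t1 t2 := by
  unfold Xr; simp only [Fl_mul]; ring

theorem exp_Xr (g : G) (p p' t1 t2 : ℝ) :
    Real.exp (Xr g p p' t1 t2) = sl g p t2 * sl g p' t1 / (sl g p t1 * sl g p' t2) := by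
  unfold Xr
  rw [Real.exp_add, Real.exp_sub, Real.exp_sub]
  simp only [exp_Fl]
  have := sl_pos g p t1
  have := sl_pos g p' t2
  field_simp

theorem cont_sl (g : G) (p : ℝ) : Continuous (sl g p) := by
  rw [continuous_iff_continuousAt]
  intro t
  by_cases h : t = p
  · subst h; exact continuousAt_dslope_same.2 (diffAt g t)
  · exact (continuousAt_dslope_of_ne h).2 (cont_smul g).continuousAt

theorem cont_Fl (g : G) (p : ℝ) : Continuous (Fl g p) :=
  (cont_sl g p).log fun t => (sl_pos g p t).ne'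

theorem hasD_Fl (g : G) {p t : ℝ} (h : t ≠ p) :
    HasDerivAt (Fl g p) (D g t / (g • t - g • p) - 1 / (t - p)) t := by
  have h1 : t - p ≠ 0 := sub_ne_zero.2 h
  have h2 : g • t - g • p ≠ 0 := sub_ne_zero.2 (act_ne g h)
  have a : HasDerivAt (fun u => Real.log (g • u - g • p) - Real.log (u - p))
      (D g t / (g • t - g • p) - 1 / (t - p)) t :=
    (((hasD g t).sub_const _).log h2).sub (((hasDerivAt_id t).sub_const p).log h1)
  refine a.congr_of_eventuallyEq ?_
  filter_upwards [isOpen_ne.mem_nhds h] with u hu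
  unfold Fl
  rw [sl_ne g hu, Real.log_div (sub_ne_zero.2 (act_ne g hu)) (sub_ne_zero.2 hu)]

theorem hasD_D (g : G) (x : ℝ) : HasDerivAt (D g) (DD g x) x :=
  (((contDiff_D g).differentiable (by norm_num)) x).hasDerivAt

theorem cont_DD (g : G) : Continuous (DD g) := (contDiff_D g).continuous_deriv le_rfl

theorem DD_int (g : G) (x : ℝ) (n : ℤ) : DD g (x + n) = DD g x := by
  have : (fun y => D g (y + n)) = D g := funext fun y => D_int g y n
  unfold DD
  rw [← deriv_comp_add_const (D g) (n : ℝ) x, this]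

theorem mvtD (g : G) (a b : ℝ) : ∃ u ∈ uIcc a b, D g b - D g a = DD g u * (b - a) := by
  rcases lt_trichotomy a b with h | h | h
  · obtain ⟨c, hc, hc'⟩ := exists_hasDerivAt_eq_slope (D g) (DD g) h
      (cont_D g).continuousOn (fun x _ => hasD_D g x)
    refine ⟨c, ?_, ?_⟩
    · rw [uIcc_of_le h.le]; exact Ioo_subset_Icc_self hc
    · rw [hc']; field_simp [(sub_pos.2 h).ne']
  · subst h; exact ⟨a, left_mem_uIcc, by simp⟩
  · obtain ⟨c, hc, hc'⟩ := exists_hasDerivAt_eq_slope (D g) (DD g) h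
      (cont_D g).continuousOn (fun x _ => hasD_D g x)
    refine ⟨c, ?_, ?_⟩
    · rw [uIcc_of_ge h.le]; exact Ioo_subset_Icc_self hc
    · rw [hc']; field_simp [(sub_pos.2 h).ne']; ring

end

section

open Set Filter Topology
open scoped Pointwise

theorem count_sep {ι : Type} (s : Finset ι) (f : ι → ℝ) {A l δ : ℝ} (hδ : 0 < δ) (hl : 0 ≤ l)
    (h1 : ∀ i ∈ s, A ≤ f i ∧ f i ≤ A + l) (h2 : ∀ i ∈ s, ∀ j ∈ s, i ≠ j → δ ≤ |f i - f j|) :
    (s.card : ℝ) ≤ l / δ + 1 := by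
  have h3 : s.card ≤ (Finset.range (⌊l / δ⌋₊ + 1)).card := by
    refine Finset.card_le_card_of_injOn (fun i => ⌊(f i - A) / δ⌋₊) (fun i hi => ?_) ?_
    · simp only [Finset.coe_range, mem_Iio]
      exact Nat.lt_succ_of_le (Nat.floor_le_floor
        (div_le_div_of_nonneg_right (by linarith [(h1 i hi).2]) hδ.le))
    · intro i hi j hj e
      by_contra hne
      have a := h2 i hi j hj hne
      have p1 : 0 ≤ (f i - A) / δ := div_nonneg (by linarith [(h1 i hi).1]) hδ.le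
      have p2 : 0 ≤ (f j - A) / δ := div_nonneg (by linarith [(h1 j hj).1]) hδ.le
      have b1 := Nat.floor_le p1
      have b2 := Nat.floor_le p2
      have b3 := Nat.lt_floor_add_one ((f i - A) / δ)
      have b4 := Nat.lt_floor_add_one ((f j - A) / δ)
      simp only at e
      rw [e] at b1 b3
      have c : |(f i - A) / δ - (f j - A) / δ| < 1 := by rw [abs_lt]; constructor <;> linarith
      rw [← sub_div, abs_div, abs_of_pos hδ, div_lt_one hδ, show f i - A - (f j - A) = f i - f j by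
        ring] at c
      linarith
  rw [Finset.card_range] at h3
  have h4 := Nat.floor_le (div_nonneg hl hδ.le)
  have : (s.card : ℝ) ≤ ((⌊l / δ⌋₊ + 1 : ℕ) : ℝ) := by exact_mod_cast h3
  push_cast at this
  linarith

theorem count_mod {ι : Type} (s : Finset ι) (z : ι → ℝ) {δ : ℝ} (hδ : 0 < δ)
    (h2 : ∀ i ∈ s, ∀ j ∈ s, i ≠ j → ∀ m : ℤ, δ ≤ |z i - z j - m|) :
    (s.card : ℝ) ≤ 1 / δ + 1 := by
  refine count_sep s (fun i => Int.fract (z i)) (A := 0) hδ zero_le_one
    (fun i _ => ⟨Int.fract_nonneg _, by linarith [Int.fract_lt_one (z i)]⟩) fun i hi j hj hne => ?_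
  have := h2 i hi j hj hne (⌊z i⌋ - ⌊z j⌋)
  convert this using 2
  unfold Int.fract; push_cast; ring

variable {G : Type} [Group G]

/-- `γ 0, ..., γ n` is a path in the Cayley graph. -/
def Pa (S : Finset G) (γ : ℕ → G) (n : ℕ) : Prop := ∀ k < n, ∃ s ∈ S, γ (k + 1) = s * γ k

theorem Pa.mono {S : Finset G} {γ : ℕ → G} {n m : ℕ} (h : Pa S γ n) (hm : m ≤ n) : Pa S γ m :=
  fun k hk => h k (by omega)

theorem Pa.mul_right {S : Finset G} {γ : ℕ → G} {n : ℕ} (h : Pa S γ n) (u : G) :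
    Pa S (fun k => γ k * u) n := fun k hk => by
  obtain ⟨s, hs, e⟩ := h k hk
  exact ⟨s, hs, by simp only [e, mul_assoc]⟩

theorem Pa.shift {S : Finset G} {γ : ℕ → G} {n : ℕ} (h : Pa S γ n) (i : ℕ) :
    Pa S (fun k => γ (i + k)) (n - i) := fun k hk => h (i + k) (by omega)

theorem Pa.snoc {S : Finset G} {γ : ℕ → G} {n : ℕ} (h : Pa S γ n) {s : G} (hs : s ∈ S) :
    Pa S (fun k => if k ≤ n then γ k else s * γ n) (n + 1) := fun k hk => by
  by_cases c : k < n
  · simp only [show k + 1 ≤ n by omega, c.le, if_true]; exact h k c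
  · obtain rfl : k = n := by omega
    simp only [show ¬ k + 1 ≤ k by omega, le_refl, if_true, if_false]
    exact ⟨s, hs, rfl⟩

theorem Pa.mem_pow {S : Finset G} {γ : ℕ → G} {n : ℕ} (h : Pa S γ n) (i j : ℕ) (hij : i + j ≤ n) :
    γ (i + j) * (γ i)⁻¹ ∈ (S : Set G) ^ j := by
  induction j with
  | zero => simp
  | succ j ih =>
    obtain ⟨s, hs, e⟩ := h (i + j) (by omega)
    rw [← add_assoc, e, mul_assoc, pow_succ']
    exact Set.mul_mem_mul hs (ih (by omega))

theorem pa_of_pow {S : Finset G} (n : ℕ) :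
    ∀ g ∈ (S : Set G) ^ n, ∃ γ : ℕ → G, Pa S γ n ∧ γ 0 = 1 ∧ γ n = g := by
  induction n with
  | zero => intro g hg; exact ⟨fun _ => 1, fun k hk => by omega, rfl, by simpa using hg.symm⟩
  | succ n ih =>
    intro g hg
    rw [pow_succ'] at hg
    obtain ⟨s, hs, h, hh, rfl⟩ := hg
    obtain ⟨γ, a, b, c⟩ := ih h hh
    exact ⟨_, a.snoc hs, by simpa using b, by simp [c]⟩

variable [MulAction G ℝ]

/-- Every interval meeting the Cantor set contains a gap that can be made long. -/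
def Cantor.Exp (A : Cantor G) (δ : ℝ) : Prop :=
  ∀ u v : ℝ, (∃ w ∈ A.Λ, u < w ∧ w < v) →
    ∃ p ∈ LE A.Λ, u < p ∧ nxt A.Λ p < v ∧ ∃ g : G, δ ≤ A.len (g • p)

/-- The first `n` images of `x` are distinct modulo integers. -/
def Sim (x : ℝ) (γ : ℕ → G) (n : ℕ) : Prop :=
  ∀ i < n, ∀ j < n, i ≠ j → ∀ m : ℤ, γ i • x ≠ γ j • x + m

/-- The signed length of the segment from `a` to `b` seen from `x` through `g`. -/
noncomputable def Vw (x : ℝ) (g : G) (a b : ℝ) : ℝ :=
  D g x / (g • a - g • x) - D g x / (g • b - g • x)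

/-- Every interval with end points in the Cantor set contains a gap of cross ratio at least `c`. -/
def Cantor.Thick (A : Cantor G) (c : ℝ) : Prop :=
  ∀ p ∈ A.Λ, ∀ q ∈ A.Λ, (∃ w ∈ A.Λ, p < w ∧ w < q) → q ≤ p + 1 →
    ∃ j ∈ LE A.Λ, p ≤ j ∧ nxt A.Λ j ≤ q ∧ c * ((j - p) * (q - nxt A.Λ j)) ≤ A.len j * (q - p)

/-- Gaps within distance `r` of `z` are small as seen from `z`. -/
def Cantor.Thk (A : Cantor G) (c r z : ℝ) : Prop :=
  (∀ p ∈ LE A.Λ, z < p → nxt A.Λ p ≤ z + r → A.len p < c * (nxt A.Λ p - z)) ∧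
    ∀ p ∈ LE A.Λ, nxt A.Λ p < z → z - r ≤ p → A.len p < c * (z - p)

/-- Points accumulated from both sides. -/
def Cantor.Two (A : Cantor G) (z : ℝ) : Prop :=
  z ∈ A.Λ ∧ (∀ ε > 0, ∃ w ∈ A.Λ, z < w ∧ w < z + ε) ∧ ∀ ε > 0, ∃ w ∈ A.Λ, z - ε < w ∧ w < z

/-- A non-expandable point all of whose loops are trivial on the Cantor set on the right. -/
structure Bad (A : Cantor G) where
  x : ℝ
  δ : ℝ
  δ_pos : 0 < δ
  exp : A.Exp δ
  mem : x ∈ A.Λ
  ne : ∀ g : G, D g x ≤ 1
  acc : ∀ ε > 0, ∃ w ∈ A.Λ, x < w ∧ w < x + ε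
  triv : ∀ f : G, f • x = x → ∃ v, x < v ∧ ∀ w ∈ A.Λ, x < w → w < v → f • w = w

theorem Sim.mono {x : ℝ} {γ : ℕ → G} {n m : ℕ} (h : Sim x γ n) (hm : m ≤ n) : Sim x γ m :=
  fun i hi j hj => h i (by omega) j (by omega)

omit [MulAction G ℝ] in
theorem Pa.rev {S : Finset G} (hS : ∀ s ∈ S, s⁻¹ ∈ S) {γ : ℕ → G} {n : ℕ} (h : Pa S γ n) :
    Pa S (fun i => γ (n - i)) n := by
  intro k hk
  obtain ⟨s, hs, e⟩ := h (n - (k + 1)) (by omega)
  rw [show n - (k + 1) + 1 = n - k by omega] at e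
  exact ⟨s⁻¹, hS s hs, by simp only [e, inv_mul_cancel_left]⟩

variable [SmoothAct G]

theorem act_le_one (g : G) {a b : ℝ} (h : b ≤ a + 1) : g • b ≤ g • a + 1 := by
  rw [← SmoothAct.per]; exact (act_le g).2 h

theorem Cantor.Two.act {A : Cantor G} {z : ℝ} (h : A.Two z) (g : G) : A.Two (g • z) := by
  refine ⟨A.inv g z h.1, fun ε hε => ?_, fun ε hε => ?_⟩
  · have a : z < g⁻¹ • (g • z + ε) := by rw [← act_lt g, smul_inv_smul]; linarith
    obtain ⟨w, hw, b, c⟩ := h.2.1 _ (sub_pos.2 a)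
    refine ⟨g • w, A.inv g w hw, (act_lt g).2 b, ?_⟩
    rw [← smul_inv_smul g (g • z + ε), act_lt]; linarith
  · have a : g⁻¹ • (g • z - ε) < z := by rw [← act_lt g, smul_inv_smul]; linarith
    obtain ⟨w, hw, b, c⟩ := h.2.2 _ (sub_pos.2 a)
    refine ⟨g • w, A.inv g w hw, ?_, (act_lt g).2 c⟩
    rw [← smul_inv_smul g (g • z - ε), act_lt]; linarith

theorem allg_lg {S : Finset G} {L : ℝ} (hL : 0 ≤ L) (hS : ∀ s ∈ S, GLip L s) {γ : ℕ → G} {n : ℕ}
    (hγ : Pa S γ n) (h0 : γ 0 = 1) {k x u : ℝ} (h1 : k ≤ u) (h2 : u ≤ x) :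
    lg (γ n) x - lg (γ n) u ≤ L * ∑ i ∈ Finset.range n, (γ i • x - γ i • k) := by
  induction n with
  | zero => simp [h0, lg_one]
  | succ n ih =>
    obtain ⟨s, hs, e⟩ := hγ n (Nat.lt_succ_self n)
    have a1 := (le_abs_self _).trans (hS s hs (γ n • x) (γ n • u))
    rw [abs_of_nonneg (sub_nonneg.2 ((act_le _).2 h2))] at a1
    rw [e, lg_mul, lg_mul, Finset.sum_range_succ, mul_add]
    linarith only [ih (hγ.mono (Nat.le_succ n)), a1,
      mul_le_mul_of_nonneg_left ((act_le (γ n)).2 h1) hL]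

theorem allg_gaps (A : Cantor G) {k : ℝ} (hk : k ∈ LE A.Λ) {γ : ℕ → G} {n : ℕ}
    (hs : Sim (nxt A.Λ k) γ n) :
    ∑ i ∈ Finset.range n, (γ i • nxt A.Λ k - γ i • k) ≤ 2 := by
  refine disj_sum _ (fun i => γ i • k) _ (fun i _ => ⟨sub_nonneg.2 ((act_le _).2 (A.le_nxt k)),
    by linarith only [act_le_one (γ i) (A.nxt_le_one hk.1)]⟩)
    fun i hi j hj hij m u a1 a2 a3 a4 => ?_
  have m1 := A.inv (γ i) k hk.1
  have m2 := (A.add_int_mem m).2 (A.inv (γ j) k hk.1)
  have e1 := A.nxt_act (γ i) k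
  have e2 := (A.nxt_int (γ j • k) m).trans (congrArg (· + (m : ℝ)) (A.nxt_act (γ j) k))
  have e : γ i • k = γ j • k + m :=
    le_antisymm (A.le_of_lt_nxt m1 (by rw [e2]; linarith only [a1, a4]))
      (A.le_of_lt_nxt m2 (by rw [e1]; linarith only [a2, a3]))
  exact hs i (Finset.mem_range.1 hi) j (Finset.mem_range.1 hj) hij m (by rw [← e1, e, e2])

end

end Pool.Agent.Lib.MP_173a7e_an
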