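import Pool.Agent.Lib.MP_173a7e_an.FreeD

set_option autoImplicit false

namespace Pool.Agent.Results.MP_173a7e_an.TopFree

/-- Dippolito's question has a positive answer for every finitely generated group of circle
diffeomorphisms with Hoelder second derivatives (given by lifts) with an exceptional minimal set,
provided that at each non-expandable point the orientation preserving stabiliser is trivial or
has a nontrivial germ on the minimal set on each side of accumulation. -/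
theorem result :
    ∀ G : Subgroup (Equiv.Perm ℝ), G.FG → ∀ ht : Equiv.addRight (1 : ℝ) ∈ G,
      (∀ g ∈ G, ContDiff ℝ 2 (⇑g) ∧ (∀ x : ℝ, deriv (⇑g) x ≠ 0) ∧
        ((∀ x : ℝ, g (x + 1) = g x + 1) ∨ (∀ x : ℝ, g (x + 1) = g x - 1))) →
      (∀ g ∈ G, ∃ C α : ℝ, 0 < α ∧ ∀ x y : ℝ,
        |deriv (deriv ⇑g) x - deriv (deriv ⇑g) y| ≤ C * |x - y| ^ α) →
      ∀ Λ : Set ℝ, Λ.Nonempty → Perfect Λ → Λ ≠ Set.univ →
        (∀ g ∈ G, ∀ x ∈ Λ, g x ∈ Λ) →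
        (∀ x ∈ Λ, Λ ⊆ closure {y : ℝ | ∃ g ∈ G, g x = y}) →
        (∀ x ∈ Λ, (∀ g ∈ G, |deriv (⇑g) x| ≤ 1) →
          ∀ g ∈ G, g x = x → 0 < deriv (⇑g) x → g ≠ 1 →
          (x ∈ closure (Λ ∩ Set.Ioi x) → ∃ f ∈ G, f x = x ∧ 0 < deriv (⇑f) x ∧
            x ∈ closure {y ∈ Λ ∩ Set.Ioi x | f y ≠ y}) ∧
          (x ∈ closure (Λ ∩ Set.Iio x) → ∃ f ∈ G, f x = x ∧ 0 < deriv (⇑f) x ∧
            x ∈ closure {y ∈ Λ ∩ Set.Iio x | f y ≠ y})) →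
        ∃ φ : ℝ ≃ₜ ℝ, (∀ x : ℝ, φ (x + 1) = φ x + 1) ∧ ∃ ρ : G →* (ℝ ≃ₜ ℝ),
          (∀ x : ℝ, ρ ⟨Equiv.addRight (1 : ℝ), ht⟩ x = x + 1) ∧ ∀ g : G,
            ((∀ x : ℝ, ρ g (x + 1) = ρ g x + 1) ∨ (∀ x : ℝ, ρ g (x + 1) = ρ g x - 1)) ∧
            (∃ B : Finset ℝ, ∀ x : ℝ, (∀ b ∈ B, ∀ n : ℤ, x ≠ b + n) →
              ∃ ε > 0, ∃ a c : ℝ, ∀ z : ℝ, |z - x| < ε → ρ g z = a * z + c) ∧
            ∀ x ∈ Λ, φ ((g : Equiv.Perm ℝ) x) = ρ g (φ x) := by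
  intro G hfg ht hG hH Λ hne hperf hu hinv hmin hW
  have hint := Pool.Agent.Lib.MP_173a7e_an.interior_empty G
    (fun g hg => (hG g hg).1.continuous) hne hperf.closed hu hinv hmin
  exact Pool.Agent.Lib.MP_173a7e_an.dippolito_star G hfg ht hG Λ hne hperf hint hinv
    (Pool.Agent.Lib.MP_173a7e_an.star_tf G hfg ht hG hH Λ hne hperf hint hinv hmin hW)

end Pool.Agent.Results.MP_173a7e_an.TopFree
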