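import Pool.Agent.Lib.MP_173a7e_an.Gap

/-! The fixed gap lemma and one-sided repelling zones. -/

set_option autoImplicit false

namespace Pool.Agent.Lib.MP_173a7e_an

open Set Filter Topology

variable {G : Type} [Group G] [MulAction G ℝ] [SmoothAct G]

theorem disp_le {δ : G} {a b ε : ℝ} (hε : ε ≤ 1) (h : ∀ u ∈ uIcc a b, |lg δ u| ≤ ε) :
    |δ • b - b| ≤ |δ • a - a| + 2 * ε * |b - a| := by
  obtain ⟨w, hw, e⟩ := mvt δ a b
  have h1 : |D δ w - 1| ≤ 2 * ε := by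
    rw [← exp_lg]
    exact le_trans (Real.abs_exp_sub_one_le (le_trans (h w hw) hε)) (by linarith [h w hw])
  calc |δ • b - b| = |(δ • a - a) + (D δ w - 1) * (b - a)| := by congr 1; linarith
    _ ≤ |δ • a - a| + |(D δ w - 1) * (b - a)| := abs_add_le _ _
    _ ≤ _ := by rw [abs_mul]; gcongr

theorem Cantor.fix_gap (A : Cantor G) {K η : ℝ} (hη : 0 < η) (hηK : η ≤ 1 / K) :
    ∃ ε > 0, ∀ (φ δ : G) (z0 z1 : ℝ), |z1 - z0| = η → Good K z0 φ →
      (∀ u ∈ uIcc (φ • z0) (φ • z1), |lg δ u| ≤ ε) → |δ • φ • z0 - φ • z0| ≤ ε * D φ z0 →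
      ∃ p ∈ LE A.Λ, δ • p = p ∧ ∃ u ∈ uIcc (φ • z0) (φ • z1), p < u ∧ u < nxt A.Λ p := by
  obtain ⟨κ, hκ, H⟩ := A.piece η hη
  refine ⟨min 1 (κ / 50), lt_min one_pos (by positivity), fun φ δ z0 z1 hz hφ hδ hd => ?_⟩
  set ε := min 1 (κ / 50)
  have hε1 : ε ≤ 1 := min_le_left _ _
  have hε2 : ε ≤ κ / 50 := min_le_right _ _
  have hε0 : 0 < ε := lt_min one_pos (by positivity)
  have hη1 : η ≤ 1 := le_trans hηK (by rw [div_le_one hφ.pos]; exact hφ.1)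
  obtain ⟨q, hq, c, h1, h2, h3, h4⟩ := H (min z0 z1)
  have hin : ∀ w, c ≤ w → w ≤ c + κ → w ∈ uIcc z0 z1 := by
    intro w hw1 hw2
    rcases le_total z0 z1 with h | h
    · rw [min_eq_left h] at h1 h2; rw [abs_of_nonneg (by linarith)] at hz
      rw [uIcc_of_le h]; constructor <;> linarith
    · rw [min_eq_right h] at h1 h2; rw [abs_of_nonpos (by linarith)] at hz
      rw [uIcc_of_ge h]; constructor <;> linarith
  have hball : ∀ w ∈ uIcc z0 z1, |w - z0| ≤ η := fun w hw =>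
    uIcc_abs hw (by simpa using hη.le) hz.le
  have hm := hin (c + κ / 2) (by linarith) (by linarith)
  have hc := hin c le_rfl (by linarith)
  have hc' := hin (c + κ) (by linarith) le_rfl
  have hDp := D_pos φ z0
  have l1 := hφ.le_len (le_trans (hball _ hm) hηK) (le_trans (hball _ hc) hηK)
  have l2 := hφ.le_len (le_trans (hball _ hc') hηK) (le_trans (hball _ hm) hηK)
  have l3 := hφ.len_le (le_trans (hball _ hm) hηK) (show |z0 - z0| ≤ 1 / K by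
    simpa using hφ.pos.le)
  have p1 : φ • c < φ • (c + κ / 2) := (act_lt φ).2 (by linarith)
  have p2 : φ • (c + κ / 2) < φ • (c + κ) := (act_lt φ).2 (by linarith)
  rw [abs_of_pos (sub_pos.2 p1), show c + κ / 2 - c = κ / 2 by ring, abs_of_pos (by linarith)] at l1
  rw [abs_of_pos (sub_pos.2 p2), show c + κ - (c + κ / 2) = κ / 2 by ring,
    abs_of_pos (by linarith)] at l2
  have hu : φ • (c + κ / 2) ∈ uIcc (φ • z0) (φ • z1) := (act_uIcc φ).2 hm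
  have l4 := disp_le (δ := δ) (a := φ • z0) (b := φ • (c + κ / 2)) hε1
    (fun w hw => hδ w (uIcc_subset_uIcc_left hu hw))
  have l5 : |φ • (c + κ / 2) - φ • z0| ≤ 3 * D φ z0 := by
    have := hball _ hm
    nlinarith [abs_nonneg (c + κ / 2 - z0)]
  have l6 : |δ • φ • (c + κ / 2) - φ • (c + κ / 2)| ≤ 7 * ε * D φ z0 := by
    have := mul_le_mul_of_nonneg_left l5 (show 0 ≤ 2 * ε by linarith)
    nlinarith
  have l7 : 7 * ε * D φ z0 < D φ z0 * (κ / 2) / 3 := by nlinarith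
  have a1 : φ • q ≤ φ • c := (act_le φ).2 h3
  have a2 : φ • (c + κ) ≤ nxt A.Λ (φ • q) := by rw [A.nxt_act]; exact (act_le φ).2 h4
  have hp := A.act_LE φ hq
  refine ⟨φ • q, hp, ?_, _, hu, by linarith, by linarith⟩
  rw [abs_le] at l6
  refine A.gap_unique (u := δ • φ • (c + κ / 2)) (A.inv δ _ hp.1) hp.1 ((act_lt δ).2 (by linarith))
    ?_ (by linarith [l6.1]) (by linarith [l6.2])
  rw [A.nxt_act δ]; exact (act_lt δ).2 (by linarith)

theorem sact_lt {s : ℝ} (hs : s = 1 ∨ s = -1) (g : G) {u v : ℝ} :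
    s * g • u < s * g • v ↔ s * u < s * v := by
  rcases hs with rfl | rfl <;> simp [act_lt]

theorem sact_le {s : ℝ} (hs : s = 1 ∨ s = -1) (g : G) {u v : ℝ} :
    s * g • u ≤ s * g • v ↔ s * u ≤ s * v := by
  rcases hs with rfl | rfl <;> simp [act_le]

theorem s_abs {s : ℝ} (hs : s = 1 ∨ s = -1) (u v : ℝ) : |u - v| = |s * u - s * v| := by
  rcases hs with rfl | rfl
  · simp
  · rw [abs_sub_comm]; congr 1; ring

theorem s_uIcc {s : ℝ} (hs : s = 1 ∨ s = -1) {a b u v w : ℝ} (hw : w ∈ uIcc u v)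
    (h1 : a ≤ s * u) (h2 : s * u ≤ b) (h3 : a ≤ s * v) (h4 : s * v ≤ b) :
    a ≤ s * w ∧ s * w ≤ b := by
  rcases hs with rfl | rfl <;> rcases mem_uIcc.1 hw with h | h <;> constructor <;>
    linarith [h.1, h.2]

theorem s_inj {s : ℝ} (hs : s = 1 ∨ s = -1) {u v : ℝ} (h : s * u = s * v) : u = v := by
  rcases hs with rfl | rfl <;> linarith

omit [SmoothAct G] in
theorem Cantor.gap_between (A : Cantor G) {s : ℝ} (hs : s = 1 ∨ s = -1) {a b p w : ℝ}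
    (ha : a ∈ A.Λ) (hb : b ∈ A.Λ) (h1 : p < w) (h2 : w < nxt A.Λ p) (h3 : s * a ≤ s * w)
    (h4 : s * w ≤ s * b) :
    (s * a ≤ s * p ∧ s * p ≤ s * b) ∧ (s * a ≤ s * nxt A.Λ p ∧ s * nxt A.Λ p ≤ s * b) := by
  rcases hs with rfl | rfl
  · have := A.le_of_lt_nxt (p := p) ha (by linarith)
    have := A.nxt_le (p := p) hb (by linarith)
    refine ⟨⟨?_, ?_⟩, ?_, ?_⟩ <;> linarith
  · have := A.le_of_lt_nxt (p := p) hb (by linarith)
    have := A.nxt_le (p := p) ha (by linarith)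
    refine ⟨⟨?_, ?_⟩, ?_, ?_⟩ <;> linarith

/-- A one-sided repelling zone at `x` on the side `s`. -/
structure Zone (A : Cantor G) where
  x : ℝ
  s : ℝ
  g : G
  Y : ℝ
  hs : s = 1 ∨ s = -1
  fix : g • x = x
  Y_mem : Y ∈ A.Λ
  Y_pos : s * x < s * Y
  rep : ∀ u, s * x < s * u → s * u ≤ s * Y → s * u < s * g • u

namespace Zone

variable {A : Cantor G} (Z : Zone A)

/-- The backward orbit of the end point. -/
def pt (k : ℕ) : ℝ := Z.g⁻¹ ^ k • Z.Y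

/-- Level `m` fundamental domain. -/
def InD (m : ℕ) (u : ℝ) : Prop := Z.s * Z.pt (m + 2) < Z.s * u ∧ Z.s * u ≤ Z.s * Z.pt (m + 1)

/-- Enlarged level `m` domain. -/
def InN (m : ℕ) (u : ℝ) : Prop := Z.s * Z.pt (m + 3) ≤ Z.s * u ∧ Z.s * u ≤ Z.s * Z.pt m

/-- Length of the level `m` domain. -/
def l (m : ℕ) : ℝ := Z.s * Z.pt (m + 1) - Z.s * Z.pt (m + 2)

omit [SmoothAct G] in
theorem pt_succ (k : ℕ) : Z.pt (k + 1) = Z.g⁻¹ • Z.pt k := by
  unfold pt; rw [pow_succ', mul_smul]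

omit [SmoothAct G] in
theorem g_pt (k : ℕ) : Z.g • Z.pt (k + 1) = Z.pt k := by rw [pt_succ, smul_inv_smul]

omit [SmoothAct G] in
theorem pt_add (j k : ℕ) : Z.pt (j + k) = Z.g⁻¹ ^ k • Z.pt j := by
  unfold pt; rw [← mul_smul, ← pow_add, add_comm]

omit [SmoothAct G] in
theorem pow_pt (j k : ℕ) : Z.g ^ k • Z.pt (j + k) = Z.pt j := by
  rw [pt_add, inv_pow, smul_inv_smul]

omit [SmoothAct G] in
theorem pt_mem (k : ℕ) : Z.pt k ∈ A.Λ := A.inv _ _ Z.Y_mem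

omit [SmoothAct G] in
theorem fix_inv : Z.g⁻¹ • Z.x = Z.x := by rw [inv_smul_eq_iff, Z.fix]

omit [SmoothAct G] in
theorem fix_zpow (e : ℤ) : Z.g ^ e • Z.x = Z.x := MulAction.mem_stabilizer_iff.1
  (Subgroup.zpow_mem _ (MulAction.mem_stabilizer_iff.2 Z.fix) e)

theorem pt_pos (k : ℕ) : Z.s * Z.x < Z.s * Z.pt k := by
  induction k with
  | zero => simpa [pt] using Z.Y_pos
  | succ k ih =>
    have := (sact_lt Z.hs Z.g⁻¹).2 ih
    rwa [Z.fix_inv, ← pt_succ] at this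

theorem pt_step (k : ℕ) : Z.s * Z.pt (k + 1) < Z.s * Z.pt k := by
  induction k with
  | zero =>
    have := Z.rep Z.Y Z.Y_pos le_rfl
    rw [← sact_lt Z.hs Z.g⁻¹, inv_smul_smul] at this
    simpa [pt] using this
  | succ k ih => rw [pt_succ, pt_succ Z k, sact_lt Z.hs, ← pt_succ]; exact ih

theorem pt_anti {j k : ℕ} (h : j ≤ k) : Z.s * Z.pt k ≤ Z.s * Z.pt j :=
  (strictAnti_nat_of_succ_lt (f := fun k => Z.s * Z.pt k) Z.pt_step).antitone h

theorem pt_le (k : ℕ) : Z.s * Z.pt k ≤ Z.s * Z.Y := by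
  simpa [pt] using Z.pt_anti (Nat.zero_le k)

theorem l_pos (m : ℕ) : 0 < Z.l m := sub_pos.2 (Z.pt_step _)

theorem small {ε : ℝ} (hε : 0 < ε) : ∃ n, ∀ k, n ≤ k → Z.s * Z.pt k - Z.s * Z.x < ε := by
  have hb : BddBelow (range fun k => Z.s * Z.pt k) := ⟨Z.s * Z.x, by
    rintro _ ⟨k, rfl⟩; exact (Z.pt_pos k).le⟩
  have ht := tendsto_atTop_ciInf (f := fun k => Z.s * Z.pt k) (fun _ _ h => Z.pt_anti h) hb
  set c := ⨅ k, Z.s * Z.pt k
  have hss : Z.s * Z.s = 1 := by rcases Z.hs with h | h <;> rw [h] <;> norm_num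
  have ht' : Tendsto Z.pt atTop (𝓝 (Z.s * c)) := by
    have := ht.const_mul Z.s
    simpa [← mul_assoc, hss] using this
  have h1 : Tendsto (fun k => Z.g • Z.pt (k + 1)) atTop (𝓝 (Z.g • (Z.s * c))) :=
    ((cont_smul Z.g).tendsto _).comp (ht'.comp (tendsto_add_atTop_nat 1))
  simp only [g_pt] at h1
  have h2 := tendsto_nhds_unique h1 ht'
  have h3 : Z.s * Z.x ≤ c := le_ciInf (fun k => (Z.pt_pos k).le)
  have h4 : c ≤ Z.s * Z.Y := le_trans (ciInf_le hb 0) (Z.pt_le 0)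
  have h5 : c = Z.s * Z.x := by
    by_contra hc
    have := Z.rep (Z.s * c) (by rw [← mul_assoc, hss, one_mul]; exact lt_of_le_of_ne h3 (Ne.symm hc))
      (by rw [← mul_assoc, hss, one_mul]; exact h4)
    rw [h2] at this
    exact lt_irrefl _ this
  rw [h5] at ht
  obtain ⟨n, hn⟩ := eventually_atTop.1 (ht.eventually (gt_mem_nhds (show Z.s * Z.x < Z.s * Z.x + ε by linarith)))
  exact ⟨n, fun k hk => by linarith [hn k hk]⟩

theorem l_small {ε : ℝ} (hε : 0 < ε) : ∃ n, ∀ k, n ≤ k → Z.l k < ε := by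
  obtain ⟨n, hn⟩ := Z.small hε
  refine ⟨n, fun k hk => ?_⟩
  have := hn (k + 1) (by omega)
  have := Z.pt_pos (k + 2)
  unfold l; linarith

theorem exists_level {u : ℝ} (h1 : Z.s * Z.x < Z.s * u) (h2 : Z.s * u ≤ Z.s * Z.pt 1) : ∃ m, Z.InD m u := by
  classical
  obtain ⟨n, hn⟩ := Z.small (sub_pos.2 h1)
  have hex : ∃ m, Z.s * Z.pt (m + 2) < Z.s * u := ⟨n, by linarith [hn (n + 2) (by omega)]⟩
  refine ⟨Nat.find hex, Nat.find_spec hex, ?_⟩
  rcases h : Nat.find hex with _ | m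
  · simpa using h2
  · have := Nat.find_min hex (m := m) (by omega)
    exact le_of_not_gt this

theorem level_unique {m m' : ℕ} {u : ℝ} (h : Z.InD m u) (h' : Z.InD m' u) : m = m' := by
  by_contra hc
  rcases lt_or_gt_of_ne hc with hl | hl
  · have := Z.pt_anti (show m + 2 ≤ m' + 1 by omega)
    linarith [h.1, h'.2]
  · have := Z.pt_anti (show m' + 2 ≤ m + 1 by omega)
    linarith [h.2, h'.1]

theorem InD.inN {Z : Zone A} {m : ℕ} {u : ℝ} (h : Z.InD m u) : Z.InN m u :=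
  ⟨by linarith [h.1, Z.pt_step (m + 2)], by linarith [h.2, Z.pt_step m]⟩

theorem InD.pos {Z : Zone A} {m : ℕ} {u : ℝ} (h : Z.InD m u) : Z.s * Z.x < Z.s * u :=
  lt_trans (Z.pt_pos _) h.1

theorem InN.pos {Z : Zone A} {m : ℕ} {u : ℝ} (h : Z.InN m u) : Z.s * Z.x < Z.s * u :=
  lt_of_lt_of_le (Z.pt_pos _) h.1

theorem InN.le_Y {Z : Zone A} {m : ℕ} {u : ℝ} (h : Z.InN m u) : Z.s * u ≤ Z.s * Z.Y :=
  le_trans h.2 (Z.pt_le _)

theorem InN.abs {Z : Zone A} {m : ℕ} {u : ℝ} (h : Z.InN m u) :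
    |u - Z.x| ≤ Z.s * Z.pt m - Z.s * Z.x := by
  rw [s_abs Z.hs, abs_of_pos (sub_pos.2 h.pos)]; linarith [h.2]

theorem inD_pow (m k : ℕ) (u : ℝ) : Z.InD m (Z.g ^ k • u) ↔ Z.InD (m + k) u := by
  unfold InD
  rw [← Z.pow_pt (m + 2) k, ← Z.pow_pt (m + 1) k, sact_lt Z.hs, sact_le Z.hs,
    show m + 2 + k = m + k + 2 by ring, show m + 1 + k = m + k + 1 by ring]

theorem inN_pow (m k : ℕ) (u : ℝ) : Z.InN m (Z.g ^ k • u) ↔ Z.InN (m + k) u := by
  unfold InN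
  rw [← Z.pow_pt (m + 3) k, ← Z.pow_pt m k, sact_le Z.hs, sact_le Z.hs,
    show m + 3 + k = m + k + 3 by ring]

theorem inN_inv {m : ℕ} (k : ℕ) {u : ℝ} (h : Z.InN m u) : Z.InN (m + k) (Z.g⁻¹ ^ k • u) := by
  rw [← inN_pow, inv_pow, smul_inv_smul]; exact h

theorem inD_inv {m : ℕ} (k : ℕ) {u : ℝ} (h : Z.InD m u) : Z.InD (m + k) (Z.g⁻¹ ^ k • u) := by
  rw [← inD_pow, inv_pow, smul_inv_smul]; exact h

omit [SmoothAct G] in
theorem InN.conv {Z : Zone A} {m : ℕ} {u v w : ℝ} (hu : Z.InN m u) (hv : Z.InN m v)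
    (hw : w ∈ uIcc u v) : Z.InN m w := s_uIcc Z.hs hw hu.1 hu.2 hv.1 hv.2

theorem InD.nxt {Z : Zone A} {m : ℕ} {p : ℝ} (h : Z.InD m p) : Z.InN m (nxt A.Λ p) := by
  have h0 := A.le_nxt p
  have h1 := h.inN
  rcases Z.hs with e | e
  · have := A.nxt_le (p := p) (Z.pt_mem m) (by
      have := Z.pt_step m; have := h.2; rw [e] at *; linarith)
    constructor
    · have := h1.1; rw [e] at *; linarith
    · rw [e]; linarith
  · have := A.nxt_le (p := p) (Z.pt_mem (m + 2)) (by have := h.1; rw [e] at *; linarith)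
    constructor
    · have := Z.pt_step (m + 2); rw [e] at *; linarith
    · have := h1.2; rw [e] at *; linarith

theorem distortion : ∃ C, ∀ j k u v, Z.InN j u → Z.InN j v →
    |lg (Z.g⁻¹ ^ k) u - lg (Z.g⁻¹ ^ k) v| ≤ C := by
  obtain ⟨L, hL0, hL⟩ := exists_gLip Z.g⁻¹
  refine ⟨L * (3 * (Z.s * Z.Y - Z.s * Z.x)), fun j k u v hu hv => ?_⟩
  have key : |lg (Z.g⁻¹ ^ k) u - lg (Z.g⁻¹ ^ k) v| ≤ L * (Z.s * Z.pt j + Z.s * Z.pt (j + 1) +
      Z.s * Z.pt (j + 2) - Z.s * Z.pt (j + k) - Z.s * Z.pt (j + k + 1) - Z.s * Z.pt (j + k + 2)) := by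
    induction k with
    | zero => simp only [pow_zero, lg_one, add_zero]; simp; ring_nf; exact le_rfl
    | succ k ih =>
      rw [pow_succ', lg_mul, lg_mul]
      have h1 := hL (Z.g⁻¹ ^ k • u) (Z.g⁻¹ ^ k • v)
      have hu' := Z.inN_inv k hu
      have hv' := Z.inN_inv k hv
      have h2 : |Z.g⁻¹ ^ k • u - Z.g⁻¹ ^ k • v| ≤ Z.s * Z.pt (j + k) - Z.s * Z.pt (j + k + 3) := by
        rw [s_abs Z.hs, abs_le]; constructor <;> linarith [hu'.1, hu'.2, hv'.1, hv'.2]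
      have h3 := mul_le_mul_of_nonneg_left h2 hL0
      rw [show j + (k + 1) = j + k + 1 by ring, show j + k + 1 + 1 = j + k + 2 by ring,
        show j + k + 1 + 2 = j + k + 3 by ring]
      rw [abs_le] at h1 ih ⊢
      constructor <;> nlinarith [h1.1, h1.2, ih.1, ih.2]
  refine le_trans key (mul_le_mul_of_nonneg_left ?_ hL0)
  linarith [Z.pt_le j, Z.pt_le (j + 1), Z.pt_le (j + 2), Z.pt_pos (j + k), Z.pt_pos (j + k + 1),
    Z.pt_pos (j + k + 2)]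

theorem deriv_cmp : ∃ E, 1 ≤ E ∧ ∀ j k u, Z.InN j u →
    D (Z.g⁻¹ ^ k) u * Z.l j ≤ E * Z.l (j + k) ∧ Z.l (j + k) ≤ E * (D (Z.g⁻¹ ^ k) u * Z.l j) := by
  obtain ⟨C, hC⟩ := Z.distortion
  refine ⟨max 1 (Real.exp C), le_max_left _ _, fun j k u hu => ?_⟩
  obtain ⟨w, hw, e⟩ := mvt_abs (Z.g⁻¹ ^ k) (Z.pt (j + 2)) (Z.pt (j + 1))
  have n1 : Z.InN j (Z.pt (j + 2)) := ⟨Z.pt_anti (by omega), Z.pt_anti (by omega)⟩
  have n2 : Z.InN j (Z.pt (j + 1)) := ⟨Z.pt_anti (by omega), Z.pt_anti (by omega)⟩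
  have hw' := n1.conv n2 hw
  rw [← pt_add, ← pt_add, s_abs Z.hs, s_abs Z.hs (Z.pt (j + 1)),
    show j + 1 + k = j + k + 1 by ring, show j + 2 + k = j + k + 2 by ring] at e
  have e' : Z.l (j + k) = D (Z.g⁻¹ ^ k) w * Z.l j := by
    rw [← abs_of_pos (Z.l_pos (j + k)), ← abs_of_pos (Z.l_pos j)]; exact e
  have h1 := abs_le.1 (hC j k u w hu hw')
  have h2 := D_le_of_lg h1.2
  have h3 := D_le_of_lg (g := Z.g⁻¹ ^ k) (h := Z.g⁻¹ ^ k) (u := w) (v := u) (c := C)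
    (by linarith [h1.1])
  have h4 := le_max_right 1 (Real.exp C)
  have h5 := Z.l_pos j
  have h6 := D_pos (Z.g⁻¹ ^ k) w
  have h7 := D_pos (Z.g⁻¹ ^ k) u
  rw [e']
  constructor
  · rw [← mul_assoc]; exact mul_le_mul_of_nonneg_right (by nlinarith) h5.le
  · rw [← mul_assoc]; exact mul_le_mul_of_nonneg_right (by nlinarith) h5.le

theorem sum_l (n : ℕ) : ∑ j ∈ Finset.range n, Z.l j ≤ Z.s * Z.Y - Z.s * Z.x := by
  have : ∑ j ∈ Finset.range n, Z.l j = Z.s * Z.pt 1 - Z.s * Z.pt (n + 1) := by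
    induction n with
    | zero => simp
    | succ n ih => rw [Finset.sum_range_succ, ih]; unfold l; ring
  linarith [Z.pt_le 1, Z.pt_pos (n + 1)]

theorem good_inv : ∃ K, ∀ m u, Z.InN 0 u → Good K u (Z.g⁻¹ ^ m) := by
  obtain ⟨E, hE1, hE⟩ := Z.deriv_cmp
  obtain ⟨L, hL0, hL⟩ := exists_gLip Z.g⁻¹
  refine ⟨1 + 3 * L * (E * (Z.s * Z.Y - Z.s * Z.x) / Z.l 0), fun m u hu => ?_⟩
  refine schwartz hL0 (fun j => Z.g⁻¹ ^ j) m (fun j _ => ⟨_, hL, pow_succ' _ _⟩)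
    (by simpa using good_one le_rfl u) ?_
  rw [le_div_iff₀ (Z.l_pos 0), Finset.sum_mul]
  calc _ ≤ ∑ j ∈ Finset.range m, E * Z.l j := Finset.sum_le_sum (fun j _ => by
        simpa using (hE 0 j u hu).1)
    _ ≤ _ := by
        rw [← Finset.mul_sum]; exact mul_le_mul_of_nonneg_left (Z.sum_l m) (by linarith)

theorem D_small {ε : ℝ} (hε : 0 < ε) : ∃ n, ∀ m u, n ≤ m → Z.InN 0 u → D (Z.g⁻¹ ^ m) u ≤ ε := by
  obtain ⟨E, hE1, hE⟩ := Z.deriv_cmp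
  have h0 := Z.l_pos 0
  obtain ⟨n, hn⟩ := Z.l_small (ε := ε * Z.l 0 / E) (by positivity)
  refine ⟨n, fun m u hm hu => ?_⟩
  have h1 := (hE 0 m u hu).1
  have h2 := hn m hm
  rw [lt_div_iff₀ (by linarith)] at h2
  rw [zero_add] at h1
  exact le_of_mul_le_mul_right (by linarith) h0

theorem D_bdd : ∃ C, ∀ m u, Z.InN 0 u → D (Z.g⁻¹ ^ m) u ≤ C := by
  obtain ⟨E, hE1, hE⟩ := Z.deriv_cmp
  have h0 := Z.l_pos 0
  refine ⟨E * (Z.s * Z.Y - Z.s * Z.x) / Z.l 0, fun m u hu => ?_⟩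
  have h1 := (hE 0 m u hu).1
  rw [zero_add] at h1
  rw [le_div_iff₀ h0]
  refine le_trans h1 (mul_le_mul_of_nonneg_left ?_ (by linarith))
  have := Z.pt_le (m + 1)
  have := Z.pt_pos (m + 2)
  unfold l; linarith

/-- A map close to the identity which moves a point of the zone very little fixes a point. -/
theorem slow : ∃ ε > 0, ∃ κ > 0, ∀ (m : ℕ) (δ : G) (u : ℝ), Z.s * Z.pt (m + 2) ≤ Z.s * u →
    Z.s * u ≤ Z.s * Z.pt (m + 1) → (∀ v, Z.InN m v → |lg δ v| ≤ ε) → |δ • u - u| ≤ κ * Z.l m →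
    ∃ p, Z.InN m p ∧ δ • p = p := by
  obtain ⟨K, hK⟩ := Z.good_inv
  obtain ⟨E, hE1, hE⟩ := Z.deriv_cmp
  have n0 : Z.InN 0 (Z.pt 1) := ⟨Z.pt_anti (by omega), Z.pt_anti (by omega)⟩
  have hK0 := (hK 0 _ n0).pos
  have hl1 := Z.l_pos 1
  have hl0 := Z.l_pos 0
  obtain ⟨ε, hε, H⟩ := A.fix_gap (K := K) (η := min (1 / K) (Z.l 1))
    (lt_min (by positivity) hl1) (min_le_left _ _)
  refine ⟨ε, hε, ε / (E * Z.l 0), by positivity, fun m δ u h1 h2 h3 h4 => ?_⟩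
  set η := min (1 / K) (Z.l 1)
  have hη : 0 < η := lt_min (by positivity) hl1
  have hη' : η ≤ Z.l 1 := min_le_right _ _
  have hss : Z.s * Z.s = 1 := by rcases Z.hs with h | h <;> rw [h] <;> norm_num
  have a1 : Z.s * Z.pt 2 ≤ Z.s * Z.g ^ m • u := by
    rw [← Z.pow_pt 2 m, sact_le Z.hs, add_comm]; exact h1
  have a2 : Z.s * Z.g ^ m • u ≤ Z.s * Z.pt 1 := by
    rw [← Z.pow_pt 1 m, sact_le Z.hs, add_comm]; exact h2
  have b0 : Z.InN 0 (Z.g ^ m • u) := ⟨le_trans (Z.pt_anti (by omega)) a1,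
    le_trans a2 (Z.pt_anti (by omega))⟩
  have b1 : Z.InN 0 (Z.g ^ m • u - Z.s * η) := by
    have e : Z.s * (Z.g ^ m • u - Z.s * η) = Z.s * Z.g ^ m • u - η := by
      rw [mul_sub, ← mul_assoc, hss, one_mul]
    unfold l at hη'
    constructor
    · rw [e]; norm_num at hη' ⊢; linarith
    · rw [e]; linarith [b0.2]
  have c0 := Z.inN_inv m b0
  have c1 := Z.inN_inv m b1
  rw [zero_add] at c0 c1
  obtain ⟨p, hp, e, w, hw, h5, h6⟩ := H (Z.g⁻¹ ^ m) δ (Z.g ^ m • u) (Z.g ^ m • u - Z.s * η)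
    (by rcases Z.hs with h | h <;> rw [h] <;> simp [abs_of_pos hη]) (hK m _ b0)
    (fun v hv => h3 v (c0.conv c1 hv)) (by
      rw [inv_pow, inv_smul_smul, ← inv_pow]
      refine le_trans h4 ?_
      have := (hE 0 m _ b0).2
      rw [zero_add] at this
      rw [div_mul_eq_mul_div, div_le_iff₀ (by positivity)]
      nlinarith)
  have hw' := c0.conv c1 hw
  exact ⟨p, (A.gap_between Z.hs (Z.pt_mem _) (Z.pt_mem _) h5 h6 hw'.1 hw'.2).1, e⟩

theorem pow_rep {u : ℝ} (h1 : Z.s * Z.x < Z.s * u) (h2 : Z.s * u ≤ Z.s * Z.Y) (k : ℕ) :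
    Z.s * u < Z.s * Z.g ^ (k + 1) • u := by
  induction k with
  | zero => simpa using Z.rep u h1 h2
  | succ k ih =>
    have := (sact_lt Z.hs (Z.g ^ (k + 1))).2 (Z.rep u h1 h2)
    rw [pow_succ Z.g (k + 1), mul_smul]
    linarith

theorem zpow_inj {u : ℝ} (h1 : Z.s * Z.x < Z.s * u) (h2 : Z.s * u ≤ Z.s * Z.Y) {a b : ℤ}
    (h : Z.g ^ a • u = Z.g ^ b • u) : a = b := by
  have key : ∀ a b : ℤ, a < b → Z.g ^ a • u ≠ Z.g ^ b • u := by
    intro a b hab h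
    obtain ⟨k, hk⟩ : ∃ k : ℕ, b = a + (k + 1 : ℕ) := ⟨(b - a - 1).toNat, by omega⟩
    rw [hk, zpow_add, mul_smul, smul_left_cancel_iff, zpow_natCast] at h
    have := Z.pow_rep h1 h2 k
    rw [← h] at this
    exact lt_irrefl _ this
  rcases lt_trichotomy a b with hl | hl | hl
  · exact absurd h (key a b hl)
  · exact hl
  · exact absurd h.symm (key b a hl)

end Zone

end Pool.Agent.Lib.MP_173a7e_an
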